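import Mathlib

/-! Parity of the number of irreducible factors in characteristic two, through a lift. -/

namespace Pool.Agent.P.MP_45ff98_nt
open Polynomial Finset

section Lift
variable {O E : Type} [CommRing O] [IsDomain O] [Field E] [CharP E 2] (π : O →+* E)

omit [IsDomain O] [CharP E 2] in
theorem eval_four (hπ : ∀ x, π x = 0 → 2 ∣ x) (R : O[X]) (h : π (R.coeff 1) = 0) :
    8 ∣ R.eval 4 - R.eval 0 := by
  obtain ⟨e, he⟩ := hπ _ h
  have h1 := congrArg (eval 4) (divX_mul_X_add R)
  have h2 := congrArg (eval 4) (divX_mul_X_add R.divX)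
  rw [coeff_divX, he] at h2
  simp only [eval_add, eval_mul, eval_X, eval_C] at h1 h2
  rw [← coeff_zero_eq_eval_zero]
  exact ⟨e + 2 * R.divX.divX.eval 4, by rw [← h1, ← h2]; ring⟩

omit [IsDomain O] in
theorem res_step (hπ : ∀ x, π x = 0 → 2 ∣ x) {W Y Z : O[X]} {v : E[X]} {n : ℕ}
    (hW : W.map π = v ^ 2) (hY : Y.natDegree ≤ n) (hZ : Z.natDegree ≤ n) :
    8 ∣ resultant W (Y + 4 * Z) (v.natDegree + v.natDegree) n -
      resultant W Y (v.natDegree + v.natDegree) n := by
  set R := resultant (W.map C) (Y.map C + C X * Z.map C) (v.natDegree + v.natDegree) n with hR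
  have e : ∀ s, R.eval s = resultant W (Y + C s * Z) (v.natDegree + v.natDegree) n := fun s => by
    have c : (evalRingHom s).comp C = RingHom.id O := by ext; simp
    rw [hR, ← coe_evalRingHom, ← resultant_map_map, Polynomial.map_add, Polynomial.map_mul,
      Polynomial.map_map, Polynomial.map_map, Polynomial.map_map, c, map_C, map_id, map_id, map_id,
      coe_evalRingHom, eval_X]
  have := eval_four π hπ R (by
    have c : (mapRingHom π).comp C = C.comp π := by ext; all_goals simp
    have d : (v.map C).natDegree = v.natDegree := natDegree_map_eq_of_injective C_injective v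
    rw [← coeff_map, hR, ← coe_mapRingHom, ← resultant_map_map, Polynomial.map_map, c,
      ← Polynomial.map_map, hW, sq, Polynomial.map_mul, ← d, resultant_mul_left _ _ _ _
        (natDegree_map_le.trans (natDegree_add_le_of_degree_le (natDegree_map_le.trans hY)
          ((natDegree_C_mul_le _ _).trans (natDegree_map_le.trans hZ)))), mul_coeff_one, mul_comm,
      CharTwo.add_self_eq_zero])
  rwa [e, e, C_0, zero_mul, add_zero] at this

omit [IsDomain O] [CharP E 2] in
theorem der_step (hπ : ∀ x, π x = 0 → 2 ∣ x) {n : ℕ} (β : Fin n → O)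
    (hβ : Function.Injective fun i => π (β i)) (H : O[X]) (hH : (H.map π).natDegree + 1 < n) :
    8 ∣ ∏ i, (∏ j ∈ univ.erase i, (β i - β j) + 4 * H.eval (β i)) -
      ∏ i, ∏ j ∈ univ.erase i, (β i - β j) := by
  have := eval_four π hπ (∏ i, (C (∏ j ∈ univ.erase i, (β i - β j)) + C (H.eval (β i)) * X)) (by
    have L := Lagrange.coeff_eq_sum (s := univ) hβ.injOn (P := H.map π)
      (by rw [card_fin]; exact degree_le_natDegree.trans_lt (by exact_mod_cast (by omega)))
    rw [coeff_eq_zero_of_natDegree_lt (by rw [card_fin]; omega)] at L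
    have d : ∀ p : O[X], p.coeff 1 = p.derivative.eval 0 := fun p => by
      rw [← coeff_zero_eq_eval_zero, coeff_derivative]; simp
    have nz : ∀ i, ∏ j ∈ univ.erase i, (π (β i) - π (β j)) ≠ 0 := fun i =>
      prod_ne_zero_iff.2 fun j hj => sub_ne_zero.2 fun h => (mem_erase.1 hj).1 (hβ h).symm
    rw [d, derivative_prod_finset, ← mul_zero (∏ i, ∏ j ∈ univ.erase i, (π (β i) - π (β j))), L,
      mul_sum, eval_finsetSum, map_sum]
    refine sum_congr rfl fun i _ => ?_
    rw [← mul_prod_erase _ _ (mem_univ i)]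
    have := nz i
    rw [derivative_add, derivative_C, zero_add, derivative_mul, derivative_C, derivative_X]
    simp [eval_prod, eval_map_apply]
    field_simp)
  simp only [eval_prod, eval_add, eval_mul, eval_C, eval_X, mul_zero, add_zero] at this
  simpa only [mul_comm] using this

omit [IsDomain O] in
theorem eval_der {n : ℕ} (β : Fin n → O) (i : Fin n) :
    (derivative (∏ j, (X - C (β j)))).eval (β i) = ∏ j ∈ univ.erase i, (β i - β j) := by
  rw [← Lagrange.nodal_eq, Lagrange.eval_nodal_derivative_eval_node_eq (mem_univ i),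
    Lagrange.eval_nodal]

omit [IsDomain O] in
theorem disc_sq {n : ℕ} (β : Fin n → O) (hn : n % 4 ≤ 1) :
    ∏ i, ∏ j ∈ univ.erase i, (β i - β j) = (Matrix.vandermonde β).det ^ 2 := by
  have e : Even (∑ i : Fin n, (Ioi i).card) := by
    simp_rw [Fin.card_Ioi]
    rw [Fin.sum_univ_eq_sum_range (fun i => n - 1 - i), sum_range_reflect (fun i => i), sum_range_id]
    obtain ⟨a, rfl | rfl⟩ : ∃ a, n = 4 * a ∨ n = 4 * a + 1 := ⟨n / 4, by omega⟩
    · exact ⟨a * (4 * a - 1), by rw [Nat.div_eq_of_eq_mul_right two_pos]; ring⟩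
    · exact ⟨a * (4 * a + 1), by rw [Nat.div_eq_of_eq_mul_right two_pos]; simp; ring⟩
  simp_rw [← compl_singleton]
  rw [← prod_prod_Ioi_mul_eq_prod_prod_off_diag (fun j i => β i - β j), Matrix.det_vandermonde,
    ← one_mul (_ ^ 2), ← e.neg_one_pow, ← prod_pow_eq_pow_sum, ← prod_pow, ← prod_mul_distrib]
  refine prod_congr rfl fun i _ => ?_
  rw [← prod_const, ← prod_pow, ← prod_mul_distrib]
  exact prod_congr rfl fun j _ => by ring

theorem res_prod {n e : ℕ} (β : Fin n → O) (W : O[X]) (hW : W.natDegree ≤ e) :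
    resultant (∏ j, (X - C (β j))) W n e = ∏ j, W.eval (β j) := by
  have := resultant_prod_left univ (fun j => X - C (β j)) W e (by simp) hW
  rw [natDegree_finsetProd_X_sub_C_eq_card, card_fin] at this
  simpa [hW] using this

omit [CharP E 2] in
theorem lift_roots (σ : O →+* O) (τ : E →+* E) (hσ : ∀ x, π (σ x) = τ (π x))
    (hen : ∀ (Φ : O[X]) (b : E), Φ.Monic → (Φ.map π).eval b = 0 →
      (Φ.map π).derivative.eval b ≠ 0 → ∃ a, Φ.eval a = 0 ∧ π a = b)
    {Φ : O[X]} (hm : Φ.Monic) (hi : Φ.map σ = Φ) {n : ℕ} (hn : Φ.natDegree = n) (b : Fin n → E)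
    (hb : Function.Injective b) (h0 : ∀ i, (Φ.map π).eval (b i) = 0)
    (h1 : ∀ i, (Φ.map π).derivative.eval (b i) ≠ 0) (hr : ∀ i, τ (b i) = b (finRotate n i)) :
    ∃ β : Fin n → O, Φ = ∏ j, (X - C (β j)) ∧ (Function.Injective fun i => π (β i)) ∧
      σ (Matrix.vandermonde β).det = (-1) ^ (n - 1) * (Matrix.vandermonde β).det := by
  choose β r e using fun i => hen Φ (b i) hm (h0 i) (h1 i)
  have inj : Function.Injective fun i => π (β i) := by simpa only [e] using hb
  have hΦ : Φ = ∏ j, (X - C (β j)) := by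
    refine eq_of_monic_of_dvd_of_natDegree_le (monic_prod_X_sub_C _ _) hm ?_
      (by rw [natDegree_finsetProd_X_sub_C_eq_card, card_fin, hn])
    have := (Multiset.prod_X_sub_C_dvd_iff_le_roots hm.ne_zero (univ.val.map β)).2
      ((Multiset.le_iff_subset (univ.nodup.map (Function.Injective.of_comp inj))).2 fun x hx => by
        obtain ⟨i, -, rfl⟩ := Multiset.mem_map.1 hx
        exact (mem_roots hm.ne_zero).2 (r i))
    rwa [Multiset.map_map] at this
  have s : ∀ i, σ (β i) = β (finRotate n i) := fun i => by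
    have : Φ.eval (σ (β i)) = 0 := by rw [← hi, eval_map_apply, r, map_zero]
    rw [hΦ, eval_prod, prod_eq_zero_iff] at this
    obtain ⟨j, -, hj⟩ := this
    have hj : σ (β i) = β j := by simpa [sub_eq_zero] using hj
    rw [hj, hb (show b j = b (finRotate n i) by rw [← hr, ← e, ← e, ← hσ, hj])]
  refine ⟨β, hΦ, inj, ?_⟩
  have := Matrix.det_permute (finRotate n) (Matrix.vandermonde β)
  rw [sign_finRotate] at this
  rw [RingHom.map_det, show σ.mapMatrix (Matrix.vandermonde β) =
    (Matrix.vandermonde β).submatrix (finRotate n) id by ext; simp [s], this]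
  simp

theorem clash (hπ : ∀ x, π x = 0 → 2 ∣ x) (h2 : (2 : O) ≠ 0) (σ : O →+* O) {a b : O}
    (h : 8 ∣ a ^ 2 - b ^ 2) (ha : σ a = -a) (hb : σ b = b) : π a = 0 := by
  have t : π 2 = 0 := by rw [map_ofNat]; exact CharTwo.two_eq_zero
  have key : ∀ b, σ b = b → 4 ∣ a - b → π a = 0 := fun b hb ⟨e, he⟩ => by
    have := congrArg σ he
    rw [map_sub, map_mul, map_ofNat, ha, hb] at this
    rw [show a = 2 * (e - σ e) from mul_left_cancel₀ h2 (by linear_combination he - this), map_mul,
      t, zero_mul]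
  obtain ⟨c, hc⟩ := h
  obtain ⟨e, he⟩ := hπ (a - b) (pow_eq_zero_iff two_ne_zero |>.1 (by
    rw [← map_pow, show (a - b) ^ 2 = 2 * (4 * c + b ^ 2 - a * b) by linear_combination hc, map_mul,
      t, zero_mul]))
  have : e * (e + b) = 2 * c := mul_left_cancel₀ h2 (mul_left_cancel₀ h2 (by
    linear_combination hc - (a + b + 2 * e) * he))
  have := congrArg π this
  rw [map_mul, map_mul, t, zero_mul, mul_eq_zero] at this
  rcases this with h | h
  · obtain ⟨d, hd⟩ := hπ _ h
    exact key b hb ⟨d, by linear_combination he + 2 * hd⟩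
  · obtain ⟨d, hd⟩ := hπ _ h
    exact key (-b) (by rw [map_neg, hb]) ⟨d, by linear_combination he + 2 * hd⟩

theorem congr8 (hπ : ∀ x, π x = 0 → 2 ∣ x) (h2 : (2 : O) ≠ 0) (hs : Function.Surjective π)
    {F G : O[X]} {v a : E[X]} {k m : ℕ} (hF : F.Monic) (hm : F.natDegree = m) (em : 2 ∣ m)
    (hG : G.Monic) (hD : G.natDegree = 2 * k + 1) (hk : 4 ∣ k) (hkm : k < m)
    (hv : v.natDegree = k) (h1 : G.derivative.map π = v ^ 2) (ha : F.map π = v * a)
    (β : Fin (4 * m) → O) (hβ : F ^ 4 + G = ∏ j, (X - C (β j)))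
    (inj : Function.Injective fun i => π (β i)) (γ : Fin (2 * k + 1) → O)
    (hγ : G = ∏ j, (X - C (γ j))) :
    8 ∣ (Matrix.vandermonde β).det ^ 2 - (Matrix.vandermonde γ).det ^ 2 := by
  have hf := hF.map π
  have df : (F.map π).natDegree = m := by rw [hF.natDegree_map, hm]
  have dG : G.derivative.natDegree ≤ k + k := (natDegree_derivative_le G).trans (by omega)
  have da : a.natDegree = m - k := by
    rw [ha, natDegree_mul (left_ne_zero_of_mul (ha ▸ hf.ne_zero))
      (right_ne_zero_of_mul (ha ▸ hf.ne_zero))] at df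
    omega
  obtain ⟨A, hA, dA⟩ := exists_natDegree_eq_of_mem_lifts (mem_lifts_of_surjective hs (a ^ 2))
  rw [natDegree_pow, da] at dA
  obtain ⟨B, hB⟩ : C 2 ∣ F ^ 2 - G.derivative * A := (C_dvd_iff_dvd_coeff _ _).2 fun i => hπ _ (by
    rw [← coeff_map, Polynomial.map_sub, Polynomial.map_mul, Polynomial.map_pow, h1, ha, hA, mul_pow,
      sub_self, coeff_zero])
  have dB : B.natDegree ≤ 2 * m := by
    rw [← natDegree_C_mul h2, ← hB]
    exact (natDegree_sub_le _ _).trans (max_le (natDegree_pow_le.trans (by omega))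
      (natDegree_mul_le.trans (by omega)))
  have s1 := der_step π hπ β inj (-(F ^ 3 * F.derivative)) (by
    have : (F.map π).derivative.natDegree ≤ m - 2 := natDegree_le_iff_coeff_eq_zero.2 fun j hj => by
      rw [coeff_derivative]
      obtain h | h := (show m ≤ j + 1 by omega).eq_or_lt
      · rw [← Nat.cast_succ, (CharP.cast_eq_zero_iff E 2 _).2 (by rw [Nat.succ_eq_add_one, ← h]; exact em), mul_zero]
      · rw [coeff_eq_zero_of_natDegree_lt (by omega), zero_mul]
    rw [Polynomial.map_neg, natDegree_neg, Polynomial.map_mul, Polynomial.map_pow,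
      ← derivative_map]
    have := natDegree_mul_le (p := F.map π ^ 3) (q := (F.map π).derivative)
    have := natDegree_pow_le (p := F.map π) (n := 3)
    omega)
  have e1 : ∀ i, ∏ j ∈ univ.erase i, (β i - β j) + 4 * (-(F ^ 3 * F.derivative)).eval (β i) =
      G.derivative.eval (β i) := fun i => by
    rw [← eval_der, ← hβ]
    simp [derivative_pow]
    ring
  have s2 := res_step π hπ h1 (Y := G) (Z := B ^ 2) (n := 4 * m) (by omega)
    (natDegree_pow_le.trans (by omega))
  have e2 : F ^ 4 + G = G + 4 * B ^ 2 + G.derivative * (A * (G.derivative * A + C 4 * B)) := by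
    rw [show F ^ 4 = (G.derivative * A + C 2 * B) ^ 2 by rw [← hB]; ring, map_ofNat, map_ofNat]
    ring
  have ev : ∀ n, (-1 : O) ^ (n * (k + k)) = 1 := fun n => Even.neg_one_pow ⟨n * k, by ring⟩
  simp_rw [e1] at s1
  rw [disc_sq β (by omega), ← res_prod β _ dG, ← hβ, resultant_comm, ev, one_mul, e2,
    resultant_add_mul_right _ _ _ _ _ (by
      have := natDegree_mul_le (p := A) (q := G.derivative * A + C 4 * B)
      have := natDegree_add_le (G.derivative * A) (C 4 * B)
      have := natDegree_mul_le (p := G.derivative) (q := A)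
      have := natDegree_C_mul_le 4 B
      omega) dG] at s1
  have e3 : resultant G.derivative G (k + k) (4 * m) =
      (2 * k + 1 : O) ^ (4 * m - (2 * k + 1)) * (Matrix.vandermonde γ).det ^ 2 := by
    have c : G.derivative.coeff (k + k) = 2 * k + 1 := by
      rw [coeff_derivative, show k + k + 1 = G.natDegree by omega, hG.coeff_natDegree]
      push_cast
      ring
    have r := res_prod γ _ dG
    rw [← hγ] at r
    conv_lhs => rw [show 4 * m = 2 * k + 1 + (4 * m - (2 * k + 1)) by omega,
      resultant_add_right_deg _ _ _ _ _ hD.le, c, resultant_comm, mul_comm (k + k), ev, one_mul, r]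
    rw [← disc_sq γ (by omega)]
    congr 1
    exact prod_congr rfl fun i _ => by rw [← eval_der, ← hγ]
  have s3 : 8 ∣ (2 * k + 1 : O) ^ (4 * m - (2 * k + 1)) - 1 ^ (4 * m - (2 * k + 1)) := by
    obtain ⟨c, rfl⟩ := hk
    exact Dvd.dvd.trans ⟨c, by push_cast; ring⟩ (sub_dvd_pow_sub_pow _ _ _)
  rw [hv, e3] at s2
  have := (s2.sub s1).add (s3.mul_right ((Matrix.vandermonde γ).det ^ 2))
  convert this using 1
  ring

end Lift

variable {K : Type} [Field K] [Fintype K]

theorem orbit {p : K[X]} (hp : Irreducible p) {n : ℕ} (hn : p.natDegree = n) :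
    ∃ b : Fin n → AlgebraicClosure K, Function.Injective b ∧ (∀ i, aeval (b i) p = 0) ∧
      ∀ i, FiniteField.frobeniusAlgHom K _ (b i) = b (finRotate _ i) := by
  obtain ⟨x, hx⟩ := IsAlgClosed.exists_aeval_eq_zero (AlgebraicClosure K) p
    (degree_pos_of_irreducible hp).ne'
  set T := FiniteField.frobeniusAlgHom K (AlgebraicClosure K) with hT
  have per : Function.minimalPeriod T x = n := by
    refine Nat.dvd_right_iff_eq.1 fun d => ?_
    rw [← Function.isPeriodicPt_iff_minimalPeriod_dvd, ← hn,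
      hp.natDegree_dvd_iff_dvd_X_pow_card_pow_sub_X, ← hp.dvd_iff_aeval_eq_zero hx,
      Function.IsPeriodicPt, Function.IsFixedPt, hT, FiniteField.coe_frobeniusAlgHom, pow_iterate]
    simp [sub_eq_zero]
  refine ⟨fun i => T^[i] x, fun i j h => Fin.ext (Function.iterate_injOn_Iio_minimalPeriod
    (by rw [per]; exact i.2) (by rw [per]; exact j.2) h), fun i => ?_, fun i => ?_⟩
  · show aeval (T^[i] x) p = 0
    rw [← AlgHom.coe_pow, aeval_algHom_apply, hx, map_zero]
  · show T (T^[i] x) = T^[finRotate n i] x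
    rw [← Function.iterate_succ_apply' T, ← Function.iterate_mod_minimalPeriod_eq, per,
      finRotate_apply, Fin.val_add]
    simp

theorem sqrt_der [CharP K 2] (g : K[X]) : ∃ v, g.derivative = v ^ 2 := by
  have h : g.derivative.derivative = 0 := by
    ext j
    rw [coeff_derivative, coeff_derivative, mul_assoc, ← Nat.cast_succ, ← Nat.cast_succ,
      ← Nat.cast_mul, (CharP.cast_eq_zero_iff K 2 _).2
        (by rw [mul_comm]; exact (Nat.even_mul_succ_self _).two_dvd), mul_zero, coeff_zero]
  obtain ⟨c, hc⟩ := map_surjective _ (surjective_frobenius K 2) (contract 2 g.derivative)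
  exact ⟨c, by rw [← map_frobenius_expand, map_expand, hc, expand_contract 2 h two_ne_zero]⟩

variable (K) in
/-- A common multiple of all polynomials of degree at most `k`. -/
noncomputable def LL (k : ℕ) : K[X] := ∏ j ∈ Ioc 0 k, (X ^ Fintype.card K ^ j - X)

theorem dvd_LL (k : ℕ) (v : K[X]) : v ≠ 0 → v.natDegree ≤ k → v ∣ LL K k := by
  refine UniqueFactorizationMonoid.induction_on_coprime v (fun h => absurd rfl h)
    (fun h _ _ => h.dvd) (fun {p} i hp _ h => ?_) fun {x y} c hx hy h0 h => ?_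
  · have d := hp.irreducible.natDegree_pos
    rw [natDegree_pow] at h
    refine Dvd.dvd.trans ?_ (prod_dvd_prod_of_subset ((Ioc 0 i).image (· * p.natDegree)) _ _
      (image_subset_iff.2 fun j hj => mem_Ioc.2 ⟨Nat.mul_pos (mem_Ioc.1 hj).1 d,
        (Nat.mul_le_mul_right _ (mem_Ioc.1 hj).2).trans h⟩))
    rw [prod_image fun a _ b _ h => Nat.eq_of_mul_eq_mul_right d h]
    refine Dvd.dvd.trans (by simp) (prod_dvd_prod_of_dvd (fun _ => p) _ fun j _ => ?_)
    rw [← Nat.card_eq_fintype_card]
    exact hp.irreducible.natDegree_dvd_iff_dvd_X_pow_card_pow_sub_X.1 (dvd_mul_left _ _)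
  · rw [natDegree_mul (left_ne_zero_of_mul h0) (right_ne_zero_of_mul h0)] at h
    exact c.mul_dvd (hx (left_ne_zero_of_mul h0) (by omega)) (hy (right_ne_zero_of_mul h0) (by omega))

theorem LL_deg (k : ℕ) : (LL K k).Monic ∧ (LL K k).natDegree = ∑ j ∈ Ioc 0 k, Fintype.card K ^ j := by
  have m : ∀ j ∈ Ioc 0 k, (X ^ Fintype.card K ^ j - X : K[X]).Monic := fun j hj =>
    monic_X_pow_sub (by
      rw [degree_X]
      exact_mod_cast Nat.one_lt_pow (mem_Ioc.1 hj).1.ne' Fintype.one_lt_card)
  exact ⟨monic_prod_of_monic _ _ m, (natDegree_prod_of_monic _ _ m).trans (sum_congr rfl fun j hj =>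
    FiniteField.X_pow_card_pow_sub_X_natDegree_eq _ (mem_Ioc.1 hj).1.ne' Fintype.one_lt_card)⟩

theorem parity [CharP K 2] {f g : K[X]} {k m : ℕ} (hf : f.Monic) (hm : f.natDegree = m)
    (em : 2 ∣ m) (hg : g.Monic) (hD : g.natDegree = 2 * k + 1) (hk : 4 ∣ k) (hkm : k < m)
    (hd : ∀ v : K[X], v ≠ 0 → v.natDegree ≤ k → v ∣ f) (i1 : Irreducible g) :
    ¬ Irreducible (f ^ 4 + g) := fun i2 => by
  let E := AlgebraicClosure K
  let π : WittVector 2 E →+* E := WittVector.constantCoeff
  let τ : E →+* E := FiniteField.frobeniusAlgHom K E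
  let ι := WittVector.map (p := 2) (algebraMap K E)
  have c1 : π.comp ι = (algebraMap K E).comp WittVector.constantCoeff := by
    ext x; rfl
  have c2 : (WittVector.map τ).comp ι = ι := by
    ext x n; exact (FiniteField.frobeniusAlgHom K E).commutes _
  have ker : ∀ x, π x = 0 ↔ x ∈ Ideal.span {((2 : ℕ) : WittVector 2 E)} := fun x => by
    rw [← WittVector.ker_constantCoeff, RingHom.mem_ker]
  have hπ : ∀ x, π x = 0 → 2 ∣ x := fun x h => by
    simpa [Ideal.mem_span_singleton] using (ker x).1 h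
  have h2 : (2 : WittVector 2 E) ≠ 0 := by exact_mod_cast WittVector.p_nonzero 2 E
  have hs : Function.Surjective π := WittVector.constantCoeff_surjective 2
  have hen : ∀ (Φ : (WittVector 2 E)[X]) (b : E), Φ.Monic → (Φ.map π).eval b = 0 →
      (Φ.map π).derivative.eval b ≠ 0 → ∃ a, Φ.eval a = 0 ∧ π a = b := fun Φ b m h0 h1 => by
    obtain ⟨b, rfl⟩ := hs b
    rw [derivative_map] at h1
    rw [eval_map_apply] at h0 h1
    obtain ⟨u, hu⟩ := hs (π (Φ.derivative.eval b))⁻¹
    obtain ⟨a, r, e⟩ := HenselianRing.is_henselian (I := Ideal.span {((2 : ℕ) : WittVector 2 E)})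
      Φ m b ((ker _).1 h0) (IsUnit.of_mul_eq_one (Ideal.Quotient.mk _ u) (by
        rw [← map_mul, ← map_one (Ideal.Quotient.mk _), Ideal.Quotient.eq, ← ker, map_sub, map_mul,
          hu, mul_inv_cancel₀ h1, map_one, sub_self]))
    exact ⟨a, r, by rwa [← ker, map_sub, sub_eq_zero] at e⟩
  have lift : ∀ p : K[X], p.Monic → ∃ P : (WittVector 2 E)[X], P.Monic ∧
      P.natDegree = p.natDegree ∧ P.map π = p.map (algebraMap K E) ∧
      P.map (WittVector.map τ) = P := fun p hp => by
    obtain ⟨P, h1, h2, h3⟩ := lifts_and_natDegree_eq_and_monic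
      (mem_lifts_of_surjective (WittVector.constantCoeff_surjective 2) p) hp
    exact ⟨P.map ι, h3.map _, by rw [h3.natDegree_map, h2],
      by rw [Polynomial.map_map, c1, ← Polynomial.map_map, h1], by rw [Polynomial.map_map, c2]⟩
  have roots : ∀ (p : K[X]) (P : (WittVector 2 E)[X]) (n : ℕ), Irreducible p → P.Monic →
      P.natDegree = n → P.map π = p.map (algebraMap K E) → P.map (WittVector.map τ) = P →
      ∃ β : Fin n → WittVector 2 E, P = ∏ j, (X - C (β j)) ∧
        (Function.Injective fun i => π (β i)) ∧ WittVector.map τ (Matrix.vandermonde β).det =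
          (-1) ^ (n - 1) * (Matrix.vandermonde β).det := fun p P n ip m d e i => by
    obtain ⟨b, b1, b2, b3⟩ := orbit ip (n := n) (by
      rw [← natDegree_map (algebraMap K E), ← e, m.natDegree_map, d])
    exact lift_roots π _ τ (fun _ => rfl) hen m i d b b1
      (fun i => by rw [e, eval_map_algebraMap, b2]) (fun i => by
        rw [e, derivative_map, eval_map_algebraMap]
        exact (PerfectField.separable_of_irreducible ip).aeval_derivative_ne_zero (b2 i)) b3
  obtain ⟨F, F1, F2, F3, F4⟩ := lift f hf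
  obtain ⟨G, G1, G2, G3, G4⟩ := lift g hg
  have lt : G.degree < (F ^ 4).degree := degree_lt_degree (by rw [F1.natDegree_pow]; omega)
  obtain ⟨β, β1, β2, β3⟩ := roots _ (F ^ 4 + G) (4 * m) i2 ((F1.pow 4).add_of_left lt)
    (by rw [natDegree_add_eq_left_of_degree_lt lt, F1.natDegree_pow, F2, hm])
    (by simp [F3, G3]) (by simp [F4, G4])
  obtain ⟨γ, γ1, -, γ3⟩ := roots _ G (2 * k + 1) i1 G1 (G2.trans hD) G3 G4
  obtain ⟨v, hv⟩ := sqrt_der g
  have c : g.derivative.coeff (2 * k) = 1 := by
    rw [coeff_derivative, ← hD, hg.coeff_natDegree, Nat.cast_mul, CharP.cast_eq_zero K 2]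
    simp
  have dv : 2 * v.natDegree = 2 * k := by
    rw [← natDegree_pow, ← hv]
    exact le_antisymm ((natDegree_derivative_le g).trans (by omega))
      (le_natDegree_of_ne_zero (by rw [c]; exact one_ne_zero))
  obtain ⟨a, ha⟩ := hd v (by rintro rfl; simp [hv] at c) (by omega)
  have := congr8 π hπ h2 hs F1 (F2.trans hm) em G1 (G2.trans hD) hk hkm
    (v := v.map (algebraMap K E)) (a := a.map (algebraMap K E)) (by rw [natDegree_map]; omega)
    (by rw [← derivative_map, G3, derivative_map, hv, Polynomial.map_pow])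
    (by rw [F3, ha, Polynomial.map_mul]) β β1 β2 γ γ1
  have := clash π hπ h2 (WittVector.map τ) this
    (by rw [β3, Odd.neg_one_pow ⟨2 * m - 1, by omega⟩, neg_one_mul])
    (by rw [γ3, Even.neg_one_pow ⟨k, by omega⟩, one_mul])
  rw [RingHom.map_det, show π.mapMatrix (Matrix.vandermonde β) =
    Matrix.vandermonde fun i => π (β i) by ext; simp] at this
  exact Matrix.det_vandermonde_ne_zero_iff.2 β2 this

theorem gap [CharP K 2] (N : ℕ) : ∃ f : K[X], f.Monic ∧ N ≤ f.natDegree ∧
    ∀ P : K[X], Irreducible P → ((Fintype.card K - 1) * f.natDegree) ^ 2 <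
      16 * Fintype.card K ^ ((P - f).natDegree + 1) := by
  set k := 4 * (N + 1) with hk
  obtain ⟨hL, dL⟩ := LL_deg (K := K) k
  have q1 : 1 < Fintype.card K := Fintype.one_lt_card
  have km : 2 * k ≤ (LL K k).natDegree := by
    have := card_nsmul_le_sum (Ioc 0 k) (fun j => Fintype.card K ^ j) 2 fun j hj =>
      Nat.one_lt_pow (mem_Ioc.1 hj).1.ne' q1
    rw [Nat.card_Ioc, smul_eq_mul] at this
    omega
  have em : 2 ∣ (LL K k).natDegree := by
    obtain ⟨r, -, hr⟩ := FiniteField.card K 2
    rw [dL]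
    exact dvd_sum fun j hj => dvd_pow (hr ▸ dvd_pow_self 2 r.ne_zero) (mem_Ioc.1 hj).1.ne'
  have geo : ∀ k, (Fintype.card K - 1) * ∑ j ∈ Ioc 0 k, Fintype.card K ^ j + Fintype.card K =
      Fintype.card K ^ (k + 1) := fun k => by
    obtain ⟨r, hr⟩ : ∃ r, Fintype.card K = r + 1 := ⟨Fintype.card K - 1, by omega⟩
    induction k with
    | zero => simp
    | succ k ih =>
      rw [sum_Ioc_succ_top k.zero_le, mul_add, add_right_comm, ih, hr, Nat.add_sub_cancel]
      ring
  have lt : ∀ g : K[X], g.natDegree = 2 * k + 1 → g.degree < (LL K k ^ 4).degree := fun g h =>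
    degree_lt_degree (by rw [hL.natDegree_pow]; omega)
  have df : ∀ g : K[X], g.natDegree = 2 * k + 1 → (LL K k ^ 4 + g).natDegree =
      4 * (LL K k).natDegree := fun g h => by
    rw [natDegree_add_eq_left_of_degree_lt (lt g h), hL.natDegree_pow]
  refine ⟨LL K k ^ 4 + X ^ (2 * k + 1), (hL.pow 4).add_of_left (lt _ (natDegree_X_pow _)),
    by rw [df _ (natDegree_X_pow _)]; omega, fun P hP => ?_⟩
  set g := P - (LL K k ^ 4 + X ^ (2 * k + 1)) with hg
  obtain h | h := le_or_gt (2 * k + 1) g.natDegree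
  · calc _ = 16 * ((Fintype.card K - 1) * (LL K k).natDegree) ^ 2 := by
          rw [df _ (natDegree_X_pow _)]; ring
      _ < 16 * (Fintype.card K ^ (k + 1)) ^ 2 := by
          gcongr
          rw [← geo, dL]; omega
      _ ≤ _ := by
          rw [← pow_mul]
          exact Nat.mul_le_mul_left _ (Nat.pow_le_pow_right (by omega) (by omega))
  have l : g.degree < (X ^ (2 * k + 1) : K[X]).degree :=
    degree_lt_degree (by rwa [natDegree_X_pow])
  have m : (X ^ (2 * k + 1) + g).Monic := (monic_X_pow _).add_of_left l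
  have d : (X ^ (2 * k + 1) + g).natDegree = 2 * k + 1 := by
    rw [natDegree_add_eq_left_of_degree_lt l, natDegree_X_pow]
  have e : P = LL K k ^ 4 + (X ^ (2 * k + 1) + g) := by rw [hg]; ring
  rw [e] at hP
  refine absurd hP (parity hL rfl em m d ⟨_, hk⟩ (by omega) (dvd_LL k) ?_)
  refine (m.irreducible_iff_lt_natDegree_lt (by rintro h; simp [h] at d)).2 fun u mu du hu => ?_
  rw [d, mem_Ioc] at du
  have := natDegree_le_of_dvd ((hP.dvd_iff.1 (dvd_add (dvd_pow (dvd_LL k u mu.ne_zero (by omega))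
    four_ne_zero) hu)).resolve_left (not_isUnit_of_natDegree_pos u du.1)).dvd mu.ne_zero
  rw [df _ d] at this
  omega

end Pool.Agent.P.MP_45ff98_nt
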