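import Pool.Agent.P.MP_45ff98_nt.JDefs
import Pool.Agent.Lib.Sieve.Mertens
import Pool.Agent.P.MP_78d079_nt.PNT
import Pool.Agent.P.MP_45ff98_nt.JA0
import Pool.Agent.P.MP_ad7a55_nt.SgB
import Pool.Agent.P.MP_45ff98_nt.JA2a
import Pool.Agent.P.MP_45ff98_nt.JA1z
import Pool.Agent.P.MP_ad7a55_nt.SgD

-- part Pool.Agent.P.MP_45ff98_nt.JBase
section

/-! Basic facts about boxes, products of primes and exponentials. -/

namespace Pool.Agent.Jac
open Finset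

noncomputable section

theorem kk_pos (p : ℕ) : 1 ≤ kk p := Nat.le_add_left 1 _

theorem lt_two_pow_kk (p : ℕ) : p < 2 ^ kk p := Nat.lt_pow_succ_log_self (by norm_num) p

theorem two_pow_kk_le {p : ℕ} (hp : p ≠ 0) : 2 ^ (kk p - 1) ≤ p := by
  simpa [kk] using Nat.pow_log_le_self 2 hp

theorem two_pow_kk_le' {p : ℕ} (hp : p ≠ 0) : 2 ^ kk p ≤ 2 * p := by
  have := Nat.pow_log_le_self 2 hp
  rw [kk, pow_succ]; omega

theorem kk_mono {p q : ℕ} (h : p ≤ q) : kk p ≤ kk q :=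
  Nat.succ_le_succ (Nat.log_mono_right h)

theorem kk_two_pow {k : ℕ} (hk : 1 ≤ k) : kk (2 ^ (k - 1)) = k := by
  rw [kk, Nat.log_pow (by norm_num)]; omega

theorem le_kk_iff {k p : ℕ} (hp : p ≠ 0) : k ≤ kk p ↔ 2 ^ (k - 1) ≤ p := by
  rw [← Nat.le_log_iff_pow_le (by norm_num) hp, kk]; omega

theorem kk_lt_iff {k p : ℕ} (hp : p ≠ 0) : kk p < k ↔ p < 2 ^ (k - 1) := by
  rw [← not_le, le_kk_iff hp, not_le]

theorem kk_le_iff {k p : ℕ} (hp : p ≠ 0) : kk p ≤ k ↔ p < 2 ^ k := by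
  rw [← Nat.lt_succ_iff, kk_lt_iff hp]; simp

theorem lt_of_kk_lt {p q : ℕ} (h : kk p < kk q) : p < q := by
  by_contra hc
  exact absurd (kk_mono (not_lt.1 hc)) (not_le.2 h)

theorem two_le_kk {p : ℕ} (hp : p.Prime) : 2 ≤ kk p :=
  (le_kk_iff hp.ne_zero).2 (by simpa using hp.two_le)

theorem mem_PP {k p q : ℕ} : q ∈ PP k p ↔ q < p ∧ q.Prime ∧ k ≤ kk q := by
  simp [PP]

theorem mem_Box {k q : ℕ} : q ∈ Box k ↔ q.Prime ∧ kk q = k := by
  simp only [Box, mem_filter, mem_range, and_iff_right_iff_imp]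
  rintro ⟨-, rfl⟩
  exact lt_two_pow_kk q

theorem card_Box_le (k : ℕ) : (Box k).card ≤ 2 ^ (k - 1) := by
  rcases Nat.eq_zero_or_pos k with rfl | hk
  · have : Box 0 = ∅ := eq_empty_of_forall_notMem fun q hq => by
      have := (mem_Box.1 hq).2; have := kk_pos q; omega
    simp [this]
  have h : Box k ⊆ Ico (2 ^ (k - 1)) (2 ^ k) := fun q hq => by
    obtain ⟨h1, rfl⟩ := mem_Box.1 hq
    exact mem_Ico.2 ⟨two_pow_kk_le h1.ne_zero, lt_two_pow_kk q⟩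
  have h2 := card_le_card h
  rw [Nat.card_Ico] at h2
  have h3 : 2 ^ k = 2 * 2 ^ (k - 1) := by rw [← pow_succ']; congr 1; omega
  omega

theorem PP_mono {k k' p p' : ℕ} (hk : k ≤ k') (hp : p' ≤ p) : PP k' p' ⊆ PP k p := fun q hq => by
  rw [mem_PP] at hq ⊢
  exact ⟨by omega, hq.2.1, by omega⟩

theorem mn_mem {T : Finset ℕ} (h : T.Nonempty) : mn T ∈ T := by
  have := Nat.sInf_mem (s := (T : Set ℕ)) (by exact_mod_cast h)
  exact_mod_cast this

theorem mn_le {T : Finset ℕ} {p : ℕ} (h : p ∈ T) : mn T ≤ p := Nat.sInf_le (by exact_mod_cast h)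

theorem mn_eq {T : Finset ℕ} {p : ℕ} (h : p ∈ T) (h2 : ∀ q ∈ T, p ≤ q) : mn T = p :=
  le_antisymm (mn_le h) (h2 _ (mn_mem ⟨p, h⟩))

theorem mn_top {T : Finset ℕ} {p : ℕ} (h : p ∈ T) : mn (top T p) = p :=
  mn_eq (mem_filter.2 ⟨h, le_rfl⟩) fun _ hq => (mem_filter.1 hq).2

theorem pr_pos {T : Finset ℕ} (h : ∀ p ∈ T, p.Prime) : 0 < pr T :=
  prod_pos fun p hp => (h p hp).pos

theorem pr_le_two_pow (T : Finset ℕ) : pr T ≤ 2 ^ ks T := by
  rw [ks, ← prod_pow_eq_pow_sum]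
  exact prod_le_prod' fun p _ => (lt_two_pow_kk p).le

theorem two_pow_ks_le {T : Finset ℕ} (h : ∀ p ∈ T, p.Prime) : 2 ^ ks T ≤ 2 ^ T.card * pr T := by
  rw [ks, ← prod_pow_eq_pow_sum, pr, ← prod_const, ← prod_mul_distrib]
  exact prod_le_prod' fun p hp => two_pow_kk_le' (h p hp).ne_zero

theorem primeFactors_pr {T : Finset ℕ} (h : ∀ p ∈ T, p.Prime) : (pr T).primeFactors = T :=
  Nat.primeFactors_prod h

theorem pr_inj {S T : Finset ℕ} (hS : ∀ p ∈ S, p.Prime) (hT : ∀ p ∈ T, p.Prime)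
    (h : pr S = pr T) : S = T := by
  rw [← primeFactors_pr hS, h, primeFactors_pr hT]

theorem prime_dvd_pr {T : Finset ℕ} (h : ∀ p ∈ T, p.Prime) {r : ℕ} (hr : r.Prime) :
    r ∣ pr T ↔ r ∈ T := by
  rw [← primeFactors_pr h, Nat.mem_primeFactors, primeFactors_pr h]
  exact ⟨fun h1 => ⟨hr, h1, (pr_pos h).ne'⟩, fun h1 => h1.2.1⟩

theorem pr_dvd_iff {T : Finset ℕ} (h : ∀ p ∈ T, p.Prime) (m : ℤ) :
    (pr T : ℤ) ∣ m ↔ ∀ p ∈ T, (p : ℤ) ∣ m := by
  refine ⟨fun h1 p hp => (Int.natCast_dvd_natCast.2 (dvd_prod_of_mem _ hp)).trans h1, fun h1 => ?_⟩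
  rw [pr, Nat.cast_prod]
  refine Finset.prod_dvd_of_coprime (fun p hp q hq hne => ?_) h1
  exact Nat.isCoprime_iff_coprime.2 ((Nat.coprime_primes (h p hp) (h q hq)).2 hne)

theorem pr_dvd_iff_nat {T : Finset ℕ} (h : ∀ p ∈ T, p.Prime) (m : ℕ) :
    pr T ∣ m ↔ ∀ p ∈ T, p ∣ m := by
  rw [← Int.natCast_dvd_natCast, pr_dvd_iff h]
  simp only [Int.natCast_dvd_natCast]

theorem pr_insert {T : Finset ℕ} {q : ℕ} (h : q ∉ T) : pr (insert q T) = q * pr T :=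
  prod_insert h

theorem ks_insert {T : Finset ℕ} {q : ℕ} (h : q ∉ T) : ks (insert q T) = kk q + ks T :=
  sum_insert h

theorem pr_union {S T : Finset ℕ} (h : Disjoint S T) : pr (S ∪ T) = pr S * pr T := prod_union h

theorem ks_union {S T : Finset ℕ} (h : Disjoint S T) : ks (S ∪ T) = ks S + ks T := sum_union h

theorem card_le_of_pr_le (F : Finset (Finset ℕ)) (Z : ℕ)
    (h : ∀ T ∈ F, (∀ p ∈ T, p.Prime) ∧ pr T ≤ Z) : F.card ≤ Z := by
  have := card_le_card_of_injOn (s := F) (t := Ioc 0 Z) pr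
    (fun T hT => by simpa using ⟨pr_pos (h T hT).1, (h T hT).2⟩)
    (fun S hS T hT e => pr_inj (h S hS).1 (h T hT).1 e)
  simpa using this

theorem sum_inv_pr_le (F : Finset (Finset ℕ)) (Z : ℕ)
    (h : ∀ T ∈ F, (∀ p ∈ T, p.Prime) ∧ pr T ≤ Z) :
    ∑ T ∈ F, 1 / (pr T : ℝ) ≤ 1 + Real.log Z := by
  classical
  rw [← sum_image (f := fun n : ℕ => 1 / (n : ℝ)) (g := pr)
    (fun S hS T hT e => pr_inj (h S hS).1 (h T hT).1 e)]
  refine le_trans (sum_le_sum_of_subset_of_nonneg (fun n hn => ?_) fun _ _ _ => by positivity)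
    (Pool.Agent.Lib.Sieve.sum_inv_Ioc_le Z)
  obtain ⟨T, hT, rfl⟩ := mem_image.1 hn
  simpa using ⟨pr_pos (h T hT).1, (h T hT).2⟩

/-- Decomposition of a sum over subsets according to the largest element. -/
theorem sum_powerset_max (S : Finset ℕ) (F : Finset ℕ → ℝ) :
    ∑ T ∈ S.powerset, F T =
      F ∅ + ∑ q ∈ S, ∑ T ∈ (S.filter (fun r => r < q)).powerset, F (insert q T) := by
  induction S using Finset.induction_on_max with
  | empty => simp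
  | insert a s ha ih =>
    have hn : a ∉ s := fun h => lt_irrefl _ (ha a h)
    rw [sum_powerset_insert hn, ih, sum_insert hn]
    have h1 : (insert a s).filter (fun r => r < a) = s := by
      rw [filter_insert, if_neg (lt_irrefl a)]
      exact filter_true_of_mem ha
    have h2 : ∀ q ∈ s, (insert a s).filter (fun r => r < q) = s.filter (fun r => r < q) :=
      fun q hq => by rw [filter_insert, if_neg (not_lt.2 (ha q hq).le)]
    have h3 : ∑ q ∈ s, ∑ T ∈ ((insert a s).filter (fun r => r < q)).powerset, F (insert q T) =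
        ∑ q ∈ s, ∑ T ∈ (s.filter (fun r => r < q)).powerset, F (insert q T) :=
      sum_congr rfl fun q hq => by rw [h2 q hq]
    rw [h1, h3]
    ring

theorem PP_filter_lt {k p q : ℕ} (h : q ≤ p) : (PP k p).filter (fun r => r < q) = PP k q := by
  ext r
  simp only [mem_filter, mem_PP]
  constructor
  · rintro ⟨⟨-, h2⟩, h3⟩; exact ⟨h3, h2⟩
  · rintro ⟨h1, h2⟩; exact ⟨⟨by omega, h2⟩, h1⟩

theorem sum_PP_powerset (k p : ℕ) (F : Finset ℕ → ℝ) :
    ∑ T ∈ (PP k p).powerset, F T =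
      F ∅ + ∑ q ∈ PP k p, ∑ T ∈ (PP k q).powerset, F (insert q T) := by
  rw [sum_powerset_max]
  congr 1
  exact sum_congr rfl fun q hq => by rw [PP_filter_lt (mem_PP.1 hq).1.le]

theorem St.mono {e t k k' : ℕ} (h : St e t k) (hk : k' ≤ k) : St e t k' :=
  ⟨hk.trans h.1, fun he => by have := h.2 he; omega⟩

theorem St.child {e t k k' : ℕ} (h : St e t k) (hk : k' ≤ k) (hc : Cont e t k') :
    St (e + 1) (t - k') k' ∧ 2 * k' ≤ t := by
  rcases Nat.even_or_odd e with he | he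
  · have := h.2 he
    exact ⟨⟨by omega, fun h1 => absurd h1 (Nat.not_even_iff_odd.2 he.add_one)⟩, by omega⟩
  · have := hc he.add_one
    exact ⟨⟨by omega, fun _ => by omega⟩, by omega⟩

theorem sum_boxes (S : Finset ℕ) (K : Finset ℕ) (f : ℕ → ℝ) :
    ∑ q ∈ S.filter (fun q => kk q ∈ K), f (kk q) / q =
      ∑ k ∈ K, (∑ q ∈ S.filter (fun q => kk q = k), 1 / (q : ℝ)) * f k := by
  rw [← sum_fiberwise_of_maps_to (g := kk) (t := K) (fun q hq => (mem_filter.1 hq).2)]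
  refine sum_congr rfl fun k hk => ?_
  rw [sum_mul, filter_filter]
  refine sum_congr (filter_congr fun q _ => ⟨fun h => h.2, fun h => ⟨h ▸ hk, h⟩⟩) fun q hq => ?_
  rw [(mem_filter.1 hq).2]; ring

/-- Passage from primes to boxes, upper bound. -/
theorem box_upper {k0 : ℕ} (hB : HB k0) (S K : Finset ℕ) (hS : ∀ q ∈ S, q.Prime ∧ kk q ∈ K)
    (hK : ∀ k ∈ K, k0 ≤ k) (f : ℕ → ℝ) (hf : ∀ k ∈ K, 0 ≤ f k) :
    ∑ q ∈ S, f (kk q) / q ≤ ∑ k ∈ K, 101 / 100 / (k : ℝ) * f k := by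
  rw [← filter_true_of_mem (s := S) (p := fun q => kk q ∈ K) fun q hq => (hS q hq).2, sum_boxes]
  refine sum_le_sum fun k hk => mul_le_mul_of_nonneg_right ?_ (hf k hk)
  refine le_trans (sum_le_sum_of_subset_of_nonneg (fun q hq => ?_) fun _ _ _ => by positivity)
    (hB k (hK k hk)).2
  exact mem_Box.2 ⟨(hS q (mem_filter.1 hq).1).1, (mem_filter.1 hq).2⟩

/-- Passage from primes to boxes, lower bound. -/
theorem box_lower {k0 : ℕ} (hB : HB k0) (p : ℕ) (K : Finset ℕ)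
    (hK : ∀ k ∈ K, k0 ≤ k ∧ k < kk p) (f : ℕ → ℝ) (hf : ∀ k ∈ K, 0 ≤ f k) :
    ∑ k ∈ K, 99 / 100 / (k : ℝ) * f k ≤
      ∑ q ∈ (PP k0 p).filter (fun q => kk q ∈ K), f (kk q) / q := by
  rw [sum_boxes]
  refine sum_le_sum fun k hk => mul_le_mul_of_nonneg_right ?_ (hf k hk)
  refine le_trans (hB k (hK k hk).1).1
    (sum_le_sum_of_subset_of_nonneg (fun q hq => ?_) fun _ _ _ => by positivity)
  obtain ⟨h1, rfl⟩ := mem_Box.1 hq
  exact mem_filter.2 ⟨mem_PP.2 ⟨lt_of_kk_lt (hK _ hk).2, h1, (hK _ hk).1⟩, rfl⟩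

theorem TP_le_TB {k0 : ℕ} (hB : HB k0) (F : ℕ → ℕ → ℕ → ℝ) (hF : ∀ e t k, 0 ≤ F e t k)
    (e t p : ℕ) : TP k0 (fun e t q => F e t (kk q)) e t p ≤ TB k0 (kk p) F e t := by
  refine box_upper hB _ _ (fun q hq => ?_) (fun k hk => (mem_Icc.1 (mem_filter.1 hk).1).1)
    (fun k => F (e + 1) (t - k) k) fun k _ => hF _ _ _
  obtain ⟨h1, h2⟩ := mem_filter.1 hq
  obtain ⟨h3, h4, h5⟩ := mem_PP.1 h1
  exact ⟨h4, mem_filter.2 ⟨mem_Icc.2 ⟨h5, kk_mono h3.le⟩, h2⟩⟩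

theorem HB.mono {k0 k1 : ℕ} (h : HB k0) (hk : k0 ≤ k1) : HB k1 := fun k h1 => h k (hk.trans h1)

theorem norm_ee (x : ℝ) : ‖ee x‖ = 1 := by
  have : (2 * Real.pi * Complex.I * x : ℂ) = ((2 * Real.pi * x : ℝ) : ℂ) * Complex.I := by
    push_cast; ring
  rw [ee, this, Complex.norm_exp_ofReal_mul_I]

theorem ee_add (x y : ℝ) : ee (x + y) = ee x * ee y := by
  rw [ee, ee, ee, ← Complex.exp_add]; congr 1; push_cast; ring

theorem ee_zero : ee 0 = 1 := by simp [ee]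

theorem ee_int (n : ℤ) : ee n = 1 := by
  rw [ee, ← Complex.exp_int_mul_two_pi_mul_I n]; congr 1; push_cast; ring

theorem ee_add_int (x : ℝ) (n : ℤ) : ee (x + n) = ee x := by rw [ee_add, ee_int, mul_one]

theorem conj_ee (x : ℝ) : (starRingEnd ℂ) (ee x) = ee (-x) := by
  rw [ee, ee, ← Complex.exp_conj]; congr 1
  simp only [map_mul, Complex.conj_ofReal, Complex.conj_I, map_ofNat]; push_cast; ring

theorem ee_nat_mul (x : ℝ) (n : ℕ) : ee (n * x) = ee x ^ n := by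
  rw [ee, ee, ← Complex.exp_nat_mul]; congr 1; push_cast; ring

theorem norm_ee_sub (x y : ℝ) : ‖ee x - ee y‖ ≤ 2 * Real.pi * |x - y| := by
  have h1 : ee x - ee y = ee y * (ee (x - y) - 1) := by
    rw [mul_sub, ← ee_add, mul_one]; congr 2; ring
  have h2 : (2 * Real.pi * Complex.I * (x - y : ℝ) : ℂ) =
      Complex.I * ((2 * Real.pi * (x - y) : ℝ) : ℂ) := by push_cast; ring
  rw [h1, norm_mul, norm_ee, one_mul, ee, h2]
  refine Real.norm_exp_I_mul_ofReal_sub_one_le.trans (le_of_eq ?_)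
  rw [Real.norm_eq_abs, abs_mul, abs_of_pos Real.two_pi_pos]

theorem ee_eq_one_iff (x : ℝ) : ee x = 1 ↔ ∃ n : ℤ, x = n := by
  rw [ee, Complex.exp_eq_one_iff]
  refine exists_congr fun n => ⟨fun h => ?_, fun h => by rw [h]; push_cast; ring⟩
  have h0 : (2 * Real.pi * Complex.I : ℂ) ≠ 0 := Complex.two_pi_I_ne_zero
  have : (x : ℂ) = n := mul_left_cancel₀ h0 (by rw [h]; ring)
  exact_mod_cast this

/-- Orthogonality of additive characters. -/
theorem sum_ee (q : ℕ) (hq : 1 ≤ q) (a : ℤ) :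
    ∑ t ∈ range q, ee (a * t / q) = if (q : ℤ) ∣ a then (q : ℂ) else 0 := by
  have hq0 : (q : ℝ) ≠ 0 := by positivity
  have h1 : ∀ t : ℕ, ee (a * t / q) = ee (a / q) ^ t := fun t => by
    rw [← ee_nat_mul]; congr 1; ring
  simp only [h1]
  split_ifs with h
  · obtain ⟨c, rfl⟩ := h
    have : (((q * c : ℤ) : ℝ) / q) = (c : ℝ) := by push_cast; field_simp
    rw [this, ee_int]; simp
  · have h2 : ee (a / q) ≠ 1 := fun h3 => by
      obtain ⟨n, hn⟩ := (ee_eq_one_iff _).1 h3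
      refine h ⟨n, ?_⟩
      have : (a : ℝ) = q * n := by rw [← hn]; field_simp
      exact_mod_cast this
    rw [geom_sum_eq h2, ← ee_nat_mul]
    have : (q : ℝ) * (a / q) = a := by field_simp
    rw [this, ee_int]; simp

theorem mb_le_one (k : ℕ) : mb k ≤ 1 := by
  have h : ∀ q ∈ Box k, 1 / (q : ℝ) ≤ 1 / 2 ^ (k - 1) := fun q hq => by
    obtain ⟨h1, rfl⟩ := mem_Box.1 hq
    exact one_div_le_one_div_of_le (by positivity) (by exact_mod_cast two_pow_kk_le h1.ne_zero)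
  refine (sum_le_card_nsmul _ _ _ h).trans ?_
  rw [nsmul_eq_mul, mul_one_div, div_le_one (by positivity)]
  exact_mod_cast card_Box_le k

/-- A nonzero integer of size at most `2^L` has at most `L` prime factors. -/
theorem card_primes_dvd (S : Finset ℕ) (a : ℤ) (L : ℕ) (ha : a ≠ 0) (hL : |a| ≤ 2 ^ L)
    (h : ∀ p ∈ S, p.Prime ∧ (p : ℤ) ∣ a) : S.card ≤ L := by
  have h1 : (pr S : ℤ) ∣ a := (pr_dvd_iff (fun p hp => (h p hp).1) a).2 fun p hp => (h p hp).2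
  have h2 : (pr S : ℤ) ≤ 2 ^ L := (Int.le_of_dvd (abs_pos.2 ha) ((dvd_abs _ _).2 h1)).trans hL
  have h3 : 2 ^ S.card ≤ pr S := by
    rw [← prod_const]
    exact prod_le_prod' fun p hp => (h p hp).1.two_le
  have h4 : pr S ≤ 2 ^ L := by exact_mod_cast h2
  exact (Nat.pow_le_pow_iff_right (by norm_num)).1 (h3.trans h4)

theorem MM_bounds (N : ℤ) (y : ℕ) {n : ℕ} (hn : 1 ≤ n) :
    y / n ≤ MM N y n ∧ MM N y n ≤ y / n + 1 := by
  have h0 : (0 : ℤ) < n := by exact_mod_cast hn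
  have h1 := Int.mul_ediv_add_emod (N + y) n
  have h2 := Int.mul_ediv_add_emod N n
  have h3 := Int.mul_ediv_add_emod (y : ℤ) n
  have h4 := Int.emod_nonneg (N + y) h0.ne'
  have h5 := Int.emod_lt_of_pos (N + y) h0
  have h6 := Int.emod_nonneg N h0.ne'
  have h7 := Int.emod_lt_of_pos N h0
  have h8 := Int.emod_nonneg (y : ℤ) h0.ne'
  have h9 := Int.emod_lt_of_pos (y : ℤ) h0
  have ha : (y : ℤ) / n ≤ (N + y) / n - N / n := by
    by_contra hc
    have : (N + y) / n - N / n + 1 ≤ (y : ℤ) / n := by omega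
    nlinarith
  have hb : (N + y) / n - N / n ≤ (y : ℤ) / n + 1 := by
    by_contra hc
    have : (y : ℤ) / n + 2 ≤ (N + y) / n - N / n := by omega
    nlinarith
  have hc : ((y / n : ℕ) : ℤ) = (y : ℤ) / n := Int.natCast_div y n
  rw [← hc] at ha hb
  unfold MM
  generalize y / n = w at *
  omega

end

end Pool.Agent.Jac
end

-- part Pool.Agent.P.MP_45ff98_nt.JVal
section

/-! Valid chains. -/

namespace Pool.Agent.Jac
open Finset

noncomputable section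

theorem jval_top {U T : Finset ℕ} (h1 : U ⊆ T) (h2 : ∀ p ∈ U, ∀ q ∈ T, p ≤ q → q ∈ U) {p : ℕ}
    (hp : p ∈ U) : top U p = top T p := by
  ext q
  simp only [top, mem_filter]
  exact ⟨fun h => ⟨h1 h.1, h.2⟩, fun h => ⟨h2 p hp q h.1 h.2, h.2⟩⟩

theorem jval_upper {ok : Finset ℕ → Prop} {U T : Finset ℕ} (h1 : U ⊆ T)
    (h2 : ∀ p ∈ U, ∀ q ∈ T, p ≤ q → q ∈ U) (h : GV ok T) : GV ok U := fun p hp => by
  rw [jval_top h1 h2 hp]
  exact h p (h1 hp)

theorem jval_top_min {a : ℕ} {s : Finset ℕ} (h : ∀ x ∈ s, a < x) :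
    top (insert a s) a = insert a s :=
  filter_true_of_mem fun q hq => by
    rcases mem_insert.1 hq with rfl | hq
    · exact le_rfl
    · exact (h q hq).le

theorem jval_up_ins {a : ℕ} {s : Finset ℕ} (h : ∀ x ∈ s, a < x) :
    ∀ p ∈ s, ∀ q ∈ insert a s, p ≤ q → q ∈ s := fun p hp q hq hpq => by
  rcases mem_insert.1 hq with rfl | hq
  · exact absurd (h p hp) (not_lt.2 hpq)
  · exact hq

theorem valid_state {e t k : ℕ} {T : Finset ℕ} (hs : St e t k) (hk : ∀ p ∈ T, kk p ≤ k)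
    (hv : Valid e t T) : ks T ≤ t ∧ t ≤ 2 ^ T.card * (t - ks T) ∧
      ∀ k', k' ≤ k → (∀ p ∈ T, k' ≤ kk p) → St (e + T.card) (t - ks T) k' := by
  induction T using Finset.induction_on_min with
  | empty => exact ⟨by simp [ks], by simp [ks], fun k' h _ => by simpa [ks] using hs.mono h⟩
  | insert a s h ih =>
    have ha : a ∉ s := fun g => lt_irrefl _ (h a g)
    obtain ⟨h1, h2, h3⟩ := ih (fun p hp => hk p (mem_insert_of_mem hp))
      (jval_upper (subset_insert a s) (jval_up_ins h) hv)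
    have h4 := h3 (kk a) (hk a (mem_insert_self a s)) fun p hp => kk_mono (h p hp).le
    have h5 := hv a (mem_insert_self a s)
    rw [okR, mn_top (mem_insert_self a s), jval_top_min h, card_insert_of_notMem ha,
      ks_insert ha] at h5
    have h6 : Cont (e + s.card) (t - ks s) (kk a) := fun he => by
      have := h5 (by rwa [← add_assoc])
      omega
    obtain ⟨h7, h8⟩ := h4.child le_rfl h6
    rw [card_insert_of_notMem ha, ks_insert ha]
    refine ⟨by omega, h2.trans ?_, fun k' _ hk' => ?_⟩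
    · rw [pow_succ, mul_assoc]
      exact Nat.mul_le_mul_left _ (by omega)
    · rw [← add_assoc, show t - (kk a + ks s) = t - ks s - kk a by omega]
      exact h7.mono (hk' a (mem_insert_self a s))

theorem valid_filter {e t : ℕ} {T : Finset ℕ} (hv : Valid e t T) (c : ℕ) :
    Valid e t (T.filter (fun q => c ≤ kk q)) :=
  jval_upper (filter_subset _ _)
    (fun _ hp _ hq hpq => mem_filter.2 ⟨hq, (mem_filter.1 hp).2.trans (kk_mono hpq)⟩) hv

theorem bd_abv {e t : ℕ} {T : Finset ℕ} (hb : Bd e t T) {p : ℕ} (hp : p ∈ T) :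
    Valid e t (abv T p) := by
  refine jval_upper (fun q hq => ?_) (fun r hr q hq hrq => ?_) hb.2.1
  · have h := mem_filter.1 hq
    exact mem_erase.2 ⟨((mn_le hp).trans_lt h.2).ne', h.1⟩
  · exact mem_filter.2 ⟨mem_of_mem_erase hq, (mem_filter.1 hr).2.trans_le hrq⟩

theorem bd_state {e t k : ℕ} {T : Finset ℕ} (hs : St e t k) (hk : ∀ p ∈ T, kk p ≤ k)
    (hb : Bd e t T) : ks T ≤ t ∧ t - ks T < 2 * kk (mn T) ∧ Even (e + T.card) := by
  obtain ⟨hne, hv, hn⟩ := hb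
  have hm := mn_mem hne
  obtain ⟨h1, -, h3⟩ := valid_state hs (fun p hp => hk p (mem_of_mem_erase hp)) hv
  have h4 := (h3 (kk (mn T)) (hk _ hm) fun p hp => kk_mono (mn_le (mem_of_mem_erase hp))).1
  have h5 : ks T = kk (mn T) + ks (T.erase (mn T)) := (add_sum_erase T kk hm).symm
  rw [okR, Classical.not_imp] at hn
  exact ⟨by omega, by omega, hn.1⟩

theorem jval_disj {A B : Finset ℕ} (hAB : ∀ a ∈ A, ∀ b ∈ B, b < a) : Disjoint A B :=
  disjoint_left.2 fun a ha hb => lt_irrefl _ (hAB a ha a hb)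

theorem jval_mn {A B : Finset ℕ} (hB : B.Nonempty) (hAB : ∀ a ∈ A, ∀ b ∈ B, b < a) :
    mn (A ∪ B) = mn B :=
  mn_eq (mem_union_right _ (mn_mem hB)) fun q hq => by
    rcases mem_union.1 hq with hq | hq
    · exact (hAB q hq _ (mn_mem hB)).le
    · exact mn_le hq

theorem jval_ok {e t : ℕ} {A B : Finset ℕ} (hB : B.Nonempty) (hAB : ∀ a ∈ A, ∀ b ∈ B, b < a) :
    okR e t (A ∪ B) ↔ okR (e + A.card) (t - ks A) B := by
  rw [okR, okR, jval_mn hB hAB, card_union_of_disjoint (jval_disj hAB), ks_union (jval_disj hAB),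
    ← add_assoc e]
  have := kk_pos (mn B)
  exact imp_congr_right fun _ => by omega

theorem jval_GV {e t : ℕ} {A B : Finset ℕ} (hAB : ∀ a ∈ A, ∀ b ∈ B, b < a) :
    Valid e t (A ∪ B) ↔ Valid e t A ∧ Valid (e + A.card) (t - ks A) B := by
  have h1 : ∀ p ∈ A, top (A ∪ B) p = top A p := fun p hp =>
    (jval_top subset_union_left (fun r hr q hq hrq => (mem_union.1 hq).elim id
      fun g => absurd (hAB r hr q g) (not_lt.2 hrq)) hp).symm
  have h2 : ∀ p ∈ B, top (A ∪ B) p = A ∪ top B p := fun p hp => by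
    rw [top, filter_union, filter_true_of_mem fun a ha => (hAB a ha p hp).le, top]
  have h3 : ∀ p ∈ B, (okR e t (top (A ∪ B) p) ↔ okR (e + A.card) (t - ks A) (top B p)) :=
    fun p hp => by
      rw [h2 p hp]
      exact jval_ok ⟨p, mem_filter.2 ⟨hp, le_rfl⟩⟩ fun a ha b hb => hAB a ha b (mem_filter.1 hb).1
  refine ⟨fun h => ⟨fun p hp => h1 p hp ▸ h p (mem_union_left _ hp),
    fun p hp => (h3 p hp).1 (h p (mem_union_right _ hp))⟩, fun h p hp => ?_⟩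
  rcases mem_union.1 hp with hp | hp
  · rw [h1 p hp]; exact h.1 p hp
  · exact (h3 p hp).2 (h.2 p hp)

theorem jval_alw {P : Par} {t : ℕ} {A B : Finset ℕ} (hAB : ∀ a ∈ A, ∀ b ∈ B, b < a) :
    Alw P t (A ∪ B) ↔ Alw P t A ∧ Alw P (t - ks A) B := by
  have h1 : ∀ p ∈ A, abv (A ∪ B) p = abv A p := fun p hp => by
    rw [abv, filter_union, filter_false_of_mem (s := B) fun b hb => (hAB p hp b hb).not_gt,
      union_empty, abv]
  have h2 : ∀ p ∈ B, ks (abv (A ∪ B) p) = ks A + ks (abv B p) := fun p hp => by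
    rw [abv, filter_union, filter_true_of_mem fun a ha => hAB a ha p hp]
    exact ks_union (jval_disj fun a ha b hb => hAB a ha b (mem_filter.1 hb).1)
  refine ⟨fun h => ⟨fun p hp => h1 p hp ▸ h p (mem_union_left _ hp), fun p hp => ?_⟩,
    fun h p hp => ?_⟩
  · have := h p (mem_union_right _ hp)
    rw [h2 p hp] at this
    omega
  · rcases mem_union.1 hp with hp | hp
    · rw [h1 p hp]; exact h.1 p hp
    · have := h.2 p hp
      rw [h2 p hp]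
      omega

theorem GF_union {P : Par} {e t : ℕ} {A B : Finset ℕ} (hB : B.Nonempty)
    (hAB : ∀ a ∈ A, ∀ b ∈ B, b < a) :
    GF P e t (A ∪ B) ↔ Valid e t A ∧ Alw P t A ∧ GF P (e + A.card) (t - ks A) B := by
  have hm := jval_mn hB hAB
  have he : (A ∪ B).erase (mn B) = A ∪ B.erase (mn B) := by
    rw [erase_union_distrib, erase_eq_of_notMem
      fun g => lt_irrefl _ (hAB _ g _ (mn_mem hB))]
  have h1 : Bd e t (A ∪ B) ↔ Valid e t A ∧ Bd (e + A.card) (t - ks A) B := by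
    have h2 := jval_GV (e := e) (t := t) (A := A) (B := B.erase (mn B))
      fun a ha b hb => hAB a ha b (mem_of_mem_erase hb)
    rw [Bd, Bd, GB, GB, hm, he, jval_ok hB hAB]
    exact ⟨fun h => ⟨(h2.1 h.2.1).1, hB, (h2.1 h.2.1).2, h.2.2⟩,
      fun h => ⟨hB.mono subset_union_right, h2.2 ⟨h.1, h.2.2.1⟩, h.2.2.2⟩⟩
  have h3 : Term P t (A ∪ B) ↔ Term P (t - ks A) B := by
    rw [Term, Term, hm, ks_union (jval_disj hAB)]
    have := kk_pos (mn B)
    omega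
  rw [GF, GF, h1, jval_alw hAB, h3]
  tauto

theorem fam_mod_two (P : Par) (e t p : ℕ) : fam P (e % 2) t p = fam P e t p := by
  have h1 : okR (e % 2) t = okR e t := by
    funext T
    have : Even (e % 2 + T.card) ↔ Even (e + T.card) := by
      rw [Nat.even_iff, Nat.even_iff]; omega
    rw [okR, okR, this]
  have h2 : GF P (e % 2) t = GF P e t := by
    funext T
    rw [GF, GF, Bd, Bd, h1]
  unfold fam
  rw [h2]

theorem jval_rank (S : Finset ℕ) {j : ℕ} (h1 : 1 ≤ j) (h2 : j ≤ S.card) :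
    ∃ p ∈ S, (top S p).card = j := by
  induction S using Finset.induction_on_min with
  | empty => simp at h2; omega
  | insert a s h ih =>
    have ha : a ∉ s := fun g => lt_irrefl _ (h a g)
    rcases h2.eq_or_lt with e | e
    · exact ⟨a, mem_insert_self a s, by rw [jval_top_min h, e]⟩
    · rw [card_insert_of_notMem ha] at e
      obtain ⟨p, hp, hj⟩ := ih (by omega)
      exact ⟨p, mem_insert_of_mem hp, by
        rw [← jval_top (subset_insert a s) (jval_up_ins h) hp, hj]⟩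

theorem jval_split {T : Finset ℕ} (p : ℕ) :
    (top T p).card = (T.filter (fun q => kk p < kk q)).card +
        (top (T.filter (fun q => kk q = kk p)) p).card ∧
      ks (top T p) = ks (T.filter (fun q => kk p < kk q)) +
        (top (T.filter (fun q => kk q = kk p)) p).card * kk p := by
  have e : top T p = T.filter (fun q => kk p < kk q) ∪ top (T.filter (fun q => kk q = kk p)) p := by
    ext q
    simp only [top, mem_union, mem_filter]
    constructor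
    · rintro ⟨h1, h2⟩
      rcases (kk_mono h2).eq_or_lt with g | g
      · exact Or.inr ⟨⟨h1, g.symm⟩, h2⟩
      · exact Or.inl ⟨h1, g⟩
    · rintro (⟨h1, h2⟩ | ⟨⟨h1, -⟩, h2⟩)
      · exact ⟨h1, (lt_of_kk_lt h2).le⟩
      · exact ⟨h1, h2⟩
  have d : Disjoint (T.filter (fun q => kk p < kk q)) (top (T.filter (fun q => kk q = kk p)) p) :=
    disjoint_left.2 fun q h1 h2 => by
      have a1 := (mem_filter.1 h1).2
      have a2 := (mem_filter.1 (mem_filter.1 h2).1).2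
      omega
  refine ⟨by rw [e, card_union_of_disjoint d], ?_⟩
  conv_lhs => rw [e, ks_union d]
  congr 1
  rw [ks, ← smul_eq_mul]
  exact sum_eq_card_nsmul fun q hq => (mem_filter.1 (mem_filter.1 hq).1).2

theorem jval_char {e t : ℕ} {T : Finset ℕ} : Valid e t T ↔
    ∀ k j, 1 ≤ j → j ≤ (T.filter (fun q => kk q = k)).card →
      Even (e + ((T.filter (fun q => k < kk q)).card + j)) →
      ks (T.filter (fun q => k < kk q)) + j * k + 2 * k ≤ t := by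
  constructor
  · intro h k j h1 h2 he
    obtain ⟨p, hp, rfl⟩ := jval_rank _ h1 h2
    obtain ⟨hp', rfl⟩ := mem_filter.1 hp
    have h3 := h p hp'
    rw [okR, mn_top hp', (jval_split p).1, (jval_split p).2] at h3
    exact h3 he
  · intro h p hp
    rw [okR, mn_top hp, (jval_split p).1, (jval_split p).2]
    exact h (kk p) _ (card_pos.2 ⟨p, mem_filter.2 ⟨mem_filter.2 ⟨hp, rfl⟩, le_rfl⟩⟩)
      (card_filter_le _ _)

/-- Validity only depends on the boxes. -/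
theorem valid_swap {e t : ℕ} {T : Finset ℕ} {q q' : ℕ} (hq : q ∈ T) (hq' : q' ∉ T.erase q)
    (hk : kk q' = kk q) (hv : Valid e t T) : Valid e t (insert q' (T.erase q)) := by
  have key : ∀ F : ℕ → ℕ, ∑ p ∈ insert q' (T.erase q), F (kk p) = ∑ p ∈ T, F (kk p) := fun F => by
    rw [sum_insert hq', hk]
    exact add_sum_erase T (fun p => F (kk p)) hq
  rw [jval_char] at hv ⊢
  intro k j
  have a1 : ((insert q' (T.erase q)).filter (fun r => kk r = k)).card =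
      (T.filter (fun r => kk r = k)).card := by
    rw [card_filter, card_filter]
    exact key fun n => if n = k then 1 else 0
  have a2 : ((insert q' (T.erase q)).filter (fun r => k < kk r)).card =
      (T.filter (fun r => k < kk r)).card := by
    rw [card_filter, card_filter]
    exact key fun n => if k < n then 1 else 0
  have a3 : ks ((insert q' (T.erase q)).filter (fun r => k < kk r)) =
      ks (T.filter (fun r => k < kk r)) := by
    rw [ks, ks, sum_filter, sum_filter]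
    exact key fun n => if k < n then n else 0
  rw [a1, a2, a3]
  exact hv k j

end

end Pool.Agent.Jac
end

-- part Pool.Agent.P.MP_45ff98_nt.JG0
section

/-! Splitting a chain into its big and its small part. -/

namespace Pool.Agent.Jac
open Finset

noncomputable section

theorem jg0_mem_fam {P : Par} {e t p : ℕ} {T : Finset ℕ} :
    T ∈ fam P e t p ↔ T ⊆ PP P.k0 p ∧ GF P e t T := by
  classical
  simp [fam]

theorem jg0_mem_NN {P : Par} {t0 z om : ℕ} {T : Finset ℕ} :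
    T ∈ NN P t0 z om ↔
      T ⊆ PP P.kW z ∧ Valid 0 t0 T ∧ t0 ≤ P.CW * P.kW + ks T ∧ T.card ≤ om := by
  classical
  simp [NN]

theorem jg0_lt {P : Par} {z : ℕ} {A B : Finset ℕ} (hA : A ⊆ PP P.kW z)
    (hB : B ⊆ PP P.k0 (2 ^ (P.kW - 1))) : ∀ a ∈ A, ∀ b ∈ B, b < a := by
  intro a ha b hb
  obtain ⟨-, ap, ak⟩ := mem_PP.1 (hA ha)
  obtain ⟨bl, -, -⟩ := mem_PP.1 (hB hb)
  exact bl.trans_le ((le_kk_iff ap.ne_zero).1 ak)

theorem jg0_disj {A B : Finset ℕ} (hAB : ∀ a ∈ A, ∀ b ∈ B, b < a) : Disjoint A B :=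
  disjoint_left.2 fun a ha hb => lt_irrefl a (hAB a ha a hb)

theorem jg0_mn {A B : Finset ℕ} (hB : B.Nonempty) (hAB : ∀ a ∈ A, ∀ b ∈ B, b < a) :
    mn (A ∪ B) = mn B := by
  refine mn_eq (mem_union_right _ (mn_mem hB)) fun q hq => ?_
  rcases mem_union.1 hq with hq | hq
  · exact (hAB q hq _ (mn_mem hB)).le
  · exact mn_le hq

theorem jg0_big {P : Par} {z : ℕ} {A B : Finset ℕ} (hA : A ⊆ PP P.kW z)
    (hB : B ⊆ PP P.k0 (2 ^ (P.kW - 1))) :
    (A ∪ B).filter (fun q => P.kW ≤ kk q) = A ∧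
      (A ∪ B).filter (fun q => ¬ P.kW ≤ kk q) = B := by
  have hb : ∀ q ∈ B, ¬ P.kW ≤ kk q := fun q hq => by
    obtain ⟨bl, bp, -⟩ := mem_PP.1 (hB hq)
    exact not_le.2 ((kk_lt_iff bp.ne_zero).2 bl)
  have ha : ∀ q ∈ A, P.kW ≤ kk q := fun q hq => (mem_PP.1 (hA hq)).2.2
  constructor
  · ext q
    simp only [mem_filter, mem_union]
    exact ⟨fun ⟨h1, h2⟩ => h1.resolve_right fun h => hb q h h2, fun h => ⟨Or.inl h, ha q h⟩⟩
  · ext q
    simp only [mem_filter, mem_union]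
    exact ⟨fun ⟨h1, h2⟩ => h1.resolve_left fun h => h2 (ha q h), fun h => ⟨Or.inr h, hb q h⟩⟩

theorem jg0_join {P : Par} {y z t0 L om : ℕ} (h : Setup P y z t0 L) {A B : Finset ℕ}
    (hA : A ∈ NN P t0 z om) (hB : B ∈ famW P A.card (t0 - ks A)) :
    A ∪ B ∈ fam P 0 t0 z ∧ pr (A ∪ B) = pr A * pr B ∧ mn (A ∪ B) = mn B := by
  obtain ⟨a1, a2, -, -⟩ := jg0_mem_NN.1 hA
  obtain ⟨b1, b2⟩ := jg0_mem_fam.1 hB
  have hne : B.Nonempty := b2.1.1
  have hlt := jg0_lt a1 b1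
  have h1 := h.kw
  have h2 := h.k1
  have h3 := h.kW
  refine ⟨jg0_mem_fam.2 ⟨union_subset ?_ ?_, ?_⟩, pr_union (jg0_disj hlt), jg0_mn hne hlt⟩
  · exact a1.trans (PP_mono (by omega) le_rfl)
  · exact b1.trans (PP_mono le_rfl h.hz)
  · refine (GF_union hne hlt).2 ⟨a2, fun p hp => ?_, by simpa using b2⟩
    have := (mem_PP.1 (a1 hp)).2.2
    exact ⟨fun hh => by omega, fun hh => by omega⟩

theorem jg0_cut {P : Par} {y z t0 L om : ℕ} (h : Setup P y z t0 L) {T : Finset ℕ}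
    (hT : T ∈ fam P 0 t0 z) (hc : T.card ≤ om) :
    T.filter (fun q => P.kW ≤ kk q) ∈ NN P t0 z om ∧
      T.filter (fun q => ¬ P.kW ≤ kk q) ∈ famW P (T.filter (fun q => P.kW ≤ kk q)).card
        (t0 - ks (T.filter (fun q => P.kW ≤ kk q))) := by
  obtain ⟨t1, t2⟩ := jg0_mem_fam.1 hT
  set A := T.filter (fun q => P.kW ≤ kk q) with hA
  set B := T.filter (fun q => ¬ P.kW ≤ kk q) with hB
  have hU : A ∪ B = T := filter_union_filter_not_eq _ _
  have h2 := h.k1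
  have h3 := h.kW
  have hne : B.Nonempty := by
    refine ⟨mn T, mem_filter.2 ⟨mn_mem t2.1.1, ?_⟩⟩
    have := t2.2.2.2.1
    omega
  have a1 : A ⊆ PP P.kW z := fun q hq => by
    obtain ⟨q1, q2⟩ := mem_filter.1 hq
    obtain ⟨r1, r2, -⟩ := mem_PP.1 (t1 q1)
    exact mem_PP.2 ⟨r1, r2, q2⟩
  have b1 : B ⊆ PP P.k0 (2 ^ (P.kW - 1)) := fun q hq => by
    obtain ⟨q1, q2⟩ := mem_filter.1 hq
    obtain ⟨-, r2, r3⟩ := mem_PP.1 (t1 q1)
    exact mem_PP.2 ⟨(kk_lt_iff r2.ne_zero).1 (not_le.1 q2), r2, r3⟩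
  have hlt := jg0_lt a1 b1
  have hG : GF P 0 t0 (A ∪ B) := hU ▸ t2
  obtain ⟨g1, -, g3⟩ := (GF_union hne hlt).1 hG
  refine ⟨jg0_mem_NN.2 ⟨a1, g1, ?_, (card_filter_le _ _).trans hc⟩,
    jg0_mem_fam.2 ⟨b1, by simpa using g3⟩⟩
  have hm := B.max'_mem hne
  obtain ⟨m1, m2⟩ := mem_filter.1 hm
  have e1 : abv T (B.max' hne) = A := by
    ext q
    simp only [abv, mem_filter]
    constructor
    · rintro ⟨q1, q2⟩
      refine mem_filter.2 ⟨q1, ?_⟩
      by_contra hq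
      exact absurd (B.le_max' q (mem_filter.2 ⟨q1, hq⟩)) (not_le.2 q2)
    · intro hq
      exact ⟨(mem_filter.1 hq).1, hlt q hq _ hm⟩
  have := (t2.2.1 _ m1).1 (not_le.1 m2)
  rwa [e1] at this

theorem jg0_sum {P : Par} {y z t0 L : ℕ} (h : Setup P y z t0 L) (om : ℕ)
    (f : Finset ℕ → ℝ) :
    ∑ T ∈ (fam P 0 t0 z).filter
        (fun T => T.filter (fun q => P.kW ≤ kk q) ∈ NN P t0 z om ∧
          T.filter (fun q => ¬ P.kW ≤ kk q) ∈ famW P (T.filter (fun q => P.kW ≤ kk q)).card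
            (t0 - ks (T.filter (fun q => P.kW ≤ kk q)))), f T =
      ∑ A ∈ NN P t0 z om, ∑ B ∈ famW P A.card (t0 - ks A), f (A ∪ B) := by
  rw [sum_sigma']
  symm
  refine sum_bij' (fun x _ => x.1 ∪ x.2)
    (fun T _ => ⟨T.filter (fun q => P.kW ≤ kk q), T.filter (fun q => ¬ P.kW ≤ kk q)⟩)
    ?_ ?_ ?_ ?_ ?_
  · rintro ⟨A, B⟩ hx
    obtain ⟨hA, hB⟩ := mem_sigma.1 hx
    obtain ⟨e1, e2⟩ := jg0_big (jg0_mem_NN.1 hA).1 (jg0_mem_fam.1 hB).1
    refine mem_filter.2 ⟨(jg0_join h hA hB).1, ?_⟩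
    simp only at e1 e2 ⊢
    rw [e1, e2]
    exact ⟨hA, hB⟩
  · intro T hT
    exact mem_sigma.2 (mem_filter.1 hT).2
  · rintro ⟨A, B⟩ hx
    obtain ⟨hA, hB⟩ := mem_sigma.1 hx
    obtain ⟨e1, e2⟩ := jg0_big (jg0_mem_NN.1 hA).1 (jg0_mem_fam.1 hB).1
    simp only at e1 e2 ⊢
    rw [e1, e2]
  · intro T _
    exact filter_union_filter_not_eq _ _
  · intro x _
    rfl

theorem split_gain {P : Par} {y z t0 L : ℕ} (h : Setup P y z t0 L) (N : ℤ) (om : ℕ) :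
    ∑ T ∈ NN P t0 z om, gN P N y t0 T ≤
      ∑ T ∈ fam P 0 t0 z, (cntA N y (pr T) (mn T) : ℝ) / y := by
  have e := jg0_sum h om (fun T => (cntA N y (pr T) (mn T) : ℝ) / y)
  refine le_trans (le_of_eq ?_) (e.symm.le.trans
    (sum_le_sum_of_subset_of_nonneg (filter_subset _ _) fun T _ _ => by positivity))
  refine sum_congr rfl fun A hA => ?_
  rw [gN, GA, sum_div]
  refine sum_congr rfl fun B hB => ?_
  obtain ⟨-, e1, e2⟩ := jg0_join h hA hB
  rw [e1, e2]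

theorem split_gam {P : Par} {y z t0 L : ℕ} (h : Setup P y z t0 L) (om : ℕ) :
    Gam P 0 t0 z ≤ ∑ T ∈ NN P t0 z om, wN P t0 T + Cap z om := by
  have e := jg0_sum h om (fun T => 1 / ((pr T : ℝ) * kk (mn T)))
  rw [Gam, ← sum_filter_add_sum_filter_not (fam P 0 t0 z) (fun T => T.card ≤ om)]
  refine add_le_add ?_ ?_
  · refine le_trans (sum_le_sum_of_subset_of_nonneg ?_ fun T _ _ => by positivity)
      (e.le.trans (le_of_eq ?_))
    · intro T hT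
      obtain ⟨h1, h2⟩ := mem_filter.1 hT
      exact mem_filter.2 ⟨h1, jg0_cut h h1 h2⟩
    · refine sum_congr rfl fun A hA => ?_
      rw [wN, phi, Gam, sum_div]
      refine sum_congr rfl fun B hB => ?_
      obtain ⟨-, e1, e2⟩ := jg0_join h hA hB
      rw [e1, e2, div_div]
      push_cast
      ring_nf
  · rw [Cap]
    refine le_trans (sum_le_sum fun T hT => ?_)
      (sum_le_sum_of_subset_of_nonneg (f := fun T => 1 / (pr T : ℝ)) ?_
        fun T _ _ => by positivity)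
    · have h1 := (jg0_mem_fam.1 (mem_filter.1 hT).1).1
      have hp : (0 : ℝ) < pr T := by
        exact_mod_cast pr_pos fun p hp => (mem_PP.1 (h1 hp)).2.1
      have hk : (1 : ℝ) ≤ kk (mn T) := by exact_mod_cast kk_pos _
      exact one_div_le_one_div_of_le hp (le_mul_of_one_le_right hp.le hk)
    · intro T hT
      obtain ⟨h1, h2⟩ := mem_filter.1 hT
      exact mem_filter.2 ⟨mem_powerset.2
        ((jg0_mem_fam.1 h1).1.trans (PP_mono (Nat.zero_le _) le_rfl)), not_le.1 h2⟩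

end

end Pool.Agent.Jac
end

-- part Pool.Agent.P.MP_45ff98_nt.JG2a
section

/-! Multiples in an interval, Fourier expansion. -/

namespace Pool.Agent.Jac
open Finset

noncomputable section

/-- weights that fold the sum over residues -/
def jg2aW (m h : ℕ) : ℝ := if 2 * h < m then 2 else if 2 * h = m then 1 else 0

/-- the geometric sum -/
def jg2aS (M m h : ℕ) : ℂ := ∑ j ∈ Icc 1 M, ee (h * j / m)

theorem jg2aW_nonneg (m h : ℕ) : 0 ≤ jg2aW m h := by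
  unfold jg2aW; split_ifs <;> norm_num

theorem jg2aW_le (m h : ℕ) : jg2aW m h ≤ 2 := by
  unfold jg2aW; split_ifs <;> norm_num

theorem jg2aW_zero {m h : ℕ} (hh : m < 2 * h) : jg2aW m h = 0 := by
  unfold jg2aW; rw [if_neg (by omega), if_neg (by omega)]

theorem jg2aW_add {m h : ℕ} (hh : h ≤ m) : jg2aW m h + jg2aW m (m - h) = 2 := by
  unfold jg2aW; split_ifs <;> first | omega | norm_num

theorem jg2a_geom (z : ℂ) (M : ℕ) : (z - 1) * ∑ j ∈ Icc 1 M, z ^ j = z ^ (M + 1) - z := by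
  induction M with
  | zero => simp
  | succ M ih => rw [sum_Icc_succ_top (by omega), mul_add, ih]; ring

theorem jg2a_low {x : ℝ} (h0 : 0 ≤ x) (h1 : x ≤ 1 / 2) : 4 * x ≤ ‖ee x - 1‖ := by
  have e : ee x = Complex.exp (Complex.I * ((2 * Real.pi * x : ℝ) : ℂ)) := by
    rw [ee]; congr 1; push_cast; ring
  have hp := Real.pi_pos
  have h2 := Real.mul_le_sin (x := 2 * Real.pi * x / 2) (by positivity) (by nlinarith)
  have e2 : 2 / Real.pi * (2 * Real.pi * x / 2) = 2 * x := by field_simp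
  rw [e, Complex.norm_exp_I_mul_ofReal_sub_one, Real.norm_eq_abs]
  refine le_trans ?_ (le_abs_self _)
  linarith

theorem jg2a_norm (M m h : ℕ) (hh : 2 * h ≤ m) : 2 * ((h : ℝ) / m) * ‖jg2aS M m h‖ ≤ 1 := by
  have h0 : (0 : ℝ) ≤ h / m := by positivity
  have h1 : (h : ℝ) / m ≤ 1 / 2 := by
    rcases Nat.eq_zero_or_pos m with rfl | hm
    · simp
    · rw [div_le_iff₀ (by exact_mod_cast hm)]
      have : (2 : ℝ) * h ≤ m := by exact_mod_cast hh
      linarith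
  have e : jg2aS M m h = ∑ j ∈ Icc 1 M, ee (h / m) ^ j :=
    sum_congr rfl fun j _ => by rw [← ee_nat_mul]; congr 1; ring
  have h2 : ‖ee (h / m) - 1‖ * ‖jg2aS M m h‖ ≤ 2 := by
    rw [← norm_mul, e, jg2a_geom]
    refine (norm_sub_le _ _).trans ?_
    rw [norm_pow, norm_ee, one_pow]
    norm_num
  have h3 := mul_le_mul_of_nonneg_right (jg2a_low h0 h1) (norm_nonneg (jg2aS M m h))
  linarith

/-- the full exponential sum -/
def jg2aT (M m : ℕ) (ξ : ℤ) (h : ℕ) : ℂ := ∑ j ∈ Icc 1 M, ee ((ξ + j : ℤ) * h / m)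

theorem jg2aT_eq (M m : ℕ) (ξ : ℤ) (h : ℕ) : jg2aT M m ξ h = jg2aS M m h * ee (h * ξ / m) := by
  rw [jg2aT, jg2aS, sum_mul]
  refine sum_congr rfl fun j _ => ?_
  rw [← ee_add]; congr 1; push_cast; ring

theorem jg2aT_symm (M : ℕ) {m : ℕ} (hm : 1 ≤ m) (ξ : ℤ) {h : ℕ} (hh : h ≤ m) :
    (jg2aT M m ξ (m - h)).re = (jg2aT M m ξ h).re := by
  have hm0 : (m : ℝ) ≠ 0 := by positivity
  rw [← Complex.conj_re (jg2aT M m ξ h), jg2aT, jg2aT, map_sum]
  congr 1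
  refine sum_congr rfl fun j _ => ?_
  rw [conj_ee, ← ee_add_int (-(((ξ + j : ℤ) : ℝ) * h / m)) (ξ + j)]
  congr 1
  rw [Nat.cast_sub hh]
  field_simp
  ring

theorem jg2a_count (M : ℕ) {m : ℕ} (hm : 1 ≤ m) (ξ : ℤ) :
    (m : ℝ) * (((Icc 1 M).filter (fun j : ℕ => (m : ℤ) ∣ ξ + j)).card : ℝ) =
      ∑ h ∈ range m, (jg2aT M m ξ h).re := by
  have h1 : ∑ h ∈ range m, jg2aT M m ξ h =
      (((m : ℝ) * (((Icc 1 M).filter (fun j : ℕ => (m : ℤ) ∣ ξ + j)).card : ℝ) : ℝ) : ℂ) := by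
    unfold jg2aT
    rw [sum_comm, sum_congr rfl fun (j : ℕ) _ => sum_ee m hm (ξ + j), ← sum_filter, sum_const,
      nsmul_eq_mul]
    push_cast
    ring
  rw [← Complex.re_sum, h1, Complex.ofReal_re]

theorem jg2a_fold {m : ℕ} (R : ℕ → ℝ) (hR : ∀ h ≤ m, R (m - h) = R h) :
    ∑ h ∈ Ico 1 m, jg2aW m h * R h = ∑ h ∈ Ico 1 m, R h := by
  have h1 : ∑ h ∈ Ico 1 m, jg2aW m h * R h = ∑ h ∈ Ico 1 m, jg2aW m (m - h) * R h := by
    refine sum_nbij' (fun h => m - h) (fun h => m - h) ?_ ?_ ?_ ?_ ?_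
    · intro h hh; simp only [mem_Ico] at hh ⊢; omega
    · intro h hh; simp only [mem_Ico] at hh ⊢; omega
    · intro h hh; simp only [mem_Ico] at hh; omega
    · intro h hh; simp only [mem_Ico] at hh; omega
    · intro h hh
      have h2 := (mem_Ico.1 hh).2.le
      rw [hR h h2, Nat.sub_sub_self h2]
  have h2 : ∑ h ∈ Ico 1 m, jg2aW m h * R h + ∑ h ∈ Ico 1 m, jg2aW m (m - h) * R h =
      2 * ∑ h ∈ Ico 1 m, R h := by
    rw [← sum_add_distrib, mul_sum]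
    refine sum_congr rfl fun h hh => ?_
    rw [← add_mul, jg2aW_add (mem_Ico.1 hh).2.le]
  linarith

theorem count_fourier : ∃ a : ℕ → ℕ → ℕ → ℂ,
    (∀ M m h, ‖a M m h‖ ≤ 1 ∧ (a M m h ≠ 0 → 2 * h ≤ m)) ∧
    ∀ (M m H : ℕ) (ξ : ℤ), 1 ≤ m → m ≤ H →
      (((Icc 1 M).filter (fun j : ℕ => (m : ℤ) ∣ ξ + j)).card : ℝ) =
        M / m + (∑ h ∈ Icc 1 H, 1 / (h : ℂ) * a M m h * ee (h * ξ / m)).re := by
  refine ⟨fun M m h => ((jg2aW m h * (h / m) : ℝ) : ℂ) * jg2aS M m h, fun M m h => ?_,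
    fun M m H ξ hm hH => ?_⟩
  · by_cases hh : 2 * h ≤ m
    · refine ⟨?_, fun _ => hh⟩
      have h0 := jg2aW_nonneg m h
      rw [norm_mul, Complex.norm_real, Real.norm_of_nonneg (by positivity)]
      refine le_trans ?_ (jg2a_norm M m h hh)
      have := jg2aW_le m h
      gcongr
    · simp [jg2aW_zero (not_le.1 hh)]
  · have hm0 : (m : ℝ) ≠ 0 := by positivity
    have h1 := jg2a_count M hm ξ
    rw [range_eq_Ico, sum_eq_sum_Ico_succ_bot hm, zero_add,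
      ← jg2a_fold _ fun h hh => jg2aT_symm M hm ξ hh] at h1
    have h2 : (jg2aT M m ξ 0).re = M := by simp [jg2aT, ee_zero]
    have h3 : (∑ h ∈ Icc 1 H, 1 / (h : ℂ) * (((jg2aW m h * (h / m) : ℝ) : ℂ) * jg2aS M m h) *
        ee (h * ξ / m)).re = (∑ h ∈ Ico 1 m, jg2aW m h * (jg2aT M m ξ h).re) / m := by
      rw [Complex.re_sum, sum_div]
      symm
      refine sum_subset_zero_on_sdiff ?_ ?_ ?_
      · intro h hh; simp only [mem_Ico, mem_Icc] at hh ⊢; omega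
      · intro h hh
        simp only [mem_sdiff, mem_Ico, mem_Icc] at hh
        simp [jg2aW_zero (show m < 2 * h by omega)]
      · intro h hh
        have hh0 : (h : ℂ) ≠ 0 := by
          have := (mem_Ico.1 hh).1
          exact_mod_cast (by omega : h ≠ 0)
        have e : 1 / (h : ℂ) * (((jg2aW m h * (h / m) : ℝ) : ℂ) * jg2aS M m h) * ee (h * ξ / m) =
            ((jg2aW m h / m : ℝ) : ℂ) * jg2aT M m ξ h := by
          rw [jg2aT_eq]
          push_cast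
          field_simp
        rw [e, Complex.re_ofReal_mul]
        ring
    rw [h3, ← add_div, eq_div_iff hm0, ← h2, ← h1]
    ring

theorem cntA_div (N : ℤ) (y n f p : ℕ) (hn : 1 ≤ n) (hp : ∀ r : ℕ, r.Prime → r ∣ n → p ≤ r) :
    cntA N y (n * f) p = cntA (N / n) (MM N y n) f p := by
  have h0 : (0 : ℤ) < n := by exact_mod_cast hn
  have hr : ∀ r < p, r.Prime → ∀ q : ℤ, (r : ℤ) ∣ n * q ↔ (r : ℤ) ∣ q := fun r hr hr' q => by
    refine ⟨fun h => ?_, fun h => h.mul_left _⟩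
    rcases (Nat.prime_iff_prime_int.1 hr').dvd_or_dvd h with h | h
    · exact absurd (hp r hr' (Int.natCast_dvd_natCast.1 h)) (by omega)
    · exact h
  have hlo : ∀ q : ℤ, N < n * q ↔ N / n < q := fun q => by
    rw [Int.ediv_lt_iff_lt_mul h0, mul_comm]
  have hhi : ∀ q : ℤ, n * q ≤ N + y ↔ q ≤ (N + y) / n := fun q => by
    rw [Int.le_ediv_iff_mul_le h0, mul_comm]
  unfold cntA MM
  symm
  refine card_bij (fun j _ => ((n : ℤ) * (N / n + j) - N).toNat) ?_ ?_ ?_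
  · intro j hj
    simp only [mem_filter, mem_Icc] at hj ⊢
    obtain ⟨⟨h1, h2⟩, h3, h4⟩ := hj
    have a1 := (hlo (N / n + j)).2 (by omega)
    have a2 := (hhi (N / n + j)).2 (by omega)
    have e : N + (((n : ℤ) * (N / n + j) - N).toNat : ℤ) = n * (N / n + j) := by omega
    rw [e]
    refine ⟨⟨by omega, by omega⟩, ?_, fun r hr1 hr2 h => h4 r hr1 hr2 ((hr r hr1 hr2 _).1 h)⟩
    push_cast
    exact mul_dvd_mul_left _ h3
  · intro j hj j' hj' e
    simp only [mem_filter, mem_Icc] at hj hj'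
    have a1 := (hlo (N / n + j)).2 (by omega)
    have a2 := (hlo (N / n + j')).2 (by omega)
    have e2 : (n : ℤ) * (N / n + j) = n * (N / n + j') := by omega
    have := mul_left_cancel₀ h0.ne' e2
    omega
  · intro i hi
    simp only [mem_filter, mem_Icc] at hi
    obtain ⟨⟨h1, h2⟩, ⟨c, hc⟩, h4⟩ := hi
    have e : N + i = n * (f * c) := by rw [hc]; push_cast; ring
    have a1 := (hlo (f * c)).1 (by omega)
    have a2 := (hhi (f * c)).1 (by omega)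
    have e2 : N / n + (((f : ℤ) * c - N / n).toNat : ℤ) = f * c := by omega
    refine ⟨((f : ℤ) * c - N / n).toNat, ?_, ?_⟩
    · simp only [mem_filter, mem_Icc]
      rw [e2]
      refine ⟨⟨by omega, by omega⟩, dvd_mul_right _ _, fun r hr1 hr2 h => h4 r hr1 hr2 ?_⟩
      rw [e]
      exact h.mul_left _
    · rw [e2]
      omega

end

end Pool.Agent.Jac
end

-- part Pool.Agent.P.MP_45ff98_nt.JG1
section

/-! Sizes of the big and of the small parts. -/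

namespace Pool.Agent.Jac
open Finset

noncomputable section

theorem JG1_log (t : ℕ) : Real.log ((2 ^ t : ℕ) : ℝ) ≤ t := by
  rw [Nat.cast_pow, Real.log_pow]
  have h : Real.log ((2 : ℕ) : ℝ) ≤ 1 := by
    have := Real.log_le_sub_one_of_pos (show (0 : ℝ) < ((2 : ℕ) : ℝ) by norm_num)
    norm_num at this ⊢
    linarith
  exact mul_le_of_le_one_right (Nat.cast_nonneg _) h

theorem JG1_sum (F : Finset (Finset ℕ)) (t : ℕ)
    (h : ∀ T ∈ F, (∀ p ∈ T, p.Prime) ∧ pr T ≤ 2 ^ t) : ∑ T ∈ F, 1 / (pr T : ℝ) ≤ 1 + t :=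
  (sum_inv_pr_le F (2 ^ t) h).trans (by linarith [JG1_log t])

theorem JG1_pow {P : Par} {y z t0 L : ℕ} (h : Setup P y z t0 L) {a : ℕ}
    (ha : P.kw + a ≤ 10 * t0) : 2 ^ a ≤ y ^ 10 := by
  have h1 : 2 ^ P.kw * 2 ^ a ≤ 2 ^ P.kw * y ^ 10 := by
    refine le_trans ?_ h.y2
    rw [← pow_add, ← pow_mul]
    exact Nat.pow_le_pow_right (by norm_num) (by omega)
  exact Nat.le_of_mul_le_mul_left h1 (by positivity)

theorem NN_facts {P : Par} {y z t0 L om : ℕ} (h : Setup P y z t0 L) {T : Finset ℕ}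
    (hT : T ∈ NN P t0 z om) :
    (∀ p ∈ T, p.Prime ∧ 2 ^ (P.kW - 1) ≤ p ∧ P.kW ≤ kk p ∧ p < z) ∧
      St T.card (t0 - ks T) P.kW ∧ t0 - ks T ≤ P.CW * P.kW ∧ ks T ≤ t0 ∧ 2 * pr T ≤ y ∧
      y ≤ 2 ^ (P.CW * P.kW + om) * pr T ∧ T.card ≤ om := by
  classical
  simp only [NN, mem_filter, mem_powerset] at hT
  obtain ⟨hsub, hv, ht, hc⟩ := hT
  have hp : ∀ p ∈ T, p.Prime ∧ 2 ^ (P.kW - 1) ≤ p ∧ P.kW ≤ kk p ∧ p < z := fun p hp => by
    obtain ⟨a, b, c⟩ := mem_PP.1 (hsub hp)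
    exact ⟨b, (le_kk_iff b.ne_zero).1 c, c, a⟩
  have hz0 : z ≠ 0 := by
    have := h.hz
    have h2 : 0 < 2 ^ (P.kW - 1) := by positivity
    omega
  obtain ⟨h1, -, h3⟩ := valid_state h.st (fun p hq => kk_mono (hp p hq).2.2.2.le) hv
  have h4 := h3 P.kW ((le_kk_iff hz0).2 h.hz) fun p hq => (hp p hq).2.2.1
  rw [zero_add] at h4
  refine ⟨hp, h4, by omega, h1, ?_, ?_, hc⟩
  · have h5 := h4.1
    have h6 := h.k1
    have h7 := h.kW
    have h8 : 2 ^ (10 * (1 + ks T)) ≤ y ^ 10 := JG1_pow h (by omega)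
    rw [mul_comm, pow_mul, Nat.pow_le_pow_iff_left (by norm_num), pow_add, pow_one] at h8
    exact (Nat.mul_le_mul_left 2 (pr_le_two_pow T)).trans h8
  · calc y ≤ 2 ^ t0 := h.y1
      _ ≤ 2 ^ (P.CW * P.kW) * 2 ^ ks T := by
          rw [← pow_add]; exact Nat.pow_le_pow_right (by norm_num) ht
      _ ≤ 2 ^ (P.CW * P.kW) * (2 ^ T.card * pr T) :=
          Nat.mul_le_mul_left _ (two_pow_ks_le fun p hq => (hp p hq).1)
      _ ≤ 2 ^ (P.CW * P.kW) * (2 ^ om * pr T) :=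
          Nat.mul_le_mul_left _ (Nat.mul_le_mul_right _ (Nat.pow_le_pow_right (by norm_num) hc))
      _ = _ := by rw [pow_add, mul_assoc]

theorem fam_facts {P : Par} {e t : ℕ} {F : Finset ℕ} (hF : F ∈ famW P e t) :
    F.Nonempty ∧ (∀ p ∈ F, p.Prime ∧ p < 2 ^ (P.kW - 1) ∧ P.k0 ≤ kk p) ∧ P.kw ≤ kk (mn F) ∧
      kk (mn F) ≤ 5 * P.kw ∧ pr F ≤ 2 ^ t ∧ 2 * ks F + 3 * kk (mn F) ≤ 2 * t := by
  classical
  simp only [famW, fam, mem_filter, mem_powerset] at hF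
  obtain ⟨hsub, hb, -, h1, h2, h3⟩ := hF
  refine ⟨hb.1, fun p hp => ?_, h1, h2, ?_, h3⟩
  · obtain ⟨a, b, c⟩ := mem_PP.1 (hsub hp)
    exact ⟨b, a, c⟩
  · exact (pr_le_two_pow F).trans (Nat.pow_le_pow_right (by norm_num) (by omega))

theorem pair_facts {P : Par} {y z t0 L om : ℕ} (h : Setup P y z t0 L) {T F : Finset ℕ}
    (hT : T ∈ NN P t0 z om) (hF : F ∈ famW P T.card (t0 - ks T)) :
    2 ^ (7 * kk (mn F)) * (pr T * pr F) ^ 5 ≤ y ^ 5 ∧ (pr T).Coprime (pr F) := by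
  obtain ⟨a1, -, -, a4, -⟩ := NN_facts h hT
  obtain ⟨-, b2, b3, -, -, b6⟩ := fam_facts hF
  constructor
  · have h8 : 2 ^ ((7 * kk (mn F) + (ks T + ks F) * 5) * 2) ≤ y ^ (5 * 2) := JG1_pow h (by omega)
    rw [pow_mul, pow_mul, Nat.pow_le_pow_iff_left (by norm_num), pow_add,
      pow_mul 2 (ks T + ks F), pow_add] at h8
    exact (Nat.mul_le_mul_left _ (Nat.pow_le_pow_left
      (Nat.mul_le_mul (pr_le_two_pow T) (pr_le_two_pow F)) 5)).trans h8
  · refine Nat.Coprime.prod_left fun p hp => Nat.Coprime.prod_right fun q hq => ?_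
    refine (Nat.coprime_primes (a1 p hp).1 (b2 q hq).1).2 ?_
    have := (a1 p hp).2.1
    have := (b2 q hq).2.1
    omega

theorem phi_le (P : Par) (e t : ℕ) : 0 ≤ phi P e t ∧ phi P e t ≤ 1 + t := by
  have e1 : phi P e t = ∑ T ∈ famW P e t, 1 / ((pr T : ℝ) * kk (mn T)) := rfl
  rw [e1]
  refine ⟨sum_nonneg fun _ _ => by positivity, ?_⟩
  refine le_trans (sum_le_sum fun T hT => ?_) (JG1_sum (famW P e t) t fun T hT =>
    ⟨fun p hp => ((fam_facts hT).2.1 p hp).1, (fam_facts hT).2.2.2.2.1⟩)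
  have h1 : (0 : ℝ) < pr T := by
    exact_mod_cast pr_pos fun p hp => ((fam_facts (P := P) (e := e) (t := t) hT).2.1 p hp).1
  have h2 : (1 : ℝ) ≤ kk (mn T) := by exact_mod_cast kk_pos _
  exact one_div_le_one_div_of_le h1 (le_mul_of_one_le_right h1.le h2)

theorem NN_mass {P : Par} {y z t0 L om : ℕ} (h : Setup P y z t0 L) :
    ∑ T ∈ NN P t0 z om, 1 / (pr T : ℝ) ≤ 2 * L := by
  have h1 : (1 : ℝ) ≤ L := by exact_mod_cast h.L1
  refine (JG1_sum _ L fun T hT => ?_).trans (by linarith)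
  obtain ⟨a1, -, -, -, a5, -⟩ := NN_facts h hT
  have := h.yL
  exact ⟨fun p hp => (a1 p hp).1, by omega⟩

theorem NN_mass_prime {P : Par} {y z t0 L om : ℕ} (h : Setup P y z t0 L) (r : ℕ) :
    ∑ T ∈ (NN P t0 z om).filter (fun T => r ∈ T), 1 / (pr T : ℝ) ≤ 2 * L / 2 ^ (P.kW - 1) := by
  have h1 : (1 : ℝ) ≤ L := by exact_mod_cast h.L1
  have hpr : ∀ T : Finset ℕ, r ∈ T → pr T = r * pr (T.erase r) := fun T hr => by
    rw [← pr_insert (notMem_erase r T), insert_erase hr]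
  have h2 : ∑ T ∈ (NN P t0 z om).filter (fun T => r ∈ T), 1 / (pr (T.erase r) : ℝ) ≤ 2 * L := by
    rw [← sum_image (f := fun T : Finset ℕ => 1 / (pr T : ℝ)) (g := fun T : Finset ℕ => T.erase r)
      (fun S hS T hT e => by
        have e' : S.erase r = T.erase r := e
        rw [← insert_erase (mem_filter.1 hS).2, e', insert_erase (mem_filter.1 hT).2])]
    refine (JG1_sum _ L fun S hS => ?_).trans (by linarith)
    obtain ⟨T, hT, rfl⟩ := mem_image.1 hS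
    obtain ⟨a1, -, -, -, a5, -⟩ := NN_facts h (mem_filter.1 hT).1
    refine ⟨fun p hp => (a1 p (mem_of_mem_erase hp)).1, ?_⟩
    have h3 : pr (T.erase r) ≤ pr T := by
      rw [hpr T (mem_filter.1 hT).2]
      exact Nat.le_mul_of_pos_left _ (a1 r (mem_filter.1 hT).2).1.pos
    have := h.yL
    omega
  rw [le_div_iff₀ (by positivity), sum_mul]
  refine le_trans (sum_le_sum fun T hT => ?_) h2
  obtain ⟨a1, -⟩ := NN_facts h (mem_filter.1 hT).1
  have hr := a1 r (mem_filter.1 hT).2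
  have h3 : (2 : ℝ) ^ (P.kW - 1) ≤ r := by exact_mod_cast hr.2.1
  have h4 : (0 : ℝ) < pr (T.erase r) := by
    exact_mod_cast pr_pos fun p hp => (a1 p (mem_of_mem_erase hp)).1
  have h5 : (0 : ℝ) < r := by exact_mod_cast hr.1.pos
  rw [hpr T (mem_filter.1 hT).2, Nat.cast_mul, div_mul_eq_mul_div, div_le_div_iff₀ (by positivity) h4]
  nlinarith

end

end Pool.Agent.Jac
end

-- part Pool.Agent.P.MP_45ff98_nt.JMert
section

/-! Mertens type bounds. -/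

namespace Pool.Agent.Jac
open Finset

noncomputable section

theorem jmert_lower (S : Finset ℕ) (g : ℕ → ℝ) (h : ∀ r ∈ S, 0 ≤ g r ∧ g r ≤ 1 / 2) :
    Real.exp (-(∑ r ∈ S, g r + 2 * ∑ r ∈ S, g r ^ 2)) ≤ ∏ r ∈ S, (1 - g r) := by
  rw [mul_sum, ← sum_add_distrib, ← sum_neg_distrib, Real.exp_sum]
  refine prod_le_prod (fun r _ => (Real.exp_pos _).le) fun r hr => ?_
  have h1 := Pool.Agent.Lib.Sieve.inv_one_sub_le_exp (h r hr).1 (h r hr).2
  have h2 : 0 < 1 - g r := by linarith [(h r hr).2]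
  rw [Real.exp_neg]
  exact inv_le_of_inv_le₀ h2 h1

theorem jmert_upper (S : Finset ℕ) (g : ℕ → ℝ) (h : ∀ r ∈ S, g r ≤ 1) :
    ∏ r ∈ S, (1 - g r) ≤ Real.exp (-∑ r ∈ S, g r) := by
  rw [← sum_neg_distrib, Real.exp_sum]
  refine prod_le_prod (fun r hr => by linarith [h r hr]) fun r _ => ?_
  linarith [Real.add_one_le_exp (-g r)]

theorem mertens_prod : ∃ c C : ℝ, 0 < c ∧ 0 < C ∧ ∀ p : ℕ, 2 ≤ p →
    c / kk p ≤ ∏ r ∈ PP 0 p, (1 - 1 / (r : ℝ)) ∧ ∏ r ∈ PP 0 p, (1 - 1 / (r : ℝ)) ≤ C / kk p := by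
  refine ⟨Real.exp (-9), 4 * Real.exp 3, Real.exp_pos _, by positivity, fun p hp => ?_⟩
  have hl := Pool.Agent.Lib.Sieve.one_half_le_log hp
  have hl0 : 0 < Real.log p := by linarith
  have hp0 : (2 : ℝ) ≤ p := by exact_mod_cast hp
  have hk0 : (0 : ℝ) < kk p := by exact_mod_cast kk_pos p
  have hP : ∀ r ∈ PP 0 p, r.Prime := fun r hr => (mem_PP.1 hr).2.1
  have hg : ∀ r ∈ PP 0 p, 0 ≤ 1 / (r : ℝ) ∧ 1 / (r : ℝ) ≤ 1 / 2 := fun r hr =>
    ⟨by positivity, one_div_le_one_div_of_le two_pos (by exact_mod_cast (hP r hr).two_le)⟩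
  have l2 := Real.log_two_gt_d9
  have l2' := Real.log_two_lt_d9
  constructor
  · have h1 : ∑ r ∈ PP 0 p, 1 / (r : ℝ) ≤ Real.log (Real.log p) + 7 := by
      refine le_trans (sum_le_sum_of_subset_of_nonneg (fun r hr => ?_) fun r _ _ => by positivity)
        (Pool.Agent.Lib.Sieve.sum_inv_primes_le hp)
      exact Nat.mem_primesLE.2 ⟨(mem_PP.1 hr).1.le, hP r hr⟩
    have h2 := Pool.Agent.Lib.Sieve.sum_inv_sq_primes_le _ hP
    have h3 : Real.log p ≤ kk p := by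
      have h4 : (p : ℝ) ≤ 2 ^ kk p := by exact_mod_cast (lt_two_pow_kk p).le
      have h5 := Real.log_le_log (by linarith) h4
      rw [Real.log_pow] at h5
      nlinarith
    refine le_trans ?_ (jmert_lower _ (fun r => 1 / (r : ℝ)) hg)
    calc Real.exp (-9) / kk p ≤ Real.exp (-9) / Real.log p :=
          div_le_div_of_nonneg_left (Real.exp_pos _).le hl0 h3
      _ = Real.exp (-9 - Real.log (Real.log p)) := by rw [Real.exp_sub, Real.exp_log hl0]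
      _ ≤ _ := Real.exp_le_exp.2 (by linarith)
  · have h1 : Real.log (Real.log p) - 3 ≤ ∑ r ∈ PP 0 p, 1 / (r : ℝ) := by
      have h2 := Pool.Agent.Lib.Sieve.le_sum_inv_primes hp
      have h3 : ∑ r ∈ Nat.primesLE p, 1 / (r : ℝ) ≤ ∑ r ∈ insert p (PP 0 p), 1 / (r : ℝ) := by
        refine sum_le_sum_of_subset_of_nonneg (fun r hr => ?_) fun r _ _ => by positivity
        obtain ⟨h4, h5⟩ := Nat.mem_primesLE.1 hr
        rcases h4.eq_or_lt with h6 | h6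
        · exact mem_insert.2 (Or.inl h6)
        · exact mem_insert_of_mem (mem_PP.2 ⟨h6, h5, Nat.zero_le _⟩)
      rw [sum_insert fun h => lt_irrefl _ (mem_PP.1 h).1] at h3
      have h4 : 1 / (p : ℝ) ≤ 1 := by
        rw [div_le_one (by linarith)]
        linarith
      linarith
    have h3 : (kk p : ℝ) ≤ 4 * Real.log p := by
      have h4 : (2 : ℝ) ^ kk p ≤ 2 * p := by
        exact_mod_cast two_pow_kk_le' (show p ≠ 0 by omega)
      have h5 := Real.log_le_log (by positivity) (h4.trans (show 2 * (p : ℝ) ≤ p ^ 2 by nlinarith))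
      rw [Real.log_pow, Real.log_pow] at h5
      push_cast at h5
      nlinarith
    refine le_trans (jmert_upper _ (fun r => 1 / (r : ℝ)) fun r hr => by linarith [(hg r hr).2]) ?_
    calc Real.exp (-∑ r ∈ PP 0 p, 1 / (r : ℝ)) ≤ Real.exp (3 - Real.log (Real.log p)) :=
          Real.exp_le_exp.2 (by linarith)
      _ = 4 * Real.exp 3 / (4 * Real.log p) := by
          rw [Real.exp_sub, Real.exp_log hl0, mul_div_mul_left _ _ (by norm_num)]
      _ ≤ _ := div_le_div_of_nonneg_left (by positivity) hk0 h3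

theorem jmert_sum (S : Finset ℕ) {z w ρ : ℝ} (hw : 1 ≤ w) (hρ : 1 ≤ ρ)
    (hS : ∀ r ∈ S, r.Prime ∧ w ≤ r ∧ (r : ℝ) < z) (hz : Real.log z ≤ ρ * Real.log w) :
    ∑ r ∈ S, 1 / (r : ℝ) ≤ Real.log ρ + 11 := by
  have hρ0 := Real.log_nonneg hρ
  rcases S.eq_empty_or_nonempty with rfl | ⟨r₀, h₀⟩
  · rw [sum_empty]
    linarith
  obtain ⟨a1, a2, a3⟩ := hS r₀ h₀
  have hZ : ∀ r ∈ S, r ≤ ⌊z⌋₊ := fun r hr => Nat.le_floor (hS r hr).2.2.le
  have hZ2 : 2 ≤ ⌊z⌋₊ := a1.two_le.trans (hZ r₀ h₀)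
  have hZ2' : (2 : ℝ) ≤ ⌊z⌋₊ := by exact_mod_cast hZ2
  have hz0 : 0 ≤ z := le_trans (Nat.cast_nonneg _) a3.le
  have hl := Pool.Agent.Lib.Sieve.one_half_le_log hZ2
  have h1 : Real.log ⌊z⌋₊ ≤ Real.log z := Real.log_le_log (by linarith) (Nat.floor_le hz0)
  have h2 := Pool.Agent.Lib.Sieve.sum_inv_primes_le hZ2
  have l2 := Real.log_two_lt_d9
  by_cases hw2 : w < 2
  · have h3 : Real.log w ≤ 1 := (Real.log_le_log (by linarith) hw2.le).trans (by linarith)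
    have h4 : Real.log ⌊z⌋₊ ≤ ρ := by nlinarith
    have h5 := Real.log_le_log (by linarith) h4
    have h6 : ∑ r ∈ S, 1 / (r : ℝ) ≤ ∑ r ∈ Nat.primesLE ⌊z⌋₊, 1 / (r : ℝ) :=
      sum_le_sum_of_subset_of_nonneg (fun r hr => Nat.mem_primesLE.2 ⟨hZ r hr, (hS r hr).1⟩)
        fun r _ _ => by positivity
    linarith
  · have hw2' : 2 ≤ w := not_lt.1 hw2
    have hW2 : 2 ≤ ⌊w⌋₊ := Nat.le_floor (by exact_mod_cast hw2')
    have hW2' : (2 : ℝ) ≤ ⌊w⌋₊ := by exact_mod_cast hW2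
    have hWw : (⌊w⌋₊ : ℝ) ≤ w := Nat.floor_le (by linarith)
    have hWZ : ⌊w⌋₊ ≤ ⌊z⌋₊ := Nat.floor_mono (a2.trans a3.le)
    have hlW := Pool.Agent.Lib.Sieve.one_half_le_log hW2
    have h3 := Pool.Agent.Lib.Sieve.le_sum_inv_primes hW2
    have h4 : Real.log w ≤ 2 * Real.log ⌊w⌋₊ := by
      have h5 := Nat.lt_floor_add_one w
      have h6 := Real.log_le_log (by linarith) (show w ≤ (⌊w⌋₊ : ℝ) ^ 2 by nlinarith)
      rw [Real.log_pow] at h6
      exact_mod_cast h6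
    have h5 : Real.log ⌊z⌋₊ ≤ ρ * (2 * Real.log ⌊w⌋₊) :=
      h1.trans (hz.trans (mul_le_mul_of_nonneg_left h4 (by linarith)))
    have h6 := Real.log_le_log (by linarith) h5
    rw [Real.log_mul (by linarith) (by linarith), Real.log_mul (by norm_num) (by linarith)] at h6
    have hsub : Nat.primesLE ⌊w⌋₊ ⊆ Nat.primesLE ⌊z⌋₊ := fun r hr =>
      Nat.mem_primesLE.2 ⟨(Nat.mem_primesLE.1 hr).1.trans hWZ, (Nat.mem_primesLE.1 hr).2⟩
    have h7 := sum_sdiff (f := fun r : ℕ => 1 / (r : ℝ)) hsub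
    have h8 : ∑ r ∈ S, 1 / (r : ℝ) ≤
        ∑ r ∈ insert ⌊w⌋₊ (Nat.primesLE ⌊z⌋₊ \ Nat.primesLE ⌊w⌋₊), 1 / (r : ℝ) := by
      refine sum_le_sum_of_subset_of_nonneg (fun r hr => ?_) fun r _ _ => by positivity
      have h9 : ⌊w⌋₊ ≤ r := by exact_mod_cast hWw.trans (hS r hr).2.1
      rcases h9.eq_or_lt with h10 | h10
      · exact mem_insert.2 (Or.inl h10.symm)
      · exact mem_insert_of_mem (mem_sdiff.2 ⟨Nat.mem_primesLE.2 ⟨hZ r hr, (hS r hr).1⟩,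
          fun h => absurd (Nat.mem_primesLE.1 h).1 (not_le.2 h10)⟩)
    have h9 : ∑ r ∈ insert ⌊w⌋₊ (Nat.primesLE ⌊z⌋₊ \ Nat.primesLE ⌊w⌋₊), 1 / (r : ℝ) ≤
        1 + ∑ r ∈ Nat.primesLE ⌊z⌋₊ \ Nat.primesLE ⌊w⌋₊, 1 / (r : ℝ) := by
      by_cases h : ⌊w⌋₊ ∈ Nat.primesLE ⌊z⌋₊ \ Nat.primesLE ⌊w⌋₊
      · rw [insert_eq_of_mem h]
        linarith
      · rw [sum_insert h]
        have h10 : 1 / (⌊w⌋₊ : ℝ) ≤ 1 := by
          rw [div_le_one (by linarith)]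
          linarith
        linarith
    linarith

theorem dim_one : ∃ K : ℝ, 1 ≤ K ∧ ∀ (S : Finset ℕ) (g : ℕ → ℝ) (z w ρ : ℝ), 1 ≤ w → 1 ≤ ρ →
    (∀ r ∈ S, r.Prime ∧ w ≤ r ∧ (r : ℝ) < z) → Dens S g → Real.log z ≤ ρ * Real.log w →
    ∑ r ∈ S, g r ≤ Real.log (K * ρ) ∧ 1 ≤ K * ρ * ∏ r ∈ S, (1 - g r) := by
  refine ⟨Real.exp 16, Real.one_le_exp (by norm_num), fun S g z w ρ hw hρ hS hg hz => ?_⟩
  have h1 := jmert_sum S hw hρ hS hz
  have h2 := Pool.Agent.Lib.Sieve.sum_inv_sq_le S le_rfl fun r hr => (hS r hr).1.one_lt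
  rw [Nat.cast_one, div_one] at h2
  have hr2 : ∀ r ∈ S, (2 : ℝ) ≤ r := fun r hr => by exact_mod_cast (hS r hr).1.two_le
  have h3 : ∑ r ∈ S, g r ≤ ∑ r ∈ S, 1 / (r : ℝ) + ∑ r ∈ S, 1 / ((r : ℝ) * ((r : ℝ) - 1)) := by
    rw [← sum_add_distrib]
    refine sum_le_sum fun r hr => (hg r hr).2.2.trans (le_of_eq ?_)
    have a := hr2 r hr
    have b : (r : ℝ) - 1 ≠ 0 := by linarith
    have c : (r : ℝ) ≠ 0 := by linarith
    field_simp
    ring
  have h4 : ∑ r ∈ S, g r ^ 2 ≤ 2 * ∑ r ∈ S, 1 / ((r : ℝ) * ((r : ℝ) - 1)) := by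
    rw [mul_sum]
    refine sum_le_sum fun r hr => (pow_le_pow_left₀ (hg r hr).1 (hg r hr).2.2 2).trans ?_
    have a := hr2 r hr
    have b : 0 < (r : ℝ) - 1 := by linarith
    rw [div_pow, one_pow, mul_one_div, div_le_div_iff₀ (by positivity) (by positivity)]
    nlinarith
  have hρ0 : 0 < ρ := by linarith
  have h5 : Real.log (Real.exp 16 * ρ) = 16 + Real.log ρ := by
    rw [Real.log_mul (Real.exp_pos _).ne' hρ0.ne', Real.log_exp]
  refine ⟨by linarith, ?_⟩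
  have h6 := jmert_lower S g fun r hr => ⟨(hg r hr).1, (hg r hr).2.1⟩
  have h7 : Real.exp (-(16 + Real.log ρ)) ≤ ∏ r ∈ S, (1 - g r) :=
    le_trans (Real.exp_le_exp.2 (by linarith)) h6
  have h8 : Real.exp 16 * ρ * Real.exp (-(16 + Real.log ρ)) = 1 := by
    rw [Real.exp_neg, Real.exp_add, Real.exp_log hρ0]
    exact mul_inv_cancel₀ (by positivity)
  exact h8.ge.trans (mul_le_mul_of_nonneg_left h7 (by positivity))

end

end Pool.Agent.Jac
end

-- part Pool.Agent.P.MP_45ff98_nt.JFLa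
section

/-! Two estimates for the beta sieve. -/

namespace Pool.Agent.Jac
open Finset

noncomputable section

theorem jfla_sum (S : Finset ℕ) (g : ℕ → ℝ) (n : ℕ) (hg : ∀ r ∈ S, 0 ≤ g r) :
    ∑ T ∈ S.powerset.filter (fun T => T.card = n), ∏ r ∈ T, g r ≤
      Real.exp (-6 * n) * Real.exp (404 * ∑ r ∈ S, g r) := by
  have h6 : Real.exp 6 ≤ 404 := by
    have h1 : Real.exp 6 = Real.exp 1 ^ 6 := by rw [← Real.exp_nat_mul]; norm_num
    rw [h1]
    calc Real.exp 1 ^ 6 ≤ (2.7182818286 : ℝ) ^ 6 :=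
          pow_le_pow_left₀ (Real.exp_pos 1).le Real.exp_one_lt_d9.le 6
      _ ≤ 404 := by norm_num
  have h1 : ∑ T ∈ S.powerset.filter (fun T => T.card = n), ∏ r ∈ T, g r ≤
      ∑ T ∈ S.powerset.filter (fun T => T.card = n), Real.exp (-6 * n) * ∏ r ∈ T, (404 * g r) := by
    refine sum_le_sum fun T hT => ?_
    obtain ⟨h1, h2⟩ := mem_filter.1 hT
    have h3 : 0 ≤ ∏ r ∈ T, g r := prod_nonneg fun r hr => hg r (mem_powerset.1 h1 hr)
    rw [prod_mul_distrib, prod_const, h2, ← mul_assoc]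
    refine le_mul_of_one_le_left h3 ?_
    have h4 : Real.exp (6 * n) ≤ 404 ^ n := by
      rw [mul_comm, Real.exp_nat_mul]
      exact pow_le_pow_left₀ (Real.exp_pos 6).le h6 n
    calc (1 : ℝ) = Real.exp (-6 * n) * Real.exp (6 * n) := by rw [← Real.exp_add]; simp
      _ ≤ _ := mul_le_mul_of_nonneg_left h4 (Real.exp_pos _).le
  refine h1.trans ?_
  rw [← mul_sum]
  refine mul_le_mul_of_nonneg_left ?_ (Real.exp_pos _).le
  calc ∑ T ∈ S.powerset.filter (fun T => T.card = n), ∏ r ∈ T, (404 * g r)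
      ≤ ∑ T ∈ S.powerset, ∏ r ∈ T, (404 * g r) :=
        sum_le_sum_of_subset_of_nonneg (filter_subset _ _) fun T hT _ =>
          prod_nonneg fun r hr => mul_nonneg (by norm_num) (hg r (mem_powerset.1 hT hr))
    _ = ∏ r ∈ S, (1 + 404 * g r) := (prod_one_add S).symm
    _ ≤ ∏ r ∈ S, Real.exp (404 * g r) := by
        refine prod_le_prod (fun r hr => ?_) fun r _ => ?_
        · have := hg r hr; positivity
        · rw [add_comm]; exact Real.add_one_le_exp _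
    _ = Real.exp (404 * ∑ r ∈ S, g r) := by rw [mul_sum, Real.exp_sum]

theorem layer : ∃ C : ℝ, 1 ≤ C ∧ ∀ (S : Finset ℕ) (g : ℕ → ℝ) (z w : ℝ) (n : ℕ), 1 ≤ n → 1 ≤ w →
    (∀ r ∈ S, r.Prime ∧ (r : ℝ) < z) → Dens S g →
    Real.log z ≤ 5000 * Real.exp (n / 405) * Real.log w →
    ∑ T ∈ S.powerset.filter (fun T => T.card = n ∧ ∀ r ∈ T, w ≤ ((r : ℕ) : ℝ)),
        (∏ r ∈ T, g r) * ∏ r ∈ S.filter (fun r => r < mn T), (1 - g r) ≤
      C * Real.exp (-5 * n) * ∏ r ∈ S, (1 - g r) := by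
  obtain ⟨K, hK, hd⟩ := dim_one
  refine ⟨(5000 * K) ^ 405, one_le_pow₀ (by linarith), fun S g z w n hn hw hS hg hz => ?_⟩
  set ρ : ℝ := 5000 * Real.exp (n / 405) with hρ
  have e1 : 1 ≤ Real.exp (n / 405) := Real.one_le_exp (by positivity)
  have hρ1 : 1 ≤ ρ := by linarith
  have hKρ : 0 < K * ρ := by positivity
  set Sh := S.filter (fun r : ℕ => w ≤ (r : ℝ)) with hSh
  set Sl := S.filter (fun r : ℕ => ¬ w ≤ (r : ℝ)) with hSl
  obtain ⟨d1, d2⟩ := hd Sh g z w ρ hw hρ1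
    (fun r hr => ⟨(hS r (mem_filter.1 hr).1).1, (mem_filter.1 hr).2, (hS r (mem_filter.1 hr).1).2⟩)
    (fun r hr => hg r (mem_filter.1 hr).1) hz
  have g0 : ∀ r ∈ S, 0 ≤ 1 - g r := fun r hr => by have := (hg r hr).2.1; linarith
  have g1 : ∀ r ∈ S, 1 - g r ≤ 1 := fun r hr => by have := (hg r hr).1; linarith
  have l0 : 0 ≤ ∏ r ∈ Sl, (1 - g r) := prod_nonneg fun r hr => g0 r (mem_filter.1 hr).1
  have p0 : 0 ≤ ∏ r ∈ S, (1 - g r) := prod_nonneg g0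
  have l1 : ∏ r ∈ Sl, (1 - g r) ≤ K * ρ * ∏ r ∈ S, (1 - g r) := by
    rw [← prod_filter_mul_prod_filter_not S (fun r : ℕ => w ≤ (r : ℝ)), ← mul_assoc]
    exact le_mul_of_one_le_left l0 d2
  have s1 : ∑ T ∈ S.powerset.filter (fun T => T.card = n ∧ ∀ r ∈ T, w ≤ ((r : ℕ) : ℝ)),
        (∏ r ∈ T, g r) * ∏ r ∈ S.filter (fun r => r < mn T), (1 - g r) ≤
      ∑ T ∈ S.powerset.filter (fun T => T.card = n ∧ ∀ r ∈ T, w ≤ ((r : ℕ) : ℝ)),
        (∏ r ∈ T, g r) * (K * ρ * ∏ r ∈ S, (1 - g r)) := by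
    refine sum_le_sum fun T hT => ?_
    obtain ⟨h1, h2, h3⟩ := mem_filter.1 hT
    refine mul_le_mul_of_nonneg_left (le_trans ?_ l1)
      (prod_nonneg fun r hr => (hg r (mem_powerset.1 h1 hr)).1)
    have h4 : w ≤ (mn T : ℝ) := h3 _ (mn_mem (card_pos.1 (by omega)))
    refine prod_le_prod_of_subset_of_le_one (fun r hr => ?_)
      (fun r hr => g0 r (mem_filter.1 hr).1) fun r hr _ => g1 r (mem_filter.1 hr).1
    obtain ⟨h5, h6⟩ := mem_filter.1 hr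
    refine mem_filter.2 ⟨h5, ?_⟩
    have : (r : ℝ) < mn T := (not_le.1 h6).trans_le h4
    exact_mod_cast this
  refine s1.trans ?_
  rw [← sum_mul]
  have s2 : S.powerset.filter (fun T => T.card = n ∧ ∀ r ∈ T, w ≤ ((r : ℕ) : ℝ)) =
      Sh.powerset.filter (fun T => T.card = n) := by
    ext T
    simp only [mem_filter, mem_powerset, hSh, subset_iff]
    constructor
    · rintro ⟨h1, h2, h3⟩
      exact ⟨fun r hr => ⟨h1 hr, h3 r hr⟩, h2⟩
    · rintro ⟨h1, h2⟩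
      exact ⟨fun r hr => (h1 hr).1, h2, fun r hr => (h1 hr).2⟩
  rw [s2]
  have s3 := jfla_sum Sh g n fun r hr => (hg r (mem_filter.1 hr).1).1
  have s4 : Real.exp (404 * ∑ r ∈ Sh, g r) ≤ (K * ρ) ^ 404 := by
    calc Real.exp (404 * ∑ r ∈ Sh, g r) ≤ Real.exp ((404 : ℕ) * Real.log (K * ρ)) :=
          Real.exp_le_exp.2 (by push_cast; linarith)
      _ = (K * ρ) ^ 404 := by rw [Real.exp_nat_mul, Real.exp_log hKρ]
  have s5 : (K * ρ) ^ 404 * (K * ρ) = (5000 * K) ^ 405 * Real.exp n := by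
    have : Real.exp n = Real.exp (n / 405) ^ 405 := by
      rw [← Real.exp_nat_mul]; congr 1; push_cast; ring
    rw [this, ← pow_succ, ← mul_pow, hρ]
    congr 1; ring
  have s6 : Real.exp (-5 * n) = Real.exp (-6 * n) * Real.exp n := by
    rw [← Real.exp_add]; congr 1; ring
  calc (∑ T ∈ Sh.powerset.filter (fun T => T.card = n), ∏ r ∈ T, g r) *
        (K * ρ * ∏ r ∈ S, (1 - g r))
      ≤ (Real.exp (-6 * n) * (K * ρ) ^ 404) * (K * ρ * ∏ r ∈ S, (1 - g r)) :=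
        mul_le_mul_of_nonneg_right
          (s3.trans (mul_le_mul_of_nonneg_left s4 (Real.exp_pos _).le)) (by positivity)
    _ = Real.exp (-6 * n) * ((K * ρ) ^ 404 * (K * ρ)) * ∏ r ∈ S, (1 - g r) := by
        generalize (K * ρ) ^ 404 = a
        ring
    _ = _ := by
        rw [s5, s6]
        generalize (5000 * K) ^ 405 = a
        ring

theorem jfla_self {ok : Finset ℕ → Prop} {T : Finset ℕ} (h : GV ok T) (hT : T.Nonempty) : ok T := by
  have := h _ (mn_mem hT)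
  rwa [top, filter_true_of_mem fun q hq => mn_le hq] at this

theorem jfla_tail {ok : Finset ℕ → Prop} {a : ℕ} {s : Finset ℕ} (ha : ∀ x ∈ s, a < x)
    (h : GV ok (insert a s)) : GV ok s := by
  intro p hp
  have := h p (mem_insert_of_mem hp)
  rwa [top, filter_insert, if_neg (not_le.2 (ha p hp))] at this

theorem jfla_mn {a : ℕ} {s : Finset ℕ} (ha : ∀ x ∈ s, a < x) : mn (insert a s) = a :=
  mn_eq (mem_insert_self a s) fun q hq => by
    rcases mem_insert.1 hq with rfl | hq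
    · exact le_rfl
    · exact (ha q hq).le

theorem jfla_step {e : ℕ} {D : ℝ} {a : ℕ} {s : Finset ℕ} (ha : ∀ x ∈ s, a < x) (a1 : 1 ≤ a)
    (hv : GV (okB e D) (insert a s)) :
    (s = ∅ ∧ Even e) ∨ (pr s : ℝ) * (a : ℝ) ^ 1215 ≤ D := by
  have hn : a ∉ s := fun h => lt_irrefl _ (ha a h)
  have a1' : (1 : ℝ) ≤ a := by exact_mod_cast a1
  rcases Nat.even_or_odd (e + s.card) with he | he
  · rcases s.eq_empty_or_nonempty with rfl | hs
    · exact Or.inl ⟨rfl, by simpa using he⟩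
    · right
      refine le_trans ?_ (jfla_self (jfla_tail ha hv) hs he)
      have : (a : ℝ) ≤ mn s := by exact_mod_cast (ha _ (mn_mem hs)).le
      exact mul_le_mul_of_nonneg_left (pow_le_pow_left₀ (by linarith) this _) (by positivity)
  · right
    have h1 := jfla_self hv (insert_nonempty a s)
      (by rw [card_insert_of_notMem hn, ← add_assoc]; exact he.add_one)
    rw [jfla_mn ha, pr_insert hn] at h1
    refine le_trans (mul_le_mul_of_nonneg_right ?_ (by positivity)) h1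
    push_cast
    exact le_mul_of_one_le_left (by positivity) a1'

theorem jfla_log (e : ℕ) (D : ℝ) (hD : 1 ≤ D) (T : Finset ℕ) : (∀ r ∈ T, r.Prime) →
    (Even e → ∀ r ∈ T, ((r : ℕ) : ℝ) ^ 1215 ≤ D) → GV (okB e D) T →
    Real.exp (-(T.card / 405)) * Real.log D ≤ Real.log D - Real.log (pr T) := by
  induction T using Finset.induction_on_min with
  | empty => intros; simp [pr]
  | insert a s ha ih =>
    intro hT h0 hv
    have hn : a ∉ s := fun h => lt_irrefl _ (ha a h)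
    have hs : ∀ r ∈ s, r.Prime := fun r hr => hT r (mem_insert_of_mem hr)
    have i1 := ih hs (fun he r hr => h0 he r (mem_insert_of_mem hr)) (jfla_tail ha hv)
    have pa := hT a (mem_insert_self a s)
    have a0 : (0 : ℝ) < a := by exact_mod_cast pa.pos
    have s0 : (0 : ℝ) < pr s := by exact_mod_cast pr_pos hs
    have h1 : (pr s : ℝ) * (a : ℝ) ^ 1215 ≤ D := by
      rcases jfla_step ha pa.pos hv with ⟨rfl, he⟩ | h
      · simpa [pr] using h0 he a (mem_insert_self _ _)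
      · exact h
    have h2 := Real.log_le_log (by positivity) h1
    rw [Real.log_mul s0.ne' (by positivity), Real.log_pow] at h2
    rw [card_insert_of_notMem hn, pr_insert hn]
    push_cast at h2 ⊢
    rw [Real.log_mul a0.ne' s0.ne']
    have h3 : Real.exp (-(((s.card : ℝ) + 1) / 405)) =
        Real.exp (-(1 / 405)) * Real.exp (-(s.card / 405)) := by
      rw [← Real.exp_add]; congr 1; ring
    have h4 : Real.exp (-(1 / 405)) ≤ 1214 / 1215 := by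
      rw [Real.exp_neg, inv_le_comm₀ (Real.exp_pos _) (by norm_num)]
      have := Real.add_one_le_exp (1 / 405 : ℝ)
      norm_num at this ⊢
      linarith
    have h5 : 0 ≤ Real.exp (-(s.card / 405)) * Real.log D :=
      mul_nonneg (Real.exp_pos _).le (Real.log_nonneg hD)
    rw [h3, mul_assoc]
    have h6 := mul_le_mul_of_nonneg_right h4 h5
    linarith

theorem beta_min (e : ℕ) (D : ℝ) (hD : 1 ≤ D) (T : Finset ℕ) (hT : ∀ r ∈ T, r.Prime)
    (h0 : Even e → ∀ r ∈ T, ((r : ℕ) : ℝ) ^ 1215 ≤ D) (hb : GB (okB e D) T) :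
    Real.log D ≤ 1216 * Real.exp (T.card / 405) * Real.log (mn T) := by
  obtain ⟨hne, hv, hno⟩ := hb
  have hm := mn_mem hne
  have hs : ∀ r ∈ T.erase (mn T), r.Prime := fun r hr => hT r (mem_of_mem_erase hr)
  have i1 := jfla_log e D hD _ hs (fun he r hr => h0 he r (mem_of_mem_erase hr)) hv
  have h1 : D < (pr T : ℝ) * (mn T : ℝ) ^ 1215 := by
    by_contra hc
    exact hno fun _ => not_lt.1 hc
  have a1 : (1 : ℝ) ≤ mn T := by exact_mod_cast (hT _ hm).pos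
  have s0 : (0 : ℝ) < pr (T.erase (mn T)) := by exact_mod_cast pr_pos hs
  have h2 : pr T = mn T * pr (T.erase (mn T)) := by
    rw [← pr_insert (notMem_erase _ _), insert_erase hm]
  have h3 := Real.log_le_log (by linarith) h1.le
  rw [h2] at h3
  push_cast at h3
  rw [Real.log_mul (by positivity) (by positivity), Real.log_mul (by positivity) s0.ne',
    Real.log_pow] at h3
  push_cast at h3
  have l0 : 0 ≤ Real.log (mn T) := Real.log_nonneg a1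
  have h4 : Real.exp (-(((T.erase (mn T)).card : ℝ) / 405)) * Real.log D ≤
      1216 * Real.log (mn T) := by linarith
  have h5 : 1 ≤ Real.exp (T.card / 405) * Real.exp (-(((T.erase (mn T)).card : ℝ) / 405)) := by
    rw [← Real.exp_add]
    refine Real.one_le_exp ?_
    have : ((T.erase (mn T)).card : ℝ) ≤ T.card := by exact_mod_cast card_erase_le
    linarith
  calc Real.log D ≤ Real.exp (T.card / 405) * Real.exp (-(((T.erase (mn T)).card : ℝ) / 405)) *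
        Real.log D := le_mul_of_one_le_left (Real.log_nonneg hD) h5
    _ = Real.exp (T.card / 405) *
        (Real.exp (-(((T.erase (mn T)).card : ℝ) / 405)) * Real.log D) := mul_assoc _ _ _
    _ ≤ Real.exp (T.card / 405) * (1216 * Real.log (mn T)) :=
        mul_le_mul_of_nonneg_left h4 (Real.exp_pos _).le
    _ = _ := by ring

theorem beta_level (e : ℕ) (D : ℝ) (hD : 1 ≤ D) (T : Finset ℕ) (hT : ∀ r ∈ T, r.Prime)
    (h0 : Even e → ∀ r ∈ T, ((r : ℕ) : ℝ) ≤ D) (hv : GV (okB e D) T) : (pr T : ℝ) ≤ D := by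
  induction T using Finset.induction_on_min with
  | empty => simpa [pr] using hD
  | insert a s ha _ =>
    have hn : a ∉ s := fun h => lt_irrefl _ (ha a h)
    have pa := hT a (mem_insert_self a s)
    have a1 : (1 : ℝ) ≤ a := by exact_mod_cast pa.pos
    rw [pr_insert hn]
    push_cast
    rcases jfla_step ha pa.pos hv with ⟨rfl, he⟩ | h
    · simpa [pr] using h0 he a (mem_insert_self _ _)
    · refine le_trans ?_ h
      rw [mul_comm]
      exact mul_le_mul_of_nonneg_left (le_self_pow₀ a1 (by norm_num)) (by positivity)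

end

end Pool.Agent.Jac
end

-- part Pool.Agent.P.MP_45ff98_nt.JTree
section

/-! The tree identity of Buchstab and Rosser. -/

namespace Pool.Agent.Jac
open Finset

noncomputable section

theorem jtree_gv {ok : Finset ℕ → Prop} {q : ℕ} {T : Finset ℕ} (h : ∀ r ∈ T, r < q) :
    GV ok (insert q T) ↔ ok {q} ∧ GV (fun U => ok (insert q U)) T := by
  have h1 : top (insert q T) q = {q} := by
    ext r
    simp only [top, mem_filter, mem_insert, mem_singleton]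
    constructor
    · rintro ⟨rfl | h2, h3⟩
      · rfl
      · exact absurd (h r h2) (by omega)
    · rintro rfl; exact ⟨Or.inl rfl, le_rfl⟩
  have h2 : ∀ p ∈ T, top (insert q T) p = insert q (top T p) := fun p hp => by
    rw [top, filter_insert, if_pos (h p hp).le]; rfl
  rw [GV, forall_mem_insert, h1]
  exact and_congr_right fun _ => forall₂_congr fun p hp => by rw [h2 p hp]

theorem jtree_mn {q : ℕ} {T : Finset ℕ} (h : ∀ r ∈ T, r < q) (hT : T.Nonempty) :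
    mn (insert q T) = mn T :=
  mn_eq (mem_insert_of_mem (mn_mem hT)) fun r hr => by
    rcases mem_insert.1 hr with rfl | hr
    · exact (h _ (mn_mem hT)).le
    · exact mn_le hr

theorem jtree_mn1 (q : ℕ) : mn {q} = q :=
  mn_eq (mem_singleton_self q) fun _ hr => (mem_singleton.1 hr).ge

theorem jtree_gb1 {ok : Finset ℕ → Prop} (q : ℕ) : GB ok {q} ↔ ¬ ok {q} := by
  simp [GB, GV, jtree_mn1]

theorem jtree_gb {ok : Finset ℕ → Prop} {q : ℕ} {T : Finset ℕ} (h : ∀ r ∈ T, r < q)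
    (hT : T.Nonempty) : GB ok (insert q T) ↔ ok {q} ∧ GB (fun U => ok (insert q U)) T := by
  rw [GB, GB, jtree_mn h hT, erase_insert_of_ne (h _ (mn_mem hT)).ne',
    jtree_gv fun r hr => h r (mem_of_mem_erase hr)]
  simp only [insert_nonempty, hT, true_and, and_assoc]

open Classical in
theorem tree (ok : Finset ℕ → Prop) (S : Finset ℕ) (g : ℕ → ℝ) :
    ∏ r ∈ S, (1 - g r) =
      ∑ T ∈ S.powerset.filter (GV ok), (-1) ^ T.card * ∏ r ∈ T, g r +
      ∑ T ∈ S.powerset.filter (GB ok),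
        (-1) ^ T.card * (∏ r ∈ T, g r) * ∏ r ∈ S.filter (fun r => r < mn T), (1 - g r) := by
  induction S using Finset.strongInduction generalizing ok with
  | H S ih =>
  rw [sum_filter, sum_filter, ← sum_add_distrib, sum_powerset_max, prod_one_sub_ordered,
    if_pos (show GV ok ∅ by simp [GV]), if_neg (show ¬ GB ok ∅ by simp [GB]), sub_eq_add_neg,
    ← sum_neg_distrib]
  congr 1
  · simp
  refine sum_congr rfl fun q hq => ?_
  have hlt : ∀ T ∈ (S.filter fun r => r < q).powerset, ∀ r ∈ T, r < q := fun T hT r hr =>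
    (mem_filter.1 (mem_powerset.1 hT hr)).2
  by_cases hok : ok {q}
  · have hs : S.filter (fun r => r < q) ⊂ S := filter_ssubset.2 ⟨q, hq, lt_irrefl q⟩
    rw [ih _ hs fun U => ok (insert q U), sum_filter, sum_filter, ← sum_add_distrib, mul_sum,
      ← sum_neg_distrib]
    refine sum_congr rfl fun T hT => ?_
    have h := hlt T hT
    have hn : q ∉ T := fun e => lt_irrefl q (h q e)
    rw [card_insert_of_notMem hn, prod_insert hn, jtree_gv h]
    rcases T.eq_empty_or_nonempty with rfl | hne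
    · simp [GV, GB, hok, jtree_mn1]
    · have e : (S.filter fun r => r < q).filter (fun r => r < mn T) =
          S.filter fun r => r < mn T := by
        rw [filter_filter]
        exact filter_congr fun r _ => and_iff_right_of_imp fun e => e.trans (h _ (mn_mem hne))
      rw [jtree_gb h hne, jtree_mn h hne, e]
      simp only [hok, true_and]
      split_ifs <;> ring
  · rw [sum_eq_single ∅]
    · rw [if_neg fun e => hok ((jtree_gv (T := ∅) (by simp)).1 e).1, insert_empty,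
        if_pos ((jtree_gb1 q).2 hok), jtree_mn1]
      simp
    · intro T hT hne
      rw [if_neg fun e => hok ((jtree_gv (hlt T hT)).1 e).1,
        if_neg fun e => hok ((jtree_gb (hlt T hT) (nonempty_iff_ne_empty.2 hne)).1 e).1, add_zero]
    · simp

end

end Pool.Agent.Jac
end

-- part Pool.Agent.P.MP_45ff98_nt.JFL
section

/-! The fundamental lemma of the sieve. -/

namespace Pool.Agent.Jac
open Finset

noncomputable section

open Classical in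
/-- The weights of the beta sieve. -/
def JFL_w (e : ℕ) (D : ℝ) (S T : Finset ℕ) : ℝ :=
  if T ⊆ S ∧ GV (okB e D) T then (-1) ^ T.card else 0

open Classical in
/-- The boundary sum. -/
def JFL_err (e : ℕ) (D : ℝ) (S : Finset ℕ) (g : ℕ → ℝ) : ℝ :=
  ∑ T ∈ S.powerset.filter (GB (okB e D)),
    (∏ r ∈ T, g r) * ∏ r ∈ S.filter (fun r => r < mn T), (1 - g r)

theorem JFL_gb {e : ℕ} {D : ℝ} {T : Finset ℕ} (h : GB (okB e D) T) :
    Even (e + T.card) ∧ D < (pr T : ℝ) * (mn T : ℝ) ^ 1215 := by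
  have h1 := h.2.2
  unfold okB at h1
  by_cases h2 : Even (e + T.card)
  · exact ⟨h2, not_le.1 fun h3 => h1 fun _ => h3⟩
  · exact absurd (fun h3 => absurd h3 h2) h1

theorem JFL_tree (e : ℕ) (D : ℝ) {s S : Finset ℕ} (hs : s ⊆ S) (g : ℕ → ℝ) :
    ∑ T ∈ s.powerset, JFL_w e D S T * ∏ r ∈ T, g r =
      ∏ r ∈ s, (1 - g r) - (-1) ^ e * JFL_err e D s g := by
  classical
  rw [tree (okB e D) s g, JFL_err, mul_sum]
  have h1 : ∑ T ∈ s.powerset, JFL_w e D S T * ∏ r ∈ T, g r =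
      ∑ T ∈ s.powerset.filter (GV (okB e D)), (-1) ^ T.card * ∏ r ∈ T, g r := by
    rw [sum_filter]
    refine sum_congr rfl fun T hT => ?_
    have h2 : T ⊆ S := (mem_powerset.1 hT).trans hs
    unfold JFL_w
    by_cases h3 : GV (okB e D) T
    · rw [if_pos ⟨h2, h3⟩, if_pos h3]
    · rw [if_neg (fun h => h3 h.2), if_neg h3, zero_mul]
  have h2 : ∑ T ∈ s.powerset.filter (GB (okB e D)),
      (-1 : ℝ) ^ T.card * (∏ r ∈ T, g r) * ∏ r ∈ s.filter (fun r => r < mn T), (1 - g r) =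
      ∑ T ∈ s.powerset.filter (GB (okB e D)),
        (-1 : ℝ) ^ e * ((∏ r ∈ T, g r) * ∏ r ∈ s.filter (fun r => r < mn T), (1 - g r)) := by
    refine sum_congr rfl fun T hT => ?_
    have h3 := (JFL_gb (mem_filter.1 hT).2).1
    have h4 : (-1 : ℝ) ^ T.card = (-1) ^ e := by
      rcases Nat.even_or_odd e with he | he
      · rw [he.neg_one_pow, ((Nat.even_add.1 h3).1 he).neg_one_pow]
      · have h5 : Odd T.card := Nat.not_even_iff_odd.1 fun h6 =>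
          Nat.not_even_iff_odd.2 he ((Nat.even_add.1 h3).2 h6)
        rw [he.neg_one_pow, h5.neg_one_pow]
    rw [h4, mul_assoc]
  rw [h1, h2]
  ring

theorem JFL_err_nonneg (e : ℕ) (D : ℝ) (s : Finset ℕ) (g : ℕ → ℝ)
    (hg : ∀ r ∈ s, 0 ≤ g r ∧ g r ≤ 1) : 0 ≤ JFL_err e D s g := by
  classical
  unfold JFL_err
  refine sum_nonneg fun T hT => mul_nonneg (prod_nonneg fun r hr => ?_) (prod_nonneg fun r hr => ?_)
  · exact (hg r (mem_powerset.1 (mem_filter.1 hT).1 hr)).1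
  · exact sub_nonneg.2 (hg r (mem_filter.1 hr).1).2

theorem JFL_wts (e : ℕ) {D : ℝ} (hD : 1 ≤ D) {S : Finset ℕ} (hS : ∀ r ∈ S, r.Prime)
    (h0 : Even e → ∀ r ∈ S, ((r : ℕ) : ℝ) ≤ D) : Wts S D (JFL_w e D S) := by
  intro T
  unfold JFL_w
  split_ifs with h
  · refine ⟨by simp, fun _ => ⟨h.1, ?_⟩⟩
    exact beta_level e D hD T (fun r hr => hS r (h.1 hr)) (fun he r hr => h0 he r (h.1 hr)) h.2
  · simp

theorem JFL_one (s : Finset ℕ) : ∏ _r ∈ s, ((1 : ℝ) - 1) = if s = ∅ then 1 else 0 := by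
  split_ifs with h
  · simp [h]
  · rw [sub_self, prod_const, zero_pow (fun h1 => h (card_eq_zero.1 h1))]

theorem JFL_exp {z D m : ℝ} (hz : 2 ≤ z) (h : Real.log D ≤ m * Real.log z) :
    1 ≤ Real.exp (4 * m) * Real.exp (-4 * Real.log D / Real.log z) := by
  have hl : 0 < Real.log z := Real.log_pos (by linarith)
  rw [← Real.exp_add]
  refine Real.one_le_exp ?_
  have h1 : Real.log D / Real.log z ≤ m := (div_le_iff₀ hl).2 h
  have h2 : -4 * Real.log D / Real.log z = -4 * (Real.log D / Real.log z) := by ring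
  rw [h2]
  linarith

theorem JFL_log {e : ℕ} {z D : ℝ} (hD : 1 ≤ D) {T : Finset ℕ}
    (hT : ∀ r ∈ T, (r : ℝ) < z) (hz : 2 ≤ z) (h : GB (okB e D) T) :
    Real.log D ≤ (T.card + 1215) * Real.log z := by
  have h1 := (JFL_gb h).2
  have h2 : (pr T : ℝ) ≤ z ^ T.card := by
    rw [pr, Nat.cast_prod, ← prod_const]
    exact prod_le_prod (fun r _ => by positivity) fun r hr => (hT r hr).le
  have h3 : (mn T : ℝ) ^ 1215 ≤ z ^ 1215 :=
    pow_le_pow_left₀ (by positivity) (hT _ (mn_mem h.1)).le _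
  have h4 : D ≤ z ^ (T.card + 1215) := by
    rw [pow_add]
    exact h1.le.trans (mul_le_mul h2 h3 (pow_nonneg (Nat.cast_nonneg _) _)
      (pow_nonneg (by linarith) _))
  have h5 := Real.log_le_log (by linarith) h4
  rw [Real.log_pow] at h5
  push_cast at h5
  exact h5

theorem JFL_err_le : ∃ C : ℝ, Real.exp (4 * 1215) ≤ C ∧ ∀ (e : ℕ) (S : Finset ℕ) (z D : ℝ),
    2 ≤ z → z ≤ D ^ 4 → 1 ≤ D → (∀ r ∈ S, r.Prime ∧ (r : ℝ) < z) → (Even e → z ^ 1215 ≤ D) →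
    ∀ g : ℕ → ℝ, Dens S g → JFL_err e D S g ≤
      C * Real.exp (-4 * Real.log D / Real.log z) * ∏ r ∈ S, (1 - g r) := by
  classical
  obtain ⟨C, hC1, hC⟩ := layer
  refine ⟨2 * C * Real.exp (4 * 1215), by nlinarith [Real.exp_pos (4 * 1215)], ?_⟩
  intro e S z D hz hzD hD hS h0 g hg
  have hP : 0 ≤ ∏ r ∈ S, (1 - g r) :=
    prod_nonneg fun r hr => by have := (hg r hr).2.1; linarith
  have hlD : 0 ≤ Real.log D := Real.log_nonneg hD
  set K : ℝ := C * Real.exp (4 * 1215) * Real.exp (-4 * Real.log D / Real.log z) *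
    ∏ r ∈ S, (1 - g r) with hK
  have hK0 : 0 ≤ K := by positivity
  have key : ∀ n : ℕ, ∑ T ∈ (S.powerset.filter (GB (okB e D))).filter (fun T => T.card = n),
      (∏ r ∈ T, g r) * ∏ r ∈ S.filter (fun r => r < mn T), (1 - g r) ≤ K * (1 / 2) ^ n := by
    intro n
    rcases ((S.powerset.filter (GB (okB e D))).filter (fun T => T.card = n)).eq_empty_or_nonempty
      with h | ⟨T0, hT0⟩
    · rw [h, sum_empty]; positivity
    obtain ⟨h1, h2⟩ := mem_filter.1 hT0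
    obtain ⟨h3, h4⟩ := mem_filter.1 h1
    have hn : 1 ≤ n := h2 ▸ card_pos.2 h4.1
    have h5 := JFL_exp hz (JFL_log hD (fun r hr => (hS r (mem_powerset.1 h3 hr)).2) hz h4)
    rw [h2] at h5
    have hE : 0 < 1216 * Real.exp ((n : ℝ) / 405) := by positivity
    have hw : 1 ≤ Real.exp (Real.log D / (1216 * Real.exp ((n : ℝ) / 405))) :=
      Real.one_le_exp (by positivity)
    have hlz : Real.log z ≤ 5000 * Real.exp ((n : ℝ) / 405) *
        Real.log (Real.exp (Real.log D / (1216 * Real.exp ((n : ℝ) / 405)))) := by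
      rw [Real.log_exp]
      have h6 := Real.log_le_log (by linarith) hzD
      rw [Real.log_pow] at h6
      have h7 : 5000 * Real.exp ((n : ℝ) / 405) * (Real.log D / (1216 * Real.exp ((n : ℝ) / 405)))
          = 5000 / 1216 * Real.log D := by
        field_simp
      rw [h7]
      push_cast at h6
      linarith
    have h8 := hC S g z _ n hn hw hS hg hlz
    refine le_trans (le_trans (sum_le_sum_of_subset_of_nonneg (fun T hT => ?_) fun T hT _ => ?_)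
      h8) ?_
    · obtain ⟨a1, a2⟩ := mem_filter.1 hT
      obtain ⟨a3, a4⟩ := mem_filter.1 a1
      have a5 := mem_powerset.1 a3
      refine mem_filter.2 ⟨a3, a2, fun r hr => ?_⟩
      have a6 := beta_min e D hD T (fun r hr => (hS r (a5 hr)).1)
        (fun he r hr => (pow_le_pow_left₀ (by positivity) (hS r (a5 hr)).2.le _).trans (h0 he)) a4
      rw [a2] at a6
      have a7 : (0 : ℝ) < mn T := by exact_mod_cast (hS _ (a5 (mn_mem a4.1))).1.pos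
      have a8 : Real.log D / (1216 * Real.exp ((n : ℝ) / 405)) ≤ Real.log (mn T) := by
        rw [div_le_iff₀ hE]; linarith
      have a9 : ((mn T : ℕ) : ℝ) ≤ r := by exact_mod_cast mn_le hr
      calc _ ≤ Real.exp (Real.log (mn T)) := Real.exp_le_exp.2 a8
        _ = mn T := Real.exp_log a7
        _ ≤ r := a9
    · refine mul_nonneg (prod_nonneg fun r hr => ?_) (prod_nonneg fun r hr => ?_)
      · exact (hg r (mem_powerset.1 (mem_filter.1 hT).1 hr)).1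
      · have := (hg r (mem_filter.1 hr).1).2.1
        linarith
    · have b1 : Real.exp (-(n : ℝ)) ≤ (1 / 2) ^ n := by
        have b2 : Real.exp (-(n : ℝ)) = Real.exp (-1) ^ n := by
          rw [← Real.exp_nat_mul]; congr 1; ring
        rw [b2]
        refine pow_le_pow_left₀ (by positivity) ?_ n
        rw [Real.exp_neg, ← one_div]
        refine one_div_le_one_div_of_le (by norm_num) ?_
        have := Real.add_one_le_exp (1 : ℝ)
        linarith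
      have b3 : Real.exp (-5 * (n : ℝ)) * Real.exp (4 * ((n : ℝ) + 1215)) =
          Real.exp (4 * 1215) * Real.exp (-(n : ℝ)) := by
        rw [← Real.exp_add, ← Real.exp_add]; congr 1; ring
      have b4 : 0 ≤ C * Real.exp (-5 * (n : ℝ)) * ∏ r ∈ S, (1 - g r) := by positivity
      calc _ ≤ (C * Real.exp (-5 * (n : ℝ)) * ∏ r ∈ S, (1 - g r)) *
            (Real.exp (4 * ((n : ℝ) + 1215)) * Real.exp (-4 * Real.log D / Real.log z)) :=
            le_mul_of_one_le_right b4 h5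
        _ = C * (Real.exp (-5 * (n : ℝ)) * Real.exp (4 * ((n : ℝ) + 1215))) *
            Real.exp (-4 * Real.log D / Real.log z) * ∏ r ∈ S, (1 - g r) := by ring
        _ = K * Real.exp (-(n : ℝ)) := by rw [b3, hK]; ring
        _ ≤ K * (1 / 2) ^ n := mul_le_mul_of_nonneg_left b1 hK0
  unfold JFL_err
  rw [← sum_fiberwise_of_maps_to (g := fun T : Finset ℕ => T.card) (t := range (S.card + 1))
    (fun T hT => mem_range.2 (Nat.lt_succ_of_le
      (card_le_card (mem_powerset.1 (mem_filter.1 hT).1))))]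
  refine (sum_le_sum fun n _ => key n).trans ?_
  rw [← mul_sum]
  calc _ ≤ K * 2 := mul_le_mul_of_nonneg_left (sum_geometric_two_le _) hK0
    _ = _ := by rw [hK]; ring

theorem fund_lemma : ∃ C : ℝ, 1 ≤ C ∧ ∀ (S : Finset ℕ) (z D : ℝ), 2 ≤ z → z ≤ D ^ 4 → 1 ≤ D →
    (∀ r ∈ S, r.Prime ∧ (r : ℝ) < z) →
    ∃ wu wl : Finset ℕ → ℝ, Wts S D wu ∧ Wts S D wl ∧
      (∀ s ⊆ S, ∑ T ∈ s.powerset, wl T ≤ (if s = ∅ then 1 else 0) ∧
        (if s = ∅ then 1 else 0) ≤ ∑ T ∈ s.powerset, wu T) ∧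
      ∀ g : ℕ → ℝ, Dens S g →
        ∑ T ∈ S.powerset, wu T * ∏ r ∈ T, g r ≤
          (1 + C * Real.exp (-4 * Real.log D / Real.log z)) * ∏ r ∈ S, (1 - g r) ∧
        (1 - C * Real.exp (-4 * Real.log D / Real.log z)) * ∏ r ∈ S, (1 - g r) ≤
          ∑ T ∈ S.powerset, wl T * ∏ r ∈ T, g r := by
  obtain ⟨C, hC1, hC⟩ := JFL_err_le
  refine ⟨C, (Real.one_le_exp (by norm_num)).trans hC1, fun S z D hz hzD hD hS => ?_⟩
  have hSp : ∀ r ∈ S, r.Prime := fun r hr => (hS r hr).1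
  have h1o : ¬ Even 1 := by decide
  have u1 : Wts S D (JFL_w 1 D S) := JFL_wts 1 hD hSp fun h => absurd h h1o
  have u2 : ∀ s ⊆ S, (if s = ∅ then (1 : ℝ) else 0) ≤ ∑ T ∈ s.powerset, JFL_w 1 D S T := by
    intro s hs
    have a1 := JFL_tree 1 D hs (fun _ => 1)
    have a2 := JFL_err_nonneg 1 D s (fun _ => 1) (fun _ _ => ⟨zero_le_one, le_rfl⟩)
    rw [JFL_one] at a1
    simp only [prod_const_one, mul_one, pow_one] at a1
    linarith
  have u3 : ∀ g : ℕ → ℝ, Dens S g → ∑ T ∈ S.powerset, JFL_w 1 D S T * ∏ r ∈ T, g r ≤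
      (1 + C * Real.exp (-4 * Real.log D / Real.log z)) * ∏ r ∈ S, (1 - g r) := by
    intro g hg
    have a1 := JFL_tree 1 D (subset_refl S) g
    have a2 := hC 1 S z D hz hzD hD hS (fun h => absurd h h1o) g hg
    rw [pow_one] at a1
    linarith
  by_cases hc : z ^ 1215 ≤ D
  · have l1 : Wts S D (JFL_w 0 D S) := by
      refine JFL_wts 0 hD hSp fun _ r hr => ?_
      refine (hS r hr).2.le.trans (le_trans ?_ hc)
      exact le_self_pow₀ (by linarith) (by norm_num)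
    refine ⟨_, _, u1, l1, fun s hs => ⟨?_, u2 s hs⟩, fun g hg => ⟨u3 g hg, ?_⟩⟩
    · have a1 := JFL_tree 0 D hs (fun _ => 1)
      have a2 := JFL_err_nonneg 0 D s (fun _ => 1) (fun _ _ => ⟨zero_le_one, le_rfl⟩)
      rw [JFL_one] at a1
      simp only [prod_const_one, mul_one, pow_zero] at a1
      linarith
    · have a1 := JFL_tree 0 D (subset_refl S) g
      have a2 := hC 0 S z D hz hzD hD hS (fun _ => hc) g hg
      rw [pow_zero] at a1
      linarith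
  · refine ⟨_, fun _ => 0, u1, fun T => by simp, fun s hs => ⟨?_, u2 s hs⟩,
      fun g hg => ⟨u3 g hg, ?_⟩⟩
    · rw [sum_const_zero]
      split_ifs <;> norm_num
    · have hP : 0 ≤ ∏ r ∈ S, (1 - g r) :=
        prod_nonneg fun r hr => by have := (hg r hr).2.1; linarith
      have a1 : Real.log D ≤ 1215 * Real.log z := by
        have a2 := Real.log_le_log (by linarith) (not_le.1 hc).le
        rw [Real.log_pow] at a2
        push_cast at a2
        exact a2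
      have a3 := JFL_exp hz a1
      have a4 : 1 ≤ C * Real.exp (-4 * Real.log D / Real.log z) :=
        a3.trans (mul_le_mul_of_nonneg_right hC1 (Real.exp_pos _).le)
      simp only [zero_mul, sum_const_zero]
      exact mul_nonpos_of_nonpos_of_nonneg (by linarith) hP

end

end Pool.Agent.Jac
end

-- part Pool.Agent.P.MP_45ff98_nt.JG2
section

/-! The gain is large unless an exponential sum is large. -/

namespace Pool.Agent.Jac
open Finset

noncomputable section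

theorem JG2_nu : ∃ (c : ℝ) (u : ℕ), 0 < c ∧ 1 ≤ u ∧ ∃ ν : ℕ → Finset ℕ → ℝ,
    (∀ p S, |ν p S| ≤ 1) ∧ ∀ p, 2 ≤ p → (∀ S, ν p S ≠ 0 → S ⊆ PP 0 p ∧ pr S ≤ p ^ u) ∧
      (∀ s ⊆ PP 0 p, ∑ S ∈ s.powerset, ν p S ≤ if s = ∅ then 1 else 0) ∧
      c / kk p ≤ ∑ S ∈ (PP 0 p).powerset, ν p S / pr S := by
  obtain ⟨C, hC, hF⟩ := fund_lemma
  obtain ⟨c, C', hc, -, hM⟩ := mertens_prod
  obtain ⟨u, hu⟩ := exists_nat_ge C
  have hu1 : 1 ≤ u := by exact_mod_cast hC.trans hu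
  have he : C * Real.exp (-4 * u) ≤ 1 / 2 := by
    have h1 := Real.add_one_le_exp (4 * (u : ℝ))
    have h2 : Real.exp (-4 * u) = (Real.exp (4 * u))⁻¹ := by rw [← Real.exp_neg, neg_mul]
    rw [h2, ← div_eq_mul_inv, div_le_iff₀ (Real.exp_pos _)]
    linarith
  have key : ∀ p : ℕ, ∃ w : Finset ℕ → ℝ, (∀ S, |w S| ≤ 1) ∧ (2 ≤ p →
      (∀ S, w S ≠ 0 → S ⊆ PP 0 p ∧ pr S ≤ p ^ u) ∧
      (∀ s ⊆ PP 0 p, ∑ S ∈ s.powerset, w S ≤ if s = ∅ then 1 else 0) ∧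
      c / 2 / kk p ≤ ∑ S ∈ (PP 0 p).powerset, w S / pr S) := by
    intro p
    by_cases hp : 2 ≤ p
    swap
    · exact ⟨0, by simp, fun h => absurd h hp⟩
    have hp' : (2 : ℝ) ≤ p := by exact_mod_cast hp
    have hp1 : (1 : ℝ) ≤ p := by linarith
    obtain ⟨_, w, _, hw, hs, hg⟩ := hF (PP 0 p) p ((p : ℝ) ^ u) hp'
      (by rw [← pow_mul]; exact le_self_pow₀ hp1 (by omega)) (one_le_pow₀ hp1)
      fun r hr => ⟨(mem_PP.1 hr).2.1, by exact_mod_cast (mem_PP.1 hr).1⟩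
    refine ⟨w, fun S => (hw S).1, fun _ => ⟨fun S h => ⟨((hw S).2 h).1, ?_⟩,
      fun s h => (hs s h).1, ?_⟩⟩
    · exact_mod_cast ((hw S).2 h).2
    have h1 := (hg (fun r => 1 / (r : ℝ)) fun r hr => by
      have : (2 : ℝ) ≤ r := by exact_mod_cast (mem_PP.1 hr).2.1.two_le
      exact ⟨by positivity, one_div_le_one_div_of_le two_pos this,
        one_div_le_one_div_of_le (by linarith) (by linarith)⟩).2
    have hl : Real.log p ≠ 0 := (Real.log_pos (by linarith)).ne'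
    rw [Real.log_pow, ← mul_assoc, mul_div_assoc, div_self hl, mul_one] at h1
    have h2 := (hM p hp).1
    have h3 : 0 ≤ c / kk p := by positivity
    have h4 : ∑ S ∈ (PP 0 p).powerset, w S * ∏ r ∈ S, 1 / (r : ℝ) =
        ∑ S ∈ (PP 0 p).powerset, w S / pr S := by
      refine sum_congr rfl fun S _ => ?_
      rw [pr, Nat.cast_prod, prod_div_distrib, prod_const_one, mul_one_div]
    rw [← h4, div_right_comm]
    nlinarith
  choose ν h1 h2 using key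
  exact ⟨c / 2, u, by positivity, hu1, ν, h1, h2⟩

theorem JG2_sieve {w : Finset ℕ → ℝ} {T : Finset ℕ} (hT : ∀ r ∈ T, r.Prime) (ξ : ℤ) (M : ℕ)
    (hw : ∀ s ⊆ PP 0 (mn T), ∑ S ∈ s.powerset, w S ≤ if s = ∅ then 1 else 0) :
    ∑ S ∈ (PP 0 (mn T)).powerset,
      w S * (((Icc 1 M).filter (fun j : ℕ => ((pr T * pr S : ℕ) : ℤ) ∣ ξ + j)).card : ℝ) ≤
      cntA ξ M (pr T) (mn T) := by
  simp only [cntA, card_filter, Nat.cast_sum, mul_sum, Nat.cast_ite, Nat.cast_one, Nat.cast_zero]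
  rw [sum_comm]
  refine sum_le_sum fun j _ => ?_
  have e : ∀ S ∈ (PP 0 (mn T)).powerset, ((pr T * pr S : ℕ) : ℤ) ∣ ξ + j ↔
      (pr T : ℤ) ∣ ξ + j ∧ ∀ r : ℕ, r ∈ S → (r : ℤ) ∣ ξ + j := by
    intro S hS
    have hS' := fun r (hr : r ∈ S) => mem_PP.1 (mem_powerset.1 hS hr)
    rw [← pr_union (disjoint_left.2 fun r h1 h2 => (hS' r h2).1.not_ge (mn_le h1)),
      pr_dvd_iff hT, pr_dvd_iff fun r hr => (mem_union.1 hr).elim (hT r) fun h => (hS' r h).2.1,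
      forall_mem_union]
  by_cases hf : (pr T : ℤ) ∣ ξ + j
  · have h1 := hw _ (filter_subset (fun r : ℕ => (r : ℤ) ∣ ξ + j) _)
    have e' : ((PP 0 (mn T)).filter fun r : ℕ => (r : ℤ) ∣ ξ + j).powerset =
        (PP 0 (mn T)).powerset.filter fun S => ∀ r : ℕ, r ∈ S → (r : ℤ) ∣ ξ + j := by
      ext S
      simp only [mem_powerset, mem_filter, subset_iff]
      exact ⟨fun h => ⟨fun r hr => (h hr).1, fun r hr => (h hr).2⟩,
        fun h r hr => ⟨h.1 hr, h.2 r hr⟩⟩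
    rw [e', sum_filter] at h1
    refine le_trans (le_of_eq (sum_congr rfl fun S hS => ?_)) (h1.trans (le_of_eq ?_))
    · simp only [e S hS, hf, true_and, mul_ite, mul_one, mul_zero]
    · simp only [hf, true_and, filter_eq_empty_iff, mem_PP, zero_le, and_true, and_imp]
  · rw [if_neg fun h => hf h.1]
    exact (sum_eq_zero fun S hS => by rw [if_neg fun h => hf ((e S hS).1 h).1, mul_zero]).le

theorem fourier_gain : ∃ (cV : ℝ) (u : ℕ), 0 < cV ∧ 1 ≤ u ∧ ∃ b, Coef b ∧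
    ∀ (P : Par) (H e t M : ℕ) (ξ : ℤ),
      (∀ T ∈ famW P e t, pr T ≤ M ∧ pr T * 2 ^ (5 * u * P.kw) ≤ H) →
      cV * M * phi P e t - M * ‖Ex P (2 ^ (5 * u * P.kw)) H b (e % 2, t, M) ξ‖ ≤
        ∑ T ∈ famW P e t, (cntA ξ M (pr T) (mn T) : ℝ) := by
  obtain ⟨c, u, hc, hu, ν, hν, hp⟩ := JG2_nu
  obtain ⟨a, ha, hcount⟩ := count_fourier
  refine ⟨c, u, hc, hu, fun c T S h => if pr T ≤ c.2.2 then
    ν (mn T) S * a c.2.2 (pr T * pr S) h * ((pr T : ℂ) / c.2.2) else 0, fun c T S h => ?_,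
    fun P H e t M ξ hH => ?_⟩
  · dsimp only
    split_ifs with h1
    · refine ⟨?_, fun h2 => (ha _ _ _).2 (right_ne_zero_of_mul (left_ne_zero_of_mul h2))⟩
      rw [norm_mul, norm_mul, norm_div, Complex.norm_real, Complex.norm_natCast,
        Complex.norm_natCast]
      exact mul_le_one₀ (mul_le_one₀ (hν _ _) (norm_nonneg _) (ha _ _ _).1) (by positivity)
        (div_le_one_of_le₀ (by exact_mod_cast h1) (by positivity))
    · simp
  have h0 : ∀ z : ℂ, -(M * ‖z‖) ≤ ((M : ℂ) * z).re := fun z => by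
    have := Complex.abs_re_le_norm ((M : ℂ) * z)
    rw [norm_mul, Complex.norm_natCast] at this
    exact neg_le_of_abs_le this
  rw [sub_eq_add_neg]
  refine (add_le_add le_rfl (h0 _)).trans ?_
  have hf : famW P (e % 2) t = famW P e t := fam_mod_two _ _ _ _
  simp only [Ex, hf, phi, Gam]
  rw [mul_sum, mul_sum, Complex.re_sum]
  refine (sum_add_distrib.symm.le).trans (sum_le_sum fun T hT => ?_)
  obtain ⟨hne, hT1, -, hT2, -⟩ := fam_facts hT
  have hTp : ∀ r ∈ T, r.Prime := fun r hr => (hT1 r hr).1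
  have hf0 := pr_pos hTp
  obtain ⟨k1, k2, k3⟩ := hp (mn T) (hTp _ (mn_mem hne)).two_le
  have hm : mn T ≤ 2 ^ (5 * P.kw) :=
    (lt_two_pow_kk _).le.trans (Nat.pow_le_pow_right two_pos hT2)
  have hE : ∀ S, ν (mn T) S ≠ 0 → pr S ≤ 2 ^ (5 * u * P.kw) := fun S h =>
    (k1 S h).2.trans (by rw [mul_right_comm, pow_mul]; exact Nat.pow_le_pow_left hm u)
  have hM0 : (M : ℂ) ≠ 0 := by exact_mod_cast (hf0.trans_le (hH T hT).1).ne'
  have hf0' : (pr T : ℂ) ≠ 0 := by exact_mod_cast hf0.ne'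
  refine le_trans ?_ (JG2_sieve hTp ξ M k2)
  have e1 : ∑ S ∈ (PP 0 (mn T)).powerset, ν (mn T) S *
      (((Icc 1 M).filter (fun j : ℕ => ((pr T * pr S : ℕ) : ℤ) ∣ ξ + j)).card : ℝ) =
      M / pr T * ∑ S ∈ (PP 0 (mn T)).powerset, ν (mn T) S / pr S +
        ∑ S ∈ (PP 0 (mn T)).powerset, ν (mn T) S * (∑ h ∈ Icc 1 H,
          1 / (h : ℂ) * a M (pr T * pr S) h * ee (h * ξ / (pr T * pr S : ℕ))).re := by
    rw [mul_sum, ← sum_add_distrib]
    refine sum_congr rfl fun S hS => ?_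
    by_cases h : ν (mn T) S = 0
    · simp [h]
    have hS0 := pr_pos fun r hr => (mem_PP.1 (mem_powerset.1 hS hr)).2.1
    rw [hcount M _ H ξ (Nat.mul_pos hf0 hS0) ((Nat.mul_le_mul_left _ (hE S h)).trans (hH T hT).2)]
    push_cast
    ring
  rw [e1]
  refine add_le_add ?_ (le_of_eq ?_)
  · refine le_trans (le_of_eq ?_) (mul_le_mul_of_nonneg_left k3 (by positivity))
    ring
  · rw [mul_sum, Complex.re_sum]
    refine sum_congr_of_eq_on_inter (fun S _ hS => ?_) (fun S _ hS => ?_) fun S _ _ => ?_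
    · have : ν (mn T) S = 0 := by
        by_contra h
        exact hS (mem_powerset.2 (k1 S h).1)
      simp [this]
    · have : ν (mn T) S = 0 := by
        by_contra h
        exact hS (mem_filter.2 ⟨mem_powerset.2 ((k1 S h).1.trans (PP_mono le_rfl hm)), hE S h⟩)
      simp [this]
    · rw [← Complex.re_ofReal_mul, mul_sum, mul_sum]
      refine congrArg _ (sum_congr rfl fun h _ => ?_)
      rw [if_pos (hH T hT).1, Nat.cast_mul]
      field_simp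

theorem gain_lower : ∃ (cV : ℝ) (u : ℕ), 0 < cV ∧ 1 ≤ u ∧ ∃ b, Coef b ∧
    ∀ (P : Par) (N : ℤ) (y z t0 L om H : ℕ), Setup P y z t0 L →
      2 ^ (P.CW * P.kW) * 2 ^ (5 * u * P.kw) ≤ H → ∀ T ∈ NN P t0 z om,
      cV * wN P t0 T - 2 * ‖Ex P (2 ^ (5 * u * P.kw)) H b (cl N y t0 T) (N / pr T)‖ / pr T ≤
        gN P N y t0 T := by
  obtain ⟨c, u, hc, hu, b, hb, h⟩ := fourier_gain
  refine ⟨c / 2, u, by positivity, hu, b, hb, fun P N y z t0 L om H hS hH T hT => ?_⟩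
  obtain ⟨h1, -, h2, -, h3, -⟩ := NN_facts hS hT
  have hTp : ∀ r ∈ T, r.Prime := fun r hr => (h1 r hr).1
  have hn := pr_pos hTp
  obtain ⟨m1, m2⟩ := MM_bounds N y hn
  have h4 := h P H T.card (t0 - ks T) (MM N y (pr T)) (N / pr T) fun F hF => by
    refine ⟨le_trans ((Nat.le_div_iff_mul_le hn).2 ?_) m1, le_trans (Nat.mul_le_mul_right _
      ((fam_facts hF).2.2.2.2.1.trans (Nat.pow_le_pow_right two_pos h2))) hH⟩
    rw [mul_comm]
    exact (Nat.pow_le_pow_iff_left (n := 5) (by norm_num)).1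
      ((Nat.le_mul_of_pos_left _ (by positivity)).trans (pair_facts hS hT hF).1)
  have h5 : GA P N y T.card (t0 - ks T) (pr T) = ∑ F ∈ famW P T.card (t0 - ks T),
      (cntA (N / pr T) (MM N y (pr T)) (pr F) (mn F) : ℝ) := by
    refine sum_congr rfl fun F hF => ?_
    rw [cntA_div N y _ _ _ hn fun r hr hd => ?_]
    obtain ⟨hne, k1, -⟩ := fam_facts hF
    exact (k1 _ (mn_mem hne)).2.1.le.trans (h1 r ((prime_dvd_pr hTp hr).1 hd)).2.1
  have hq : 1 ≤ y / pr T := (Nat.le_div_iff_mul_le hn).2 (by omega)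
  have a1 : y ≤ 2 * (pr T * MM N y (pr T)) := by
    have := Nat.lt_mul_div_succ y hn
    nlinarith
  have a2 : pr T * MM N y (pr T) ≤ 2 * y := by
    have := Nat.mul_div_le y (pr T)
    nlinarith
  have b1 : (y : ℝ) ≤ 2 * (pr T * MM N y (pr T)) := by exact_mod_cast a1
  have b2 : (pr T : ℝ) * MM N y (pr T) ≤ 2 * y := by exact_mod_cast a2
  have b3 : (0 : ℝ) < pr T := by exact_mod_cast hn
  have b4 : (0 : ℝ) < y := by exact_mod_cast (by omega : 0 < y)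
  rw [gN, h5, wN, le_div_iff₀ b4]
  refine le_trans ?_ h4
  have b5 := mul_nonneg hc.le (phi_le P T.card (t0 - ks T)).1
  have b6 := norm_nonneg (Ex P (2 ^ (5 * u * P.kw)) H b (cl N y t0 T) (N / pr T))
  rw [cl] at b6 ⊢
  rw [← mul_div_assoc, ← sub_div, div_mul_eq_mul_div, div_le_iff₀ b3]
  nlinarith [mul_le_mul_of_nonneg_left b1 b5, mul_le_mul_of_nonneg_left b2 b6]

end

end Pool.Agent.Jac
end

-- part Pool.Agent.P.MP_45ff98_nt.JG1b
section

/-! Shape of the small parts, windows, exchange of a prime. -/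

namespace Pool.Agent.Jac
open Finset

noncomputable section

theorem JG1b_core {P : Par} {e t : ℕ} {F : Finset ℕ} (h1 : 5 * P.kw < P.k1) (hW : P.k1 ≤ P.kW)
    (hs : St e t P.kW) (hF : F ∈ famW P e t) :
    ∃ π ∈ F, kk π < P.k1 ∧ (∀ q ∈ F, kk q < P.k1 → q ≤ π) ∧ P.k1 ≤ t - ks (abv F π) ∧
      t ≤ 2 ^ (abv F π).card * (t - ks (abv F π)) ∧ t ≤ 7 * P.k1 + ks (abv F π) ∧
      t ≤ 9 * kk π + ks (abv F π) ∧ ∀ q ∈ abv F π, P.k1 ≤ kk q := by
  classical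
  obtain ⟨hne, hp, -, hmn, -, -⟩ := fam_facts hF
  have hG : GF P e t F := (mem_filter.1 hF).2
  have hne' : (F.filter (fun q => kk q < P.k1)).Nonempty :=
    ⟨mn F, mem_filter.2 ⟨mn_mem hne, by omega⟩⟩
  obtain ⟨π, hπ, hmax⟩ := exists_max_image (F.filter (fun q => kk q < P.k1)) id hne'
  obtain ⟨hπF, hπk⟩ := mem_filter.1 hπ
  have hmax' : ∀ q ∈ F, kk q < P.k1 → q ≤ π := fun q hq hk => hmax q (mem_filter.2 ⟨hq, hk⟩)
  have hA : ∀ q ∈ abv F π, P.k1 ≤ kk q := fun q hq => by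
    obtain ⟨hqF, hlt⟩ := mem_filter.1 hq
    by_contra hc
    exact absurd (hmax' q hqF (not_le.1 hc)) (not_le.2 hlt)
  have hA' : ∀ q ∈ abv F π, kk q ≤ P.kW := fun q hq => by
    obtain ⟨hq1, hq2, -⟩ := hp q (mem_filter.1 hq).1
    exact ((kk_lt_iff hq1.ne_zero).2 hq2).le
  obtain ⟨-, h2, h3⟩ := valid_state hs hA' (bd_abv hG.1 hπF)
  obtain ⟨h4, h5⟩ := (hG.2.1 π hπF).2 hπk
  exact ⟨π, hπF, hπk, hmax', (h3 _ hW hA).1, h2, h4, h5, hA⟩

theorem fam_pi {P : Par} {e t : ℕ} {F : Finset ℕ} (h1 : 5 * P.kw < P.k1) (hW : P.k1 ≤ P.kW)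
    (hs : St e t P.kW) (hF : F ∈ famW P e t) :
    ∃ π ∈ F, kk π < P.k1 ∧ P.k1 ≤ 9 * kk π ∧ ∀ q ∈ F, kk q < P.k1 → q ≤ π := by
  obtain ⟨π, h2, h3, h4, h5, -, -, h6, -⟩ := JG1b_core h1 hW hs hF
  exact ⟨π, h2, h3, by omega, h4⟩

theorem fam_big {P : Par} {e t j : ℕ} {F : Finset ℕ} (h1 : 5 * P.kw < P.k1)
    (hW : 7 * 2 ^ j * P.k1 ≤ P.kW) (hs : St e t P.kW) (hF : F ∈ famW P e t) :
    j ≤ (F.filter (fun q => P.k1 ≤ kk q)).card := by
  have hj : 1 ≤ 2 ^ j := Nat.one_le_two_pow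
  have hW' : P.k1 ≤ P.kW := le_trans (Nat.le_mul_of_pos_left _ (by omega)) hW
  obtain ⟨π, -, -, -, -, h5, h6, -, h7⟩ := JG1b_core h1 hW' hs hF
  have hsub : abv F π ⊆ F.filter (fun q => P.k1 ≤ kk q) := fun q hq =>
    mem_filter.2 ⟨(mem_filter.1 hq).1, h7 q hq⟩
  refine le_trans ?_ (card_le_card hsub)
  have h8 : t - ks (abv F π) ≤ 7 * P.k1 := by omega
  have h9 : 2 ^ j * (7 * P.k1) ≤ 2 ^ (abv F π).card * (7 * P.k1) :=
    calc 2 ^ j * (7 * P.k1) = 7 * 2 ^ j * P.k1 := by ring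
      _ ≤ t := hW.trans hs.1
      _ ≤ _ := h5.trans (Nat.mul_le_mul_left _ h8)
  exact (Nat.pow_le_pow_iff_right (by norm_num)).1 (Nat.le_of_mul_le_mul_right h9 (by omega))

theorem window {P : Par} {y z t0 L om : ℕ} (h : Setup P y z t0 L) {T : Finset ℕ}
    (hT : T ∈ NN P t0 z om) {lo hi : ℕ} (h1 : 1 ≤ lo) (h2 : P.CW * P.kW ≤ lo)
    (h3 : lo * (2 * om + 2) ≤ hi) (h4 : hi ≤ kk z) : ∃ q ∈ T, lo ≤ kk q ∧ kk q < hi := by
  classical
  obtain ⟨hsub, hv, ht, hc⟩ := mem_filter.1 hT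
  have hsub' := mem_powerset.1 hsub
  by_contra hno
  have hlo : ∀ q ∈ T.filter (fun q => ¬ hi ≤ kk q), kk q ≤ lo := fun q hq => by
    obtain ⟨hqT, hqk⟩ := mem_filter.1 hq
    by_contra hc'
    exact hno ⟨q, hqT, by omega, by omega⟩
  have hA : ∀ q ∈ T.filter (fun q => hi ≤ kk q), kk q ≤ kk z := fun q hq =>
    kk_mono (mem_PP.1 (hsub' (mem_filter.1 hq).1)).1.le
  obtain ⟨-, -, h5⟩ := valid_state h.st hA (valid_filter hv hi)
  have h6 := (h5 hi h4 fun q hq => (mem_filter.1 hq).2).1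
  have h7 : ks (T.filter (fun q => hi ≤ kk q)) + ks (T.filter (fun q => ¬ hi ≤ kk q)) = ks T :=
    sum_filter_add_sum_filter_not T _ _
  have h8 : ks (T.filter (fun q => ¬ hi ≤ kk q)) ≤ om * lo := by
    have := sum_le_card_nsmul _ kk lo hlo
    rw [smul_eq_mul] at this
    exact this.trans (Nat.mul_le_mul_right _ ((card_filter_le _ _).trans hc))
  have h9 : lo * (2 * om + 2) = 2 * (om * lo) + 2 * lo := by ring
  omega

theorem NN_swap {P : Par} {t0 z om : ℕ} {T : Finset ℕ} (hT : T ∈ NN P t0 z om) {q q' : ℕ}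
    (hq : q ∈ T) (hz : kk q < kk z) (hq' : q' ∈ Box (kk q)) (hn : q' ∉ T.erase q) :
    insert q' (T.erase q) ∈ NN P t0 z om ∧ (insert q' (T.erase q)).card = T.card ∧
      ks (insert q' (T.erase q)) = ks T := by
  classical
  obtain ⟨hsub, hv, ht, hc⟩ := mem_filter.1 hT
  have hsub' := mem_powerset.1 hsub
  obtain ⟨hp, hk⟩ := mem_Box.1 hq'
  have h1 : (insert q' (T.erase q)).card = T.card := by
    rw [card_insert_of_notMem hn, card_erase_add_one hq]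
  have h2 : ks (insert q' (T.erase q)) = ks T := by
    rw [ks_insert hn, hk]
    exact add_sum_erase T kk hq
  refine ⟨mem_filter.2 ⟨mem_powerset.2 ?_, valid_swap hq hn hk hv, by omega, by omega⟩, h1, h2⟩
  intro r hr
  rcases mem_insert.1 hr with rfl | hr
  · exact mem_PP.2 ⟨lt_of_kk_lt (by omega), hp, hk ▸ (mem_PP.1 (hsub' hq)).2.2⟩
  · exact hsub' (mem_of_mem_erase hr)

end

end Pool.Agent.Jac
end

-- part Pool.Agent.P.MP_45ff98_nt.JG3a
section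

/-! First rearrangement of the exponential sum. -/

namespace Pool.Agent.Jac
open Finset

noncomputable section

theorem jg3a_log {a : ℕ} (ha : 1 ≤ a) {n : ℕ} (hn : a ≤ n) :
    ∑ k ∈ Ico (a + 1) (n + 1), 1 / (k : ℝ) ≤ Real.log n - Real.log a := by
  induction n, hn using Nat.le_induction with
  | base => simp
  | succ n hn ih =>
    rw [sum_Ico_succ_top (by omega)]
    have h0 : (0 : ℝ) < n := by exact_mod_cast ha.trans hn
    have h1 := Real.log_le_sub_one_of_pos (show (0 : ℝ) < n / (n + 1) by positivity)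
    rw [Real.log_div h0.ne' (by positivity)] at h1
    have h2 : (n : ℝ) / (n + 1) - 1 = -(1 / (n + 1)) := by field_simp; ring
    push_cast
    linarith

theorem jg3a_Ps {k0 k1 : ℕ} (hB : HB k0) (h0 : k0 ≤ k1 / 9) (h90 : 90 ≤ k1) :
    ∑ p ∈ PP (k1 / 9) (2 ^ (k1 - 1)), 1 / (p : ℝ) ≤ 3 := by
  have h1 := box_upper hB (PP (k1 / 9) (2 ^ (k1 - 1))) (Ico (k1 / 9) k1) (fun q hq => by
    obtain ⟨h1, h2, h3⟩ := mem_PP.1 hq
    exact ⟨h2, mem_Ico.2 ⟨h3, (kk_lt_iff h2.ne_zero).2 h1⟩⟩)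
    (fun k hk => h0.trans (mem_Ico.1 hk).1) (fun _ => 1) fun _ _ => zero_le_one
  obtain ⟨a, ha⟩ : ∃ a, k1 / 9 = a + 1 := ⟨k1 / 9 - 1, by omega⟩
  obtain ⟨n, rfl⟩ : ∃ n, k1 = n + 1 := ⟨k1 - 1, by omega⟩
  have h2 := jg3a_log (a := a) (n := n) (by omega) (by omega)
  have h3 : (0 : ℝ) < a := by exact_mod_cast (show 0 < a by omega)
  have h4 : Real.log n ≤ Real.log (2 ^ 4 * a) :=
    Real.log_le_log (by exact_mod_cast (show 0 < n by omega))
      (by exact_mod_cast (show n ≤ 2 ^ 4 * a by omega))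
  rw [Real.log_mul (by positivity) h3.ne', Real.log_pow] at h4
  have h5 : ∑ k ∈ Ico (a + 1) (n + 1), 101 / 100 / (k : ℝ) * 1 =
      101 / 100 * ∑ k ∈ Ico (a + 1) (n + 1), 1 / (k : ℝ) := by
    rw [mul_sum]
    exact sum_congr rfl fun k _ => by ring
  refine h1.trans ?_
  rw [ha, h5]
  push_cast at h4
  linarith [Real.log_two_lt_d9]

theorem jg3a_mult (H : ℕ) {r : ℕ} (hr : 1 ≤ r) :
    ∑ h ∈ (Icc 1 H).filter (fun h => r ∣ h), 1 / (h : ℝ) ≤ (1 + Real.log H) / r := by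
  have h1 : (Icc 1 H).filter (fun h => r ∣ h) ⊆ (Ioc 0 H).image (r * ·) := fun h hh => by
    obtain ⟨h2, m, rfl⟩ := mem_filter.1 hh
    obtain ⟨h3, h4⟩ := mem_Icc.1 h2
    exact mem_image.2 ⟨m, mem_Ioc.2 ⟨Nat.pos_of_mul_pos_left h3,
      (Nat.le_mul_of_pos_left m hr).trans h4⟩, rfl⟩
  refine (sum_le_sum_of_subset_of_nonneg h1 fun _ _ _ => by positivity).trans ?_
  rw [sum_image fun a _ b _ e => Nat.eq_of_mul_eq_mul_left hr e]
  refine le_trans (le_of_eq ?_) (div_le_div_of_nonneg_right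
    (Pool.Agent.Lib.Sieve.sum_inv_Ioc_le H) (Nat.cast_nonneg r))
  rw [sum_div]
  exact sum_congr rfl fun m _ => by push_cast; ring

/-- the cofactors -/
def jg3aG (P : Par) : Finset (Finset ℕ) :=
  (PP 0 (2 ^ (P.kW - 1))).powerset.filter fun G => pr G ≤ 2 ^ (P.CW * P.kW)

/-- `p` is the distinguished prime of `insert p G` -/
def jg3aC (P : Par) (c : Cl) (G : Finset ℕ) (p : ℕ) : Prop :=
  insert p G ∈ famW P c.1 c.2.1 ∧ p ∉ G ∧ ∀ q ∈ G, kk q < P.k1 → q ≤ p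

theorem jg3a_memG {P : Par} {G : Finset ℕ} (h : G ∈ jg3aG P) :
    (∀ p ∈ G, p.Prime ∧ p < 2 ^ (P.kW - 1)) ∧ pr G ≤ 2 ^ (P.CW * P.kW) :=
  ⟨fun _ hp => have := mem_PP.1 (mem_powerset.1 (mem_filter.1 h).1 hp); ⟨this.2.1, this.1⟩,
    (mem_filter.1 h).2⟩

theorem jg3a_memE {kw E : ℕ} {S : Finset ℕ} (h : S ∈ IE kw E) :
    (∀ p ∈ S, p.Prime ∧ p < 2 ^ (5 * kw)) ∧ pr S ≤ E :=
  ⟨fun _ hp => have := mem_PP.1 (mem_powerset.1 (mem_filter.1 h).1 hp); ⟨this.2.1, this.1⟩,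
    (mem_filter.1 h).2⟩

open Classical in
theorem jg3a_key {P : Par} (h5 : 5 * P.kw < P.k1) (hW : P.k1 ≤ P.kW) {c : Cl}
    (hs : St c.1 c.2.1 P.kW) (ht : c.2.1 ≤ P.CW * P.kW) (Φ : Finset ℕ → ℂ) :
    ∑ T ∈ famW P c.1 c.2.1, Φ T = ∑ G ∈ jg3aG P, ∑ p ∈ PP (P.k1 / 9) (2 ^ (P.k1 - 1)),
      if jg3aC P c G p then Φ (insert p G) else 0 := by
  rw [← sum_product' (f := fun G p => if jg3aC P c G p then Φ (insert p G) else 0), ← sum_filter]
  symm
  refine sum_nbij (fun x : Finset ℕ × ℕ => insert x.2 x.1) (fun x hx => (mem_filter.1 hx).2.1)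
    ?_ ?_ fun _ _ => rfl
  · rintro ⟨G, p⟩ hx ⟨G', p'⟩ hx' (e : insert p G = insert p' G')
    obtain ⟨h1, -, h2, h3⟩ := mem_filter.1 (mem_coe.1 hx)
    obtain ⟨h1', -, h2', h3'⟩ := mem_filter.1 (mem_coe.1 hx')
    have k1 := mem_PP.1 (mem_product.1 h1).2
    have k2 := mem_PP.1 (mem_product.1 h1').2
    have l1 : p ≤ p' := (mem_insert.1 (e ▸ mem_insert_self p G)).elim le_of_eq
      fun h => h3' p h ((kk_lt_iff k1.2.1.ne_zero).2 k1.1)
    have l2 : p' ≤ p := (mem_insert.1 (e.symm ▸ mem_insert_self p' G')).elim le_of_eq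
      fun h => h3 p' h ((kk_lt_iff k2.2.1.ne_zero).2 k2.1)
    obtain rfl : p = p' := le_antisymm l1 l2
    exact Prod.ext ((erase_insert h2).symm.trans ((congrArg (erase · p) e).trans
      (erase_insert h2'))) rfl
  · intro T hT
    have hT' : T ∈ famW P c.1 c.2.1 := hT
    obtain ⟨π, h1, h2, h3, h4⟩ := fam_pi h5 hW hs hT'
    obtain ⟨-, h6, -, -, h7, -⟩ := fam_facts hT'
    have h8 : pr (T.erase π) ≤ pr T := prod_le_prod_of_subset_of_one_le' (erase_subset π T)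
      fun q hq _ => (h6 q hq).1.one_le
    refine ⟨(T.erase π, π), mem_coe.2 (mem_filter.2 ⟨mem_product.2 ⟨mem_filter.2
      ⟨mem_powerset.2 fun q hq => ?_, h8.trans (h7.trans (Nat.pow_le_pow_right two_pos ht))⟩,
      mem_PP.2 ⟨(kk_lt_iff (h6 π h1).1.ne_zero).1 h2, (h6 π h1).1,
        Nat.div_le_of_le_mul h3⟩⟩,
      by rwa [insert_erase h1], notMem_erase π T, fun q hq => h4 q (mem_of_mem_erase hq)⟩),
      insert_erase h1⟩
    have := h6 q (mem_of_mem_erase hq)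
    exact mem_PP.2 ⟨this.2.1, this.1, Nat.zero_le _⟩

open Classical in
/-- the data of the first rearrangement -/
def jg3aD (P : Par) (E H : ℕ) (b : Cl → Finset ℕ → Finset ℕ → ℕ → ℂ) :
    Dat1 ((Finset ℕ × ℕ) × Finset ℕ) where
  I := (IE P.kw E ×ˢ Icc 1 H) ×ˢ jg3aG P
  wt i := 1 / (i.1.2 : ℝ) * (1 / (pr i.2 : ℝ))
  h i := i.1.2
  Q i := pr i.2 * pr i.1.1
  Pi := PP (P.k1 / 9) (2 ^ (P.k1 - 1))
  β c i p := if jg3aC P c i.2 p then b c (insert p i.2) i.1.1 i.1.2 else 0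

theorem jg3a_sumd (P : Par) (E H : ℕ) (b : Cl → Finset ℕ → Finset ℕ → ℕ → ℂ) {r : ℕ}
    (hr : 1 ≤ r) : ∑ i ∈ (jg3aD P E H b).I.filter (fun i => r ∣ (jg3aD P E H b).h i),
      (jg3aD P E H b).wt i ≤ E * (1 + Real.log H) * (1 + (P.CW * P.kW : ℕ)) / r := by
  have e : (jg3aD P E H b).I.filter (fun i => r ∣ (jg3aD P E H b).h i) =
      (IE P.kw E ×ˢ (Icc 1 H).filter fun h => r ∣ h) ×ˢ jg3aG P := by
    ext i
    simp only [jg3aD, mem_filter, mem_product]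
    tauto
  have h1 : ((IE P.kw E).card : ℝ) ≤ E := by
    exact_mod_cast card_le_of_pr_le _ E fun S hS =>
      ⟨fun p hp => ((jg3a_memE hS).1 p hp).1, (jg3a_memE hS).2⟩
  have h2 := jg3a_mult H hr
  have h3 := sum_inv_pr_le (jg3aG P) _ fun G hG =>
      ⟨fun p hp => ((jg3a_memG hG).1 p hp).1, (jg3a_memG hG).2⟩
  have h4 : Real.log ((2 ^ (P.CW * P.kW) : ℕ) : ℝ) ≤ (P.CW * P.kW : ℕ) := by
    rw [Nat.cast_pow, Real.log_pow, Nat.cast_ofNat]
    exact mul_le_of_le_one_right (Nat.cast_nonneg _) (by linarith [Real.log_two_lt_d9])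
  have h5 : 0 ≤ (1 + Real.log H) / r := by
    have := Real.log_natCast_nonneg H
    positivity
  rw [e, sum_product, sum_product]
  simp only [jg3aD, ← mul_sum, ← sum_mul, sum_const, nsmul_eq_mul]
  rw [mul_left_comm, ← mul_assoc]
  refine (mul_le_mul (mul_le_mul h1 h2 (by positivity) (Nat.cast_nonneg E))
    (h3.trans (add_le_add le_rfl h4)) (by positivity) (by positivity)).trans_eq ?_
  ring

theorem red_one (P : Par) (E H : ℕ) (b : Cl → Finset ℕ → Finset ℕ → ℕ → ℂ) (hb : Coef b)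
    (hB : HB P.k0) (h0 : P.k0 ≤ P.k1 / 9) (h90 : 90 ≤ P.k1) (h5 : 5 * P.kw < P.k1)
    (hW : P.k1 ≤ P.kW) (hE : 1 ≤ E) (hH : 2 ^ (P.CW * P.kW) * E ≤ H) :
    ∃ (ι : Type) (D : Dat1 ι),
      D.Ok (E * (1 + Real.log H) * (1 + (P.CW * P.kW : ℕ))) H (2 ^ (P.kW - 1))
        (2 ^ (P.k1 / 9 - 1)) ∧
      ∀ c : Cl, St c.1 c.2.1 P.kW → c.2.1 ≤ P.CW * P.kW → ∀ ξ : ℤ, ‖Ex P E H b c ξ‖ ≤ D.B c ξ := by
  have hI : ∀ i ∈ (jg3aD P E H b).I, i.1.1 ∈ IE P.kw E ∧ i.1.2 ∈ Icc 1 H ∧ i.2 ∈ jg3aG P :=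
    fun i hi => ⟨(mem_product.1 (mem_product.1 hi).1).1, (mem_product.1 (mem_product.1 hi).1).2,
      (mem_product.1 hi).2⟩
  refine ⟨_, jg3aD P E H b, ⟨fun i => ?_, ?_, fun r hr => jg3a_sumd P E H b hr,
    fun i hi => mem_Icc.1 (hI i hi).2.1, fun i hi => ?_, fun i hi r hr hd => ?_, fun p hp => ?_,
    jg3a_Ps hB h0 h90, fun c i p => ?_⟩, fun c hs ht ξ => ?_⟩
  · simp only [jg3aD]
    positivity
  · simpa using jg3a_sumd P E H b le_rfl
  · have h1 := jg3a_memE (hI i hi).1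
    have h2 := jg3a_memG (hI i hi).2.2
    exact ⟨Nat.mul_pos (pr_pos fun p hp => (h2.1 p hp).1) (pr_pos fun p hp => (h1.1 p hp).1),
      (Nat.mul_le_mul h2.2 h1.2).trans hH⟩
  · have h1 := jg3a_memE (hI i hi).1
    have h2 := jg3a_memG (hI i hi).2.2
    rcases (hr.dvd_mul).1 hd with h | h
    · exact (h2.1 r ((prime_dvd_pr (fun p hp => (h2.1 p hp).1) hr).1 h)).2
    · exact (h1.1 r ((prime_dvd_pr (fun p hp => (h1.1 p hp).1) hr).1 h)).2.trans_le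
        (Nat.pow_le_pow_right two_pos (by omega))
  · obtain ⟨h1, h2, h3⟩ := mem_PP.1 hp
    exact ⟨h2, (le_kk_iff h2.ne_zero).1 h3, h1.trans_le (Nat.pow_le_pow_right two_pos (by omega))⟩
  · simp only [jg3aD]
    split_ifs with h
    · refine ⟨(hb _ _ _ _).1, fun h1 => ?_⟩
      have h2 := (hb _ _ _ _).2 h1
      rwa [pr_insert h.2.1, mul_assoc] at h2
    · simp
  · have e : Ex P E H b c ξ = ∑ i ∈ (jg3aD P E H b).I, ((jg3aD P E H b).wt i : ℂ) *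
        ∑ p ∈ (jg3aD P E H b).Pi, 1 / (p : ℂ) * (jg3aD P E H b).β c i p *
          ee ((jg3aD P E H b).h i * ξ / ((p : ℝ) * (jg3aD P E H b).Q i)) := by
      simp only [jg3aD]
      rw [Ex, sum_comm, sum_product, sum_product]
      refine sum_congr rfl fun S _ => ?_
      rw [sum_comm]
      refine sum_congr rfl fun h _ => ?_
      rw [jg3a_key h5 hW hs ht]
      refine sum_congr rfl fun G _ => ?_
      rw [mul_sum]
      refine sum_congr rfl fun p _ => ?_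
      split_ifs with h1
      · rw [pr_insert h1.2.1]
        push_cast
        rw [mul_assoc (p : ℝ)]
        ring
      · simp
    rw [e]
    refine norm_sum_le_of_le _ fun i _ => le_of_eq ?_
    rw [norm_mul, Complex.norm_real, Real.norm_of_nonneg]
    simp only [jg3aD]
    positivity

end

end Pool.Agent.Jac
end

-- part Pool.Agent.P.MP_45ff98_nt.JG3b
section

/-! Second rearrangement of the exponential sum. -/

namespace Pool.Agent.Jac
open Finset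

noncomputable section

/-- A choice of `j` big primes. -/
def jg3bU (k1 j : ℕ) (T : Finset ℕ) : Fin j → ℕ :=
  if h : j ≤ (T.filter (fun q => k1 ≤ kk q)).card then orderEmbOfCardLe _ h else 0

open Classical in
/-- A choice of a middle prime. -/
def jg3bP (k1 : ℕ) (T : Finset ℕ) : ℕ :=
  if h : ∃ π ∈ T, kk π < k1 ∧ k1 ≤ 9 * kk π then h.choose else 0

def jg3bG (k1 j : ℕ) (T : Finset ℕ) : Finset ℕ :=
  (T \ image (jg3bU k1 j T) univ).erase (jg3bP k1 T)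

def jg3bA (k1 j : ℕ) (T : Finset ℕ) : ℕ := ∏ m, jg3bU k1 j T m

def jg3bK (k1 j sg : ℕ) (T : Finset ℕ) : Finset ℕ × (Fin j → ℕ) × ℕ :=
  (jg3bG k1 j T, fun m => jg3bU k1 j T m / sg, kk (jg3bP k1 T))

structure Jg3bN (P : Par) (j : ℕ) (T : Finset ℕ) : Prop where
  pm : ∀ p ∈ T, p.Prime ∧ p < 2 ^ P.kW
  sz : pr T ≤ 2 ^ (P.CW * P.kW)
  big : j ≤ (T.filter (fun q => P.k1 ≤ kk q)).card
  mid : ∃ π ∈ T, kk π < P.k1 ∧ P.k1 ≤ 9 * kk π

def jg3bGrp (P : Par) (sg g : ℕ) : Finset ℕ := (PP P.k1 (2 ^ P.kW)).filter (fun r => r / sg = g)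

def jg3bGG (P : Par) : Finset (Finset ℕ) :=
  (PP 0 (2 ^ P.kW)).powerset.filter (fun G => pr G ≤ 2 ^ (P.CW * P.kW))

def jg3bJ (P : Par) (j : ℕ) : Finset (Finset ℕ × (Fin j → ℕ) × ℕ) :=
  jg3bGG P ×ˢ (Fintype.piFinset fun _ => Ioc 0 (2 ^ P.kW)) ×ˢ Ico (P.k1 / 9) P.k1

def jg3bS (P : Par) {j : ℕ} (sg : ℕ) (Γ : Fin j → ℕ) : Finset ℕ :=
  (Fintype.piFinset fun m => jg3bGrp P sg (Γ m)).image (fun v => ∏ m, v m)

open Classical in
def jg3bFam (P : Par) (j : ℕ) (c : Cl) : Finset (Finset ℕ) := (famW P c.1 c.2.1).filter (Jg3bN P j)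

def jg3bFib (P : Par) (j sg : ℕ) (c : Cl) (g : Finset ℕ × (Fin j → ℕ) × ℕ) (p a : ℕ) :
    Finset (Finset ℕ) :=
  (((jg3bFam P j c).filter (fun T => jg3bK P.k1 j sg T = g)).filter
    (fun T => jg3bP P.k1 T = p)).filter (fun T => jg3bA P.k1 j T = a)

def jg3bD (P : Par) (E H j sg : ℕ) (b : Cl → Finset ℕ → Finset ℕ → ℕ → ℂ) :
    Dat2 (Finset ℕ × ℕ × Finset ℕ × (Fin j → ℕ) × ℕ) where
  I := IE P.kw E ×ˢ Ioc 0 H ×ˢ jg3bJ P j
  wt i := 1 / (i.2.1 : ℝ) * (1 / (pr i.2.2.1 : ℝ) * ∏ m, 1 / (i.2.2.2.1 m : ℝ))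
  h i := i.2.1
  Q i := pr i.2.2.1 * pr i.1
  Q1 i := ∏ m, pr (jg3bGrp P sg (i.2.2.2.1 m))
  kb i := i.2.2.2.2
  A i := jg3bS P sg i.2.2.2.1
  σ := sg ^ j
  β c i a p := ∑ T ∈ jg3bFib P j sg c i.2.2 p a,
    b c T i.1 i.2.1 * (((sg ^ j * ∏ m, i.2.2.2.1 m : ℕ) : ℂ) / a)

section nice
variable {P : Par} {j sg : ℕ} {T : Finset ℕ}

theorem Jg3bN.u_mem (h : Jg3bN P j T) (m : Fin j) :
    jg3bU P.k1 j T m ∈ T ∧ P.k1 ≤ kk (jg3bU P.k1 j T m) := by
  rw [jg3bU, dif_pos h.big]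
  exact mem_filter.1 (orderEmbOfCardLe_mem _ h.big m)

theorem Jg3bN.u_inj (h : Jg3bN P j T) : Function.Injective (jg3bU P.k1 j T) := by
  rw [jg3bU, dif_pos h.big]
  exact (orderEmbOfCardLe _ h.big).injective

theorem Jg3bN.p_mem (h : Jg3bN P j T) :
    jg3bP P.k1 T ∈ T ∧ kk (jg3bP P.k1 T) < P.k1 ∧ P.k1 ≤ 9 * kk (jg3bP P.k1 T) := by
  rw [jg3bP, dif_pos h.mid]
  exact h.mid.choose_spec

theorem Jg3bN.pr_eq (h : Jg3bN P j T) :
    pr T = jg3bA P.k1 j T * jg3bP P.k1 T * pr (jg3bG P.k1 j T) := by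
  have h1 : image (jg3bU P.k1 j T) univ ⊆ T := fun q hq => by
    obtain ⟨m, -, rfl⟩ := mem_image.1 hq
    exact (h.u_mem m).1
  have h2 : jg3bP P.k1 T ∈ T \ image (jg3bU P.k1 j T) univ := by
    refine mem_sdiff.2 ⟨h.p_mem.1, fun hq => ?_⟩
    obtain ⟨m, -, e⟩ := mem_image.1 hq
    have h3 := (h.u_mem m).2
    have h4 := h.p_mem.2.1
    rw [e] at h3
    omega
  have h3 := prod_sdiff (f := fun q : ℕ => q) h1
  have h4 := mul_prod_erase _ (fun q : ℕ => q) h2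
  have h5 : ∏ q ∈ image (jg3bU P.k1 j T) univ, q = jg3bA P.k1 j T :=
    prod_image fun _ _ _ _ e => h.u_inj e
  rw [pr, pr, jg3bG, ← h3, ← h4, h5]
  ring

theorem Jg3bN.G_sub (_ : Jg3bN P j T) : jg3bG P.k1 j T ⊆ T :=
  (erase_subset _ _).trans sdiff_subset

theorem Jg3bN.K_mem (h : Jg3bN P j T) (hs : 1 ≤ sg) (hs1 : sg ≤ 2 ^ (P.k1 - 1)) :
    jg3bK P.k1 j sg T ∈ jg3bJ P j := by
  refine mem_product.2 ⟨mem_filter.2 ⟨mem_powerset.2 fun q hq => ?_, ?_⟩,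
    mem_product.2 ⟨Fintype.mem_piFinset.2 fun m => ?_, ?_⟩⟩
  · have := h.pm q (h.G_sub hq)
    exact mem_PP.2 ⟨this.2, this.1, Nat.zero_le _⟩
  · refine le_trans ?_ h.sz
    exact prod_le_prod_of_subset_of_one_le' h.G_sub fun q hq _ => (h.pm q hq).1.one_le
  · have h1 := h.pm _ (h.u_mem m).1
    have h2 := (le_kk_iff h1.1.ne_zero).1 (h.u_mem m).2
    exact mem_Ioc.2 ⟨Nat.div_pos (hs1.trans h2) hs, (Nat.div_le_self _ _).trans h1.2.le⟩
  · have h1 := h.p_mem.2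
    refine mem_Ico.2 ⟨?_, h1.1⟩
    change P.k1 / 9 ≤ kk (jg3bP P.k1 T)
    omega

theorem Jg3bN.A_mem (h : Jg3bN P j T) :
    jg3bA P.k1 j T ∈ jg3bS P sg (jg3bK P.k1 j sg T).2.1 := by
  refine mem_image.2 ⟨jg3bU P.k1 j T, Fintype.mem_piFinset.2 fun m => ?_, rfl⟩
  have h1 := h.pm _ (h.u_mem m).1
  exact mem_filter.2 ⟨mem_PP.2 ⟨h1.2, h1.1, (h.u_mem m).2⟩, rfl⟩

theorem jg3b_mem_fib {c : Cl} {g : Finset ℕ × (Fin j → ℕ) × ℕ} {p a : ℕ}
    (h : T ∈ jg3bFib P j sg c g p a) :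
    Jg3bN P j T ∧ jg3bK P.k1 j sg T = g ∧ jg3bP P.k1 T = p ∧ jg3bA P.k1 j T = a := by
  simp only [jg3bFib, jg3bFam, mem_filter] at h
  exact ⟨h.1.1.1.2, h.1.1.2, h.1.2, h.2⟩

theorem jg3b_fib_card (c : Cl) (g : Finset ℕ × (Fin j → ℕ) × ℕ) (p a : ℕ) :
    (jg3bFib P j sg c g p a).card ≤ 1 := by
  refine card_le_one.2 fun T hT T' hT' => ?_
  obtain ⟨h1, h2, h3, h4⟩ := jg3b_mem_fib hT
  obtain ⟨g1, g2, g3, g4⟩ := jg3b_mem_fib hT'
  have h5 : jg3bG P.k1 j T = jg3bG P.k1 j T' := congrArg Prod.fst (h2.trans g2.symm)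
  refine pr_inj (fun q hq => (h1.pm q hq).1) (fun q hq => (g1.pm q hq).1) ?_
  rw [h1.pr_eq, g1.pr_eq, h3, h4, g3, g4, h5]

theorem jg3b_grp_card (hs : 1 ≤ sg) (g : ℕ) : (jg3bGrp P sg g).card ≤ sg := by
  have h : jg3bGrp P sg g ⊆ Ico (sg * g) (sg * g + sg) := fun r hr => by
    obtain rfl := (mem_filter.1 hr).2
    exact mem_Ico.2 ⟨Nat.mul_div_le _ _, Nat.lt_mul_div_succ _ hs⟩
  simpa using card_le_card h

theorem jg3b_grp_mem {g r : ℕ} (h : r ∈ jg3bGrp P sg g) :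
    r < 2 ^ P.kW ∧ r.Prime ∧ P.k1 ≤ kk r := mem_PP.1 (mem_filter.1 h).1

theorem jg3b_fam (h5 : 5 * P.kw < P.k1) (hj : 7 * 2 ^ j * P.k1 ≤ P.kW) {c : Cl}
    (h1 : St c.1 c.2.1 P.kW) (h2 : c.2.1 ≤ P.CW * P.kW) : jg3bFam P j c = famW P c.1 c.2.1 := by
  classical
  refine filter_true_of_mem fun T hT => ?_
  have hk : P.k1 ≤ P.kW := le_trans (Nat.le_mul_of_pos_left _ (by positivity)) hj
  obtain ⟨h3, h4⟩ := mem_filter.1 hT
  have h6 : ∀ p ∈ T, p.Prime ∧ p < 2 ^ P.kW := fun p hp => by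
    have := mem_PP.1 (mem_powerset.1 h3 hp)
    exact ⟨this.2.1, this.1.trans_le (Nat.pow_le_pow_right (by norm_num) (Nat.sub_le _ _))⟩
  have h7 := (bd_state h1 (fun p hp => (kk_le_iff (h6 p hp).1.ne_zero).2 (h6 p hp).2) h4.1).1
  obtain ⟨π, g1, g2, g3, -⟩ := fam_pi h5 hk h1 hT
  exact ⟨h6, (pr_le_two_pow T).trans (Nat.pow_le_pow_right (by norm_num) (h7.trans h2)),
    fam_big h5 hj h1 hT, π, g1, g2, g3⟩

theorem jg3b_split (hs : 1 ≤ sg) (hs1 : sg ≤ 2 ^ (P.k1 - 1)) (c : Cl) (f : Finset ℕ → ℂ) :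
    ∑ T ∈ jg3bFam P j c, f T = ∑ g ∈ jg3bJ P j, ∑ p ∈ Box g.2.2, ∑ a ∈ jg3bS P sg g.2.1,
      ∑ T ∈ jg3bFib P j sg c g p a, f T := by
  classical
  have hN : ∀ T ∈ jg3bFam P j c, Jg3bN P j T := fun T hT => (mem_filter.1 hT).2
  rw [← sum_fiberwise_of_maps_to (g := jg3bK P.k1 j sg) fun T hT => (hN T hT).K_mem hs hs1]
  refine sum_congr rfl fun g _ => ?_
  rw [← sum_fiberwise_of_maps_to (g := jg3bP P.k1) (t := Box g.2.2) fun T hT => by
    obtain ⟨h1, rfl⟩ := mem_filter.1 hT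
    exact mem_Box.2 ⟨((hN T h1).pm _ (hN T h1).p_mem.1).1, rfl⟩]
  refine sum_congr rfl fun p _ => ?_
  rw [← sum_fiberwise_of_maps_to (g := jg3bA P.k1 j) (t := jg3bS P sg g.2.1) fun T hT => by
    obtain ⟨h1, rfl⟩ := mem_filter.1 (mem_filter.1 hT).1
    exact (hN T h1).A_mem]
  rfl

end nice

section main
variable {P : Par} {E H j sg y : ℕ} {b : Cl → Finset ℕ → Finset ℕ → ℕ → ℂ}

theorem jg3b_IE {S : Finset ℕ} (h : S ∈ IE P.kw E) : (∀ p ∈ S, p.Prime) ∧ pr S ≤ E :=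
  ⟨fun _ hp => (mem_PP.1 (mem_powerset.1 (mem_filter.1 h).1 hp)).2.1, (mem_filter.1 h).2⟩

theorem jg3b_GG {G : Finset ℕ} (h : G ∈ jg3bGG P) :
    (∀ p ∈ G, p.Prime) ∧ pr G ≤ 2 ^ (P.CW * P.kW) :=
  ⟨fun _ hp => (mem_PP.1 (mem_powerset.1 (mem_filter.1 h).1 hp)).2.1, (mem_filter.1 h).2⟩

theorem jg3b_log (n : ℕ) : Real.log ((2 ^ n : ℕ) : ℝ) ≤ n := by
  rw [Nat.cast_pow, Real.log_pow]
  have h1 : Real.log ((2 : ℕ) : ℝ) ≤ 1 := by
    have := Real.log_two_lt_d9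
    push_cast
    linarith
  exact mul_le_of_le_one_right (Nat.cast_nonneg _) h1

theorem jg3b_card : (jg3bD P E H j sg b).I.card ≤
    E * H * 2 ^ (P.CW * P.kW) * 2 ^ (P.kW * j) * P.k1 := by
  have h1 := card_le_of_pr_le (IE P.kw E) E fun _ => jg3b_IE
  have h2 := card_le_of_pr_le (jg3bGG P) _ fun _ => jg3b_GG
  simp only [jg3bD, jg3bJ, card_product, Fintype.card_piFinset, Nat.card_Ioc, Nat.card_Ico,
    Nat.sub_zero, prod_const, card_univ, Fintype.card_fin]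
  rw [pow_mul 2 P.kW j, mul_assoc, mul_assoc, mul_assoc]
  gcongr
  exact Nat.sub_le _ _

theorem jg3b_sum : ∑ i ∈ (jg3bD P E H j sg b).I, (jg3bD P E H j sg b).wt i ≤
    E * (1 + Real.log H) * (1 + (P.CW * P.kW : ℕ)) * (1 + P.kW) ^ j * P.k1 := by
  have h1 : ((IE P.kw E).card : ℝ) ≤ E := by
    exact_mod_cast card_le_of_pr_le (IE P.kw E) E fun _ => jg3b_IE
  have h2 := Pool.Agent.Lib.Sieve.sum_inv_Ioc_le H
  have h3 := (sum_inv_pr_le (jg3bGG P) _ fun _ => jg3b_GG).trans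
    (add_le_add le_rfl (jg3b_log (P.CW * P.kW)))
  have h4 := (Pool.Agent.Lib.Sieve.sum_inv_Ioc_le (2 ^ P.kW)).trans
    (add_le_add le_rfl (jg3b_log P.kW))
  have h5 : ∑ Γ ∈ Fintype.piFinset (fun _ : Fin j => Ioc (0 : ℕ) (2 ^ P.kW)),
      ∏ m, 1 / (Γ m : ℝ) ≤ (1 + P.kW) ^ j := by
    rw [← prod_univ_sum (fun _ : Fin j => Ioc 0 (2 ^ P.kW)) fun _ (v : ℕ) => 1 / (v : ℝ),
      prod_const, card_univ, Fintype.card_fin]
    exact pow_le_pow_left₀ (sum_nonneg fun _ _ => by positivity) h4 j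
  have h6 : ((Ico (P.k1 / 9) P.k1).card : ℝ) ≤ P.k1 := by
    rw [Nat.card_Ico]
    exact_mod_cast Nat.sub_le _ _
  have h7 : 0 ≤ 1 + Real.log H := le_trans (sum_nonneg fun _ _ => by positivity) h2
  have e : ∑ i ∈ (jg3bD P E H j sg b).I, (jg3bD P E H j sg b).wt i =
      (IE P.kw E).card * (∑ v ∈ Ioc 0 H, 1 / (v : ℝ)) * (∑ G ∈ jg3bGG P, 1 / (pr G : ℝ)) *
      (∑ Γ ∈ Fintype.piFinset (fun _ : Fin j => Ioc (0 : ℕ) (2 ^ P.kW)), ∏ m, 1 / (Γ m : ℝ)) *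
      (Ico (P.k1 / 9) P.k1).card := by
    simp only [jg3bD, jg3bJ, sum_product, sum_const, nsmul_eq_mul, ← mul_sum, ← sum_mul]
    ring
  rw [e]
  gcongr

theorem jg3b_ok (hb : Coef b) (hs : 1 ≤ sg) (hσ : 2 ^ P.k1 ≤ sg ^ j) (hH : H ≤ y)
    (hW : 2 ^ (P.kW * j) ≤ y) : (jg3bD P E H j sg b).Ok
      (E * (1 + Real.log H) * (1 + (P.CW * P.kW : ℕ)) * (1 + P.kW) ^ j * P.k1) y
      (2 ^ (P.CW * P.kW) * E * 2 ^ (P.kW * j * sg)) (P.k1 / 9) P.k1 := by
  refine ⟨fun i => ?_, jg3b_sum, fun i hi => ?_, fun i hi => ?_, fun i hi => ?_, fun i _ => ?_,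
    fun i hi p hp hd => ?_, fun c i a p => ?_, hσ⟩
  · simp only [jg3bD]
    positivity
  · have := mem_Ioc.1 (mem_product.1 (mem_product.1 hi).2).1
    exact ⟨this.1, this.2.trans hH⟩
  · have h1 := jg3b_IE (mem_product.1 hi).1
    have h2 := jg3b_GG (mem_product.1 (mem_product.1 (mem_product.1 hi).2).2).1
    dsimp only [jg3bD]
    refine ⟨Nat.mul_pos (pr_pos h2.1) (pr_pos h1.1),
      prod_pos fun m _ => pr_pos fun r hr => (jg3b_grp_mem hr).2.1,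
      Nat.mul_le_mul (Nat.mul_le_mul h2.2 h1.2) ?_⟩
    have h3 : ∀ g, pr (jg3bGrp P sg g) ≤ 2 ^ (P.kW * sg) := fun g =>
      (prod_le_pow_card _ _ _ fun r hr => (jg3b_grp_mem hr).1.le).trans (by
        rw [pow_mul]
        exact Nat.pow_le_pow_right (by positivity) (jg3b_grp_card hs g))
    refine (prod_le_pow_card _ _ _ fun m _ => h3 _).trans (le_of_eq ?_)
    rw [card_univ, Fintype.card_fin, ← pow_mul, mul_right_comm]
  · exact mem_Ico.1 (mem_product.1 (mem_product.1 (mem_product.1 (mem_product.1 hi).2).2).2).2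
  · refine ⟨card_image_le.trans ?_, fun a ha => ?_⟩
    · rw [Fintype.card_piFinset]
      refine (prod_le_pow_card _ _ _ fun m _ => jg3b_grp_card hs _).trans (le_of_eq ?_)
      rw [card_univ, Fintype.card_fin]
      rfl
    · obtain ⟨v, hv, rfl⟩ := mem_image.1 ha
      have h1 := Fintype.mem_piFinset.1 hv
      refine ⟨prod_pos fun m _ => (jg3b_grp_mem (h1 m)).2.1.pos, le_trans ?_ hW,
        prod_dvd_prod_of_dvd _ _ fun m _ => dvd_prod_of_mem _ (h1 m)⟩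
      refine (prod_le_pow_card _ _ _ fun m _ => (jg3b_grp_mem (h1 m)).1.le).trans (le_of_eq ?_)
      rw [card_univ, Fintype.card_fin, ← pow_mul]
  · have h1 := mem_Ico.1
      (mem_product.1 (mem_product.1 (mem_product.1 (mem_product.1 hi).2).2).2).2
    obtain ⟨h2, h3⟩ := mem_Box.1 hp
    dsimp only [jg3bD] at hd
    obtain ⟨m, -, hm⟩ := (Prime.dvd_finsetProd_iff h2.prime _).1 hd
    have h4 := (jg3b_grp_mem ((prime_dvd_pr (fun r hr => (jg3b_grp_mem hr).2.1) h2).1 hm)).2.2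
    have h5 : kk p = i.2.2.2.2 := h3
    omega
  · dsimp only [jg3bD]
    refine (norm_sum_le _ _).trans ((sum_le_card_nsmul _ _ 1 fun T hT => ?_).trans ?_)
    · obtain ⟨-, h2, -, h4⟩ := jg3b_mem_fib hT
      rw [norm_mul, norm_div, Complex.norm_natCast, Complex.norm_natCast]
      refine mul_le_one₀ (hb c T _ _).1 (by positivity) (div_le_one_of_le₀ ?_ (by positivity))
      have h5 : sg ^ j * ∏ m, i.2.2.2.1 m = ∏ m, sg * i.2.2.2.1 m := by
        rw [prod_mul_distrib, prod_const, card_univ, Fintype.card_fin]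
      rw [Nat.cast_le, h5, ← h4, ← h2]
      exact prod_le_prod' fun m _ => Nat.mul_div_le _ _
    · rw [nsmul_eq_mul, mul_one]
      exact_mod_cast jg3b_fib_card c i.2.2 p a

theorem jg3b_ex (hs : 1 ≤ sg) (hs1 : sg ≤ 2 ^ (P.k1 - 1)) {c : Cl}
    (hc : jg3bFam P j c = famW P c.1 c.2.1) (ξ : ℤ) :
    Ex P E H b c ξ = ∑ i ∈ (jg3bD P E H j sg b).I, ((jg3bD P E H j sg b).wt i : ℂ) *
      ∑ p ∈ Box ((jg3bD P E H j sg b).kb i), 1 / (p : ℂ) * (jg3bD P E H j sg b).F c i p ξ := by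
  have hI : Icc 1 H = Ioc 0 H := by
    ext v
    simp only [mem_Icc, mem_Ioc]
    omega
  rw [Ex, ← hc, sum_comm, hI]
  change _ = ∑ i ∈ IE P.kw E ×ˢ Ioc 0 H ×ˢ jg3bJ P j, _
  rw [sum_product]
  refine sum_congr rfl fun S _ => ?_
  rw [sum_comm, sum_product]
  refine sum_congr rfl fun h hh => ?_
  rw [jg3b_split hs hs1]
  refine sum_congr rfl fun g hg => ?_
  simp only [jg3bD, Dat2.F, mul_sum, sum_mul]
  refine sum_congr rfl fun p hp => sum_congr rfl fun a _ => sum_congr rfl fun T hT => ?_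
  obtain ⟨h1, h2, h3, h4⟩ := jg3b_mem_fib hT
  have h5 : jg3bG P.k1 j T = g.1 := congrArg Prod.fst h2
  have h6 := h1.pr_eq
  rw [h3, h4, h5] at h6
  have h7 : (∏ m, (g.2.1 m : ℂ)) ≠ 0 := prod_ne_zero_iff.2 fun m _ => by
    have := (mem_Ioc.1 (Fintype.mem_piFinset.1 (mem_product.1 (mem_product.1 hg).2).1 m)).1
    exact Nat.cast_ne_zero.2 this.ne'
  have h8 : (sg : ℂ) ≠ 0 := Nat.cast_ne_zero.2 (by omega)
  have e : (h : ℝ) * ξ / ((pr T : ℝ) * pr S) = h * ξ / ((a : ℝ) * p * (pr g.1 * pr S : ℕ)) := by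
    rw [h6]
    push_cast
    ring
  rw [e, h6]
  push_cast
  rw [prod_div_distrib, prod_const_one]
  field_simp

end main

set_option linter.unusedVariables false in
theorem red_two (P : Par) (E H j sg y : ℕ) (b : Cl → Finset ℕ → Finset ℕ → ℕ → ℂ) (hb : Coef b)
    (h5 : 5 * P.kw < P.k1) (hj : 7 * 2 ^ j * P.k1 ≤ P.kW) (hs : 1 ≤ sg)
    (hs1 : sg ≤ 2 ^ (P.k1 - 1)) (hσ : 2 ^ P.k1 ≤ sg ^ j) (hE : 1 ≤ E) (hH : H ≤ y)
    (hW : 2 ^ (P.kW * j) ≤ y) :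
    ∃ (ι : Type) (D : Dat2 ι),
      D.Ok (E * (1 + Real.log H) * (1 + (P.CW * P.kW : ℕ)) * (1 + P.kW) ^ j * P.k1) y
        (2 ^ (P.CW * P.kW) * E * 2 ^ (P.kW * j * sg)) (P.k1 / 9) P.k1 ∧
      D.I.card ≤ E * H * 2 ^ (P.CW * P.kW) * 2 ^ (P.kW * j) * P.k1 ∧
      ∀ c : Cl, St c.1 c.2.1 P.kW → c.2.1 ≤ P.CW * P.kW → ∀ ξ : ℤ, ‖Ex P E H b c ξ‖ ≤ D.B c ξ := by
  refine ⟨_, jg3bD P E H j sg b, jg3b_ok hb hs hσ hH hW, jg3b_card, fun c h1 h2 ξ => ?_⟩
  rw [jg3b_ex hs hs1 (jg3b_fam h5 hj h1 h2)]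
  refine (norm_sum_le _ _).trans (sum_le_sum fun i _ => ?_)
  have h0 := (jg3b_ok (E := E) hb hs hσ hH hW).wt0 i
  rw [norm_mul, Complex.norm_real, Real.norm_of_nonneg h0]
  refine mul_le_mul_of_nonneg_left ((norm_sum_le _ _).trans (le_of_eq ?_)) h0
  refine sum_congr rfl fun p _ => ?_
  rw [norm_mul, norm_div, norm_one, Complex.norm_natCast]

end

end Pool.Agent.Jac
end

-- part Pool.Agent.P.MP_45ff98_nt.JI1
section

/-! Good primes and the list of good residues. -/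

namespace Pool.Agent.Jac
open Finset

noncomputable section

theorem ji1_sigma {ι : Type} (D : Dat2 ι) {Om : ℝ} {y Yq klo khi : ℕ}
    (h : D.Ok Om y Yq klo khi) : (0 : ℝ) < D.σ := by
  have : 0 < D.σ := lt_of_lt_of_le (by positivity) h.σb
  exact_mod_cast this

theorem ji1_norm_le {ι : Type} (D : Dat2 ι) {Om : ℝ} {y Yq klo khi : ℕ}
    (h : D.Ok Om y Yq klo khi) (c : Cl) {i : ι} (hi : i ∈ D.I) (p : ℕ) (ξ : ℤ) :
    ‖D.F c i p ξ‖ ≤ 1 := by
  have hσ := ji1_sigma D h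
  have h1 : ‖∑ a ∈ D.A i, D.β c i a p * ee (D.h i * ξ / ((a : ℝ) * p * D.Q i))‖ ≤ D.σ := by
    refine (norm_sum_le _ _).trans ?_
    refine (sum_le_card_nsmul _ _ 1 fun a _ => ?_).trans ?_
    · rw [norm_mul, norm_ee, mul_one]
      exact h.βb c i a p
    · rw [nsmul_eq_mul, mul_one]
      exact_mod_cast (h.Ab i hi).1
  rw [Dat2.F, norm_mul, norm_div, norm_one, Complex.norm_natCast, one_div, inv_mul_le_iff₀ hσ,
    mul_one]
  exact h1

theorem ji1_inv_le {k q : ℕ} (hq : q ∈ Box k) : 1 / (q : ℝ) ≤ 1 / 2 ^ (k - 1) := by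
  obtain ⟨h1, rfl⟩ := mem_Box.1 hq
  exact one_div_le_one_div_of_le (by positivity) (by exact_mod_cast two_pow_kk_le h1.ne_zero)

theorem good_primes {ι : Type} (D : Dat2 ι) {Om : ℝ} {y Yq klo khi : ℕ}
    (h : D.Ok Om y Yq klo khi) (c : Cl) (ξ : ℤ) (c4 : ℝ) (h0 : 0 < c4) (hc : c4 ≤ D.B c ξ) :
    c4 ≤ Om ∧ ∃ i ∈ D.I, c4 / (2 * Om) * 2 ^ (D.kb i - 1) ≤
      (((Box (D.kb i)).filter (fun p => c4 / (2 * Om) ≤ ‖D.F c i p ξ‖)).card : ℝ) := by
  set g : ι → ℝ := fun i => ∑ p ∈ Box (D.kb i), 1 / (p : ℝ) * ‖D.F c i p ξ‖ with hg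
  have hB : D.B c ξ = ∑ i ∈ D.I, D.wt i * g i := rfl
  have hg0 : ∀ i, 0 ≤ g i := fun i => sum_nonneg fun p _ => by positivity
  have hg1 : ∀ i ∈ D.I, g i ≤ 1 := fun i hi =>
    (sum_le_sum fun p _ => mul_le_of_le_one_right (by positivity)
      (ji1_norm_le D h c hi p ξ)).trans (mb_le_one _)
  have hne : D.I.Nonempty := by
    by_contra hn
    rw [not_nonempty_iff_eq_empty] at hn
    rw [hB, hn, sum_empty] at hc
    linarith
  obtain ⟨i, hi, hmax⟩ := exists_max_image D.I g hne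
  have h1 : c4 ≤ Om * g i := by
    refine hc.trans ?_
    rw [hB]
    refine (sum_le_sum fun j hj => mul_le_mul_of_nonneg_left (hmax j hj) (h.wt0 j)).trans ?_
    rw [← sum_mul]
    exact mul_le_mul_of_nonneg_right h.sum (hg0 i)
  have hOm0 : 0 ≤ Om := (sum_nonneg fun j _ => h.wt0 j).trans h.sum
  have h2 : c4 ≤ Om := h1.trans (mul_le_of_le_one_right hOm0 (hg1 i hi))
  have hOm : 0 < Om := h0.trans_le h2
  refine ⟨h2, i, hi, ?_⟩
  set t := c4 / (2 * Om) with ht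
  have ht0 : 0 < t := by positivity
  have h3 : 2 * t ≤ g i := by
    have : 2 * t = c4 / Om := by rw [ht]; field_simp
    rw [this, div_le_iff₀ hOm, mul_comm]
    exact h1
  have h4 : g i ≤ t + (((Box (D.kb i)).filter (fun p => t ≤ ‖D.F c i p ξ‖)).card : ℝ) *
      (1 / 2 ^ (D.kb i - 1)) := by
    have e1 : g i ≤ ∑ p ∈ Box (D.kb i), (1 / (p : ℝ) * t +
        if t ≤ ‖D.F c i p ξ‖ then (1 : ℝ) / 2 ^ (D.kb i - 1) else 0) := by
      refine sum_le_sum fun p hp => ?_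
      have e0 : (0 : ℝ) ≤ 1 / (p : ℝ) := by positivity
      split_ifs with hp'
      · have := (mul_le_of_le_one_right e0 (ji1_norm_le D h c hi p ξ)).trans (ji1_inv_le hp)
        have := mul_nonneg e0 ht0.le
        linarith
      · rw [add_zero]
        exact mul_le_mul_of_nonneg_left (not_le.1 hp').le e0
    rw [sum_add_distrib, ← sum_mul, ← sum_filter, sum_const, nsmul_eq_mul] at e1
    have e2 : (∑ p ∈ Box (D.kb i), 1 / (p : ℝ)) * t ≤ t :=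
      mul_le_of_le_one_left ht0.le (mb_le_one _)
    linarith
  have h5 : t ≤ (((Box (D.kb i)).filter (fun p => t ≤ ‖D.F c i p ξ‖)).card : ℝ) /
      2 ^ (D.kb i - 1) := by
    rw [div_eq_mul_one_div]
    linarith
  rwa [le_div_iff₀ (by positivity)] at h5

theorem ji1_mean (A : Finset ℕ) (γ : ℕ → ℂ) (hγ : ∀ a, ‖γ a‖ ≤ 1) (u : ℕ → ℤ) {p : ℕ}
    (hp : 1 ≤ p) :
    ∑ m ∈ range p, ‖∑ a ∈ A, γ a * ee (u a * m / p)‖ ^ 2 ≤
      p * ∑ a ∈ A, ∑ a' ∈ A, if (p : ℤ) ∣ u a - u a' then (1 : ℝ) else 0 := by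
  have h1 : ∀ m : ℕ, ((‖∑ a ∈ A, γ a * ee (u a * m / p)‖ ^ 2 : ℝ) : ℂ) =
      ∑ a ∈ A, ∑ a' ∈ A, γ a * (starRingEnd ℂ) (γ a') * ee (((u a - u a' : ℤ) : ℝ) * m / p) := by
    intro m
    rw [← Complex.normSq_eq_norm_sq, ← Complex.mul_conj, map_sum, sum_mul_sum]
    refine sum_congr rfl fun a _ => sum_congr rfl fun a' _ => ?_
    have : (((u a - u a' : ℤ) : ℝ) * m / p) = u a * m / p + -(u a' * m / p) := by
      push_cast
      ring
    rw [map_mul, conj_ee, this, ee_add]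
    ring
  have h2 : ((∑ m ∈ range p, ‖∑ a ∈ A, γ a * ee (u a * m / p)‖ ^ 2 : ℝ) : ℂ) =
      ∑ a ∈ A, ∑ a' ∈ A, γ a * (starRingEnd ℂ) (γ a') *
        if (p : ℤ) ∣ u a - u a' then (p : ℂ) else 0 := by
    rw [Complex.ofReal_sum, sum_congr rfl fun m _ => h1 m, sum_comm]
    refine sum_congr rfl fun a _ => ?_
    rw [sum_comm]
    refine sum_congr rfl fun a' _ => ?_
    rw [← mul_sum, sum_ee p hp]
  have h3 := congrArg norm h2
  rw [Complex.norm_real, Real.norm_eq_abs] at h3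
  refine (le_abs_self _).trans (h3.le.trans ?_)
  rw [mul_sum]
  refine (norm_sum_le _ _).trans (sum_le_sum fun a _ => ?_)
  rw [mul_sum]
  refine (norm_sum_le _ _).trans (sum_le_sum fun a' _ => ?_)
  rw [norm_mul, norm_mul, Complex.norm_conj]
  have h4 : ‖γ a‖ * ‖γ a'‖ ≤ 1 := mul_le_one₀ (hγ a) (norm_nonneg _) (hγ a')
  refine (mul_le_of_le_one_left (norm_nonneg _) h4).trans ?_
  split_ifs <;> simp

theorem ji1_F {ι : Type} (D : Dat2 ι) {Om : ℝ} {y Yq klo khi : ℕ}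
    (h : D.Ok Om y Yq klo khi) (c : Cl) {i : ι} (hi : i ∈ D.I) {p : ℕ} (hp : 1 ≤ p)
    (ρ m n : ℤ) :
    D.F c i p (ρ + (D.Q i * D.Q1 i : ℕ) * (m + p * n)) = 1 / (D.σ : ℂ) *
      ∑ a ∈ D.A i, D.β c i a p * ee (D.h i * ρ / ((a : ℝ) * p * D.Q i)) *
        ee (((D.h i * (D.Q1 i / a : ℕ) : ℤ) : ℝ) * m / p) := by
  rw [Dat2.F]
  congr 1
  refine sum_congr rfl fun a ha => ?_
  obtain ⟨a1, -, b, hb⟩ := (h.Ab i hi).2 a ha
  have hQ := (h.Qb i hi).1
  have e1 : D.Q1 i / a = b := by rw [hb, Nat.mul_div_cancel_left _ a1]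
  have a0 : (a : ℝ) ≠ 0 := by positivity
  have p0 : (p : ℝ) ≠ 0 := by positivity
  have q0 : (D.Q i : ℝ) ≠ 0 := by positivity
  rw [e1, mul_assoc (D.β c i a p), ← ee_add, hb]
  refine congrArg _ (Eq.trans (congrArg ee ?_) (ee_add_int _ (D.h i * b * n)))
  push_cast
  field_simp
  ring

theorem ji1_count {ι : Type} (D : Dat2 ι) {Om : ℝ} {y Yq klo khi L : ℕ}
    (h : D.Ok Om y Yq klo khi) (hy : y ≤ 2 ^ L) {i : ι} (hi : i ∈ D.I) {a a' : ℕ}
    (ha : a ∈ D.A i) (ha' : a' ∈ D.A i) :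
    ∑ p ∈ Box (D.kb i), (if (p : ℤ) ∣ (D.h i * (D.Q1 i / a : ℕ) : ℤ) - D.h i * (D.Q1 i / a' : ℕ)
      then (1 : ℝ) else 0) ≤ (if a = a' then (D.σ : ℝ) else 0) + 2 * L := by
  rw [← sum_filter, sum_const, nsmul_eq_mul, mul_one]
  have hL : (0 : ℝ) ≤ 2 * L := by positivity
  split_ifs with e
  · have h1 : 2 ^ (D.kb i - 1) ≤ 2 ^ khi :=
      Nat.pow_le_pow_right (by norm_num) (by have := (h.kb i hi).2; omega)
    have h2 := ((card_filter_le (Box (D.kb i)) (fun p : ℕ => (p : ℤ) ∣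
      (D.h i * (D.Q1 i / a : ℕ) : ℤ) - D.h i * (D.Q1 i / a' : ℕ))).trans
        (card_Box_le _)).trans (h1.trans h.σb)
    have h3 : ((((Box (D.kb i)).filter (fun p : ℕ => (p : ℤ) ∣
      (D.h i * (D.Q1 i / a : ℕ) : ℤ) - D.h i * (D.Q1 i / a' : ℕ))).card : ℕ) : ℝ) ≤ D.σ := by
      exact_mod_cast h2
    linarith
  · obtain ⟨a1, a2, b, hb⟩ := (h.Ab i hi).2 a ha
    obtain ⟨a1', a2', b', hb'⟩ := (h.Ab i hi).2 a' ha'
    obtain ⟨g1, g2⟩ := h.hb i hi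
    have e1 : D.Q1 i / a = b := by rw [hb, Nat.mul_div_cancel_left _ a1]
    have e2 : D.Q1 i / a' = b' := by rw [hb', Nat.mul_div_cancel_left _ a1']
    have hz : ((D.h i : ℤ) * ((a' : ℤ) - a)) ≠ 0 :=
      mul_ne_zero (by omega) (by omega)
    have hyz : (y : ℤ) ≤ 2 ^ L := by exact_mod_cast hy
    have habs : |(D.h i : ℤ) * ((a' : ℤ) - a)| ≤ 2 ^ (2 * L) := by
      rw [abs_mul, two_mul, pow_add]
      refine mul_le_mul (abs_le.2 ⟨by omega, by omega⟩) (abs_le.2 ⟨by omega, by omega⟩)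
        (abs_nonneg _) (by positivity)
    have h1 := card_primes_dvd ((Box (D.kb i)).filter (fun p : ℕ => (p : ℤ) ∣
      (D.h i * (D.Q1 i / a : ℕ) : ℤ) - D.h i * (D.Q1 i / a' : ℕ))) _ (2 * L) hz habs ?_
    · rw [zero_add]
      exact_mod_cast h1
    · intro p hp
      obtain ⟨hp1, hp2⟩ := mem_filter.1 hp
      have hpp := (mem_Box.1 hp1).1
      refine ⟨hpp, ?_⟩
      rw [e1, e2] at hp2
      have hb1 : (D.Q1 i : ℤ) = a * b := by exact_mod_cast hb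
      have hb2 : (D.Q1 i : ℤ) = a' * b' := by exact_mod_cast hb'
      have e3 : (D.Q1 i : ℤ) * (D.h i * ((a' : ℤ) - a)) =
          ((D.h i : ℤ) * b - D.h i * b') * (a * a') := by
        linear_combination (D.h i * a' : ℤ) * hb1 - (D.h i * a : ℤ) * hb2
      have h2 : (p : ℤ) ∣ (D.Q1 i : ℤ) * (D.h i * ((a' : ℤ) - a)) := by
        rw [e3]
        exact hp2.mul_right _
      exact ((Nat.prime_iff_prime_int.1 hpp).dvd_or_dvd h2).resolve_left fun h3 =>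
        h.Qp i hi p hp1 (Int.natCast_dvd_natCast.1 h3)

theorem list_bound {ι : Type} (D : Dat2 ι) {Om : ℝ} {y Yq klo khi L : ℕ}
    (h : D.Ok Om y Yq klo khi) (hy : y ≤ 2 ^ L) (hL : 1 ≤ L) (c : Cl) {i : ι} (hi : i ∈ D.I)
    (ρ : ℤ) (c2 : ℝ) (h0 : 0 < c2) :
    ∃ U : Finset (ℕ × ℤ), (U.card : ℝ) ≤ 6 * L * 2 ^ (D.kb i - 1) / c2 ^ 2 ∧
      ∀ p ∈ Box (D.kb i), ∀ ξ : ℤ, ξ % (D.Q i * D.Q1 i : ℕ) = ρ → c2 ≤ ‖D.F c i p ξ‖ →
        (p, ξ % p) ∈ U := by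
  classical
  have hσ := ji1_sigma D h
  set x : ℕ → ℤ := fun m => ρ + (D.Q i * D.Q1 i : ℕ) * (m : ℤ) with hx
  set G : ℕ → Finset ℕ := fun p => (range p).filter (fun m => c2 ≤ ‖D.F c i p (x m)‖) with hG
  set u : ℕ → ℤ := fun a => (D.h i * (D.Q1 i / a : ℕ) : ℤ) with hu
  refine ⟨(Box (D.kb i)).biUnion fun p => (G p).image fun m => (p, x m % p), ?_, ?_⟩
  · have h1 : ∀ p ∈ Box (D.kb i), ((G p).card : ℝ) * c2 ^ 2 ≤ 2 * 2 ^ (D.kb i - 1) / D.σ ^ 2 *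
        ∑ a ∈ D.A i, ∑ a' ∈ D.A i, if (p : ℤ) ∣ u a - u a' then (1 : ℝ) else 0 := by
      intro p hp
      obtain ⟨hpp, hk⟩ := mem_Box.1 hp
      have e1 : ((G p).card : ℝ) * c2 ^ 2 ≤ ∑ m ∈ range p, ‖D.F c i p (x m)‖ ^ 2 := by
        rw [← nsmul_eq_mul]
        refine (card_nsmul_le_sum _ (fun m => ‖D.F c i p (x m)‖ ^ 2) _ fun m hm =>
          pow_le_pow_left₀ h0.le (mem_filter.1 hm).2 2).trans ?_
        exact sum_le_sum_of_subset_of_nonneg (filter_subset _ _) fun _ _ _ => by positivity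
      have e2 : ∀ m : ℕ, ‖D.F c i p (x m)‖ ^ 2 = 1 / (D.σ : ℝ) ^ 2 *
          ‖∑ a ∈ D.A i, D.β c i a p * ee (D.h i * ρ / ((a : ℝ) * p * D.Q i)) *
            ee (u a * m / p)‖ ^ 2 := by
        intro m
        have := ji1_F D h c hi hpp.one_le ρ m 0
        rw [mul_zero, add_zero] at this
        rw [hx, this, norm_mul, norm_div, norm_one, Complex.norm_natCast, mul_pow, div_pow,
          one_pow, Int.cast_natCast]
      have e3 := ji1_mean (D.A i) (fun a => D.β c i a p * ee (D.h i * ρ / ((a : ℝ) * p * D.Q i)))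
        (fun a => by rw [norm_mul, norm_ee, mul_one]; exact h.βb c i a p) u hpp.one_le
      have e4 : (p : ℝ) ≤ 2 * 2 ^ (D.kb i - 1) := by
        have f1 := lt_two_pow_kk p
        have f2 := kk_pos p
        have f3 : 2 ^ kk p = 2 * 2 ^ (D.kb i - 1) := by
          rw [← hk, ← pow_succ', Nat.sub_add_cancel f2]
        rw [f3] at f1
        exact_mod_cast f1.le
      refine e1.trans ?_
      rw [sum_congr rfl fun m _ => e2 m, ← mul_sum]
      refine (mul_le_mul_of_nonneg_left e3 (by positivity)).trans ?_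
      rw [← mul_assoc, one_div_mul_eq_div]
      refine mul_le_mul_of_nonneg_right (div_le_div_of_nonneg_right e4 (by positivity)) ?_
      exact sum_nonneg fun a _ => sum_nonneg fun a' _ => by split_ifs <;> norm_num
    have h2 : ∑ p ∈ Box (D.kb i), ∑ a ∈ D.A i, ∑ a' ∈ D.A i,
        (if (p : ℤ) ∣ u a - u a' then (1 : ℝ) else 0) ≤ 3 * L * D.σ ^ 2 := by
      have hA : ((D.A i).card : ℝ) ≤ D.σ := by exact_mod_cast (h.Ab i hi).1
      have hL' : (1 : ℝ) ≤ L := by exact_mod_cast hL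
      rw [sum_comm]
      have e1 : ∀ a ∈ D.A i, ∑ p ∈ Box (D.kb i), ∑ a' ∈ D.A i,
          (if (p : ℤ) ∣ u a - u a' then (1 : ℝ) else 0) ≤ 3 * L * D.σ := by
        intro a ha
        rw [sum_comm]
        refine (sum_le_sum fun a' ha' => ji1_count D h hy hi ha ha').trans ?_
        rw [sum_add_distrib, sum_ite_eq, if_pos ha, sum_const, nsmul_eq_mul]
        nlinarith [mul_le_mul_of_nonneg_right hA (by linarith : (0 : ℝ) ≤ L),
          mul_le_mul_of_nonneg_right hL' hσ.le]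
      refine (sum_le_card_nsmul _ _ _ e1).trans ?_
      rw [nsmul_eq_mul]
      nlinarith [mul_le_mul_of_nonneg_right hA (by positivity : (0 : ℝ) ≤ 3 * L * D.σ)]
    have h3 : (((Box (D.kb i)).biUnion fun p => (G p).image fun m => (p, x m % p)).card : ℝ) ≤
        ∑ p ∈ Box (D.kb i), ((G p).card : ℝ) := by
      exact_mod_cast card_biUnion_le.trans (sum_le_sum fun p _ => card_image_le)
    rw [le_div_iff₀ (by positivity)]
    refine (mul_le_mul_of_nonneg_right h3 (by positivity)).trans ?_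
    rw [sum_mul]
    refine (sum_le_sum h1).trans ?_
    rw [← mul_sum]
    refine (mul_le_mul_of_nonneg_left h2 (by positivity)).trans (le_of_eq ?_)
    field_simp
    ring
  · intro p hp ξ hξ hF
    have hpp := (mem_Box.1 hp).1
    have p0 : (0 : ℤ) < p := by exact_mod_cast hpp.pos
    set q : ℤ := ((D.Q i * D.Q1 i : ℕ) : ℤ) with hq
    obtain ⟨m, hm⟩ := Int.eq_ofNat_of_zero_le (Int.emod_nonneg (ξ / q) p0.ne')
    have hmp : m < p := by
      have := Int.emod_lt_of_pos (ξ / q) p0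
      omega
    have e1 : ξ = ρ + q * (m + p * (ξ / q / p)) := by
      rw [← hm, Int.emod_add_mul_ediv, ← hξ, Int.emod_add_mul_ediv]
    have e2 : D.F c i p (x m) = D.F c i p ξ := by
      have f1 := ji1_F D h c hi hpp.one_le ρ m 0
      have f2 := ji1_F D h c hi hpp.one_le ρ m (ξ / q / p)
      rw [mul_zero, add_zero] at f1
      rw [← e1] at f2
      exact f1.trans f2.symm
    refine mem_biUnion.2 ⟨p, hp, mem_image.2 ⟨m, mem_filter.2 ⟨mem_range.2 hmp, e2 ▸ hF⟩, ?_⟩⟩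
    have e3 : ξ = x m + p * (q * (ξ / q / p)) := by
      rw [hx]
      linear_combination e1
    rw [Prod.mk.injEq]
    refine ⟨rfl, ?_⟩
    conv_rhs => rw [e3]
    rw [Int.add_mul_emod_self_left]

end

end Pool.Agent.Jac
end

-- part Pool.Agent.P.MP_45ff98_nt.JI2
section

/-! Large subsets of a small universe. -/

namespace Pool.Agent.Jac
open Finset

noncomputable section

theorem JI2_bonf {α β : Type} [DecidableEq α] (G : β → Finset α) (s t : ℝ) (ht : 0 ≤ t)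
    (K : Finset β) (hG : ∀ n ∈ K, s ≤ ((G n).card : ℝ))
    (hf : ∀ n ∈ K, ∀ c ∈ K, n ≠ c → ((G n ∩ G c).card : ℝ) ≤ t) :
    (K.card : ℝ) * s - (K.card : ℝ) ^ 2 / 2 * t ≤ ((K.biUnion G).card : ℝ) := by
  classical
  induction K using Finset.induction_on with
  | empty => simp
  | insert a K ha ih =>
    have ih' := ih (fun n hn => hG n (mem_insert_of_mem hn))
      (fun n hn c hc => hf n (mem_insert_of_mem hn) c (mem_insert_of_mem hc))
    rw [biUnion_insert, card_insert_of_notMem ha]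
    have h1 : ((G a ∪ K.biUnion G).card : ℝ) + ((G a ∩ K.biUnion G).card : ℝ)
        = (G a).card + ((K.biUnion G).card : ℝ) := by
      exact_mod_cast card_union_add_card_inter (G a) (K.biUnion G)
    have h2 : ((G a ∩ K.biUnion G).card : ℝ) ≤ (K.card : ℝ) * t := by
      have h3 : G a ∩ K.biUnion G ⊆ K.biUnion fun c => G a ∩ G c := by
        intro x hx
        obtain ⟨h4, h5⟩ := mem_inter.1 hx
        obtain ⟨c, hc, h6⟩ := mem_biUnion.1 h5
        exact mem_biUnion.2 ⟨c, hc, mem_inter.2 ⟨h4, h6⟩⟩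
      have h4 : ((G a ∩ K.biUnion G).card : ℝ) ≤ ∑ c ∈ K, ((G a ∩ G c).card : ℝ) := by
        exact_mod_cast (card_le_card h3).trans card_biUnion_le
      refine h4.trans ?_
      have h5 := sum_le_card_nsmul K (fun c => ((G a ∩ G c).card : ℝ)) t fun c hc =>
        hf a (mem_insert_self _ _) c (mem_insert_of_mem hc) fun e => ha (e ▸ hc)
      rwa [nsmul_eq_mul] at h5
    have h6 := hG a (mem_insert_self _ _)
    push_cast
    nlinarith

theorem count_far {α β : Type} [DecidableEq α] (J : Finset β) (G : β → Finset α) (U : Finset α)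
    (s u : ℝ) (hs : 0 < s) (hU : (U.card : ℝ) ≤ u) (hG : ∀ n ∈ J, G n ⊆ U ∧ s ≤ (G n).card)
    (hf : ∀ n ∈ J, ∀ c ∈ J, n ≠ c → ((G n ∩ G c).card : ℝ) < s ^ 2 / (5 * u)) :
    (J.card : ℝ) ≤ 3 * u / s := by
  have hu0 : 0 ≤ u := (Nat.cast_nonneg _).trans hU
  by_contra hc
  push Not at hc
  have hJ : J.Nonempty := by
    rw [← card_pos]
    have : (0 : ℝ) < J.card := lt_of_le_of_lt (by positivity) hc
    exact_mod_cast this
  obtain ⟨n0, hn0⟩ := hJ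
  have hsu : s ≤ u := (hG n0 hn0).2.trans
    ((Nat.cast_le.2 (card_le_card (hG n0 hn0).1)).trans hU)
  have hu : 0 < u := hs.trans_le hsu
  obtain ⟨m, hm⟩ : ∃ m : ℕ, m = ⌊3 * u / s⌋₊ := ⟨_, rfl⟩
  have m1 : (m : ℝ) ≤ 3 * u / s := hm ▸ Nat.floor_le (by positivity)
  have m2 : 3 * u / s < m + 1 := hm ▸ Nat.lt_floor_add_one _
  have m3 : m ≤ J.card := by exact_mod_cast (m1.trans hc.le)
  obtain ⟨K, hK, hKc⟩ := exists_subset_card_eq m3
  have hb := JI2_bonf G s (s ^ 2 / (5 * u)) (by positivity) K (fun n hn => (hG n (hK hn)).2)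
    fun n hn c hc' h => (hf n (hK hn) c (hK hc') h).le
  have hsub : K.biUnion G ⊆ U := biUnion_subset.2 fun n hn => (hG n (hK hn)).1
  have hle : ((K.biUnion G).card : ℝ) ≤ u := (Nat.cast_le.2 (card_le_card hsub)).trans hU
  rw [hKc] at hb
  rw [le_div_iff₀ hs] at m1
  rw [div_lt_iff₀ hs] at m2
  have e1 : (m : ℝ) ^ 2 / 2 * (s ^ 2 / (5 * u)) = (m * s) * (m * s) / (10 * u) := by
    field_simp
    ring
  have e2 : (m * s) * (m * s) / (10 * u) ≤ (m * s) * (3 / 10) := by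
    rw [div_le_iff₀ (by positivity)]
    have : (0 : ℝ) ≤ m * s := by positivity
    nlinarith
  nlinarith

theorem cover {α β : Type} [DecidableEq α] (J : Finset β) (G : β → Finset α) (U : Finset α)
    (s u : ℝ) (hs : 0 < s) (hU : (U.card : ℝ) ≤ u) (hG : ∀ n ∈ J, G n ⊆ U ∧ s ≤ (G n).card) :
    ∃ C ⊆ J, (C.card : ℝ) ≤ 3 * u / s ∧
      ∀ n ∈ J, ∃ c ∈ C, s ^ 2 / (5 * u) ≤ ((G n ∩ G c).card : ℝ) := by
  classical
  obtain ⟨C, hC, hmax⟩ := exists_max_image (J.powerset.filter fun C => ∀ n ∈ C, ∀ c ∈ C, n ≠ c →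
    ((G n ∩ G c).card : ℝ) < s ^ 2 / (5 * u)) card ⟨∅, by simp⟩
  obtain ⟨hC1, hC2⟩ := mem_filter.1 hC
  have hCJ : C ⊆ J := mem_powerset.1 hC1
  refine ⟨C, hCJ, count_far C G U s u hs hU (fun n hn => hG n (hCJ hn)) hC2, fun n hn => ?_⟩
  by_cases hnC : n ∈ C
  · refine ⟨n, hnC, ?_⟩
    rw [inter_self]
    have hsu : s ≤ u := (hG n hn).2.trans ((Nat.cast_le.2 (card_le_card (hG n hn).1)).trans hU)
    have hu : 0 < u := hs.trans_le hsu
    refine le_trans ?_ (hG n hn).2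
    rw [div_le_iff₀ (by positivity)]
    nlinarith
  · by_contra hcon
    push Not at hcon
    have h1 : insert n C ∈ J.powerset.filter fun C => ∀ n ∈ C, ∀ c ∈ C, n ≠ c →
        ((G n ∩ G c).card : ℝ) < s ^ 2 / (5 * u) := by
      refine mem_filter.2 ⟨mem_powerset.2 (insert_subset hn hCJ), fun a ha c hc hac => ?_⟩
      rcases mem_insert.1 ha with rfl | ha' <;> rcases mem_insert.1 hc with rfl | hc'
      · exact absurd rfl hac
      · exact hcon c hc'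
      · rw [inter_comm]
        exact hcon a ha'
      · exact hC2 a ha' c hc' hac
    have h2 := hmax _ h1
    rw [card_insert_of_notMem hnC] at h2
    omega

end

end Pool.Agent.Jac
end

-- part Pool.Agent.P.MP_45ff98_nt.JI3
section

/-! Collinear points and reduced fractions. -/

namespace Pool.Agent.Jac
open Finset

noncomputable section

theorem ji3_cong {A : Finset ℕ} {f : ℕ → ℤ} {m y : ℤ} {n0 : ℕ} (hm : 0 < m) (hA : n0 < A.card)
    (hi : Set.InjOn f A) (hb : ∀ n ∈ A, 0 ≤ f n ∧ f n ≤ y)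
    (hd : ∀ n ∈ A, ∀ n' ∈ A, m ∣ f n' - f n) : m * n0 ≤ y := by
  have h1 : A.card ≤ (Icc (0 : ℤ) (y / m)).card := by
    refine card_le_card_of_injOn (fun n => f n / m) (fun n hn => ?_) fun n hn n' hn' e => ?_
    · exact mem_coe.2 (mem_Icc.2 ⟨Int.ediv_nonneg (hb n hn).1 hm.le,
        Int.ediv_le_ediv hm (hb n hn).2⟩)
    · have e1 : f n % m = f n' % m := Int.modEq_iff_dvd.2 (hd n hn n' hn')
      have e2 : f n / m = f n' / m := e
      refine hi hn hn' ?_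
      rw [← Int.mul_ediv_add_emod (f n) m, e1, e2, Int.mul_ediv_add_emod]
  rw [Int.card_Icc] at h1
  rw [mul_comm, ← Int.le_ediv_iff_mul_le hm]
  omega

theorem ji3_dir {a : ℤ} (ha : a ≠ 0) (b : ℤ) :
    ∃ D V u : ℤ, D ≠ 0 ∧ 0 < V ∧ IsCoprime V u ∧ a = D * V ∧ b = -(D * u) := by
  obtain ⟨d, a', b', hd, h1, h2, h3⟩ := Int.exists_gcd_one' (Int.gcd_pos_of_ne_zero_left b ha)
  have hc := Int.isCoprime_iff_gcd_eq_one.2 h1
  have hd' : (d : ℤ) ≠ 0 := by exact_mod_cast hd.ne'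
  have ha' : a' ≠ 0 := fun h => ha (by rw [h2, h, zero_mul])
  rcases lt_or_gt_of_ne ha' with h | h
  · exact ⟨-d, -a', b', neg_ne_zero.2 hd', neg_pos.2 h, hc.neg_left, by rw [h2]; ring,
      by rw [h3]; ring⟩
  · exact ⟨d, a', -b', hd', h, hc.neg_right, by rw [h2]; ring, by rw [h3]; ring⟩

theorem ji3_rem (N : ℤ) {n y : ℕ} (h1 : 1 ≤ n) (h2 : n ≤ y) : 0 ≤ N % n ∧ N % n ≤ y := by
  have h0 : (0 : ℤ) < n := by exact_mod_cast h1
  have := Int.emod_lt_of_pos N h0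
  exact ⟨Int.emod_nonneg N h0.ne', by omega⟩

theorem line (N : ℤ) (y L : ℕ) (hy : y ≤ 2 ^ L) (c c' : ℕ) (hc : 1 ≤ c ∧ c ≤ y)
    (hc' : 1 ≤ c' ∧ c' ≤ y) (hne : c ≠ c') :
    ∃ (v g : ℕ) (u R : ℤ), 1 ≤ v ∧ 1 ≤ g ∧ IsCoprime (v : ℤ) R ∧
      (∀ n : ℕ, 1 ≤ n → n ≤ y → ∀ S : Finset ℕ, 2 * L + 2 ≤ S.card →
        (∀ p ∈ S, p.Prime ∧ N / n % p = N / c % p ∧ N / n % p = N / c' % p) →
        g * v * (N % n) + u * n = g * R) ∧
      (∀ S : Finset ℕ, (∀ p ∈ S, p.Prime ∧ N / c % p = N / c' % p) →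
        S.card ≤ (S.filter (fun p : ℕ => (p : ℤ) ∣ v * N - R)).card + 2 * L) ∧
      (∀ n : ℕ, g * v * (N % n) + u * n = g * R → (n : ℤ) ∣ g * (v * N - R)) ∧
      (∀ (A : Finset ℕ) (n0 : ℕ), n0 < A.card →
        (∀ n ∈ A, 1 ≤ n ∧ n ≤ y ∧ g * v * (N % n) + u * n = g * R) →
        v * g * n0 ≤ y ∧ |R| * n0 ≤ 2 * (y : ℤ) ^ 2) := by
  obtain ⟨D, V, u, hD, hV, hVu, ha, hb⟩ := ji3_dir (a := (c' : ℤ) - c) (by omega) (N % c' - N % c)
  obtain ⟨g, v', R, hg, h1, h2, h3⟩ :=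
    Int.exists_gcd_one' (Int.gcd_pos_of_ne_zero_left (V * (N % c) + u * c) hV.ne')
  have hg' : (0 : ℤ) < g := by exact_mod_cast hg
  have hv' : 0 < v' := (mul_pos_iff_of_pos_right hg').1 (h2 ▸ hV)
  obtain ⟨v, rfl⟩ := Int.eq_ofNat_of_zero_le hv'.le
  have hy' : (y : ℤ) ≤ 2 ^ L := by exact_mod_cast hy
  have hy0 : (0 : ℤ) ≤ y := by positivity
  have hyy : (y : ℤ) * y ≤ 2 ^ (2 * L) := by
    rw [two_mul, pow_add]; exact mul_le_mul hy' hy' hy0 (by positivity)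
  have r1 := ji3_rem N hc.1 hc.2
  have r2 := ji3_rem N hc'.1 hc'.2
  have e1 := Int.mul_ediv_add_emod N c
  have e2 := Int.mul_ediv_add_emod N c'
  have ba : |(c' : ℤ) - c| ≤ y := abs_le.2 ⟨by omega, by omega⟩
  refine ⟨v, g, u, R, by exact_mod_cast hv', hg, Int.isCoprime_iff_gcd_eq_one.2 h1,
    fun n n1 n2 S hS h => ?_, fun S h => ?_, fun n h => ?_, fun A n0 hA h => ?_⟩
  · have r3 := ji3_rem N n1 n2
    have e3 := Int.mul_ediv_add_emod N n
    by_contra hn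
    have e : (c' - c) * (N % n - N % c) - (N % c' - N % c) * (n - c) =
        D * (g * v * (N % n) + u * n - g * R) := by
      rw [ha, hb]; linear_combination D * (N % n) * h2 - D * h3
    have := card_primes_dvd S ((c' - c) * (N % n - N % c) - (N % c' - N % c) * (n - c))
      (2 * L + 1) (e ▸ mul_ne_zero hD (sub_ne_zero.2 hn)) ?_ fun p hp => ⟨(h p hp).1, ?_⟩
    · omega
    · have b1 : |N % n - N % c| ≤ y := abs_le.2 ⟨by omega, by omega⟩
      have b2 : |N % c' - N % c| ≤ y := abs_le.2 ⟨by omega, by omega⟩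
      have b3 : |(n : ℤ) - c| ≤ y := abs_le.2 ⟨by omega, by omega⟩
      refine (abs_sub _ _).trans ?_
      rw [abs_mul, abs_mul, pow_succ]
      linarith [mul_le_mul ba b1 (abs_nonneg _) hy0, mul_le_mul b2 b3 (abs_nonneg _) hy0]
    · obtain ⟨k, hk⟩ := Int.modEq_iff_dvd.1 (h p hp).2.1
      obtain ⟨k', hk'⟩ := Int.modEq_iff_dvd.1 (h p hp).2.2
      exact ⟨(c' - c) * c * k - (c * k - c' * k') * (n - c), by
        linear_combination (c' - c) * (e3 - e1) - (n - c) * (e2 - e1) +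
          ((c' - c) * c - c * (n - c)) * hk + c' * (n - c) * hk'⟩
  · have b1 : |D * g| ≤ 2 ^ (2 * L) := by
      rw [ha, abs_mul, abs_of_pos hV] at ba
      have b2 : (g : ℤ) ≤ V := by rw [h2]; nlinarith
      have b3 : 1 ≤ |D| := Int.one_le_abs hD
      rw [abs_mul, abs_of_pos hg']
      nlinarith
    have b4 := card_primes_dvd (S.filter fun p : ℕ => ¬ (p : ℤ) ∣ v * N - R) (D * g) (2 * L)
      (mul_ne_zero hD hg'.ne') b1 fun p hp => by
        obtain ⟨hp1, hp2⟩ := mem_filter.1 hp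
        obtain ⟨k, hk⟩ := Int.modEq_iff_dvd.1 (h p hp1).2
        refine ⟨(h p hp1).1, ((Nat.prime_iff_prime_int.1 (h p hp1).1).dvd_or_dvd
          (b := v * N - R) ⟨-(c * c' * k), ?_⟩).resolve_right hp2⟩
        linear_combination (-D * N) * h2 + D * h3 - (D * V) * e1 - (c * (N / c)) * ha - c * hb +
          c * (e2 - e1) - c * c' * hk
    rw [← card_filter_add_card_filter_not (s := S) fun p : ℕ => (p : ℤ) ∣ v * N - R]
    omega
  · exact ⟨g * v * (N / n) - u, by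
      linear_combination h - g * v * Int.mul_ediv_add_emod N n⟩
  · have k : ∀ n ∈ A, ∀ n' ∈ A, V * (N % n' - N % n) = -(u * (n' - n)) := fun n hn n' hn' => by
      linear_combination (h n' hn').2.2 - (h n hn).2.2 + (N % n' - N % n) * h2
    have a1 : V * n0 ≤ y := ji3_cong (f := fun n => (n : ℤ)) hV hA Nat.cast_injective.injOn
      (fun n hn => ⟨by positivity, by exact_mod_cast (h n hn).2.1⟩) fun n hn n' hn' =>
        hVu.dvd_of_dvd_mul_left (dvd_neg.1 ⟨_, (k n hn n' hn').symm⟩)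
    have a2 : |u| * n0 ≤ y := by
      by_cases hu : u = 0
      · simp [hu]
      refine ji3_cong (f := fun n => N % n) (abs_pos.2 hu) hA (fun n hn n' hn' e => ?_)
        (fun n hn => ji3_rem N (h n hn).1 (h n hn).2.1) fun n hn n' hn' => (abs_dvd _ _).2
          (hVu.symm.dvd_of_dvd_mul_left ⟨-(n' - n), by rw [k n hn n' hn']; ring⟩)
      have := k n hn n' hn'
      rw [show N % n = N % n' from e, sub_self, mul_zero, eq_comm, neg_eq_zero, mul_eq_zero,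
        or_iff_right hu] at this
      omega
    refine ⟨by rw [h2] at a1; exact_mod_cast a1, ?_⟩
    obtain ⟨n, hn⟩ := card_pos.1 (Nat.zero_lt_of_lt hA)
    obtain ⟨n1, n2, n3⟩ := h n hn
    have r3 := ji3_rem N n1 n2
    have n2' : (n : ℤ) ≤ y := by exact_mod_cast n2
    have a3 : |R| ≤ V * y + |u| * y := by
      have a4 : |R| ≤ |g * R| := by
        rw [abs_mul, abs_of_pos hg']; exact le_mul_of_one_le_left (abs_nonneg _) hg'
      rw [← n3, mul_comm (g : ℤ), ← h2] at a4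
      refine a4.trans ((abs_add_le _ _).trans (add_le_add ?_ ?_))
      · rw [abs_of_nonneg (mul_nonneg hV.le r3.1)]; exact mul_le_mul_of_nonneg_left r3.2 hV.le
      · rw [abs_mul, Nat.abs_cast]; exact mul_le_mul_of_nonneg_left n2' (abs_nonneg _)
    nlinarith [mul_le_mul_of_nonneg_right a3 (Int.natCast_nonneg n0),
      mul_le_mul_of_nonneg_right a1 hy0, mul_le_mul_of_nonneg_right a2 hy0]

theorem frac_share (N : ℤ) (y L : ℕ) (hy : y ≤ 2 ^ L) (hL : 1 ≤ L) (s s' : ℕ × ℤ) (hne : s ≠ s')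
    (h : Fr y s) (h' : Fr y s') (S : Finset ℕ)
    (hS : ∀ p ∈ S, p.Prime ∧ (p : ℤ) ∣ nf N s ∧ (p : ℤ) ∣ nf N s') : S.card ≤ 5 * L := by
  obtain ⟨v, R⟩ := s
  obtain ⟨v', R'⟩ := s'
  obtain ⟨a1, a2, a3, a4⟩ := h
  obtain ⟨b1, b2, b3, b4⟩ := h'
  simp only [nf] at *
  refine (card_primes_dvd S (v * R' - v' * R) (3 * L + 2) (fun e => hne ?_) ?_
    fun p hp => ⟨(hS p hp).1, ?_⟩).trans (by omega)
  · have e1 : (v : ℤ) ∣ v' := a4.dvd_of_dvd_mul_right ⟨R', by linear_combination -e⟩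
    have e2 : (v' : ℤ) ∣ v := b4.dvd_of_dvd_mul_right ⟨R, by linear_combination e⟩
    obtain rfl : v = v' := Nat.dvd_antisymm (by exact_mod_cast e1) (by exact_mod_cast e2)
    have hv : (v : ℤ) ≠ 0 := by omega
    rw [mul_left_cancel₀ hv (sub_eq_zero.1 e)]
  · have hy' : (y : ℤ) ≤ 2 ^ L := by exact_mod_cast hy
    have c1 := pow_le_pow_left₀ (Int.natCast_nonneg y) hy' 3
    have c2 : (v : ℤ) ≤ y := by exact_mod_cast a2
    have c3 : (v' : ℤ) ≤ y := by exact_mod_cast b2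
    refine (abs_sub _ _).trans ?_
    rw [abs_mul, abs_mul, Nat.abs_cast, Nat.abs_cast, pow_add, mul_comm 3, pow_mul]
    linarith [mul_le_mul c2 b3 (abs_nonneg _) (Int.natCast_nonneg y),
      mul_le_mul c3 a3 (abs_nonneg _) (Int.natCast_nonneg y)]
  · have := dvd_sub ((hS p hp).2.1.mul_left v') ((hS p hp).2.2.mul_left v)
    rwa [show (v' : ℤ) * (v * N - R) - v * (v' * N - R') = v * R' - v' * R by ring] at this

end

end Pool.Agent.Jac
end

-- part Pool.Agent.P.MP_45ff98_nt.JI4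
section

/-! The inverse theorem for one class. -/

namespace Pool.Agent.Jac
open Finset

noncomputable section

/-- The graph of the residue map over a set of primes. -/
def JI4_gr (N : ℤ) (G : ℕ → Finset ℕ) (n : ℕ) : Finset (ℕ × ℤ) :=
  (G n).image (fun p : ℕ => (p, N / n % p))

theorem JI4_mem {N : ℤ} {G : ℕ → Finset ℕ} {n : ℕ} {x : ℕ × ℤ} :
    x ∈ JI4_gr N G n ↔ x.1 ∈ G n ∧ x.2 = N / n % x.1 := by
  unfold JI4_gr
  rw [mem_image]
  constructor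
  · rintro ⟨p, hp, rfl⟩
    exact ⟨hp, rfl⟩
  · rintro ⟨h1, h2⟩
    exact ⟨x.1, h1, by rw [← h2]⟩

theorem JI4_card (N : ℤ) (G : ℕ → Finset ℕ) (n : ℕ) : (JI4_gr N G n).card = (G n).card :=
  card_image_of_injective _ fun _ _ h => congrArg Prod.fst h

theorem JI4_fst {N : ℤ} {G : ℕ → Finset ℕ} {n : ℕ} {T : Finset (ℕ × ℤ)}
    (h : T ⊆ JI4_gr N G n) : (T.image Prod.fst).card = T.card := by
  refine card_image_of_injOn fun x hx z hz e => ?_
  have h1 := (JI4_mem.1 (h hx)).2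
  have h2 := (JI4_mem.1 (h hz)).2
  refine Prod.ext e ?_
  rw [h1, h2, e]

/-- Two rounds of covering. -/
theorem JI4_two {α : Type} [DecidableEq α] (J : Finset ℕ) (G : ℕ → Finset α) (U : Finset α)
    (s u P : ℝ) (hs : 0 < s) (hu : 0 < u) (hU : (U.card : ℝ) ≤ u)
    (hG : ∀ n ∈ J, G n ⊆ U ∧ s ≤ (G n).card ∧ ((G n).card : ℝ) ≤ P) :
    ∃ (C : Finset ℕ) (C' : ℕ → Finset ℕ), C ⊆ J ∧ (C.card : ℝ) ≤ 3 * u / s ∧
      (∀ c ∈ C, C' c ⊆ J ∧ ((C' c).card : ℝ) ≤ 3 * P / (s ^ 2 / (5 * u))) ∧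
      ∀ n ∈ J, n ∉ C → ∃ c ∈ C, ∃ c' ∈ C' c, c ≠ c' ∧
        s ^ 2 / (5 * u) ≤ ((G c' ∩ G c).card : ℝ) ∧
        (s ^ 2 / (5 * u)) ^ 2 / (5 * P) ≤ (((G n ∩ G c) ∩ (G c' ∩ G c)).card : ℝ) := by
  classical
  obtain ⟨C, hCJ, hC, hcov⟩ := cover J G U s u hs hU fun n hn => ⟨(hG n hn).1, (hG n hn).2.1⟩
  have hs1 : 0 < s ^ 2 / (5 * u) := by positivity
  have h2 : ∀ c : ℕ, ∃ C' : Finset ℕ, c ∈ J →
      C' ⊆ J.filter (fun n => n ≠ c ∧ s ^ 2 / (5 * u) ≤ ((G n ∩ G c).card : ℝ)) ∧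
      (C'.card : ℝ) ≤ 3 * P / (s ^ 2 / (5 * u)) ∧
      ∀ n ∈ J.filter (fun n => n ≠ c ∧ s ^ 2 / (5 * u) ≤ ((G n ∩ G c).card : ℝ)), ∃ c' ∈ C',
        (s ^ 2 / (5 * u)) ^ 2 / (5 * P) ≤ (((G n ∩ G c) ∩ (G c' ∩ G c)).card : ℝ) := by
    intro c
    by_cases hc : c ∈ J
    · obtain ⟨C', h1, h2, h3⟩ := cover
        (J.filter (fun n => n ≠ c ∧ s ^ 2 / (5 * u) ≤ ((G n ∩ G c).card : ℝ)))
        (fun n => G n ∩ G c) (G c) (s ^ 2 / (5 * u)) P hs1 (hG c hc).2.2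
        fun n hn => ⟨inter_subset_right, (mem_filter.1 hn).2.2⟩
      exact ⟨C', fun _ => ⟨h1, h2, h3⟩⟩
    · exact ⟨∅, fun h => absurd h hc⟩
  choose C' hC' using h2
  refine ⟨C, C', hCJ, hC, fun c hc => ⟨(hC' c (hCJ hc)).1.trans (filter_subset _ _),
    (hC' c (hCJ hc)).2.1⟩, fun n hn hnC => ?_⟩
  obtain ⟨c, hc, hnc⟩ := hcov n hn
  have hne : n ≠ c := fun e => hnC (e ▸ hc)
  obtain ⟨c', hc', h3⟩ := (hC' c (hCJ hc)).2.2 n (mem_filter.2 ⟨hn, hne, hnc⟩)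
  have h4 := (mem_filter.1 ((hC' c (hCJ hc)).1 hc')).2
  exact ⟨c, hc, c', hc', h4.1.symm, h4.2, h3⟩

/-- Data of the line through two points. -/
def JI4_Ln (N : ℤ) (y L c c' v g : ℕ) (u R : ℤ) : Prop :=
  1 ≤ v ∧ 1 ≤ g ∧ IsCoprime (v : ℤ) R ∧
    (∀ n : ℕ, 1 ≤ n → n ≤ y → ∀ S : Finset ℕ, 2 * L + 2 ≤ S.card →
      (∀ p ∈ S, p.Prime ∧ N / n % p = N / c % p ∧ N / n % p = N / c' % p) →
      g * v * (N % n) + u * n = g * R) ∧
    (∀ S : Finset ℕ, (∀ p ∈ S, p.Prime ∧ N / c % p = N / c' % p) →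
      S.card ≤ (S.filter (fun p : ℕ => (p : ℤ) ∣ v * N - R)).card + 2 * L) ∧
    (∀ n : ℕ, g * v * (N % n) + u * n = g * R → (n : ℤ) ∣ g * (v * N - R)) ∧
    (∀ (A : Finset ℕ) (n0 : ℕ), n0 < A.card →
      (∀ n ∈ A, 1 ≤ n ∧ n ≤ y ∧ g * v * (N % n) + u * n = g * R) →
      v * g * n0 ≤ y ∧ |R| * n0 ≤ 2 * (y : ℤ) ^ 2)

theorem JI4_lines (N : ℤ) (y L : ℕ) (hy : y ≤ 2 ^ L) :
    ∃ (v g : ℕ → ℕ → ℕ) (u R : ℕ → ℕ → ℤ), ∀ c c' : ℕ, (1 ≤ c ∧ c ≤ y) → (1 ≤ c' ∧ c' ≤ y) →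
      c ≠ c' → JI4_Ln N y L c c' (v c c') (g c c') (u c c') (R c c') := by
  have h : ∀ c c' : ℕ, ∃ (v g : ℕ) (u R : ℤ), (1 ≤ c ∧ c ≤ y) → (1 ≤ c' ∧ c' ≤ y) →
      c ≠ c' → JI4_Ln N y L c c' v g u R := by
    intro c c'
    by_cases hc : (1 ≤ c ∧ c ≤ y) ∧ (1 ≤ c' ∧ c' ≤ y) ∧ c ≠ c'
    · obtain ⟨v, g, u, R, h⟩ := line N y L hy c c' hc.1 hc.2.1 hc.2.2
      exact ⟨v, g, u, R, fun _ _ _ => h⟩
    · exact ⟨0, 0, 0, 0, fun h1 h2 h3 => absurd ⟨h1, h2, h3⟩ hc⟩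
  choose v g u R h using h
  exact ⟨v, g, u, R, h⟩

theorem JI4_num1 (L c P : ℝ) (hL : 1 ≤ L) (h0 : 0 < c) (hP0 : 0 < P)
    (hP : 18000 * L ^ 3 ≤ c ^ 8 * P) :
    2 * L + 2 ≤ (c ^ 4 * P / (30 * L)) ^ 2 / (5 * P) := by
  have e : (c ^ 4 * P / (30 * L)) ^ 2 / (5 * P) = c ^ 8 * P / (4500 * L ^ 2) := by
    field_simp
    ring
  rw [e, le_div_iff₀ (by positivity)]
  have : 0 ≤ L ^ 2 * (L - 1) := mul_nonneg (by positivity) (by linarith)
  nlinarith

theorem JI4_num2 (L c P : ℝ) (hL : 1 ≤ L) (h0 : 0 < c) (h1 : c ≤ 1) (hP0 : 0 < P)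
    (hP : 18000 * L ^ 3 ≤ c ^ 8 * P) :
    c ^ 4 * P / (60 * L) + 2 * L ≤ c ^ 4 * P / (30 * L) := by
  have h2 : c ^ 8 ≤ c ^ 4 := pow_le_pow_of_le_one h0.le h1 (by norm_num)
  have h3 : c ^ 8 * P ≤ c ^ 4 * P := mul_le_mul_of_nonneg_right h2 hP0.le
  have h4 : 2 * L ≤ c ^ 4 * P / (60 * L) := by
    rw [le_div_iff₀ (by positivity)]
    have : 0 ≤ L ^ 2 * (L - 1) := mul_nonneg (by positivity) (by linarith)
    nlinarith [sq_nonneg L]
  have e : c ^ 4 * P / (30 * L) = c ^ 4 * P / (60 * L) + c ^ 4 * P / (60 * L) := by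
    field_simp
    ring
  rw [e]
  linarith

theorem JI4_num3 (L c n : ℝ) (hL : 1 ≤ L) (h0 : 0 < c) (h1 : c ≤ 1) (hn : 1 ≤ n) :
    18 * L / c ^ 3 + 18 * L / c ^ 3 * (90 * L / c ^ 4 * n) ≤ 1700 * L ^ 2 / c ^ 7 * n := by
  have h2 : c ^ 4 ≤ 1 := pow_le_one₀ h0.le h1
  have e1 : 18 * L / c ^ 3 = 18 * L * c ^ 4 / c ^ 7 := by field_simp
  have e2 : 18 * L / c ^ 3 * (90 * L / c ^ 4 * n) = 1620 * L ^ 2 * n / c ^ 7 := by
    field_simp
    ring
  have e3 : 1700 * L ^ 2 / c ^ 7 * n = 1700 * L ^ 2 * n / c ^ 7 := by ring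
  rw [e2, e3, e1, ← add_div]
  refine div_le_div_of_nonneg_right ?_ (by positivity)
  have h3 : L * c ^ 4 ≤ L := by nlinarith
  have h4 : L ≤ L ^ 2 := by nlinarith
  have h5 : L ^ 2 ≤ L ^ 2 * n := by nlinarith [sq_nonneg L]
  nlinarith [sq_nonneg L]

theorem inv_class (N : ℤ) (y L k n0 : ℕ) (c2 : ℝ) (J : Finset ℕ) (G : ℕ → Finset ℕ)
    (U : Finset (ℕ × ℤ)) (hy : y ≤ 2 ^ L) (hL : 1 ≤ L) (h0 : 0 < c2) (h1 : c2 ≤ 1) (hn : 1 ≤ n0)
    (hP : 18000 * (L : ℝ) ^ 3 ≤ c2 ^ 8 * 2 ^ (k - 1))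
    (hU : (U.card : ℝ) ≤ 6 * L * 2 ^ (k - 1) / c2 ^ 2)
    (hJ : ∀ n ∈ J, 1 ≤ n ∧ n ≤ y ∧ G n ⊆ Box k ∧ c2 * 2 ^ (k - 1) ≤ ((G n).card : ℝ) ∧
      ∀ p ∈ G n, (p, N / n % p) ∈ U) :
    ∃ Y : Finset ℕ, (Y.card : ℝ) ≤ 1700 * (L : ℝ) ^ 2 / c2 ^ 7 * n0 ∧ ∀ n ∈ J, n ∉ Y →
      ∃ (s : ℕ × ℤ) (g : ℕ), 1 ≤ s.1 ∧ 1 ≤ g ∧ s.1 * g * n0 ≤ y ∧ |s.2| * n0 ≤ 2 * (y : ℤ) ^ 2 ∧
        IsCoprime (s.1 : ℤ) s.2 ∧ (n : ℤ) ∣ g * nf N s ∧
        c2 ^ 4 * 2 ^ (k - 1) / (60 * L) ≤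
          (((Box k).filter (fun p : ℕ => (p : ℤ) ∣ nf N s)).card : ℝ) := by
  classical
  have hL' : (1 : ℝ) ≤ L := by exact_mod_cast hL
  have hn' : (1 : ℝ) ≤ n0 := by exact_mod_cast hn
  have hBox : ((Box k).card : ℝ) ≤ 2 ^ (k - 1) := by exact_mod_cast card_Box_le k
  have hP0 : (0 : ℝ) < 2 ^ (k - 1) := by positivity
  generalize (2 : ℝ) ^ (k - 1) = P at hP hU hJ hBox hP0 ⊢
  obtain ⟨C, C', hCJ, hC, hC', hcov⟩ := JI4_two J (JI4_gr N G) U (c2 * P) (6 * L * P / c2 ^ 2) P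
    (by positivity) (by positivity) hU fun n hn => by
      obtain ⟨-, -, h3, h4, h5⟩ := hJ n hn
      refine ⟨fun x hx => ?_, by rw [JI4_card]; exact h4, ?_⟩
      · obtain ⟨p, hp, rfl⟩ := mem_image.1 hx
        exact h5 p hp
      · rw [JI4_card]
        exact le_trans (by exact_mod_cast card_le_card h3) hBox
  have e1 : (c2 * P) ^ 2 / (5 * (6 * L * P / c2 ^ 2)) = c2 ^ 4 * P / (30 * L) := by
    field_simp
    ring
  have e2 : 3 * (6 * L * P / c2 ^ 2) / (c2 * P) = 18 * L / c2 ^ 3 := by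
    field_simp
    ring
  have e3 : 3 * P / (c2 ^ 4 * P / (30 * L)) = 90 * L / c2 ^ 4 := by
    field_simp
    ring
  rw [e1] at hC' hcov
  rw [e3] at hC'
  rw [e2] at hC
  obtain ⟨v, g, u, R, hln⟩ := JI4_lines N y L hy
  let A : ℕ → ℕ → Finset ℕ := fun c c' =>
    J.filter (fun n : ℕ => (g c c' : ℤ) * v c c' * (N % n) + u c c' * n = g c c' * R c c')
  let B : ℕ → ℕ → Finset ℕ := fun c c' => if (A c c').card ≤ n0 then A c c' else ∅
  have hB : ∀ c c', (B c c').card ≤ n0 := fun c c' => by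
    simp only [B]
    split_ifs with h
    · exact h
    · simp
  refine ⟨C ∪ C.biUnion (fun c => (C' c).biUnion (B c)), ?_, fun n hnJ hnY => ?_⟩
  · have h2 : ∀ c ∈ C, (((C' c).biUnion (B c)).card : ℝ) ≤ 90 * L / c2 ^ 4 * n0 := fun c hc => by
      have h3 : ((C' c).biUnion (B c)).card ≤ (C' c).card * n0 :=
        card_biUnion_le_card_mul _ _ _ fun c' _ => hB c c'
      have h4 : (((C' c).biUnion (B c)).card : ℝ) ≤ (C' c).card * n0 := by exact_mod_cast h3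
      exact h4.trans (mul_le_mul_of_nonneg_right (hC' c hc).2 (by positivity))
    have h3 : ((C.biUnion (fun c => (C' c).biUnion (B c))).card : ℝ) ≤
        C.card * (90 * L / c2 ^ 4 * n0) := by
      have h4 : ((C.biUnion (fun c => (C' c).biUnion (B c))).card : ℝ) ≤
          ∑ c ∈ C, (((C' c).biUnion (B c)).card : ℝ) := by exact_mod_cast card_biUnion_le
      refine h4.trans ((sum_le_card_nsmul _ _ _ h2).trans ?_)
      rw [nsmul_eq_mul]
    have h4 : ((C ∪ C.biUnion (fun c => (C' c).biUnion (B c))).card : ℝ) ≤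
        C.card + (C.biUnion (fun c => (C' c).biUnion (B c))).card := by
      exact_mod_cast card_union_le _ _
    have h5 : (C.card : ℝ) * (90 * L / c2 ^ 4 * n0) ≤ 18 * L / c2 ^ 3 * (90 * L / c2 ^ 4 * n0) :=
      mul_le_mul_of_nonneg_right hC (by positivity)
    have h6 := JI4_num3 L c2 n0 hL' h0 h1 hn'
    linarith
  · rw [mem_union, not_or] at hnY
    obtain ⟨c, hc, c', hc', hne, h2, h3⟩ := hcov n hnJ hnY.1
    have hcJ := hJ c (hCJ hc)
    have hcJ' := hJ c' ((hC' c hc).1 hc')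
    have hnJ' := hJ n hnJ
    obtain ⟨l1, l2, l3, l4, l5, l6, l7⟩ :=
      hln c c' ⟨hcJ.1, hcJ.2.1⟩ ⟨hcJ'.1, hcJ'.2.1⟩ hne
    have hon : (g c c' : ℤ) * v c c' * (N % n) + u c c' * n = g c c' * R c c' := by
      refine l4 n hnJ'.1 hnJ'.2.1 (((JI4_gr N G n ∩ JI4_gr N G c) ∩
        (JI4_gr N G c' ∩ JI4_gr N G c)).image Prod.fst) ?_ fun p hp => ?_
      · rw [JI4_fst (n := n) (inter_subset_left.trans inter_subset_left)]
        have h4 := (JI4_num1 L c2 P hL' h0 hP0 hP).trans h3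
        exact_mod_cast h4
      · obtain ⟨x, hx, rfl⟩ := mem_image.1 hp
        simp only [mem_inter, JI4_mem] at hx
        obtain ⟨⟨⟨x1, x2⟩, -, x3⟩, ⟨-, x4⟩, -⟩ := hx
        exact ⟨(mem_Box.1 (hnJ'.2.2.1 x1)).1, by rw [← x2, x3], by rw [← x2, x4]⟩
    have hnA : n ∈ A c c' := mem_filter.2 ⟨hnJ, hon⟩
    have hbig : n0 < (A c c').card := by
      by_contra hcon
      refine hnY.2 (mem_biUnion.2 ⟨c, hc, mem_biUnion.2 ⟨c', hc', ?_⟩⟩)
      simp only [B]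
      rw [if_pos (not_lt.1 hcon)]
      exact hnA
    obtain ⟨m1, m2⟩ := l7 (A c c') n0 hbig fun m hm =>
      ⟨(hJ m (mem_filter.1 hm).1).1, (hJ m (mem_filter.1 hm).1).2.1, (mem_filter.1 hm).2⟩
    refine ⟨(v c c', R c c'), g c c', l1, l2, m1, m2, l3, l6 n hon, ?_⟩
    have hS : ∀ p ∈ (JI4_gr N G c' ∩ JI4_gr N G c).image Prod.fst,
        p ∈ Box k ∧ N / c % p = N / c' % p := fun p hp => by
      obtain ⟨x, hx, rfl⟩ := mem_image.1 hp
      simp only [mem_inter, JI4_mem] at hx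
      obtain ⟨⟨x1, x2⟩, -, x3⟩ := hx
      exact ⟨hcJ'.2.2.1 x1, by rw [← x2, x3]⟩
    have h4 := l5 ((JI4_gr N G c' ∩ JI4_gr N G c).image Prod.fst) fun p hp =>
      ⟨(mem_Box.1 (hS p hp).1).1, (hS p hp).2⟩
    rw [JI4_fst (n := c') inter_subset_left] at h4
    have h5 : (((JI4_gr N G c' ∩ JI4_gr N G c).image Prod.fst).filter
        (fun p : ℕ => (p : ℤ) ∣ v c c' * N - R c c')).card ≤
        ((Box k).filter (fun p : ℕ => (p : ℤ) ∣ nf N (v c c', R c c'))).card :=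
      card_le_card fun p hp => mem_filter.2 ⟨(hS p (mem_filter.1 hp).1).1, (mem_filter.1 hp).2⟩
    have h6 : ((JI4_gr N G c' ∩ JI4_gr N G c).card : ℝ) ≤
        ((Box k).filter (fun p : ℕ => (p : ℤ) ∣ nf N (v c c', R c c'))).card + 2 * L := by
      exact_mod_cast h4.trans (Nat.add_le_add_right h5 _)
    have h7 := JI4_num2 L c2 P hL' h0 h1 hP0 hP
    linarith

end

end Pool.Agent.Jac
end

-- part Pool.Agent.P.MP_45ff98_nt.JI5
section

/-! The inverse theorem. -/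

namespace Pool.Agent.Jac
open Finset

noncomputable section

/-- many primes of the box divide the numerator -/
def ji5M (N : ℤ) (L k : ℕ) (c2 : ℝ) (s : ℕ × ℤ) : Prop :=
  c2 ^ 4 * 2 ^ (k - 1) / (60 * L) ≤ (((Box k).filter (fun p : ℕ => (p : ℤ) ∣ nf N s)).card : ℝ)

theorem ji5_fr (N : ℤ) (y L k : ℕ) (c2 : ℝ) (hy : y ≤ 2 ^ L) (hL : 1 ≤ L) (h0 : 0 < c2)
    (hP : 90000 * (L : ℝ) ^ 3 < c2 ^ 8 * 2 ^ (k - 1)) (S : Finset (ℕ × ℤ))
    (hS : ∀ s ∈ S, Fr y s ∧ ji5M N L k c2 s) : (S.card : ℝ) ≤ 180 * L / c2 ^ 4 := by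
  have hL' : (0 : ℝ) < L := by exact_mod_cast hL
  have hU : ((Box k).card : ℝ) ≤ 2 ^ (k - 1) := by exact_mod_cast card_Box_le k
  have hp : (0 : ℝ) < 2 ^ (k - 1) := by positivity
  unfold ji5M at hS
  generalize (2 : ℝ) ^ (k - 1) = P at hP hS hU hp
  have h := count_far S (fun s => (Box k).filter (fun p : ℕ => (p : ℤ) ∣ nf N s)) (Box k)
    (c2 ^ 4 * P / (60 * L)) P (by positivity) hU
    (fun s hs => ⟨filter_subset _ _, (hS s hs).2⟩) fun s hs s' hs' hne => by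
      have h1 := frac_share N y L hy hL s s' hne (hS s hs).1 (hS s' hs').1
        ((Box k).filter (fun p : ℕ => (p : ℤ) ∣ nf N s) ∩
          (Box k).filter (fun p : ℕ => (p : ℤ) ∣ nf N s')) fun p hp => by
          rw [mem_inter, mem_filter, mem_filter] at hp
          exact ⟨(mem_Box.1 hp.1.1).1, hp.1.2, hp.2.2⟩
      have h2 : (5 * L : ℝ) < (c2 ^ 4 * P / (60 * L)) ^ 2 / (5 * P) := by
        rw [show (c2 ^ 4 * P / (60 * L)) ^ 2 / (5 * P) = c2 ^ 8 * P / (18000 * L ^ 2) by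
          field_simp; ring, lt_div_iff₀ (by positivity)]
        linarith
      refine lt_of_le_of_lt ?_ h2
      exact_mod_cast h1
  refine h.trans (le_of_eq ?_)
  field_simp
  ring

/-- the conclusion for one integer -/
def ji5G (N : ℤ) (y L klo khi n0 : ℕ) (c2 : ℝ) (n : ℕ) : Prop :=
  ∃ (s : ℕ × ℤ) (g : ℕ), Fr y s ∧ |s.2| * n0 ≤ 2 * (y : ℤ) ^ 2 ∧ 1 ≤ g ∧ s.1 * g * n0 ≤ y ∧
    (n : ℤ) ∣ g * nf N s ∧ ∃ k ∈ Ico klo khi, ji5M N L k c2 s

theorem ji5_fib {ι : Type} (D : Dat2 ι) {Om c2 : ℝ} {y Yq klo khi L n0 : ℕ} (N : ℤ)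
    (h : D.Ok Om y Yq klo khi) (hy : y ≤ 2 ^ L) (hL : 1 ≤ L) (h0 : 0 < c2) (h1 : c2 ≤ 1)
    (hn : 1 ≤ n0) (hP : 90000 * (L : ℝ) ^ 3 < c2 ^ 8 * 2 ^ (klo - 1)) (κ : Cl) {i : ι}
    (hi : i ∈ D.I) (ρ : ℤ) (J : Finset ℕ)
    (hJ : ∀ n ∈ J, 1 ≤ n ∧ n ≤ y ∧ (N / n) % (D.Q i * D.Q1 i : ℕ) = ρ ∧
      c2 * 2 ^ (D.kb i - 1) ≤
        (((Box (D.kb i)).filter (fun p => c2 ≤ ‖D.F κ i p (N / n)‖)).card : ℝ)) :
    ∃ Y : Finset ℕ, (Y.card : ℝ) ≤ 1700 * (L : ℝ) ^ 2 / c2 ^ 7 * n0 ∧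
      ∀ n ∈ J, n ∉ Y → ji5G N y L klo khi n0 c2 n := by
  obtain ⟨U, hU, hU'⟩ := list_bound D h hy hL κ hi ρ c2 h0
  have hk := h.kb i hi
  have h2 : (2 : ℝ) ^ (klo - 1) ≤ 2 ^ (D.kb i - 1) :=
    pow_le_pow_right₀ one_le_two (Nat.sub_le_sub_right hk.1 1)
  have h3 : 18000 * (L : ℝ) ^ 3 ≤ c2 ^ 8 * 2 ^ (D.kb i - 1) := by
    have h4 := mul_le_mul_of_nonneg_left h2 (pow_pos h0 8).le
    have h5 : (0 : ℝ) ≤ (L : ℝ) ^ 3 := by positivity
    linarith
  obtain ⟨Y, hY, hY'⟩ := inv_class N y L (D.kb i) n0 c2 J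
    (fun n => (Box (D.kb i)).filter (fun p => c2 ≤ ‖D.F κ i p (N / n)‖)) U hy hL h0 h1 hn h3 hU
    fun n hn => ⟨(hJ n hn).1, (hJ n hn).2.1, filter_subset _ _, (hJ n hn).2.2.2, fun p hp =>
      hU' p (mem_filter.1 hp).1 _ (hJ n hn).2.2.1 (mem_filter.1 hp).2⟩
  refine ⟨Y, hY, fun n hnJ hnY => ?_⟩
  obtain ⟨s, g, g1, g2, g3, g4, g5, g6, g7⟩ := hY' n hnJ hnY
  refine ⟨s, g, ⟨g1, ?_, ?_, g5⟩, g4, g2, g3, g6, D.kb i, mem_Ico.2 hk, g7⟩
  · exact ((Nat.le_mul_of_pos_right _ g2).trans (Nat.le_mul_of_pos_right _ hn)).trans g3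
  · exact (le_mul_of_one_le_right (abs_nonneg _) (by exact_mod_cast hn)).trans g4

theorem ji5_Y {ι : Type} (D : Dat2 ι) {Om c2 : ℝ} {y Yq klo khi L n0 : ℕ} (N : ℤ)
    (h : D.Ok Om y Yq klo khi) (hy : y ≤ 2 ^ L) (hL : 1 ≤ L) (h0 : 0 < c2) (h1 : c2 ≤ 1)
    (hn : 1 ≤ n0) (hP : 90000 * (L : ℝ) ^ 3 < c2 ^ 8 * 2 ^ (klo - 1)) (J : Finset ℕ) (cl : ℕ → Cl)
    (Cs : Finset Cl)
    (hJ : ∀ n ∈ J, 1 ≤ n ∧ n ≤ y ∧ cl n ∈ Cs ∧ ∃ i ∈ D.I, c2 * 2 ^ (D.kb i - 1) ≤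
        (((Box (D.kb i)).filter (fun p => c2 ≤ ‖D.F (cl n) i p (N / n)‖)).card : ℝ)) :
    ∃ Y : Finset ℕ, (Y.card : ℝ) ≤ Cs.card * D.I.card * Yq * (1700 * (L : ℝ) ^ 2 / c2 ^ 7 * n0) ∧
      ∀ n ∈ J, n ∉ Y → ji5G N y L klo khi n0 c2 n := by
  classical
  have key : ∀ t : (Cl × ι) × ℕ, ∃ Y : Finset ℕ,
      (Y.card : ℝ) ≤ 1700 * (L : ℝ) ^ 2 / c2 ^ 7 * n0 ∧ (t.1.2 ∈ D.I → ∀ n ∈ J, cl n = t.1.1 →
        (N / n) % (D.Q t.1.2 * D.Q1 t.1.2 : ℕ) = (t.2 : ℤ) → c2 * 2 ^ (D.kb t.1.2 - 1) ≤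
          (((Box (D.kb t.1.2)).filter (fun p => c2 ≤ ‖D.F (cl n) t.1.2 p (N / n)‖)).card : ℝ) →
        n ∉ Y → ji5G N y L klo khi n0 c2 n) := by
    rintro ⟨⟨κ, i⟩, ρ⟩
    by_cases hi : i ∈ D.I
    · obtain ⟨Y, hY, hY'⟩ := ji5_fib D N h hy hL h0 h1 hn hP κ hi (ρ : ℤ)
        (J.filter fun n => (N / n) % (D.Q i * D.Q1 i : ℕ) = (ρ : ℤ) ∧ c2 * 2 ^ (D.kb i - 1) ≤
          (((Box (D.kb i)).filter (fun p => c2 ≤ ‖D.F κ i p (N / n)‖)).card : ℝ))
        fun n hn => by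
          obtain ⟨a, b⟩ := mem_filter.1 hn
          exact ⟨(hJ n a).1, (hJ n a).2.1, b⟩
      refine ⟨Y, hY, fun _ n hn e1 e2 e3 => hY' n (mem_filter.2 ⟨hn, e2, ?_⟩)⟩
      have e4 : cl n = κ := e1
      rw [← e4]
      exact e3
    · exact ⟨∅, by rw [card_empty, Nat.cast_zero]; positivity, fun hi' => absurd hi' hi⟩
  choose Y hY hY' using key
  refine ⟨((Cs ×ˢ D.I) ×ˢ range Yq).biUnion Y, ?_, fun n hn hnY => ?_⟩
  · calc ((((Cs ×ˢ D.I) ×ˢ range Yq).biUnion Y).card : ℝ)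
        ≤ ∑ t ∈ (Cs ×ˢ D.I) ×ˢ range Yq, ((Y t).card : ℝ) := by exact_mod_cast card_biUnion_le
      _ ≤ ∑ _t ∈ (Cs ×ˢ D.I) ×ˢ range Yq, 1700 * (L : ℝ) ^ 2 / c2 ^ 7 * n0 :=
        sum_le_sum fun t _ => hY t
      _ = _ := by
        rw [sum_const, card_product, card_product, card_range, nsmul_eq_mul, Nat.cast_mul,
          Nat.cast_mul]
  · obtain ⟨-, -, a1, i, hi, a2⟩ := hJ n hn
    obtain ⟨q1, q2, q3⟩ := h.Qb i hi
    have hq : (0 : ℤ) < (D.Q i * D.Q1 i : ℕ) := by exact_mod_cast Nat.mul_pos q1 q2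
    have b1 := Int.emod_nonneg (N / n) hq.ne'
    have b2 := Int.emod_lt_of_pos (N / n) hq
    refine hY' ((cl n, i), ((N / n) % (D.Q i * D.Q1 i : ℕ)).toNat) hi n hn rfl
      (Int.toNat_of_nonneg b1).symm a2 fun h' => hnY (mem_biUnion.2 ⟨_, ?_, h'⟩)
    refine mem_product.2 ⟨mem_product.2 ⟨a1, hi⟩, mem_range.2 ?_⟩
    exact lt_of_lt_of_le ((Int.toNat_lt b1).2 b2) q3

theorem ji5_S (N : ℤ) (y L klo khi n0 : ℕ) (c2 : ℝ) (hy : y ≤ 2 ^ L) (hL : 1 ≤ L) (h0 : 0 < c2)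
    (hP : 90000 * (L : ℝ) ^ 3 < c2 ^ 8 * 2 ^ (klo - 1)) :
    ∃ S : Finset (ℕ × ℤ), (S.card : ℝ) ≤ khi * (180 * L / c2 ^ 4) ∧
      (∀ s ∈ S, Fr y s ∧ |s.2| * n0 ≤ 2 * (y : ℤ) ^ 2) ∧
      ∀ s, Fr y s → |s.2| * n0 ≤ 2 * (y : ℤ) ^ 2 → (∃ k ∈ Ico klo khi, ji5M N L k c2 s) →
        s ∈ S := by
  classical
  refine ⟨(Ico klo khi).biUnion fun k =>
    (Icc 1 y ×ˢ Icc (-(2 * (y : ℤ) ^ 2)) (2 * (y : ℤ) ^ 2)).filter
      fun s => Fr y s ∧ |s.2| * n0 ≤ 2 * (y : ℤ) ^ 2 ∧ ji5M N L k c2 s, ?_, fun s hs => ?_, ?_⟩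
  · refine le_trans (b := ∑ _k ∈ Ico klo khi, 180 * (L : ℝ) / c2 ^ 4) ?_ ?_
    · refine le_trans ((Nat.cast_le.2 card_biUnion_le).trans_eq (Nat.cast_sum _ _))
        (sum_le_sum fun k hk => ?_)
      refine ji5_fr N y L k c2 hy hL h0 (hP.trans_le ?_) _ fun s hs =>
        ⟨(mem_filter.1 hs).2.1, (mem_filter.1 hs).2.2.2⟩
      exact mul_le_mul_of_nonneg_left
        (pow_le_pow_right₀ one_le_two (Nat.sub_le_sub_right (mem_Ico.1 hk).1 1)) (pow_pos h0 8).le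
    · rw [sum_const, Nat.card_Ico, nsmul_eq_mul]
      exact mul_le_mul_of_nonneg_right (by exact_mod_cast Nat.sub_le _ _) (by positivity)
  · obtain ⟨k, -, hk⟩ := mem_biUnion.1 hs
    exact ⟨(mem_filter.1 hk).2.1, (mem_filter.1 hk).2.2.1⟩
  · rintro s h1 h2 ⟨k, hk, h3⟩
    exact mem_biUnion.2 ⟨k, hk, mem_filter.2 ⟨mem_product.2
      ⟨mem_Icc.2 ⟨h1.1, h1.2.1⟩, mem_Icc.2 (abs_le.1 h1.2.2.1)⟩, h1, h2, h3⟩⟩

theorem inv : ∃ C : ℝ, 1 ≤ C ∧ ∀ {ι : Type} (D : Dat2 ι) (Om c : ℝ) (y Yq klo khi L n0 : ℕ) (N : ℤ)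
    (J : Finset ℕ) (cl : ℕ → Cl) (Cs : Finset Cl), D.Ok Om y Yq klo khi → y ≤ 2 ^ L → 1 ≤ L →
    0 < c → 1 ≤ n0 → C * (L : ℝ) ^ 3 * (Om / c) ^ 8 ≤ 2 ^ (klo - 1) →
    (∀ n ∈ J, 1 ≤ n ∧ n ≤ y ∧ cl n ∈ Cs ∧ c ≤ D.B (cl n) (N / n)) →
    ∃ (S : Finset (ℕ × ℤ)) (Y : Finset ℕ), (S.card : ℝ) ≤ C * khi * L * (Om / c) ^ 4 ∧
      (Y.card : ℝ) ≤ C * Cs.card * D.I.card * Yq * (L : ℝ) ^ 2 * (Om / c) ^ 7 * n0 ∧
      (∀ s ∈ S, Fr y s ∧ |s.2| * n0 ≤ 2 * (y : ℤ) ^ 2) ∧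
      ∀ n ∈ J, n ∉ Y → ∃ s ∈ S, ∃ g : ℕ, 1 ≤ g ∧ s.1 * g * n0 ≤ y ∧ (n : ℤ) ∣ g * nf N s := by
  refine ⟨100000000, by norm_num, ?_⟩
  intro ι D Om c y Yq klo khi L n0 N J cl Cs h hy hL hc hn hP hJ
  rcases J.eq_empty_or_nonempty with rfl | ⟨m, hm⟩
  · have hO : 0 ≤ Om := (sum_nonneg fun i _ => h.wt0 i).trans h.sum
    refine ⟨∅, ∅, ?_, ?_, by simp, by simp⟩
    · rw [card_empty, Nat.cast_zero]; positivity
    · rw [card_empty, Nat.cast_zero]; positivity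
  have hO : c ≤ Om := (good_primes D h _ _ c hc (hJ m hm).2.2.2).1
  have hO' : 0 < Om := hc.trans_le hO
  have h0 : 0 < c / (2 * Om) := by positivity
  have h1 : c / (2 * Om) ≤ 1 := by
    rw [div_le_one (by positivity)]
    linarith
  have hL' : (0 : ℝ) < L := by exact_mod_cast hL
  have e : ∀ j : ℕ, 1 / (c / (2 * Om)) ^ j = 2 ^ j * (Om / c) ^ j := fun j => by
    rw [← mul_pow, one_div, ← inv_pow, inv_div, mul_div_assoc]
  have hP' : 90000 * (L : ℝ) ^ 3 < (c / (2 * Om)) ^ 8 * 2 ^ (klo - 1) := by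
    rw [← div_lt_iff₀' (pow_pos h0 8), div_eq_mul_one_div, e]
    have : 0 < (L : ℝ) ^ 3 * (Om / c) ^ 8 := by positivity
    linarith
  obtain ⟨Y, hY, hY'⟩ := ji5_Y D N h hy hL h0 h1 hn hP' J cl Cs fun n hn =>
    ⟨(hJ n hn).1, (hJ n hn).2.1, (hJ n hn).2.2.1, (good_primes D h _ _ c hc (hJ n hn).2.2.2).2⟩
  obtain ⟨S, hS, hS1, hS2⟩ := ji5_S N y L klo khi n0 _ hy hL h0 hP'
  refine ⟨S, Y, hS.trans ?_, hY.trans ?_, hS1, fun n hn hnY => ?_⟩
  · rw [div_eq_mul_one_div, e]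
    have : 0 ≤ (khi : ℝ) * L * (Om / c) ^ 4 := by positivity
    linarith
  · rw [div_eq_mul_one_div, e]
    have : 0 ≤ (Cs.card : ℝ) * D.I.card * Yq * (L : ℝ) ^ 2 * (Om / c) ^ 7 * n0 := by positivity
    linarith
  · obtain ⟨s, g, g1, g2, g3, g4, g5, g6⟩ := hY' n hn hnY
    exact ⟨s, hS2 s g1 g2 g6, g, g3, g4, g5⟩

end

end Pool.Agent.Jac
end

-- part Pool.Agent.P.MP_45ff98_nt.JB3
section

/-! Dispersion and the change of phase. -/

namespace Pool.Agent.Jac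
open Finset

noncomputable section

theorem jb3_inv {n m : ℕ} (h : n.Coprime m) : ∃ u : ℤ, (m : ℤ) ∣ n * u - 1 := by
  obtain ⟨a, b, hab⟩ := Nat.isCoprime_iff_coprime.2 h
  exact ⟨a, -b, by linear_combination hab⟩

theorem jb3_ch {n m : ℕ} (hm : 1 ≤ m) {u : ℤ} (hu : (m : ℤ) ∣ n * u - 1) (b : ℤ) :
    ch m b n = ee (b * u / m) := by
  have : NeZero m := ⟨by omega⟩
  have h1 : (n : ZMod m) * (u : ZMod m) = 1 := by
    have := (ZMod.intCast_zmod_eq_zero_iff_dvd _ m).2 hu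
    push_cast at this
    linear_combination this
  have h2 : (((n : ZMod m)⁻¹).val : ℤ) = u % m := by
    rw [ZMod.inv_eq_of_mul_eq_one m _ _ h1, ZMod.val_intCast]
  have h3 : (((n : ZMod m)⁻¹).val : ℝ) = u - m * (u / m : ℤ) := by
    have := Int.emod_add_mul_ediv u m
    have h4 : (((n : ZMod m)⁻¹).val : ℤ) = u - m * (u / m) := by rw [h2]; linarith
    exact_mod_cast h4
  have hm0 : (m : ℝ) ≠ 0 := by positivity
  rw [ch, h3, ← ee_add_int _ (b * (u / m))]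
  congr 1
  push_cast
  field_simp
  ring

theorem jb3_norm_ch (m : ℕ) (b : ℤ) (n : ℕ) : ‖ch m b n‖ = 1 := norm_ee _

/-- one term of the sum -/
def jb3_a (V Q h : ℕ) (Ns R : ℤ) (β : ℕ → ℂ) (p n : ℕ) : ℂ :=
  if n.Coprime (V * p * Q) then
    1 / (p : ℂ) * β p * ch (V * p * Q) (h * Ns) n * ee (h * R / ((n : ℝ) * (V * p * Q))) else 0

theorem jb3_norm_a (V Q h : ℕ) (Ns R : ℤ) {β : ℕ → ℂ} (hβ : ∀ p, ‖β p‖ ≤ 1) (p n : ℕ) :
    ‖jb3_a V Q h Ns R β p n‖ ≤ 1 / (p : ℝ) := by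
  rw [jb3_a]
  split_ifs
  · rw [norm_mul, norm_mul, norm_mul, norm_ee, jb3_norm_ch, mul_one, mul_one, norm_div, norm_one,
      Complex.norm_natCast]
    exact mul_le_of_le_one_right (by positivity) (hβ p)
  · rw [norm_zero]; positivity

theorem jb3_pair {V Q : ℕ} (h : ℕ) (hV : 1 ≤ V) (hQ : 1 ≤ Q) (Ns R : ℤ) (β : ℕ → ℂ) {p p' n : ℕ}
    (hp : 1 ≤ p) (hp' : 1 ≤ p') (hn : 1 ≤ n) :
    jb3_a V Q h Ns R β p n * (starRingEnd ℂ) (jb3_a V Q h Ns R β p' n) =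
      (1 / (p : ℂ) * β p * (starRingEnd ℂ) (1 / (p' : ℂ) * β p')) *
        if n.Coprime (V * Q * p * p') then ch (V * Q * p * p') (h * Ns * ((p' : ℤ) - p)) n *
          ee (h * R * ((p' : ℝ) - p) / (V * Q * p * p' : ℕ) / n) else 0 := by
  have d1 : V * p * Q ∣ V * Q * p * p' := ⟨p', by ring⟩
  have d2 : V * p' * Q ∣ V * Q * p * p' := ⟨p, by ring⟩
  by_cases hc : n.Coprime (V * Q * p * p')
  · obtain ⟨u, hu⟩ := jb3_inv hc
    have m0 : 1 ≤ V * Q * p * p' := Nat.succ_le_of_lt (by positivity)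
    have m1 : 1 ≤ V * p * Q := Nat.succ_le_of_lt (by positivity)
    have m2 : 1 ≤ V * p' * Q := Nat.succ_le_of_lt (by positivity)
    rw [jb3_a, jb3_a, if_pos hc, if_pos (hc.coprime_dvd_right d1),
      if_pos (hc.coprime_dvd_right d2), jb3_ch m0 hu,
      jb3_ch m1 ((Int.natCast_dvd_natCast.2 d1).trans hu),
      jb3_ch m2 ((Int.natCast_dvd_natCast.2 d2).trans hu), map_mul, map_mul, conj_ee, conj_ee]
    have hV0 : (V : ℝ) ≠ 0 := by positivity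
    have hQ0 : (Q : ℝ) ≠ 0 := by positivity
    have hp0 : (p : ℝ) ≠ 0 := by positivity
    have hp0' : (p' : ℝ) ≠ 0 := by positivity
    have hn0 : (n : ℝ) ≠ 0 := by positivity
    have e1 : ee (((h * Ns * ((p' : ℤ) - p) : ℤ) : ℝ) * u / (V * Q * p * p' : ℕ)) =
        ee (((h * Ns : ℤ) : ℝ) * u / (V * p * Q : ℕ)) *
          ee (-(((h * Ns : ℤ) : ℝ) * u / (V * p' * Q : ℕ))) := by
      rw [← ee_add]
      congr 1
      push_cast
      field_simp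
      ring
    have e2 : ee (h * R * ((p' : ℝ) - p) / (V * Q * p * p' : ℕ) / n) =
        ee (h * R / ((n : ℝ) * (V * p * Q))) * ee (-(h * R / ((n : ℝ) * (V * p' * Q)))) := by
      rw [← ee_add]
      congr 1
      push_cast
      field_simp
      ring
    rw [e1, e2]
    ring
  · rw [if_neg hc, mul_zero]
    by_cases h1 : n.Coprime (V * p * Q)
    · have h2 : ¬ n.Coprime (V * p' * Q) := fun h2 =>
        hc ((h1.mul_right h2).coprime_dvd_right ⟨V * Q, by ring⟩)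
      rw [jb3_a, jb3_a, if_neg h2, map_zero, mul_zero]
    · rw [jb3_a, if_neg h1, zero_mul]

theorem disp (V Q h : ℕ) (hV : 1 ≤ V) (hQ : 1 ≤ Q) (Ns R : ℤ) (Pi : Finset ℕ) (β : ℕ → ℂ) (P1 : ℕ)
    (hP1 : 1 ≤ P1) (hP : ∀ p ∈ Pi, p.Prime ∧ P1 ≤ p) (hs : ∑ p ∈ Pi, 1 / (p : ℝ) ≤ 3)
    (hβ : ∀ p, ‖β p‖ ≤ 1) (X X' : ℕ) (hX : X ≤ X') (η : ℝ) (hη0 : 0 ≤ η)
    (hη : ∀ p ∈ Pi, ∀ p' ∈ Pi, p ≠ p' → ‖PS (V * Q * p * p') (h * Ns * ((p' : ℤ) - p))
      (h * R * ((p' : ℝ) - p) / (V * Q * p * p' : ℕ)) X X'‖ ≤ η) :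
    ∑ n ∈ Ioc X X', ‖Gt V Q h Ns R Pi β n‖ ^ 2 ≤ 3 * ((X' : ℝ) - X) / P1 + 9 * η := by
  have hG : ∀ n, Gt V Q h Ns R Pi β n = ∑ p ∈ Pi, jb3_a V Q h Ns R β p n := fun n => by
    rw [Gt, sum_filter]; rfl
  have hXX : (0 : ℝ) ≤ (X' : ℝ) - X := sub_nonneg.2 (by exact_mod_cast hX)
  have hP0 : (0 : ℝ) < P1 := by exact_mod_cast hP1
  have h1 : ((∑ n ∈ Ioc X X', ‖Gt V Q h Ns R Pi β n‖ ^ 2 : ℝ) : ℂ) = ∑ p ∈ Pi, ∑ p' ∈ Pi,
      ∑ n ∈ Ioc X X', jb3_a V Q h Ns R β p n * (starRingEnd ℂ) (jb3_a V Q h Ns R β p' n) := by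
    push_cast
    rw [sum_congr rfl fun p _ => sum_comm, sum_comm]
    refine sum_congr rfl fun n _ => ?_
    rw [← Complex.mul_conj', hG, map_sum, sum_mul_sum]
  have h2 : ∀ p ∈ Pi, ∀ p' ∈ Pi, ‖∑ n ∈ Ioc X X',
      jb3_a V Q h Ns R β p n * (starRingEnd ℂ) (jb3_a V Q h Ns R β p' n)‖ ≤
      (if p = p' then ((X' : ℝ) - X) / P1 * (1 / p) else 0) + η * (1 / p * (1 / p')) := by
    intro p hp p' hp'
    have q1 := (hP p hp).1.one_le
    have q2 := (hP p' hp').1.one_le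
    split_ifs with e
    · subst e
      have k1 : (1 : ℝ) / p ≤ 1 / P1 :=
        one_div_le_one_div_of_le hP0 (by exact_mod_cast (hP p hp).2)
      have k2 : ∀ n ∈ Ioc X X', ‖jb3_a V Q h Ns R β p n *
          (starRingEnd ℂ) (jb3_a V Q h Ns R β p n)‖ ≤ 1 / P1 * (1 / p) := fun n _ => by
        rw [norm_mul, Complex.norm_conj]
        exact mul_le_mul ((jb3_norm_a V Q h Ns R hβ p n).trans k1) (jb3_norm_a V Q h Ns R hβ p n)
          (norm_nonneg _) (by positivity)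
      refine (norm_sum_le_of_le _ k2).trans ?_
      rw [sum_const, Nat.card_Ioc, nsmul_eq_mul, Nat.cast_sub hX]
      have : 0 ≤ η * (1 / (p : ℝ) * (1 / p)) := by positivity
      have e : ((X' : ℝ) - X) * (1 / P1 * (1 / p)) = (X' - X) / P1 * (1 / p) := by ring
      linarith
    · rw [sum_congr rfl fun n hn => jb3_pair h hV hQ Ns R β q1 q2
        (by have := (mem_Ioc.1 hn).1; omega), ← mul_sum, ← sum_filter, zero_add, norm_mul, mul_comm]
      refine mul_le_mul (hη p hp p' hp' e) ?_ (norm_nonneg _) hη0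
      rw [norm_mul, Complex.norm_conj, norm_mul, norm_mul, norm_div, norm_div, norm_one,
        Complex.norm_natCast, Complex.norm_natCast]
      exact mul_le_mul (mul_le_of_le_one_right (by positivity) (hβ p))
        (mul_le_of_le_one_right (by positivity) (hβ p')) (by positivity) (by positivity)
  have h0 : 0 ≤ ∑ p ∈ Pi, 1 / (p : ℝ) := sum_nonneg fun p _ => by positivity
  calc ∑ n ∈ Ioc X X', ‖Gt V Q h Ns R Pi β n‖ ^ 2
      ≤ ‖((∑ n ∈ Ioc X X', ‖Gt V Q h Ns R Pi β n‖ ^ 2 : ℝ) : ℂ)‖ := by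
        rw [Complex.norm_real]; exact le_abs_self _
    _ ≤ ∑ p ∈ Pi, ∑ p' ∈ Pi,
        ((if p = p' then ((X' : ℝ) - X) / P1 * (1 / p) else 0) + η * (1 / p * (1 / p'))) := by
        rw [h1]
        exact norm_sum_le_of_le _ fun p hp => norm_sum_le_of_le _ (h2 p hp)
    _ = ((X' : ℝ) - X) / P1 * ∑ p ∈ Pi, 1 / (p : ℝ) +
        η * ((∑ p ∈ Pi, 1 / (p : ℝ)) * ∑ p ∈ Pi, 1 / (p : ℝ)) := by
        rw [sum_mul_sum, mul_sum, mul_sum, ← sum_add_distrib]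
        refine sum_congr rfl fun p hp => ?_
        rw [sum_add_distrib, sum_ite_eq, if_pos hp, mul_sum]
    _ ≤ ((X' : ℝ) - X) / P1 * 3 + η * (3 * 3) :=
        add_le_add (mul_le_mul_of_nonneg_left hs (by positivity))
          (mul_le_mul_of_nonneg_left (mul_le_mul hs hs h0 (by norm_num)) hη0)
    _ = 3 * ((X' : ℝ) - X) / P1 + 9 * η := by ring

theorem phase (v δ n p Q h : ℕ) (N R : ℤ) (hv : 1 ≤ v) (hδ : 1 ≤ δ) (hn : 1 ≤ n) (hp : 1 ≤ p)
    (hQ : 1 ≤ Q) (hd : (n : ℤ) ∣ v * N - R) (hc : n.Coprime (v * δ * p * Q)) :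
    ee (h * (N / (δ * n : ℕ) : ℤ) / ((p : ℝ) * Q)) =
      ch (v * δ * p * Q) (h * (v * N - R)) n * ee (h * R / ((n : ℝ) * ((v * δ : ℕ) * p * Q))) *
        ee (-(h * ((N % (δ * n : ℕ) : ℤ) / ((δ * n : ℕ) : ℝ)) / ((p : ℝ) * Q))) := by
  obtain ⟨u, hu⟩ := jb3_inv hc
  have m0 : 1 ≤ v * δ * p * Q := Nat.succ_le_of_lt (by positivity)
  rw [jb3_ch m0 hu]
  obtain ⟨k, hk⟩ := hu
  obtain ⟨M, hM⟩ := hd
  have hv0 : (v : ℝ) ≠ 0 := by positivity
  have hδ0 : (δ : ℝ) ≠ 0 := by positivity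
  have hn0 : (n : ℝ) ≠ 0 := by positivity
  have hp0 : (p : ℝ) ≠ 0 := by positivity
  have hQ0 : (Q : ℝ) ≠ 0 := by positivity
  have e1 : (n : ℝ) * u = 1 + v * δ * p * Q * k := by
    have : (n : ℤ) * u = 1 + (v * δ * p * Q : ℕ) * k := by linarith
    exact_mod_cast this
  have e2 : (R : ℝ) = v * N - n * M := by
    have : R = v * N - n * M := by linarith
    exact_mod_cast this
  have e3 : ((N % (δ * n : ℕ) : ℤ) : ℝ) = N - δ * n * (N / (δ * n : ℕ) : ℤ) := by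
    have h1 := Int.emod_add_mul_ediv N (δ * n : ℕ)
    have : N % (δ * n : ℕ) = N - (δ * n : ℕ) * (N / (δ * n : ℕ)) := by linarith
    rw [this]
    push_cast
    ring
  rw [← ee_add, ← ee_add, ← ee_add_int _ (h * M * k), e3, hM]
  congr 1
  generalize ((N / (δ * n : ℕ) : ℤ) : ℝ) = ξ
  have e4 : (((h : ℤ) * (n * M) : ℤ) : ℝ) * u = h * M * (1 + v * δ * p * Q * k) := by
    rw [← e1]; push_cast; ring
  rw [e4, e2]
  push_cast
  field_simp
  ring

end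

end Pool.Agent.Jac
end

-- part Pool.Agent.P.MP_45ff98_nt.JB1
section

/-! Ramanujan sums and an oscillatory integral. -/

namespace Pool.Agent.Jac
open Finset

noncomputable section

theorem jb1_block (m : ℕ) (hm : 1 ≤ m) (b : ℤ) (X : ℕ) :
    ∑ n ∈ (Ioc X (X + m)).filter (fun n => n.Coprime m), ch m b n =
      ∑ n ∈ (range m).filter (fun n => n.Coprime m), ee (b * n / m) := by
  have : NeZero m := ⟨by omega⟩
  have hu : ∀ n : ℕ, n.Coprime m → (n : ZMod m) * (n : ZMod m)⁻¹ = 1 := fun n hn =>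
    ZMod.mul_inv_of_unit _ ((ZMod.isUnit_iff_coprime n m).2 hn)
  refine sum_bij (fun n _ => ((n : ZMod m)⁻¹).val) (fun n hn => ?_) (fun n hn n' hn' e => ?_)
    (fun k hk => ?_) (fun n _ => rfl)
  · rw [mem_filter] at hn ⊢
    refine ⟨mem_range.2 (ZMod.val_lt _), (ZMod.isUnit_iff_coprime _ m).1 ?_⟩
    rw [ZMod.natCast_zmod_val]
    exact IsUnit.of_mul_eq_one _ ((mul_comm _ _).trans (hu n hn.2))
  · rw [mem_filter, mem_Ioc] at hn hn'
    have e1 : (n : ZMod m)⁻¹ = (n' : ZMod m)⁻¹ := ZMod.val_injective m e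
    have e2 : (n : ZMod m) = (n' : ZMod m) := by
      have h1 := hu n hn.2
      have h2 := hu n' hn'.2
      rw [e1] at h1
      linear_combination (n' : ZMod m) * h1 - (n : ZMod m) * h2
    have e3 : (m : ℤ) ∣ (n' : ℤ) - n := ((ZMod.natCast_eq_natCast_iff n n' m).1 e2).dvd
    have e4 := Int.eq_zero_of_abs_lt_dvd e3 (abs_lt.2 ⟨by omega, by omega⟩)
    omega
  · rw [mem_filter, mem_range] at hk
    have e1 : ((X + 1 + ((k : ZMod m)⁻¹ - ((X + 1 : ℕ) : ZMod m)).val : ℕ) : ZMod m) = (k : ZMod m)⁻¹ := by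
      rw [Nat.cast_add, ZMod.natCast_zmod_val]
      ring
    have hl := ZMod.val_lt ((k : ZMod m)⁻¹ - ((X + 1 : ℕ) : ZMod m))
    have h1 : (k : ZMod m)⁻¹ * k = 1 := (mul_comm _ _).trans (hu k hk.2)
    refine ⟨X + 1 + ((k : ZMod m)⁻¹ - ((X + 1 : ℕ) : ZMod m)).val, ?_, ?_⟩
    · rw [mem_filter, mem_Ioc]
      refine ⟨⟨by omega, by omega⟩, (ZMod.isUnit_iff_coprime _ m).1 ?_⟩
      rw [e1]
      exact IsUnit.of_mul_eq_one _ h1
    · rw [e1, ZMod.inv_eq_of_mul_eq_one m _ _ h1, ZMod.val_cast_of_lt hk.1]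

theorem jb1_ind (m : ℕ) (hm : 1 ≤ m) (n : ℕ) :
    ∑ d ∈ m.divisors, (if d ∣ n then (ArithmeticFunction.moebius d : ℂ) else 0) =
      if n.Coprime m then 1 else 0 := by
  have h1 := congrArg (fun f : ArithmeticFunction ℤ => f (Nat.gcd n m))
    ArithmeticFunction.moebius_mul_coe_zeta
  simp only [ArithmeticFunction.coe_mul_zeta_apply, ArithmeticFunction.one_apply] at h1
  have h2 : (Nat.gcd n m).divisors = m.divisors.filter (fun d => d ∣ n) := by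
    ext d
    have : Nat.gcd n m ≠ 0 := Nat.gcd_ne_zero_right (by omega)
    simp only [Nat.mem_divisors, mem_filter, Nat.dvd_gcd_iff]
    exact ⟨fun h => ⟨⟨h.1.2, by omega⟩, h.1.1⟩, fun h => ⟨⟨h.2, h.1.1⟩, this⟩⟩
  rw [← sum_filter, ← h2]
  have h3 := congrArg (fun z : ℤ => (z : ℂ)) h1
  simpa [Nat.Coprime] using h3

theorem jb1_mult (d e : ℕ) (hd : 1 ≤ d) (b : ℤ) :
    ∑ n ∈ (range (d * e)).filter (fun n => d ∣ n), ee (b * n / (d * e : ℕ)) =
      ∑ t ∈ range e, ee (b * t / e) := by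
  symm
  refine sum_bij (fun t _ => d * t) (fun t ht => ?_) (fun t _ t' _ h => ?_) (fun n hn => ?_)
    (fun t _ => ?_)
  · rw [mem_filter, mem_range]
    exact ⟨Nat.mul_lt_mul_of_pos_left (mem_range.1 ht) hd, dvd_mul_right _ _⟩
  · exact Nat.eq_of_mul_eq_mul_left hd h
  · rw [mem_filter, mem_range] at hn
    obtain ⟨h1, t, rfl⟩ := hn
    exact ⟨t, mem_range.2 (Nat.lt_of_mul_lt_mul_left h1), rfl⟩
  · have : (d : ℝ) ≠ 0 := by positivity
    congr 1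
    push_cast
    rw [mul_left_comm, mul_div_mul_left _ _ this]

theorem jb1_val (m : ℕ) (hm : 1 ≤ m) (b : ℤ) :
    ∑ n ∈ (range m).filter (fun n => n.Coprime m), ee (b * n / m) =
      ∑ d ∈ m.divisors, (ArithmeticFunction.moebius d : ℂ) *
        (if ((m / d : ℕ) : ℤ) ∣ b then ((m / d : ℕ) : ℂ) else 0) := by
  have h1 : ∀ n ∈ range m, (if n.Coprime m then ee (b * n / m) else 0) =
      ∑ d ∈ m.divisors,
        (ArithmeticFunction.moebius d : ℂ) * (if d ∣ n then ee (b * n / m) else 0) := by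
    intro n _
    have h2 := congrArg (· * ee (b * n / m)) (jb1_ind m hm n)
    simp only [sum_mul, ite_mul, one_mul, zero_mul] at h2
    simp only [mul_ite, mul_zero]
    exact h2.symm
  rw [sum_filter, sum_congr rfl h1, sum_comm]
  refine sum_congr rfl fun d hd => ?_
  obtain ⟨e, rfl⟩ := Nat.dvd_of_mem_divisors hd
  have hd1 : 1 ≤ d := Nat.pos_of_mem_divisors hd
  have he : 1 ≤ e := Nat.pos_of_mul_pos_left hm
  rw [← mul_sum, ← sum_filter, jb1_mult d e hd1, Nat.mul_div_cancel_left e hd1, sum_ee e he]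

theorem jb1_sigma (g : ℕ) : ∑ e ∈ g.divisors, (e : ℝ) ≤ g * (1 + Real.log g) := by
  rw [← Nat.sum_div_divisors g (fun e => (e : ℝ))]
  refine le_trans ?_ (mul_le_mul_of_nonneg_left (Lib.Sieve.sum_inv_Ioc_le g) (by positivity))
  rw [mul_sum]
  refine le_trans (sum_le_sum (g := fun d : ℕ => (g : ℝ) * (1 / (d : ℝ))) fun d _ => ?_)
    (sum_le_sum_of_subset_of_nonneg (fun d hd => ?_) fun d _ _ => by positivity)
  · rw [mul_one_div]
    exact Nat.cast_div_le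
  · exact mem_Ioc.2 ⟨Nat.pos_of_mem_divisors hd, Nat.divisor_le hd⟩

theorem ramanujan (m : ℕ) (hm : 1 ≤ m) (b : ℤ) : ∃ c : ℂ,
    ‖c‖ ≤ (Int.gcd b m : ℝ) * (1 + Real.log m) ∧ ‖c‖ ≤ m ∧
      ∀ X : ℕ, ∑ n ∈ (Ioc X (X + m)).filter (fun n => n.Coprime m), ch m b n = c := by
  refine ⟨_, ?_, ?_, jb1_block m hm b⟩
  · rw [jb1_val m hm]
    have hg : 0 < Int.gcd b m := Int.gcd_pos_of_ne_zero_right _ (by omega)
    have hgm : Int.gcd b m ∣ m := by exact_mod_cast Int.gcd_dvd_right b m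
    have h1 : ∀ d ∈ m.divisors, ‖(ArithmeticFunction.moebius d : ℂ) *
        (if ((m / d : ℕ) : ℤ) ∣ b then ((m / d : ℕ) : ℂ) else 0)‖ ≤
        (fun e : ℕ => if (e : ℤ) ∣ b then (e : ℝ) else 0) (m / d) := by
      intro d _
      have h2 : ‖(ArithmeticFunction.moebius d : ℂ)‖ ≤ 1 := by
        rw [Complex.norm_intCast]
        exact_mod_cast ArithmeticFunction.abs_moebius_le_one
      rw [norm_mul]
      refine (mul_le_of_le_one_left (norm_nonneg _) h2).trans (le_of_eq ?_)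
      simp only
      split_ifs
      · exact Complex.norm_natCast _
      · exact norm_zero
    have h3 : m.divisors.filter (fun e : ℕ => (e : ℤ) ∣ b) = (Int.gcd b m).divisors := by
      ext e
      simp only [Nat.mem_divisors, mem_filter, Int.dvd_gcd_iff, Int.natCast_dvd_natCast]
      exact ⟨fun h => ⟨⟨h.2, h.1.1⟩, hg.ne'⟩, fun h => ⟨⟨h.1.2, by omega⟩, h.1.1⟩⟩
    refine (norm_sum_le_of_le _ h1).trans ?_
    rw [Nat.sum_div_divisors m (fun e : ℕ => if (e : ℤ) ∣ b then (e : ℝ) else 0), ← sum_filter, h3]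
    refine (jb1_sigma _).trans (mul_le_mul_of_nonneg_left ?_ (by positivity))
    have h4 : Real.log (Int.gcd b m) ≤ Real.log m :=
      Real.log_le_log (by exact_mod_cast hg) (by exact_mod_cast Nat.le_of_dvd hm hgm)
    linarith
  · refine (norm_sum_le _ _).trans ?_
    simp only [norm_ee, sum_const, nsmul_eq_mul, mul_one]
    exact_mod_cast (card_filter_le _ _).trans (card_range m).le

theorem jb1_deriv (α : ℝ) {t : ℝ} (ht : t ≠ 0) :
    HasDerivAt (fun t : ℝ => ee (α / t))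
      (-(2 * Real.pi * Complex.I * α) / (t : ℂ) ^ 2 * ee (α / t)) t := by
  have h1 : HasDerivAt (fun y : ℝ => α / y) (α * -(t ^ 2)⁻¹) t := by
    simpa only [div_eq_mul_inv] using (hasDerivAt_inv ht).const_mul α
  have h2 := (h1.ofReal_comp.const_mul (2 * Real.pi * Complex.I : ℂ)).cexp
  refine h2.congr_deriv ?_
  rw [ee]
  push_cast
  ring

theorem osc_int (α : ℝ) (hα : α ≠ 0) (a b : ℝ) (ha : 0 < a) (hab : a ≤ b) :
    ‖∫ t in a..b, ee (α / t)‖ ≤ b ^ 2 / |α| := by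
  set κ : ℂ := -(2 * Real.pi * Complex.I * α) with hκ
  have hA : 0 < |α| := abs_pos.2 hα
  have hn : ‖κ‖ = 2 * Real.pi * |α| := by
    simp [hκ, abs_of_pos Real.pi_pos]
  have hn4 : 4 * |α| ≤ ‖κ‖ := by
    rw [hn]
    nlinarith [Real.two_le_pi]
  have hκ0 : κ ≠ 0 := norm_pos_iff.1 (by linarith)
  have hpos : ∀ t ∈ Set.uIcc a b, 0 < t ∧ t ≤ b := fun t ht => by
    rw [Set.uIcc_of_le hab] at ht
    exact ⟨ha.trans_le ht.1, ht.2⟩
  have hu : ∀ t ∈ Set.uIcc a b,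
      HasDerivAt (fun t : ℝ => (t : ℂ) ^ 2 / κ) (2 * (t : ℂ) / κ) t := fun t _ => by
    have h1 := (((hasDerivAt_id t).ofReal_comp).pow 2).div_const κ
    refine h1.congr_deriv ?_
    simp
  have hv : ∀ t ∈ Set.uIcc a b,
      HasDerivAt (fun t : ℝ => ee (α / t)) (κ / (t : ℂ) ^ 2 * ee (α / t)) t := fun t ht =>
    jb1_deriv α (hpos t ht).1.ne'
  have cv : ContinuousOn (fun t : ℝ => ee (α / t)) (Set.uIcc a b) := fun t ht =>
    (hv t ht).continuousAt.continuousWithinAt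
  have iu : IntervalIntegrable (fun t : ℝ => 2 * (t : ℂ) / κ) MeasureTheory.volume a b :=
    Continuous.intervalIntegrable (by fun_prop) _ _
  have iv : IntervalIntegrable (fun t : ℝ => κ / (t : ℂ) ^ 2 * ee (α / t))
      MeasureTheory.volume a b := by
    refine ContinuousOn.intervalIntegrable (ContinuousOn.mul ?_ cv)
    refine continuousOn_const.div (by fun_prop) fun t ht => ?_
    exact pow_ne_zero _ (Complex.ofReal_ne_zero.2 (hpos t ht).1.ne')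
  have key := intervalIntegral.integral_mul_deriv_eq_deriv_mul hu hv iu iv
  have e : ∫ t in a..b, ee (α / t) =
      ∫ t in a..b, (t : ℂ) ^ 2 / κ * (κ / (t : ℂ) ^ 2 * ee (α / t)) := by
    refine intervalIntegral.integral_congr fun t ht => ?_
    have : (t : ℂ) ≠ 0 := Complex.ofReal_ne_zero.2 (hpos t ht).1.ne'
    field_simp
  have hb : 0 < b := ha.trans_le hab
  have hk : 0 < ‖κ‖ := by linarith
  have b1 : ∀ t : ℝ, 0 < t → t ≤ b → ‖(t : ℂ) ^ 2 / κ * ee (α / t)‖ ≤ b ^ 2 / ‖κ‖ := by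
    intro t h0 h1
    rw [norm_mul, norm_ee, mul_one, norm_div, norm_pow, Complex.norm_real, Real.norm_of_nonneg h0.le]
    gcongr
  have b2 : ‖∫ t in a..b, 2 * (t : ℂ) / κ * ee (α / t)‖ ≤ 2 * b / ‖κ‖ * |b - a| := by
    refine intervalIntegral.norm_integral_le_of_norm_le_const fun t ht => ?_
    have h0 := hpos t (Set.uIoc_subset_uIcc ht)
    rw [norm_mul, norm_ee, mul_one, norm_div, norm_mul, Complex.norm_real,
      Real.norm_of_nonneg h0.1.le, Complex.norm_two]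
    gcongr
    exact h0.2
  have b3 : 2 * b / ‖κ‖ * |b - a| ≤ 2 * (b ^ 2 / ‖κ‖) := by
    rw [abs_of_nonneg (by linarith)]
    calc 2 * b / ‖κ‖ * (b - a) ≤ 2 * b / ‖κ‖ * b :=
          mul_le_mul_of_nonneg_left (by linarith) (by positivity)
      _ = _ := by ring
  have b4 : 4 * (b ^ 2 / ‖κ‖) ≤ b ^ 2 / |α| := by
    rw [← mul_div_assoc, div_le_div_iff₀ hk hA]
    nlinarith [sq_nonneg b]
  rw [e, key]
  refine (norm_sub_le _ _).trans ?_
  have b5 := norm_sub_le ((b : ℂ) ^ 2 / κ * ee (α / b)) ((a : ℂ) ^ 2 / κ * ee (α / a))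
  linarith [b1 b hb le_rfl, b1 a ha hab]

end

end Pool.Agent.Jac
end

-- part Pool.Agent.P.MP_45ff98_nt.JB2
section

/-! Pair sums. -/

namespace Pool.Agent.Jac
open Finset

noncomputable section

theorem jb2_osc (α : ℝ) {X Y t m : ℝ} (hX : 0 < X) (hY : X ≤ Y) (h1 : Y ≤ t) (h2 : t ≤ Y + m) :
    ‖ee (α / t) - ee (α / Y)‖ ≤ 7 * |α| * m / X ^ 2 := by
  have hY0 : 0 < Y := hX.trans_le hY
  have ht0 : 0 < t := hY0.trans_le h1
  have e : α / t - α / Y = -(α * ((t - Y) / (t * Y))) := by field_simp; ring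
  have h3 : (t - Y) / (t * Y) ≤ m / X ^ 2 := by
    refine div_le_div₀ (by linarith) (by linarith) (by positivity) ?_
    rw [sq]
    exact mul_le_mul (hY.trans h1) hY hX.le ht0.le
  have h4 : 0 ≤ (t - Y) / (t * Y) := div_nonneg (by linarith) (by positivity)
  refine (norm_ee_sub _ _).trans ?_
  rw [e, abs_neg, abs_mul, abs_of_nonneg h4, mul_div_assoc, mul_assoc 7]
  exact mul_le_mul (by linarith [Real.pi_lt_d2]) (mul_le_mul_of_nonneg_left h3 (abs_nonneg _))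
    (by positivity) (by norm_num)

theorem jb2_add (m : ℕ) (b : ℤ) (α : ℝ) {X Y Z : ℕ} (h1 : X ≤ Y) (h2 : Y ≤ Z) :
    PS m b α X Z = PS m b α X Y + PS m b α Y Z := by
  simp only [PS, sum_filter]
  exact (sum_Ioc_consecutive _ h1 h2).symm

theorem jb2_sum_le {Y k m : ℕ} {f : ℕ → ℂ} {B : ℝ} (hB : 0 ≤ B)
    (h : ∀ n ∈ Ioc Y (Y + k), ‖f n‖ ≤ B) :
    ‖∑ n ∈ (Ioc Y (Y + k)).filter (fun n => n.Coprime m), f n‖ ≤ k * B := by
  refine (norm_sum_le _ _).trans ((sum_le_card_nsmul _ _ B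
    fun n hn => h n (mem_filter.1 hn).1).trans ?_)
  rw [nsmul_eq_mul]
  refine mul_le_mul_of_nonneg_right ?_ hB
  have := card_filter_le (Ioc Y (Y + k)) (fun n => n.Coprime m)
  rw [Nat.card_Ioc, Nat.add_sub_cancel_left] at this
  exact_mod_cast this

theorem jb2_blocks {m : ℕ} {b : ℤ} (α : ℝ) {c : ℂ}
    (hc : ∀ X : ℕ, ∑ n ∈ (Ioc X (X + m)).filter (fun n => n.Coprime m), ch m b n = c)
    {X : ℕ} (hX : 1 ≤ X) (J : ℕ) :
    ‖PS m b α X (X + J * m) - c * ∑ j ∈ range J, ee (α / ((X + j * m : ℕ) : ℝ))‖ ≤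
      J * (m * (7 * |α| * m / (X : ℝ) ^ 2)) := by
  have hX0 : (0 : ℝ) < X := by exact_mod_cast hX
  induction J with
  | zero => simp [PS]
  | succ J ih =>
    have e : X + (J + 1) * m = X + J * m + m := by ring
    have h1 : ‖PS m b α (X + J * m) (X + J * m + m) - c * ee (α / ((X + J * m : ℕ) : ℝ))‖ ≤
        m * (7 * |α| * m / (X : ℝ) ^ 2) := by
      rw [← hc (X + J * m), PS, sum_mul, ← sum_sub_distrib]
      refine jb2_sum_le (by positivity) fun n hn => ?_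
      rw [← mul_sub, norm_mul, ch, norm_ee, one_mul]
      obtain ⟨a1, a2⟩ := mem_Ioc.1 hn
      exact jb2_osc α hX0 (by exact_mod_cast Nat.le_add_right _ _) (by exact_mod_cast a1.le)
        (by exact_mod_cast a2)
    rw [e, jb2_add m b α (Nat.le_add_right X (J * m)) (Nat.le_add_right _ m), sum_range_succ,
      mul_add, add_sub_add_comm, Nat.cast_succ, add_mul, one_mul]
    exact norm_add_le_of_le ih h1

theorem jb2_main {m : ℕ} (hm : 1 ≤ m) {b : ℤ} (α : ℝ) {c : ℂ}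
    (hc : ∀ X : ℕ, ∑ n ∈ (Ioc X (X + m)).filter (fun n => n.Coprime m), ch m b n = c)
    {X X' : ℕ} (hX : 1 ≤ X) (hXX : X ≤ X') : ∃ J : ℕ, (J : ℝ) * m ≤ X' - X ∧
      ‖PS m b α X X'‖ ≤ ‖c‖ * ‖∑ j ∈ range J, ee (α / ((X + j * m : ℕ) : ℝ))‖ + m +
        7 * |α| * m * ((X' : ℝ) - X) / (X : ℝ) ^ 2 := by
  obtain ⟨k, rfl⟩ := Nat.exists_eq_add_of_le hXX
  have h0 : k / m * m + k % m = k := Nat.div_add_mod' k m
  have h1 : ((k / m : ℕ) : ℝ) * m ≤ ((X + k : ℕ) : ℝ) - X := by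
    rw [Nat.cast_add, add_sub_cancel_left]
    exact_mod_cast Nat.div_mul_le_self k m
  refine ⟨k / m, h1, ?_⟩
  have h2 := jb2_blocks α hc hX (k / m)
  have h3 : ‖PS m b α (X + k / m * m) (X + k)‖ ≤ m := by
    have e : X + k = X + k / m * m + k % m := by omega
    rw [e, PS]
    refine (jb2_sum_le zero_le_one fun n _ => ?_).trans ?_
    · rw [norm_mul, ch, norm_ee, norm_ee, one_mul]
    · rw [mul_one]; exact_mod_cast (Nat.mod_lt k hm).le
  have h4 : ((k / m : ℕ) : ℝ) * (m * (7 * |α| * m / (X : ℝ) ^ 2)) ≤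
      7 * |α| * m * (((X + k : ℕ) : ℝ) - X) / (X : ℝ) ^ 2 := by
    rw [← mul_assoc, mul_comm, mul_div_right_comm _ (((X + k : ℕ) : ℝ) - X)]
    exact mul_le_mul_of_nonneg_left h1 (by positivity)
  rw [jb2_add m b α (Nat.le_add_right X (k / m * m)) (by omega), ← norm_mul]
  have h5 := norm_add_le (PS m b α X (X + k / m * m)) (PS m b α (X + k / m * m) (X + k))
  have h6 := norm_le_norm_add_norm_sub' (PS m b α X (X + k / m * m))
    (c * ∑ j ∈ range (k / m), ee (α / ((X + j * m : ℕ) : ℝ)))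
  linarith

theorem pair_a (m : ℕ) (hm : 1 ≤ m) (b : ℤ) (α : ℝ) (X X' : ℕ) (hX : 1 ≤ X) (hXX : X ≤ X') :
    ‖PS m b α X X'‖ ≤ (Int.gcd b m : ℝ) * (1 + Real.log m) / m * ((X' : ℝ) - X) + m +
      7 * |α| * m * ((X' : ℝ) - X) / (X : ℝ) ^ 2 := by
  obtain ⟨c, h1, -, hc⟩ := ramanujan m hm b
  obtain ⟨J, h2, h3⟩ := jb2_main hm α hc hX hXX
  have hm0 : (0 : ℝ) < m := by exact_mod_cast hm
  have h4 : ‖∑ j ∈ range J, ee (α / ((X + j * m : ℕ) : ℝ))‖ ≤ ((X' : ℝ) - X) / m := by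
    refine (norm_sum_le _ _).trans ?_
    simp only [norm_ee, sum_const, card_range, nsmul_eq_mul, mul_one]
    exact (le_div_iff₀ hm0).2 h2
  have h5 := mul_le_mul h1 h4 (norm_nonneg _) ((norm_nonneg _).trans h1)
  have e : (Int.gcd b m : ℝ) * (1 + Real.log m) / m * ((X' : ℝ) - X) =
      (Int.gcd b m : ℝ) * (1 + Real.log m) * (((X' : ℝ) - X) / m) := by ring
  rw [e]
  linarith

theorem jb2_int (α : ℝ) {a b : ℝ} (ha : 0 < a) (hab : a ≤ b) :
    IntervalIntegrable (fun t => ee (α / t)) MeasureTheory.volume a b := by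
  have hc : Continuous ee := by unfold ee; fun_prop
  refine ContinuousOn.intervalIntegrable (hc.comp_continuousOn
    (continuousOn_const.div continuousOn_id fun t ht => ?_))
  rw [Set.uIcc_of_le hab] at ht
  exact (ha.trans_le ht.1).ne'

theorem jb2_riemann (α : ℝ) (m : ℕ) {X : ℕ} (hX : 1 ≤ X) (J : ℕ) :
    ‖(∫ t in (X : ℝ)..((X + J * m : ℕ) : ℝ), ee (α / t)) -
      m * ∑ j ∈ range J, ee (α / ((X + j * m : ℕ) : ℝ))‖ ≤
      J * (7 * |α| * m / (X : ℝ) ^ 2 * m) := by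
  have hX0 : (0 : ℝ) < X := by exact_mod_cast hX
  induction J with
  | zero => simp
  | succ J ih =>
    have hY : (X : ℝ) ≤ ((X + J * m : ℕ) : ℝ) := by exact_mod_cast Nat.le_add_right _ _
    have e : ((X + (J + 1) * m : ℕ) : ℝ) = ((X + J * m : ℕ) : ℝ) + m := by push_cast; ring
    rw [sum_range_succ, e]
    generalize ((X + J * m : ℕ) : ℝ) = Y at hY ih ⊢
    have hm0 : Y ≤ Y + m := le_add_of_nonneg_right (Nat.cast_nonneg m)
    have i2 := jb2_int α (hX0.trans_le hY) hm0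
    have h1 : ‖(∫ t in Y..Y + m, ee (α / t)) - m * ee (α / Y)‖ ≤
        7 * |α| * m / (X : ℝ) ^ 2 * m := by
      have e1 : (∫ t in Y..Y + m, ee (α / t)) - m * ee (α / Y) =
          ∫ t in Y..Y + m, (ee (α / t) - ee (α / Y)) := by
        rw [intervalIntegral.integral_sub i2 intervalIntegrable_const,
          intervalIntegral.integral_const]
        simp
      rw [e1]
      refine (intervalIntegral.norm_integral_le_of_norm_le_const
        (C := 7 * |α| * m / (X : ℝ) ^ 2) fun t ht => ?_).trans (by simp)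
      rw [Set.uIoc_of_le hm0] at ht
      exact jb2_osc α hX0 hY ht.1.le ht.2
    rw [← intervalIntegral.integral_add_adjacent_intervals (jb2_int α hX0 hY) i2, mul_add,
      add_sub_add_comm, Nat.cast_succ, add_mul, one_mul]
    exact norm_add_le_of_le ih h1

theorem pair_b (m : ℕ) (hm : 1 ≤ m) (b : ℤ) (α : ℝ) (hα : α ≠ 0) (X X' : ℕ) (hX : 1 ≤ X)
    (hXX : X ≤ X') : ‖PS m b α X X'‖ ≤ (X' : ℝ) ^ 2 / |α| + m +
      14 * |α| * m * ((X' : ℝ) - X) / (X : ℝ) ^ 2 := by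
  obtain ⟨c, -, h1, hc⟩ := ramanujan m hm b
  obtain ⟨J, h2, h3⟩ := jb2_main hm α hc hX hXX
  have hX0 : (0 : ℝ) < X := by exact_mod_cast hX
  have hY : (X : ℝ) ≤ ((X + J * m : ℕ) : ℝ) := by exact_mod_cast Nat.le_add_right _ _
  have hY' : ((X + J * m : ℕ) : ℝ) ≤ X' := by push_cast; linarith
  have h4 := jb2_riemann α m hX J
  have h5 := (osc_int α hα _ _ hX0 hY).trans (div_le_div_of_nonneg_right
    (pow_le_pow_left₀ (hX0.le.trans hY) hY' 2) (abs_nonneg α))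
  have h6 : (J : ℝ) * (7 * |α| * m / (X : ℝ) ^ 2 * m) ≤
      7 * |α| * m * ((X' : ℝ) - X) / (X : ℝ) ^ 2 := by
    rw [mul_left_comm, mul_div_right_comm _ ((X' : ℝ) - X)]
    exact mul_le_mul_of_nonneg_left h2 (by positivity)
  have h7 := mul_le_mul_of_nonneg_right h1
    (norm_nonneg (∑ j ∈ range J, ee (α / ((X + j * m : ℕ) : ℝ))))
  have h8 := norm_le_norm_add_norm_sub
    (∫ t in (X : ℝ)..((X + J * m : ℕ) : ℝ), ee (α / t))
    (m * ∑ j ∈ range J, ee (α / ((X + j * m : ℕ) : ℝ)))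
  rw [norm_mul, Complex.norm_natCast] at h8
  have e : 14 * |α| * m * ((X' : ℝ) - X) / (X : ℝ) ^ 2 =
      2 * (7 * |α| * m * ((X' : ℝ) - X) / (X : ℝ) ^ 2) := by ring
  rw [e]
  linarith

end

end Pool.Agent.Jac
end

-- part Pool.Agent.P.MP_45ff98_nt.JB4
section

/-! Pair sums for far fractions. -/

namespace Pool.Agent.Jac
open Finset

noncomputable section

theorem jb4_gcd1 {m r W : ℕ} {b : ℤ} (hm : 1 ≤ m) (hr : r.Prime) (hrm : r ∣ m) (hW : W ≤ r)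
    (hb : ¬ (r : ℤ) ∣ b) : Int.gcd b m * W ≤ m := by
  have h1 : Int.gcd b m ∣ m := Int.natCast_dvd_natCast.1 (Int.gcd_dvd_right b m)
  have h2 : ¬ r ∣ Int.gcd b m := fun h =>
    hb ((Int.natCast_dvd_natCast.2 h).trans (Int.gcd_dvd_left b m))
  have h3 : (Int.gcd b m).Coprime r := ((Nat.Prime.coprime_iff_not_dvd hr).2 h2).symm
  exact (Nat.mul_le_mul_left _ hW).trans
    (Nat.le_of_dvd hm (Nat.Coprime.mul_dvd_of_dvd_of_dvd h3 h1 hrm))

theorem jb4_gcd2 {v k : ℕ} {c n : ℤ} (hk : 1 ≤ k) (hc : c ≠ 0) (hcop : IsCoprime (v : ℤ) n) :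
    Int.gcd (c * n) ((v * k : ℕ) : ℤ) ≤ c.natAbs * k := by
  obtain ⟨a, b, e⟩ := hcop
  have h1 := Int.gcd_dvd_left (c * n) ((v * k : ℕ) : ℤ)
  have h2 := Int.gcd_dvd_right (c * n) ((v * k : ℕ) : ℤ)
  have h3 : ((Int.gcd (c * n) ((v * k : ℕ) : ℤ) : ℕ) : ℤ) ∣ c * k := by
    have e2 : c * k = (a * c) * ((v * k : ℕ) : ℤ) + (b * k) * (c * n) := by
      push_cast
      linear_combination (-(c * k)) * e
    rw [e2]
    exact (h2.mul_left _).add (h1.mul_left _)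
  have h4 := Int.natAbs_dvd_natAbs.2 h3
  rw [Int.natAbs_natCast, Int.natAbs_mul, Int.natAbs_natCast] at h4
  exact Nat.le_of_dvd (Nat.mul_pos (Int.natAbs_pos.2 hc) hk) h4

theorem jb4_osc {A X D l y Zb W Y1 : ℝ} (hZ : 1 ≤ Zb) (hW : 1 ≤ W) (hY : 1 ≤ Y1) (hl : 0 ≤ l)
    (hy : 64 * Zb ^ 3 * W ^ 3 * Y1 ^ 3 ≤ y) (hA : A ≤ 2 * Zb * W * y * Y1) (hA0 : 0 ≤ A)
    (hX : y ≤ 4 * Zb * Y1 * X) (hD : D ≤ 2 * l) : A * D / X ^ 2 ≤ l / W := by
  have hy0 : 0 < y := lt_of_lt_of_le (by positivity) hy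
  have hX0 : 0 < X := by
    by_contra h
    have : 4 * Zb * Y1 * X ≤ 0 := mul_nonpos_of_nonneg_of_nonpos (by positivity) (not_lt.1 h)
    linarith
  have h1 : A * D ≤ 2 * Zb * W * y * Y1 * (2 * l) :=
    (mul_le_mul_of_nonneg_left hD hA0).trans (mul_le_mul_of_nonneg_right hA (by positivity))
  have h2 : y ^ 2 ≤ (4 * Zb * Y1 * X) ^ 2 := pow_le_pow_left₀ hy0.le hX 2
  have h3 : 4 * Zb * W ^ 2 * Y1 * y ≤ X ^ 2 := by
    have h4 : 64 * Zb ^ 3 * W ^ 2 * Y1 ^ 3 ≤ y := by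
      refine le_trans ?_ hy
      have : W ^ 2 ≤ W ^ 3 := pow_le_pow_right₀ hW (by norm_num)
      gcongr
    have h5 : (16 * Zb ^ 2 * Y1 ^ 2) * (4 * Zb * W ^ 2 * Y1 * y) ≤ (16 * Zb ^ 2 * Y1 ^ 2) * X ^ 2 := by
      have := mul_le_mul_of_nonneg_right h4 hy0.le
      nlinarith
    exact le_of_mul_le_mul_left h5 (by positivity)
  rw [div_le_div_iff₀ (by positivity) (by positivity)]
  calc A * D * W ≤ 2 * Zb * W * y * Y1 * (2 * l) * W := mul_le_mul_of_nonneg_right h1 (by positivity)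
    _ = l * (4 * Zb * W ^ 2 * Y1 * y) := by ring
    _ ≤ l * X ^ 2 := mul_le_mul_of_nonneg_left h3 hl

theorem far_pair : ∃ C : ℝ, 1 ≤ C ∧ ∀ (v δ Q h p p' Zb W Y1 y L m0 : ℕ) (N R : ℤ), 1 ≤ v → 1 ≤ δ →
    1 ≤ Q → Q ≤ Zb → 1 ≤ h → h ≤ Zb → p.Prime → p'.Prime → p ≠ p' → p < W → p' < W →
    IsCoprime (v : ℤ) R → v * δ ≤ Y1 → |R| ≤ 2 * y * Y1 → 64 * Zb ^ 3 * W ^ 3 * Y1 ^ 3 ≤ y →
    y ≤ 2 ^ L → 1 ≤ L → 1 ≤ m0 → m0 ≤ Zb →
    ((∃ r : ℕ, r.Prime ∧ r ∣ δ ∧ W ≤ r ∧ ¬ r ∣ h ∧ ¬ (r : ℤ) ∣ v * N - R) ∨ Zb * W ^ 2 ≤ v ∨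
      (δ = 1 ∧ ((Zb * W ^ 3 * v * y : ℕ) : ℤ) ≤ |R|)) →
    ‖PS (v * δ * Q * p * p') (h * (v * N - R) * ((p' : ℤ) - p))
        (h * R * ((p' : ℝ) - p) / (v * δ * Q * p * p' : ℕ)) (y / ((m0 + 1) * δ)) (y / (m0 * δ))‖ ≤
      C * L * (y / ((m0 : ℝ) * (m0 + 1) * δ)) / W := by
  refine ⟨17, by norm_num, ?_⟩
  intro v δ Q h p p' Zb W Y1 y L m0 N R hv hδ hQ hQZ hh hhZ hp hp' hne hpW hp'W hcop hvY hR hy hyL
    hL hm0 hm0Z hcase
  have hp1 := hp.one_le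
  have hp1' := hp'.one_le
  have hδY : δ ≤ Y1 := le_trans (Nat.le_mul_of_pos_left δ hv) hvY
  have hm1 : 1 ≤ v * δ * Q * p * p' :=
    Nat.mul_pos (Nat.mul_pos (Nat.mul_pos (Nat.mul_pos hv hδ) hQ) hp1) hp1'
  have hmle : v * δ * Q * p * p' ≤ Y1 * Zb * W * W :=
    Nat.mul_le_mul (Nat.mul_le_mul (Nat.mul_le_mul hvY hQZ) hpW.le) hp'W.le
  have hXX : y / ((m0 + 1) * δ) ≤ y / (m0 * δ) :=
    Nat.div_le_div_left (Nat.mul_le_mul_right _ (Nat.le_succ _)) (Nat.mul_pos hm0 hδ)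
  have hd1 : 1 ≤ |(p' : ℤ) - p| := Int.one_le_abs (by omega)
  have hdW : |(p' : ℤ) - p| < W := abs_lt.2 ⟨by omega, by omega⟩
  have hg : (∃ r : ℕ, r.Prime ∧ r ∣ δ ∧ W ≤ r ∧ ¬ r ∣ h ∧ ¬ (r : ℤ) ∣ v * N - R) ∨ Zb * W ^ 2 ≤ v →
      Int.gcd (h * (v * N - R) * ((p' : ℤ) - p)) ((v * δ * Q * p * p' : ℕ) : ℤ) * W ≤
        v * δ * Q * p * p' := by
    rintro (⟨r, hr, hrδ, hWr, hrh, hrN⟩ | h2)
    · refine jb4_gcd1 hm1 hr ((((hrδ.mul_left v).mul_right Q).mul_right p).mul_right p') hWr ?_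
      have hri : Prime (r : ℤ) := Nat.prime_iff_prime_int.1 hr
      intro hd
      rcases hri.dvd_or_dvd hd with hd | hd
      · rcases hri.dvd_or_dvd hd with hd | hd
        · exact hrh (Int.natCast_dvd_natCast.1 hd)
        · exact hrN hd
      · have := Int.le_of_dvd (by omega) ((dvd_abs _ _).2 hd)
        omega
    · have hc : IsCoprime (v : ℤ) (v * N - R) := by
        obtain ⟨a, b, e⟩ := hcop
        exact ⟨a + b * N, -b, by linear_combination e⟩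
      have hc0 : (h : ℤ) * ((p' : ℤ) - p) ≠ 0 := mul_ne_zero (by omega) (by omega)
      have hk : 1 ≤ δ * Q * p * p' := Nat.mul_pos (Nat.mul_pos (Nat.mul_pos hδ hQ) hp1) hp1'
      have := jb4_gcd2 hk hc0 hc
      have e1 : (h : ℤ) * ((p' : ℤ) - p) * (v * N - R) = h * (v * N - R) * ((p' : ℤ) - p) := by ring
      have e2 : v * (δ * Q * p * p') = v * δ * Q * p * p' := by ring
      rw [e1, e2, Int.natAbs_mul, Int.natAbs_natCast] at this
      have h3 : ((p' : ℤ) - p).natAbs ≤ W := by omega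
      calc _ ≤ h * ((p' : ℤ) - p).natAbs * (δ * Q * p * p') * W := Nat.mul_le_mul_right _ this
        _ ≤ Zb * W * (δ * Q * p * p') * W := by gcongr
        _ = Zb * W ^ 2 * (δ * Q * p * p') := by ring
        _ ≤ v * (δ * Q * p * p') := Nat.mul_le_mul_right _ h2
        _ = _ := e2
  -- real versions
  have rZ : (1 : ℝ) ≤ Zb := by exact_mod_cast hQ.trans hQZ
  have rW : (1 : ℝ) ≤ W := by exact_mod_cast hp1.trans hpW.le
  have rY : (1 : ℝ) ≤ Y1 := by exact_mod_cast hδ.trans hδY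
  have rδ : (1 : ℝ) ≤ δ := by exact_mod_cast hδ
  have rδY : (δ : ℝ) ≤ Y1 := by exact_mod_cast hδY
  have rm0 : (1 : ℝ) ≤ m0 := by exact_mod_cast hm0
  have rm0Z : (m0 : ℝ) ≤ Zb := by exact_mod_cast hm0Z
  have rL : (1 : ℝ) ≤ L := by exact_mod_cast hL
  have ry : 64 * (Zb : ℝ) ^ 3 * (W : ℝ) ^ 3 * (Y1 : ℝ) ^ 3 ≤ y := by exact_mod_cast hy
  have ry0 : (0 : ℝ) < y := lt_of_lt_of_le (by positivity) ry
  have rh : (1 : ℝ) ≤ h := by exact_mod_cast hh
  have rhZ : (h : ℝ) ≤ Zb := by exact_mod_cast hhZ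
  have rR : |(R : ℝ)| ≤ 2 * y * Y1 := by exact_mod_cast hR
  have rd1 : 1 ≤ |(p' : ℝ) - p| := by exact_mod_cast hd1
  have rdW : |(p' : ℝ) - p| ≤ W := by exact_mod_cast hdW.le
  have hXlo : (y : ℝ) / ((m0 + 1) * δ) < ((y / ((m0 + 1) * δ) : ℕ) : ℝ) + 1 := by
    have := Nat.lt_floor_add_one ((y : ℝ) / (((m0 + 1) * δ : ℕ) : ℝ))
    rw [Nat.floor_div_eq_div] at this
    push_cast at this
    exact this
  have hXhi : ((y / (m0 * δ) : ℕ) : ℝ) ≤ (y : ℝ) / (m0 * δ) := by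
    have := Nat.cast_div_le (α := ℝ) (m := y) (n := m0 * δ)
    push_cast at this
    exact this
  generalize hmm : v * δ * Q * p * p' = m at *
  generalize y / ((m0 + 1) * δ) = X at *
  generalize y / (m0 * δ) = X' at *
  generalize (h : ℤ) * (v * N - R) * ((p' : ℤ) - p) = b at *
  have rm1 : (1 : ℝ) ≤ m := by exact_mod_cast hm1
  have rmle : (m : ℝ) ≤ Y1 * Zb * W * W := by exact_mod_cast hmle
  set l : ℝ := y / ((m0 : ℝ) * (m0 + 1) * δ) with hl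
  set α : ℝ := h * R * ((p' : ℝ) - p) / m with hα
  have hl32 : 32 * Zb * (W : ℝ) ^ 3 * (Y1 : ℝ) ^ 2 ≤ l := by
    rw [hl, le_div_iff₀ (by positivity)]
    refine le_trans ?_ ry
    calc 32 * Zb * (W : ℝ) ^ 3 * (Y1 : ℝ) ^ 2 * (m0 * (m0 + 1) * δ)
        ≤ 32 * Zb * (W : ℝ) ^ 3 * (Y1 : ℝ) ^ 2 * (Zb * (Zb + Zb) * Y1) := by gcongr
      _ = _ := by ring
  have hone : (1 : ℝ) ≤ Zb * (W : ℝ) ^ 3 * (Y1 : ℝ) ^ 2 :=
    one_le_mul_of_one_le_of_one_le (one_le_mul_of_one_le_of_one_le rZ (one_le_pow₀ rW))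
      (one_le_pow₀ rY)
  have hl1 : 32 ≤ l := by linarith
  have hly : l ≤ y := by
    rw [hl]
    refine div_le_self ry0.le ?_
    exact one_le_mul_of_one_le_of_one_le (one_le_mul_of_one_le_of_one_le rm0 (by linarith)) rδ
  have hx : (y : ℝ) / ((m0 + 1) * δ) = m0 * l := by
    rw [hl]
    field_simp
  have hx' : (y : ℝ) / (m0 * δ) = (m0 + 1) * l := by
    rw [hl]
    field_simp
  rw [hx] at hXlo
  rw [hx'] at hXhi
  have hml : l ≤ m0 * l := le_mul_of_one_le_left (by linarith) rm0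
  have rX : (1 : ℝ) ≤ X := by linarith
  have hX1 : 1 ≤ X := by exact_mod_cast rX
  have hD : (X' : ℝ) - X ≤ 2 * l := by linarith
  have hD0 : (0 : ℝ) ≤ (X' : ℝ) - X := by
    have : (X : ℝ) ≤ X' := by exact_mod_cast hXX
    linarith
  have hyX : (y : ℝ) ≤ 4 * Zb * Y1 * X := by
    have e : (y : ℝ) = (m0 + 1) * δ * (m0 * l) := by
      rw [hl]
      field_simp
    calc (y : ℝ) = (m0 + 1) * δ * (m0 * l) := e
      _ ≤ (Zb + Zb) * Y1 * (2 * X) :=
        mul_le_mul (mul_le_mul (by linarith) rδY (by linarith) (by linarith)) (by linarith)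
          (by positivity) (by positivity)
      _ = _ := by ring
  have hmW : (m : ℝ) ≤ l / W := by
    rw [le_div_iff₀ (by positivity)]
    calc (m : ℝ) * W ≤ Y1 * Zb * W * W * W := mul_le_mul_of_nonneg_right rmle (by positivity)
      _ = Zb * (W : ℝ) ^ 3 * (Y1 : ℝ) ^ 1 := by ring
      _ ≤ Zb * (W : ℝ) ^ 3 * (Y1 : ℝ) ^ 2 :=
        mul_le_mul_of_nonneg_left (pow_le_pow_right₀ rY (by norm_num)) (by positivity)
      _ ≤ l := by linarith
  have hαm : |α| * m = h * |(R : ℝ)| * |(p' : ℝ) - p| := by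
    rw [hα, abs_div, abs_mul, abs_mul, Nat.abs_cast, Nat.abs_cast]
    field_simp
  have hA : |α| * m ≤ 2 * Zb * W * y * Y1 := by
    rw [hαm]
    calc (h : ℝ) * |(R : ℝ)| * |(p' : ℝ) - p| ≤ Zb * (2 * y * Y1) * W := by gcongr
      _ = _ := by ring
  have hosc := jb4_osc rZ rW rY (by linarith) ry hA (by positivity) hyX hD
  have hlW : 0 ≤ l / W := by positivity
  have hLl : l / W ≤ L * (l / W) := le_mul_of_one_le_left hlW rL
  have hfin : 17 * (L : ℝ) * l / W = 17 * (L * (l / W)) := by ring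
  rw [hfin]
  rcases or_assoc.2 hcase with hc | ⟨hδ1, hc⟩
  · have rg : (Int.gcd b m : ℝ) * W ≤ m := by exact_mod_cast hg hc
    have hlog : 1 + Real.log m ≤ 2 * L := by
      have h1 : (m : ℝ) ≤ 2 ^ L := by
        have h2 : (y : ℝ) ≤ 2 ^ L := by exact_mod_cast hyL
        have h3 : l / W ≤ l := div_le_self (by linarith) rW
        linarith
      have h2 := Real.log_le_log (by linarith) h1
      rw [Real.log_pow] at h2
      have h3 : Real.log 2 ≤ 1 := by have := Real.log_two_lt_d9; linarith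
      nlinarith
    have hlog0 : 0 ≤ 1 + Real.log m := by have := Real.log_nonneg rm1; linarith
    have h1 : (Int.gcd b m : ℝ) * (1 + Real.log m) / m * ((X' : ℝ) - X) ≤ 4 * (L * (l / W)) := by
      have h2 : (Int.gcd b m : ℝ) / m ≤ 1 / W := by
        rw [div_le_div_iff₀ (by linarith) (by linarith)]
        linarith
      calc (Int.gcd b m : ℝ) * (1 + Real.log m) / m * ((X' : ℝ) - X)
          = (Int.gcd b m : ℝ) / m * (1 + Real.log m) * ((X' : ℝ) - X) := by ring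
        _ ≤ 1 / W * (2 * L) * (2 * l) := by gcongr
        _ = _ := by ring
    have h2 := pair_a m hm1 b α X X' hX1 hXX
    have e : 7 * |α| * m * ((X' : ℝ) - X) / (X : ℝ) ^ 2 =
        7 * (|α| * m * ((X' : ℝ) - X) / (X : ℝ) ^ 2) := by ring
    rw [e] at h2
    linarith
  · subst hδ1
    have rc : (Zb : ℝ) * (W : ℝ) ^ 3 * v * y ≤ |(R : ℝ)| := by exact_mod_cast hc
    have hmv : (m : ℝ) ≤ v * Zb * W * W := by
      have : m ≤ v * Zb * W * W := by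
        rw [← hmm, mul_one]
        exact Nat.mul_le_mul (Nat.mul_le_mul (Nat.mul_le_mul le_rfl hQZ) hpW.le) hp'W.le
      exact_mod_cast this
    have hαlo : (W : ℝ) * y ≤ |α| := by
      have h1 : (W : ℝ) * y * m ≤ |α| * m := by
        rw [hαm]
        calc (W : ℝ) * y * m ≤ W * y * (v * Zb * W * W) :=
              mul_le_mul_of_nonneg_left hmv (by positivity)
          _ = 1 * (Zb * (W : ℝ) ^ 3 * v * y) * 1 := by ring
          _ ≤ _ := by gcongr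
      exact le_of_mul_le_mul_right h1 (by linarith)
    have hWy : (0 : ℝ) < W * y := by positivity
    have hα0 : α ≠ 0 := abs_pos.1 (lt_of_lt_of_le hWy hαlo)
    have h1 : (X' : ℝ) ^ 2 / |α| ≤ 2 * (l / W) := by
      have e : (y : ℝ) = m0 * (m0 + 1) * l := by
        rw [hl]
        field_simp
        simp
      calc (X' : ℝ) ^ 2 / |α| ≤ ((m0 + 1) * l) ^ 2 / (W * y) := by gcongr
        _ ≤ 2 * (l / W) := by
          rw [div_le_iff₀ hWy]
          have e2 : 2 * (l / W) * (W * y) = 2 * l * y := by field_simp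
          rw [e2]
          have h3 : ((m0 + 1) * l) ^ 2 = (m0 + 1) * ((m0 + 1) * l * l) := by ring
          have h4 : 2 * l * y = (m0 + m0) * ((m0 + 1) * l * l) := by
            rw [e]
            ring
          rw [h3, h4]
          exact mul_le_mul_of_nonneg_right (by linarith) (by positivity)
    have h2 := pair_b m hm1 b α hα0 X X' hX1 hXX
    have e : 14 * |α| * m * ((X' : ℝ) - X) / (X : ℝ) ^ 2 =
        14 * (|α| * m * ((X' : ℝ) - X) / (X : ℝ) ^ 2) := by ring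
    rw [e] at h2
    linarith

end

end Pool.Agent.Jac
end

-- part Pool.Agent.P.MP_45ff98_nt.JB5
section

/-! One cell of a far fraction. -/

namespace Pool.Agent.Jac
open Finset

noncomputable section

theorem JB5_norm_ch (m : ℕ) (b : ℤ) (n : ℕ) : ‖ch m b n‖ = 1 := norm_ee _

theorem JB5_Gt_le (V Q h : ℕ) (Ns R : ℤ) (Pi : Finset ℕ) (β : ℕ → ℂ) (n : ℕ)
    (hs : ∑ p ∈ Pi, 1 / (p : ℝ) ≤ 3) (hβ : ∀ p, ‖β p‖ ≤ 1) : ‖Gt V Q h Ns R Pi β n‖ ≤ 3 := by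
  refine (norm_sum_le _ _).trans (le_trans ?_ hs)
  refine (sum_le_sum (g := fun p : ℕ => 1 / (p : ℝ)) fun p _ => ?_).trans
    (sum_le_sum_of_subset_of_nonneg (filter_subset _ _) fun p _ _ => by positivity)
  rw [norm_mul, norm_mul, norm_mul, JB5_norm_ch, norm_ee, mul_one, mul_one, norm_div, norm_one,
    Complex.norm_natCast]
  exact mul_le_of_le_one_right (by positivity) (hβ p)

theorem JB5_inner_le (Pi : Finset ℕ) (β : ℕ → ℂ) (x : ℕ → ℝ)
    (hs : ∑ p ∈ Pi, 1 / (p : ℝ) ≤ 3) (hβ : ∀ p, ‖β p‖ ≤ 1) :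
    ‖∑ p ∈ Pi, 1 / (p : ℂ) * β p * ee (x p)‖ ≤ 3 := by
  refine (norm_sum_le _ _).trans (le_trans (sum_le_sum fun p _ => ?_) hs)
  rw [norm_mul, norm_mul, norm_ee, mul_one, norm_div, norm_one, Complex.norm_natCast]
  exact mul_le_of_le_one_right (by positivity) (hβ p)

theorem JB5_cop (v δ n p Q W : ℕ) (N R : ℤ) (hvR : IsCoprime (v : ℤ) R)
    (hd : (n : ℤ) ∣ v * N - R) (hδ : n.Coprime δ) (hn : ∀ r : ℕ, r.Prime → r ∣ n → W ≤ r)
    (hp : p.Prime) (hpW : p < W) (hQ : ∀ r : ℕ, r.Prime → r ∣ Q → r < W) :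
    n.Coprime (v * δ * p * Q) := by
  refine Nat.Coprime.mul_right (Nat.Coprime.mul_right (Nat.Coprime.mul_right ?_ hδ) ?_) ?_
  · refine Nat.coprime_of_dvd fun r hr h1 h2 => ?_
    have h3 : (r : ℤ) ∣ v := Int.natCast_dvd_natCast.2 h2
    have h4 : (r : ℤ) ∣ v * N - R := (Int.natCast_dvd_natCast.2 h1).trans hd
    have h5 : (r : ℤ) ∣ R := by
      have := dvd_sub (h3.mul_right N) h4
      simpa using this
    have h6 := hvR.isUnit_of_dvd' h3 h5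
    rw [Int.isUnit_iff] at h6
    have := hr.two_le
    omega
  · refine Nat.coprime_of_dvd fun r hr h1 h2 => ?_
    have := hn r hr h1
    have := (Nat.prime_dvd_prime_iff_eq hr hp).1 h2
    omega
  · refine Nat.coprime_of_dvd fun r hr h1 h2 => ?_
    have := hn r hr h1
    have := hQ r hr h2
    omega

/-- change of phase for one index -/
theorem JB5_phase (v δ n Q h : ℕ) (N R : ℤ) (Pi : Finset ℕ) (β : ℕ → ℂ) (θ ε : ℝ) (hv : 1 ≤ v)
    (hδ : 1 ≤ δ) (hn : 1 ≤ n) (hQ : 1 ≤ Q) (hd : (n : ℤ) ∣ v * N - R)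
    (hP : ∀ p ∈ Pi, 1 ≤ p ∧ n.Coprime (v * δ * p * Q)) (hs : ∑ p ∈ Pi, 1 / (p : ℝ) ≤ 3)
    (hβ : ∀ p, ‖β p‖ ≤ 1 ∧ (β p ≠ 0 → 2 * h ≤ p * Q))
    (hθ : |((N % (δ * n : ℕ) : ℤ) : ℝ) / (δ * n : ℕ) - θ| ≤ ε) :
    ‖∑ p ∈ Pi, 1 / (p : ℂ) * β p * ee (h * (N / (δ * n : ℕ) : ℤ) / ((p : ℝ) * Q))‖ ≤
      ‖Gt (v * δ) Q h (v * N - R) R Pi (fun p => β p * ee (-(h * θ / ((p : ℝ) * Q)))) n‖
        + 10 * ε := by
  have hε : 0 ≤ ε := (abs_nonneg _).trans hθ
  set t : ℝ := ((N % (δ * n : ℕ) : ℤ) : ℝ) / ((δ * n : ℕ) : ℝ) with ht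
  refine (norm_le_norm_add_norm_sub' _
    (Gt (v * δ) Q h (v * N - R) R Pi (fun p => β p * ee (-(h * θ / ((p : ℝ) * Q)))) n)).trans ?_
  refine add_le_add le_rfl ?_
  rw [Gt, filter_true_of_mem fun p hp => (hP p hp).2, ← sum_sub_distrib]
  have key : ∀ p ∈ Pi, ‖1 / (p : ℂ) * β p * ee (h * (N / (δ * n : ℕ) : ℤ) / ((p : ℝ) * Q)) -
      1 / (p : ℂ) * (β p * ee (-(h * θ / ((p : ℝ) * Q)))) * ch (v * δ * p * Q) (h * (v * N - R)) n *
        ee (h * R / ((n : ℝ) * ((v * δ : ℕ) * p * Q)))‖ ≤ 1 / (p : ℝ) * (Real.pi * ε) := by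
    intro p hp
    rw [phase v δ n p Q h N R hv hδ hn (hP p hp).1 hQ hd (hP p hp).2, ← ht]
    by_cases h0 : β p = 0
    · simp only [h0, mul_zero, zero_mul, sub_zero, norm_zero]
      positivity
    have h2 : (2 : ℝ) * h ≤ p * Q := by exact_mod_cast (hβ p).2 h0
    have hp0 : (0 : ℝ) < p := by exact_mod_cast (hP p hp).1
    have hQ0 : (0 : ℝ) < Q := by exact_mod_cast hQ
    have e : 1 / (p : ℂ) * β p * (ch (v * δ * p * Q) (h * (v * N - R)) n *
        ee (h * R / ((n : ℝ) * ((v * δ : ℕ) * p * Q))) * ee (-(h * t / ((p : ℝ) * Q)))) -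
        1 / (p : ℂ) * (β p * ee (-(h * θ / ((p : ℝ) * Q)))) *
          ch (v * δ * p * Q) (h * (v * N - R)) n * ee (h * R / ((n : ℝ) * ((v * δ : ℕ) * p * Q))) =
        1 / (p : ℂ) * β p * ch (v * δ * p * Q) (h * (v * N - R)) n *
          ee (h * R / ((n : ℝ) * ((v * δ : ℕ) * p * Q))) *
          (ee (-(h * t / ((p : ℝ) * Q))) - ee (-(h * θ / ((p : ℝ) * Q)))) := by ring
    rw [e, norm_mul, norm_mul, norm_mul, norm_mul, JB5_norm_ch, norm_ee, mul_one, mul_one,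
      norm_div, norm_one, Complex.norm_natCast]
    have h3 : ‖ee (-(h * t / ((p : ℝ) * Q))) - ee (-(h * θ / ((p : ℝ) * Q)))‖ ≤ Real.pi * ε := by
      refine (norm_ee_sub _ _).trans ?_
      have e2 : -(h * t / ((p : ℝ) * Q)) - -(h * θ / ((p : ℝ) * Q)) =
          -(h / ((p : ℝ) * Q) * (t - θ)) := by ring
      rw [e2, abs_neg, abs_mul, abs_of_nonneg (by positivity : (0 : ℝ) ≤ h / ((p : ℝ) * Q))]
      have h4 : (h : ℝ) / ((p : ℝ) * Q) ≤ 1 / 2 := by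
        rw [div_le_iff₀ (by positivity)]; linarith
      have h5 : (h : ℝ) / ((p : ℝ) * Q) * |t - θ| ≤ 1 / 2 * ε :=
        mul_le_mul h4 hθ (abs_nonneg _) (by norm_num)
      have := Real.pi_pos
      nlinarith
    calc 1 / (p : ℝ) * ‖β p‖ * ‖ee (-(h * t / ((p : ℝ) * Q))) - ee (-(h * θ / ((p : ℝ) * Q)))‖
        ≤ 1 / (p : ℝ) * 1 * (Real.pi * ε) :=
          mul_le_mul (mul_le_mul_of_nonneg_left (hβ p).1 (by positivity)) h3 (norm_nonneg _)
            (by positivity)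
      _ = 1 / (p : ℝ) * (Real.pi * ε) := by ring
  refine (norm_sum_le _ _).trans ((sum_le_sum key).trans ?_)
  rw [← sum_mul]
  have h1 : (∑ p ∈ Pi, 1 / (p : ℝ)) * (Real.pi * ε) ≤ 3 * (Real.pi * ε) :=
    mul_le_mul_of_nonneg_right hs (by positivity)
  have h2 := Real.pi_lt_d2
  nlinarith

/-- weighted Cauchy-Schwarz and summation over the cell -/
theorem JB5_cs {ι : Type} (I : Finset ι) (w : ι → ℝ) (g : ι → ℕ → ℝ) (J : Finset ℕ)
    (Om a Dd : ℝ) (hw : ∀ i, 0 ≤ w i) (hs : ∑ i ∈ I, w i ≤ Om) (ha : 0 ≤ a) (hD : 0 ≤ Dd)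
    (h1 : ∀ n ∈ J, a ≤ ∑ i ∈ I, w i * g i n) (h2 : ∀ i ∈ I, ∑ n ∈ J, g i n ^ 2 ≤ Dd) :
    (J.card : ℝ) * a ^ 2 ≤ Om ^ 2 * Dd := by
  have hO : 0 ≤ Om := (sum_nonneg fun i _ => hw i).trans hs
  have h3 : ∀ n ∈ J, a ^ 2 ≤ Om * ∑ i ∈ I, w i * g i n ^ 2 := fun n hn => by
    have h4 : (∑ i ∈ I, w i * g i n) ^ 2 ≤ (∑ i ∈ I, w i) * ∑ i ∈ I, w i * g i n ^ 2 :=
      sum_sq_le_sum_mul_sum_of_sq_le_mul I (fun i _ => hw i)
        (fun i _ => mul_nonneg (hw i) (sq_nonneg _)) (fun i _ => le_of_eq (by ring))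
    exact (pow_le_pow_left₀ ha (h1 n hn) 2).trans (h4.trans (mul_le_mul_of_nonneg_right hs
      (sum_nonneg fun i _ => mul_nonneg (hw i) (sq_nonneg _))))
  calc (J.card : ℝ) * a ^ 2 = ∑ _n ∈ J, a ^ 2 := by rw [sum_const, nsmul_eq_mul]
    _ ≤ ∑ n ∈ J, Om * ∑ i ∈ I, w i * g i n ^ 2 := sum_le_sum h3
    _ = Om * ∑ i ∈ I, w i * ∑ n ∈ J, g i n ^ 2 := by
      rw [← mul_sum, sum_comm]
      simp only [mul_sum]
    _ ≤ Om * ∑ i ∈ I, w i * Dd :=
      mul_le_mul_of_nonneg_left (sum_le_sum fun i hi =>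
        mul_le_mul_of_nonneg_left (h2 i hi) (hw i)) hO
    _ ≤ Om * (Om * Dd) := by
      rw [← sum_mul]
      exact mul_le_mul_of_nonneg_left (mul_le_mul_of_nonneg_right hs hD) hO
    _ = Om ^ 2 * Dd := by ring

theorem JB5_len (y δ m0 : ℕ) (hδ : 1 ≤ δ) (hm : 1 ≤ m0) (h : m0 * (m0 + 1) * δ ≤ y) :
    ((y / (m0 * δ) : ℕ) : ℝ) - ((y / ((m0 + 1) * δ) : ℕ) : ℝ) ≤
      2 * (y / ((m0 : ℝ) * (m0 + 1) * δ)) := by
  have hδ0 : (0 : ℝ) < δ := by exact_mod_cast hδ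
  have hm0 : (0 : ℝ) < m0 := by exact_mod_cast hm
  have h1 : ((y / (m0 * δ) : ℕ) : ℝ) ≤ y / ((m0 : ℝ) * δ) := by
    have := @Nat.cast_div_le ℝ _ _ _ y (m0 * δ)
    simpa using this
  have h2 : (y : ℝ) / (((m0 : ℝ) + 1) * δ) ≤ ((y / ((m0 + 1) * δ) : ℕ) : ℝ) + 1 := by
    rw [div_le_iff₀ (by positivity)]
    have h3 := Nat.lt_div_mul_add (a := y) (b := (m0 + 1) * δ) (by positivity)
    have h4 : (y : ℝ) < ((y / ((m0 + 1) * δ) : ℕ) : ℝ) * (((m0 : ℝ) + 1) * δ) +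
        ((m0 : ℝ) + 1) * δ := by exact_mod_cast h3
    linarith
  have h3 : (1 : ℝ) ≤ y / ((m0 : ℝ) * (m0 + 1) * δ) := by
    rw [le_div_iff₀ (by positivity), one_mul]; exact_mod_cast h
  have h4 : (y : ℝ) / ((m0 : ℝ) * δ) - y / (((m0 : ℝ) + 1) * δ) =
      y / ((m0 : ℝ) * (m0 + 1) * δ) := by field_simp; ring
  linarith

theorem cell_bound : ∃ C : ℝ, 1 ≤ C ∧ ∀ {ι : Type} (D : Dat1 ι) (Om c θ : ℝ)
    (Zb W P1 Y1 y L v δ m0 : ℕ) (N R : ℤ) (cc : Cl) (J : Finset ℕ), D.Ok Om Zb W P1 → 1 ≤ P1 →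
    y ≤ 2 ^ L → 1 ≤ L → 1 ≤ v → 1 ≤ δ → IsCoprime (v : ℤ) R → v * δ ≤ Y1 → |R| ≤ 2 * y * Y1 →
    64 * Zb ^ 3 * W ^ 3 * Y1 ^ 3 ≤ y → 1 ≤ m0 → m0 ≤ Zb → 0 < c → 12 * Om ≤ c * W →
    (∀ r : ℕ, r.Prime → r ∣ δ → W ≤ r ∧ ¬ (r : ℤ) ∣ v * N - R) →
    (1 < δ ∨ Zb * W ^ 2 ≤ v ∨ ((Zb * W ^ 3 * v * y : ℕ) : ℤ) ≤ |R|) →
    (∀ n ∈ J, 1 ≤ n ∧ y / (δ * n) = m0 ∧ (n : ℤ) ∣ v * N - R ∧ n.Coprime δ ∧
      (∀ r : ℕ, r.Prime → r ∣ n → W ≤ r) ∧ c ≤ D.B cc (N / (δ * n : ℕ)) ∧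
      |((N % (δ * n : ℕ) : ℤ) : ℝ) / (δ * n : ℕ) - θ| ≤ c / (20 * Om)) →
    (J.card : ℝ) ≤ C * (Om / c) ^ 2 * L * (1 / P1 + 1 / W) * (y / ((m0 : ℝ) * (m0 + 1) * δ)) := by
  obtain ⟨C, hC, hfar⟩ := far_pair
  refine ⟨144 * C + 96, by linarith, ?_⟩
  intro ι D Om c θ Zb W P1 Y1 y L v δ m0 N R cc J hD hP1 hyL hL hv hδ hvR hY hR hy hm hmZ hc hOm
    hδp hcase hJ
  have hP0 : (0 : ℝ) < P1 := by exact_mod_cast hP1
  have hL1 : (1 : ℝ) ≤ L := by exact_mod_cast hL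
  rcases J.eq_empty_or_nonempty with rfl | ⟨n0, hn0⟩
  · rw [card_empty, Nat.cast_zero]
    have : (0 : ℝ) ≤ C := by linarith
    positivity
  have hO : 0 < Om := by
    have h1 := (hJ n0 hn0).2.2.2.2.2.1
    have h2 : D.B cc (N / (δ * n0 : ℕ)) ≤ ∑ i ∈ D.I, D.wt i * 3 :=
      sum_le_sum fun i _ => mul_le_mul_of_nonneg_left
        (JB5_inner_le D.Pi (D.β cc i) _ hD.Ps fun p => (hD.βb cc i p).1) (hD.wt0 i)
    rw [← sum_mul] at h2
    have := hD.sum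
    linarith
  have hW0 : (0 : ℝ) < W := by
    by_contra h
    have : (W : ℝ) = 0 := le_antisymm (not_lt.1 h) (by positivity)
    rw [this] at hOm
    linarith
  have hW : 1 ≤ W := by exact_mod_cast hW0
  set β' : ι → ℕ → ℂ := fun i p => D.β cc i p * ee (-(D.h i * θ / ((p : ℝ) * D.Q i))) with hβ'
  have hβ1 : ∀ i p, ‖β' i p‖ ≤ 1 := fun i p => by
    simp only [hβ', norm_mul, norm_ee, mul_one]
    exact (hD.βb cc i p).1
  set g : ι → ℕ → ℝ := fun i n => ‖Gt (v * δ) (D.Q i) (D.h i) (v * N - R) R D.Pi (β' i) n‖ with hg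
  have hhalf : ∀ n ∈ J, c / 2 ≤ ∑ i ∈ D.I, D.wt i * g i n := fun n hn => by
    obtain ⟨h1, -, h3, h4, h5, h6, h7⟩ := hJ n hn
    have h8 : D.B cc (N / (δ * n : ℕ)) ≤ ∑ i ∈ D.I, D.wt i * (g i n + 10 * (c / (20 * Om))) :=
      sum_le_sum fun i hi => mul_le_mul_of_nonneg_left
        (JB5_phase v δ n (D.Q i) (D.h i) N R D.Pi (D.β cc i) θ _ hv hδ h1 (hD.Qb i hi).1 h3
          (fun p hp => ⟨(hD.Pp p hp).1.one_lt.le, JB5_cop v δ n p (D.Q i) W N R hvR h3 h4 h5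
            (hD.Pp p hp).1 (hD.Pp p hp).2.2 (hD.Qp i hi)⟩) hD.Ps (hD.βb cc i) h7) (hD.wt0 i)
    simp only [mul_add, sum_add_distrib] at h8
    rw [← sum_mul] at h8
    have h9 : (∑ i ∈ D.I, D.wt i) * (10 * (c / (20 * Om))) ≤ Om * (10 * (c / (20 * Om))) :=
      mul_le_mul_of_nonneg_right hD.sum (by positivity)
    have h10 : Om * (10 * (c / (20 * Om))) = c / 2 := by field_simp; ring
    linarith
  obtain ⟨I', hI', hq, hf⟩ : ∃ I' ⊆ D.I, (∀ n ∈ J, c / 4 ≤ ∑ i ∈ I', D.wt i * g i n) ∧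
      ∀ i ∈ I', (∃ r : ℕ, r.Prime ∧ r ∣ δ ∧ W ≤ r ∧ ¬ r ∣ D.h i ∧ ¬ (r : ℤ) ∣ v * N - R) ∨
        Zb * W ^ 2 ≤ v ∨ (δ = 1 ∧ ((Zb * W ^ 3 * v * y : ℕ) : ℤ) ≤ |R|) := by
    by_cases h1 : 1 < δ
    · have hr : δ.minFac.Prime := Nat.minFac_prime h1.ne'
      obtain ⟨hr1, hr2⟩ := hδp _ hr (Nat.minFac_dvd δ)
      refine ⟨D.I.filter (fun i => ¬ δ.minFac ∣ D.h i), filter_subset _ _, fun n hn => ?_,
        fun i hi => Or.inl ⟨_, hr, Nat.minFac_dvd δ, hr1, (mem_filter.1 hi).2, hr2⟩⟩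
      have h2 := hhalf n hn
      rw [← sum_filter_add_sum_filter_not D.I (fun i => δ.minFac ∣ D.h i)] at h2
      have h3 : ∑ i ∈ D.I.filter (fun i => δ.minFac ∣ D.h i), D.wt i * g i n ≤
          ∑ i ∈ D.I.filter (fun i => δ.minFac ∣ D.h i), D.wt i * 3 :=
        sum_le_sum fun i _ => mul_le_mul_of_nonneg_left
          (JB5_Gt_le _ _ _ _ _ _ _ _ hD.Ps (hβ1 i)) (hD.wt0 i)
      rw [← sum_mul] at h3
      have h4 := hD.sumd _ hr.one_lt.le
      have h5 : Om / (δ.minFac : ℝ) ≤ Om / W :=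
        div_le_div_of_nonneg_left hO.le hW0 (by exact_mod_cast hr1)
      have h6 : Om / W ≤ c / 12 := by
        rw [div_le_iff₀ hW0]; linarith
      linarith
    · refine ⟨D.I, Subset.refl _, fun n hn => by linarith [hhalf n hn], fun i _ => Or.inr ?_⟩
      rcases hcase with h | h | h
      · exact absurd h h1
      · exact Or.inl h
      · exact Or.inr ⟨by omega, h⟩
  set l : ℝ := y / ((m0 : ℝ) * (m0 + 1) * δ) with hl
  have hl0 : 0 ≤ l := by positivity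
  have hsz : m0 * (m0 + 1) * δ ≤ y := by
    have h1 : δ ≤ Y1 := le_trans (Nat.le_mul_of_pos_left δ hv) hY
    have h2 : 1 ≤ Y1 := hδ.trans h1
    have h3 : 1 ≤ Zb := hm.trans hmZ
    have h4 : m0 * (m0 + 1) ≤ 64 * Zb ^ 3 := by
      have h5 : Zb * Zb ≤ Zb ^ 3 := by
        rw [← sq]; exact Nat.pow_le_pow_right h3 (by norm_num)
      have h6 : m0 * (m0 + 1) ≤ Zb * (2 * Zb) := Nat.mul_le_mul hmZ (by omega)
      nlinarith
    have h5 : δ ≤ Y1 ^ 3 := h1.trans (Nat.le_self_pow (by norm_num) Y1)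
    calc m0 * (m0 + 1) * δ ≤ 64 * Zb ^ 3 * 1 * Y1 ^ 3 := by
          rw [mul_one]; exact Nat.mul_le_mul h4 h5
      _ ≤ 64 * Zb ^ 3 * W ^ 3 * Y1 ^ 3 := by gcongr; exact Nat.one_le_pow _ _ hW
      _ ≤ y := hy
  have hlen := JB5_len y δ m0 hδ hm hsz
  rw [← hl] at hlen
  have hXX : y / ((m0 + 1) * δ) ≤ y / (m0 * δ) :=
    Nat.div_le_div_left (Nat.mul_le_mul_right δ (Nat.le_succ m0)) (by positivity)
  have hsub : J ⊆ Ioc (y / ((m0 + 1) * δ)) (y / (m0 * δ)) := fun n hn => by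
    obtain ⟨h1, h2, -⟩ := hJ n hn
    have h3 : 0 < δ * n := by positivity
    have h4 : m0 * (δ * n) ≤ y := by rw [← h2]; exact Nat.div_mul_le_self y (δ * n)
    have h5 : y < m0 * (δ * n) + δ * n := by
      have := Nat.lt_div_mul_add (a := y) h3
      rwa [h2] at this
    rw [mem_Ioc, Nat.div_lt_iff_lt_mul (by positivity), Nat.le_div_iff_mul_le (by positivity)]
    constructor <;> nlinarith
  have hη : 0 ≤ C * L * l / W := by
    have : (0 : ℝ) ≤ C := by linarith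
    positivity
  have hdisp : ∀ i ∈ I', ∑ n ∈ J, g i n ^ 2 ≤ 6 * l / P1 + 9 * (C * L * l / W) := fun i hi => by
    have hi' := hI' hi
    have h1 := disp (v * δ) (D.Q i) (D.h i) (Nat.mul_pos hv hδ) (hD.Qb i hi').1 (v * N - R) R D.Pi
      (β' i) P1 hP1 (fun p hp => ⟨(hD.Pp p hp).1, (hD.Pp p hp).2.1⟩) hD.Ps (hβ1 i) _ _ hXX
      (C * L * l / W) hη fun p hp p' hp' hne =>
        hfar v δ (D.Q i) (D.h i) p p' Zb W Y1 y L m0 N R hv hδ (hD.Qb i hi').1 (hD.Qb i hi').2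
          (hD.hb i hi').1 (hD.hb i hi').2 (hD.Pp p hp).1 (hD.Pp p' hp').1 hne (hD.Pp p hp).2.2
          (hD.Pp p' hp').2.2 hvR hY hR hy hyL hL hm hmZ (hf i hi)
    refine (sum_le_sum_of_subset_of_nonneg hsub fun n _ _ => sq_nonneg _).trans (h1.trans ?_)
    refine add_le_add (div_le_div_of_nonneg_right ?_ hP0.le) le_rfl
    linarith
  have hfin := JB5_cs I' D.wt g J Om (c / 4) _ hD.wt0
    ((sum_le_sum_of_subset_of_nonneg hI' fun i _ _ => hD.wt0 i).trans hD.sum) (by positivity)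
    (by positivity) hq hdisp
  have h1 : (J.card : ℝ) ≤ 16 * (Om / c) ^ 2 * (6 * l / P1 + 9 * (C * L * l / W)) := by
    have e : 16 * (Om / c) ^ 2 * (6 * l / P1 + 9 * (C * L * l / W)) =
        Om ^ 2 * (6 * l / P1 + 9 * (C * L * l / W)) / (c / 4) ^ 2 := by
      field_simp; ring
    rw [e, le_div_iff₀ (by positivity)]
    exact hfin
  refine h1.trans ?_
  have h2 : 16 * (6 * l / P1 + 9 * (C * L * l / W)) ≤
      (144 * C + 96) * L * (1 / P1 + 1 / W) * l := by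
    have a1 : 0 ≤ l / P1 := by positivity
    have a2 : 0 ≤ l / W := by positivity
    have e1 : 16 * (6 * l / P1 + 9 * (C * L * l / W)) =
        96 * (l / P1) + 144 * C * L * (l / W) := by ring
    have e2 : (144 * C + 96) * L * (1 / P1 + 1 / W) * l =
        (144 * C + 96) * L * (l / P1) + (144 * C + 96) * L * (l / W) := by ring
    rw [e1, e2]
    refine add_le_add (mul_le_mul_of_nonneg_right (by nlinarith) a1)
      (mul_le_mul_of_nonneg_right (by nlinarith) a2)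
  calc 16 * (Om / c) ^ 2 * (6 * l / P1 + 9 * (C * L * l / W))
      = (Om / c) ^ 2 * (16 * (6 * l / P1 + 9 * (C * L * l / W))) := by ring
    _ ≤ (Om / c) ^ 2 * ((144 * C + 96) * L * (1 / P1 + 1 / W) * l) :=
      mul_le_mul_of_nonneg_left h2 (sq_nonneg _)
    _ = _ := by ring

end

end Pool.Agent.Jac
end

-- part Pool.Agent.P.MP_45ff98_nt.JB6
section

/-! The mass of a far fraction. -/

namespace Pool.Agent.Jac
open Finset

noncomputable section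

theorem jb6_split (n : ℕ) (hn : 1 ≤ n) (hs : Squarefree n) (M : ℤ) :
    n / Int.gcd n M * Int.gcd n M = n ∧ 1 ≤ Int.gcd n M ∧ 1 ≤ n / Int.gcd n M ∧
      ((Int.gcd n M : ℕ) : ℤ) ∣ M ∧ (Int.gcd n M).Coprime (n / Int.gcd n M) ∧
      (∀ r : ℕ, r.Prime → r ∣ n / Int.gcd n M → ¬ (r : ℤ) ∣ M) ∧
      (∀ g : ℕ, 1 ≤ g → (n : ℤ) ∣ g * M → n / Int.gcd n M ≤ g) ∧
      (¬ (n : ℤ) ∣ M → 1 < n / Int.gcd n M) := by
  have h1 : Int.gcd n M ∣ n := by exact_mod_cast Int.gcd_dvd_left (n : ℤ) M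
  have h2 : ((Int.gcd n M : ℕ) : ℤ) ∣ M := Int.gcd_dvd_right _ _
  have h3 : ∀ r : ℕ, r ∣ n → (r : ℤ) ∣ M → r ∣ Int.gcd n M := fun r a b =>
    Int.dvd_gcd (by exact_mod_cast a) b
  generalize Int.gcd n M = d at h1 h2 h3
  have e : n / d * d = n := Nat.div_mul_cancel h1
  generalize n / d = δ at e
  have hd : 1 ≤ d := Nat.pos_of_dvd_of_pos h1 hn
  have hδ : 1 ≤ δ := Nat.pos_of_dvd_of_pos (Dvd.intro _ e) hn
  have hc : d.Coprime δ := by
    rw [← e] at hs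
    exact (Nat.squarefree_mul_iff.1 hs).1.symm
  have hp : ∀ r : ℕ, r.Prime → r ∣ δ → ¬ (r : ℤ) ∣ M := fun r hr a b => by
    have h4 := h3 r (a.trans (Dvd.intro _ e)) b
    exact hr.one_lt.ne' (Nat.eq_one_of_dvd_coprimes hc h4 a)
  refine ⟨e, hd, hδ, h2, hc, hp, ?_, ?_⟩
  · intro g hg hdv
    have h5 : δ ∣ g * M.natAbs := by
      have h6 : n ∣ g * M.natAbs := by
        have := Int.natAbs_dvd_natAbs.2 hdv
        simpa [Int.natAbs_mul] using this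
      exact (Dvd.intro _ e).trans h6
    have h7 : δ.Coprime M.natAbs := by
      refine Nat.Coprime.symm (Nat.coprime_of_dvd fun r hr a b => hp r hr b ?_)
      exact Int.natCast_dvd.2 a
    exact Nat.le_of_dvd hg (h7.dvd_of_dvd_mul_right h5)
  · intro h
    by_contra h8
    have h9 : δ = 1 := by omega
    rw [h9, one_mul] at e
    exact h (e ▸ h2)

theorem jb6_B_le {ι : Type} {D : Dat1 ι} {Om : ℝ} {Zb W P1 : ℕ} (h : D.Ok Om Zb W P1) (c : Cl)
    (ξ : ℤ) : D.B c ξ ≤ 3 * Om := by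
  have h1 : D.B c ξ ≤ ∑ i ∈ D.I, D.wt i * 3 := by
    refine sum_le_sum fun i _ => mul_le_mul_of_nonneg_left ?_ (h.wt0 i)
    refine (norm_sum_le _ _).trans (le_trans (sum_le_sum fun p _ => ?_) h.Ps)
    rw [norm_mul, norm_mul, norm_ee, mul_one, norm_div, norm_one, Complex.norm_natCast]
    exact mul_le_of_le_one_right (by positivity) (h.βb c i p).1
  rw [← sum_mul] at h1
  linarith [h.sum]

theorem jb6_harm {y L : ℕ} (hy : y ≤ 2 ^ L) (hL : 1 ≤ L) :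
    ∑ k ∈ Icc 1 y, 1 / (k : ℝ) ≤ 2 * L := by
  have h1 := harmonic_le_one_add_log y
  rw [harmonic_eq_sum_Icc] at h1
  push_cast at h1
  have hL' : (1 : ℝ) ≤ L := by exact_mod_cast hL
  have h2 : Real.log y ≤ L := by
    rcases Nat.eq_zero_or_pos y with h | h
    · rw [h]
      simp
    · have h3 : Real.log y ≤ Real.log ((2 : ℝ) ^ L) :=
        Real.log_le_log (by exact_mod_cast h) (by exact_mod_cast hy)
      rw [Real.log_pow] at h3
      have h4 := Real.log_two_lt_d9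
      nlinarith
  simp only [one_div]
  linarith

theorem jb6_fib {α β : Type} [DecidableEq β] (J : Finset α) (T : Finset β) (g : α → β) (f : α → ℝ)
    (b : β → ℝ) (hm : ∀ n ∈ J, g n ∈ T)
    (h : ∀ t ∈ T, ∑ n ∈ J.filter (fun n => g n = t), f n ≤ b t) :
    ∑ n ∈ J, f n ≤ ∑ t ∈ T, b t := by
  rw [← sum_fiberwise_of_maps_to hm]
  exact sum_le_sum h

theorem jb6_cell {x A : ℝ} (hx : 0 ≤ x) (hA : 0 < A) :
    |x - (⌊x * A⌋₊ : ℝ) / A| ≤ 1 / A := by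
  have h1 := Nat.floor_le (mul_nonneg hx hA.le)
  have h2 := Nat.lt_floor_add_one (x * A)
  have e : x - (⌊x * A⌋₊ : ℝ) / A = (x * A - ⌊x * A⌋₊) / A := by field_simp
  rw [e, abs_div, abs_of_pos hA]
  refine div_le_div_of_nonneg_right ?_ hA.le
  rw [abs_le]
  constructor <;> linarith

theorem jb6_theta (N : ℤ) {n : ℕ} (hn : 1 ≤ n) :
    0 ≤ ((N % (n : ℤ) : ℤ) : ℝ) / n ∧ ((N % (n : ℤ) : ℤ) : ℝ) / n ≤ 1 := by
  have h0 : (0 : ℤ) < n := by exact_mod_cast hn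
  have h1 : (0 : ℝ) ≤ ((N % (n : ℤ) : ℤ) : ℝ) := by exact_mod_cast Int.emod_nonneg N h0.ne'
  have h2 : ((N % (n : ℤ) : ℤ) : ℝ) ≤ n := by exact_mod_cast (Int.emod_lt_of_pos N h0).le
  have h3 : (0 : ℝ) < n := by exact_mod_cast hn
  exact ⟨div_nonneg h1 h3.le, (div_le_one h3).2 h2⟩

theorem jb6_total {K : ℝ} (hK : 0 ≤ K) {y L J0 Cc : ℕ} (hy : y ≤ 2 ^ L) (hL : 1 ≤ L)
    (Cm : ℕ → Finset Cl) (hC : ∀ m, (Cm m).card ≤ Cc) :
    ∑ t ∈ (Icc 1 y ×ˢ range J0) ×ˢ (Icc 1 y).sigma Cm, K / ((t.2.1 : ℝ) * t.1.1) ≤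
      K * J0 * Cc * (4 * (L : ℝ) ^ 2) := by
  have hH := jb6_harm hy hL
  have hH0 : 0 ≤ ∑ k ∈ Icc 1 y, 1 / (k : ℝ) := sum_nonneg fun k _ => by positivity
  have h1 : ∀ δ : ℕ, ∑ s ∈ (Icc 1 y).sigma Cm, K / ((s.1 : ℝ) * δ) ≤
      K * Cc * (2 * L) * (1 / (δ : ℝ)) := by
    intro δ
    rw [sum_sigma]
    have h2 : ∀ m ∈ Icc 1 y, ∑ _s ∈ Cm m, K / ((m : ℝ) * δ) ≤
        K * Cc * (1 / (δ : ℝ)) * (1 / (m : ℝ)) := by
      intro m _
      rw [sum_const, nsmul_eq_mul]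
      have h3 : ((Cm m).card : ℝ) ≤ Cc := by exact_mod_cast hC m
      calc ((Cm m).card : ℝ) * (K / ((m : ℝ) * δ)) ≤ Cc * (K / ((m : ℝ) * δ)) :=
            mul_le_mul_of_nonneg_right h3 (by positivity)
        _ = _ := by ring
    refine (sum_le_sum h2).trans ?_
    rw [← mul_sum]
    calc K * Cc * (1 / (δ : ℝ)) * ∑ k ∈ Icc 1 y, 1 / (k : ℝ)
        ≤ K * Cc * (1 / (δ : ℝ)) * (2 * L) := mul_le_mul_of_nonneg_left hH (by positivity)
      _ = _ := by ring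
  rw [sum_product]
  refine (sum_le_sum fun s _ => h1 s.1).trans ?_
  rw [sum_product]
  simp only [sum_const, card_range, nsmul_eq_mul]
  rw [← mul_sum, ← mul_sum]
  calc (J0 : ℝ) * (K * Cc * (2 * L) * ∑ k ∈ Icc 1 y, 1 / (k : ℝ))
      ≤ J0 * (K * Cc * (2 * L) * (2 * L)) :=
        mul_le_mul_of_nonneg_left (mul_le_mul_of_nonneg_left hH (by positivity)) (by positivity)
    _ = _ := by ring

theorem far_mass : ∃ C : ℝ, 1 ≤ C ∧ ∀ {ι : Type} (D : Dat1 ι) (Om c : ℝ)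
    (Zb W P1 Y1 y L v Cc : ℕ) (N R : ℤ) (cl : ℕ → Cl) (Cm : ℕ → Finset Cl) (J : Finset ℕ),
    D.Ok Om Zb W P1 → 1 ≤ P1 → y ≤ 2 ^ L → 1 ≤ L → 1 ≤ v → IsCoprime (v : ℤ) R →
    |R| ≤ 2 * y * Y1 → 64 * Zb ^ 3 * W ^ 3 * Y1 ^ 3 ≤ y → 0 < c → 12 * Om ≤ c * W →
    (∀ m, (Cm m).card ≤ Cc) →
    (∀ n ∈ J, 1 ≤ n ∧ n ≤ y ∧ y ≤ Zb * n ∧ Squarefree n ∧ (∀ r : ℕ, r.Prime → r ∣ n → W ≤ r) ∧
      cl n ∈ Cm (y / n) ∧ c ≤ D.B (cl n) (N / n) ∧
      (∃ g : ℕ, 1 ≤ g ∧ v * g ≤ Y1 ∧ (n : ℤ) ∣ g * (v * N - R)) ∧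
      (¬ (n : ℤ) ∣ v * N - R ∨ Zb * W ^ 2 ≤ v ∨ ((Zb * W ^ 3 * v * y : ℕ) : ℤ) ≤ |R|)) →
    ∑ n ∈ J, 1 / (n : ℝ) ≤ C * Cc * (Om / c) ^ 3 * (L : ℝ) ^ 3 * (1 / P1 + 1 / W) := by
  classical
  obtain ⟨C, hC, hcell⟩ := cell_bound
  refine ⟨92 * C, by linarith, ?_⟩
  intro ι D Om c Zb W P1 Y1 y L v Cc N R cl Cm J hD hP1 hyL hL hv hcop hR hy hc hW hCm hJ
  have hOm0 : 0 ≤ Om := (sum_nonneg fun i _ => hD.wt0 i).trans hD.sum
  rcases J.eq_empty_or_nonempty with hJe | ⟨n1, hn1⟩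
  · rw [hJe, sum_empty]
    positivity
  have hc3 : c ≤ 3 * Om := (hJ n1 hn1).2.2.2.2.2.2.1.trans (jb6_B_le hD _ _)
  have hOm : 0 < Om := by linarith
  have hA : 0 < 20 * Om / c := by positivity
  have hK : 0 ≤ C * (Om / c) ^ 2 * L * (1 / P1 + 1 / W) := by positivity
  have key := jb6_fib J ((Icc 1 y ×ˢ range (⌊20 * Om / c⌋₊ + 1)) ×ˢ (Icc 1 y).sigma Cm)
    (fun n => ((n / Int.gcd n (v * N - R), ⌊((N % (n : ℤ) : ℤ) : ℝ) / n * (20 * Om / c)⌋₊),
      (⟨y / n, cl n⟩ : Σ _ : ℕ, Cl)))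
    (fun n => 1 / (n : ℝ))
    (fun t => C * (Om / c) ^ 2 * L * (1 / P1 + 1 / W) / ((t.2.1 : ℝ) * t.1.1)) ?_ ?_
  · refine key.trans ((jb6_total hK hyL hL Cm hCm).trans ?_)
    have h1 : ((⌊20 * Om / c⌋₊ + 1 : ℕ) : ℝ) ≤ 23 * (Om / c) := by
      have h2 := Nat.floor_le hA.le
      have h3 : 1 ≤ 3 * (Om / c) := by
        rw [← mul_div_assoc, le_div_iff₀ hc]
        linarith
      push_cast
      rw [mul_div_assoc] at h2 ⊢
      linarith
    calc C * (Om / c) ^ 2 * L * (1 / P1 + 1 / W) * ((⌊20 * Om / c⌋₊ + 1 : ℕ) : ℝ) * Cc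
          * (4 * (L : ℝ) ^ 2)
        ≤ C * (Om / c) ^ 2 * L * (1 / P1 + 1 / W) * (23 * (Om / c)) * Cc * (4 * (L : ℝ) ^ 2) :=
          mul_le_mul_of_nonneg_right (mul_le_mul_of_nonneg_right
            (mul_le_mul_of_nonneg_left h1 hK) (by positivity)) (by positivity)
      _ = _ := by ring
  · intro n hn
    obtain ⟨h1, h2, -, h4, -, h6, -⟩ := hJ n hn
    have hs := jb6_split n h1 h4 (v * N - R)
    have ht := jb6_theta N h1
    simp only [mem_product, mem_Icc, mem_range, mem_sigma]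
    refine ⟨⟨⟨hs.2.2.1, (Nat.div_le_self _ _).trans h2⟩, Nat.lt_succ_of_le (Nat.floor_le_floor
      (mul_le_of_le_one_left hA.le ht.2))⟩, ⟨(Nat.one_le_div_iff h1).2 h2, Nat.div_le_self _ _⟩, h6⟩
  · rintro ⟨⟨δ, j⟩, ⟨m, cc⟩⟩ -
    simp only [Prod.mk.injEq, Sigma.mk.injEq, heq_eq_eq]
    generalize hF : J.filter (fun n : ℕ => (n / Int.gcd n (v * N - R) = δ ∧
      ⌊((N % (n : ℤ) : ℤ) : ℝ) / n * (20 * Om / c)⌋₊ = j) ∧ y / n = m ∧ cl n = cc) = F
    have hmem : ∀ n ∈ F, n ∈ J ∧ (n / Int.gcd n (v * N - R) = δ ∧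
        ⌊((N % (n : ℤ) : ℤ) : ℝ) / n * (20 * Om / c)⌋₊ = j) ∧ y / n = m ∧ cl n = cc := by
      intro n hn
      rw [← hF] at hn
      exact mem_filter.1 hn
    rcases F.eq_empty_or_nonempty with hFe | ⟨n0, hn0⟩
    · rw [hFe, sum_empty]
      positivity
    obtain ⟨hn0J, ⟨e1, -⟩, e3, -⟩ := hmem n0 hn0
    obtain ⟨a1, a2, a3, a4, a5, -, -, ⟨g, hg1, hg2, hg3⟩, a9⟩ := hJ n0 hn0J
    obtain ⟨s1, -, s3, -, -, s6, s7, s8⟩ := jb6_split n0 a1 a4 (v * N - R)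
    rw [e1] at s1 s3 s6 s7 s8
    have hm1 : 1 ≤ m := e3 ▸ (Nat.one_le_div_iff a1).2 a2
    have hm2 : m ≤ Zb := e3 ▸ Nat.div_le_of_le_mul (by rwa [mul_comm] at a3)
    have hy0 : (0 : ℝ) < y := by exact_mod_cast (a1.trans a2)
    have hinj : Set.InjOn (fun n : ℕ => Int.gcd n (v * N - R)) F := by
      intro a ha b hb hab
      have ha' := hmem a ha
      have hb' := hmem b hb
      have ea := (jb6_split a (hJ a ha'.1).1 (hJ a ha'.1).2.2.2.1 (v * N - R)).1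
      have eb := (jb6_split b (hJ b hb'.1).1 (hJ b hb'.1).2.2.2.1 (v * N - R)).1
      rw [ha'.2.1.1] at ea
      rw [hb'.2.1.1] at eb
      simp only at hab
      rw [← ea, ← eb]
      exact congrArg (δ * ·) hab
    have hb := hcell D Om c ((j : ℝ) / (20 * Om / c)) Zb W P1 Y1 y L v δ m N R cc
      (F.image (fun n : ℕ => Int.gcd n (v * N - R))) hD hP1 hyL hL hv s3 hcop
      ((Nat.mul_le_mul_left v (s7 g hg1 hg3)).trans hg2) hR hy hm1 hm2 hc hW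
      (fun r hr hd => ⟨a5 r hr (hd.trans (Dvd.intro _ s1)), s6 r hr hd⟩)
      (a9.imp_left s8) ?_
    · rw [card_image_of_injOn hinj] at hb
      have h1 : ∀ n ∈ F, 1 / (n : ℝ) ≤ ((m : ℝ) + 1) / y := by
        intro n hn
        obtain ⟨hnJ, -, f3, -⟩ := hmem n hn
        have hn1 := (hJ n hnJ).1
        have h2 : y < n * (y / n + 1) := Nat.lt_mul_div_succ y hn1
        rw [f3] at h2
        have h3 : (y : ℝ) ≤ n * ((m : ℝ) + 1) := by exact_mod_cast h2.le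
        rw [div_le_div_iff₀ (by exact_mod_cast hn1) hy0]
        linarith
      refine (sum_le_card_nsmul F _ _ h1).trans ?_
      rw [nsmul_eq_mul]
      refine (mul_le_mul_of_nonneg_right hb (by positivity)).trans (le_of_eq ?_)
      have hm0 : (m : ℝ) ≠ 0 := by exact_mod_cast (by omega : m ≠ 0)
      have hd0 : (δ : ℝ) ≠ 0 := by exact_mod_cast (by omega : δ ≠ 0)
      generalize C * (Om / c) ^ 2 * L * (1 / P1 + 1 / W) = K
      field_simp
    · intro n' hn'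
      obtain ⟨n, hn, rfl⟩ := mem_image.1 hn'
      obtain ⟨hnJ, ⟨f1, f2⟩, f3, f4⟩ := hmem n hn
      obtain ⟨b1, -, -, b4, b5, -, b7, -⟩ := hJ n hnJ
      obtain ⟨t1, t2, -, t4, t5, -⟩ := jb6_split n b1 b4 (v * N - R)
      rw [f1] at t1 t5
      rw [t1]
      refine ⟨t2, f3, t4, t5, fun r hr hd => b5 r hr (hd.trans (Dvd.intro_left _ t1)),
        f4 ▸ b7, ?_⟩
      have h1 := jb6_cell (jb6_theta N b1).1 hA
      rw [f2, one_div_div] at h1
      exact h1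

end

end Pool.Agent.Jac
end

-- part Pool.Agent.P.MP_45ff98_nt.JStr
section

/-! Deficient integers divide one of few near numbers. -/

namespace Pool.Agent.Jac
open Finset

noncomputable section

theorem JStr_cover {κ : Type} (A Y : Finset ℕ) (S : Finset κ) (F : κ → Finset ℕ) (f : ℕ → ℝ)
    (hf : ∀ n, 0 ≤ f n) (h : ∀ n ∈ A, n ∉ Y → ∃ s ∈ S, n ∈ F s) :
    ∑ n ∈ A, f n ≤ ∑ n ∈ A.filter (fun n => n ∈ Y), f n + ∑ s ∈ S, ∑ n ∈ F s, f n := by
  have h1 : ∀ n ∈ A, f n ≤ (if n ∈ Y then f n else 0) + ∑ s ∈ S, if n ∈ F s then f n else 0 := by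
    intro n hn
    have h0 : ∀ s ∈ S, 0 ≤ if n ∈ F s then f n else 0 := fun s _ => by
      split_ifs
      exacts [hf n, le_rfl]
    by_cases hY : n ∈ Y
    · rw [if_pos hY]
      exact le_add_of_nonneg_right (sum_nonneg h0)
    · obtain ⟨s, hs, hn⟩ := h n hn hY
      rw [if_neg hY, zero_add]
      exact le_trans (by rw [if_pos hn]) (single_le_sum h0 hs)
  refine (sum_le_sum h1).trans ?_
  rw [sum_add_distrib, sum_comm, ← sum_filter]
  refine add_le_add le_rfl (sum_le_sum fun s _ => ?_)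
  rw [← sum_filter]
  exact sum_le_sum_of_subset_of_nonneg (fun n hn => (mem_filter.1 hn).2) fun n _ _ => hf n

theorem struct : ∃ C : ℝ, 1 ≤ C ∧ ∀ {ι ι' : Type} (D1 : Dat1 ι) (D2 : Dat2 ι') (Om c : ℝ)
    (Zb W P1 y Yq klo khi L Y1 Cc : ℕ) (N : ℤ) (J : Finset ℕ) (cl : ℕ → Cl) (Cs : Finset Cl)
    (Cm : ℕ → Finset Cl), D1.Ok Om Zb W P1 → D2.Ok Om y Yq klo khi → y ≤ 2 ^ L → 1 ≤ L → 0 < c →
    1 ≤ P1 → 1 ≤ Y1 → 12 * Om ≤ c * W → 64 * Zb ^ 3 * W ^ 3 * Y1 ^ 3 ≤ y →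
    C * (L : ℝ) ^ 3 * (Om / c) ^ 8 ≤ 2 ^ (klo - 1) → (∀ m, (Cm m).card ≤ Cc) →
    (∀ n ∈ J, 1 ≤ n ∧ n ≤ y ∧ y ≤ Zb * n ∧ Squarefree n ∧ (∀ r : ℕ, r.Prime → r ∣ n → W ≤ r) ∧
      cl n ∈ Cs ∧ cl n ∈ Cm (y / n) ∧ c ≤ D1.B (cl n) (N / n) ∧ c ≤ D2.B (cl n) (N / n)) →
    ∃ S : Finset (ℕ × ℤ), (S.card : ℝ) ≤ C * khi * L * (Om / c) ^ 4 ∧
      (∀ s ∈ S, Fr y s ∧ s.1 ≤ Zb * W ^ 2 ∧ |s.2| ≤ ((Zb * W ^ 3 * s.1 * y : ℕ) : ℤ)) ∧
      ∑ n ∈ J.filter (fun n : ℕ => ∀ s ∈ S, ¬ (n : ℤ) ∣ nf N s), 1 / (n : ℝ) ≤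
        C * khi * Cc * (L : ℝ) ^ 4 * (Om / c) ^ 7 * (1 / P1 + 1 / W) +
          C * Cs.card * D2.I.card * Yq * (L : ℝ) ^ 2 * (Om / c) ^ 7 * Zb / Y1 := by
  classical
  obtain ⟨C1, hC1, h1⟩ := inv
  obtain ⟨C2, hC2, h2⟩ := far_mass
  have hC12 : C1 ≤ C1 * C2 := le_mul_of_one_le_right (by linarith) hC2
  refine ⟨2 * (C1 * C2), by linarith, ?_⟩
  intro ι ι' D1 D2 Om c Zb W P1 y Yq klo khi L Y1 Cc N J cl Cs Cm hD1 hD2 hyL hL hc hP1 hY1 hW hy
    hk hCm hJ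
  have hOm : 0 ≤ Om := (sum_nonneg fun i _ => hD1.wt0 i).trans hD1.sum
  have hq : 0 ≤ Om / c := div_nonneg hOm hc.le
  have hn0 : y < (y / Y1 + 1) * Y1 := by
    rw [mul_comm]
    exact Nat.lt_mul_div_succ y hY1
  have hn1 : 1 ≤ y / Y1 + 1 := Nat.le_add_left 1 _
  have hn2 : Y1 ≤ y → (y / Y1 + 1) * Y1 ≤ 2 * y := fun h => by
    have := Nat.div_mul_le_self y Y1
    rw [add_mul, one_mul]
    omega
  generalize y / Y1 + 1 = n0 at hn0 hn1 hn2
  obtain ⟨S0, Y, hS, hY, hF, hcov⟩ := h1 D2 Om c y Yq klo khi L n0 N J cl Cs hD2 hyL hL hc hn1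
    (le_trans (by gcongr; linarith) hk)
    (fun n hn => by
      obtain ⟨a1, a2, -, -, -, a3, -, -, a4⟩ := hJ n hn
      exact ⟨a1, a2, a3, a4⟩)
  refine ⟨S0.filter fun s => s.1 ≤ Zb * W ^ 2 ∧ |s.2| ≤ ((Zb * W ^ 3 * s.1 * y : ℕ) : ℤ), ?_,
    fun s hs => ⟨(hF s (mem_filter.1 hs).1).1, (mem_filter.1 hs).2⟩, ?_⟩
  · refine le_trans (Nat.cast_le.2 (card_filter_le _ _)) (hS.trans ?_)
    gcongr
    linarith
  let F : ℕ × ℤ → Finset ℕ := fun s => J.filter fun n : ℕ =>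
    (∃ g : ℕ, 1 ≤ g ∧ s.1 * g ≤ Y1 ∧ (n : ℤ) ∣ g * (s.1 * N - s.2)) ∧
      (¬ (n : ℤ) ∣ s.1 * N - s.2 ∨ Zb * W ^ 2 ≤ s.1 ∨ ((Zb * W ^ 3 * s.1 * y : ℕ) : ℤ) ≤ |s.2|)
  refine (JStr_cover _ Y S0 F (fun n => 1 / (n : ℝ)) (fun n => by positivity)
    fun n hn hnY => ?_).trans ?_
  · obtain ⟨hnJ, hn⟩ := mem_filter.1 hn
    obtain ⟨s, hs, g, hg, hg1, hg2⟩ := hcov n hnJ hnY
    refine ⟨s, hs, mem_filter.2 ⟨hnJ, ⟨g, hg, ?_, hg2⟩, ?_⟩⟩
    · exact (Nat.lt_of_mul_lt_mul_right (hg1.trans_lt (hn0.trans_eq (mul_comm _ _)))).le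
    · by_contra hcon
      simp only [not_or, not_le, not_not] at hcon
      exact hn s (mem_filter.2 ⟨hs, hcon.2.1.le, hcon.2.2.le⟩) hcon.1
  rw [add_comm]
  refine add_le_add ?_ ?_
  · have h3 : ∀ s ∈ S0, ∑ n ∈ F s, 1 / (n : ℝ) ≤
        C2 * Cc * (Om / c) ^ 3 * (L : ℝ) ^ 3 * (1 / P1 + 1 / W) := fun s hs => by
      obtain ⟨⟨b1, -, -, b2⟩, b3⟩ := hF s hs
      refine h2 D1 Om c Zb W P1 Y1 y L s.1 Cc N s.2 cl Cm (F s) hD1 hP1 hyL hL b1 b2 ?_ hy hc hW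
        hCm fun n hn => ?_
      · have e1 : (y : ℤ) ≤ n0 * Y1 := by exact_mod_cast hn0.le
        have e2 : (0 : ℤ) < n0 := by exact_mod_cast hn1
        have e3 : (0 : ℤ) ≤ y := Int.natCast_nonneg y
        refine le_of_mul_le_mul_right (b3.trans ?_) e2
        nlinarith [mul_le_mul_of_nonneg_left e1 e3]
      · obtain ⟨hnJ, c1, c2⟩ := mem_filter.1 hn
        obtain ⟨a1, a2, a3, a4, a5, -, a6, a7, -⟩ := hJ n hnJ
        exact ⟨a1, a2, a3, a4, a5, a6, a7, c1, c2⟩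
    refine (sum_le_card_nsmul _ _ _ h3).trans ?_
    rw [nsmul_eq_mul]
    have h4 : 0 ≤ C2 * Cc * (Om / c) ^ 3 * (L : ℝ) ^ 3 * (1 / P1 + 1 / W) := by
      have : 0 ≤ C2 := by linarith
      positivity
    refine (mul_le_mul_of_nonneg_right hS h4).trans ?_
    have h5 : 0 ≤ C1 * C2 * khi * Cc * (L : ℝ) ^ 4 * (Om / c) ^ 7 * (1 / P1 + 1 / W) := by
      have : 0 ≤ C1 * C2 := by linarith
      positivity
    have h6 : C1 * khi * L * (Om / c) ^ 4 *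
        (C2 * Cc * (Om / c) ^ 3 * (L : ℝ) ^ 3 * (1 / P1 + 1 / W)) =
        C1 * C2 * khi * Cc * (L : ℝ) ^ 4 * (Om / c) ^ 7 * (1 / P1 + 1 / W) := by ring
    have h7 : 2 * (C1 * C2) * khi * Cc * (L : ℝ) ^ 4 * (Om / c) ^ 7 * (1 / P1 + 1 / W) =
        2 * (C1 * C2 * khi * Cc * (L : ℝ) ^ 4 * (Om / c) ^ 7 * (1 / P1 + 1 / W)) := by ring
    rw [h6, h7]
    linarith
  · suffices key : ∀ A : Finset ℕ, (∀ n ∈ A, n ∈ J ∧ n ∈ Y) → ∑ n ∈ A, 1 / (n : ℝ) ≤
        2 * (C1 * C2) * Cs.card * D2.I.card * Yq * (L : ℝ) ^ 2 * (Om / c) ^ 7 * Zb / Y1 from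
      key _ fun n hn => ⟨(mem_filter.1 (mem_filter.1 hn).1).1, (mem_filter.1 hn).2⟩
    intro A hAJ
    have hK : 0 ≤ (Cs.card : ℝ) * D2.I.card * Yq * (L : ℝ) ^ 2 * (Om / c) ^ 7 := by positivity
    rcases A.eq_empty_or_nonempty with h0 | ⟨m, hm⟩
    · rw [h0, sum_empty]
      have : 0 ≤ C1 * C2 := by linarith
      positivity
    obtain ⟨a1, a2, a3, -⟩ := hJ m (hAJ m hm).1
    have hZb : 1 ≤ Zb := Nat.pos_of_ne_zero fun h => by
      rw [h, zero_mul] at a3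
      omega
    have hW1 : 1 ≤ W := Nat.pos_of_ne_zero fun h => by
      have e1 : Om = 0 := le_antisymm (by rw [h, Nat.cast_zero, mul_zero] at hW; linarith) hOm
      have e2 : (0 : ℝ) < Y.card := Nat.cast_pos.2 (card_pos.2 ⟨m, (hAJ m hm).2⟩)
      rw [e1] at hY
      simp only [zero_div, ne_eq, OfNat.ofNat_ne_zero, not_false_eq_true, zero_pow, mul_zero,
        zero_mul] at hY
      linarith
    have hYy : Y1 ≤ y := by
      refine le_trans ?_ hy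
      have e1 : 1 ≤ 64 * Zb ^ 3 * W ^ 3 := Nat.pos_of_ne_zero (by positivity)
      calc Y1 ≤ Y1 ^ 3 := Nat.le_self_pow (by norm_num) Y1
        _ ≤ _ := Nat.le_mul_of_pos_left _ e1
    have hy0 : (0 : ℝ) < y := by exact_mod_cast a1.trans a2
    have hY0 : (0 : ℝ) < Y1 := by exact_mod_cast hY1
    have h3 : ∀ n ∈ A, 1 / (n : ℝ) ≤ Zb / y := fun n hn => by
      obtain ⟨b1, -, b3, -⟩ := hJ n (hAJ n hn).1
      rw [div_le_div_iff₀ (by exact_mod_cast b1) hy0, one_mul]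
      exact_mod_cast b3
    refine (sum_le_card_nsmul _ _ _ h3).trans ?_
    rw [nsmul_eq_mul]
    have h4 : (A.card : ℝ) ≤ Y.card := Nat.cast_le.2 (card_le_card fun n hn => (hAJ n hn).2)
    have h5 : (n0 : ℝ) / y ≤ 2 / Y1 := by
      rw [div_le_div_iff₀ hy0 hY0]
      exact_mod_cast hn2 hYy
    calc (A.card : ℝ) * (Zb / y)
        ≤ C1 * Cs.card * D2.I.card * Yq * (L : ℝ) ^ 2 * (Om / c) ^ 7 * n0 * (Zb / y) :=
          mul_le_mul_of_nonneg_right (h4.trans hY) (by positivity)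
      _ = C1 * ((Cs.card : ℝ) * D2.I.card * Yq * (L : ℝ) ^ 2 * (Om / c) ^ 7 * Zb) * (n0 / y) := by
          ring
      _ ≤ C1 * C2 * ((Cs.card : ℝ) * D2.I.card * Yq * (L : ℝ) ^ 2 * (Om / c) ^ 7 * Zb) *
          (2 / Y1) := by
          have : 0 ≤ C1 * C2 := by linarith
          gcongr
      _ = _ := by ring

end

end Pool.Agent.Jac
end

-- part Pool.Agent.P.MP_45ff98_nt.JSv
section

/-! The fundamental lemma in applied form. -/

namespace Pool.Agent.Jac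
open Finset

noncomputable section

theorem level_card (S : Finset ℕ) (hS : ∀ r ∈ S, r.Prime) (D : ℝ) (hD : 1 ≤ D) :
    ((S.powerset.filter (fun T => (pr T : ℝ) ≤ D)).card : ℝ) ≤ D ∧
      ∑ T ∈ S.powerset.filter (fun T => (pr T : ℝ) ≤ D), 1 / (pr T : ℝ) ≤ 1 + Real.log D := by
  have h0 : (0 : ℝ) ≤ D := by linarith
  have key : ∀ T ∈ S.powerset.filter (fun T => (pr T : ℝ) ≤ D),
      (∀ p ∈ T, p.Prime) ∧ pr T ≤ ⌊D⌋₊ := by
    intro T hT
    rw [mem_filter, mem_powerset] at hT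
    exact ⟨fun p hp => hS p (hT.1 hp), Nat.le_floor hT.2⟩
  have hfl : (⌊D⌋₊ : ℝ) ≤ D := Nat.floor_le h0
  have hpos : (0 : ℝ) < ⌊D⌋₊ := by
    have : 1 ≤ ⌊D⌋₊ := Nat.le_floor (by simpa using hD)
    exact_mod_cast this
  refine ⟨?_, ?_⟩
  · have := card_le_of_pr_le _ _ key
    exact le_trans (by exact_mod_cast this) hfl
  · have := sum_inv_pr_le _ _ key
    have h2 := Real.log_le_log hpos hfl
    linarith

theorem JSv_swap {α : Type} (A : Finset α) (a : α → ℝ) (hit : ℕ → α → Prop)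
    [∀ r x, Decidable (hit r x)] (S : Finset ℕ) (w : Finset ℕ → ℝ) :
    ∑ x ∈ A, a x * ∑ T ∈ (S.filter (fun r => hit r x)).powerset, w T =
      ∑ T ∈ S.powerset, w T * ∑ x ∈ A.filter (fun x => ∀ r ∈ T, hit r x), a x := by
  have h1 : ∀ x, (S.filter (fun r => hit r x)).powerset =
      S.powerset.filter (fun T => ∀ r ∈ T, hit r x) := by
    intro x
    ext T
    simp only [mem_powerset, mem_filter]
    constructor
    · intro h
      exact ⟨fun r hr => (mem_filter.1 (h hr)).1, fun r hr => (mem_filter.1 (h hr)).2⟩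
    · intro h r hr
      exact mem_filter.2 ⟨h.1 hr, h.2 r hr⟩
  simp only [h1, sum_filter, mul_sum]
  rw [sum_comm]
  refine sum_congr rfl fun T _ => sum_congr rfl fun x _ => ?_
  split_ifs
  · ring
  · ring

theorem JSv_ind {α : Type} (A : Finset α) (a : α → ℝ) (hit : ℕ → α → Prop)
    [∀ r x, Decidable (hit r x)] (S : Finset ℕ) :
    ∑ x ∈ A.filter (fun x => ∀ r ∈ S, ¬ hit r x), a x =
      ∑ x ∈ A, a x * (if S.filter (fun r => hit r x) = ∅ then 1 else 0) := by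
  rw [sum_filter]
  refine sum_congr rfl fun x _ => ?_
  by_cases h : ∀ r ∈ S, ¬ hit r x
  · rw [if_pos h, if_pos (filter_eq_empty_iff.2 h), mul_one]
  · rw [if_neg h, if_neg (fun h' => h (filter_eq_empty_iff.1 h')), mul_zero]

theorem JSv_err {α : Type} (A : Finset α) (a : α → ℝ) (hit : ℕ → α → Prop)
    [∀ r x, Decidable (hit r x)] (S : Finset ℕ) (D X : ℝ) (g : ℕ → ℝ) (R : Finset ℕ → ℝ)
    (w : Finset ℕ → ℝ) (hw : Wts S D w)
    (hR : ∀ T ⊆ S, (pr T : ℝ) ≤ D →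
      |∑ x ∈ A.filter (fun x => ∀ r ∈ T, hit r x), a x - X * ∏ r ∈ T, g r| ≤ R T) :
    |∑ T ∈ S.powerset, w T * ∑ x ∈ A.filter (fun x => ∀ r ∈ T, hit r x), a x -
      X * ∑ T ∈ S.powerset, w T * ∏ r ∈ T, g r| ≤
      ∑ T ∈ S.powerset.filter (fun T => (pr T : ℝ) ≤ D), R T := by
  rw [mul_sum, ← sum_sub_distrib, sum_filter]
  refine (abs_sum_le_sum_abs _ _).trans (sum_le_sum fun T hT => ?_)
  have hTS : T ⊆ S := mem_powerset.1 hT
  have e : w T * ∑ x ∈ A.filter (fun x => ∀ r ∈ T, hit r x), a x - X * (w T * ∏ r ∈ T, g r) =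
      w T * (∑ x ∈ A.filter (fun x => ∀ r ∈ T, hit r x), a x - X * ∏ r ∈ T, g r) := by ring
  rw [e, abs_mul]
  by_cases hD : (pr T : ℝ) ≤ D
  · rw [if_pos hD]
    have h1 := hR T hTS hD
    have h2 := (hw T).1
    have h3 := abs_nonneg (∑ x ∈ A.filter (fun x => ∀ r ∈ T, hit r x), a x - X * ∏ r ∈ T, g r)
    nlinarith
  · rw [if_neg hD]
    have : w T = 0 := by
      by_contra h
      exact hD ((hw T).2 h).2
    rw [this, abs_zero, zero_mul]

theorem sieve : ∃ C : ℝ, 1 ≤ C ∧ ∀ {α : Type} (A : Finset α) (a : α → ℝ) (hit : ℕ → α → Prop)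
    [∀ r x, Decidable (hit r x)] (S : Finset ℕ) (z D X : ℝ) (g : ℕ → ℝ) (R : Finset ℕ → ℝ),
    2 ≤ z → z ≤ D ^ 4 → 1 ≤ D → (∀ r ∈ S, r.Prime ∧ (r : ℝ) < z) → Dens S g →
    (∀ x ∈ A, 0 ≤ a x) → 0 ≤ X →
    (∀ T ⊆ S, (pr T : ℝ) ≤ D →
      |∑ x ∈ A.filter (fun x => ∀ r ∈ T, hit r x), a x - X * ∏ r ∈ T, g r| ≤ R T) →
    |∑ x ∈ A.filter (fun x => ∀ r ∈ S, ¬ hit r x), a x - X * ∏ r ∈ S, (1 - g r)| ≤
      C * Real.exp (-4 * Real.log D / Real.log z) * (X * ∏ r ∈ S, (1 - g r)) +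
        ∑ T ∈ S.powerset.filter (fun T => (pr T : ℝ) ≤ D), R T := by
  obtain ⟨C, hC, H⟩ := fund_lemma
  refine ⟨C, hC, ?_⟩
  intro α A a hit _ S z D X g R hz hzD hD hS hg ha hX hR
  obtain ⟨wu, wl, hwu, hwl, hs, hG⟩ := H S z D hz hzD hD hS
  obtain ⟨hu, hl⟩ := hG g hg
  have eu := abs_le.1 (JSv_err A a hit S D X g R wu hwu hR)
  have el := abs_le.1 (JSv_err A a hit S D X g R wl hwl hR)
  rw [← JSv_swap] at eu el
  have up : ∑ x ∈ A.filter (fun x => ∀ r ∈ S, ¬ hit r x), a x ≤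
      ∑ x ∈ A, a x * ∑ T ∈ (S.filter (fun r => hit r x)).powerset, wu T := by
    rw [JSv_ind]
    exact sum_le_sum fun x hx =>
      mul_le_mul_of_nonneg_left (hs _ (filter_subset _ _)).2 (ha x hx)
  have lo : ∑ x ∈ A, a x * ∑ T ∈ (S.filter (fun r => hit r x)).powerset, wl T ≤
      ∑ x ∈ A.filter (fun x => ∀ r ∈ S, ¬ hit r x), a x := by
    rw [JSv_ind]
    exact sum_le_sum fun x hx =>
      mul_le_mul_of_nonneg_left (hs _ (filter_subset _ _)).1 (ha x hx)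
  have hu' := mul_le_mul_of_nonneg_left hu hX
  have hl' := mul_le_mul_of_nonneg_left hl hX
  rw [abs_le]
  constructor
  · nlinarith [eu.1, eu.2, el.1, el.2]
  · nlinarith [eu.1, eu.2, el.1, el.2]

end

end Pool.Agent.Jac
end

-- part Pool.Agent.P.MP_45ff98_nt.JS2
section

/-! Virtual counts, upper bound and comparison. -/

namespace Pool.Agent.Jac
open Finset

noncomputable section

theorem JS2_count (a b : ℤ) (hab : a ≤ b) (q : ℤ) (hq : 0 < q) (n N : ℤ) (h : IsCoprime n q) :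
    |(((Ioc a b).filter (fun m : ℤ => q ∣ N + n * m)).card : ℝ) - ((b : ℝ) - a) / q| ≤ 1 := by
  obtain ⟨u, w, h⟩ := h
  have h1 : (Ioc a b).filter (fun m : ℤ => q ∣ N + n * m) =
      (Ioc a b).filter (fun m : ℤ => m ≡ -(N * u) [ZMOD q]) := by
    refine filter_congr fun m _ => ?_
    rw [Int.modEq_iff_dvd]
    constructor
    · rintro ⟨c, hc⟩
      exact ⟨-(u * c + m * w), by linear_combination -u * hc + m * h⟩
    · rintro ⟨c, hc⟩
      exact ⟨N * w - n * c, by linear_combination -n * hc - N * h⟩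
  have h2 := Int.Ioc_filter_modEq_card a b hq (-(N * u))
  have hq' : (0 : ℚ) < q := by exact_mod_cast hq
  have hab' : (a : ℚ) ≤ b := by exact_mod_cast hab
  rw [max_eq_left (sub_nonneg.2 (Int.floor_le_floor (by gcongr)))] at h2
  rw [h1]
  have h3 := Int.floor_le (((b : ℚ) - (-(N * u) : ℤ)) / q)
  have h4 := Int.lt_floor_add_one (((b : ℚ) - (-(N * u) : ℤ)) / q)
  have h5 := Int.floor_le (((a : ℚ) - (-(N * u) : ℤ)) / q)
  have h6 := Int.lt_floor_add_one (((a : ℚ) - (-(N * u) : ℤ)) / q)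
  have h7 : ((b : ℚ) - a) / q =
      ((b : ℚ) - (-(N * u) : ℤ)) / q - ((a : ℚ) - (-(N * u) : ℤ)) / q := by ring
  have h8 := congrArg (Int.cast : ℤ → ℚ) h2
  rw [Int.cast_sub, Int.cast_natCast] at h8
  have h9 : |((((Ioc a b).filter (fun m : ℤ => m ≡ -(N * u) [ZMOD q])).card : ℚ)) -
      ((b : ℚ) - a) / q| ≤ 1 := by
    rw [h7, h8, abs_le]
    constructor <;> linarith
  exact_mod_cast h9

theorem JS2_sq (k : ℕ) : k ^ 2 ≤ 2 ^ (k + 1) := by
  induction k with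
  | zero => simp
  | succ k ih =>
    have h : k < 2 ^ k := Nat.lt_two_pow_self
    rw [pow_succ 2 (k + 1), pow_succ 2 k] at *
    nlinarith

theorem JS2_kk {p : ℕ} (hp : p ≠ 0) : (kk p : ℝ) ≤ 2 * √p := by
  have h1 := JS2_sq (kk p)
  have h2 := two_pow_kk_le' hp
  have h3 : kk p ^ 2 ≤ 4 * p := by rw [pow_succ 2] at h1; omega
  have h4 : (kk p : ℝ) ^ 2 ≤ 4 * p := by exact_mod_cast h3
  refine abs_le_of_sq_le_sq' ?_ (by positivity) |>.2
  rw [mul_pow, Real.sq_sqrt (Nat.cast_nonneg p)]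
  linarith

theorem JS2_len (v y n : ℕ) (R : ℤ) (hn : 1 ≤ n) : R / n ≤ (R + v * y) / n ∧
    (n : ℤ) * ((R + v * y) / n - R / n) ≤ v * y + n := by
  have h0 : (0 : ℤ) < n := by exact_mod_cast hn
  refine ⟨Int.ediv_le_ediv h0 (le_add_of_nonneg_right (by positivity)), ?_⟩
  have h1 := Int.mul_ediv_add_emod (R + v * y) n
  have h2 := Int.mul_ediv_add_emod R n
  have h4 := Int.emod_nonneg (R + v * y) h0.ne'
  have h7 := Int.emod_lt_of_pos R h0
  rw [mul_sub]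
  linarith

theorem JS2_dvd {v f : ℕ} (hv : 1 ≤ v) {T : Finset ℕ} (hT : ∀ r ∈ T, r.Prime)
    (hf : f.Coprime (pr T)) (x : ℤ) :
    (((v * f : ℕ) : ℤ) ∣ x ∧ ∀ r ∈ T, ((v * r : ℕ) : ℤ) ∣ x) ↔ ((v * f * pr T : ℕ) : ℤ) ∣ x := by
  have h0 : (v : ℤ) ≠ 0 := by positivity
  push_cast
  constructor
  · rintro ⟨⟨c, rfl⟩, h⟩
    rw [mul_assoc, mul_assoc]
    refine mul_dvd_mul_left _ ((Nat.isCoprime_iff_coprime.2 hf).mul_dvd (dvd_mul_right _ _) ?_)
    refine (pr_dvd_iff hT _).2 fun r hr => ?_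
    have h1 := h r hr
    rwa [mul_assoc, mul_dvd_mul_iff_left h0] at h1
  · intro h
    refine ⟨(dvd_mul_right _ _).trans h, fun r hr => dvd_trans ?_ h⟩
    rw [mul_assoc]
    exact mul_dvd_mul_left _ (((pr_dvd_iff hT _).1 dvd_rfl r hr).mul_left _)

theorem vc_upper : ∃ C : ℝ, 0 < C ∧ ∀ (v y n f p : ℕ) (Ns R : ℤ), 1 ≤ v → 1 ≤ n → 1 ≤ f → 2 ≤ p →
    IsCoprime Ns (v : ℤ) → n.Coprime f → (∀ r : ℕ, r.Prime → r ∣ n * f → p ≤ r) →
    p * (n * f) ≤ y → (vc v Ns R y n f p : ℝ) ≤ C * y / ((n : ℝ) * f * kk p) := by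
  obtain ⟨C, hC, hS⟩ := sieve
  obtain ⟨_, K, -, hK, hM⟩ := mertens_prod
  refine ⟨2 * (1 + C) * K + 2, by positivity, ?_⟩
  intro v y n f p Ns R hv hn hf hp hc hnf hr hy
  have hk : (0 : ℝ) < kk p := by exact_mod_cast kk_pos p
  by_cases hnv : n.Coprime v
  swap
  · have : vc v Ns R y n f p = 0 := by
      rw [vc, card_eq_zero, filter_eq_empty_iff]
      rintro m - ⟨h1, -⟩
      refine hnv (Nat.isCoprime_iff_coprime.1 ?_)
      have h2 : (v : ℤ) ∣ Ns + n * m := dvd_trans (by push_cast; exact dvd_mul_right _ _) h1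
      obtain ⟨c, h2⟩ := h2
      obtain ⟨a, b, h3⟩ := hc
      exact ⟨-(a * m), a * c + b, by linear_combination h3 - a * h2⟩
    rw [this, Nat.cast_zero]
    positivity
  obtain ⟨hl1, hl2⟩ := JS2_len v y n R hn
  have hp' : (2 : ℝ) ≤ p := by exact_mod_cast hp
  have hv' : (1 : ℝ) ≤ v := by exact_mod_cast hv
  have hn' : (1 : ℝ) ≤ n := by exact_mod_cast hn
  have hf' : (1 : ℝ) ≤ f := by exact_mod_cast hf
  have hy' : (p : ℝ) * (n * f) ≤ y := by exact_mod_cast hy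
  have hD : 1 ≤ √(p : ℝ) := Real.one_le_sqrt.2 (by linarith)
  have hP : ∀ r ∈ PP 0 p, r.Prime := fun r h => (mem_PP.1 h).2.1
  set a : ℤ := R / n
  set b : ℤ := (R + v * y) / n
  have hab : (0 : ℝ) ≤ (b : ℝ) - a := by
    rw [sub_nonneg]
    exact_mod_cast hl1
  have hl3 : (n : ℝ) * ((b : ℝ) - a) ≤ v * y + n := by exact_mod_cast hl2
  have h1 := hS ((Ioc a b).filter fun m : ℤ => ((v * f : ℕ) : ℤ) ∣ Ns + n * m) (fun _ => 1)
    (fun r m => ((v * r : ℕ) : ℤ) ∣ Ns + n * m) (PP 0 p) p (√p) (((b : ℝ) - a) / (v * f))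
    (fun r => 1 / (r : ℝ)) (fun _ => 1) hp'
    (by
      have : √(p : ℝ) ^ 4 = (√(p : ℝ) ^ 2) ^ 2 := by ring
      rw [this, Real.sq_sqrt (by positivity)]
      nlinarith)
    hD (fun r h => ⟨hP r h, by exact_mod_cast (mem_PP.1 h).1⟩)
    (fun r h => by
      have h2 : (2 : ℝ) ≤ r := by exact_mod_cast (hP r h).two_le
      exact ⟨by positivity, one_div_le_one_div_of_le (by norm_num) h2,
        one_div_le_one_div_of_le (by linarith) (by linarith)⟩)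
    (fun _ _ => zero_le_one) (by positivity)
    (fun T hT _ => by
      have h2 : ∀ r ∈ T, r.Prime := fun r h => hP r (hT h)
      have h3 : (n * f).Coprime (pr T) := Nat.Coprime.prod_right fun r h =>
        ((Nat.Prime.coprime_iff_not_dvd (h2 r h)).2 fun e =>
          absurd (hr r (h2 r h) e) (not_le.2 (mem_PP.1 (hT h)).1)).symm
      have h4 := JS2_count a b hl1 ((v * f * pr T : ℕ) : ℤ)
        (by have := pr_pos h2; positivity) n Ns
        (Nat.isCoprime_iff_coprime.2 ((hnv.mul_right hnf).mul_right h3.coprime_mul_right))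
      rw [filter_filter, filter_congr fun m _ => JS2_dvd hv h2 h3.coprime_mul_left (Ns + n * m),
        sum_const, nsmul_one]
      convert h4 using 3
      rw [prod_div_distrib, prod_const_one, pr]
      push_cast
      field_simp)
  have h2 : (vc v Ns R y n f p : ℝ) = ∑ x ∈ ((Ioc a b).filter fun m : ℤ =>
      ((v * f : ℕ) : ℤ) ∣ Ns + n * m).filter
        (fun m => ∀ r ∈ PP 0 p, ¬ ((v * r : ℕ) : ℤ) ∣ Ns + n * m), (1 : ℝ) := by
    rw [filter_filter, sum_const, nsmul_one, vc]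
    congr 2
    refine filter_congr fun m _ => and_congr_right fun _ => ?_
    simp only [mem_PP, Nat.zero_le, and_true, and_imp]
  rw [← h2, sum_const, nsmul_one] at h1
  have h3 := (level_card (PP 0 p) hP _ hD).1
  have h4 := (hM p hp).2
  have h5 : 0 ≤ ∏ r ∈ PP 0 p, (1 - 1 / (r : ℝ)) := prod_nonneg fun r h => by
    have h2 : (1 : ℝ) ≤ r := by exact_mod_cast (hP r h).one_le
    rw [sub_nonneg, div_le_one (by linarith)]
    exact h2
  have h6 : Real.exp (-4 * Real.log √(p : ℝ) / Real.log p) ≤ 1 := by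
    rw [Real.exp_le_one_iff]
    have := Real.log_nonneg hD
    exact div_nonpos_of_nonpos_of_nonneg (by linarith) (Real.log_nonneg (by linarith))
  have hny : (n : ℝ) ≤ v * y := by
    have : (n : ℝ) * 1 ≤ n * f := by gcongr
    have : (y : ℝ) * 1 ≤ y * v := by gcongr
    nlinarith
  have h7 : ((b : ℝ) - a) / (v * f) ≤ 2 * y / (n * f) := by
    rw [div_le_div_iff₀ (by positivity) (by positivity)]
    have : (n : ℝ) * ((b : ℝ) - a) * f ≤ (2 * (v * y)) * f :=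
      mul_le_mul_of_nonneg_right (by linarith) (by linarith)
    linarith
  have h8 : ((b : ℝ) - a) / (v * f) * ∏ r ∈ PP 0 p, (1 - 1 / (r : ℝ)) ≤
      2 * y / (n * f) * (K / kk p) := by gcongr
  have h9 : √(p : ℝ) ≤ 2 * y / ((n : ℝ) * f * kk p) := by
    rw [le_div_iff₀ (by positivity)]
    have h10 := JS2_kk (p := p) (by omega)
    calc √(p : ℝ) * ((n : ℝ) * f * kk p) ≤ √(p : ℝ) * ((n : ℝ) * f * (2 * √p)) := by gcongr
      _ = 2 * ((√(p : ℝ)) ^ 2 * (n * f)) := by ring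
      _ ≤ 2 * y := by rw [Real.sq_sqrt (by positivity)]; linarith
  have h10 : 0 ≤ ((b : ℝ) - a) / (v * f) * ∏ r ∈ PP 0 p, (1 - 1 / (r : ℝ)) := by positivity
  generalize ((b : ℝ) - a) / (v * f) * ∏ r ∈ PP 0 p, (1 - 1 / (r : ℝ)) = X at h1 h8 h10
  have h11 : C * Real.exp (-4 * Real.log √(p : ℝ) / Real.log p) * X ≤ C * 1 * X := by gcongr
  have h12 : (1 + C) * X ≤ (1 + C) * (2 * y / (n * f) * (K / kk p)) := by gcongr
  have h13 : (2 * (1 + C) * K + 2) * y / ((n : ℝ) * f * kk p) =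
      (1 + C) * (2 * y / (n * f) * (K / kk p)) + 2 * y / ((n : ℝ) * f * kk p) := by
    field_simp
  rw [h13]
  linarith [(abs_le.1 h1).2]

theorem vc_true (v y n f p : ℕ) (N R : ℤ) (hv : 1 ≤ v) (hn : 1 ≤ n) (hc : IsCoprime (v : ℤ) R)
    (hd : (n : ℤ) ∣ v * N - R) (hf : n.Coprime f) :
    vc v (v * N - R) R y n f p ≤ cntA N y (n * f) p := by
  have hv' : (0 : ℤ) < v := by exact_mod_cast hv
  have hn' : (0 : ℤ) < n := by exact_mod_cast hn
  have hnv : IsCoprime (n : ℤ) v := by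
    obtain ⟨c, h1⟩ := hd
    obtain ⟨a, b, h2⟩ := hc
    exact ⟨-(b * c), a + b * N, by linear_combination h2 + b * h1⟩
  have key : ∀ m : ℤ, m ∈ Ioc (R / n) ((R + v * y) / n) → ((v * f : ℕ) : ℤ) ∣ v * N - R + n * m →
      n * m - R = v * (((n * m - R) / v).toNat : ℕ) ∧ ((n * m - R) / v).toNat ∈ Icc 1 y := by
    intro m hm h
    obtain ⟨h1, h2⟩ := mem_Ioc.1 hm
    rw [Int.ediv_lt_iff_lt_mul hn'] at h1
    rw [Int.le_ediv_iff_mul_le hn'] at h2
    obtain ⟨c, h3⟩ := h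
    have h4 : n * m - R = v * (f * c - N) := by push_cast at h3; linear_combination h3
    have h5 : 0 < f * c - N := (mul_pos_iff_of_pos_left hv').1 (by linarith)
    have h6 : f * c - N ≤ y := le_of_mul_le_mul_left (by linarith) hv'
    rw [h4, Int.mul_ediv_cancel_left _ hv'.ne', Int.toNat_of_nonneg h5.le, mem_Icc]
    exact ⟨rfl, by omega, by omega⟩
  refine card_le_card_of_injOn (fun m : ℤ => ((n * m - R) / v).toNat) (fun m hm => ?_)
    fun m hm m' hm' e => ?_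
  · obtain ⟨h1, h2, h3⟩ := mem_filter.1 (mem_coe.1 hm)
    obtain ⟨h4, h5⟩ := key m h1 h2
    refine mem_coe.2 (mem_filter.2 ⟨h5, ?_⟩)
    beta_reduce
    generalize ((n * m - R) / v).toNat = i at h4 ⊢
    have h6 : v * N - R + n * m = v * (N + i) := by linear_combination h4
    rw [h6] at h2 h3
    push_cast at h2 h3 ⊢
    refine ⟨(Nat.isCoprime_iff_coprime.2 hf).mul_dvd (hnv.dvd_of_dvd_mul_left ?_)
      ((mul_dvd_mul_iff_left hv'.ne').1 h2), fun r h7 h8 h9 => h3 r h7 h8 (mul_dvd_mul_left _ h9)⟩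
    rw [← h6]
    exact hd.add (dvd_mul_right _ _)
  · obtain ⟨h1, h2, -⟩ := mem_filter.1 (mem_coe.1 hm)
    obtain ⟨h3, h4, -⟩ := mem_filter.1 (mem_coe.1 hm')
    have h5 := (key m h1 h2).1
    have h6 := (key m' h3 h4).1
    simp only at e
    rw [e, ← h6] at h5
    exact mul_left_cancel₀ hn'.ne' (by linarith)

end

end Pool.Agent.Jac
end

-- part Pool.Agent.P.MP_45ff98_nt.JS1
section

/-! Integers free of a given set of primes. -/

namespace Pool.Agent.Jac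
open Finset

noncomputable section

theorem js1_primes : ∃ Y0 : ℝ, ∀ Y : ℝ, Y0 ≤ Y →
    Y / 20 ≤ (((Ioc ⌊Y⌋₊ ⌊11 / 10 * Y⌋₊).filter Nat.Prime).card : ℝ) * Real.log (11 / 10 * Y) := by
  have h1 := Pool.Agent.P.MP_78d079_nt.theta_lower (δ := 1 / 100) (by norm_num)
  have h2 := Pool.Agent.P.MP_78d079_nt.pnt.eventually
    (gt_mem_nhds (show (1 : ℝ) < 101 / 100 by norm_num))
  obtain ⟨a, ha⟩ := Filter.eventually_atTop.1 h1
  obtain ⟨b, hb⟩ := Filter.eventually_atTop.1 h2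
  refine ⟨max 1 (max a b), fun Y hY => ?_⟩
  have hY1 : 1 ≤ Y := (le_max_left _ _).trans hY
  have hYa : a ≤ Y := (le_max_left _ _).trans ((le_max_right _ _).trans hY)
  have hYb : b ≤ Y := (le_max_right _ _).trans ((le_max_right _ _).trans hY)
  have h3 := ha (11 / 10 * Y) (by linarith)
  have h4 := hb Y hYb
  rw [div_lt_iff₀ (by linarith)] at h4
  have h5 := Chebyshev.theta_le_psi Y
  have hle : ⌊Y⌋₊ ≤ ⌊11 / 10 * Y⌋₊ := Nat.floor_le_floor (by linarith)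
  have h6 : Chebyshev.theta (11 / 10 * Y) = Chebyshev.theta Y +
      ∑ p ∈ (Ioc ⌊Y⌋₊ ⌊11 / 10 * Y⌋₊).filter Nat.Prime, Real.log p := by
    unfold Chebyshev.theta
    rw [← Ioc_union_Ioc_eq_Ioc (Nat.zero_le _) hle, filter_union, sum_union]
    exact disjoint_filter_filter (Ioc_disjoint_Ioc_of_le le_rfl)
  have h7 : ∑ p ∈ (Ioc ⌊Y⌋₊ ⌊11 / 10 * Y⌋₊).filter Nat.Prime, Real.log p ≤
      (((Ioc ⌊Y⌋₊ ⌊11 / 10 * Y⌋₊).filter Nat.Prime).card : ℝ) * Real.log (11 / 10 * Y) := by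
    rw [← nsmul_eq_mul]
    refine sum_le_card_nsmul _ _ _ fun p hp => ?_
    obtain ⟨h8, h9⟩ := mem_filter.1 hp
    refine Real.log_le_log (by exact_mod_cast h9.pos) ?_
    exact (Nat.cast_le.2 (mem_Ioc.1 h8).2).trans (Nat.floor_le (by linarith))
  linarith

theorem js1_split (S : Finset ℕ) (hS : ∀ r ∈ S, r.Prime) (n : ℕ) (hn : n ≠ 0) :
    ∃ a b : ℕ, a * b = n ∧ (∀ r ∈ S, ¬ r ∣ a) ∧ b ∈ Submonoid.closure (S : Set ℕ) := by
  induction n using Nat.strong_induction_on with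
  | _ n ih =>
    by_cases h : ∀ r ∈ S, ¬ r ∣ n
    · exact ⟨n, 1, mul_one n, h, Submonoid.one_mem _⟩
    push Not at h
    obtain ⟨r, hr, m, rfl⟩ := h
    have hm : m ≠ 0 := fun h => hn (by rw [h, mul_zero])
    have h2 := (hS r hr).two_le
    obtain ⟨a, b, h1, h3, h4⟩ := ih m (by have := Nat.pos_of_ne_zero hm; nlinarith) hm
    exact ⟨a, r * b, by rw [← h1]; ring, h3,
      Submonoid.mul_mem _ (Submonoid.subset_closure hr) h4⟩

theorem js1_harm (S : Finset ℕ) (hS : ∀ r ∈ S, r.Prime) (A : ℕ) :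
    Real.log (A + 1) * ∏ r ∈ S, (1 - 1 / (r : ℝ)) ≤
      ∑ a ∈ (Ioc 0 A).filter (fun a => ∀ r ∈ S, ¬ r ∣ a), 1 / (a : ℝ) := by
  classical
  choose! a b hab ha hb using js1_split S hS
  have hlt : ∀ r ∈ S, 1 / (r : ℝ) < 1 := fun r hr => by
    rw [div_lt_one (by exact_mod_cast (hS r hr).pos)]
    exact_mod_cast (hS r hr).one_lt
  have hP : 0 < ∏ r ∈ S, (1 - 1 / (r : ℝ)) := prod_pos fun r hr => by linarith [hlt r hr]
  have h1 : Real.log (A + 1) ≤ ∑ n ∈ Ioc 0 A, 1 / (n : ℝ) := by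
    have := log_add_one_le_harmonic A
    rw [harmonic_eq_sum_Icc] at this
    push_cast at this
    rw [← Finset.Icc_add_one_left_eq_Ioc, zero_add]
    simpa only [one_div] using this
  let φ : ℕ → ℕ × ℕ := fun n => (a n, b n)
  have hne : ∀ n ∈ Ioc 0 A, n ≠ 0 := fun n hn => (mem_Ioc.1 hn).1.ne'
  have hφ : Set.InjOn φ (Ioc 0 A : Finset ℕ) := by
    intro x hx y hy h
    simp only [φ, Prod.mk.injEq] at h
    rw [← hab x (hne x hx), ← hab y (hne y hy), h.1, h.2]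
  let F : ℕ × ℕ → ℝ := fun x => 1 / (x.1 : ℝ) * (1 / (x.2 : ℝ))
  have hsub : (Ioc 0 A).image φ ⊆
      (Ioc 0 A).filter (fun a => ∀ r ∈ S, ¬ r ∣ a) ×ˢ (Ioc 0 A).image b := by
    intro x hx
    obtain ⟨n, hn, rfl⟩ := mem_image.1 hx
    have h2 := hab n (hne n hn)
    have h3 : a n ∣ n := ⟨b n, h2.symm⟩
    have h4 := mem_Ioc.1 hn
    refine mem_product.2 ⟨mem_filter.2 ⟨mem_Ioc.2 ⟨Nat.pos_of_dvd_of_pos h3 h4.1,
      (Nat.le_of_dvd h4.1 h3).trans h4.2⟩, ha n (hne n hn)⟩, mem_image_of_mem _ hn⟩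
  have h5 : ∑ v ∈ (Ioc 0 A).image b, 1 / (v : ℝ) ≤ ∏ r ∈ S, (1 - 1 / (r : ℝ))⁻¹ := by
    refine Pool.Agent.Lib.Sieve.sum_le_prod_inv (fun n : ℕ => 1 / (n : ℝ)) (fun _ => by positivity)
      (by simp) (fun x y => le_of_eq (by push_cast; rw [div_mul_div_comm, one_mul])) S hlt _ ?_
    intro v hv
    obtain ⟨n, hn, rfl⟩ := mem_image.1 hv
    exact hb n (hne n hn)
  rw [prod_inv_distrib] at h5
  have h6 : ∑ n ∈ Ioc 0 A, 1 / (n : ℝ) ≤
      (∑ a ∈ (Ioc 0 A).filter (fun a => ∀ r ∈ S, ¬ r ∣ a), 1 / (a : ℝ)) *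
        (∏ r ∈ S, (1 - 1 / (r : ℝ)))⁻¹ := by
    calc ∑ n ∈ Ioc 0 A, 1 / (n : ℝ) = ∑ n ∈ Ioc 0 A, F (φ n) := by
          refine sum_congr rfl fun n hn => ?_
          conv_lhs => rw [← hab n (hne n hn)]
          simp only [F, φ]
          push_cast
          rw [div_mul_div_comm, one_mul]
      _ = ∑ x ∈ (Ioc 0 A).image φ, F x := (sum_image hφ).symm
      _ ≤ ∑ x ∈ (Ioc 0 A).filter (fun a => ∀ r ∈ S, ¬ r ∣ a) ×ˢ (Ioc 0 A).image b, F x :=
          sum_le_sum_of_subset_of_nonneg hsub fun _ _ _ => by simp only [F]; positivity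
      _ = (∑ a ∈ (Ioc 0 A).filter (fun a => ∀ r ∈ S, ¬ r ∣ a), 1 / (a : ℝ)) *
          ∑ v ∈ (Ioc 0 A).image b, 1 / (v : ℝ) := by rw [sum_mul_sum, sum_product]
      _ ≤ _ := mul_le_mul_of_nonneg_left h5 (sum_nonneg fun _ _ => by positivity)
  rw [← div_eq_mul_inv, le_div_iff₀ hP] at h6
  exact (mul_le_mul_of_nonneg_right h1 hP.le).trans h6

theorem subset_sieve : ∃ c X0 : ℝ, 0 < c ∧ ∀ (X : ℝ) (S : Finset ℕ), X0 ≤ X →
    (∀ r ∈ S, r.Prime ∧ (r : ℝ) ^ 5 ≤ X ^ 4) →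
    c * X * ∏ r ∈ S, (1 - 1 / (r : ℝ)) ≤
      (((Ioc ⌊X⌋₊ ⌊11 / 10 * X⌋₊).filter (fun m => ∀ r ∈ S, ¬ r ∣ m)).card : ℝ) := by
  classical
  obtain ⟨Y0, hY0⟩ := js1_primes
  refine ⟨1 / 400, (max 2 Y0) ^ 10, by norm_num, fun X S hX hS => ?_⟩
  have hm2 : (2 : ℝ) ≤ max 2 Y0 := le_max_left _ _
  have hX0 : 0 ≤ X := le_trans (by positivity) hX
  obtain ⟨Z, hZ0, rfl⟩ : ∃ Z : ℝ, 0 ≤ Z ∧ Z ^ 10 = X :=
    ⟨X ^ ((10 : ℕ) : ℝ)⁻¹, Real.rpow_nonneg hX0 _, Real.rpow_inv_natCast_pow hX0 (by norm_num)⟩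
  have hZm : max 2 Y0 ≤ Z := le_of_pow_le_pow_left₀ (n := 10) (by norm_num) hZ0 hX
  have hZ2 : 2 ≤ Z := hm2.trans hZm
  have hZ1 : 1 ≤ Z := by linarith
  have hZY : Y0 ≤ Z := (le_max_right _ _).trans hZm
  have hZ9 : Z ≤ Z ^ 9 := le_self_pow₀ hZ1 (by norm_num)
  have hZ89 : Z ^ 8 ≤ Z ^ 9 := pow_le_pow_right₀ hZ1 (by norm_num)
  have hZ10 : Z ≤ Z ^ 10 := le_self_pow₀ hZ1 (by norm_num)
  have hlog : 0 < Real.log Z := Real.log_pos (by linarith)
  set 𝒜 := (Ioc 0 ⌊Z⌋₊).filter (fun a => ∀ r ∈ S, ¬ r ∣ a) with h𝒜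
  let Q : ℕ → Finset ℕ := fun a => (Ioc ⌊Z ^ 10 / a⌋₊ ⌊11 / 10 * (Z ^ 10 / a)⌋₊).filter Nat.Prime
  have hA : ∀ a ∈ 𝒜, (1 : ℝ) ≤ a ∧ (a : ℝ) ≤ Z ∧ Z ^ 9 ≤ Z ^ 10 / a := by
    intro a ha
    obtain ⟨h1, h2⟩ := mem_Ioc.1 (mem_filter.1 ha).1
    have h3 : (1 : ℝ) ≤ a := by exact_mod_cast h1
    have h4 : (a : ℝ) ≤ Z := (Nat.cast_le.2 h2).trans (Nat.floor_le hZ0)
    refine ⟨h3, h4, ?_⟩
    rw [le_div_iff₀ (by linarith), pow_succ Z 9]
    exact mul_le_mul_of_nonneg_left h4 (by positivity)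
  have hQ : ∀ a ∈ 𝒜, ∀ q ∈ Q a, q.Prime ∧ Z ^ 10 / a < q ∧ (q : ℝ) ≤ 11 / 10 * (Z ^ 10 / a) := by
    intro a ha q hq
    obtain ⟨h1, h2⟩ := mem_filter.1 hq
    obtain ⟨h3, h4⟩ := mem_Ioc.1 h1
    exact ⟨h2, (Nat.floor_lt (by positivity)).1 h3,
      (Nat.cast_le.2 h4).trans (Nat.floor_le (by positivity))⟩
  have hcard : (𝒜.sigma Q).card ≤
      ((Ioc ⌊Z ^ 10⌋₊ ⌊11 / 10 * Z ^ 10⌋₊).filter (fun m => ∀ r ∈ S, ¬ r ∣ m)).card := by
    refine card_le_card_of_injOn (fun x => x.1 * x.2) (fun x hx => ?_) (fun x hx y hy h => ?_)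
    · obtain ⟨ha, hq⟩ := mem_sigma.1 (mem_coe.1 hx)
      obtain ⟨h1, h2, h3⟩ := hA _ ha
      obtain ⟨h4, h5, h6⟩ := hQ _ ha _ hq
      have h7 : Z ^ 10 < ((x.1 * x.2 : ℕ) : ℝ) := by
        rw [div_lt_iff₀ (by linarith)] at h5
        push_cast; linarith
      have h8 : ((x.1 * x.2 : ℕ) : ℝ) ≤ 11 / 10 * Z ^ 10 := by
        rw [← mul_div_assoc, le_div_iff₀ (by linarith)] at h6
        push_cast; linarith
      refine mem_coe.2 (mem_filter.2 ⟨mem_Ioc.2 ⟨(Nat.floor_lt (by positivity)).2 h7,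
        Nat.le_floor h8⟩, fun r hr hd => ?_⟩)
      rcases (hS r hr).1.dvd_mul.1 hd with h9 | h9
      · exact (mem_filter.1 ha).2 r hr h9
      · have h10 := (Nat.prime_dvd_prime_iff_eq (hS r hr).1 h4).1 h9
        have h11 : (r : ℝ) ≤ Z ^ 8 := by
          refine le_of_pow_le_pow_left₀ (n := 5) (by norm_num) (by positivity) ?_
          refine (hS r hr).2.trans (le_of_eq ?_)
          ring
        rw [h10] at h11
        linarith
    · obtain ⟨ha, hq⟩ := mem_sigma.1 (mem_coe.1 hx)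
      obtain ⟨ha', hq'⟩ := mem_sigma.1 (mem_coe.1 hy)
      obtain ⟨h1, h2, h3⟩ := hA _ ha
      obtain ⟨h4, h5, h6⟩ := hQ _ ha _ hq
      obtain ⟨h1', h2', h3'⟩ := hA _ ha'
      obtain ⟨h4', h5', h6'⟩ := hQ _ ha' _ hq'
      have h10 : x.1 * x.2 = y.1 * y.2 := h
      have h7 : x.2 ∣ y.1 * y.2 := ⟨x.1, by rw [← h10, mul_comm]⟩
      have h8 : x.2 = y.2 := by
        rcases h4.dvd_mul.1 h7 with h9 | h9
        · have h10 : (x.2 : ℝ) ≤ y.1 := by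
            exact_mod_cast Nat.le_of_dvd (by exact_mod_cast h1') h9
          linarith
        · exact (Nat.prime_dvd_prime_iff_eq h4 h4').1 h9
      have h9 : x.1 = y.1 := by
        rw [h8] at h10
        exact Nat.eq_of_mul_eq_mul_right h4'.pos h10
      exact Sigma.ext h9 (heq_of_eq h8)
  have hlow : ∀ a ∈ 𝒜, Z ^ 10 / (400 * Real.log Z) * (1 / (a : ℝ)) ≤ ((Q a).card : ℝ) := by
    intro a ha
    obtain ⟨h1, h2, h3⟩ := hA _ ha
    have h4 := hY0 (Z ^ 10 / a) (by linarith)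
    have h5 : Z ^ 10 / a ≤ Z ^ 10 := div_le_self (by positivity) h1
    have h6 : Real.log (11 / 10 * (Z ^ 10 / a)) ≤ 20 * Real.log Z := by
      have h7 : Real.log (Z ^ 20) = 20 * Real.log Z := by rw [Real.log_pow]; norm_num
      rw [← h7]
      refine Real.log_le_log (by positivity) ?_
      have h8 : Z ^ 20 = Z ^ 10 * Z ^ 10 := by ring
      rw [h8]
      exact mul_le_mul (by linarith) h5 (by positivity) (by positivity)
    have h7 := h4.trans (mul_le_mul_of_nonneg_left h6 (Nat.cast_nonneg _))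
    have h8 : Z ^ 10 / (400 * Real.log Z) * (1 / (a : ℝ)) =
        Z ^ 10 / a / 20 / (20 * Real.log Z) := by field_simp; norm_num
    rw [h8, div_le_iff₀ (by positivity)]
    exact h7
  have hh := js1_harm S (fun r hr => (hS r hr).1) ⌊Z⌋₊
  have hP : 0 ≤ ∏ r ∈ S, (1 - 1 / (r : ℝ)) := prod_nonneg fun r hr => by
    have : 1 / (r : ℝ) ≤ 1 := by
      rw [div_le_one (by exact_mod_cast (hS r hr).1.pos)]
      exact_mod_cast (hS r hr).1.one_le
    linarith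
  have hl : Real.log Z ≤ Real.log (⌊Z⌋₊ + 1) :=
    Real.log_le_log (by linarith) (Nat.lt_floor_add_one Z).le
  calc 1 / 400 * Z ^ 10 * ∏ r ∈ S, (1 - 1 / (r : ℝ))
      = Z ^ 10 / (400 * Real.log Z) * (Real.log Z * ∏ r ∈ S, (1 - 1 / (r : ℝ))) := by
        field_simp
    _ ≤ Z ^ 10 / (400 * Real.log Z) * ∑ a ∈ 𝒜, 1 / (a : ℝ) :=
        mul_le_mul_of_nonneg_left ((mul_le_mul_of_nonneg_right hl hP).trans hh) (by positivity)
    _ ≤ ∑ a ∈ 𝒜, ((Q a).card : ℝ) := by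
        rw [mul_sum]; exact sum_le_sum hlow
    _ = ((𝒜.sigma Q).card : ℝ) := by rw [card_sigma]; push_cast; rfl
    _ ≤ _ := by exact_mod_cast hcard

theorem js1_big (ε : ℝ) (hε : 0 < ε) (X0 : ℝ) :
    ∃ k : ℕ, 2 ≤ k ∧ ∀ K : ℕ, k ≤ K → (K : ℝ) ^ 2 ≤ ε * 2 ^ K ∧ 2 * X0 ≤ 2 ^ K := by
  have h1 := (tendsto_pow_const_div_const_pow_of_one_lt 2 (show (1 : ℝ) < 2 by norm_num)).eventually
    (gt_mem_nhds hε)
  have h2 := (tendsto_pow_atTop_atTop_of_one_lt (show (1 : ℝ) < 2 by norm_num)).eventually_ge_atTop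
    (2 * X0)
  obtain ⟨k, hk⟩ := Filter.eventually_atTop.1 (h1.and h2)
  refine ⟨max 2 k, le_max_left _ _, fun K hK => ?_⟩
  obtain ⟨h3, h4⟩ := hk K ((le_max_right _ _).trans hK)
  rw [div_lt_iff₀ (by positivity)] at h3
  exact ⟨h3.le, h4⟩

theorem m_count : ∃ c : ℝ, 0 < c ∧ ∀ B : ℕ, ∃ k : ℕ, ∀ (X : ℝ) (p a : ℕ) (S : Finset ℕ),
    k ≤ kk p → 0 ≤ X → (p : ℝ) ^ 5 ≤ X ^ 4 → 1 ≤ a → a ≤ 2 ^ (B * kk p) →
    (∀ r ∈ S, r.Prime ∧ r < p) →
    c * X * ∏ r ∈ S, (1 - 1 / (r : ℝ)) ≤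
      (((Ioc ⌊X⌋₊ ⌊11 / 10 * X⌋₊).filter (fun m => (∀ r ∈ S, ¬ r ∣ m) ∧
        ∀ r ∈ a.primeFactors, p ≤ r → ¬ r ∣ m)).card : ℝ) := by
  classical
  obtain ⟨c0, X0, hc0, hs⟩ := subset_sieve
  obtain ⟨c1, C1, hc1, -, hm⟩ := mertens_prod
  refine ⟨c0 / 2, by positivity, fun B => ?_⟩
  obtain ⟨k, hk2, hk⟩ := js1_big (c0 * c1 / (5 * (B + 1))) (by positivity) X0
  refine ⟨k, fun X p a S hkp hX hpX ha1 haB hS => ?_⟩
  obtain ⟨hK1, hK2⟩ := hk (kk p) hkp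
  have hp0 : p ≠ 0 := by
    rintro rfl
    have : kk 0 = 1 := by simp [kk]
    omega
  have hp2 : 2 ≤ p := by simpa using (le_kk_iff hp0).1 (hk2.trans hkp)
  have hpR : (2 : ℝ) ≤ p := by exact_mod_cast hp2
  have hKp : (2 : ℝ) ^ kk p ≤ 2 * p := by exact_mod_cast two_pow_kk_le' hp0
  have hpX' : (p : ℝ) ≤ X := by
    refine le_of_pow_le_pow_left₀ (n := 4) (by norm_num) hX (le_trans ?_ hpX)
    exact pow_le_pow_right₀ (by linarith) (by norm_num)
  have h1 := hs X S (by linarith) fun r hr => ⟨(hS r hr).1, le_trans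
    (pow_le_pow_left₀ (Nat.cast_nonneg _) (by exact_mod_cast (hS r hr).2.le) 5) hpX⟩
  have hfac : ∀ r : ℕ, r.Prime → 0 ≤ 1 - 1 / (r : ℝ) ∧ 1 - 1 / (r : ℝ) ≤ 1 := fun r hr => by
    have h2 : 1 / (r : ℝ) ≤ 1 := by
      rw [div_le_one (by exact_mod_cast hr.pos)]
      exact_mod_cast hr.one_le
    have h3 : 0 ≤ 1 / (r : ℝ) := by positivity
    constructor <;> linarith
  have hsub : S ⊆ PP 0 p := fun r hr => mem_PP.2 ⟨(hS r hr).2, (hS r hr).1, Nat.zero_le _⟩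
  have h2 : c1 / kk p ≤ ∏ r ∈ S, (1 - 1 / (r : ℝ)) := by
    refine (hm p hp2).1.trans ?_
    rw [← prod_sdiff hsub]
    refine mul_le_of_le_one_left (prod_nonneg fun r hr => (hfac r (hS r hr).1).1) ?_
    exact prod_le_one (fun r hr => (hfac r (mem_PP.1 (mem_sdiff.1 hr).1).2.1).1)
      fun r hr => (hfac r (mem_PP.1 (mem_sdiff.1 hr).1).2.1).2
  set R := a.primeFactors.filter (fun r => p ≤ r) with hR
  have hRc : R.card ≤ B * kk p := by
    refine card_primes_dvd R (a : ℤ) _ (by exact_mod_cast (by omega : a ≠ 0)) ?_ fun r hr => ?_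
    · rw [abs_of_nonneg (Int.natCast_nonneg a)]; exact_mod_cast haB
    · have := Nat.mem_primeFactors.1 (mem_filter.1 hr).1
      exact ⟨this.1, Int.natCast_dvd_natCast.2 this.2.1⟩
  have hcov : (Ioc ⌊X⌋₊ ⌊11 / 10 * X⌋₊).filter (fun m => ∀ r ∈ S, ¬ r ∣ m) ⊆
      (Ioc ⌊X⌋₊ ⌊11 / 10 * X⌋₊).filter (fun m => (∀ r ∈ S, ¬ r ∣ m) ∧
        ∀ r ∈ a.primeFactors, p ≤ r → ¬ r ∣ m) ∪
      R.biUnion (fun r => (Ioc 0 ⌊11 / 10 * X⌋₊).filter (fun m => r ∣ m)) := by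
    intro m hm
    obtain ⟨h3, h4⟩ := mem_filter.1 hm
    by_cases h5 : ∀ r ∈ a.primeFactors, p ≤ r → ¬ r ∣ m
    · exact mem_union_left _ (mem_filter.2 ⟨h3, h4, h5⟩)
    · push Not at h5
      obtain ⟨r, h6, h7, h8⟩ := h5
      have h9 := mem_Ioc.1 h3
      exact mem_union_right _ (mem_biUnion.2 ⟨r, mem_filter.2 ⟨h6, h7⟩,
        mem_filter.2 ⟨mem_Ioc.2 ⟨by omega, h9.2⟩, h8⟩⟩)
  have h3 : ((R.biUnion (fun r => (Ioc 0 ⌊11 / 10 * X⌋₊).filter (fun m => r ∣ m))).card : ℝ) ≤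
      B * kk p * (11 / 10 * X / p) := by
    have h4 : ((R.biUnion (fun r => (Ioc 0 ⌊11 / 10 * X⌋₊).filter (fun m => r ∣ m))).card : ℝ) ≤
        ∑ r ∈ R, (((Ioc 0 ⌊11 / 10 * X⌋₊).filter (fun m => r ∣ m)).card : ℝ) := by
      exact_mod_cast card_biUnion_le
    refine h4.trans ((sum_le_card_nsmul _ _ (11 / 10 * X / p) fun r hr => ?_).trans ?_)
    · refine (Pool.Agent.Lib.Sieve.card_filter_dvd_le _ _).trans ?_
      exact div_le_div₀ (by positivity) (Nat.floor_le (by positivity)) (by linarith)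
        (by exact_mod_cast (mem_filter.1 hr).2)
    · rw [nsmul_eq_mul]
      exact mul_le_mul_of_nonneg_right (by exact_mod_cast hRc) (by positivity)
  have h4 : (((Ioc ⌊X⌋₊ ⌊11 / 10 * X⌋₊).filter (fun m => ∀ r ∈ S, ¬ r ∣ m)).card : ℝ) ≤
      (((Ioc ⌊X⌋₊ ⌊11 / 10 * X⌋₊).filter (fun m => (∀ r ∈ S, ¬ r ∣ m) ∧
        ∀ r ∈ a.primeFactors, p ≤ r → ¬ r ∣ m)).card : ℝ) +
      ((R.biUnion (fun r => (Ioc 0 ⌊11 / 10 * X⌋₊).filter (fun m => r ∣ m))).card : ℝ) := by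
    exact_mod_cast (card_le_card hcov).trans (card_union_le _ _)
  have hKpos : (0 : ℝ) < kk p := by exact_mod_cast kk_pos p
  have h5 : (B : ℝ) * kk p * (11 / 10 * X / p) ≤ c0 / 2 * X * (c1 / kk p) := by
    have h6 : ((kk p : ℝ)) ^ 2 * (5 * (B + 1)) ≤ c0 * c1 * (2 * p) := by
      have h7 : ((kk p : ℝ)) ^ 2 ≤ c0 * c1 / (5 * (B + 1)) * (2 * p) :=
        hK1.trans (mul_le_mul_of_nonneg_left hKp (by positivity))
      rwa [div_mul_eq_mul_div, le_div_iff₀ (by positivity)] at h7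
    have h8 : (B : ℝ) * kk p * (11 / 10 * X / p) =
        X / (p * kk p) * (11 / 10 * B * (kk p : ℝ) ^ 2) := by field_simp
    have h9 : c0 / 2 * X * (c1 / kk p) = X / (p * kk p) * (c0 * c1 * p / 2) := by field_simp
    rw [h8, h9]
    refine mul_le_mul_of_nonneg_left ?_ (by positivity)
    have h10 : (0 : ℝ) ≤ (kk p : ℝ) ^ 2 := by positivity
    have h11 : (0 : ℝ) ≤ B * (kk p : ℝ) ^ 2 := by positivity
    nlinarith
  have h6 : c0 / 2 * X * (c1 / kk p) ≤ c0 / 2 * X * ∏ r ∈ S, (1 - 1 / (r : ℝ)) :=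
    mul_le_mul_of_nonneg_left h2 (by positivity)
  linarith

end

end Pool.Agent.Jac
end

-- part Pool.Agent.P.MP_45ff98_nt.JA1
section

/-! Upper bound for L-functions near the line of real part one. -/

namespace Pool.Agent.Jac
open Finset MeasureTheory Complex

noncomputable section

theorem ja1_core {η : ℝ} (h0 : 0 < η) (h1 : η ≤ 1) {q : ℕ} [NeZero q]
    {χ : DirichletCharacter ℂ q} (hχ : χ ≠ 1) {s : ℂ} (hs : 1 - η / 2 ≤ s.re) {N : ℕ} (hN : 1 ≤ N)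
    (hq : ‖s‖ * q ≤ 2 * N) : ‖χ.LFunction s‖ ≤ (6 + 2 / η) * (N : ℝ) ^ η := by
  have hσ : 1 / 2 ≤ s.re := by linarith
  have hσ0 : 0 < s.re := by linarith
  have hs0 : s ≠ 0 := fun h => by
    rw [h, Complex.zero_re] at hσ0
    exact lt_irrefl _ hσ0
  have hN1 : (1 : ℝ) ≤ N := Nat.one_le_cast.2 hN
  have hN0 : (0 : ℝ) < N := zero_lt_one.trans_le hN1
  have hm : Measurable fun t : ℝ => EQ.sgbA χ ⌊t⌋₊ :=
    (measurable_of_countable (EQ.sgbA χ)).comp Nat.measurable_floor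
  have hP : 0 ≤ (N : ℝ) ^ η := Real.rpow_nonneg hN0.le _
  have hW : 0 ≤ (N : ℝ) ^ (-s.re) := Real.rpow_nonneg hN0.le _
  have hpow : (N : ℝ) * (N : ℝ) ^ (-s.re) ≤ (N : ℝ) ^ η := by
    rw [mul_comm, ← Real.rpow_add_one hN0.ne']
    exact Real.rpow_le_rpow_of_exponent_le hN1 (by linarith)
  have ht := tail_le hm (fun u => EQ.sgb_le_q hχ ⌊u⌋₊) hσ0 hN1
  have ha : s * ∫ u in (1 : ℝ)..N, EQ.sgbA χ ⌊u⌋₊ * (u : ℂ) ^ (-(s + 1)) =
      ∑ n ∈ Icc 1 N, χ (n : ZMod q) * (n : ℂ) ^ (-s) - EQ.sgbA χ N * (N : ℂ) ^ (-s) :=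
    abel_core (fun n => χ (n : ZMod q)) hs0 hN
  have hp := psum_le (a := fun n => χ (n : ZMod q)) (fun n => χ.norm_le_one _) h0 hs hN
  have hb : ‖EQ.sgbA χ N * (N : ℂ) ^ (-s)‖ ≤ (N : ℝ) ^ η := by
    rw [norm_mul, Complex.norm_natCast_cpow_of_pos hN, Complex.neg_re]
    exact (mul_le_mul_of_nonneg_right (EQ.sgb_le_self χ N) hW).trans hpow
  set I1 := ∫ u in Set.Ioi (1 : ℝ), EQ.sgbA χ ⌊u⌋₊ * (u : ℂ) ^ (-(s + 1)) with hI1
  set J := ∫ u in (1 : ℝ)..N, EQ.sgbA χ ⌊u⌋₊ * (u : ℂ) ^ (-(s + 1)) with hJ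
  have hc : ‖s * (I1 - J)‖ ≤ 4 * (N : ℝ) ^ η := by
    rw [norm_mul]
    have h2 : (q : ℝ) * (N : ℝ) ^ (-s.re) / s.re ≤ 2 * ((q : ℝ) * (N : ℝ) ^ (-s.re)) := by
      rw [div_le_iff₀ hσ0]
      have h3 : 0 ≤ (q : ℝ) * (N : ℝ) ^ (-s.re) := mul_nonneg (Nat.cast_nonneg q) hW
      nlinarith
    calc ‖s‖ * ‖I1 - J‖ ≤ ‖s‖ * (2 * ((q : ℝ) * (N : ℝ) ^ (-s.re))) :=
          mul_le_mul_of_nonneg_left (ht.trans h2) (norm_nonneg _)
      _ = 2 * (‖s‖ * q * (N : ℝ) ^ (-s.re)) := by ring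
      _ ≤ 2 * (2 * N * (N : ℝ) ^ (-s.re)) := by gcongr
      _ = 4 * ((N : ℝ) * (N : ℝ) ^ (-s.re)) := by ring
      _ ≤ _ := by gcongr
  have he : χ.LFunction s = s * (I1 - J) + s * J := by
    rw [EQ.sgb_repr hχ hσ0]
    ring
  rw [he, ha]
  have h4 := norm_add_le (s * (I1 - J))
    (∑ n ∈ Icc 1 N, χ (n : ZMod q) * (n : ℂ) ^ (-s) - EQ.sgbA χ N * (N : ℂ) ^ (-s))
  have h5 := norm_sub_le (∑ n ∈ Icc 1 N, χ (n : ZMod q) * (n : ℂ) ^ (-s))
    (EQ.sgbA χ N * (N : ℂ) ^ (-s))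
  linarith

theorem L_up {η : ℝ} (h0 : 0 < η) (h1 : η ≤ 1) : ∃ C : ℝ, 1 ≤ C ∧ ∀ (q : ℕ) [NeZero q]
    (χ : DirichletCharacter ℂ q), χ ≠ 1 → ∀ s : ℂ, 1 - η / 2 ≤ s.re → s.re ≤ 4 →
      ‖χ.LFunction s‖ ≤ C * (q : ℝ) ^ η * (|s.im| + 2) ^ η := by
  have h2 : 0 < 2 / η := by positivity
  refine ⟨2 * (6 + 2 / η), by linarith, fun q _ χ hχ s hs hs' => ?_⟩
  have hq : (1 : ℝ) ≤ q := Nat.one_le_cast.2 (NeZero.pos q)
  have hT : 2 ≤ |s.im| + 2 := by linarith [abs_nonneg s.im]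
  set T := |s.im| + 2 with hTd
  have hqT : 1 ≤ (q : ℝ) * T := by nlinarith
  have h3 : (q : ℝ) * T ≤ ⌈(q : ℝ) * T⌉₊ := Nat.le_ceil _
  have h4 : (⌈(q : ℝ) * T⌉₊ : ℝ) ≤ 2 * ((q : ℝ) * T) := by
    have := Nat.ceil_lt_add_one (zero_le_one.trans hqT)
    linarith
  have h5 : ‖s‖ ≤ 2 * T := by
    have h6 := Complex.norm_le_abs_re_add_abs_im s
    have h7 : |s.re| ≤ 4 := abs_le.2 ⟨by linarith, hs'⟩
    linarith [abs_nonneg s.im]
  have hN : 1 ≤ ⌈(q : ℝ) * T⌉₊ := Nat.one_le_cast.1 (hqT.trans h3)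
  refine (ja1_core h0 h1 hχ hs hN (by nlinarith)).trans ?_
  have h8 : (⌈(q : ℝ) * T⌉₊ : ℝ) ^ η ≤ 2 * ((q : ℝ) ^ η * T ^ η) := by
    refine (Real.rpow_le_rpow (Nat.cast_nonneg _) h4 h0.le).trans ?_
    rw [Real.mul_rpow zero_le_two (zero_le_one.trans hqT),
      Real.mul_rpow (zero_le_one.trans hq) (zero_le_two.trans hT)]
    refine mul_le_mul_of_nonneg_right ?_ (by positivity)
    exact (Real.rpow_le_rpow_of_exponent_le one_le_two h1).trans_eq (Real.rpow_one 2)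
  calc (6 + 2 / η) * (⌈(q : ℝ) * T⌉₊ : ℝ) ^ η ≤ (6 + 2 / η) * (2 * ((q : ℝ) ^ η * T ^ η)) :=
        mul_le_mul_of_nonneg_left h8 (by linarith)
    _ = _ := by ring

end

end Pool.Agent.Jac
end

-- part Pool.Agent.P.MP_45ff98_nt.JA2b
section

/-! Lower bound for L-functions of complex characters. -/

namespace Pool.Agent.Jac
open Finset MeasureTheory Complex

noncomputable section

theorem L_low_ne {η : ℝ} (h0 : 0 < η) (h1 : η ≤ 1) : ∃ c : ℝ, 0 < c ∧ ∀ (q : ℕ) [NeZero q]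
    (χ : DirichletCharacter ℂ q), χ ≠ 1 → χ ^ 2 ≠ 1 → ∀ σ t : ℝ, 1 ≤ σ → σ ≤ 2 →
      c * ((q : ℝ) ^ (-(6 * η)) * (|t| + 2) ^ (-(6 * η))) ≤ ‖χ.LFunction (σ + t * I)‖ := by
  obtain ⟨C, hC, hup⟩ := L_up h0 h1
  refine ⟨1 / (16 * (8 * C / η) ^ 3 * (16 * C)), by positivity,
    fun q _ χ hχ hχ2 σ t hσ1 hσ2 => ?_⟩
  have hq : (1 : ℝ) ≤ q := by exact_mod_cast NeZero.one_le
  have ht : (1 : ℝ) ≤ |t| + 2 := by linarith [abs_nonneg t]
  have hQ : 1 ≤ (q : ℝ) ^ η := Real.one_le_rpow hq h0.le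
  have hP : 1 ≤ (|t| + 2) ^ η := Real.one_le_rpow ht h0.le
  have e : ∀ y : ℝ, 0 ≤ y → y ^ (-(6 * η)) = 1 / (y ^ η) ^ 6 := fun y hy => by
    rw [Real.rpow_neg hy, one_div, ← Real.rpow_natCast, ← Real.rpow_mul hy, mul_comm]
    norm_num
  have h2 : (|2 * t| + 2) ^ η ≤ 2 * (|t| + 2) ^ η := by
    calc (|2 * t| + 2) ^ η ≤ (2 * (|t| + 2)) ^ η := by
          refine Real.rpow_le_rpow (by positivity) ?_ h0.le
          rw [abs_mul, abs_two]
          linarith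
      _ = 2 ^ η * (|t| + 2) ^ η := Real.mul_rpow (by norm_num) (by positivity)
      _ ≤ 2 * (|t| + 2) ^ η := mul_le_mul_of_nonneg_right
          (Real.rpow_le_self_of_one_le (by norm_num) h1) (by positivity)
  have hL : ∀ a ∈ Set.Icc (1 : ℝ) 2, ∀ b ∈ Set.Icc (1 : ℝ) 2,
      ‖χ.LFunction (a + t * I) - χ.LFunction (b + t * I)‖ ≤
        8 * C / η * (q : ℝ) ^ η * (|t| + 2) ^ η * |a - b| := fun a ha b hb => by
    have := lip_of_up (f := χ.LFunction) (R := η / 2) (A := C * (q : ℝ) ^ η) (η := η)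
      (by positivity) (by linarith) (by positivity) h0.le h1
      (DirichletCharacter.differentiable_LFunction hχ).differentiableOn
      (fun s k1 k2 => hup q χ hχ s k1.le k2) (T := |t|) (s := a + t * I) (w := b + t * I)
      (by simpa using ha) (by simpa using hb)
    refine this.trans (le_of_eq ?_)
    rw [add_sub_add_right_eq_sub, ← ofReal_sub, norm_real, Real.norm_eq_abs]
    field_simp
    ring
  have h3 : ∀ x : ℝ, 0 < x → x ≤ 1 → x ^ 3 ≤ 16 * C * (q : ℝ) ^ η * (|t| + 2) ^ η *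
      ‖χ.LFunction (((1 + x : ℝ) : ℂ) + t * I)‖ ^ 4 := fun x k1 k2 => by
    refine (three_four_one χ k1 k2 t).trans (mul_le_mul_of_nonneg_right ?_ (by positivity))
    have k3 := hup q (χ ^ 2) hχ2 (((1 + x : ℝ) : ℂ) + ((2 * t : ℝ) : ℂ) * I)
      (by simp only [add_re, ofReal_re, mul_re, I_re, ofReal_im, I_im]; linarith)
      (by simp only [add_re, ofReal_re, mul_re, I_re, ofReal_im, I_im]; linarith)
    have k4 : (((1 + x : ℝ) : ℂ) + ((2 * t : ℝ) : ℂ) * I).im = 2 * t := by simp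
    rw [k4] at k3
    have k5 := mul_le_mul_of_nonneg_left h2 (by positivity : 0 ≤ C * (q : ℝ) ^ η)
    linarith
  rw [e _ (by positivity), e _ (by positivity)]
  generalize (q : ℝ) ^ η = Q at hQ hL h3
  generalize (|t| + 2) ^ η = P at hP hL h3
  have hQP : 1 ≤ Q * P := one_le_mul_of_one_le_of_one_le hQ hP
  have hK : 1 ≤ 8 * C / η := by rw [le_div_iff₀ h0]; linarith
  have h4 := low_abs (g := fun a : ℝ => χ.LFunction (a + t * I)) (M := 8 * C / η * Q * P)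
    (M' := 16 * C * Q * P) (by rw [mul_assoc]; exact one_le_mul_of_one_le_of_one_le hK hQP)
    (by rw [mul_assoc]; exact one_le_mul_of_one_le_of_one_le (by linarith) hQP) hL h3 σ ⟨hσ1, hσ2⟩
  refine le_trans ?_ h4
  generalize 8 * C / η = K at hK
  rw [div_mul_div_comm, div_mul_div_comm, one_mul, one_mul]
  refine one_div_le_one_div_of_le (by positivity) ?_
  have h5 : (Q * P) ^ 4 ≤ (Q * P) ^ 6 := pow_le_pow_right₀ hQP (by norm_num)
  calc 16 * (K * Q * P) ^ 3 * (16 * C * Q * P) = 16 * K ^ 3 * (16 * C) * (Q * P) ^ 4 := by ring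
    _ ≤ 16 * K ^ 3 * (16 * C) * (Q * P) ^ 6 := mul_le_mul_of_nonneg_left h5 (by positivity)
    _ = _ := by ring

end

end Pool.Agent.Jac
end

-- part Pool.Agent.P.MP_45ff98_nt.JA2c
section

/-! Lower bound for L-functions of real characters. -/

namespace Pool.Agent.Jac
open Finset MeasureTheory Complex

noncomputable section

theorem triv_up {η : ℝ} (h0 : 0 < η) (h1 : η ≤ 1) : ∃ C : ℝ, 1 ≤ C ∧ ∀ (q : ℕ) [NeZero q] (s : ℂ),
    1 ≤ s.re → s.re ≤ 2 → s.im ≠ 0 → ‖(1 : DirichletCharacter ℂ q).LFunction s‖ ≤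
      C * (q : ℝ) ^ η * (1 / |s.im| + (|s.im| + 2) ^ η) := by
  obtain ⟨C1, hC1, h2⟩ := EQ.div_bound h0
  obtain ⟨C2, hC2, h3⟩ := zeta0_up h0 h1
  refine ⟨max 1 C1 * C2, one_le_mul_of_one_le_of_one_le (le_max_left _ _) hC2,
    fun q _ s hs1 hs2 hs => ?_⟩
  have hq : 0 < q := NeZero.pos q
  have hs' : s ≠ 1 := fun e => hs (by simp [e])
  have e : (1 : DirichletCharacter ℂ q).LFunction s =
      (∏ p ∈ q.primeFactors, (1 - (p : ℂ) ^ (-s))) * riemannZeta s :=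
    DirichletCharacter.LFunctionTrivChar_eq_mul_riemannZeta hs'
  have a1 : ‖∏ p ∈ q.primeFactors, (1 - (p : ℂ) ^ (-s))‖ ≤ max 1 C1 * (q : ℝ) ^ η := by
    rw [norm_prod]
    have b1 : ∏ p ∈ q.primeFactors, ‖1 - (p : ℂ) ^ (-s)‖ ≤ ∏ _p ∈ q.primeFactors, (2 : ℝ) := by
      refine Finset.prod_le_prod (fun _ _ => norm_nonneg _) fun p hp => ?_
      have hp' := (Nat.prime_of_mem_primeFactors hp).pos
      refine (norm_sub_le _ _).trans ?_
      rw [norm_one, norm_natCast_cpow_of_pos hp']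
      have : (p : ℝ) ^ (-s).re ≤ 1 :=
        Real.rpow_le_one_of_one_le_of_nonpos (by exact_mod_cast hp') (by rw [neg_re]; linarith)
      linarith
    rw [Finset.prod_const] at b1
    have b2 : (2 : ℝ) ^ q.primeFactors.card ≤ q.divisors.card := by
      exact_mod_cast EQ.two_pow_omega_le hq
    exact b1.trans (b2.trans ((h2 q hq).trans
      (mul_le_mul_of_nonneg_right (le_max_right _ _) (by positivity))))
  have a2 : ‖riemannZeta s‖ ≤ C2 * (1 / |s.im| + (|s.im| + 2) ^ η) := by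
    have hp : 0 < |s.im| := abs_pos.2 hs
    rw [riemannZeta_eq_inv_sub_add hs']
    refine (norm_add_le _ _).trans ?_
    have b1 : ‖(s - 1)⁻¹‖ ≤ 1 / |s.im| := by
      rw [norm_inv, one_div]
      refine inv_anti₀ hp ?_
      have := abs_im_le_norm (s - 1)
      simpa using this
    have b2 := h3 s (by linarith) (by linarith)
    have b3 : 1 / |s.im| ≤ C2 * (1 / |s.im|) := le_mul_of_one_le_left (by positivity) hC2
    linarith
  rw [e, norm_mul]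
  refine (mul_le_mul a1 a2 (norm_nonneg _) (by positivity)).trans (le_of_eq ?_)
  ring

theorem L_near {η : ℝ} (h0 : 0 < η) (h1 : η ≤ 1) : ∃ c : ℝ, 0 < c ∧ c ≤ 1 ∧ ∀ (q : ℕ) [NeZero q]
    (χ : DirichletCharacter ℂ q), χ ≠ 1 → χ ^ 2 = 1 → ∀ σ t : ℝ, 1 ≤ σ → σ ≤ 2 →
      |t| ≤ c * (q : ℝ) ^ (-(2 * η)) →
        c / 2 * (q : ℝ) ^ (-(2 * η)) ≤ ‖χ.LFunction (σ + t * I)‖ := by
  obtain ⟨c0, hc0, h2⟩ := EQ.siegel h0
  obtain ⟨C, hC, h3⟩ := L_up h0 h1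
  have hc : 0 < min 1 (c0 * η / (96 * C)) := lt_min one_pos (by positivity)
  refine ⟨min 1 (c0 * η / (96 * C)), hc, min_le_left _ _, fun q _ χ hχ hχ2 σ t hσ1 hσ2 ht => ?_⟩
  have c1 : min 1 (c0 * η / (96 * C)) ≤ 1 := min_le_left _ _
  have c2 : min 1 (c0 * η / (96 * C)) * (96 * C) ≤ c0 * η :=
    (le_div_iff₀ (by positivity)).1 (min_le_right _ _)
  generalize min 1 (c0 * η / (96 * C)) = c at hc c1 c2 ht ⊢
  have hq : (1 : ℝ) ≤ q := by exact_mod_cast NeZero.pos q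
  have hQ : 1 ≤ (q : ℝ) ^ η := Real.one_le_rpow hq h0.le
  have e2 : (q : ℝ) ^ (-(2 * η)) = (((q : ℝ) ^ η)⁻¹) ^ 2 := by
    rw [Real.rpow_neg (by linarith), mul_comm, Real.rpow_mul (by linarith), Real.rpow_two, inv_pow]
  have h4 := h2 q χ hχ hχ2
  rw [Real.rpow_neg (by linarith)] at h4
  have h5 := lip_of_up (f := χ.LFunction) (R := η / 2) (A := C * (q : ℝ) ^ η) (T := 1)
    (s := σ + t * I) (w := 1) (by positivity) (by linarith) (by positivity) h0.le h1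
    (DirichletCharacter.differentiable_LFunction hχ).differentiableOn
    (fun s a b => h3 q χ hχ s a.le b)
  rw [e2] at ht ⊢
  have hu0 : 0 < ((q : ℝ) ^ η)⁻¹ := by positivity
  have hu1 : ((q : ℝ) ^ η)⁻¹ ≤ 1 := inv_le_one_of_one_le₀ hQ
  have hu2 : (q : ℝ) ^ η * ((q : ℝ) ^ η)⁻¹ = 1 := mul_inv_cancel₀ (by positivity)
  generalize ((q : ℝ) ^ η)⁻¹ = u at ht h4 hu0 hu1 hu2 ⊢
  generalize (q : ℝ) ^ η = Q at h5 hQ hu2
  have hu3 : u ^ 2 ≤ u := by nlinarith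
  have hτ : c * u ^ 2 ≤ 1 := by nlinarith
  rcases le_or_gt (σ - 1) (c * u ^ 2) with hx | hx
  · have h6 := h5 (by simpa using ⟨hσ1, hσ2, ht.trans hτ⟩) (by simp)
    have h7 : ((1 : ℝ) + 2) ^ η ≤ 3 := by
      have := Real.rpow_le_rpow_of_exponent_le (show (1 : ℝ) ≤ 1 + 2 by norm_num) h1
      rw [Real.rpow_one] at this
      linarith
    have h8 : ‖(σ + t * I : ℂ) - 1‖ ≤ 2 * (c * u ^ 2) := by
      refine (norm_le_abs_re_add_abs_im _).trans ?_
      have a1 : ((σ + t * I : ℂ) - 1).re = σ - 1 := by simp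
      have a2 : ((σ + t * I : ℂ) - 1).im = t := by simp
      rw [a1, a2, abs_of_nonneg (by linarith)]
      linarith
    have h9 : 4 * (C * Q) / (η / 2) * ((1 : ℝ) + 2) ^ η * ‖(σ + t * I : ℂ) - 1‖ ≤
        4 * (C * Q) / (η / 2) * 3 * (2 * (c * u ^ 2)) :=
      mul_le_mul (mul_le_mul_of_nonneg_left h7 (by positivity)) h8 (norm_nonneg _) (by positivity)
    have h10 : 4 * (C * Q) / (η / 2) * 3 * (2 * (c * u ^ 2)) ≤ c0 * u / 2 := by
      have a1 : 4 * (C * Q) / (η / 2) * 3 * (2 * (c * u ^ 2)) =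
          c * (96 * C) * (Q * u) * u / (2 * η) := by
        field_simp
        ring
      rw [a1, hu2, mul_one, div_le_div_iff₀ (by positivity) (by norm_num)]
      nlinarith [mul_le_mul_of_nonneg_right c2 hu0.le]
    have h11 := norm_sub_norm_le (χ.LFunction 1) (χ.LFunction (σ + t * I))
    rw [norm_sub_rev] at h11
    have h12 : c ≤ c0 := by
      have a1 : c * 1 ≤ c * (96 * C) := mul_le_mul_of_nonneg_left (by linarith) hc.le
      have a2 : c0 * η ≤ c0 * 1 := mul_le_mul_of_nonneg_left h1 hc0.le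
      linarith
    have h13 : c * u ^ 2 ≤ c0 * u := mul_le_mul h12 hu3 (by positivity) hc0.le
    linarith
  · have hx0 : 0 < σ - 1 := lt_of_le_of_lt (by positivity) hx
    have h6 := three_four_one χ hx0 (by linarith) t
    rw [show 1 + (σ - 1) = σ by ring] at h6
    have h7 := triv_le (χ ^ 2) (s := (σ : ℂ) + ((2 * t : ℝ) : ℂ) * I) (by simp; linarith)
      (by simpa using hσ2)
    rw [show ((σ : ℂ) + ((2 * t : ℝ) : ℂ) * I).re = σ by simp] at h7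
    have hL := norm_nonneg (χ.LFunction (σ + t * I))
    generalize ‖χ.LFunction (σ + t * I)‖ = L at h6 hL ⊢
    generalize σ - 1 = x at hx hx0 h6 h7
    have h8 : x ^ 3 ≤ 8 * (2 / x) * L ^ 4 := h6.trans
      (mul_le_mul_of_nonneg_right (mul_le_mul_of_nonneg_left h7 (by norm_num)) (by positivity))
    have h9 : x ^ 4 ≤ (2 * L) ^ 4 := by
      have a1 := mul_le_mul_of_nonneg_right h8 hx0.le
      have a2 : 8 * (2 / x) * L ^ 4 * x = (2 * L) ^ 4 := by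
        field_simp
        norm_num
      rw [a2] at a1
      linarith
    have h10 : x ≤ 2 * L := le_of_pow_le_pow_left₀ (by norm_num) (by positivity) h9
    linarith

end

end Pool.Agent.Jac
end

-- part Pool.Agent.P.MP_45ff98_nt.JA2d
section

/-! Lower bound for L-functions. -/

namespace Pool.Agent.Jac
open Finset MeasureTheory Complex

noncomputable section

theorem ja2d_pow {x : ℝ} (hx : 0 ≤ x) (η : ℝ) (n : ℕ) : x ^ (-(n * η)) = 1 / (x ^ η) ^ n := by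
  rw [Real.rpow_neg hx, mul_comm, Real.rpow_mul hx, Real.rpow_natCast, one_div]

theorem ja2d_two {η : ℝ} (h0 : 0 < η) (h1 : η ≤ 1) (t : ℝ) :
    (|2 * t| + 2) ^ η ≤ 2 * (|t| + 2) ^ η := by
  have h2 : (2 : ℝ) ^ η ≤ 2 := Real.rpow_le_self_of_one_le one_le_two h1
  calc (|2 * t| + 2) ^ η ≤ (2 * (|t| + 2)) ^ η := by
        refine Real.rpow_le_rpow (by positivity) ?_ h0.le
        rw [abs_mul, abs_two]
        linarith
    _ = 2 ^ η * (|t| + 2) ^ η := Real.mul_rpow (by positivity) (by positivity)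
    _ ≤ _ := by gcongr

theorem L_low_eq {η : ℝ} (h0 : 0 < η) (h1 : η ≤ 1) : ∃ c : ℝ, 0 < c ∧ ∀ (q : ℕ) [NeZero q]
    (χ : DirichletCharacter ℂ q), χ ≠ 1 → χ ^ 2 = 1 → ∀ σ t : ℝ, 1 ≤ σ → σ ≤ 2 →
      c * ((q : ℝ) ^ (-(6 * η)) * (|t| + 2) ^ (-(6 * η))) ≤ ‖χ.LFunction (σ + t * I)‖ := by
  obtain ⟨C, hC, hup⟩ := L_up h0 h1
  obtain ⟨C3, hC3, htr⟩ := triv_up h0 h1
  obtain ⟨c, hc, -, hnear⟩ := L_near h0 h1
  obtain ⟨K, hK⟩ : ∃ K, K = 8 * C / η := ⟨_, rfl⟩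
  obtain ⟨K', hK'⟩ : ∃ K', K' = 8 * C3 * (1 / (2 * c) + 2) := ⟨_, rfl⟩
  have hK1 : 1 ≤ K := by rw [hK, le_div_iff₀ h0]; linarith
  have hc2 : 0 < 1 / (2 * c) := by positivity
  have hK1' : 1 ≤ K' := by rw [hK']; nlinarith
  refine ⟨min (c / 2) (1 / (16 * K ^ 3 * K')), by positivity, fun q _ χ hχ hχ2 σ t s1 s2 => ?_⟩
  have hq : (1 : ℝ) ≤ q := Nat.one_le_cast.2 (Nat.pos_of_ne_zero (NeZero.ne q))
  have hT : (1 : ℝ) ≤ |t| + 2 := by linarith [abs_nonneg t]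
  have e6 := ja2d_pow (zero_le_one.trans hq) η 6
  have e6' := ja2d_pow (zero_le_one.trans hT) η 6
  have e2 := ja2d_pow (zero_le_one.trans hq) η 2
  have hQ : 1 ≤ (q : ℝ) ^ η := Real.one_le_rpow hq h0.le
  have hP : 1 ≤ (|t| + 2) ^ η := Real.one_le_rpow hT h0.le
  have h2t := ja2d_two h0 h1 t
  have hn := hnear q χ hχ hχ2 σ t s1 s2
  push_cast at e6 e6' e2
  rw [e2] at hn
  rw [e6, e6']
  have hlip : ∀ a ∈ Set.Icc (1 : ℝ) 2, ∀ b ∈ Set.Icc (1 : ℝ) 2,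
      ‖χ.LFunction (a + t * I) - χ.LFunction (b + t * I)‖ ≤
        K * (q : ℝ) ^ η * (|t| + 2) ^ η * |a - b| := by
    intro a ha b hb
    have := lip_of_up (f := χ.LFunction) (R := η / 2) (A := C * (q : ℝ) ^ η) (by positivity)
      (by linarith) (by positivity) h0.le h1
      (DirichletCharacter.differentiable_LFunction hχ).differentiableOn
      (fun s hs hs' => hup q χ hχ s hs.le hs') (T := |t|) (s := a + t * I) (w := b + t * I)
      (by simpa using ha) (by simpa using hb)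
    rw [add_sub_add_right_eq_sub, ← ofReal_sub, norm_real, Real.norm_eq_abs] at this
    refine this.trans (le_of_eq ?_)
    rw [hK]
    field_simp
    ring
  have htv := fun (x : ℝ) (x0 : 0 < x) (x1 : x ≤ 1) (ht : t ≠ 0) =>
    htr q (((1 + x : ℝ) : ℂ) + ((2 * t : ℝ) : ℂ) * I) (by simp [x0.le]) (by simp; linarith)
      (by simpa using ht)
  generalize (q : ℝ) ^ η = Q at *
  generalize hPt : (|t| + 2) ^ η = P at *
  have hQ0 : 0 < Q := by linarith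
  have hP0 : 0 < P := by linarith
  rcases le_or_gt |t| (c * (1 / Q ^ 2)) with ht | ht
  · refine le_trans ?_ (hn ht)
    refine mul_le_mul (min_le_left _ _) ?_ (by positivity) (by positivity)
    rw [one_div_mul_one_div]
    refine one_div_le_one_div_of_le (by positivity) ?_
    exact (pow_le_pow_right₀ hQ (by norm_num)).trans
      (le_mul_of_one_le_right (by positivity) (one_le_pow₀ hP))
  · have ht0 : 0 < |t| := lt_of_le_of_lt (by positivity) ht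
    have h3 : 1 / |2 * t| ≤ 1 / (2 * c) * Q ^ 2 := by
      rw [abs_mul, abs_two, div_le_iff₀ (by positivity)]
      rw [mul_one_div, div_lt_iff₀ (by positivity)] at ht
      rw [show 1 / (2 * c) * Q ^ 2 * (2 * |t|) = |t| * Q ^ 2 / c by field_simp, le_div_iff₀ hc]
      linarith
    have hQ2 : 1 ≤ Q ^ 2 := one_le_pow₀ hQ
    have h4 : 1 / |2 * t| + (|2 * t| + 2) ^ η ≤ (1 / (2 * c) + 2) * (Q ^ 2 * P) := by
      have := mul_le_mul_of_nonneg_left hP (show 0 ≤ 1 / (2 * c) * Q ^ 2 by positivity)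
      have := mul_le_mul_of_nonneg_right hQ2 hP0.le
      nlinarith
    have h5 := low_abs (g := fun a : ℝ => χ.LFunction (a + t * I)) (M := K * Q * P)
      (M' := K' * Q ^ 3 * P) (one_le_mul_of_one_le_of_one_le (one_le_mul_of_one_le_of_one_le hK1 hQ) hP)
      (one_le_mul_of_one_le_of_one_le (one_le_mul_of_one_le_of_one_le hK1' (one_le_pow₀ hQ)) hP)
      hlip (fun x x0 x1 => ?_) σ ⟨s1, s2⟩
    · refine le_trans ?_ h5
      refine (mul_le_mul_of_nonneg_right (min_le_right _ _) (by positivity)).trans ?_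
      rw [one_div_mul_one_div, one_div_mul_one_div]
      refine one_div_le_one_div_of_le (by positivity) ?_
      have : P ^ 4 ≤ P ^ 6 := pow_le_pow_right₀ hP (by norm_num)
      calc 16 * (K * Q * P) ^ 3 * (K' * Q ^ 3 * P) = 16 * K ^ 3 * K' * (Q ^ 6 * P ^ 4) := by ring
        _ ≤ _ := by gcongr
    · refine (three_four_one χ x0 x1 t).trans (mul_le_mul_of_nonneg_right ?_ (by positivity))
      have h6 := htv x x0 x1 (abs_pos.1 ht0)
      rw [show (((1 + x : ℝ) : ℂ) + ((2 * t : ℝ) : ℂ) * I).im = 2 * t by simp] at h6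
      rw [hχ2]
      calc _ ≤ 8 * (C3 * Q * ((1 / (2 * c) + 2) * (Q ^ 2 * P))) := by
            gcongr
            exact h6.trans (by gcongr)
        _ = _ := by rw [hK']; ring

theorem L_low {η : ℝ} (h0 : 0 < η) (h1 : η ≤ 1) : ∃ c : ℝ, 0 < c ∧ ∀ (q : ℕ) [NeZero q]
    (χ : DirichletCharacter ℂ q), χ ≠ 1 → ∀ σ t : ℝ, 1 ≤ σ → σ ≤ 2 →
      c * (q : ℝ) ^ (-η) * (|t| + 2) ^ (-η) ≤ ‖χ.LFunction (σ + t * I)‖ := by
  obtain ⟨c, hc, h⟩ := L_low_ne (η := η / 6) (by positivity) (by linarith)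
  obtain ⟨c', hc', h'⟩ := L_low_eq (η := η / 6) (by positivity) (by linarith)
  have e : 6 * (η / 6) = η := by ring
  rw [e] at h h'
  refine ⟨min c c', lt_min hc hc', fun q _ χ hχ σ t h1 h2 => ?_⟩
  rw [mul_assoc]
  by_cases hq : χ ^ 2 = 1
  · exact (mul_le_mul_of_nonneg_right (min_le_right _ _) (by positivity)).trans
      (h' q χ hχ hq σ t h1 h2)
  · exact (mul_le_mul_of_nonneg_right (min_le_left _ _) (by positivity)).trans
      (h q χ hχ hq σ t h1 h2)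

end

end Pool.Agent.Jac
end

-- part Pool.Agent.P.MP_45ff98_nt.JA3a
section

/-! Operations on functions that are bounded on small discs. -/

namespace Pool.Agent.Jac
open Finset MeasureTheory Complex

noncomputable section

theorem ja3a_two_le (t : ℝ) : (2 : ℝ) ≤ |t| + 2 := by
  have := abs_nonneg t
  linarith

theorem ja3a_pos (t η : ℝ) : 0 < (|t| + 2) ^ η :=
  Real.rpow_pos_of_pos (by have := ja3a_two_le t; linarith) η

theorem ja3a_one_le (t : ℝ) {η : ℝ} (h : 0 ≤ η) : 1 ≤ (|t| + 2) ^ η :=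
  Real.one_le_rpow (by have := ja3a_two_le t; linarith) h

theorem ja3a_sub (z : ℂ) {a b : ℝ} (ha : 0 < a) (hab : a ≤ b) :
    Metric.ball z (1 / b) ⊆ Metric.ball z (1 / a) :=
  Metric.ball_subset_ball (one_div_le_one_div_of_le ha hab)

theorem Disc.mono {F : ℂ → ℂ} {V V' η η' : ℝ} (h : Disc F V η) (hV : 0 < V) (hV' : V ≤ V')
    (hη : η ≤ η') : Disc F V' η' := by
  intro σ t h1 h2
  have hle : V * (|t| + 2) ^ η ≤ V' * (|t| + 2) ^ η' :=
    mul_le_mul hV' (Real.rpow_le_rpow_of_exponent_le (by have := ja3a_two_le t; linarith) hη)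
      (ja3a_pos t η).le (hV.le.trans hV')
  have hs := ja3a_sub (σ + t * Complex.I) (mul_pos hV (ja3a_pos t η)) hle
  exact ⟨(h σ t h1 h2).1.mono hs, fun s hs' => ((h σ t h1 h2).2 s (hs hs')).trans hle⟩

theorem Disc.add {F G : ℂ → ℂ} {V η : ℝ} (h : Disc F V η) (h' : Disc G V η) (hV : 0 < V) :
    Disc (fun s => F s + G s) (2 * V) η := by
  intro σ t h1 h2
  have hp := mul_pos hV (ja3a_pos t η)
  have hle : V * (|t| + 2) ^ η ≤ 2 * V * (|t| + 2) ^ η := by nlinarith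
  have hs := ja3a_sub (σ + t * Complex.I) hp hle
  refine ⟨((h σ t h1 h2).1.mono hs).add ((h' σ t h1 h2).1.mono hs), fun s hs' => ?_⟩
  have a := (h σ t h1 h2).2 s (hs hs')
  have b := (h' σ t h1 h2).2 s (hs hs')
  have c := norm_add_le (F s) (G s)
  linarith

theorem Disc.mul {F G : ℂ → ℂ} {V η : ℝ} (h : Disc F V η) (h' : Disc G V η) (hV : 1 ≤ V)
    (hη : 0 ≤ η) : Disc (fun s => F s * G s) (V ^ 2) (2 * η) := by
  intro σ t h1 h2
  have hT : (0 : ℝ) < |t| + 2 := by have := ja3a_two_le t; linarith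
  have e : V ^ 2 * (|t| + 2) ^ (2 * η) = (V * (|t| + 2) ^ η) * (V * (|t| + 2) ^ η) := by
    rw [two_mul, Real.rpow_add hT]
    ring
  have h1' : 1 ≤ V * (|t| + 2) ^ η := one_le_mul_of_one_le_of_one_le hV (ja3a_one_le t hη)
  have hle : V * (|t| + 2) ^ η ≤ V ^ 2 * (|t| + 2) ^ (2 * η) := by
    rw [e]
    nlinarith
  have hs := ja3a_sub (σ + t * Complex.I) (by linarith) hle
  refine ⟨((h σ t h1 h2).1.mono hs).mul ((h' σ t h1 h2).1.mono hs), fun s hs' => ?_⟩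
  have a := (h σ t h1 h2).2 s (hs hs')
  have b := (h' σ t h1 h2).2 s (hs hs')
  rw [e, norm_mul]
  exact mul_le_mul a b (norm_nonneg _) (by linarith)

theorem disc_of_up {f : ℂ → ℂ} {R A η : ℝ} (hR : 0 < R) (hR1 : R ≤ 1) (hA : 1 ≤ A) (h0 : 0 ≤ η)
    (h1 : η ≤ 1) (hf : DifferentiableOn ℂ f {s | 1 - R < s.re})
    (hup : ∀ s : ℂ, 1 - R < s.re → s.re ≤ 4 → ‖f s‖ ≤ A * (|s.im| + 2) ^ η) :
    Disc f (2 * A / R) η := by
  intro σ t hσ1 hσ2
  have hP := ja3a_one_le t h0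
  have hrad : 1 / (2 * A / R * (|t| + 2) ^ η) ≤ R / 2 := by
    have h2 : 2 / R ≤ 2 * A / R * (|t| + 2) ^ η := by
      have a : 2 / R ≤ 2 * A / R := div_le_div_of_nonneg_right (by linarith) hR.le
      have b : 0 < 2 / R := by positivity
      nlinarith
    calc 1 / (2 * A / R * (|t| + 2) ^ η) ≤ 1 / (2 / R) :=
          one_div_le_one_div_of_le (by positivity) h2
      _ = R / 2 := by field_simp
  have hball : ∀ s ∈ Metric.ball ((σ : ℂ) + t * Complex.I) (1 / (2 * A / R * (|t| + 2) ^ η)),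
      1 - R < s.re ∧ s.re ≤ 4 ∧ |s.im| + 2 ≤ 2 * (|t| + 2) := by
    intro s hs
    rw [Metric.mem_ball, dist_eq_norm] at hs
    have hre := Complex.abs_re_le_norm (s - (σ + t * Complex.I))
    have him := Complex.abs_im_le_norm (s - (σ + t * Complex.I))
    have e1 : (s - ((σ : ℂ) + t * Complex.I)).re = s.re - σ := by simp
    have e2 : (s - ((σ : ℂ) + t * Complex.I)).im = s.im - t := by simp
    rw [e1] at hre
    rw [e2] at him
    have a := abs_le.1 (hre.trans (hs.le.trans hrad))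
    have b := him.trans (hs.le.trans hrad)
    have c : |s.im| ≤ |s.im - t| + |t| := by
      have := abs_add_le (s.im - t) t
      rwa [sub_add_cancel] at this
    have d := abs_nonneg t
    refine ⟨by linarith [a.1], by linarith [a.2], by linarith⟩
  refine ⟨hf.mono fun s hs => (hball s hs).1, fun s hs => ?_⟩
  obtain ⟨a, b, c⟩ := hball s hs
  have hT : (0 : ℝ) ≤ |t| + 2 := by have := ja3a_two_le t; linarith
  have d : (|s.im| + 2) ^ η ≤ 2 * (|t| + 2) ^ η := by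
    calc (|s.im| + 2) ^ η ≤ (2 * (|t| + 2)) ^ η :=
          Real.rpow_le_rpow (by have := ja3a_two_le s.im; linarith) c h0
      _ = (2 : ℝ) ^ η * (|t| + 2) ^ η := Real.mul_rpow (by norm_num) hT
      _ ≤ 2 * (|t| + 2) ^ η :=
          mul_le_mul_of_nonneg_right (Real.rpow_le_self_of_one_le (by norm_num) h1) (by linarith)
  have e : 2 * A ≤ 2 * A / R := by
    rw [le_div_iff₀ hR]
    nlinarith
  calc ‖f s‖ ≤ A * (|s.im| + 2) ^ η := hup s a b
    _ ≤ A * (2 * (|t| + 2) ^ η) := mul_le_mul_of_nonneg_left d (by linarith)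
    _ = 2 * A * (|t| + 2) ^ η := by ring
    _ ≤ 2 * A / R * (|t| + 2) ^ η := mul_le_mul_of_nonneg_right e (by linarith)

end

end Pool.Agent.Jac
end

-- part Pool.Agent.P.MP_45ff98_nt.JA3
section

/-! Logarithmic derivatives and inverses on small discs. -/

namespace Pool.Agent.Jac
open Finset MeasureTheory Complex

noncomputable section

theorem disc_lem {f : ℂ → ℂ} {s0 : ℂ} {R M m : ℝ} (hR : 0 < R) (hm : 0 < m)
    (hf : DifferentiableOn ℂ f (Metric.ball s0 R)) (hM : ∀ s ∈ Metric.ball s0 R, ‖f s‖ ≤ M)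
    (h0 : m ≤ ‖f s0‖) :
    ∀ s ∈ Metric.ball s0 (R * m / (8 * M)), m / 2 ≤ ‖f s‖ ∧ ‖deriv f s‖ ≤ 4 * M / R := by
  have hmM : m ≤ M := h0.trans (hM s0 (Metric.mem_ball_self hR))
  have hM0 : 0 < M := hm.trans_le hmM
  have hr : R * m / (8 * M) ≤ R / 2 := by
    rw [div_le_div_iff₀ (by positivity) (by positivity)]
    nlinarith [mul_le_mul_of_nonneg_left hmM hR.le, mul_pos hR hM0]
  have hr0 : 0 < R * m / (8 * M) := by positivity
  have hder : ∀ z ∈ Metric.ball s0 (R / 2), ‖deriv f z‖ ≤ 4 * M / R := by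
    intro z hz
    have hsub : Metric.closedBall z (R / 2) ⊆ Metric.ball s0 R := by
      intro w hw
      rw [Metric.mem_closedBall] at hw
      rw [Metric.mem_ball] at hz ⊢
      linarith [dist_triangle w z s0]
    have h1 := Complex.norm_deriv_le_of_forall_mem_sphere_norm_le (half_pos hR)
      (hf.diffContOnCl_ball hsub) (fun w hw => hM w (hsub (Metric.sphere_subset_closedBall hw)))
    refine h1.trans ?_
    rw [div_le_div_iff₀ (by positivity) hR]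
    nlinarith [mul_pos hR hM0]
  intro s hs
  have hsub2 : Metric.ball s0 (R * m / (8 * M)) ⊆ Metric.ball s0 (R / 2) :=
    Metric.ball_subset_ball hr
  refine ⟨?_, hder s (hsub2 hs)⟩
  have hdiff : ∀ x ∈ Metric.ball s0 (R * m / (8 * M)), DifferentiableAt ℂ f x := fun x hx =>
    hf.differentiableAt (Metric.isOpen_ball.mem_nhds
      (Metric.ball_subset_ball (by linarith) (hsub2 hx)))
  have h2 := (convex_ball s0 (R * m / (8 * M))).norm_image_sub_le_of_norm_deriv_le hdiff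
    (fun x hx => hder x (hsub2 hx)) (Metric.mem_ball_self hr0) hs
  have h3 : ‖s - s0‖ ≤ R * m / (8 * M) := by
    rw [Metric.mem_ball, dist_eq_norm] at hs
    exact hs.le
  have h4 : 4 * M / R * ‖s - s0‖ ≤ m / 2 := by
    refine (mul_le_mul_of_nonneg_left h3 (by positivity)).trans (le_of_eq ?_)
    field_simp
    ring
  have h5 : ‖f s0‖ ≤ ‖f s‖ + ‖f s - f s0‖ := by
    have := norm_sub_le (f s) (f s - f s0)
    rwa [sub_sub_cancel] at this
  linarith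

theorem ja3_two {η : ℝ} (h1 : η ≤ 1) : (2 : ℝ) ^ η ≤ 2 := by
  have := Real.rpow_le_rpow_of_exponent_le (by norm_num : (1 : ℝ) ≤ 2) h1
  rwa [Real.rpow_one] at this

theorem disc_of_low {f : ℂ → ℂ} {R A a η : ℝ} (hR : 0 < R) (hR1 : R ≤ 1) (hA : 1 ≤ A)
    (ha : 0 < a) (h0 : 0 ≤ η) (h1 : η ≤ 1) (hf : DifferentiableOn ℂ f {s | 1 - R < s.re})
    (hup : ∀ s : ℂ, 1 - R < s.re → s.re ≤ 4 → ‖f s‖ ≤ A * (|s.im| + 2) ^ η)
    (hlo : ∀ σ t : ℝ, 1 ≤ σ → σ ≤ 2 → a * (|t| + 2) ^ (-η) ≤ ‖f (σ + t * I)‖) :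
    1 ≤ 16 * A / (R * a) ∧ Disc (fun s => -deriv f s / f s) (16 * A / (R * a)) (2 * η) ∧
      Disc (fun s => (f s)⁻¹) (16 * A / (R * a)) (2 * η) := by
  have hA0 : 0 < A := by linarith
  have key : ∀ σ t : ℝ, 1 ≤ σ → σ ≤ 2 → ∃ P : ℝ, 1 ≤ P ∧ (|t| + 2) ^ (2 * η) = P ^ 2 ∧
      a / P ≤ 2 * A * P ∧
      DifferentiableOn ℂ f (Metric.ball (σ + t * I) (1 / (16 * A / (R * a) * P ^ 2))) ∧
      ∀ s ∈ Metric.ball ((σ : ℂ) + t * I) (1 / (16 * A / (R * a) * P ^ 2)),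
        a / P / 2 ≤ ‖f s‖ ∧ ‖deriv f s‖ ≤ 4 * (2 * A * P) / R := by
    intro σ t hσ1 hσ2
    have hT : (2 : ℝ) ≤ |t| + 2 := by linarith [abs_nonneg t]
    have hT0 : (0 : ℝ) < |t| + 2 := by linarith
    set P := (|t| + 2) ^ η with hPdef
    have hP : 1 ≤ P := Real.one_le_rpow (by linarith) h0
    have hP0 : 0 < P := by linarith
    have hin : ∀ s ∈ Metric.ball ((σ : ℂ) + t * I) R,
        1 - R < s.re ∧ s.re ≤ 4 ∧ |s.im| + 2 ≤ 2 * (|t| + 2) := by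
      intro s hs
      rw [Metric.mem_ball, dist_eq_norm] at hs
      have e1 := (abs_re_le_norm (s - (σ + t * I))).trans_lt hs
      have e2 := (abs_im_le_norm (s - (σ + t * I))).trans_lt hs
      simp only [sub_re, add_re, ofReal_re, mul_re, I_re, mul_zero, ofReal_im, I_im, mul_one,
        sub_self, add_zero, sub_im, add_im, mul_im, zero_add] at e1 e2
      have e3 := abs_lt.1 e1
      have e4 : |s.im| ≤ |s.im - t| + |t| := by
        have := abs_add_le (s.im - t) t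
        rwa [sub_add_cancel] at this
      refine ⟨by linarith [e3.1], by linarith [e3.2], by linarith [abs_nonneg t]⟩
    have hfb : DifferentiableOn ℂ f (Metric.ball ((σ : ℂ) + t * I) R) :=
      hf.mono fun s hs => (hin s hs).1
    have hM : ∀ s ∈ Metric.ball ((σ : ℂ) + t * I) R, ‖f s‖ ≤ 2 * A * P := by
      intro s hs
      obtain ⟨e1, e2, e3⟩ := hin s hs
      refine (hup s e1 e2).trans ?_
      have e4 : (|s.im| + 2) ^ η ≤ (2 * (|t| + 2)) ^ η :=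
        Real.rpow_le_rpow (by positivity) e3 h0
      rw [Real.mul_rpow (by norm_num) hT0.le] at e4
      have e5 : (2 : ℝ) ^ η * P ≤ 2 * P := mul_le_mul_of_nonneg_right (ja3_two h1) hP0.le
      nlinarith [mul_le_mul_of_nonneg_left (e4.trans e5) hA0.le]
    have hm : a / P ≤ ‖f (σ + t * I)‖ := by
      have := hlo σ t hσ1 hσ2
      rwa [Real.rpow_neg hT0.le, ← div_eq_mul_inv] at this
    have hle : a / P ≤ 2 * A * P := hm.trans (hM _ (Metric.mem_ball_self hR))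
    have hrad : R * (a / P) / (8 * (2 * A * P)) = 1 / (16 * A / (R * a) * P ^ 2) := by
      field_simp
      ring
    have hl := disc_lem hR (div_pos ha hP0) hfb hM hm
    rw [hrad] at hl
    refine ⟨P, hP, ?_, hle, hfb.mono (Metric.ball_subset_ball ?_), hl⟩
    · rw [hPdef, mul_comm 2 η, Real.rpow_mul hT0.le, Real.rpow_two]
    · rw [← hrad, div_le_iff₀ (by positivity)]
      nlinarith [mul_le_mul_of_nonneg_left hle hR.le, mul_pos hR (mul_pos hA0 hP0)]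
  refine ⟨?_, ?_, ?_⟩
  · have e1 := hlo 1 0 le_rfl (by norm_num)
    have e2 := hup ((1 : ℝ) + (0 : ℝ) * I) (by simp; linarith) (by simp)
    have e3 := e1.trans e2
    simp only [abs_zero, zero_add, ofReal_one, ofReal_zero, zero_mul, add_zero, one_im] at e3
    have e0 : (0 : ℝ) < (2 : ℝ) ^ η := by positivity
    rw [Real.rpow_neg (by norm_num), ← div_eq_mul_inv, div_le_iff₀ e0] at e3
    have e4 := ja3_two h1
    have e5 : (2 : ℝ) ^ η * 2 ^ η ≤ 4 := by nlinarith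
    have e6 : a ≤ 4 * A := by nlinarith [mul_le_mul_of_nonneg_left e5 hA0.le]
    rw [le_div_iff₀ (by positivity)]
    nlinarith [mul_le_mul_of_nonneg_right hR1 ha.le]
  · intro σ t hσ1 hσ2
    obtain ⟨P, hP, hP2, -, hd, hb⟩ := key σ t hσ1 hσ2
    have hP0 : 0 < P := by linarith
    rw [hP2]
    have hne : ∀ s ∈ Metric.ball ((σ : ℂ) + t * I) (1 / (16 * A / (R * a) * P ^ 2)), f s ≠ 0 := by
      intro s hs
      have : 0 < a / P / 2 := by positivity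
      exact norm_pos_iff.1 (this.trans_le (hb s hs).1)
    refine ⟨((hd.deriv Metric.isOpen_ball).neg).div hd hne, fun s hs => ?_⟩
    obtain ⟨e1, e2⟩ := hb s hs
    rw [norm_div, norm_neg]
    refine (div_le_div₀ (by positivity) e2 (by positivity) e1).trans (le_of_eq ?_)
    field_simp
    ring
  · intro σ t hσ1 hσ2
    obtain ⟨P, hP, hP2, -, hd, hb⟩ := key σ t hσ1 hσ2
    have hP0 : 0 < P := by linarith
    rw [hP2]
    have hne : ∀ s ∈ Metric.ball ((σ : ℂ) + t * I) (1 / (16 * A / (R * a) * P ^ 2)), f s ≠ 0 := by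
      intro s hs
      have : 0 < a / P / 2 := by positivity
      exact norm_pos_iff.1 (this.trans_le (hb s hs).1)
    refine ⟨hd.inv hne, fun s hs => ?_⟩
    obtain ⟨e1, -⟩ := hb s hs
    rw [norm_inv]
    refine (inv_anti₀ (by positivity) e1).trans ?_
    have e2 : (a / P / 2)⁻¹ = 2 * P / a := by field_simp
    have e3 : 16 * A / (R * a) * P ^ 2 = 16 * A * P ^ 2 / R / a := by field_simp
    rw [e2, e3]
    refine div_le_div_of_nonneg_right ?_ ha.le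
    rw [le_div_iff₀ hR]
    have e4 : P ≤ P ^ 2 := by nlinarith
    have e5 : P ^ 2 ≤ A * P ^ 2 := by nlinarith
    nlinarith [mul_le_mul_of_nonneg_left hR1 hP0.le]

end

end Pool.Agent.Jac
end

-- part Pool.Agent.P.MP_45ff98_nt.JA4a
section

/-! The kernel of the Riesz mean. -/

namespace Pool.Agent.Jac
open Finset MeasureTheory Complex

noncomputable section

theorem ja4a_ne {σ : ℝ} (hσ : 0 < σ) (t : ℝ) :
    ((σ : ℂ) + t * I) ≠ 0 ∧ ((σ : ℂ) + t * I + 1) ≠ 0 := by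
  constructor
  · intro h
    have := congrArg Complex.re h
    simp at this
    linarith
  · intro h
    have := congrArg Complex.re h
    simp at this
    linarith

theorem ja4a_mellin {s : ℂ} (hs : 0 < s.re) :
    HasMellin (fun v : ℝ => ((max (1 - v) 0 : ℝ) : ℂ)) s (1 / (s * (s + 1))) := by
  have h1 := hasMellin_one_Ioc hs
  have h2 := hasMellin_cpow_Ioc 1 (s := s) (by simp; linarith)
  have h3 := hasMellin_sub h1.1 h2.1
  rw [h1.2, h2.2] at h3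
  have hs0 : s ≠ 0 := by
    intro h; rw [h] at hs; simp at hs
  have hs1 : s + 1 ≠ 0 := by
    intro h
    have := congrArg Complex.re h
    simp at this
    linarith
  have e : 1 / s - 1 / (s + 1) = 1 / (s * (s + 1)) := by field_simp; ring
  rw [e] at h3
  have key : ∀ v ∈ Set.Ioi (0 : ℝ), (v : ℂ) ^ (s - 1) •
      (Set.indicator (Set.Ioc 0 1) (fun _ => 1 : ℝ → ℂ) v -
        Set.indicator (Set.Ioc 0 1) (fun t => (t : ℂ) ^ (1 : ℂ) : ℝ → ℂ) v) =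
      (v : ℂ) ^ (s - 1) • ((max (1 - v) 0 : ℝ) : ℂ) := by
    intro v hv
    congr 1
    by_cases h : v ≤ 1
    · have hm : v ∈ Set.Ioc (0 : ℝ) 1 := ⟨hv, h⟩
      rw [Set.indicator_of_mem hm, Set.indicator_of_mem hm, max_eq_left (by linarith), cpow_one]
      push_cast
      rfl
    · have hm : v ∉ Set.Ioc (0 : ℝ) 1 := fun g => h g.2
      rw [Set.indicator_of_notMem hm, Set.indicator_of_notMem hm,
        max_eq_right (by linarith [not_le.1 h])]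
      simp
  refine ⟨?_, ?_⟩
  · exact IntegrableOn.congr_fun h3.1 key measurableSet_Ioi
  · rw [← h3.2]
    exact (setIntegral_congr_fun measurableSet_Ioi key).symm

theorem ker_int {σ : ℝ} (hσ : 0 < σ) :
    Integrable fun t : ℝ => 1 / (((σ : ℂ) + t * I) * (σ + t * I + 1)) := by
  have hc : Continuous fun t : ℝ => 1 / (((σ : ℂ) + t * I) * (σ + t * I + 1)) := by
    refine Continuous.div continuous_const (by fun_prop) fun t => ?_
    exact mul_ne_zero (ja4a_ne hσ t).1 (ja4a_ne hσ t).2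
  have hm : 0 < min (σ ^ 2) 1 := lt_min (by positivity) one_pos
  refine (integrable_inv_one_add_sq.const_mul (min (σ ^ 2) 1)⁻¹).mono'
    hc.aestronglyMeasurable (Filter.Eventually.of_forall fun t => ?_)
  have h1 : ‖(σ : ℂ) + t * I‖ ^ 2 = σ ^ 2 + t ^ 2 := by
    rw [Complex.sq_norm, Complex.normSq_add_mul_I]
  have h2 : ‖(σ : ℂ) + t * I + 1‖ ^ 2 = (σ + 1) ^ 2 + t ^ 2 := by
    have : (σ : ℂ) + t * I + 1 = ((σ + 1 : ℝ) : ℂ) + t * I := by push_cast; ring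
    rw [this, Complex.sq_norm, Complex.normSq_add_mul_I]
  have h3 : ‖(σ : ℂ) + t * I‖ ≤ ‖(σ : ℂ) + t * I + 1‖ := by
    refine le_of_sq_le_sq ?_ (norm_nonneg _) |>.trans le_rfl
    rw [h1, h2]; nlinarith
  have h4 : min (σ ^ 2) 1 * (1 + t ^ 2) ≤ ‖(σ : ℂ) + t * I‖ * ‖(σ : ℂ) + t * I + 1‖ := by
    have a1 : min (σ ^ 2) 1 ≤ σ ^ 2 := min_le_left _ _
    have a2 : min (σ ^ 2) 1 ≤ 1 := min_le_right _ _
    have a3 : min (σ ^ 2) 1 * (1 + t ^ 2) ≤ σ ^ 2 + t ^ 2 := by nlinarith [sq_nonneg t]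
    have a4 := mul_le_mul_of_nonneg_left h3 (norm_nonneg ((σ : ℂ) + t * I))
    nlinarith
  rw [norm_div, norm_one, norm_mul, ← mul_inv, one_div]
  exact inv_anti₀ (by positivity) h4

theorem riesz_kernel {σ u : ℝ} (hσ : 0 < σ) (hu : 0 < u) :
    ((max (1 - u) 0 : ℝ) : ℂ) = 1 / (2 * Real.pi) *
      ∫ t : ℝ, (u : ℂ) ^ (-((σ : ℂ) + t * I)) * (1 / (((σ : ℂ) + t * I) * (σ + t * I + 1))) := by
  have hre : ∀ t : ℝ, 0 < ((σ : ℂ) + t * I).re := fun t => by simpa using hσ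
  have hm : ∀ t : ℝ, mellin (fun v : ℝ => ((max (1 - v) 0 : ℝ) : ℂ)) ((σ : ℂ) + t * I) =
      1 / (((σ : ℂ) + t * I) * (σ + t * I + 1)) := fun t => (ja4a_mellin (hre t)).2
  have hc : Continuous fun v : ℝ => ((max (1 - v) 0 : ℝ) : ℂ) := by fun_prop
  have h := mellinInv_mellin_eq σ (fun v : ℝ => ((max (1 - v) 0 : ℝ) : ℂ)) hu
    (ja4a_mellin (s := σ) (by simpa using hσ)).1
    (by
      unfold VerticalIntegrable
      simp only [hm]
      exact ker_int hσ) hc.continuousAt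
  rw [← h, mellinInv]
  simp only [hm, smul_eq_mul, Complex.real_smul]
  push_cast
  rfl

end

end Pool.Agent.Jac
end

-- part Pool.Agent.P.MP_45ff98_nt.JA4
section

/-! The Riesz mean as an integral. -/

namespace Pool.Agent.Jac
open Finset MeasureTheory Complex

noncomputable section

theorem ja4_term (a : ℕ → ℂ) {x : ℝ} (hx : 0 < x) (s : ℂ) {n : ℕ} (hn : n ≠ 0) :
    (x : ℂ) ^ s * LSeries.term a s n = a n * (((n : ℝ) / x : ℝ) : ℂ) ^ (-s) := by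
  rw [LSeries.term_of_ne_zero hn, ofReal_div, div_cpow_ofReal_nonneg (Nat.cast_nonneg n) hx.le,
    cpow_neg, cpow_neg, ofReal_natCast, inv_div_inv]
  ring

theorem ja4_norm (a : ℕ → ℂ) (σ t : ℝ) {x : ℝ} (hx : 0 < x) (n : ℕ) :
    ‖(x : ℂ) ^ ((σ : ℂ) + t * I) * LSeries.term a (σ + t * I) n‖ =
      x ^ σ * ‖LSeries.term a σ n‖ := by
  rw [norm_mul, norm_cpow_eq_rpow_re_of_pos hx, LSeries.norm_term_eq, LSeries.norm_term_eq]
  simp

theorem ja4_cont (a : ℕ → ℂ) (σ : ℝ) {x : ℝ} (hx : 0 < x) (n : ℕ) :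
    Continuous fun t : ℝ => (x : ℂ) ^ ((σ : ℂ) + t * I) * LSeries.term a (σ + t * I) n := by
  rcases eq_or_ne n 0 with rfl | hn
  · simp only [LSeries.term_zero, mul_zero]
    exact continuous_const
  · simp only [ja4_term a hx _ hn]
    have h : (((n : ℝ) / x : ℝ) : ℂ) ≠ 0 :=
      ofReal_ne_zero.2 (div_pos (Nat.cast_pos.2 (Nat.pos_of_ne_zero hn)) hx).ne'
    exact continuous_const.mul (Continuous.const_cpow (by fun_prop) (Or.inl h))

theorem riesz {a : ℕ → ℂ} {σ x : ℝ} (hσ : 0 < σ) (hx : 0 < x) (ha : LSeriesSummable a σ) :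
    ∑ n ∈ Icc 1 ⌊x⌋₊, a n * (1 - (n : ℂ) / x) = 1 / (2 * Real.pi) *
      ∫ t : ℝ, (x : ℂ) ^ ((σ : ℂ) + t * I) *
        (LSeries a (σ + t * I) / (((σ : ℂ) + t * I) * (σ + t * I + 1))) := by
  have hK := ker_int hσ
  have h1 := hasSum_integral_of_summable_integral_norm (μ := volume)
    (F := fun (n : ℕ) (t : ℝ) => (x : ℂ) ^ ((σ : ℂ) + t * I) * LSeries.term a (σ + t * I) n *
      (1 / (((σ : ℂ) + t * I) * (σ + t * I + 1))))
    (fun n => hK.bdd_mul (ja4_cont a σ hx n).aestronglyMeasurable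
      (Filter.Eventually.of_forall fun t => (ja4_norm a σ t hx n).le)) (by
      simp only [norm_mul _ (1 / _ : ℂ), ja4_norm a σ _ hx, integral_const_mul]
      exact (ha.norm.mul_left _).mul_right _)
  have h2 := h1.mul_left (1 / (2 * Real.pi) : ℂ)
  have h3 : ∀ n : ℕ, (1 / (2 * Real.pi) : ℂ) * ∫ t : ℝ, (x : ℂ) ^ ((σ : ℂ) + t * I) *
      LSeries.term a (σ + t * I) n * (1 / (((σ : ℂ) + t * I) * (σ + t * I + 1))) =
      if n ∈ Icc 1 ⌊x⌋₊ then a n * (1 - (n : ℂ) / x) else 0 := by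
    intro n
    rcases eq_or_ne n 0 with rfl | hn
    · simp
    · have hp : 0 < (n : ℝ) / x := div_pos (Nat.cast_pos.2 (Nat.pos_of_ne_zero hn)) hx
      simp only [ja4_term a hx _ hn, mul_assoc (a n), integral_const_mul]
      rw [mul_left_comm, ← riesz_kernel hσ hp]
      split_ifs with h
      · have h4 : (n : ℝ) ≤ x := (Nat.le_floor_iff hx.le).1 (mem_Icc.1 h).2
        rw [max_eq_left (sub_nonneg.2 ((div_le_one hx).2 h4))]
        push_cast
        rfl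
      · have h4 : x ≤ n := by
          by_contra h5
          exact h (mem_Icc.2 ⟨Nat.pos_of_ne_zero hn,
            (Nat.le_floor_iff hx.le).2 (not_le.1 h5).le⟩)
        rw [max_eq_right (sub_nonpos.2 ((one_le_div hx).2 h4)), ofReal_zero, mul_zero]
  simp only [h3] at h2
  have h4 : HasSum (fun n : ℕ => if n ∈ Icc 1 ⌊x⌋₊ then a n * (1 - (n : ℂ) / x) else 0)
      (∑ n ∈ Icc 1 ⌊x⌋₊, if n ∈ Icc 1 ⌊x⌋₊ then a n * (1 - (n : ℂ) / x) else 0) :=
    hasSum_sum_of_ne_finset_zero fun n hn => if_neg hn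
  rw [sum_congr rfl fun n hn => if_pos hn] at h4
  rw [h4.unique h2]
  congr 2
  funext t
  rw [tsum_mul_right, tsum_mul_left, LSeries]
  ring

end

end Pool.Agent.Jac
end

-- part Pool.Agent.P.MP_45ff98_nt.JA5a
section

/-! Repeated integration by parts on a vertical line. -/

namespace Pool.Agent.Jac
open Finset MeasureTheory Complex

noncomputable section

theorem ja5a_norm (l t : ℝ) : ‖Complex.exp (l * t * I)‖ = 1 := by
  rw [← Complex.ofReal_mul, Complex.norm_exp_ofReal_mul_I]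

theorem ja5a_deriv (l t : ℝ) : HasDerivAt (fun t : ℝ => Complex.exp (l * t * I))
    (l * I * Complex.exp (l * t * I)) t := by
  have h1 : HasDerivAt (fun z : ℂ => Complex.exp (l * z * I))
      (Complex.exp (l * t * I) * (l * 1 * I)) (t : ℂ) :=
    (((hasDerivAt_id (t : ℂ)).const_mul (l : ℂ)).mul_const I).cexp
  have h2 := h1.comp_ofReal
  rw [mul_one, mul_comm] at h2
  exact h2

theorem ja5a_int (l : ℝ) {g : ℝ → ℂ} (hg : Integrable g) :
    Integrable fun t : ℝ => Complex.exp (l * t * I) * g t := by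
  refine hg.bdd_mul (c := 1) ?_ (Filter.Eventually.of_forall fun t => (ja5a_norm l t).le)
  exact (by fun_prop : Continuous fun t : ℝ => Complex.exp (l * t * I)).aestronglyMeasurable

theorem ja5a_step (l : ℝ) {g g' : ℝ → ℂ} (hd : ∀ t, HasDerivAt g (g' t) t) (hg : Integrable g)
    (hg' : Integrable g') : ∫ t : ℝ, Complex.exp (l * t * I) * g' t =
      -(l * I * ∫ t : ℝ, Complex.exp (l * t * I) * g t) := by
  have h0 : (fun t : ℝ => l * I * Complex.exp (l * t * I) * g t) =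
      fun t : ℝ => l * I * (Complex.exp (l * t * I) * g t) := by
    funext t
    ring
  have h := integral_mul_deriv_eq_deriv_mul_of_integrable
    (u := fun t : ℝ => Complex.exp (l * t * I)) (v := g)
    (u' := fun t : ℝ => l * I * Complex.exp (l * t * I)) (v' := g')
    (fun t _ => ja5a_deriv l t) (fun t _ => hd t) (ja5a_int l hg')
    (by
      change Integrable fun t : ℝ => l * I * Complex.exp (l * t * I) * g t
      rw [h0]
      exact (ja5a_int l hg).const_mul _)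
    (ja5a_int l hg)
  rw [h, h0, integral_const_mul]

theorem parts {G : ℕ → ℝ → ℂ} {K : ℕ} (hd : ∀ n < K, ∀ t, HasDerivAt (G n) (G (n + 1) t) t)
    (hi : ∀ n ≤ K, Integrable (G n)) {l : ℝ} (hl : 0 < l) :
    ‖∫ t : ℝ, Complex.exp (l * t * I) * G 0 t‖ ≤ (∫ t, ‖G K t‖) / l ^ K := by
  have key : ∀ n ≤ K, l ^ n * ‖∫ t : ℝ, Complex.exp (l * t * I) * G 0 t‖ =
      ‖∫ t : ℝ, Complex.exp (l * t * I) * G n t‖ := by
    intro n
    induction n with
    | zero => intro _; rw [pow_zero, one_mul]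
    | succ n ih =>
      intro hn
      rw [ja5a_step l (hd n (by omega)) (hi n (by omega)) (hi (n + 1) hn), norm_neg, norm_mul,
        norm_mul, Complex.norm_I, mul_one, Complex.norm_real, Real.norm_of_nonneg hl.le,
        ← ih (by omega)]
      ring
  rw [le_div_iff₀ (pow_pos hl K), mul_comm, key K le_rfl]
  refine (norm_integral_le_integral_norm _).trans (le_of_eq ?_)
  refine integral_congr_ae (Filter.Eventually.of_forall fun t => ?_)
  simp only [norm_mul, ja5a_norm, one_mul]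

theorem line_deriv {H : ℂ → ℂ} {σ : ℝ} (hH : ∀ t : ℝ, AnalyticAt ℂ H (σ + t * I)) (n : ℕ)
    (t : ℝ) : HasDerivAt (fun u : ℝ => I ^ n * iteratedDeriv n H (σ + u * I))
      (I ^ (n + 1) * iteratedDeriv (n + 1) H (σ + t * I)) t := by
  have h1 : AnalyticAt ℂ (iteratedDeriv n H) (σ + t * I) := by
    rw [iteratedDeriv_eq_iterate]
    exact (hH t).iterated_deriv n
  have h2 : HasDerivAt (iteratedDeriv n H) (iteratedDeriv (n + 1) H (σ + t * I)) (σ + t * I) := by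
    rw [iteratedDeriv_succ]
    exact h1.differentiableAt.hasDerivAt
  have h3 : HasDerivAt (fun z : ℂ => (σ : ℂ) + z * I) (1 * I) (t : ℂ) :=
    ((hasDerivAt_id (t : ℂ)).mul_const I).const_add (σ : ℂ)
  have h4 := ((HasDerivAt.comp (t : ℂ) h2 h3).const_mul (I ^ n)).comp_ofReal
  have e : I ^ (n + 1) * iteratedDeriv (n + 1) H (σ + t * I) =
      I ^ n * (iteratedDeriv (n + 1) H (σ + t * I) * (1 * I)) := by ring
  rw [e]
  exact h4

end

end Pool.Agent.Jac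
end

-- part Pool.Agent.P.MP_45ff98_nt.JA5b
section

/-! Cauchy estimates on the small discs. -/

namespace Pool.Agent.Jac
open Finset MeasureTheory Complex

noncomputable section

theorem ja5b_low {w : ℂ} {t : ℝ} (h1 : 1 / 2 ≤ w.re) (h2 : |t| - 1 / 2 ≤ |w.im|) :
    (|t| + 2) / 6 ≤ ‖w‖ := by
  have a1 : w.re ≤ ‖w‖ := Complex.re_le_norm w
  have a2 : |w.im| ≤ ‖w‖ := Complex.abs_im_le_norm w
  rcases le_total |t| 1 with h | h <;> linarith

theorem ja5b_near {σ t r : ℝ} {z : ℂ} (hz : ‖z - (σ + t * I)‖ ≤ r) :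
    σ - r ≤ z.re ∧ |t| - r ≤ |z.im| := by
  have a1 := (Complex.abs_re_le_norm (z - (σ + t * I))).trans hz
  have a2 := (Complex.abs_im_le_norm (z - (σ + t * I))).trans hz
  simp only [Complex.sub_re, Complex.add_re, Complex.ofReal_re, Complex.mul_re, Complex.I_re,
    mul_zero, Complex.ofReal_im, Complex.I_im, mul_one, sub_self, add_zero, Complex.sub_im,
    Complex.add_im, Complex.mul_im, zero_add] at a1 a2
  refine ⟨by linarith [(abs_le.1 a1).1], ?_⟩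
  have := abs_sub_abs_le_abs_sub t z.im
  rw [abs_sub_comm] at this
  linarith

theorem disc_cauchy {F : ℂ → ℂ} {V η : ℝ} (h : Disc F V η) (hV : 1 ≤ V) (h0 : 0 ≤ η) {σ : ℝ}
    (h1 : 1 ≤ σ) (h2 : σ ≤ 2) (t : ℝ) :
    AnalyticAt ℂ (fun s => F s / (s * (s + 1))) (σ + t * I) ∧
      ∀ n : ℕ, ‖iteratedDeriv n (fun s => F s / (s * (s + 1))) (σ + t * I)‖ ≤
        36 * n.factorial * 2 ^ n * V ^ (n + 1) * (|t| + 2) ^ (η * (n + 1) - 2) := by
  obtain ⟨hd, hb⟩ := h σ t h1 h2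
  have hT : (2 : ℝ) ≤ |t| + 2 := by linarith [abs_nonneg t]
  have hT0 : (0 : ℝ) < |t| + 2 := by linarith
  have hP : 1 ≤ (|t| + 2) ^ η := Real.one_le_rpow (by linarith) h0
  set W := V * (|t| + 2) ^ η with hW
  have hW1 : 1 ≤ W := one_le_mul_of_one_le_of_one_le hV hP
  have hW0 : 0 < W := by linarith
  have hr1 : 1 / W ≤ 1 := by rw [div_le_one hW0]; exact hW1
  have hq : DifferentiableOn ℂ (fun s => F s / (s * (s + 1)))
      (Metric.ball (σ + t * I : ℂ) (1 / W)) := by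
    refine hd.div (by fun_prop) fun z hz => ?_
    have hz' : ‖z - (σ + t * I)‖ < 1 / W := by simpa [dist_eq_norm] using hz
    have a1 := (Complex.abs_re_le_norm (z - (σ + t * I))).trans_lt hz'
    simp only [Complex.sub_re, Complex.add_re, Complex.ofReal_re, Complex.mul_re, Complex.I_re,
      mul_zero, Complex.ofReal_im, Complex.I_im, mul_one, sub_self, add_zero] at a1
    have hre : 0 < z.re := by linarith [(abs_lt.1 a1).1]
    refine mul_ne_zero (fun e => ?_) fun e => ?_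
    · rw [e] at hre; simp at hre
    · have := congrArg Complex.re e
      simp only [Complex.add_re, Complex.one_re, Complex.zero_re] at this
      linarith
  have hr0 : 0 < 1 / (2 * W) := by positivity
  have hrr : 1 / (2 * W) < 1 / W := one_div_lt_one_div_of_lt hW0 (by linarith)
  have hr2 : 1 / (2 * W) ≤ 1 / 2 := one_div_le_one_div_of_le two_pos (by linarith)
  refine ⟨hq.analyticAt (Metric.ball_mem_nhds _ (by positivity)), fun n => ?_⟩
  have hc := Complex.norm_iteratedDeriv_le_of_forall_mem_sphere_norm_le (C := 36 * W / (|t| + 2) ^ 2)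
    n hr0 (hq.diffContOnCl_ball (Metric.closedBall_subset_ball hrr)) (fun z hz => by
      have hz' : ‖z - (σ + t * I)‖ = 1 / (2 * W) := by simpa [dist_eq_norm] using hz
      obtain ⟨b1, b2⟩ := ja5b_near (hz'.le.trans hr2)
      have c1 : (|t| + 2) / 6 ≤ ‖z‖ := ja5b_low (by linarith) b2
      have c2 : (|t| + 2) / 6 ≤ ‖z + 1‖ := ja5b_low (by
        simp only [Complex.add_re, Complex.one_re]; linarith) (by simpa using b2)
      have c3 : ‖F z‖ ≤ W := hb z (by rw [Metric.mem_ball, dist_eq_norm, hz']; exact hrr)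
      rw [norm_div, norm_mul]
      have c4 : (|t| + 2) ^ 2 / 36 ≤ ‖z‖ * ‖z + 1‖ := by
        have := mul_le_mul c1 c2 (by positivity) (norm_nonneg _)
        linarith
      calc ‖F z‖ / (‖z‖ * ‖z + 1‖) ≤ W / ((|t| + 2) ^ 2 / 36) :=
            div_le_div₀ hW0.le c3 (by positivity) c4
        _ = 36 * W / (|t| + 2) ^ 2 := by field_simp)
  refine hc.trans (le_of_eq ?_)
  have e1 : (|t| + 2) ^ (η * (n + 1) - 2) = ((|t| + 2) ^ η) ^ (n + 1) / (|t| + 2) ^ 2 := by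
    rw [Real.rpow_sub hT0, ← Real.rpow_natCast, ← Real.rpow_mul hT0.le, ← Real.rpow_natCast _ 2]
    push_cast
    rfl
  rw [e1, hW]
  have hV0 : 0 < V := by linarith
  have hP0 : 0 < (|t| + 2) ^ η := by linarith
  rw [one_div, inv_pow, mul_pow, mul_pow]
  field_simp
  ring

end

end Pool.Agent.Jac
end

-- part Pool.Agent.P.MP_45ff98_nt.JA5
section

/-! The oscillatory integral. -/

namespace Pool.Agent.Jac
open Finset MeasureTheory Complex

noncomputable section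

lemma ja5_int : Integrable (fun t : ℝ => (1 + ‖t‖) ^ (-(3 / 2 : ℝ))) :=
  integrable_one_add_norm (by rw [Module.finrank_self]; norm_num)

lemma ja5_pow {η : ℝ} (h0 : 0 ≤ η) {n K : ℕ} (hn : n ≤ K) (hη : η * (K + 1) ≤ 1 / 2) (t : ℝ) :
    (|t| + 2) ^ (η * (n + 1) - 2) ≤ (1 + ‖t‖) ^ (-(3 / 2 : ℝ)) := by
  have ht := abs_nonneg t
  have hn' : (n : ℝ) ≤ K := by exact_mod_cast hn
  have h1 : η * (n + 1) ≤ η * (K + 1) := mul_le_mul_of_nonneg_left (by linarith) h0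
  calc (|t| + 2) ^ (η * (n + 1) - 2) ≤ (|t| + 2) ^ (-(3 / 2 : ℝ)) :=
        Real.rpow_le_rpow_of_exponent_le (by linarith) (by linarith)
    _ ≤ (1 + ‖t‖) ^ (-(3 / 2 : ℝ)) := by
        rw [Real.norm_eq_abs]
        exact Real.rpow_le_rpow_of_nonpos (by linarith) (by linarith) (by norm_num)

lemma ja5_cpow {x : ℝ} (hx : 0 < x) (σ t : ℝ) : (x : ℂ) ^ ((σ : ℂ) + t * I) =
    ((x ^ σ : ℝ) : ℂ) * Complex.exp ((Real.log x : ℝ) * t * I) := by
  have h0 : (x : ℂ) ≠ 0 := ofReal_ne_zero.2 hx.ne'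
  rw [cpow_add _ _ h0, ofReal_cpow hx.le, cpow_def_of_ne_zero h0 (t * I), ← ofReal_log hx.le,
    mul_assoc]

theorem osc (K : ℕ) : ∃ C : ℝ, 0 < C ∧ ∀ (F : ℂ → ℂ) (V η σ x : ℝ), Disc F V η → 1 ≤ V → 0 ≤ η →
    η * (K + 1) ≤ 1 / 2 → 1 ≤ σ → σ ≤ 2 → 1 < x →
      ‖∫ t : ℝ, (x : ℂ) ^ ((σ : ℂ) + t * I) *
        (F (σ + t * I) / (((σ : ℂ) + t * I) * (σ + t * I + 1)))‖ ≤
          C * V ^ (K + 1) * x ^ σ / Real.log x ^ K := by
  have hJ : 0 ≤ ∫ t : ℝ, (1 + ‖t‖) ^ (-(3 / 2 : ℝ)) :=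
    integral_nonneg fun t => Real.rpow_nonneg (by positivity) _
  refine ⟨36 * K.factorial * 2 ^ K * ((∫ t : ℝ, (1 + ‖t‖) ^ (-(3 / 2 : ℝ))) + 1), by positivity,
    fun F V η σ x hF hV h0 hη h1 h2 hx => ?_⟩
  have hx0 : 0 < x := by linarith
  have hL : 0 < Real.log x := Real.log_pos hx
  have hxs : 0 < x ^ σ := Real.rpow_pos_of_pos hx0 _
  have hc := fun t => disc_cauchy hF hV h0 h1 h2 t
  obtain ⟨G, hG⟩ : ∃ G : ℕ → ℝ → ℂ, ∀ n, G n = fun u : ℝ =>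
      I ^ n * iteratedDeriv n (fun s => F s / (s * (s + 1))) (σ + u * I) := ⟨_, fun _ => rfl⟩
  have hd : ∀ n t, HasDerivAt (G n) (G (n + 1) t) t := fun n t => by
    rw [hG, hG]
    exact line_deriv (fun t => (hc t).1) n t
  have hb : ∀ n ≤ K, ∀ t, ‖G n t‖ ≤
      36 * n.factorial * 2 ^ n * V ^ (n + 1) * (1 + ‖t‖) ^ (-(3 / 2 : ℝ)) := fun n hn t => by
    rw [hG]
    simp only [norm_mul, norm_pow, norm_I, one_pow, one_mul]
    exact ((hc t).2 n).trans (mul_le_mul_of_nonneg_left (ja5_pow h0 hn hη t) (by positivity))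
  have hi : ∀ n ≤ K, Integrable (G n) := fun n hn =>
    (ja5_int.const_mul _).mono'
      (continuous_iff_continuousAt.2 fun t => (hd n t).continuousAt).aestronglyMeasurable
      (Filter.Eventually.of_forall (hb n hn))
  have key := parts (G := G) (K := K) (fun n _ t => hd n t) hi hL
  have hK : ∫ t, ‖G K t‖ ≤ 36 * K.factorial * 2 ^ K * V ^ (K + 1) *
      ∫ t : ℝ, (1 + ‖t‖) ^ (-(3 / 2 : ℝ)) := by
    rw [← integral_const_mul]
    exact integral_mono (hi K le_rfl).norm (ja5_int.const_mul _) (hb K le_rfl)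
  have e : ∀ t : ℝ, (x : ℂ) ^ ((σ : ℂ) + t * I) *
      (F (σ + t * I) / (((σ : ℂ) + t * I) * (σ + t * I + 1))) =
      ((x ^ σ : ℝ) : ℂ) * (Complex.exp ((Real.log x : ℝ) * t * I) * G 0 t) := fun t => by
    rw [ja5_cpow hx0, hG, mul_assoc]
    simp only [pow_zero, one_mul, iteratedDeriv_zero]
  simp only [e]
  rw [integral_const_mul, norm_mul, norm_real, Real.norm_of_nonneg hxs.le]
  refine (mul_le_mul_of_nonneg_left key hxs.le).trans ?_
  rw [← mul_div_assoc, mul_comm (x ^ σ)]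
  refine div_le_div_of_nonneg_right (mul_le_mul_of_nonneg_right (hK.trans ?_) hxs.le)
    (by positivity)
  have : (0 : ℝ) ≤ 36 * K.factorial * 2 ^ K * V ^ (K + 1) := by positivity
  nlinarith

end

end Pool.Agent.Jac
end

-- part Pool.Agent.P.MP_45ff98_nt.JA6a
section

/-! The bound for the Riesz mean. -/

namespace Pool.Agent.Jac
open Finset MeasureTheory Complex

noncomputable section

theorem ja6a_summable {a : ℕ → ℂ} (ha : ∀ n : ℕ, ‖a n‖ ≤ 2 + Real.log n) {σ : ℝ} (h1 : 1 < σ) :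
    LSeriesSummable a σ := by
  obtain ⟨e, he⟩ : ∃ e : ℝ, e = (σ - 1) / 2 := ⟨_, rfl⟩
  have h0 : 0 < e := by linarith
  refine LSeriesSummable_of_le_const_mul_rpow (x := 1 + e) (by rw [ofReal_re]; linarith)
    ⟨2 + 1 / e, fun n hn => (ha n).trans ?_⟩
  have hn1 : (1 : ℝ) ≤ n := by exact_mod_cast Nat.one_le_iff_ne_zero.2 hn
  have h2 := Real.one_le_rpow hn1 h0.le
  have h3 := Real.log_le_rpow_div (Nat.cast_nonneg n) h0
  rw [add_sub_cancel_left, add_mul, one_div, ← div_eq_inv_mul]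
  linarith

theorem riesz_le (K : ℕ) : ∃ C : ℝ, 0 < C ∧ ∀ (a : ℕ → ℂ) (F : ℂ → ℂ) (V η : ℝ),
    (∀ n : ℕ, ‖a n‖ ≤ 2 + Real.log n) → (∀ s : ℂ, 1 < s.re → LSeries a s = F s) → Disc F V η →
    1 ≤ V → 0 ≤ η → η * (K + 1) ≤ 1 / 2 → ∀ x : ℝ, 3 ≤ x →
      ‖∑ n ∈ Icc 1 ⌊x⌋₊, a n * ((x : ℂ) - n)‖ ≤ C * V ^ (K + 1) * x ^ 2 / Real.log x ^ K := by
  obtain ⟨C, hC, h⟩ := osc K
  refine ⟨3 * C, by positivity, fun a F V η ha hF hD hV h0 hη x hx => ?_⟩
  have hx0 : 0 < x := by linarith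
  have hL : 1 ≤ Real.log x := by
    rw [Real.le_log_iff_exp_le hx0]
    exact Real.exp_one_lt_three.le.trans hx
  have hL0 : 0 < Real.log x := by linarith
  have hi : 0 < 1 / Real.log x := by positivity
  have hi1 : 1 / Real.log x ≤ 1 := (div_le_one hL0).2 hL
  obtain ⟨σ, hσ⟩ : ∃ σ : ℝ, σ = 1 + 1 / Real.log x := ⟨_, rfl⟩
  have h1 : 1 < σ := by linarith
  have hxσ : x ^ σ ≤ 3 * x := by
    rw [hσ, Real.rpow_add hx0, Real.rpow_one, Real.rpow_def_of_pos hx0, mul_one_div_cancel hL0.ne',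
      mul_comm]
    exact mul_le_mul_of_nonneg_right Real.exp_one_lt_three.le hx0.le
  have hs : LSeriesSummable a σ := ja6a_summable ha h1
  have e1 : ∑ n ∈ Icc 1 ⌊x⌋₊, a n * ((x : ℂ) - n) =
      x * ∑ n ∈ Icc 1 ⌊x⌋₊, a n * (1 - (n : ℂ) / x) := by
    rw [mul_sum]
    refine sum_congr rfl fun n _ => ?_
    have : (x : ℂ) ≠ 0 := ofReal_ne_zero.2 hx0.ne'
    field_simp
  have e2 : ∀ t : ℝ, LSeries a (σ + t * I) = F (σ + t * I) := fun t => hF _ (by simpa using h1)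
  have h2 := h F V η σ x hD hV h0 hη h1.le (by linarith) (by linarith)
  have h3 : ‖(1 / (2 * Real.pi) : ℂ)‖ ≤ 1 := by
    rw [norm_div, norm_one, norm_mul, Complex.norm_real, Real.norm_of_nonneg Real.pi_pos.le,
      Complex.norm_two]
    exact (div_le_one (by positivity)).2 (by linarith [Real.two_le_pi])
  rw [e1, riesz (by linarith) hx0 hs, norm_mul, norm_mul, Complex.norm_real,
    Real.norm_of_nonneg hx0.le]
  simp only [e2]
  calc _ ≤ x * (1 * (C * V ^ (K + 1) * (3 * x) / Real.log x ^ K)) := by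
        refine mul_le_mul_of_nonneg_left (mul_le_mul h3 (h2.trans ?_) (norm_nonneg _) one_pos.le)
          hx0.le
        have : 0 ≤ V := by linarith
        gcongr
    _ = _ := by ring

end

end Pool.Agent.Jac
end
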