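import Pool.Agent.P.MP_45ff98_nt.JA0
import Pool.Agent.K.MP_45ff98_nt.C1
import Pool.Agent.P.MP_45ff98_nt.JA2z
import Pool.Agent.P.MP_45ff98_nt.JDefs
import Pool.Agent.Lib.Sieve.Mertens
import Pool.Agent.P.MP_45ff98_nt.JA1z

-- part Pool.Agent.P.MP_45ff98_nt.JA6
section

/-! Removal of the smoothing. -/

namespace Pool.Agent.Jac
open Finset MeasureTheory Complex

noncomputable section

theorem unsm_core {a : ℕ → ℂ} (ha : ∀ n : ℕ, ‖a n‖ ≤ 2 + Real.log n) {x h : ℝ} (hx : 1 ≤ x)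
    (h0 : 0 < h) (h1 : h ≤ x) :
    ‖∑ n ∈ Icc 1 ⌊x⌋₊, a n‖ ≤ (‖∑ n ∈ Icc 1 ⌊x + h⌋₊, a n * (((x + h : ℝ) : ℂ) - n)‖ +
      ‖∑ n ∈ Icc 1 ⌊x⌋₊, a n * ((x : ℂ) - n)‖) / h + (h + 1) * (3 + Real.log x) := by
  have hI : ∀ m : ℕ, Icc 1 m = Ioc 0 m := fun m => rfl
  have hm : ⌊x⌋₊ ≤ ⌊x + h⌋₊ := Nat.floor_mono (by linarith)
  have hL : 0 ≤ Real.log x := Real.log_nonneg hx
  have hB : ‖∑ n ∈ Ioc ⌊x⌋₊ ⌊x + h⌋₊, a n * (((x + h : ℝ) : ℂ) - n)‖ ≤
      (h + 1) * ((3 + Real.log x) * h) := by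
    refine (norm_sum_le_of_le _ (n := fun _ => (3 + Real.log x) * h) fun n hn => ?_).trans ?_
    · obtain ⟨h2, h3⟩ := mem_Ioc.1 hn
      have h4 : x < n := Nat.lt_of_floor_lt h2
      have h5 : (n : ℝ) ≤ x + h := (Nat.le_floor_iff (by linarith)).1 h3
      have h6 : Real.log n ≤ 1 + Real.log x := by
        have h7 : Real.log n ≤ Real.log (2 * x) := Real.log_le_log (by linarith) (by linarith)
        rw [Real.log_mul two_ne_zero (by linarith)] at h7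
        linarith [Real.log_two_lt_d9]
      have h8 : ‖((x + h : ℝ) : ℂ) - n‖ ≤ h := by
        rw [← ofReal_natCast, ← ofReal_sub, norm_real, Real.norm_of_nonneg (by linarith)]
        linarith
      rw [norm_mul]
      exact mul_le_mul (by linarith [ha n]) h8 (norm_nonneg _) (by linarith)
    · rw [sum_const, Nat.card_Ioc, nsmul_eq_mul, Nat.cast_sub hm]
      refine mul_le_mul_of_nonneg_right ?_ (by positivity)
      linarith [Nat.floor_le (show 0 ≤ x + h by linarith), Nat.lt_floor_add_one x]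
  have e : (h : ℂ) * ∑ n ∈ Icc 1 ⌊x⌋₊, a n =
      ∑ n ∈ Icc 1 ⌊x + h⌋₊, a n * (((x + h : ℝ) : ℂ) - n) -
        ∑ n ∈ Icc 1 ⌊x⌋₊, a n * ((x : ℂ) - n) -
        ∑ n ∈ Ioc ⌊x⌋₊ ⌊x + h⌋₊, a n * (((x + h : ℝ) : ℂ) - n) := by
    rw [hI, hI, ← sum_Ioc_consecutive _ (Nat.zero_le _) hm, add_sub_right_comm,
      add_sub_cancel_right, ← sum_sub_distrib, mul_sum]
    refine sum_congr rfl fun n _ => ?_
    push_cast
    ring
  have h2 := congrArg norm e
  rw [norm_mul, norm_real, Real.norm_of_nonneg h0.le] at h2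
  have h3 := (h2.trans_le (norm_sub_le _ _)).trans (add_le_add (norm_sub_le _ _) hB)
  rw [div_add' _ _ _ h0.ne', le_div_iff₀ h0]
  linarith

theorem unsmooth (k : ℕ) : ∃ C : ℝ, 0 < C ∧ ∀ (a : ℕ → ℂ) (F : ℂ → ℂ) (V η : ℝ),
    (∀ n : ℕ, ‖a n‖ ≤ 2 + Real.log n) → (∀ s : ℂ, 1 < s.re → LSeries a s = F s) → Disc F V η →
    1 ≤ V → 0 ≤ η → η * (4 * k + 4) ≤ 1 → ∀ x : ℝ, 2 ≤ x →
      ‖∑ n ∈ Icc 1 ⌊x⌋₊, a n‖ ≤ C * V ^ (2 * k + 2) * x / Real.log x ^ k := by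
  obtain ⟨C₀, hC₀, h₀⟩ := riesz_le (2 * k + 1)
  obtain ⟨C₁, hC₁, h₁⟩ := log_pow_le (k + 1)
  refine ⟨5 * C₀ + 4 + 4 * C₁ + 5 * 2 ^ k, by positivity, fun a F V η ha hF hD hV h0 hη x hx => ?_⟩
  have hR := h₀ a F V η ha hF hD hV h0 (by push_cast; linarith)
  have hW : 1 ≤ V ^ (2 * k + 2) := one_le_pow₀ hV
  rw [show 2 * k + 1 + 1 = 2 * k + 2 from rfl] at hR
  generalize V ^ (2 * k + 2) = W at hR hW ⊢
  have hL0 : 0 < Real.log x := Real.log_pos (by linarith)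
  have hP : 0 < Real.log x ^ k := pow_pos hL0 k
  have h2k : (0 : ℝ) < 2 ^ k := by positivity
  rcases lt_or_ge x 3 with h3 | h3
  · have hf : ⌊x⌋₊ = 2 := (Nat.floor_eq_iff (by linarith)).2 ⟨by simpa using hx, by
      push_cast; linarith⟩
    have h4 : ‖∑ n ∈ Icc 1 ⌊x⌋₊, a n‖ ≤ 5 := by
      have h5 := ha 1
      have h6 := ha 2
      rw [hf, show Icc 1 2 = {1, 2} from rfl, sum_pair (by norm_num)]
      simp only [Nat.cast_one, Real.log_one, Nat.cast_ofNat] at h5 h6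
      linarith [norm_add_le (a 1) (a 2), Real.log_two_lt_d9]
    have h7 : Real.log x ^ k ≤ 2 ^ k :=
      pow_le_pow_left₀ hL0.le (by linarith [Real.log_le_sub_one_of_pos (show 0 < x by linarith)]) k
    refine h4.trans ?_
    rw [le_div_iff₀ hP, mul_assoc]
    have h8 : 1 ≤ W * x := by nlinarith
    nlinarith
  · have hL : 1 ≤ Real.log x := by
      rw [Real.le_log_iff_exp_le (by linarith)]
      linarith [Real.exp_one_lt_d9]
    have hx0 : 0 < x := by linarith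
    have hQ : 1 ≤ Real.log x ^ (k + 1) := one_le_pow₀ hL
    have hh0 : 0 < x / Real.log x ^ (k + 1) := by positivity
    have hh1 : x / Real.log x ^ (k + 1) ≤ x := div_le_self hx0.le hQ
    have h4 := unsm_core ha (by linarith) hh0 hh1
    have h5 := hR x h3
    have h6 := hR (x + x / Real.log x ^ (k + 1)) (by linarith)
    have h7 : C₀ * W * (x + x / Real.log x ^ (k + 1)) ^ 2 /
        Real.log (x + x / Real.log x ^ (k + 1)) ^ (2 * k + 1) ≤
          C₀ * W * (2 * x) ^ 2 / Real.log x ^ (2 * k + 1) := by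
      gcongr
      · linarith
      · linarith
    have h8 : Real.log x ^ (k + 1) ≤ C₁ * x := by
      refine (h₁ x (by linarith)).trans (mul_le_mul_of_nonneg_left ?_ (by linarith))
      rw [Real.sqrt_le_left hx0.le]
      nlinarith
    have h9 := h4.trans (add_le_add (div_le_div_of_nonneg_right (add_le_add (h6.trans h7) h5) hh0.le)
      (mul_le_mul_of_nonneg_left (show 3 + Real.log x ≤ 4 * Real.log x by linarith)
        (by linarith)))
    refine h9.trans ?_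
    have e : (C₀ * W * (2 * x) ^ 2 / Real.log x ^ (2 * k + 1) +
        C₀ * W * x ^ 2 / Real.log x ^ (2 * k + 1)) / (x / Real.log x ^ (k + 1)) +
        (x / Real.log x ^ (k + 1) + 1) * (4 * Real.log x) =
          (5 * C₀ * W * x + 4 * x + 4 * Real.log x ^ (k + 1)) / Real.log x ^ k := by
      field_simp
      ring
    rw [e]
    refine div_le_div_of_nonneg_right ?_ hP.le
    have h10 : x ≤ W * x := le_mul_of_one_le_left hx0.le hW
    have h11 : C₁ * x ≤ C₁ * (W * x) := mul_le_mul_of_nonneg_left h10 (by linarith)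
    have h12 : 0 ≤ 2 ^ k * (W * x) := by positivity
    nlinarith

end

end Pool.Agent.Jac
end

-- part Pool.Agent.P.MP_45ff98_nt.JA7a
section

/-! Sums of the von Mangoldt function twisted by a character. -/

namespace Pool.Agent.Jac
open Finset MeasureTheory Complex

noncomputable section

theorem psi_char (k : ℕ) : ∃ C : ℝ, 0 < C ∧ ∀ (q : ℕ) [NeZero q] (χ : DirichletCharacter ℂ q),
    χ ≠ 1 → ∀ x : ℝ, 2 ≤ x →
      ‖∑ n ∈ Icc 1 ⌊x⌋₊, χ n * ((ArithmeticFunction.vonMangoldt n : ℝ) : ℂ)‖ ≤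
        C * q * x / Real.log x ^ k := by
  obtain ⟨η, hη⟩ : ∃ η : ℝ, η = 1 / (8 * k + 8) := ⟨_, rfl⟩
  have hk : (0 : ℝ) ≤ k := Nat.cast_nonneg k
  have h0 : 0 < η := by rw [hη]; positivity
  have hηk : η * (8 * k + 8) = 1 := by rw [hη]; field_simp
  have h1 : η ≤ 1 := by nlinarith
  obtain ⟨C, hC, hup⟩ := L_up h0 h1
  obtain ⟨c, hc, hlo⟩ := L_low h0 h1
  obtain ⟨C0, hC0, hun⟩ := unsmooth k
  refine ⟨C0 * (32 * C / (η * c)) ^ (2 * k + 2), by positivity, fun q _ χ hχ x hx => ?_⟩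
  have hq : (1 : ℝ) ≤ q := by exact_mod_cast Nat.one_le_iff_ne_zero.2 (NeZero.ne q)
  have hq0 : (0 : ℝ) < q := by linarith
  have hQ : 1 ≤ (q : ℝ) ^ η := Real.one_le_rpow hq h0.le
  have hA : 1 ≤ C * (q : ℝ) ^ η := one_le_mul_of_one_le_of_one_le hC hQ
  have ha : 0 < c * (q : ℝ) ^ (-η) := by positivity
  obtain ⟨hV, hD, -⟩ := disc_of_low (f := χ.LFunction) (R := η / 2) (by positivity)
    (by linarith) hA ha h0.le h1 (DirichletCharacter.differentiable_LFunction hχ).differentiableOn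
    (fun s h2 h3 => hup q χ hχ s h2.le h3) (fun σ t h2 h3 => hlo q χ hχ σ t h2 h3)
  have hL : ∀ s : ℂ, 1 < s.re →
      LSeries (fun n : ℕ => χ n * ((ArithmeticFunction.vonMangoldt n : ℝ) : ℂ)) s =
        -deriv χ.LFunction s / χ.LFunction s := by
    intro s hs
    rw [DirichletCharacter.deriv_LFunction_eq_deriv_LSeries χ hs,
      DirichletCharacter.LFunction_eq_LSeries χ hs]
    exact DirichletCharacter.LSeries_twist_vonMangoldt_eq χ hs
  have hb : ∀ n : ℕ, ‖χ n * ((ArithmeticFunction.vonMangoldt n : ℝ) : ℂ)‖ ≤ 2 + Real.log n := by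
    intro n
    rw [norm_mul, Complex.norm_real, Real.norm_of_nonneg ArithmeticFunction.vonMangoldt_nonneg]
    have h2 := χ.norm_le_one (n : ZMod q)
    have h3 : ArithmeticFunction.vonMangoldt n ≤ Real.log n := ArithmeticFunction.vonMangoldt_le_log
    have h4 : 0 ≤ ArithmeticFunction.vonMangoldt n := ArithmeticFunction.vonMangoldt_nonneg
    nlinarith [norm_nonneg (χ (n : ZMod q))]
  refine (hun _ _ _ _ hb hL hD hV (by positivity) (by linarith) x hx).trans ?_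
  have hx0 : 0 < Real.log x := Real.log_pos (by linarith)
  have e1 : 16 * (C * (q : ℝ) ^ η) / (η / 2 * (c * (q : ℝ) ^ (-η))) =
      32 * C / (η * c) * ((q : ℝ) ^ η) ^ 2 := by
    rw [Real.rpow_neg hq0.le]
    field_simp
    ring
  have e2 : (((q : ℝ) ^ η) ^ 2) ^ (2 * k + 2) ≤ q := by
    rw [← pow_mul, ← Real.rpow_natCast, ← Real.rpow_mul hq0.le]
    refine (Real.rpow_le_rpow_of_exponent_le hq (y := _) (z := 1) ?_).trans_eq (Real.rpow_one _)
    push_cast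
    nlinarith
  rw [e1, mul_pow, mul_assoc C0 _ (q : ℝ)]
  have hx1 : (0 : ℝ) ≤ x := by linarith
  gcongr

end

end Pool.Agent.Jac
end

-- part Pool.Agent.P.MP_45ff98_nt.JA7b
section

/-! The prime number theorem with an error term. -/

namespace Pool.Agent.Jac
open Finset MeasureTheory Complex

noncomputable section

theorem LSeries_lam_sub {s : ℂ} (hs : 1 < s.re) :
    LSeries (fun n => ((ArithmeticFunction.vonMangoldt n : ℝ) : ℂ) - 1) s =
      -deriv zf s / zf s + (-1 / s - riemannZeta₀ s) := by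
  have h0 : s ≠ 0 := fun e => by rw [e, zero_re] at hs; linarith
  have h1 : s ≠ 1 := fun e => by rw [e, one_re] at hs; linarith
  have h1' : s - 1 ≠ 0 := sub_ne_zero.2 h1
  have e1 : (fun n : ℕ => ((ArithmeticFunction.vonMangoldt n : ℝ) : ℂ) - 1) =
      (fun n : ℕ => ((ArithmeticFunction.vonMangoldt n : ℝ) : ℂ)) - 1 := rfl
  have hz : riemannZeta s ≠ 0 := riemannZeta_ne_zero_of_one_lt_re hs
  have hzf : zf s ≠ 0 := fun e => hz (by rw [zeta_eq_zf h0 h1, e, mul_zero, zero_div])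
  have hop : IsOpen {z : ℂ | 0 < z.re} := isOpen_lt continuous_const continuous_re
  have hs0 : s ∈ {z : ℂ | 0 < z.re} := show 0 < s.re by linarith
  have hd : HasDerivAt zf (deriv zf s) s :=
    (zf_diff.differentiableAt (hop.mem_nhds hs0)).hasDerivAt
  have hq : HasDerivAt (fun z : ℂ => z * zf z / (z - 1))
      (((1 * zf s + s * deriv zf s) * (s - 1) - s * zf s * 1) / (s - 1) ^ 2) s :=
    ((hasDerivAt_id s).mul hd).div ((hasDerivAt_id s).sub_const 1) h1'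
  have hev : riemannZeta =ᶠ[nhds s] fun z : ℂ => z * zf z / (z - 1) := by
    filter_upwards [compl_singleton_mem_nhds h0, compl_singleton_mem_nhds h1] with z hz0 hz1
    exact zeta_eq_zf hz0 hz1
  have hder : deriv riemannZeta s =
      ((1 * zf s + s * deriv zf s) * (s - 1) - s * zf s * 1) / (s - 1) ^ 2 :=
    hev.deriv_eq.trans hq.deriv
  rw [e1, LSeries_sub (ArithmeticFunction.LSeriesSummable_vonMangoldt hs)
    (LSeriesSummable_one_iff.2 hs), ArithmeticFunction.LSeries_vonMangoldt_eq_deriv_riemannZeta_div hs,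
    LSeries_one_eq_riemannZeta hs, hder]
  have e2 : -(((1 * zf s + s * deriv zf s) * (s - 1) - s * zf s * 1) / (s - 1) ^ 2) /
      riemannZeta s = -deriv zf s / zf s - 1 / s + (s - 1)⁻¹ := by
    rw [zeta_eq_zf h0 h1]
    field_simp
    ring
  rw [e2, riemannZeta_eq_inv_sub_add h1]
  ring

theorem ja7b_coef (n : ℕ) :
    ‖((ArithmeticFunction.vonMangoldt n : ℝ) : ℂ) - 1‖ ≤ 2 + Real.log n := by
  refine (norm_sub_le _ _).trans ?_
  rw [norm_real, norm_one, Real.norm_of_nonneg ArithmeticFunction.vonMangoldt_nonneg]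
  have := ArithmeticFunction.vonMangoldt_le_log (n := n)
  linarith

theorem ja7b_sum (x : ℝ) :
    ∑ n ∈ Icc 1 ⌊x⌋₊, (((ArithmeticFunction.vonMangoldt n : ℝ) : ℂ) - 1) =
      ((Chebyshev.psi x - ⌊x⌋₊ : ℝ) : ℂ) := by
  have e : Icc 1 ⌊x⌋₊ = Ioc 0 ⌊x⌋₊ := by
    ext n
    simp only [mem_Icc, mem_Ioc]
    omega
  rw [sum_sub_distrib, e, Chebyshev.psi]
  simp

theorem ja7b_disc {η : ℝ} (h0 : 0 < η) (h1 : η ≤ 1) : ∃ V : ℝ, 1 ≤ V ∧
    Disc (fun s => -deriv zf s / zf s + (-1 / s - riemannZeta₀ s)) V (2 * η) := by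
  obtain ⟨A, hA, hup⟩ := zf_up h0 h1
  obtain ⟨a, ha, hlo⟩ := zf_low h0 h1
  obtain ⟨C, hC, hup0⟩ := zeta0_up h0 h1
  have hR : 0 < η / 2 := by positivity
  have hR1 : η / 2 ≤ 1 := by linarith
  have hsub : {s : ℂ | 1 - η / 2 < s.re} ⊆ {s : ℂ | 0 < s.re} := fun s hs => by
    have : 1 - η / 2 < s.re := hs
    show 0 < s.re
    linarith
  obtain ⟨hV, hD, -⟩ := disc_of_low hR hR1 hA ha h0.le h1 (zf_diff.mono hsub)
    (fun s hs hs' => hup s hs.le hs') hlo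
  have hD2 : Disc (fun s : ℂ => -1 / s - riemannZeta₀ s) (2 * (2 + C) / (η / 2)) η := by
    refine disc_of_up hR hR1 (by linarith) h0.le h1 (fun s hs => ?_) fun s hs hs' => ?_
    · have h : s ≠ 0 := fun e => by
        have := hsub hs
        rw [e] at this
        exact lt_irrefl _ (show (0 : ℝ) < 0 from this)
      exact (((differentiableAt_const _).div differentiableAt_id h).sub
        (differentiable_riemannZeta₀ s)).differentiableWithinAt
    · have hP : 1 ≤ (|s.im| + 2) ^ η :=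
        Real.one_le_rpow (by linarith [abs_nonneg s.im]) h0.le
      have hn : 1 / 2 ≤ ‖s‖ := by
        have := re_le_norm s
        linarith
      have hi : ‖-1 / s‖ ≤ 2 := by
        rw [norm_div, norm_neg, norm_one, div_le_iff₀ (by linarith)]
        linarith
      have := hup0 s hs.le hs'
      refine (norm_sub_le _ _).trans ?_
      nlinarith
  have hV2 : 0 < 2 * (2 + C) / (η / 2) := by positivity
  refine ⟨2 * max (16 * A / (η / 2 * a)) (2 * (2 + C) / (η / 2)), ?_, ?_⟩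
  · have := le_max_left (16 * A / (η / 2 * a)) (2 * (2 + C) / (η / 2))
    linarith
  · exact (hD.mono (by linarith) (le_max_left _ _) le_rfl).add
      (hD2.mono hV2 (le_max_right _ _) (by linarith)) (lt_max_of_lt_right hV2)

theorem psi_one (k : ℕ) : ∃ C : ℝ, 0 < C ∧ ∀ x : ℝ, 2 ≤ x →
    |Chebyshev.psi x - x| ≤ C * x / Real.log x ^ k := by
  have hk : (0 : ℝ) ≤ k := Nat.cast_nonneg k
  have h0 : (0 : ℝ) < 1 / (8 * k + 8) := by positivity
  have h1 : (1 : ℝ) / (8 * k + 8) ≤ 1 := by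
    rw [div_le_one (by positivity)]
    linarith
  obtain ⟨V, hV, hD⟩ := ja7b_disc h0 h1
  obtain ⟨C, hC, hun⟩ := unsmooth k
  obtain ⟨C1, hC1, hlog⟩ := log_pow_le k
  refine ⟨C * V ^ (2 * k + 2) + C1, by positivity, fun x hx => ?_⟩
  have h2 := hun _ _ V _ ja7b_coef (fun s hs => LSeries_lam_sub hs) hD hV (by positivity)
    (le_of_eq (by field_simp; ring)) x hx
  rw [ja7b_sum, norm_real, Real.norm_eq_abs] at h2
  have hL : 0 < Real.log x ^ k := pow_pos (Real.log_pos (by linarith)) k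
  have h3 : 1 ≤ C1 * x / Real.log x ^ k := by
    rw [le_div_iff₀ hL, one_mul]
    refine (hlog x (by linarith)).trans (mul_le_mul_of_nonneg_left ?_ (by linarith))
    exact Real.sqrt_le_iff.2 ⟨by linarith, by nlinarith⟩
  have h4 : |(⌊x⌋₊ : ℝ) - x| ≤ 1 := by
    have := Nat.floor_le (show (0 : ℝ) ≤ x by linarith)
    have := Nat.lt_floor_add_one x
    rw [abs_le]
    constructor <;> linarith
  have h5 := abs_sub_le (Chebyshev.psi x) (⌊x⌋₊ : ℝ) x
  rw [add_mul, add_div]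
  linarith

end

end Pool.Agent.Jac
end

-- part Pool.Agent.P.MP_45ff98_nt.JA8a
section

/-! Orthogonality of characters. -/

namespace Pool.Agent.Jac
open Finset MeasureTheory Complex

noncomputable section

def psA (t : ℝ) (μ c : ℕ) : ℝ :=
  ∑ n ∈ (Icc 1 ⌊t⌋₊).filter (fun n => n ≡ c [MOD μ]), ArithmeticFunction.vonMangoldt n

def ps0 (t : ℝ) (μ : ℕ) : ℝ :=
  ∑ n ∈ (Icc 1 ⌊t⌋₊).filter (fun n => n.Coprime μ), ArithmeticFunction.vonMangoldt n

theorem orth_le {t E : ℝ} {μ c : ℕ} [NeZero μ] (hE : 0 ≤ E) (hc : c.Coprime μ)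
    (h : ∀ χ : DirichletCharacter ℂ μ, χ ≠ 1 →
      ‖∑ n ∈ Icc 1 ⌊t⌋₊, χ n * ((ArithmeticFunction.vonMangoldt n : ℝ) : ℂ)‖ ≤ E) :
    |psA t μ c - ps0 t μ / Nat.totient μ| ≤ E := by
  classical
  have hu : IsUnit (c : ZMod μ) := (ZMod.isUnit_iff_coprime c μ).2 hc
  have hφ : (0 : ℝ) < Nat.totient μ := by exact_mod_cast Nat.totient_pos.2 (NeZero.pos μ)
  have h1 : ((Nat.totient μ * psA t μ c : ℝ) : ℂ) = ∑ χ : DirichletCharacter ℂ μ,
      χ (c : ZMod μ)⁻¹ * ∑ n ∈ Icc 1 ⌊t⌋₊, χ n * ((ArithmeticFunction.vonMangoldt n : ℝ) : ℂ) := by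
    simp only [mul_sum, ← mul_assoc]
    rw [sum_comm]
    simp only [← sum_mul, DirichletCharacter.sum_char_inv_mul_char_eq ℂ hu]
    rw [psA, sum_filter]
    push_cast
    rw [mul_sum]
    refine sum_congr rfl fun n _ => ?_
    by_cases hn : n ≡ c [MOD μ]
    · rw [if_pos hn, if_pos ((ZMod.natCast_eq_natCast_iff _ _ _).2 hn.symm)]
    · rw [if_neg hn, if_neg fun h2 => hn ((ZMod.natCast_eq_natCast_iff _ _ _).1 h2).symm]
      simp
  have hi : IsUnit (c : ZMod μ)⁻¹ := IsUnit.of_mul_eq_one _ (ZMod.inv_mul_of_unit _ hu)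
  have h2 : (1 : DirichletCharacter ℂ μ) (c : ZMod μ)⁻¹ * ∑ n ∈ Icc 1 ⌊t⌋₊,
      (1 : DirichletCharacter ℂ μ) n * ((ArithmeticFunction.vonMangoldt n : ℝ) : ℂ)
      = ((ps0 t μ : ℝ) : ℂ) := by
    rw [MulChar.one_apply hi, one_mul, ps0, sum_filter]
    push_cast
    refine sum_congr rfl fun n _ => ?_
    by_cases hn : n.Coprime μ
    · rw [if_pos hn, MulChar.one_apply ((ZMod.isUnit_iff_coprime n μ).2 hn), one_mul]
    · rw [if_neg hn, MulChar.map_nonunit _ fun h3 => hn ((ZMod.isUnit_iff_coprime n μ).1 h3)]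
      simp
  rw [← add_sum_erase _ _ (mem_univ (1 : DirichletCharacter ℂ μ)), h2] at h1
  have h3 : |Nat.totient μ * psA t μ c - ps0 t μ| ≤ Nat.totient μ * E := by
    rw [← Real.norm_eq_abs, ← Complex.norm_real, ofReal_sub, h1, add_sub_cancel_left]
    refine (norm_sum_le _ _).trans ((sum_le_card_nsmul _ _ E fun χ hχ => ?_).trans ?_)
    · rw [norm_mul]
      exact (mul_le_of_le_one_left (norm_nonneg _) (χ.norm_le_one _)).trans
        (h χ (ne_of_mem_erase hχ))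
    · rw [nsmul_eq_mul]
      refine mul_le_mul_of_nonneg_right ?_ hE
      have h4 := card_erase_le (s := (univ : Finset (DirichletCharacter ℂ μ))) (a := 1)
      rw [card_univ, ← Nat.card_eq_fintype_card,
        DirichletCharacter.card_eq_totient_of_hasEnoughRootsOfUnity] at h4
      exact_mod_cast h4
  rw [show psA t μ c - ps0 t μ / Nat.totient μ
    = (Nat.totient μ * psA t μ c - ps0 t μ) / Nat.totient μ by field_simp, abs_div,
    abs_of_pos hφ, div_le_iff₀' hφ]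
  exact h3

end

end Pool.Agent.Jac
end

-- part Pool.Agent.P.MP_45ff98_nt.JA8b
section

/-! From prime powers to primes. -/

namespace Pool.Agent.Jac
open Finset MeasureTheory Complex

noncomputable section

theorem ja8b_Icc (N : ℕ) : Icc 1 N = Ioc 0 N := by
  ext n; simp [Nat.succ_le_iff]

theorem psA_thA (t : ℝ) (μ c : ℕ) :
    0 ≤ psA t μ c - thA t μ c ∧ psA t μ c - thA t μ c ≤ Chebyshev.psi t - Chebyshev.theta t := by
  have e : psA t μ c - thA t μ c = ∑ n ∈ ((Ioc 0 ⌊t⌋₊).filter (fun n => n ≡ c [MOD μ])).filter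
      (fun n => ¬n.Prime), ArithmeticFunction.vonMangoldt n := by
    rw [psA, thA, ja8b_Icc, ← sum_filter_add_sum_filter_not _ (fun n : ℕ => n.Prime),
      filter_filter, sub_eq_iff_eq_add']
    congr 1
    refine sum_congr (filter_congr fun n _ => and_comm) fun n hn => ?_
    exact ArithmeticFunction.vonMangoldt_apply_prime (mem_filter.1 hn).2.1
  rw [e, Chebyshev.psi_sub_theta_eq_sum_not_prime]
  exact ⟨sum_nonneg fun _ _ => ArithmeticFunction.vonMangoldt_nonneg,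
    sum_le_sum_of_subset_of_nonneg (filter_subset_filter _ (filter_subset _ _))
      fun _ _ _ => ArithmeticFunction.vonMangoldt_nonneg⟩

theorem ps0_psi (t : ℝ) {μ : ℕ} (hμ : μ ≠ 0) : 0 ≤ Chebyshev.psi t - ps0 t μ ∧
    Chebyshev.psi t - ps0 t μ ≤ Chebyshev.psi t - Chebyshev.theta t + Real.log μ := by
  have e : Chebyshev.psi t - ps0 t μ = ∑ n ∈ (Ioc 0 ⌊t⌋₊).filter (fun n => ¬n.Coprime μ),
      ArithmeticFunction.vonMangoldt n := by
    rw [ps0, Chebyshev.psi, ja8b_Icc, ← sum_filter_add_sum_filter_not _ (fun n : ℕ => n.Coprime μ),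
      add_sub_cancel_left]
  rw [e, Chebyshev.psi_sub_theta_eq_sum_not_prime]
  refine ⟨sum_nonneg fun _ _ => ArithmeticFunction.vonMangoldt_nonneg, ?_⟩
  rw [← sum_filter_add_sum_filter_not _ (fun n : ℕ => n.Prime), add_comm]
  refine add_le_add (sum_le_sum_of_subset_of_nonneg (filter_subset_filter _ (filter_subset _ _))
    fun _ _ _ => ArithmeticFunction.vonMangoldt_nonneg) ?_
  refine le_trans ?_ (Pool.Agent.Lib.Sieve.sum_log_primeFactors_le hμ)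
  rw [sum_congr rfl fun n hn => ArithmeticFunction.vonMangoldt_apply_prime (mem_filter.1 hn).2]
  refine sum_le_sum_of_subset_of_nonneg (fun n hn => ?_)
    fun _ _ _ => Real.log_natCast_nonneg _
  obtain ⟨h1, h2⟩ := mem_filter.1 hn
  exact Nat.mem_primeFactors.2 ⟨h2, not_not.1 fun h =>
    (mem_filter.1 h1).2 (h2.coprime_iff_not_dvd.2 h), hμ⟩

theorem thA_le {t E : ℝ} {μ c : ℕ} [NeZero μ] (hE : 0 ≤ E) (hc : c.Coprime μ)
    (h : ∀ χ : DirichletCharacter ℂ μ, χ ≠ 1 →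
      ‖∑ n ∈ Icc 1 ⌊t⌋₊, χ n * ((ArithmeticFunction.vonMangoldt n : ℝ) : ℂ)‖ ≤ E) :
    |thA t μ c - t / Nat.totient μ| ≤
      E + |Chebyshev.psi t - t| + 2 * (Chebyshev.psi t - Chebyshev.theta t) + Real.log μ := by
  have h1 := orth_le hE hc h
  obtain ⟨h2, h3⟩ := psA_thA t μ c
  obtain ⟨h4, h5⟩ := ps0_psi t (NeZero.ne μ)
  have hφ : (1 : ℝ) ≤ Nat.totient μ := by
    exact_mod_cast Nat.totient_pos.2 (Nat.pos_of_ne_zero (NeZero.ne μ))
  have h6 : |ps0 t μ - t| ≤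
      |Chebyshev.psi t - t| + (Chebyshev.psi t - Chebyshev.theta t + Real.log μ) := by
    have := le_abs_self (Chebyshev.psi t - t)
    have := neg_abs_le (Chebyshev.psi t - t)
    exact abs_le.2 ⟨by linarith, by linarith⟩
  have h7 : |ps0 t μ / Nat.totient μ - t / Nat.totient μ| ≤ |ps0 t μ - t| := by
    rw [← sub_div, abs_div, abs_of_pos (zero_lt_one.trans_le hφ)]
    exact div_le_self (abs_nonneg _) hφ
  obtain ⟨a1, a2⟩ := abs_le.1 h1
  obtain ⟨b1, b2⟩ := abs_le.1 (h7.trans h6)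
  exact abs_le.2 ⟨by linarith, by linarith⟩

end

end Pool.Agent.Jac
end

-- part Pool.Agent.P.MP_45ff98_nt.JA8
section

/-! The theorem of Siegel and Walfisz. -/

namespace Pool.Agent.Jac
open Finset MeasureTheory Complex

noncomputable section

theorem siegel_walfisz (B : ℕ) : ∃ C : ℝ, 0 < C ∧ ∀ (t : ℝ) (μ c : ℕ), 2 ≤ t → 1 ≤ μ →
    (μ : ℝ) ≤ Real.log t ^ B → c.Coprime μ →
      |thA t μ c - t / Nat.totient μ| ≤ C * t / Real.log t ^ B := by
  obtain ⟨C1, hC1, h1⟩ := psi_char (2 * B)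
  obtain ⟨C2, hC2, h2⟩ := psi_one B
  obtain ⟨C3, h3⟩ := Chebyshev.psi_sub_theta_le_mul_sqrt
  obtain ⟨C4, hC4, h4⟩ := log_pow_le B
  refine ⟨C1 + C2 + 2 * (|C3| * C4) + C4 * C4, by positivity, fun t μ c ht hμ hle hc => ?_⟩
  have : NeZero μ := ⟨by omega⟩
  have ht0 : 0 < t := by linarith
  have hL : 0 < Real.log t := Real.log_pos (by linarith)
  have hW : 0 < Real.log t ^ B := pow_pos hL B
  have hμ0 : (0 : ℝ) < μ := by exact_mod_cast hμ
  have hs : 0 < √t := Real.sqrt_pos.2 ht0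
  have h5 := h4 t (by linarith)
  have h6 : √t ≤ C4 * (t / Real.log t ^ B) := by
    rw [← mul_div_assoc, le_div_iff₀ hW]
    calc √t * Real.log t ^ B ≤ √t * (C4 * √t) := mul_le_mul_of_nonneg_left h5 hs.le
      _ = C4 * (√t * √t) := by ring
      _ = C4 * t := by rw [Real.mul_self_sqrt ht0.le]
  have h7 := thA_le (t := t) (E := C1 * (t / Real.log t ^ B)) (by positivity) hc fun χ hχ => by
    refine (h1 μ χ hχ t ht).trans ?_
    rw [two_mul, pow_add, div_le_iff₀ (mul_pos hW hW)]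
    calc C1 * μ * t ≤ C1 * Real.log t ^ B * t := by gcongr
      _ = C1 * (t / Real.log t ^ B) * (Real.log t ^ B * Real.log t ^ B) := by field_simp
  have h8 := h2 t ht
  have h9 : Chebyshev.psi t - Chebyshev.theta t ≤ |C3| * C4 * (t / Real.log t ^ B) := by
    calc Chebyshev.psi t - Chebyshev.theta t ≤ C3 * √t := h3 t
      _ ≤ |C3| * √t := mul_le_mul_of_nonneg_right (le_abs_self _) hs.le
      _ ≤ |C3| * (C4 * (t / Real.log t ^ B)) := mul_le_mul_of_nonneg_left h6 (abs_nonneg _)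
      _ = _ := by ring
  have h10 : Real.log μ ≤ C4 * C4 * (t / Real.log t ^ B) := by
    calc Real.log μ ≤ μ := (Real.log_le_sub_one_of_pos hμ0).trans (by linarith)
      _ ≤ C4 * √t := hle.trans h5
      _ ≤ C4 * (C4 * (t / Real.log t ^ B)) := mul_le_mul_of_nonneg_left h6 (by linarith)
      _ = _ := by ring
  rw [mul_div_assoc] at h8 ⊢
  linarith

end

end Pool.Agent.Jac
end

-- part Pool.Agent.P.MP_45ff98_nt.JS3
section

/-! Sifted primes in a progression. -/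

namespace Pool.Agent.Jac
open Finset

noncomputable section

theorem JS3_dvd_iff {v fu : ℕ} (hv : 1 ≤ v) {T : Finset ℕ} (hT : ∀ r ∈ T, r.Prime ∧ ¬ r ∣ fu)
    (n : ℤ) : (((v * fu : ℕ) : ℤ) ∣ n ∧ ∀ r ∈ T, ((v * r : ℕ) : ℤ) ∣ n) ↔
      ((v * fu * pr T : ℕ) : ℤ) ∣ n := by
  have hv0 : (v : ℤ) ≠ 0 := by exact_mod_cast (by omega : v ≠ 0)
  have hp : ∀ r ∈ T, r.Prime := fun r hr => (hT r hr).1
  have hc : IsCoprime (fu : ℤ) (pr T : ℤ) := by
    rw [Nat.isCoprime_iff_coprime, pr]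
    exact Nat.Coprime.prod_right fun r hr =>
      ((Nat.Prime.coprime_iff_not_dvd (hp r hr)).2 (hT r hr).2).symm
  push_cast
  constructor
  · rintro ⟨h1, h2⟩
    obtain ⟨k, rfl⟩ := (dvd_mul_right (v : ℤ) fu).trans h1
    rw [mul_assoc]
    refine mul_dvd_mul_left _ (hc.mul_dvd ((mul_dvd_mul_iff_left hv0).1 h1) ?_)
    exact (pr_dvd_iff hp k).2 fun r hr => (mul_dvd_mul_iff_left hv0).1 (h2 r hr)
  · intro h
    refine ⟨(dvd_mul_right _ _).trans h, fun r hr => dvd_trans ?_ h⟩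
    rw [mul_assoc]
    exact mul_dvd_mul_left _ (((pr_dvd_iff hp _).1 dvd_rfl r hr).mul_left _)

theorem JS3_class {M : ℕ} (hM : 1 ≤ M) {N1 m : ℤ} (h1 : IsCoprime N1 M) (h2 : IsCoprime m M) :
    ∃ c : ℕ, c.Coprime M ∧ ∀ q : ℕ, ((M : ℤ) ∣ N1 + q * m ↔ q ≡ c [MOD M]) := by
  obtain ⟨a, b, hab⟩ := h2
  have h2 : IsCoprime m M := ⟨a, b, hab⟩
  have hM0 : (M : ℤ) ≠ 0 := by exact_mod_cast (by omega : M ≠ 0)
  obtain ⟨c, hc⟩ := Int.eq_ofNat_of_zero_le (Int.emod_nonneg (-N1 * a) hM0)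
  have h3 := Int.mul_ediv_add_emod (-N1 * a) M
  rw [hc] at h3
  have h4 : N1 + c * m = M * (N1 * b - (-N1 * a) / M * m) := by
    linear_combination m * h3 - N1 * hab
  refine ⟨c, ?_, fun q => ?_⟩
  · have h5 : N1 = -(c * m) + M * (N1 * b - (-N1 * a) / M * m) := by linear_combination h4
    rw [h5] at h1
    exact Nat.isCoprime_iff_coprime.1 (IsCoprime.of_mul_left_left
      ((IsCoprime.neg_left_iff _ _).1 (IsCoprime.of_add_mul_left_left h1)))
  · have h5 : N1 + q * m = -((c - q) * m) + M * (N1 * b - (-N1 * a) / M * m) := by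
      linear_combination h4
    rw [Nat.modEq_iff_dvd, h5, dvd_add_left (dvd_mul_right _ _), dvd_neg]
    exact ⟨fun h => h2.symm.dvd_of_dvd_mul_right h, fun h => h.mul_right _⟩

/-- The density of the prime `r`. -/
def JS3g (v r : ℕ) : ℝ := if r ∣ v then 1 / (r : ℝ) else 1 / ((r : ℝ) - 1)

theorem JS3_tot {v fu : ℕ} (T : Finset ℕ) (hT : ∀ r ∈ T, r.Prime ∧ ¬ r ∣ fu) :
    1 / (Nat.totient (v * fu) : ℝ) * ∏ r ∈ T, JS3g v r =
      1 / (Nat.totient (v * fu * pr T) : ℝ) := by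
  induction T using Finset.induction_on with
  | empty => simp [pr]
  | insert r T hr ih =>
    have hT' : ∀ s ∈ T, s.Prime ∧ ¬ s ∣ fu := fun s hs => hT s (mem_insert_of_mem hs)
    obtain ⟨h1, h2⟩ := hT r (mem_insert_self _ _)
    have e : v * fu * pr (insert r T) = r * (v * fu * pr T) := by rw [pr_insert hr]; ring
    rw [prod_insert hr, mul_left_comm, ih hT', e, JS3g]
    split_ifs with h
    · rw [Nat.totient_mul_of_prime_of_dvd h1 ((h.mul_right _).mul_right _)]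
      push_cast
      rw [div_mul_div_comm, one_mul]
    · have hn : ¬ r ∣ v * fu * pr T := by
        rw [h1.dvd_mul, h1.dvd_mul, prime_dvd_pr (fun s hs => (hT' s hs).1) h1]
        tauto
      rw [Nat.totient_mul_of_prime_of_not_dvd h1 hn, Nat.cast_mul, Nat.cast_pred h1.pos,
        div_mul_div_comm, one_mul]

theorem JS3_th {t1 t2 : ℝ} (h0 : 0 ≤ t1) (h : t1 ≤ t2) (M c : ℕ) :
    ∑ q ∈ (Icc 1 ⌊t2⌋₊).filter (fun q : ℕ => (q.Prime ∧ q ≡ c [MOD M]) ∧ t1 < q), Real.log q =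
      thA t2 M c - thA t1 M c := by
  rw [eq_sub_iff_add_eq, thA, thA, ← filter_filter, ← sum_filter_add_sum_filter_not
    ((Icc 1 ⌊t2⌋₊).filter fun q => q.Prime ∧ q ≡ c [MOD M]) (fun q : ℕ => t1 < q)]
  congr 1
  refine sum_congr ?_ fun _ _ => rfl
  ext q
  simp only [mem_filter, mem_Icc, not_lt, Nat.le_floor_iff h0, Nat.le_floor_iff (h0.trans h)]
  exact ⟨fun h1 => ⟨⟨⟨h1.1.1, h1.1.2.trans h⟩, h1.2⟩, h1.1.2⟩,
    fun h1 => ⟨⟨h1.1.1.1, h1.2⟩, h1.1.2⟩⟩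

theorem JS3_tel1 (n : ℕ) : ∏ r ∈ Ico 2 (n + 2), (1 - 1 / (r : ℝ)) = 1 / ((n : ℝ) + 1) := by
  induction n with
  | zero => simp
  | succ n ih =>
    rw [show n + 1 + 2 = (n + 2) + 1 from rfl, prod_Ico_succ_top (by omega), ih]
    push_cast
    field_simp
    ring

theorem JS3_tel2 (n : ℕ) : ∏ r ∈ Ico 3 (n + 3), (1 - 1 / ((r : ℝ) - 1) ^ 2) =
    ((n : ℝ) + 2) / (2 * ((n : ℝ) + 1)) := by
  induction n with
  | zero => simp
  | succ n ih =>
    rw [show n + 1 + 3 = (n + 3) + 1 from rfl, prod_Ico_succ_top (by omega), ih]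
    push_cast
    rw [show (n : ℝ) + 3 - 1 = n + 2 by ring]
    field_simp
    ring

theorem JS3_W {S : Finset ℕ} {p : ℕ} (hp : 1 ≤ p) (hS : ∀ r ∈ S, r.Prime ∧ r < p) :
    1 / (p : ℝ) ≤ ∏ r ∈ S, (1 - 1 / (r : ℝ)) := by
  obtain ⟨n, rfl⟩ : ∃ n, p = n + 1 := ⟨p - 1, by omega⟩
  push_cast
  rw [← JS3_tel1]
  refine prod_le_prod_of_subset_of_le_one
    (fun r hr => mem_Ico.2 ⟨(hS r hr).1.two_le, by have := (hS r hr).2; omega⟩)
    (fun r hr => ?_) fun r _ _ => ?_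
  · have h1 : (1 : ℝ) ≤ r := by exact_mod_cast (by have := (mem_Ico.1 hr).1; omega : 1 ≤ r)
    rw [sub_nonneg]
    exact (div_le_one (by linarith)).2 h1
  · have : (0 : ℝ) ≤ 1 / r := by positivity
    linarith

theorem JS3_half {S : Finset ℕ} {v p : ℕ} (hS : ∀ r ∈ S, r.Prime ∧ r < p ∧ (r ∣ v ∨ 3 ≤ r)) :
    1 / 2 * ∏ r ∈ S, (1 - 1 / (r : ℝ)) ≤ ∏ r ∈ S, (1 - JS3g v r) := by
  have h1 : ∏ r ∈ S, (1 - JS3g v r) = (∏ r ∈ S.filter (fun r => ¬ r ∣ v),
      (1 - 1 / ((r : ℝ) - 1) ^ 2)) * ∏ r ∈ S, (1 - 1 / (r : ℝ)) := by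
    rw [prod_filter, ← prod_mul_distrib]
    refine prod_congr rfl fun r hr => ?_
    unfold JS3g
    by_cases h : r ∣ v
    · simp [h]
    · have h3 : (3 : ℝ) ≤ r := by exact_mod_cast (hS r hr).2.2.resolve_left h
      have h4 : (r : ℝ) - 1 ≠ 0 := by linarith
      have h5 : (r : ℝ) ≠ 0 := by linarith
      rw [if_neg h, if_pos h]
      field_simp
      ring
  rw [h1]
  refine mul_le_mul_of_nonneg_right ?_ (prod_nonneg fun r hr => ?_)
  · refine le_trans ?_ (prod_le_prod_of_subset_of_le_one (t := Ico 3 (p + 3))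
      (fun r hr => ?_) (fun r hr => ?_) fun r _ _ => ?_)
    · rw [JS3_tel2, div_le_div_iff₀ (by norm_num) (by positivity)]
      have : (0 : ℝ) ≤ p := Nat.cast_nonneg p
      linarith
    · obtain ⟨h2, h3⟩ := mem_filter.1 hr
      exact mem_Ico.2 ⟨(hS r h2).2.2.resolve_left h3, by have := (hS r h2).2.1; omega⟩
    · have h3 : (3 : ℝ) ≤ r := by exact_mod_cast (mem_Ico.1 hr).1
      rw [sub_nonneg, div_le_one (by nlinarith)]
      nlinarith
    · have : (0 : ℝ) ≤ 1 / ((r : ℝ) - 1) ^ 2 := by positivity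
      linarith
  · have h1 : (1 : ℝ) ≤ r := by exact_mod_cast (hS r hr).1.one_le
    rw [sub_nonneg]
    exact (div_le_one (by linarith)).2 h1

theorem JS3_dens {S : Finset ℕ} {v : ℕ} (hS : ∀ r ∈ S, r.Prime ∧ (r ∣ v ∨ 3 ≤ r)) :
    Dens S (JS3g v) := by
  intro r hr
  have h2 : (2 : ℝ) ≤ r := by exact_mod_cast (hS r hr).1.two_le
  unfold JS3g
  split_ifs with h
  · exact ⟨by positivity, one_div_le_one_div_of_le (by norm_num) h2,
      one_div_le_one_div_of_le (by linarith) (by linarith)⟩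
  · have h3 : (3 : ℝ) ≤ r := by exact_mod_cast (hS r hr).2.resolve_left h
    exact ⟨div_nonneg zero_le_one (by linarith),
      one_div_le_one_div_of_le (by norm_num) (by linarith), le_rfl⟩

theorem JS3_cop {N : ℤ} {v fu : ℕ} {T : Finset ℕ} (h : IsCoprime N (v * fu : ℕ))
    (hT : ∀ r ∈ T, r.Prime ∧ (r ∣ v ∨ ¬ (r : ℤ) ∣ N)) : IsCoprime N (v * fu * pr T : ℕ) := by
  rw [Nat.cast_mul]
  refine h.mul_right ?_
  rw [pr, Nat.cast_prod]
  refine IsCoprime.prod_right fun r hr => ?_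
  rcases (hT r hr).2 with h1 | h1
  · exact h.of_isCoprime_of_dvd_right (Int.natCast_dvd_natCast.2 (h1.mul_right _))
  · exact ((Nat.prime_iff_prime_int.1 (hT r hr).1).irreducible.coprime_iff_not_dvd.2 h1).symm

theorem JS3_log {κ : ℕ} (hκ : 5 ≤ κ) {t : ℝ} (ht : 2 ^ (κ - 1) ≤ t) :
    2 ≤ t ∧ (κ : ℝ) ≤ Real.log t ^ 2 := by
  obtain ⟨n, rfl⟩ : ∃ n, κ = n + 1 := ⟨κ - 1, by omega⟩
  rw [Nat.add_sub_cancel] at ht
  have hn : (4 : ℝ) ≤ n := by exact_mod_cast (by omega : 4 ≤ n)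
  have h1 : (n : ℝ) * Real.log 2 ≤ Real.log t := by
    rw [← Real.log_pow]
    exact Real.log_le_log (by positivity) ht
  have h2 := Real.log_two_gt_d9
  have h3 : (n : ℝ) * (2 / 3) ≤ Real.log t := by nlinarith
  refine ⟨le_trans ?_ ht, ?_⟩
  · exact le_self_pow₀ (by norm_num) (by omega)
  · push_cast
    nlinarith

/-- The theorem of Siegel and Walfisz in a box. -/
theorem JS3_sw (j : ℕ) : ∃ C : ℝ, 0 < C ∧ ∀ (κ : ℕ) (t : ℝ) (M c : ℕ), 5 ≤ κ → 2 ^ (κ - 1) ≤ t →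
    t < 2 ^ κ → 1 ≤ M → M ≤ κ ^ j → c.Coprime M →
    |thA t M c - t / Nat.totient M| ≤ C * 2 ^ κ / (κ : ℝ) ^ j := by
  obtain ⟨C, hC, h⟩ := siegel_walfisz (2 * j)
  refine ⟨C, hC, fun κ t M c hκ h1 h2 hM hMj hc => ?_⟩
  obtain ⟨h3, h4⟩ := JS3_log hκ h1
  have hκ0 : (0 : ℝ) < κ := by exact_mod_cast (by omega : 0 < κ)
  have h5 : (κ : ℝ) ^ j ≤ Real.log t ^ (2 * j) := by
    rw [pow_mul]
    exact pow_le_pow_left₀ hκ0.le h4 j
  refine (h t M c h3 hM (le_trans (by exact_mod_cast hMj) h5) hc).trans ?_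
  exact div_le_div₀ (by positivity) (mul_le_mul_of_nonneg_left h2.le hC.le) (by positivity) h5

theorem JS3_num {K x W Φ p E Z : ℝ} {B : ℕ} (hK : 0 < K) (hZ : 0 < Z) (hΦ0 : 0 < Φ) (hp0 : 0 < p)
    (hΦ : Φ ≤ K ^ B) (hp : p ≤ K ^ B) (hW : 1 / p ≤ W) (hx : Z ≤ x * K ^ B)
    (hE : E * K ^ (3 * B) ≤ Z) : E ≤ x / Φ * W := by
  have h1 : 0 < K ^ B := by positivity
  have hx0 : 0 < x := by
    by_contra h
    nlinarith
  have h2 : x / K ^ B * (1 / K ^ B) ≤ x / Φ * W :=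
    mul_le_mul (div_le_div_of_nonneg_left hx0.le hΦ0 hΦ)
      ((one_div_le_one_div_of_le hp0 hp).trans hW) (by positivity) (by positivity)
  refine le_trans ?_ h2
  rw [div_mul_div_comm, mul_one, le_div_iff₀ (by positivity)]
  refine le_of_mul_le_mul_right ?_ h1
  have h3 : K ^ (3 * B) = K ^ B * K ^ B * K ^ B := by ring
  rw [h3] at hE
  nlinarith

theorem prime_count : ∃ c : ℝ, 0 < c ∧ ∀ B : ℕ, ∃ κ0 : ℕ, ∀ (κ v fu p : ℕ) (N1 m : ℤ)
    (S X : Finset ℕ) (t1 t2 : ℝ), κ0 ≤ κ → 1 ≤ v → 1 ≤ fu → 2 ≤ p → p ≤ κ ^ B → v * fu ≤ κ ^ B →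
    X.card ≤ κ ^ B → IsCoprime N1 (v * fu : ℕ) → IsCoprime m (v * fu : ℕ) →
    (∀ r ∈ S, r.Prime ∧ r < p ∧ ¬ r ∣ fu ∧ (r ∣ v ∨ (3 ≤ r ∧ ¬ (r : ℤ) ∣ N1 ∧ ¬ (r : ℤ) ∣ m))) →
    2 ^ (κ - 1) ≤ t1 → t2 < 2 ^ κ → 2 ^ (κ - 1) ≤ (t2 - t1) * (κ : ℝ) ^ B →
    c * (t2 - t1) / (κ * Nat.totient (v * fu)) * ∏ r ∈ S, (1 - 1 / (r : ℝ)) ≤
      (((Box κ \ X).filter (fun q : ℕ => t1 < q ∧ (q : ℝ) ≤ t2 ∧
        ((v * fu : ℕ) : ℤ) ∣ N1 + q * m ∧ ∀ r ∈ S, ¬ ((v * r : ℕ) : ℤ) ∣ N1 + q * m)).card : ℝ) := by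
  obtain ⟨Cs, hCs, hsv⟩ := sieve
  obtain ⟨u, hu⟩ := exists_nat_ge Cs
  have hu1 : 1 ≤ u := by exact_mod_cast hCs.trans hu
  have hexp : Cs * Real.exp (-4 * u) ≤ 1 / 2 := by
    have h1 := Real.add_one_le_exp (4 * (u : ℝ))
    rw [neg_mul, Real.exp_neg, ← div_eq_mul_inv, div_le_iff₀ (Real.exp_pos _)]
    linarith
  refine ⟨1 / 8, by norm_num, fun B => ?_⟩
  obtain ⟨C, hC, hsw⟩ := JS3_sw (B * u + 3 * B + 1)
  obtain ⟨κ1, hκ1⟩ := Filter.eventually_atTop.1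
    ((tendsto_pow_const_div_const_pow_of_one_lt (4 * B + 1) (by norm_num : (1 : ℝ) < 2)).eventually
      (gt_mem_nhds (by norm_num : (0 : ℝ) < 1 / 32)))
  obtain ⟨κ2, hκ2⟩ := exists_nat_ge (64 * C)
  refine ⟨κ1 + κ2 + 5, fun κ v fu p N1 m S X t1 t2 hκ hv hfu hp hpB hμB hX hN hm hS h1 h2 h3 => ?_⟩
  have hκ0 : (0 : ℝ) < κ := by exact_mod_cast (by omega : 0 < κ)
  have hκC : 64 * C ≤ κ := hκ2.trans (by exact_mod_cast (by omega : κ2 ≤ κ))
  have hκP : 32 * (κ : ℝ) ^ (4 * B + 1) ≤ 2 ^ κ := by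
    have := hκ1 κ (by omega)
    rw [div_lt_iff₀ (by positivity)] at this
    linarith
  have h2κ : (2 : ℝ) ^ κ = 2 * 2 ^ (κ - 1) := by
    rw [← pow_succ']
    congr 1
    omega
  have hp2 : (2 : ℝ) ≤ p := by exact_mod_cast hp
  have hμ : 1 ≤ v * fu := Nat.mul_pos hv hfu
  have hΦ : (0 : ℝ) < Nat.totient (v * fu) := by exact_mod_cast Nat.totient_pos.2 hμ
  have ht1 : 0 ≤ t1 := le_trans (by positivity) h1
  have ht12 : t1 ≤ t2 := by
    by_contra h
    have h4 : (0 : ℝ) < 2 ^ (κ - 1) := by positivity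
    have h5 : (0 : ℝ) < (κ : ℝ) ^ B := by positivity
    nlinarith
  have hD1 : (1 : ℝ) ≤ (p : ℝ) ^ u := one_le_pow₀ (by linarith)
  have hDB : (p : ℝ) ^ u ≤ (κ : ℝ) ^ (B * u) := by
    rw [pow_mul]
    exact pow_le_pow_left₀ (by linarith) (by exact_mod_cast hpB) u
  have hs := hsv ((Icc 1 ⌊t2⌋₊).filter fun q : ℕ =>
      q.Prime ∧ t1 < q ∧ ((v * fu : ℕ) : ℤ) ∣ N1 + q * m) (fun q => Real.log q)
    (fun r q => ((v * r : ℕ) : ℤ) ∣ N1 + q * m) S p ((p : ℝ) ^ u)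
    ((t2 - t1) / Nat.totient (v * fu)) (JS3g v)
    (fun _ => 2 * (C * 2 ^ κ / (κ : ℝ) ^ (B * u + 3 * B + 1))) hp2
    (by rw [← pow_mul]; exact le_self_pow₀ (by linarith) (by omega)) hD1
    (fun r hr => ⟨(hS r hr).1, by exact_mod_cast (hS r hr).2.1⟩)
    (JS3_dens fun r hr => ⟨(hS r hr).1, (hS r hr).2.2.2.imp_right And.left⟩)
    (fun q _ => Real.log_natCast_nonneg q) (div_nonneg (by linarith) hΦ.le) (by
      intro T hT hTD
      have hT1 : ∀ r ∈ T, r.Prime ∧ ¬ r ∣ fu := fun r hr => ⟨(hS r (hT hr)).1, (hS r (hT hr)).2.2.1⟩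
      have hM : 1 ≤ v * fu * pr T := Nat.mul_pos hμ (pr_pos fun r hr => (hT1 r hr).1)
      obtain ⟨c, hc, hq⟩ := JS3_class hM
        (JS3_cop hN fun r hr => ⟨(hT1 r hr).1, (hS r (hT hr)).2.2.2.imp_right fun h => h.2.1⟩)
        (JS3_cop hm fun r hr => ⟨(hT1 r hr).1, (hS r (hT hr)).2.2.2.imp_right fun h => h.2.2⟩)
      have hMj : v * fu * pr T ≤ κ ^ (B * u + 3 * B + 1) := by
        have h4 : pr T ≤ κ ^ (B * u) := by exact_mod_cast hTD.trans hDB
        refine (Nat.mul_le_mul hμB h4).trans ?_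
        rw [← pow_add]
        exact Nat.pow_le_pow_right (by omega) (by omega)
      have e1 : ((Icc 1 ⌊t2⌋₊).filter fun q : ℕ =>
          q.Prime ∧ t1 < q ∧ ((v * fu : ℕ) : ℤ) ∣ N1 + q * m).filter
            (fun q : ℕ => ∀ r ∈ T, ((v * r : ℕ) : ℤ) ∣ N1 + q * m) = (Icc 1 ⌊t2⌋₊).filter
            (fun q : ℕ => (q.Prime ∧ q ≡ c [MOD v * fu * pr T]) ∧ t1 < q) := by
        rw [filter_filter]
        refine filter_congr fun q _ => ?_
        rw [← hq, ← JS3_dvd_iff hv hT1]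
        tauto
      have e2 : (t2 - t1) / Nat.totient (v * fu) * ∏ r ∈ T, JS3g v r =
          t2 / Nat.totient (v * fu * pr T) - t1 / Nat.totient (v * fu * pr T) := by
        rw [div_eq_mul_one_div, mul_assoc, JS3_tot T hT1]
        ring
      have a1 := abs_le.1 (hsw κ t1 _ c (by omega) h1 (ht12.trans_lt h2) hM hMj hc)
      have a2 := abs_le.1 (hsw κ t2 _ c (by omega) (h1.trans ht12) h2 hM hMj hc)
      rw [e1, e2, JS3_th ht1 ht12, abs_le]
      constructor <;> linarith [a1.1, a1.2, a2.1, a2.2])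
  have hlog : -4 * Real.log ((p : ℝ) ^ u) / Real.log p = -4 * u := by
    have : Real.log p ≠ 0 := (Real.log_pos (by linarith)).ne'
    rw [Real.log_pow]
    field_simp
  rw [hlog, sum_const, nsmul_eq_mul] at hs
  have hcard := (level_card S (fun r hr => (hS r hr).1) _ hD1).1.trans hDB
  have hW := JS3_W (by omega : 1 ≤ p) fun r hr => ⟨(hS r hr).1, (hS r hr).2.1⟩
  have hhalf := JS3_half (v := v) (p := p) fun r hr =>
    ⟨(hS r hr).1, (hS r hr).2.1, (hS r hr).2.2.2.imp_right And.left⟩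
  have hΦB : (Nat.totient (v * fu) : ℝ) ≤ (κ : ℝ) ^ B := by
    exact_mod_cast (Nat.totient_le _).trans hμB
  have hpB' : (p : ℝ) ≤ (κ : ℝ) ^ B := by exact_mod_cast hpB
  have hE1 : 16 * ((κ : ℝ) ^ (B * u) * (2 * (C * 2 ^ κ / (κ : ℝ) ^ (B * u + 3 * B + 1)))) ≤
      (t2 - t1) / Nat.totient (v * fu) * ∏ r ∈ S, (1 - 1 / (r : ℝ)) := by
    refine JS3_num hκ0 (by positivity) hΦ (by linarith) hΦB hpB' hW h3 ?_
    have e : 16 * ((κ : ℝ) ^ (B * u) * (2 * (C * 2 ^ κ / (κ : ℝ) ^ (B * u + 3 * B + 1)))) *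
        (κ : ℝ) ^ (3 * B) = 64 * C / κ * 2 ^ (κ - 1) := by
      rw [h2κ]
      field_simp
      ring
    rw [e]
    exact mul_le_of_le_one_left (by positivity) ((div_le_one hκ0).2 hκC)
  have hE2 : 16 * ((κ : ℝ) ^ B * κ) ≤
      (t2 - t1) / Nat.totient (v * fu) * ∏ r ∈ S, (1 - 1 / (r : ℝ)) := by
    refine JS3_num hκ0 (by positivity) hΦ (by linarith) hΦB hpB' hW h3 ?_
    have e : (κ : ℝ) ^ (4 * B + 1) = (κ : ℝ) ^ B * κ * (κ : ℝ) ^ (3 * B) := by ring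
    rw [e, h2κ] at hκP
    linarith
  set A := ((Icc 1 ⌊t2⌋₊).filter fun q : ℕ =>
      q.Prime ∧ t1 < q ∧ ((v * fu : ℕ) : ℤ) ∣ N1 + q * m).filter
        (fun q : ℕ => ∀ r ∈ S, ¬ ((v * r : ℕ) : ℤ) ∣ N1 + q * m) with hA
  set F := (Box κ \ X).filter (fun q : ℕ => t1 < q ∧ (q : ℝ) ≤ t2 ∧
        ((v * fu : ℕ) : ℤ) ∣ N1 + q * m ∧ ∀ r ∈ S, ¬ ((v * r : ℕ) : ℤ) ∣ N1 + q * m) with hF
  have hq2 : ∀ q ∈ A, (q : ℝ) ≤ t2 := fun q hq =>
    (Nat.le_floor_iff (ht1.trans ht12)).1 (mem_Icc.1 (mem_filter.1 (mem_filter.1 hq).1).1).2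
  have hAF : A ⊆ F ∪ X := by
    intro q hq
    obtain ⟨h4, h5⟩ := mem_filter.1 hq
    obtain ⟨-, h6, h7, h8⟩ := mem_filter.1 h4
    by_cases hqX : q ∈ X
    · exact mem_union_right _ hqX
    refine mem_union_left _ (mem_filter.2 ⟨mem_sdiff.2 ⟨mem_Box.2 ⟨h6, le_antisymm
      ((kk_le_iff h6.ne_zero).2 ?_) ((le_kk_iff h6.ne_zero).2 ?_)⟩, hqX⟩, h7, hq2 q hq, h8, h5⟩)
    · exact_mod_cast (hq2 q hq).trans_lt h2
    · exact_mod_cast (h1.trans_lt h7).le
  have hcA : (A.card : ℝ) ≤ F.card + (κ : ℝ) ^ B := by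
    have := (card_le_card hAF).trans (card_union_le _ _)
    exact_mod_cast this.trans (Nat.add_le_add_left hX _)
  have hsum : ∑ q ∈ A, Real.log q ≤ A.card * κ := by
    rw [← nsmul_eq_mul]
    refine sum_le_card_nsmul _ _ _ fun q hq => ?_
    have h4 : (0 : ℝ) < q := ht1.trans_lt (mem_filter.1 (mem_filter.1 hq).1).2.2.1
    have h5 := Real.log_le_log h4 ((hq2 q hq).trans h2.le)
    have h6 := Real.log_two_lt_d9
    rw [Real.log_pow] at h5
    nlinarith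
  have hX0 : 0 ≤ (t2 - t1) / Nat.totient (v * fu) := div_nonneg (by linarith) hΦ.le
  have hR0 : 0 ≤ 2 * (C * 2 ^ κ / (κ : ℝ) ^ (B * u + 3 * B + 1)) := by positivity
  have b1 := mul_le_mul_of_nonneg_left hhalf hX0
  have b2 := mul_le_mul_of_nonneg_right hcard hR0
  have b0 : 0 ≤ (t2 - t1) / Nat.totient (v * fu) * ∏ r ∈ S, (1 - 1 / (r : ℝ)) :=
    le_trans (by positivity) hE2
  have b3 := mul_le_mul_of_nonneg_right hexp (by linarith :
    0 ≤ (t2 - t1) / Nat.totient (v * fu) * ∏ r ∈ S, (1 - JS3g v r))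
  have b4 := (abs_le.1 hs).1
  have b5 := mul_le_mul_of_nonneg_right hcA hκ0.le
  have e : 1 / 8 * (t2 - t1) / (κ * Nat.totient (v * fu)) * ∏ r ∈ S, (1 - 1 / (r : ℝ)) =
      1 / 8 * ((t2 - t1) / Nat.totient (v * fu) * ∏ r ∈ S, (1 - 1 / (r : ℝ))) / κ := by
    field_simp
  rw [e, div_le_iff₀ hκ0]
  linarith

end

end Pool.Agent.Jac
end

-- part Pool.Agent.P.MP_45ff98_nt.JS5
section

/-! Average of the virtual counts, positive range. -/

namespace Pool.Agent.Jac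
open Finset

noncomputable section

theorem js5_pow (B : ℕ) : ∃ κ0 : ℕ, ∀ κ, κ0 ≤ κ → κ ^ B < 2 ^ (κ - 1) := by
  have h := (tendsto_pow_const_div_const_pow_of_one_lt B (r := (2 : ℝ)) one_lt_two).eventually
    (gt_mem_nhds (show (0 : ℝ) < 1 / 2 by norm_num))
  obtain ⟨k, hk⟩ := Filter.eventually_atTop.1 h
  refine ⟨k + 1, fun κ hκ => ?_⟩
  obtain ⟨j, rfl⟩ : ∃ j, κ = j + 1 := ⟨κ - 1, by omega⟩
  have h1 := hk (j + 1) (by omega)
  rw [div_lt_iff₀ (by positivity), pow_succ (2 : ℝ)] at h1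
  have h2 : (((j + 1 : ℕ) : ℝ)) ^ B < 2 ^ j := by linarith
  rw [Nat.add_sub_cancel]
  exact_mod_cast h2

theorem js5_fac {r : ℕ} (hr : r.Prime) : 0 < 1 - 1 / (r : ℝ) ∧ 1 - 1 / (r : ℝ) ≤ 1 := by
  have h1 : (1 : ℝ) < r := by exact_mod_cast hr.one_lt
  have h2 : 1 / (r : ℝ) < 1 := (div_lt_one (by linarith)).2 h1
  have h3 : 0 ≤ 1 / (r : ℝ) := by positivity
  constructor <;> linarith

theorem js5_sub {S T : Finset ℕ} (h : S ⊆ T) (hT : ∀ r ∈ T, r.Prime) :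
    ∏ r ∈ T, (1 - 1 / (r : ℝ)) ≤ ∏ r ∈ S, (1 - 1 / (r : ℝ)) :=
  prod_le_prod_of_subset_of_le_one h (fun r hr => (js5_fac (hT r hr)).1.le)
    fun r hr _ => (js5_fac (hT r hr)).2

theorem js5_phi {n : ℕ} {S : Finset ℕ} (h : S ⊆ n.primeFactors) :
    (Nat.totient n : ℝ) ≤ n * ∏ r ∈ S, (1 - 1 / (r : ℝ)) := by
  have h1 := congrArg (fun x : ℚ => (x : ℝ)) (Nat.totient_eq_mul_prod_factors n)
  simp only [Rat.cast_natCast, Rat.cast_mul, Rat.cast_prod, Rat.cast_sub, Rat.cast_one,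
    Rat.cast_inv] at h1
  simp only [one_div] at *
  rw [h1]
  refine mul_le_mul_of_nonneg_left ?_ (Nat.cast_nonneg n)
  simpa only [one_div] using js5_sub h fun r hr => Nat.prime_of_mem_primeFactors hr

theorem js5_swap (Q M A : Finset ℕ) (R R' : ℕ → ℕ → Prop) [∀ a b, Decidable (R a b)]
    [∀ a b, Decidable (R' a b)] (g : ℕ → ℕ) (hg : Function.Injective g)
    (h : ∀ m ∈ M, ∀ q ∈ Q, R' m q → g m ∈ A ∧ R q (g m)) :
    ∑ m ∈ M, ((Q.filter (R' m)).card : ℝ) ≤ ∑ q ∈ Q, ((A.filter (R q)).card : ℝ) := by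
  have e : ∑ m ∈ M, ((Q.filter (R' m)).card : ℝ) =
      ∑ q ∈ Q, ((M.filter (fun m => R' m q)).card : ℝ) := by
    simp only [card_filter, Nat.cast_sum]
    exact sum_comm
  rw [e]
  refine sum_le_sum fun q hq => Nat.cast_le.2 (card_le_card_of_injOn g (fun m hm => ?_) hg.injOn)
  obtain ⟨h1, h2⟩ := mem_filter.1 (mem_coe.1 hm)
  exact mem_coe.2 (mem_filter.2 (h m h1 q hq h2))

/-- the arithmetic of the choice `m = fs W m2` -/
theorem js5_arith {v fs fu p W m2 : ℕ} {N1 : ℤ} (hv : 1 ≤ v) (hsq : Squarefree (fs * fu))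
    (hp : 3 ≤ p) (hmin : ∀ r : ℕ, r.Prime → r ∣ fs * fu → p ≤ r) (hN : IsCoprime N1 (v : ℤ))
    (hfs : fs = Nat.gcd (fs * fu) N1.natAbs)
    (hW : (W = 2 ∧ ¬ (2 : ℤ) ∣ N1 ∧ ¬ 2 ∣ v) ∨ (W = 1 ∧ ((2 : ℤ) ∣ N1 ∨ 2 ∣ v)))
    (h1 : ∀ r < p, r.Prime → ((r : ℤ) ∣ N1 ∨ r ∣ v) → ¬ r ∣ m2)
    (h2 : ∀ r ∈ (v * (fs * fu)).primeFactors, p ≤ r → ¬ r ∣ m2) :
    IsCoprime N1 ((v * fu : ℕ) : ℤ) ∧ IsCoprime ((fs * W * m2 : ℕ) : ℤ) ((v * fu : ℕ) : ℤ) ∧
    (∀ r < p, r.Prime → ¬ r ∣ fu ∧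
      (¬ r ∣ v → ¬ (r : ℤ) ∣ N1 → ¬ (r : ℤ) ∣ ((fs * W * m2 : ℕ) : ℤ) → 3 ≤ r)) ∧
    ∀ q : ℕ, q.Prime → p ≤ q →
      (((v * fu : ℕ) : ℤ) ∣ N1 + q * ((fs * W * m2 : ℕ) : ℤ) →
        ((v * (fs * fu) : ℕ) : ℤ) ∣ N1 + q * ((fs * W * m2 : ℕ) : ℤ)) ∧
      ∀ r < p, r.Prime → ¬ r ∣ v → ((r : ℤ) ∣ N1 ∨ (r : ℤ) ∣ ((fs * W * m2 : ℕ) : ℤ)) →
        ¬ ((v * r : ℕ) : ℤ) ∣ N1 + q * ((fs * W * m2 : ℕ) : ℤ) := by
  have c0 : fs.Coprime fu := Nat.coprime_of_squarefree_mul hsq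
  have c1 : N1.natAbs.Coprime v := by simpa using Int.isCoprime_iff_nat_coprime.1 hN
  have c2 : fs ∣ N1.natAbs := hfs ▸ Nat.gcd_dvd_right _ _
  have c3 : N1.natAbs.Coprime fu := Nat.coprime_of_dvd fun r hr a b => by
    have : r ∣ fs := hfs ▸ Nat.dvd_gcd (b.mul_left _) a
    exact hr.one_lt.ne' (Nat.eq_one_of_dvd_coprimes c0 this b)
  have c4 : N1.natAbs.Coprime (v * fu) := Nat.Coprime.mul_right c1 c3
  have c5 : fs.Coprime (v * fu) := c4.coprime_dvd_left c2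
  have hf0 : fs * fu ≠ 0 := hsq.ne_zero
  have c6 : W.Coprime (v * fu) := by
    rcases hW with ⟨rfl, -, a⟩ | ⟨rfl, -⟩
    · refine (Nat.Prime.coprime_iff_not_dvd Nat.prime_two).2 fun b => ?_
      rcases (Nat.Prime.dvd_mul Nat.prime_two).1 b with b | b
      · exact a b
      · have := hmin 2 Nat.prime_two (b.mul_left _)
        omega
    · exact Nat.coprime_one_left _
  have c7 : m2.Coprime (v * fu) := Nat.coprime_of_dvd fun r hr a b => by
    by_cases hrp : r < p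
    · rcases (Nat.Prime.dvd_mul hr).1 b with b | b
      · exact h1 r hrp hr (Or.inr b) a
      · have := hmin r hr (b.mul_left _)
        omega
    · refine h2 r (Nat.mem_primeFactors.2 ⟨hr, ?_, mul_ne_zero (by omega) hf0⟩) (by omega) a
      exact b.trans (Nat.mul_dvd_mul_left v (Dvd.intro_left fs rfl))
  refine ⟨Int.isCoprime_iff_nat_coprime.2 (by simpa only [Int.natAbs_natCast] using c4),
    Nat.isCoprime_iff_coprime.2 ((c5.mul_left c6).mul_left c7), fun r hr hpr => ⟨fun b => ?_,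
      fun a b c => ?_⟩, fun q hq hpq => ⟨fun a => ?_, fun r hr hpr a b c => ?_⟩⟩
  · have := hmin r hpr (b.mul_left _)
    omega
  · by_contra h3
    obtain rfl : r = 2 := by have := hpr.two_le; omega
    rcases hW with ⟨rfl, -⟩ | ⟨-, e | e⟩
    · exact c (Int.natCast_dvd_natCast.2 ((Dvd.intro_left fs rfl).mul_right _))
    · exact b e
    · exact a e
  · have e : ((v * (fs * fu) : ℕ) : ℤ) = (fs : ℤ) * ((v * fu : ℕ) : ℤ) := by push_cast; ring
    rw [e]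
    refine (Nat.isCoprime_iff_coprime.2 c5).mul_dvd ?_ a
    refine dvd_add (Int.natCast_dvd.2 c2) (Dvd.dvd.mul_left ?_ _)
    exact Int.natCast_dvd_natCast.2 ((Dvd.intro W rfl).mul_right _)
  · have c' : (r : ℤ) ∣ N1 + q * ((fs * W * m2 : ℕ) : ℤ) :=
      (Int.natCast_dvd_natCast.2 (Dvd.intro_left v rfl)).trans c
    have b' : (r : ℤ) ∣ N1 := b.elim id fun b => (dvd_add_left (b.mul_left _)).1 c'
    have d : r ∣ q * (fs * W * m2) := by
      have := (dvd_add_right b').1 c'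
      exact_mod_cast this
    rcases (Nat.Prime.dvd_mul hpr).1 d with d | d
    · have := (Nat.prime_dvd_prime_iff_eq hpr hq).1 d
      omega
    rcases (Nat.Prime.dvd_mul hpr).1 d with d | d
    · rcases (Nat.Prime.dvd_mul hpr).1 d with d | d
      · have := hmin r hpr (d.mul_right _)
        omega
      · rcases hW with ⟨rfl, e, -⟩ | ⟨rfl, -⟩
        · obtain rfl := (Nat.prime_dvd_prime_iff_eq hpr Nat.prime_two).1 d
          exact e b'
        · exact hpr.one_lt.ne' (Nat.dvd_one.1 d)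
    · exact h1 r hr hpr (Or.inl b') d

theorem js5_size {k : ℕ} {p Y : ℝ} (hk : 34 ≤ k) (hp0 : 0 ≤ p) (hp : p ≤ 2 ^ k) (hY : 0 ≤ Y)
    (h : 2 ^ (7 * k) ≤ (24 * Y) ^ 5) : p ^ 5 ≤ Y ^ 4 := by
  obtain ⟨j, rfl⟩ := Nat.exists_eq_add_of_le hk
  refine (pow_le_pow_left₀ hp0 hp 5).trans (le_of_pow_le_pow_left₀ (n := 5) (by norm_num)
    (by positivity) ?_)
  have h1 := pow_le_pow_left₀ (by positivity) h 4
  have h2 : ((24 * Y) ^ 5) ^ 4 = 24 ^ 20 * (Y ^ 4) ^ 5 := by ring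
  have h3 : ((2 : ℝ) ^ (7 * (34 + j))) ^ 4 =
      2 ^ 102 * (2 ^ j) ^ 3 * ((2 ^ (34 + j)) ^ 5) ^ 5 := by ring
  have h4 : (1 : ℝ) ≤ (2 ^ j) ^ 3 := one_le_pow₀ (one_le_pow₀ one_le_two)
  have h5 : (0 : ℝ) ≤ ((2 ^ (34 + j)) ^ 5) ^ 5 := by positivity
  rw [h2, h3] at h1
  generalize (((2 : ℝ) ^ (34 + j)) ^ 5) ^ 5 = a at *
  generalize ((2 : ℝ) ^ j) ^ 3 = b at *
  generalize (Y ^ 4) ^ 5 = c at *
  have h6 : (24 : ℝ) ^ 20 * a ≤ 2 ^ 102 * b * a :=
    mul_le_mul_of_nonneg_right (le_trans (by norm_num)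
      (le_mul_of_one_le_right (by positivity) h4)) h5
  exact le_of_mul_le_mul_left (h6.trans h1) (by positivity)

/-- the sizes attached to one value of `m2` -/
theorem js5_t {R h D P K Y m : ℝ} (hD : 0 < D) (hP : 0 < P) (hh : 0 ≤ h) (h1 : 10 * h ≤ R)
    (h2 : R ≤ K * h) (hY : Y * (3 / 2 * D * P) = R) (hY0 : 0 < Y) (m1 : Y < m)
    (m2 : m ≤ 11 / 10 * Y) :
    P ≤ R / (D * m) ∧ (R + h) / (D * m) < 2 * P ∧
      P ≤ ((R + h) / (D * m) - R / (D * m)) * K ∧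
      h / (D * (11 / 10 * Y)) ≤ (R + h) / (D * m) - R / (D * m) := by
  have m0 : 0 < m := hY0.trans m1
  have d0 : 0 < D * m := mul_pos hD m0
  have e : (R + h) / (D * m) - R / (D * m) = h / (D * m) := by ring
  have hDP : 0 < D * P := mul_pos hD hP
  have a1 : m * (D * P) ≤ 11 / 10 * Y * (D * P) := mul_le_mul_of_nonneg_right m2 hDP.le
  have a2 : Y * (D * P) < m * (D * P) := mul_lt_mul_of_pos_right m1 hDP
  have a3 : 0 < Y * (D * P) := mul_pos hY0 hDP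
  have a4 : P * (D * m) ≤ R := by nlinarith
  refine ⟨(le_div_iff₀ d0).2 a4, (div_lt_iff₀ d0).2 (by nlinarith), ?_, ?_⟩
  · rw [e, div_mul_eq_mul_div, le_div_iff₀ d0]
    linarith
  · rw [e]
    exact div_le_div_of_nonneg_left hh d0 (mul_le_mul_of_nonneg_left m2 hD.le)

theorem pos_lower : ∃ c : ℝ, 0 < c ∧ ∀ B : ℕ, ∃ κ0 : ℕ, ∀ (κ v f p d R1 h : ℕ) (N1 : ℤ)
    (X : Finset ℕ), κ0 ≤ κ → κ ≤ 2 ^ kk p → 1 ≤ v → 1 ≤ d → v ≤ κ ^ B → f ≤ κ ^ B →
    X.card ≤ κ ^ B → Squarefree f → p.Prime → p ∣ f → (∀ r : ℕ, r.Prime → r ∣ f → p ≤ r) →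
    IsCoprime N1 (v : ℤ) → 10 * h ≤ R1 → R1 ≤ κ ^ B * h →
    2 ^ (7 * kk p) * (d * 2 ^ (κ - 1) * f) ^ 5 ≤ (8 * R1) ^ 5 →
    c * h / ((v : ℝ) * d * f * kk p * κ) ≤
      ∑ q ∈ Box κ \ X, (((Icc 1 (R1 + h)).filter (fun m : ℕ => R1 < d * q * m ∧
        d * q * m ≤ R1 + h ∧ ((v * f : ℕ) : ℤ) ∣ N1 + q * m ∧
        ∀ r < p, r.Prime → ¬ ((v * r : ℕ) : ℤ) ∣ N1 + q * m)).card : ℝ) := by
  classical
  obtain ⟨c1, c1p, H1⟩ := m_count
  obtain ⟨c2, c2p, H2⟩ := prime_count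
  obtain ⟨c3, C3, c3p, -, H3⟩ := mertens_prod
  refine ⟨c1 * c2 * c3 / (11 / 5), by positivity, fun B => ?_⟩
  obtain ⟨k1, H1⟩ := H1 (2 * B)
  obtain ⟨k2, H2⟩ := H2 (2 * B)
  obtain ⟨k3, H4⟩ := js5_pow B
  refine ⟨2 ^ (k1 + 34) + k2 + k3, ?_⟩
  intro κ v f p d R1 h N1 X hκ hκp hv hd hvB hfB hXB hsq hp hpf hmin hN hh1 hh2 hbig
  have g1 : 2 ^ (k1 + 34) ≤ κ :=
    le_trans (le_trans (Nat.le_add_right _ _) (Nat.le_add_right _ _)) hκ
  have g2 : k2 ≤ κ := le_trans (le_trans (Nat.le_add_left _ _) (Nat.le_add_right _ _)) hκ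
  have g3 : k3 ≤ κ := le_trans (Nat.le_add_left _ _) hκ
  have hk : k1 + 34 ≤ kk p := (Nat.pow_le_pow_iff_right one_lt_two).1 (g1.trans hκp)
  have hκ1 : 1 ≤ κ := le_trans Nat.one_le_two_pow g1
  have hp3 : 3 ≤ p := by
    have h1 := two_pow_kk_le hp.ne_zero
    have h2 : 2 ^ 2 ≤ 2 ^ (kk p - 1) := Nat.pow_le_pow_right two_pos (by omega)
    omega
  have hf0 : 0 < f := Nat.pos_of_ne_zero hsq.ne_zero
  have hBB : κ ^ B ≤ κ ^ (2 * B) := Nat.pow_le_pow_right hκ1 (by omega)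
  have hpB : p ≤ κ ^ B := (Nat.le_of_dvd hf0 hpf).trans hfB
  have hvf : v * f ≤ κ ^ (2 * B) := by
    rw [two_mul, pow_add]; exact Nat.mul_le_mul hvB hfB
  obtain ⟨fs, fu, rfl, hfs⟩ : ∃ fs fu, f = fs * fu ∧ fs = Nat.gcd f N1.natAbs :=
    ⟨_, _, (Nat.mul_div_cancel' (Nat.gcd_dvd_left f N1.natAbs)).symm, rfl⟩
  have fs0 : 0 < fs := Nat.pos_of_mul_pos_right hf0
  have fu0 : 0 < fu := Nat.pos_of_mul_pos_left hf0
  obtain ⟨W, hW⟩ : ∃ W : ℕ, (W = 2 ∧ ¬ (2 : ℤ) ∣ N1 ∧ ¬ 2 ∣ v) ∨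
      (W = 1 ∧ ((2 : ℤ) ∣ N1 ∨ 2 ∣ v)) := by
    by_cases e : (2 : ℤ) ∣ N1 ∨ 2 ∣ v
    · exact ⟨1, Or.inr ⟨rfl, e⟩⟩
    · exact ⟨2, Or.inl ⟨rfl, not_or.1 e⟩⟩
  have W1 : 1 ≤ W ∧ W ≤ 2 := by omega
  have R0 : 0 < R1 := by
    refine Nat.pos_of_ne_zero fun e => ?_
    rw [e] at hbig
    have : 0 < 2 ^ (7 * kk p) * (d * 2 ^ (κ - 1) * (fs * fu)) ^ 5 := by positivity
    omega
  have rd : (0 : ℝ) < d := by exact_mod_cast hd
  have rv : (0 : ℝ) < v := by exact_mod_cast hv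
  have rs : (0 : ℝ) < fs := by exact_mod_cast fs0
  have ru : (1 : ℝ) ≤ fu := by exact_mod_cast fu0
  have rW : (1 : ℝ) ≤ W ∧ (W : ℝ) ≤ 2 := by exact_mod_cast W1
  have rR : (0 : ℝ) < R1 := by exact_mod_cast R0
  have rκ : (0 : ℝ) < κ := by exact_mod_cast hκ1
  have rk : (0 : ℝ) < kk p := by exact_mod_cast kk_pos p
  have rP : (0 : ℝ) < 2 ^ (κ - 1) := by positivity
  have rD : (0 : ℝ) < d * (fs * W) := by have := rW.1; positivity
  obtain ⟨Y, hY⟩ : ∃ Y : ℝ, Y * (3 / 2 * (d * (fs * W)) * 2 ^ (κ - 1)) = R1 :=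
    ⟨_, div_mul_cancel₀ _ (by positivity)⟩
  have Y0 : 0 < Y := (mul_pos_iff_of_pos_right (by positivity)).1 (hY ▸ rR)
  have hYp : (p : ℝ) ^ 5 ≤ Y ^ 4 := by
    refine js5_size (k := kk p) (by omega) (Nat.cast_nonneg p)
      (by exact_mod_cast (lt_two_pow_kk p).le) Y0.le ?_
    have b1 : (2 : ℝ) ^ (7 * kk p) * (d * 2 ^ (κ - 1) * (fs * fu)) ^ 5 ≤ (8 * R1) ^ 5 := by
      exact_mod_cast hbig
    have b2 : (8 : ℝ) * R1 ≤ 24 * Y * (d * 2 ^ (κ - 1) * (fs * fu)) := by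
      have b3 : (W : ℝ) ≤ 2 * fu := by linarith [rW.2]
      have b4 : 0 ≤ 12 * Y * (d * 2 ^ (κ - 1) * fs) := by positivity
      have b5 := mul_le_mul_of_nonneg_left b3 b4
      rw [← hY]
      linarith
    have b6 := b1.trans (pow_le_pow_left₀ (by positivity) b2 5)
    rw [mul_pow (24 * Y)] at b6
    exact le_of_mul_le_mul_right b6 (by positivity)
  set S1 := (PP 0 p).filter (fun r : ℕ => (r : ℤ) ∣ N1 ∨ r ∣ v) with hS1
  set S2 := (PP 0 p).filter (fun r : ℕ => r ∣ v ∨ ¬ (r : ℤ) ∣ N1) with hS2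
  set Sv := (PP 0 p).filter (fun r : ℕ => r ∣ v) with hSv
  have mP : ∀ r, r ∈ PP 0 p ↔ r < p ∧ r.Prime := fun r => by simp [mem_PP]
  have hM := H1 Y p (v * (fs * fu)) S1 (by omega) Y0.le hYp (Nat.mul_pos hv hf0)
    (hvf.trans ((Nat.pow_le_pow_left hκp _).trans_eq (by rw [← pow_mul, mul_comm])))
    fun r hr => ((mP r).1 (mem_filter.1 hr).1).symm
  set M := (Ioc ⌊Y⌋₊ ⌊11 / 10 * Y⌋₊).filter (fun m => (∀ r ∈ S1, ¬ r ∣ m) ∧
    ∀ r ∈ (v * (fs * fu)).primeFactors, p ≤ r → ¬ r ∣ m) with hMdef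
  have pos : ∀ S : Finset ℕ, S ⊆ PP 0 p → 0 < ∏ r ∈ S, (1 - 1 / (r : ℝ)) := fun S hS =>
    prod_pos fun r hr => (js5_fac ((mP r).1 (hS hr)).2).1
  have p1 := pos S1 (filter_subset _ _)
  have p2 := pos S2 (filter_subset _ _)
  have pv := pos Sv (filter_subset _ _)
  have hprod : (∏ r ∈ PP 0 p, (1 - 1 / (r : ℝ))) * ∏ r ∈ Sv, (1 - 1 / (r : ℝ)) =
      (∏ r ∈ S1, (1 - 1 / (r : ℝ))) * ∏ r ∈ S2, (1 - 1 / (r : ℝ)) := by
    have e1 : S1 ∪ S2 = PP 0 p := by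
      rw [hS1, hS2, ← filter_or]
      exact filter_true_of_mem fun r _ => by tauto
    have e2 : S1 ∩ S2 = Sv := by
      rw [hS1, hS2, ← filter_and]
      exact filter_congr fun r _ => by tauto
    rw [← e1, ← e2, prod_union_inter]
  have hphi : (Nat.totient (v * fu) : ℝ) ≤ (v * fu : ℕ) * ∏ r ∈ Sv, (1 - 1 / (r : ℝ)) :=
    js5_phi fun r hr => Nat.mem_primeFactors.2 ⟨((mP r).1 (mem_filter.1 hr).1).2,
      (mem_filter.1 hr).2.mul_right _, (Nat.mul_pos hv fu0).ne'⟩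
  have phi0 : (0 : ℝ) < Nat.totient (v * fu) := by
    exact_mod_cast Nat.totient_pos.2 (Nat.mul_pos hv fu0)
  have key : ∀ m ∈ M, (Y < m ∧ (m : ℝ) ≤ 11 / 10 * Y) ∧ _ := fun m hm => by
    obtain ⟨a1, a2, a3⟩ := mem_filter.1 hm
    obtain ⟨a4, a5⟩ := mem_Ioc.1 a1
    exact ⟨⟨Nat.lt_of_floor_lt a4, (Nat.le_floor_iff (by positivity)).1 a5⟩,
      js5_arith (m2 := m) hv hsq hp3 hmin hN hfs hW
        (fun r hr hpr e => a2 r (mem_filter.2 ⟨(mP r).2 ⟨hr, hpr⟩, e⟩)) a3⟩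
  have e2 : (2 : ℝ) * 2 ^ (κ - 1) = 2 ^ κ := by
    rw [← pow_succ', Nat.sub_add_cancel hκ1]
  refine le_trans ?_ (js5_swap (Box κ \ X) M _ _ (fun m q =>
    (R1 : ℝ) / (d * (fs * W) * m) < q ∧ (q : ℝ) ≤ (R1 + h) / (d * (fs * W) * m) ∧
      ((v * fu : ℕ) : ℤ) ∣ N1 + q * ((fs * W * m : ℕ) : ℤ) ∧
      ∀ r ∈ (PP 0 p).filter (fun r : ℕ => r ∣ v ∨
        (¬ (r : ℤ) ∣ N1 ∧ ¬ (r : ℤ) ∣ ((fs * W * m : ℕ) : ℤ))),
        ¬ ((v * r : ℕ) : ℤ) ∣ N1 + q * ((fs * W * m : ℕ) : ℤ)) (fun m => fs * W * m)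
    (mul_right_injective₀ (Nat.mul_pos fs0 W1.1).ne') ?_)
  · have one : ∀ m ∈ M, c2 * (h / (d * (fs * W) * (11 / 10 * Y))) / (κ * Nat.totient (v * fu)) *
        ∏ r ∈ S2, (1 - 1 / (r : ℝ)) ≤ _ := fun m hm => by
      obtain ⟨⟨m1, m2⟩, a1, a2, a3, -⟩ := key m hm
      obtain ⟨t1, t2, t3, t4⟩ := js5_t (K := (κ : ℝ) ^ (2 * B)) rD rP (Nat.cast_nonneg h)
        (by exact_mod_cast hh1) (by exact_mod_cast hh2.trans (Nat.mul_le_mul_right h hBB)) hY Y0
        m1 m2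
      refine le_trans ?_ (H2 κ v fu p N1 ((fs * W * m : ℕ) : ℤ)
        ((PP 0 p).filter (fun r : ℕ => r ∣ v ∨
          (¬ (r : ℤ) ∣ N1 ∧ ¬ (r : ℤ) ∣ ((fs * W * m : ℕ) : ℤ)))) X _ _ g2 hv fu0 hp.two_le
        (hpB.trans hBB) (le_trans (Nat.mul_le_mul_left v (Nat.le_mul_of_pos_left fu fs0)) hvf)
        (hXB.trans hBB) a1 a2 (fun r hr => ?_) t1 (e2 ▸ t2) t3)
      · refine mul_le_mul (div_le_div_of_nonneg_right (mul_le_mul_of_nonneg_left t4 c2p.le)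
          (by positivity)) (js5_sub (fun r hr => ?_) fun r hr => ((mP r).1 (mem_filter.1 hr).1).2)
          p2.le ?_
        · exact mem_filter.2 ⟨(mem_filter.1 hr).1, (mem_filter.1 hr).2.imp_right And.left⟩
        · have : 0 ≤ (h : ℝ) / (d * (fs * W) * (11 / 10 * Y)) := by positivity
          have := this.trans t4
          positivity
      · obtain ⟨b1, b2⟩ := mem_filter.1 hr
        obtain ⟨b3, b4⟩ := (mP r).1 b1
        refine ⟨b4, b3, (a3 r b3 b4).1, ?_⟩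
        by_cases e : r ∣ v
        · exact Or.inl e
        · obtain ⟨b5, b6⟩ := b2.resolve_left e
          exact Or.inr ⟨(a3 r b3 b4).2 e b5 b6, b5, b6⟩
    refine le_trans ?_ (sum_le_sum one)
    rw [sum_const, nsmul_eq_mul]
    refine le_trans ?_ (mul_le_mul_of_nonneg_right hM (by positivity))
    have m3 := (H3 p hp.two_le).1
    push_cast at hphi ⊢
    generalize (∏ r ∈ PP 0 p, (1 - 1 / (r : ℝ))) = a at *
    generalize (∏ r ∈ S1, (1 - 1 / (r : ℝ))) = a1 at *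
    generalize (∏ r ∈ S2, (1 - 1 / (r : ℝ))) = a2 at *
    generalize (∏ r ∈ Sv, (1 - 1 / (r : ℝ))) = av at *
    generalize (Nat.totient (v * fu) : ℝ) = φ at *
    have w0 : (0 : ℝ) < W := by linarith [rW.1]
    have e3 : c1 * Y * a1 * (c2 * (h / (d * (fs * W) * (11 / 10 * Y))) / (κ * φ) * a2) =
        c1 * c2 * h / (11 / 10 * d * fs * κ) * (a * av / (W * φ)) := by
      rw [hprod]; field_simp
    have e4 : c1 * c2 * c3 / (11 / 5) * h / (v * d * (fs * fu) * kk p * κ) =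
        c1 * c2 * h / (11 / 10 * d * fs * κ) * (c3 / kk p * av / (2 * (v * fu * av))) := by
      field_simp; ring
    rw [e3, e4]
    refine mul_le_mul_of_nonneg_left ?_ (by positivity)
    have a0 : 0 ≤ c3 / kk p := by positivity
    exact div_le_div₀ (mul_nonneg (a0.trans m3) pv.le) (mul_le_mul_of_nonneg_right m3 pv.le)
      (by positivity) (mul_le_mul rW.2 hphi phi0.le (by norm_num))
  · rintro m hm q hq ⟨b1, b2, b3, b4⟩
    obtain ⟨⟨m1, -⟩, -, -, -, a4⟩ := key m hm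
    obtain ⟨q1, q2⟩ := mem_Box.1 (mem_sdiff.1 hq).1
    have q3 : p ≤ q := by
      have h1 := two_pow_kk_le q1.ne_zero
      have h2 := H4 κ g3
      rw [q2] at h1
      omega
    have m0 : (0 : ℝ) < m := Y0.trans m1
    have m0' : 0 < m := by exact_mod_cast m0
    rw [div_lt_iff₀ (by positivity)] at b1
    rw [le_div_iff₀ (by positivity)] at b2
    have b5 : R1 < d * q * (fs * W * m) := by
      have : (R1 : ℝ) < d * q * (fs * W * m) := by linarith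
      exact_mod_cast this
    have b6 : d * q * (fs * W * m) ≤ R1 + h := by
      have : (d : ℝ) * q * (fs * W * m) ≤ R1 + h := by linarith
      exact_mod_cast this
    refine ⟨mem_Icc.2 ⟨Nat.mul_pos (Nat.mul_pos fs0 W1.1) m0',
      (Nat.le_mul_of_pos_left _ (Nat.mul_pos hd q1.pos)).trans b6⟩, b5, b6, (a4 q q1 q3).1 b3,
      fun r hr hpr => ?_⟩
    by_cases e : r ∣ v ∨ (¬ (r : ℤ) ∣ N1 ∧ ¬ (r : ℤ) ∣ ((fs * W * m : ℕ) : ℤ))
    · exact b4 r (mem_filter.2 ⟨(mP r).2 ⟨hr, hpr⟩, e⟩)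
    · exact (a4 q q1 q3).2 r hr hpr (fun c => e (Or.inl c))
        (by by_contra c; exact e (Or.inr (not_or.1 c)))

end

end Pool.Agent.Jac
end

-- part Pool.Agent.P.MP_45ff98_nt.JS6
section

/-! Average of the virtual counts. -/

namespace Pool.Agent.Jac
open Finset

noncomputable section

theorem JS6_card (v f p d q y R1 h : ℕ) (N1 R s : ℤ) (hs : s = 1 ∨ s = -1) (hd : 1 ≤ d)
    (hq : 1 ≤ q) (hc : IsCoprime ((d : ℤ) * N1) (v : ℤ))
    (hp : ∀ r : ℕ, r.Prime → r ∣ d → p ≤ r)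
    (hM : ∀ M : ℤ, (R1 : ℤ) < M → M ≤ R1 + h → R < s * M ∧ s * M ≤ R + v * y) :
    ((Icc 1 (R1 + h)).filter (fun m : ℕ => R1 < d * q * m ∧
        d * q * m ≤ R1 + h ∧ ((v * f : ℕ) : ℤ) ∣ s * N1 + q * m ∧
        ∀ r < p, r.Prime → ¬ ((v * r : ℕ) : ℤ) ∣ s * N1 + q * m)).card
      ≤ vc v (d * N1) R y (d * q) f p := by
  unfold vc
  have hn : (0 : ℤ) < ((d * q : ℕ) : ℤ) := by exact_mod_cast Nat.mul_pos hd hq
  have hss : s * s = 1 := by rcases hs with h | h <;> simp [h]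
  refine card_le_card_of_injOn (fun m : ℕ => s * (m : ℤ)) ?_ ?_
  · intro m hm
    obtain ⟨-, h1, h2, h3, h4⟩ := mem_filter.1 (mem_coe.1 hm)
    have e : (d : ℤ) * N1 + ((d * q : ℕ) : ℤ) * (s * m) = s * (d * (s * N1 + q * m)) := by
      push_cast
      linear_combination (-(d : ℤ) * N1) * hss
    obtain ⟨h5, h6⟩ := hM ((d * q * m : ℕ) : ℤ) (by exact_mod_cast h1) (by exact_mod_cast h2)
    have e2 : s * ((d * q * m : ℕ) : ℤ) = s * (m : ℤ) * ((d * q : ℕ) : ℤ) := by push_cast; ring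
    rw [e2] at h5 h6
    refine mem_coe.2 (mem_filter.2 ⟨mem_Ioc.2 ⟨(Int.ediv_lt_iff_lt_mul hn).2 h5,
      (Int.le_ediv_iff_mul_le hn).2 h6⟩, ?_, fun r hr hrp hdv => h4 r hr hrp ?_⟩)
    · rw [e]
      exact (h3.mul_left _).mul_left _
    · rw [e] at hdv
      have h7 : ((v * r : ℕ) : ℤ) ∣ d * (s * N1 + q * m) := by
        have := hdv.mul_left s
        rwa [← mul_assoc, hss, one_mul] at this
      have c1 : IsCoprime (v : ℤ) (d : ℤ) := hc.of_mul_left_left.symm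
      have c2 : IsCoprime (r : ℤ) (d : ℤ) := by
        rw [Nat.isCoprime_iff_coprime, hrp.coprime_iff_not_dvd]
        intro h8
        exact absurd (hp r hrp h8) (by omega)
      have c3 : IsCoprime ((v * r : ℕ) : ℤ) (d : ℤ) := by
        push_cast
        exact c1.mul_left c2
      exact c3.dvd_of_dvd_mul_left h7
  · intro a _ b _ hab
    have h0 : s ≠ 0 := by rcases hs with h | h <;> simp [h]
    exact_mod_cast mul_left_cancel₀ h0 hab

theorem JS6_choice (W K : ℕ) (R : ℤ) (hW : 80 ≤ W) (hK : 1 ≤ K) (hR : |R| ≤ ((K * W : ℕ) : ℤ)) :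
    ∃ (R1 : ℕ) (s : ℤ), (s = 1 ∨ s = -1) ∧ W ≤ 4 * R1 ∧ R1 ≤ K * W ∧
      ∀ M : ℤ, (R1 : ℤ) < M → M ≤ R1 + (W / 40 : ℕ) → R < s * M ∧ s * M ≤ R + W := by
  have h1 : W ≤ K * W := Nat.le_mul_of_pos_left _ hK
  obtain ⟨h2, h3⟩ := abs_le.1 hR
  generalize K * W = Z at h1 h2 h3
  by_cases h : -(W : ℤ) ≤ 2 * R
  · refine ⟨max R.toNat ((W + 3) / 4), 1, Or.inl rfl, by omega, by omega, fun M h4 h5 => ?_⟩
    omega
  · refine ⟨max (-R - W).toNat ((W + 3) / 4), -1, Or.inr rfl, by omega, by omega,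
      fun M h4 h5 => ?_⟩
    omega

theorem vc_lower : ∃ c : ℝ, 0 < c ∧ ∀ B : ℕ, ∃ κ0 : ℕ, ∀ (κ v f p d y T0 : ℕ) (Ns R : ℤ)
    (X : Finset ℕ), κ0 ≤ κ → κ ≤ 2 ^ kk p → 1 ≤ v → 1 ≤ d → v ≤ κ ^ B → f ≤ κ ^ B → T0 ≤ κ ^ B →
    X.card ≤ κ ^ B → Squarefree f → p.Prime → p ∣ f → (∀ r : ℕ, r.Prime → r ∣ f → p ≤ r) →
    IsCoprime Ns (v : ℤ) → (d : ℤ) ∣ Ns → (∀ r : ℕ, r.Prime → r ∣ d → p ≤ r) →
    |R| ≤ ((T0 * v * y : ℕ) : ℤ) → 2 ^ (7 * kk p) * (d * 2 ^ (κ - 1) * f) ^ 5 ≤ y ^ 5 →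
    c * y / ((d : ℝ) * f * kk p * κ) ≤ ∑ q ∈ Box κ \ X, (vc v Ns R y (d * q) f p : ℝ) := by
  obtain ⟨c, hc, H⟩ := pos_lower
  refine ⟨c / 80, by positivity, fun B => ?_⟩
  obtain ⟨κ0, H⟩ := H (B + 1)
  refine ⟨max κ0 80, ?_⟩
  intro κ v f p d y T0 Ns R X hκ hκp hv hd hvB hfB hTB hXB hsq hp hpf hfp hco hdN hdp hR hy
  have hκ0 : κ0 ≤ κ := (le_max_left _ _).trans hκ
  have hκ80 : 80 ≤ κ := (le_max_right _ _).trans hκ
  obtain ⟨N1, rfl⟩ := hdN
  have hf : 1 ≤ f := Nat.pos_of_ne_zero hsq.ne_zero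
  have hK : 1 ≤ κ ^ B := Nat.one_le_pow _ _ (by omega)
  have hBB : κ ^ B ≤ κ ^ (B + 1) := Nat.pow_le_pow_right (by omega) (by omega)
  have hy80 : 80 ≤ y := by
    have h1 : (d * 2 ^ (κ - 1) * f) ^ 5 ≤ y ^ 5 :=
      le_trans (Nat.le_mul_of_pos_left _ (by positivity)) hy
    have h2 : d * 2 ^ (κ - 1) * f ≤ y := (Nat.pow_le_pow_iff_left (by norm_num)).1 h1
    have h3 : 2 ^ 7 ≤ 2 ^ (κ - 1) := Nat.pow_le_pow_right (by norm_num) (by omega)
    have h4 : 2 ^ (κ - 1) ≤ d * 2 ^ (κ - 1) := Nat.le_mul_of_pos_left _ hd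
    have h5 : d * 2 ^ (κ - 1) ≤ d * 2 ^ (κ - 1) * f := Nat.le_mul_of_pos_right _ hf
    omega
  have hyW : y ≤ v * y := Nat.le_mul_of_pos_left _ hv
  have hR' : |R| ≤ ((κ ^ B * (v * y) : ℕ) : ℤ) := by
    refine hR.trans ?_
    rw [mul_assoc]
    exact_mod_cast Nat.mul_le_mul_right _ hTB
  obtain ⟨R1, s, hs, h1, h2, h3⟩ := JS6_choice (v * y) (κ ^ B) R (by omega) hK hR'
  have hh : v * y ≤ 80 * (v * y / 40) := by omega
  have hco' : IsCoprime (s * N1) (v : ℤ) := by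
    have := hco.of_mul_left_right
    rcases hs with h | h
    · simpa [h] using this
    · simpa [h] using this.neg_left
  have hR1 : R1 ≤ κ ^ (B + 1) * (v * y / 40) := by
    refine h2.trans ((Nat.mul_le_mul_left _ hh).trans ?_)
    rw [pow_succ, mul_assoc]
    exact Nat.mul_le_mul_left _ (Nat.mul_le_mul_right _ hκ80)
  have key := H κ v f p d R1 (v * y / 40) (s * N1) X hκ0 hκp hv hd (hvB.trans hBB) (hfB.trans hBB)
    (hXB.trans hBB) hsq hp hpf hfp hco' (by omega) hR1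
    (hy.trans (Nat.pow_le_pow_left (by omega) _))
  refine le_trans ?_ (key.trans (sum_le_sum fun q hq => ?_))
  · have hv' : (0 : ℝ) < v := by exact_mod_cast hv
    have hd' : (0 : ℝ) < d := by exact_mod_cast hd
    have hf' : (0 : ℝ) < f := by exact_mod_cast hf
    have hk' : (0 : ℝ) < kk p := by exact_mod_cast kk_pos p
    have hκ' : (0 : ℝ) < κ := by exact_mod_cast (by omega : 0 < κ)
    have hh' : (v : ℝ) * y ≤ 80 * ((v * y / 40 : ℕ) : ℝ) := by exact_mod_cast hh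
    have e : c / 80 * y / ((d : ℝ) * f * kk p * κ)
        = c * (v * y / 80) / ((v : ℝ) * d * f * kk p * κ) := by field_simp
    rw [e]
    refine div_le_div_of_nonneg_right (mul_le_mul_of_nonneg_left (by linarith) hc.le) ?_
    positivity
  · have hq1 : 1 ≤ q := (mem_Box.1 (mem_sdiff.1 hq).1).1.one_le
    exact_mod_cast JS6_card v f p d q y R1 (v * y / 40) N1 R s hs hd hq1 hco hdp
      (fun M h4 h5 => by exact_mod_cast h3 M h4 h5)

end

end Pool.Agent.Jac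
end

-- part Pool.Agent.P.MP_45ff98_nt.JV
section

/-! Virtual gains. -/

namespace Pool.Agent.Jac
open Finset

noncomputable section

theorem jv_cop {y : ℕ} {s : ℕ × ℤ} (hs : Fr y s) (N : ℤ) : IsCoprime (nf N s) (s.1 : ℤ) := by
  have h := hs.2.2.2.symm.neg_left.add_mul_left_left N
  have e : nf N s = -s.2 + (s.1 : ℤ) * N := by rw [nf]; ring
  rwa [e]

theorem jv_sqf {F : Finset ℕ} (h : ∀ p ∈ F, p.Prime) : Squarefree (pr F) := by
  induction F using Finset.induction_on with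
  | empty => simp [pr]
  | insert a F ha ih =>
    have h1 : ∀ p ∈ F, p.Prime := fun p hp => h p (mem_insert_of_mem hp)
    have h2 : a.Prime := h a (mem_insert_self a F)
    rw [pr_insert ha, Nat.squarefree_mul_iff]
    exact ⟨(Nat.Prime.coprime_iff_not_dvd h2).2 fun hd => ha ((prime_dvd_pr h1 h2).1 hd),
      h2.squarefree, ih h1⟩

theorem jv_phi (P : Par) (e t : ℕ) :
    phi P e t = ∑ F ∈ famW P e t, 1 / ((pr F : ℝ) * kk (mn F)) := rfl

theorem vg_true {P : Par} {y z t0 L om : ℕ} (h : Setup P y z t0 L) {T : Finset ℕ}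
    (hT : T ∈ NN P t0 z om) (N : ℤ) {s : ℕ × ℤ} (hs : Fr y s) (hd : (pr T : ℤ) ∣ nf N s) :
    vg P N y t0 s T ≤ gN P N y t0 T := by
  have hp : 0 < pr T := pr_pos fun p hp => ((NN_facts h hT).1 p hp).1
  unfold vg gN GA
  refine div_le_div_of_nonneg_right (sum_le_sum fun F hF => ?_) (Nat.cast_nonneg _)
  exact_mod_cast vc_true s.1 y (pr T) (pr F) (mn F) N s.2 hs.1 hp hs.2.2.2 hd
    (pair_facts h hT hF).2

theorem vg_upper : ∃ C : ℝ, 0 < C ∧ ∀ (P : Par) (N : ℤ) (y z t0 L om : ℕ) (T : Finset ℕ)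
    (s : ℕ × ℤ), Setup P y z t0 L → T ∈ NN P t0 z om → Fr y s →
    vg P N y t0 s T ≤ C * wN P t0 T := by
  obtain ⟨C, hC, H⟩ := vc_upper
  refine ⟨C, hC, fun P N y z t0 L om T s h hT hs => ?_⟩
  obtain ⟨h1, -, -, -, h5, -⟩ := NN_facts h hT
  have hpT : ∀ p ∈ T, p.Prime := fun p hp => (h1 p hp).1
  have hp : 0 < pr T := pr_pos hpT
  have hy : (0 : ℝ) < y := by exact_mod_cast (by omega : 0 < y)
  unfold vg wN
  rw [jv_phi, div_le_iff₀ hy, sum_div, mul_sum, sum_mul]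
  refine sum_le_sum fun F hF => ?_
  obtain ⟨g1, g2, -⟩ := fam_facts hF
  obtain ⟨k1, k2⟩ := pair_facts h hT hF
  have hpF : ∀ p ∈ F, p.Prime := fun p hp => (g2 p hp).1
  have hm := g2 _ (mn_mem g1)
  refine (H s.1 y (pr T) (pr F) (mn F) (nf N s) s.2 hs.1 hp (pr_pos hpF) hm.1.two_le (jv_cop hs N)
    k2 (fun r hr hd => ?_) ?_).trans (le_of_eq ?_)
  · rcases (Nat.Prime.dvd_mul hr).1 hd with hd | hd
    · exact (hm.2.1.trans_le (h1 r ((prime_dvd_pr hpT hr).1 hd)).2.1).le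
    · exact mn_le ((prime_dvd_pr hpF hr).1 hd)
  · refine (Nat.pow_le_pow_iff_left (by norm_num : 5 ≠ 0)).1 (le_trans ?_ k1)
    rw [mul_pow]
    refine Nat.mul_le_mul_right _ ((Nat.pow_le_pow_left (lt_two_pow_kk _).le 5).trans ?_)
    rw [← pow_mul]
    exact Nat.pow_le_pow_right (by norm_num) (by omega)
  · ring

theorem vg_lower : ∃ c : ℝ, 0 < c ∧ ∀ B : ℕ, ∃ κ0 : ℕ, ∀ (P : Par) (N : ℤ) (y z t0 L om T0 q : ℕ)
    (T : Finset ℕ) (s : ℕ × ℤ), Setup P y z t0 L → T ∈ NN P t0 z om → q ∈ T → Fr y s →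
    κ0 ≤ kk q → kk q ≤ 2 ^ P.kw → s.1 ≤ kk q ^ B → T0 ≤ kk q ^ B →
    2 ^ (P.CW * P.kW) ≤ kk q ^ B → om ≤ kk q ^ B → |s.2| ≤ ((T0 * s.1 * y : ℕ) : ℤ) →
    (∀ r ∈ T.erase q, (r : ℤ) ∣ nf N s) →
    c * ∑ q' ∈ Box (kk q) \ T.erase q, wN P t0 (insert q' (T.erase q)) ≤
      ∑ q' ∈ Box (kk q) \ T.erase q, vg P N y t0 s (insert q' (T.erase q)) := by
  obtain ⟨c, hc, H⟩ := vc_lower
  refine ⟨c / 2, half_pos hc, fun B => ?_⟩
  obtain ⟨κ0, H⟩ := H B
  refine ⟨κ0, fun P N y z t0 L om T0 q T s h hT hq hs a1 a2 a3 a4 a5 a6 a7 a8 => ?_⟩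
  obtain ⟨h1, -, h3, -, h5, -, h7⟩ := NN_facts h hT
  have hpT : ∀ p ∈ T, p.Prime := fun p hp => (h1 p hp).1
  have hpT' : ∀ p ∈ T.erase q, p.Prime := fun p hp => hpT p (mem_of_mem_erase hp)
  have hp : 0 < pr T := pr_pos hpT
  have hd : 0 < pr (T.erase q) := pr_pos hpT'
  have hy : (0 : ℝ) < y := by exact_mod_cast (by omega : 0 < y)
  have hd' : (0 : ℝ) < pr (T.erase q) := by exact_mod_cast hd
  have hκ : (0 : ℝ) < kk q := by exact_mod_cast kk_pos q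
  have hqn : q ∉ T.erase q := notMem_erase q T
  have eT : pr T = q * pr (T.erase q) := by rw [← pr_insert hqn, insert_erase hq]
  have ecard : ∀ q' ∈ Box (kk q) \ T.erase q, (insert q' (T.erase q)).card = T.card := by
    intro q' hq'
    rw [card_insert_of_notMem (mem_sdiff.1 hq').2, card_erase_add_one hq]
  have eks : ∀ q' ∈ Box (kk q) \ T.erase q, ks (insert q' (T.erase q)) = ks T := by
    intro q' hq'
    rw [ks_insert (mem_sdiff.1 hq').2, (mem_Box.1 (mem_sdiff.1 hq').1).2, ← ks_insert hqn,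
      insert_erase hq]
  have hφ := (phi_le P T.card (t0 - ks T)).1
  have hk0 : P.k0 ≤ kk q := by
    have := (h1 q hq).2.2.1
    have := h.kw
    have := h.k1
    have := h.kW
    omega
  have e1 : ∑ q' ∈ Box (kk q) \ T.erase q, wN P t0 (insert q' (T.erase q)) ≤
      phi P T.card (t0 - ks T) / pr (T.erase q) * (2 / kk q) := by
    calc _ = ∑ q' ∈ Box (kk q) \ T.erase q,
          phi P T.card (t0 - ks T) / pr (T.erase q) * (1 / (q' : ℝ)) := by
          refine sum_congr rfl fun q' hq' => ?_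
          rw [wN, ecard q' hq', eks q' hq', pr_insert (mem_sdiff.1 hq').2]
          push_cast
          ring
      _ ≤ _ := by
          rw [← mul_sum]
          refine mul_le_mul_of_nonneg_left ?_ (div_nonneg hφ hd'.le)
          refine (sum_le_sum_of_subset_of_nonneg sdiff_subset fun _ _ _ => by positivity).trans
            ((h.hB _ hk0).2.trans ?_)
          exact div_le_div_of_nonneg_right (by norm_num) hκ.le
  have e2 : ∑ q' ∈ Box (kk q) \ T.erase q, vg P N y t0 s (insert q' (T.erase q)) =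
      (∑ F ∈ famW P T.card (t0 - ks T), ∑ q' ∈ Box (kk q) \ T.erase q,
        (vc s.1 (nf N s) s.2 y (pr (T.erase q) * q') (pr F) (mn F) : ℝ)) / y := by
    rw [sum_comm, sum_div]
    refine sum_congr rfl fun q' hq' => ?_
    rw [vg, ecard q' hq', eks q' hq', pr_insert (mem_sdiff.1 hq').2, mul_comm q']
  rw [e2, le_div_iff₀ hy]
  refine (mul_le_mul_of_nonneg_right (mul_le_mul_of_nonneg_left e1 (half_pos hc).le)
    hy.le).trans ?_
  rw [jv_phi, sum_div, sum_mul, mul_sum, sum_mul]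
  refine sum_le_sum fun F hF => ?_
  obtain ⟨g1, g2, g3, -, g5, -⟩ := fam_facts hF
  obtain ⟨k1, -⟩ := pair_facts h hT hF
  have hpF : ∀ p ∈ F, p.Prime := fun p hp => (g2 p hp).1
  have hm := g2 _ (mn_mem g1)
  refine le_trans (le_of_eq ?_) (H (kk q) s.1 (pr F) (mn F) (pr (T.erase q)) y T0 (nf N s) s.2
    (T.erase q) a1 (a2.trans (Nat.pow_le_pow_right (by norm_num) g3)) hs.1 hd a3
    (g5.trans ((Nat.pow_le_pow_right (by norm_num) h3).trans a5)) a4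
    (card_erase_le.trans (h7.trans a6)) (jv_sqf hpF) hm.1
    ((prime_dvd_pr hpF hm.1).2 (mn_mem g1))
    (fun r hr hd => mn_le ((prime_dvd_pr hpF hr).1 hd)) (jv_cop hs N)
    ((pr_dvd_iff hpT' _).2 a8) (fun r hr hd => ?_) a7 (le_trans ?_ k1))
  · ring
  · exact (hm.2.1.trans_le (h1 r (mem_of_mem_erase ((prime_dvd_pr hpT' hr).1 hd))).2.1).le
  · refine Nat.mul_le_mul_left _ (Nat.pow_le_pow_left (Nat.mul_le_mul_right _ ?_) 5)
    rw [eT, mul_comm]
    exact Nat.mul_le_mul_right _ (two_pow_kk_le (hpT q hq).ne_zero)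

end

end Pool.Agent.Jac
end

-- part Pool.Agent.P.MP_45ff98_nt.JFib
section

/-! The fibre lemma. -/

namespace Pool.Agent.Jac
open Finset

noncomputable section

theorem JFib_avg (A : Finset (Finset ℕ)) (win : ℕ → Prop) [DecidablePred win] (G : Finset ℕ → ℝ)
    (hprime : ∀ T ∈ A, ∀ q ∈ T, q.Prime) (hne : ∀ T ∈ A, ∃ q ∈ T, win (kk q))
    (hinv : ∀ T ∈ A, ∀ q ∈ T, win (kk q) → ∀ q' ∈ Box (kk q), q' ∉ T.erase q →
      insert q' (T.erase q) ∈ A)
    (h : ∀ T ∈ A, ∀ q ∈ T, win (kk q) →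
      0 ≤ ∑ q' ∈ Box (kk q) \ T.erase q, G (insert q' (T.erase q))) : 0 ≤ ∑ T ∈ A, G T := by
  have e : ∑ T ∈ A, G T = ∑ p ∈ A.sigma (fun T => T.filter fun q => win (kk q)),
      G p.1 / ((((p.1.erase p.2).filter fun q => win (kk q)).card : ℝ) + 1) := by
    rw [sum_sigma]
    refine sum_congr rfl fun T hT => ?_
    obtain ⟨q0, h0, h1⟩ := hne T hT
    have h2 : (0 : ℝ) < ((T.filter fun q => win (kk q)).card : ℝ) := by
      exact_mod_cast card_pos.2 ⟨q0, mem_filter.2 ⟨h0, h1⟩⟩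
    have h3 : ∀ q ∈ T.filter fun q => win (kk q),
        G T / ((((T.erase q).filter fun q => win (kk q)).card : ℝ) + 1) =
          G T / ((T.filter fun q => win (kk q)).card : ℝ) := fun q hq => by
      rw [filter_erase, ← card_erase_add_one hq]
      push_cast
      rfl
    rw [sum_congr rfl h3, sum_const, nsmul_eq_mul, mul_div_cancel₀ _ h2.ne']
  rw [e, ← sum_fiberwise_of_maps_to (g := fun p : Σ _ : Finset ℕ, ℕ => (p.1.erase p.2, kk p.2))
    (fun p hp => mem_image_of_mem _ hp)]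
  refine sum_nonneg fun j hj => ?_
  obtain ⟨⟨T, q⟩, hp, rfl⟩ := mem_image.1 hj
  obtain ⟨hT, hq⟩ := mem_sigma.1 hp
  obtain ⟨hq, hw⟩ := mem_filter.1 hq
  dsimp only at hT hq hw ⊢
  refine (div_nonneg (h T hT q hq hw)
    (b := ((((T.erase q).filter fun q => win (kk q)).card : ℝ) + 1)) (by positivity)).trans_eq ?_
  rw [sum_div]
  symm
  refine sum_nbij' (fun p => p.2) (fun q' => ⟨insert q' (T.erase q), q'⟩) ?_ ?_ ?_ ?_ ?_
  · rintro ⟨T', q'⟩ hp'
    obtain ⟨h1, h2⟩ := mem_filter.1 hp'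
    obtain ⟨h3, h4⟩ := mem_sigma.1 h1
    obtain ⟨h5, h6⟩ := Prod.mk.inj h2
    refine mem_sdiff.2 ⟨mem_Box.2 ⟨hprime _ h3 _ (mem_filter.1 h4).1, h6⟩, ?_⟩
    rw [← h5]
    exact notMem_erase _ _
  · intro q' hq'
    obtain ⟨h1, h2⟩ := mem_sdiff.1 hq'
    have h3 := (mem_Box.1 h1).2
    refine mem_filter.2 ⟨mem_sigma.2 ⟨hinv T hT q hq hw q' h1 h2,
      mem_filter.2 ⟨mem_insert_self _ _, h3 ▸ hw⟩⟩, ?_⟩
    dsimp only
    rw [erase_insert h2, h3]
  · rintro ⟨T', q'⟩ hp'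
    obtain ⟨h1, h2⟩ := mem_filter.1 hp'
    obtain ⟨h3, h4⟩ := mem_sigma.1 h1
    obtain ⟨h5, h6⟩ := Prod.mk.inj h2
    dsimp only at h3 h4 h5 ⊢
    rw [← h5, insert_erase (mem_filter.1 h4).1]
  · intro q' _
    rfl
  · rintro ⟨T', q'⟩ hp'
    obtain ⟨h1, h2⟩ := mem_filter.1 hp'
    obtain ⟨h3, h4⟩ := mem_sigma.1 h1
    obtain ⟨h5, h6⟩ := Prod.mk.inj h2
    dsimp only at h3 h4 h5 ⊢
    rw [← h5, insert_erase (mem_filter.1 h4).1]

theorem JFib_win {lo : ℕ → ℕ} (hlo : Monotone lo) {k k' x : ℕ} (h : lo k ≤ x ∧ x < lo (k + 1))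
    (h' : lo k' ≤ x ∧ x < lo (k' + 1)) : k = k' := by
  rcases lt_trichotomy k k' with e | e | e
  · have := hlo (show k + 1 ≤ k' from e)
    omega
  · exact e
  · have := hlo (show k' + 1 ≤ k from e)
    omega

/-- the exceptional sets of window `k` -/
def JFibE {ι : Type} (Col : ι → ℕ → Prop) (lo : ℕ → ℕ) (k : ℕ) (T : Finset ℕ) : Prop :=
  ∃ q ∈ T, (lo k ≤ kk q ∧ kk q < lo (k + 1)) ∧ ∃ i, (∀ r ∈ T.erase q, Col i r) ∧ ¬ Col i q

theorem JFib_disj {ι : Type} {Col : ι → ℕ → Prop} {K0 : ℕ} {lo : ℕ → ℕ} (hK : 3 ≤ K0)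
    (hlo : Monotone lo) (huniq : ∀ i i' r, Col i r → Col i' r → i = i') {T : Finset ℕ}
    (hwin : ∀ k < K0, ∃ q ∈ T, lo k ≤ kk q ∧ kk q < lo (k + 1)) {k k' : ℕ}
    (h : JFibE Col lo k T) (h' : JFibE Col lo k' T) : k = k' := by
  by_contra hne
  obtain ⟨q, hq, hw, i, h1, h2⟩ := h
  obtain ⟨q', hq', hw', i', h1', h2'⟩ := h'
  obtain ⟨m, hm, m1, m2⟩ : ∃ m < K0, m ≠ k ∧ m ≠ k' := by
    by_cases a0 : 0 ≠ k ∧ 0 ≠ k'
    · exact ⟨0, by omega, a0⟩
    by_cases a1 : 1 ≠ k ∧ 1 ≠ k'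
    · exact ⟨1, by omega, a1⟩
    exact ⟨2, by omega, by omega⟩
  obtain ⟨r, hr, hwr⟩ := hwin m hm
  have e1 : r ≠ q := fun e => m1 (JFib_win hlo hwr (e ▸ hw))
  have e2 : r ≠ q' := fun e => m2 (JFib_win hlo hwr (e ▸ hw'))
  have e3 : q' ≠ q := fun e => hne (JFib_win hlo hw (e ▸ hw'))
  have e4 := huniq _ _ _ (h1 r (mem_erase.2 ⟨e1, hr⟩)) (h1' r (mem_erase.2 ⟨e2, hr⟩))
  exact h2' (e4 ▸ h1 q' (mem_erase.2 ⟨e3, hq'⟩))

open Classical in
theorem fibre {ι : Type} (A : Finset (Finset ℕ)) (w g : Finset ℕ → ℝ) (Col : ι → ℕ → Prop)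
    (K0 : ℕ) (lo : ℕ → ℕ) (cS CU : ℝ) (vg : ι → Finset ℕ → ℝ) (hK : 3 ≤ K0) (hlo : Monotone lo)
    (hS : 0 ≤ cS) (hU : 0 ≤ CU) (hw : ∀ T, 0 ≤ w T) (hg : ∀ T, 0 ≤ g T)
    (huniq : ∀ i i' r, Col i r → Col i' r → i = i') (hprime : ∀ T ∈ A, ∀ q ∈ T, q.Prime)
    (hwin : ∀ T ∈ A, ∀ k < K0, ∃ q ∈ T, lo k ≤ kk q ∧ kk q < lo (k + 1))
    (hinv : ∀ T ∈ A, ∀ q ∈ T, lo 0 ≤ kk q → kk q < lo K0 → ∀ q' ∈ Box (kk q), q' ∉ T.erase q →
      insert q' (T.erase q) ∈ A)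
    (htrue : ∀ T ∈ A, ∀ i, (∀ r ∈ T, Col i r) → vg i T ≤ g T)
    (hup : ∀ T ∈ A, ∀ i, (∃ r, Col i r) → vg i T ≤ CU * w T)
    (hlow : ∀ T ∈ A, ∀ i, ∀ q ∈ T, lo 0 ≤ kk q → kk q < lo K0 → (∃ r, Col i r) →
      (∀ r ∈ T.erase q, Col i r) →
      cS * ∑ q' ∈ Box (kk q) \ T.erase q, w (insert q' (T.erase q)) ≤
        ∑ q' ∈ Box (kk q) \ T.erase q, vg i (insert q' (T.erase q))) :
    cS * ∑ T ∈ A.filter (fun T => ∃ i, ∀ r ∈ T, Col i r), w T - CU / K0 * ∑ T ∈ A, w T ≤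
      ∑ T ∈ A, g T := by
  have hK0 : (0 : ℝ) < K0 := by exact_mod_cast (show 0 < K0 by omega)
  have h1 : ∑ k ∈ range K0, ∑ T ∈ A, (if JFibE Col lo k T then w T else 0) ≤
      ∑ k ∈ range K0, (∑ T ∈ A, w T) / K0 := by
    rw [sum_const, card_range, nsmul_eq_mul, mul_div_cancel₀ _ hK0.ne', sum_comm]
    refine sum_le_sum fun T hT => ?_
    rw [← sum_filter, sum_const, nsmul_eq_mul]
    have h2 : ((range K0).filter fun k => JFibE Col lo k T).card ≤ 1 :=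
      card_le_one.2 fun k hk k' hk' =>
        JFib_disj hK hlo huniq (hwin T hT) (mem_filter.1 hk).2 (mem_filter.1 hk').2
    exact mul_le_of_le_one_left (hw T) (by exact_mod_cast h2)
  obtain ⟨k, hk, h2⟩ := exists_le_of_sum_le ⟨0, mem_range.2 (by omega)⟩ h1
  have hk' := mem_range.1 hk
  have w0 : ∀ {x}, lo k ≤ x ∧ x < lo (k + 1) → lo 0 ≤ x ∧ x < lo K0 := fun h =>
    ⟨(hlo (Nat.zero_le k)).trans h.1, h.2.trans_le (hlo hk')⟩
  have h3 := JFib_avg A (fun x => lo k ≤ x ∧ x < lo (k + 1))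
    (fun T => g T - cS * (if ∃ i, ∀ r ∈ T, Col i r then w T else 0) +
      CU * (if JFibE Col lo k T then w T else 0)) hprime (fun T hT => hwin T hT k hk')
    (fun T hT q hq h => hinv T hT q hq (w0 h).1 (w0 h).2) fun T hT q hq h => by
      have p1 : ∀ T', 0 ≤ CU * (if JFibE Col lo k T' then w T' else 0) := fun T' =>
        mul_nonneg hU (by split_ifs; exacts [hw _, le_rfl])
      by_cases hp : ∃ i, ∀ r ∈ T.erase q, Col i r
      · obtain ⟨i, hi⟩ := hp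
        obtain ⟨m, hm, m1⟩ : ∃ m < K0, m ≠ k := by
          by_cases a0 : 0 ≠ k
          · exact ⟨0, by omega, a0⟩
          · exact ⟨1, by omega, by omega⟩
        obtain ⟨r, hr, hwr⟩ := hwin T hT m hm
        have hc : ∃ r, Col i r :=
          ⟨r, hi r (mem_erase.2 ⟨fun e => m1 (JFib_win hlo hwr (e ▸ h)), hr⟩)⟩
        have h4 := hlow T hT i q hq (w0 h).1 (w0 h).2 hc hi
        rw [mul_sum, ← sub_nonneg, ← sum_sub_distrib] at h4
        refine h4.trans (sum_le_sum fun q' hq' => ?_)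
        obtain ⟨b1, b2⟩ := mem_sdiff.1 hq'
        have b3 := hinv T hT q hq (w0 h).1 (w0 h).2 q' b1 b2
        have b4 : cS * (if ∃ i, ∀ r ∈ insert q' (T.erase q), Col i r then
            w (insert q' (T.erase q)) else 0) ≤ cS * w (insert q' (T.erase q)) :=
          mul_le_mul_of_nonneg_left (by split_ifs; exacts [le_rfl, hw _]) hS
        by_cases b5 : Col i q'
        · have b6 := htrue _ b3 i fun r hr => (mem_insert.1 hr).elim (fun e => e ▸ b5) (hi r)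
          have b7 := p1 (insert q' (T.erase q))
          linarith
        · have b6 := hup _ b3 i hc
          have b7 : JFibE Col lo k (insert q' (T.erase q)) :=
            ⟨q', mem_insert_self _ _, (mem_Box.1 b1).2 ▸ h, i, by rwa [erase_insert b2], b5⟩
          have b8 := hg (insert q' (T.erase q))
          rw [if_pos b7]
          linarith
      · refine sum_nonneg fun q' _ => ?_
        rw [if_neg fun ⟨i, hi⟩ => hp ⟨i, fun r hr => hi r (mem_insert_of_mem hr)⟩]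
        have b7 := p1 (insert q' (T.erase q))
        have b8 := hg (insert q' (T.erase q))
        linarith
  rw [sum_add_distrib, sum_sub_distrib, ← mul_sum, ← mul_sum] at h3
  have h5 := mul_le_mul_of_nonneg_left h2 hU
  rw [sum_filter, div_mul_eq_mul_div, mul_div_assoc]
  linarith

end

end Pool.Agent.Jac
end

-- part Pool.Agent.P.MP_45ff98_nt.JNear
section

/-! The gain in the structured case. -/

namespace Pool.Agent.Jac
open Finset

noncomputable section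

theorem JNear_w0 (P : Par) (t0 : ℕ) (T : Finset ℕ) : 0 ≤ wN P t0 T :=
  div_nonneg (phi_le P _ _).1 (Nat.cast_nonneg _)

theorem JNear_g0 (P : Par) (N : ℤ) (y t0 : ℕ) (T : Finset ℕ) : 0 ≤ gN P N y t0 T :=
  div_nonneg (sum_nonneg fun _ _ => Nat.cast_nonneg _) (Nat.cast_nonneg _)

/-- the colour of a prime: the unique fraction of the family attached to it -/
def JNear_col (N : ℤ) (S : Finset (ℕ × ℤ)) (s : ℕ × ℤ) (r : ℕ) : Prop :=
  s ∈ S ∧ (r : ℤ) ∣ nf N s ∧ ∀ s' ∈ S, (r : ℤ) ∣ nf N s' → s' = s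

/-- primes shared by two different fractions -/
def JNear_sh (N : ℤ) (z : ℕ) (S : Finset (ℕ × ℤ)) : Finset ℕ :=
  ((S ×ˢ S).filter (fun p => p.1 ≠ p.2)).biUnion
    (fun p => (PP 0 z).filter (fun r : ℕ => (r : ℤ) ∣ nf N p.1 ∧ (r : ℤ) ∣ nf N p.2))

theorem JNear_sh_card (N : ℤ) {y L : ℕ} (z : ℕ) (hy : y ≤ 2 ^ L) (hL : 1 ≤ L)
    {S : Finset (ℕ × ℤ)} (hS : ∀ s ∈ S, Fr y s) :
    (JNear_sh N z S).card ≤ S.card ^ 2 * (5 * L) := by
  refine (card_biUnion_le_card_mul _ _ (5 * L) fun p hp => ?_).trans ?_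
  · obtain ⟨h1, h2⟩ := mem_filter.1 hp
    obtain ⟨h3, h4⟩ := mem_product.1 h1
    refine frac_share N y L hy hL p.1 p.2 h2 (hS _ h3) (hS _ h4) _ fun r hr => ?_
    obtain ⟨h5, h6⟩ := mem_filter.1 hr
    exact ⟨(mem_PP.1 h5).2.1, h6⟩
  · refine Nat.mul_le_mul_right _ ((card_filter_le _ _).trans (le_of_eq ?_))
    rw [card_product, sq]

open Classical in
theorem JNear_split {P : Par} {y z t0 L om : ℕ} (h : Setup P y z t0 L) (N : ℤ)
    {S : Finset (ℕ × ℤ)} (hS : ∀ s ∈ S, Fr y s) :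
    ∑ T ∈ (NN P t0 z om).filter (fun T => ∃ s ∈ S, (pr T : ℤ) ∣ nf N s), wN P t0 T ≤
      ∑ T ∈ (NN P t0 z om).filter (fun T => ∃ i, ∀ r ∈ T, JNear_col N S i r), wN P t0 T +
        10 * (L : ℝ) ^ 2 * (1 + (P.CW * P.kW : ℕ)) * (S.card : ℝ) ^ 2 / 2 ^ (P.kW - 1) := by
  have hw : ∀ T ∈ NN P t0 z om, wN P t0 T ≤ (1 + (P.CW * P.kW : ℕ)) * (1 / (pr T : ℝ)) := by
    intro T hT
    have h1 := (phi_le P T.card (t0 - ks T)).2
    have h2 : ((t0 - ks T : ℕ) : ℝ) ≤ (P.CW * P.kW : ℕ) := by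
      exact_mod_cast (NN_facts h hT).2.2.1
    rw [wN, mul_one_div]
    exact div_le_div_of_nonneg_right (by linarith) (Nat.cast_nonneg _)
  have hr : ∀ r ∈ JNear_sh N z S, ∑ T ∈ (NN P t0 z om).filter (fun T => r ∈ T), wN P t0 T ≤
      (1 + (P.CW * P.kW : ℕ)) * (2 * L / 2 ^ (P.kW - 1)) := by
    intro r _
    refine (sum_le_sum fun T hT => hw T (mem_filter.1 hT).1).trans ?_
    rw [← mul_sum]
    exact mul_le_mul_of_nonneg_left (NN_mass_prime h r) (by positivity)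
  have hsum : ∑ r ∈ JNear_sh N z S, ∑ T ∈ (NN P t0 z om).filter (fun T => r ∈ T), wN P t0 T ≤
      10 * (L : ℝ) ^ 2 * (1 + (P.CW * P.kW : ℕ)) * (S.card : ℝ) ^ 2 / 2 ^ (P.kW - 1) := by
    refine (sum_le_card_nsmul _ _ _ hr).trans ?_
    rw [nsmul_eq_mul]
    have hc : ((JNear_sh N z S).card : ℝ) ≤ (S.card : ℝ) ^ 2 * (5 * L) := by
      exact_mod_cast JNear_sh_card N z h.yL h.L1 hS
    refine (mul_le_mul_of_nonneg_right hc (by positivity)).trans (le_of_eq ?_)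
    ring
  refine le_trans ?_ (add_le_add le_rfl hsum)
  have hswap : ∑ r ∈ JNear_sh N z S, ∑ T ∈ (NN P t0 z om).filter (fun T => r ∈ T), wN P t0 T =
      ∑ T ∈ NN P t0 z om, ∑ r ∈ JNear_sh N z S, if r ∈ T then wN P t0 T else 0 := by
    rw [sum_comm]
    exact sum_congr rfl fun r _ => sum_filter _ _
  rw [hswap, sum_filter, sum_filter, ← sum_add_distrib]
  refine sum_le_sum fun T hT => ?_
  have h0 : 0 ≤ ∑ r ∈ JNear_sh N z S, if r ∈ T then wN P t0 T else 0 :=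
    sum_nonneg fun r _ => by split_ifs; exacts [JNear_w0 P t0 T, le_rfl]
  have hp := (NN_facts h hT).1
  split_ifs with h1 h2 h2
  · linarith
  · obtain ⟨s, hs, hd⟩ := h1
    have hd' := (pr_dvd_iff (fun p hq => (hp p hq).1) _).1 hd
    have h3 : ∃ r ∈ T, r ∈ JNear_sh N z S := by
      by_contra hc
      refine h2 ⟨s, fun r hr => ⟨hs, hd' r hr, fun s' hs' hd2 => ?_⟩⟩
      by_contra hne
      refine hc ⟨r, hr, mem_biUnion.2 ⟨(s', s), mem_filter.2 ⟨mem_product.2 ⟨hs', hs⟩, hne⟩, ?_⟩⟩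
      exact mem_filter.2 ⟨mem_PP.2 ⟨(hp r hr).2.2.2, (hp r hr).1, Nat.zero_le _⟩, hd2, hd' r hr⟩
    obtain ⟨r, hr1, hr2⟩ := h3
    have h4 := single_le_sum (f := fun r => if r ∈ T then wN P t0 T else 0)
      (fun r _ => by split_ifs; exacts [JNear_w0 P t0 T, le_rfl]) hr2
    rw [if_pos hr1] at h4
    linarith
  · have := JNear_w0 P t0 T
    linarith
  · linarith

theorem near : ∃ (cS : ℝ) (K0 : ℕ), 0 < cS ∧ cS ≤ 1 ∧ ∀ B : ℕ, ∃ κ0 : ℕ, ∀ (P : Par) (N : ℤ)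
    (y z t0 L om lo V0 T0 : ℕ) (S : Finset (ℕ × ℤ)), Setup P y z t0 L → κ0 ≤ lo → 1 ≤ lo →
    P.CW * P.kW ≤ lo → lo * (2 * om + 2) ^ K0 ≤ kk z → kk z ≤ 2 ^ P.kw → V0 ≤ lo ^ B →
    T0 ≤ lo ^ B → 2 ^ (P.CW * P.kW) ≤ lo ^ B → om ≤ lo ^ B →
    (∀ s ∈ S, Fr y s ∧ s.1 ≤ V0 ∧ |s.2| ≤ ((T0 * s.1 * y : ℕ) : ℤ)) →
    cS * (∑ T ∈ (NN P t0 z om).filter (fun T => ∃ s ∈ S, (pr T : ℤ) ∣ nf N s), wN P t0 T -
        (∑ T ∈ NN P t0 z om, wN P t0 T) / 4 -
        10 * (L : ℝ) ^ 2 * (1 + (P.CW * P.kW : ℕ)) * (S.card : ℝ) ^ 2 / 2 ^ (P.kW - 1)) ≤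
      ∑ T ∈ NN P t0 z om, gN P N y t0 T := by
  obtain ⟨CU, hCU, hU⟩ := vg_upper
  obtain ⟨c, hc, hLo⟩ := vg_lower
  have hcS : 0 < min c 1 := lt_min hc one_pos
  obtain ⟨K1, hK1⟩ := exists_nat_ge (4 * CU / min c 1)
  refine ⟨min c 1, K1 + 3, hcS, min_le_right _ _, fun B => ?_⟩
  obtain ⟨κ0, hκ⟩ := hLo B
  refine ⟨κ0, fun P N y z t0 L om lo V0 T0 S h h1 h2 h3 h4 h5 h6 h7 h8 h9 hS => ?_⟩
  have hmono : Monotone (fun k => lo * (2 * om + 2) ^ k) := fun a b hab =>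
    Nat.mul_le_mul_left _ (Nat.pow_le_pow_right (by omega) hab)
  have hlo0 : ∀ k, lo ≤ lo * (2 * om + 2) ^ k := fun k =>
    Nat.le_mul_of_pos_right _ (by positivity)
  have hwin : ∀ T ∈ NN P t0 z om, ∀ k < K1 + 3, ∃ q ∈ T,
      lo * (2 * om + 2) ^ k ≤ kk q ∧ kk q < lo * (2 * om + 2) ^ (k + 1) := by
    intro T hT k hk
    refine window h hT (h2.trans (hlo0 k)) (h3.trans (hlo0 k)) (le_of_eq ?_)
      ((hmono (show k + 1 ≤ K1 + 3 by omega)).trans h4)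
    rw [pow_succ, mul_assoc]
  have hF := fibre (NN P t0 z om) (wN P t0) (gN P N y t0) (JNear_col N S) (K1 + 3)
    (fun k => lo * (2 * om + 2) ^ k) (min c 1) CU (vg P N y t0) (by omega) hmono hcS.le hCU.le
    (JNear_w0 P t0) (JNear_g0 P N y t0)
    (fun i i' r hi hi' => hi'.2.2 i hi.1 hi.2.1)
    (fun T hT q hq => ((NN_facts h hT).1 q hq).1) hwin
    (fun T hT q hq _ hq2 q' hq' hn => (NN_swap hT hq (lt_of_lt_of_le hq2 h4) hq' hn).1)
    (fun T hT i hi => by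
      obtain ⟨q, hq, -⟩ := hwin T hT 0 (by omega)
      refine vg_true h hT N (hS i (hi q hq).1).1 ?_
      exact (pr_dvd_iff (fun p hp => ((NN_facts h hT).1 p hp).1) _).2 fun p hp => (hi p hp).2.1)
    (fun T hT i ⟨r, hr⟩ => hU P N y z t0 L om T i h hT (hS i hr.1).1)
    (fun T hT i q hq hq1 hq2 ⟨r, hr⟩ hi => by
      have hq3 : lo ≤ kk q := (hlo0 0).trans hq1
      have hq4 : lo ^ B ≤ kk q ^ B := Nat.pow_le_pow_left hq3 B
      have := hκ P N y z t0 L om T0 q T i h hT hq (hS i hr.1).1 (h1.trans hq3)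
        ((hq2.le.trans h4).trans h5) (((hS i hr.1).2.1.trans h6).trans hq4) (h7.trans hq4)
        (h8.trans hq4) (h9.trans hq4) (hS i hr.1).2.2 (fun p hp => (hi p hp).2.1)
      exact le_trans (mul_le_mul_of_nonneg_right (min_le_left _ _)
        (sum_nonneg fun _ _ => JNear_w0 P t0 _)) this)
  have hsp := JNear_split (om := om) h N (fun s hs => (hS s hs).1)
  have hK : CU / ((K1 + 3 : ℕ) : ℝ) ≤ min c 1 / 4 := by
    rw [div_le_iff₀ hcS] at hK1
    rw [div_le_div_iff₀ (by positivity) (by norm_num)]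
    push_cast
    nlinarith
  have hA : 0 ≤ ∑ T ∈ NN P t0 z om, wN P t0 T := sum_nonneg fun _ _ => JNear_w0 P t0 _
  have hm := mul_le_mul_of_nonneg_right hK hA
  have hs2 := mul_le_mul_of_nonneg_left hsp hcS.le
  refine le_trans ?_ hF
  linarith

end

end Pool.Agent.Jac
end

-- part Pool.Agent.P.MP_45ff98_nt.JCl1
section

/-! The gain is there, under explicit numerical conditions. -/

namespace Pool.Agent.Jac
open Finset

noncomputable section

theorem Dat1.Ok.mono {ι : Type} {D : Dat1 ι} {Om Om' : ℝ} {Zb W P1 : ℕ} (h : D.Ok Om Zb W P1)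
    (hO : Om ≤ Om') : D.Ok Om' Zb W P1 :=
  { h with
    sum := h.sum.trans hO
    sumd := fun r hr => (h.sumd r hr).trans (by gcongr) }

theorem Dat2.Ok.mono {ι : Type} {D : Dat2 ι} {Om Om' : ℝ} {y Yq klo khi : ℕ}
    (h : D.Ok Om y Yq klo khi) (hO : Om ≤ Om') : D.Ok Om' y Yq klo khi :=
  { h with sum := h.sum.trans hO }

theorem cl1_a {L E P W A K s : ℝ} (hL : 8 ≤ L) (hE : L ^ 70 ≤ E) (hP : E ^ 9 ≤ P) (hW : P ≤ W)
    (hA0 : 0 ≤ A) (hA : A ≤ L) (hK0 : 0 ≤ K) (hK : K ≤ L) (hs0 : 0 ≤ s)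
    (hs : s ≤ K * L * (E * L ^ 7) ^ 4) :
    A * (K * (4 * A) * L ^ 4 * (E * L ^ 7) ^ 7 * (1 / P + 1 / W)) ≤ 1 / (8 * L ^ 4) ∧
      10 * L ^ 2 * A * s ^ 2 / W ≤ 1 / (4 * L ^ 4) := by
  have hL0 : 0 < L := by linarith
  have hE0 : 0 < E := lt_of_lt_of_le (by positivity) hE
  have hP0 : 0 < P := lt_of_lt_of_le (by positivity) hP
  have hW0 : 0 < W := hP0.trans_le hW
  have hL1 : 1 ≤ L := by linarith
  have h2 : 64 ≤ L ^ 2 := by nlinarith
  constructor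
  · have h1 : 1 / P + 1 / W ≤ 2 / E ^ 9 := by
      have := one_div_le_one_div_of_le (by positivity) hP
      have := one_div_le_one_div_of_le (by positivity) (hP.trans hW)
      rw [show 2 / E ^ 9 = 1 / E ^ 9 + 1 / E ^ 9 by ring]; linarith
    calc _ ≤ L * (L * (4 * L) * L ^ 4 * (E * L ^ 7) ^ 7 * (2 / E ^ 9)) := by gcongr
      _ = 8 * L ^ 56 / E ^ 2 := by field_simp; ring
      _ ≤ 8 * L ^ 56 / (L ^ 70) ^ 2 := by gcongr
      _ = 8 / (L ^ 2 * L ^ 78 * L ^ 4) := by field_simp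
      _ ≤ 8 / (64 * 1 * L ^ 4) := by gcongr; exact one_le_pow₀ hL1
      _ = _ := by field_simp; norm_num
  · have h1 : E ^ 8 * L ^ 70 ≤ W := by
      calc _ ≤ E ^ 8 * E := by gcongr
        _ = E ^ 9 := by ring
        _ ≤ W := hP.trans hW
    calc _ ≤ 10 * L ^ 2 * L * (L * L * (E * L ^ 7) ^ 4) ^ 2 / (E ^ 8 * L ^ 70) := by
          gcongr
          exact hs.trans (by gcongr)
      _ = 10 / (L ^ 2 * L * L ^ 4) := by field_simp
      _ ≤ 10 / (64 * 1 * L ^ 4) := by gcongr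
      _ ≤ _ := by
          rw [div_le_div_iff₀ (by positivity) (by positivity)]
          nlinarith [pow_pos hL0 4]

theorem cl1_b {L E H Q Y A C k Z Q1 cs ci : ℝ} (hL : 8 ≤ L) (hE : L ^ 70 ≤ E) (hH : E ≤ H)
    (hQ : 0 < Q) (hY : H ^ 15 * Q ^ 2 ≤ Y) (hA0 : 0 ≤ A) (hA : A ≤ L) (hC : 0 ≤ C) (hk : 0 ≤ k)
    (hK : C * k ≤ L) (hZ0 : 0 ≤ Z) (hZ : Z ≤ H) (hQ0 : 0 ≤ Q1) (hQ1 : Q1 ≤ Q) (hcs0 : 0 ≤ cs)
    (hcs : cs ≤ 2 * (A * (H + 2))) (hci0 : 0 ≤ ci) (hci : ci ≤ E * H * Z * Q1 * k) :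
    A * (C * cs * ci * (Z * E * Q) * L ^ 2 * (E * L ^ 7) ^ 7 * H / Y) ≤ 1 / (8 * L ^ 4) := by
  have hL0 : 0 < L := by linarith
  have hL1 : 1 ≤ L := by linarith
  have hE0 : 0 < E := lt_of_lt_of_le (by positivity) hE
  have hH1 : 1 ≤ H := ((one_le_pow₀ hL1).trans hE).trans hH
  have hH0 : 0 < H := by linarith
  have h2 : 64 ≤ L ^ 2 := by nlinarith
  have h3 : cs ≤ 6 * L * H := hcs.trans (by nlinarith [mul_le_mul hA (show H + 2 ≤ 3 * H by linarith) (by linarith) hL0.le])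
  have hY0 : 0 < Y := lt_of_lt_of_le (by positivity) hY
  have h4 : C * ci ≤ L * (H * H * H * Q) := by
    calc C * ci ≤ C * (H * H * H * Q * k) := by
          gcongr
          exact hci.trans (by gcongr)
      _ = C * k * (H * H * H * Q) := by ring
      _ ≤ _ := by gcongr
  calc _ = A * (cs * (C * ci) * (Z * E * Q) * L ^ 2 * (E * L ^ 7) ^ 7 * H / Y) := by ring
    _ ≤ L * (6 * L * H * (L * (H * H * H * Q)) * (H * H * Q) * L ^ 2 * (H * L ^ 7) ^ 7 * H /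
          (H ^ 15 * Q ^ 2)) := by gcongr
    _ = 6 * L ^ 54 / H := by field_simp
    _ ≤ 6 * L ^ 54 / L ^ 70 := by gcongr; exact hE.trans hH
    _ = 6 / (L ^ 2 * L ^ 10 * L ^ 4) := by field_simp
    _ ≤ 6 / (64 * 1 * L ^ 4) := by gcongr; exact one_le_pow₀ hL1
    _ ≤ _ := by
        rw [div_le_div_iff₀ (by positivity) (by positivity)]
        nlinarith [pow_pos hL0 4]

theorem claim_core : ∃ (cG C : ℝ) (u K0 : ℕ), 0 < cG ∧ cG ≤ 1 ∧ 1 ≤ C ∧ 1 ≤ u ∧ ∀ B : ℕ, ∃ κ0 : ℕ,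
    ∀ (P : Par) (N : ℤ) (y z t0 L om j sg Y1 E H W : ℕ), Setup P y z t0 L →
    E = 2 ^ (5 * u * P.kw) → H = 2 ^ (P.CW * P.kW + om) * E → W = 2 ^ (P.kW - 1) →
    P.k0 ≤ P.k1 / 9 → 90 ≤ P.k1 → 7 * 2 ^ j * P.k1 ≤ P.kW → 1 ≤ sg → sg ≤ 2 ^ (P.k1 - 1) →
    2 ^ P.k1 ≤ sg ^ j → 64 * H ^ 3 * W ^ 3 * Y1 ^ 3 ≤ y →
    H ^ 15 * (2 ^ (P.kW * j * sg)) ^ 2 ≤ Y1 →
    (1 + Real.log H) * (1 + (P.CW * P.kW : ℕ)) * (1 + P.kW) ^ j * P.k1 ≤ L →
    C * P.k1 ≤ L → 8 ≤ L → L ^ 70 ≤ E → E ^ 9 ≤ 2 ^ (P.k1 / 9 - 1) → κ0 ≤ sg →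
    P.CW * P.kW ≤ sg → sg * (2 * om + 2) ^ K0 ≤ kk z → kk z ≤ 2 ^ P.kw → H * W ^ 3 ≤ sg ^ B →
    cG * ∑ T ∈ NN P t0 z om, wN P t0 T - 1 / (2 * (L : ℝ) ^ 4) ≤
      ∑ T ∈ NN P t0 z om, gN P N y t0 T := by
  classical
  obtain ⟨cV, u, hcV, hu, b, hb, hgain⟩ := gain_lower
  obtain ⟨C, hC, hstr⟩ := struct
  obtain ⟨cS, K0, hcS, hcS1, hnear⟩ := near
  refine ⟨min (cV / 4) (cS / 2), C, u, K0, lt_min (by positivity) (by positivity),
    (min_le_right _ _).trans (by linarith), hC, hu, fun B => ?_⟩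
  obtain ⟨κ0, hnear⟩ := hnear B
  refine ⟨κ0, fun P N y z t0 L om j sg Y1 E H W h hE hH hW h1 h2 h3 h4 h5 h6 h7 h8 h9 h10 h11 h12
    h13 h14 h15 h16 h17 h18 => ?_⟩
  set a := P.CW * P.kW with ha
  have hE1 : 1 ≤ E := hE ▸ Nat.one_le_two_pow
  have hW1 : 1 ≤ W := hW ▸ Nat.one_le_two_pow
  have hZH : 2 ^ (a + om) ≤ H := hH ▸ Nat.le_mul_of_pos_right _ hE1
  have hEH : E ≤ H := hH ▸ Nat.le_mul_of_pos_left _ Nat.one_le_two_pow
  have hH1 : 1 ≤ H := hE1.trans hEH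
  have haH : 2 ^ a ≤ H := (Nat.pow_le_pow_right (by norm_num) (by omega)).trans hZH
  have haEH : 2 ^ a * E ≤ H :=
    hH ▸ Nat.mul_le_mul_right _ (Nat.pow_le_pow_right (by norm_num) (by omega))
  have hQY : 2 ^ (P.kW * j * sg) ≤ Y1 := by
    refine le_trans ?_ h8
    calc _ ≤ (2 ^ (P.kW * j * sg)) ^ 2 := Nat.le_self_pow (by norm_num) _
      _ ≤ _ := Nat.le_mul_of_pos_left _ (by positivity)
  have hY1 : 1 ≤ Y1 := Nat.one_le_two_pow.trans hQY
  have hHy : H ≤ y := by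
    refine le_trans ?_ h7
    calc H ≤ H ^ 3 := Nat.le_self_pow (by norm_num) _
      _ ≤ 64 * H ^ 3 := Nat.le_mul_of_pos_left _ (by norm_num)
      _ ≤ 64 * H ^ 3 * W ^ 3 := Nat.le_mul_of_pos_right _ (by positivity)
      _ ≤ _ := Nat.le_mul_of_pos_right _ (by positivity)
  have hYy : Y1 ≤ y := by
    refine le_trans ?_ h7
    calc Y1 ≤ Y1 ^ 3 := Nat.le_self_pow (by norm_num) _
      _ ≤ _ := Nat.le_mul_of_pos_left _ (by positivity)
  have hQQ : 2 ^ (P.kW * j) ≤ 2 ^ (P.kW * j * sg) :=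
    Nat.pow_le_pow_right (by norm_num) (Nat.le_mul_of_pos_right _ h4)
  have hPW : 2 ^ (P.k1 / 9 - 1) ≤ W :=
    hW ▸ Nat.pow_le_pow_right (by norm_num) (by have := h.kW; omega)
  obtain ⟨ι, D1, hD1, hB1⟩ := red_one P E H b hb h.hB h1 h2 h.k1 h.kW hE1 haEH
  obtain ⟨ι', D2, hD2, hI, hB2⟩ := red_two P E H j sg y b hb h.k1 h3 h4 h5 h6 hE1 hHy
    (hQQ.trans (hQY.trans hYy))
  have hL : (8 : ℝ) ≤ L := by exact_mod_cast h11
  have hL0 : (0 : ℝ) < L := by linarith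
  have hlog : 0 ≤ Real.log H := Real.log_natCast_nonneg H
  have hk1 : (1 : ℝ) ≤ P.k1 := by exact_mod_cast (by omega : 1 ≤ P.k1)
  have hf : (1 : ℝ) ≤ (1 + P.kW) ^ j * P.k1 :=
    one_le_mul_of_one_le_of_one_le (one_le_pow₀ (by linarith [Nat.cast_nonneg (α := ℝ) P.kW])) hk1
  have h9' : (1 + Real.log H) * (1 + (a : ℝ)) ≤ L := by
    refine le_trans ?_ h9
    rw [mul_assoc _ _ (P.k1 : ℝ)]
    exact le_mul_of_one_le_right (by positivity) hf
  have hA : 1 + (a : ℝ) ≤ L := le_trans (le_mul_of_one_le_left (by positivity) (by linarith)) h9'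
  have hD1' := hD1.mono (Om' := E * L) (by rw [mul_assoc]; gcongr)
  have hD2' := hD2.mono (Om' := E * L) (by
    calc _ = E * ((1 + Real.log H) * (1 + (a : ℝ)) * (1 + P.kW) ^ j * P.k1) := by ring
      _ ≤ _ := by gcongr)
  have hOc : (E * L : ℝ) / (1 / (L : ℝ) ^ 6) = E * L ^ 7 := by field_simp
  have hER : (L : ℝ) ^ 70 ≤ E := by exact_mod_cast h12
  have hPR : (E : ℝ) ^ 9 ≤ (2 ^ (P.k1 / 9 - 1) : ℕ) := by exact_mod_cast h13
  have hWR : ((2 ^ (P.k1 / 9 - 1) : ℕ) : ℝ) ≤ W := by exact_mod_cast hPW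
  have hE1R : (1 : ℝ) ≤ E := by exact_mod_cast hE1
  have hL1 : (1 : ℝ) ≤ L := by linarith
  set DD := (NN P t0 z om).filter
    (fun T => 1 / (L : ℝ) ^ 6 ≤ ‖Ex P E H b (cl N y t0 T) (N / pr T)‖) with hDD
  have hpr : ∀ T ∈ NN P t0 z om, ∀ p ∈ T, p.Prime := fun T hT p hp => ((NN_facts h hT).1 p hp).1
  obtain ⟨S, hS1, hS2, hS3⟩ := hstr D1 D2 (E * L) (1 / (L : ℝ) ^ 6) H W (2 ^ (P.k1 / 9 - 1)) y _ _ _
    L Y1 (4 * (a + 1)) N (DD.image pr) (fun n => cl N y t0 n.primeFactors)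
    (range 2 ×ˢ range (a + 1) ×ˢ range (H + 2)) (fun m => range 2 ×ˢ range (a + 1) ×ˢ {m, m + 1})
    (hW ▸ hD1') hD2' h.yL h.L1 (by positivity) Nat.one_le_two_pow hY1
    (by
      rw [one_div_mul_eq_div, le_div_iff₀ (by positivity)]
      have h2 : 64 ≤ (L : ℝ) ^ 2 := by nlinarith
      calc 12 * ((E : ℝ) * L) * (L : ℝ) ^ 6 = (E : ℝ) * (12 * (L : ℝ) ^ 7) := by ring
        _ ≤ (E : ℝ) * ((L : ℝ) ^ 2 * (L : ℝ) ^ 68) := by
            gcongr
            · linarith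
            · norm_num
        _ = (E : ℝ) * (L : ℝ) ^ 70 := by ring
        _ ≤ (E : ℝ) ^ 8 * E := by gcongr; exact le_self_pow₀ hE1R (by norm_num)
        _ = (E : ℝ) ^ 9 := by ring
        _ ≤ W := hPR.trans hWR)
    h7
    (by
      rw [hOc]
      have hCL : C ≤ L := le_trans (le_mul_of_one_le_right (by linarith) hk1) h10
      calc C * (L : ℝ) ^ 3 * (E * L ^ 7) ^ 8 ≤ L * (L : ℝ) ^ 3 * (E * L ^ 7) ^ 8 := by gcongr
        _ = (E : ℝ) ^ 8 * (L : ℝ) ^ 60 := by ring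
        _ ≤ (E : ℝ) ^ 8 * (L : ℝ) ^ 70 := by gcongr; norm_num
        _ ≤ (E : ℝ) ^ 8 * E := by gcongr
        _ = (E : ℝ) ^ 9 := by ring
        _ ≤ _ := by exact_mod_cast h13)
    (fun m => by
      rw [card_product, card_product, card_range, card_range]
      have := card_le_two (a := m) (b := m + 1)
      nlinarith)
    (fun n hn => by
      obtain ⟨T, hT, rfl⟩ := mem_image.1 hn
      obtain ⟨hT, hc⟩ := mem_filter.1 hT
      obtain ⟨f1, f2, f3, f4, f5, f6, f7⟩ := NN_facts h hT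
      have hp := pr_pos (hpr T hT)
      obtain ⟨m1, m2⟩ := MM_bounds N y hp
      have hy : y ≤ H * pr T := f6.trans (Nat.mul_le_mul_right _ hZH)
      have hq : y / pr T ≤ H := Nat.div_le_of_le_mul (by rwa [mul_comm])
      have hst : St (cl N y t0 T).1 (cl N y t0 T).2.1 P.kW :=
        ⟨f2.1, fun he => f2.2 (by rw [Nat.even_iff] at he ⊢; simpa [cl] using he)⟩
      simp only [primeFactors_pr (hpr T hT)]
      refine ⟨hp, by omega, hy, Finset.squarefree_prod_of_pairwise_isCoprime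
        (fun p hp q hq hne => Nat.coprime_iff_isRelPrime.1
          ((Nat.coprime_primes (hpr T hT p hp) (hpr T hT q hq)).2 hne))
        (fun p hp => (hpr T hT p hp).squarefree),
        fun r hr hd => hW ▸ (f1 r ((prime_dvd_pr (hpr T hT) hr).1 hd)).2.1, ?_, ?_,
        hc.trans (hB1 _ hst f3 _), hc.trans (hB2 _ hst f3 _)⟩
      · simp only [cl, mem_product, mem_range]
        omega
      · simp only [cl, mem_product, mem_range, mem_insert, mem_singleton]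
        omega)
  rw [hOc] at hS1 hS3
  have hw0 : ∀ T, 0 ≤ wN P t0 T := fun T => div_nonneg (phi_le _ _ _).1 (Nat.cast_nonneg _)
  have hg0 : ∀ T, 0 ≤ gN P N y t0 T := fun T =>
    div_nonneg (sum_nonneg fun _ _ => Nat.cast_nonneg _) (Nat.cast_nonneg _)
  have hM0 : 0 ≤ ∑ T ∈ NN P t0 z om, wN P t0 T := sum_nonneg fun T _ => hw0 T
  have hsp := sum_filter_add_sum_filter_not (NN P t0 z om)
    (fun T => 1 / (L : ℝ) ^ 6 ≤ ‖Ex P E H b (cl N y t0 T) (N / pr T)‖) (wN P t0)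
  rw [← hDD] at hsp
  have hm1 := mul_le_mul_of_nonneg_right (min_le_left (cV / 4) (cS / 2)) hM0
  have hm2 := mul_le_mul_of_nonneg_right (min_le_right (cV / 4) (cS / 2)) hM0
  by_cases hc : ∑ T ∈ DD, wN P t0 T ≤ 3 / 4 * ∑ T ∈ NN P t0 z om, wN P t0 T
  · set D' := (NN P t0 z om).filter
      (fun T => ¬ 1 / (L : ℝ) ^ 6 ≤ ‖Ex P E H b (cl N y t0 T) (N / pr T)‖) with hD'
    have e1 : ∑ T ∈ D', gN P N y t0 T ≤ ∑ T ∈ NN P t0 z om, gN P N y t0 T :=
      sum_le_sum_of_subset_of_nonneg (filter_subset _ _) fun T _ _ => hg0 T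
    have e2 : ∑ T ∈ D', (cV * wN P t0 T - 2 / (L : ℝ) ^ 6 * (1 / pr T)) ≤
        ∑ T ∈ D', gN P N y t0 T := by
      refine sum_le_sum fun T hT => ?_
      obtain ⟨hT, hn⟩ := mem_filter.1 hT
      refine le_trans ?_ (hgain P N y z t0 L om H h (hE ▸ haEH) T hT)
      rw [← hE]
      have : 2 * ‖Ex P E H b (cl N y t0 T) (N / pr T)‖ / pr T ≤ 2 * (1 / (L : ℝ) ^ 6) / pr T := by
        gcongr; exact (not_le.1 hn).le
      rw [show 2 / (L : ℝ) ^ 6 * (1 / pr T) = 2 * (1 / (L : ℝ) ^ 6) / pr T by ring]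
      linarith
    rw [sum_sub_distrib, ← mul_sum, ← mul_sum] at e2
    have e3 : ∑ T ∈ D', 1 / (pr T : ℝ) ≤ 2 * L :=
      le_trans (sum_le_sum_of_subset_of_nonneg (filter_subset _ _) fun T _ _ => by positivity)
        (NN_mass h)
    have e4 : 2 / (L : ℝ) ^ 6 * ∑ T ∈ D', 1 / (pr T : ℝ) ≤ 1 / (2 * (L : ℝ) ^ 4) := by
      calc _ ≤ 2 / (L : ℝ) ^ 6 * (2 * L) := by gcongr
        _ = 4 / (L * L ^ 4) := by field_simp; norm_num
        _ ≤ 4 / (8 * L ^ 4) := by gcongr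
        _ = _ := by field_simp; norm_num
    have e5 := mul_le_mul_of_nonneg_left
      (show (∑ T ∈ NN P t0 z om, wN P t0 T) / 4 ≤ ∑ T ∈ D', wN P t0 T by linarith) hcV.le
    linarith
  · have hHW : ∀ x, x ≤ H * W ^ 3 → x ≤ sg ^ B := fun x hx => hx.trans h18
    have hH3 : H ≤ H * W ^ 3 := Nat.le_mul_of_pos_right _ (by positivity)
    have e0 := hnear P N y z t0 L om sg (H * W ^ 2) (H * W ^ 3) S h h14 h4 h15 h16 h17
      (hHW _ (Nat.mul_le_mul_left _ (Nat.pow_le_pow_right hW1 (by norm_num)))) h18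
      (hHW _ (haH.trans hH3))
      (hHW _ (le_trans (Nat.lt_two_pow_self.le.trans
        (Nat.pow_le_pow_right (by norm_num) (by omega))) (hZH.trans hH3))) hS2
    have e1 := sum_filter_add_sum_filter_not DD (fun T => ∃ s ∈ S, (pr T : ℤ) ∣ nf N s) (wN P t0)
    have e2 : ∑ T ∈ DD.filter (fun T => ∃ s ∈ S, (pr T : ℤ) ∣ nf N s), wN P t0 T ≤
        ∑ T ∈ (NN P t0 z om).filter (fun T => ∃ s ∈ S, (pr T : ℤ) ∣ nf N s), wN P t0 T :=
      sum_le_sum_of_subset_of_nonneg (filter_subset_filter _ (filter_subset _ _)) fun T _ _ => hw0 T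
    have e3 : ∑ T ∈ DD.filter (fun T => ¬ ∃ s ∈ S, (pr T : ℤ) ∣ nf N s), wN P t0 T ≤ (1 + (a : ℝ)) *
        ∑ n ∈ (DD.image pr).filter (fun n : ℕ => ∀ s ∈ S, ¬ (n : ℤ) ∣ nf N s), 1 / (n : ℝ) := by
      rw [filter_image, sum_image fun S hS T hT e => pr_inj
        (hpr S (mem_filter.1 (mem_filter.1 hS).1).1) (hpr T (mem_filter.1 (mem_filter.1 hT).1).1) e,
        mul_sum]
      refine le_of_eq_of_le (sum_congr (filter_congr fun T _ => by simp) fun _ _ => rfl)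
        (sum_le_sum fun T hT => ?_)
      have f3 := (NN_facts h (mem_filter.1 (mem_filter.1 hT).1).1).2.2.1
      rw [mul_one_div, wN]
      gcongr
      refine (phi_le _ _ _).2.trans ?_
      gcongr
    obtain ⟨a1, a2⟩ := cl1_a hL hER hPR hWR (A := 1 + (a : ℝ)) (by positivity) hA
      (K := C * P.k1) (by positivity) h10 (Nat.cast_nonneg S.card) hS1
    have a3 := cl1_b (Q := (2 ^ (P.kW * j * sg) : ℕ)) (Y := Y1) (Z := (2 ^ a : ℕ))
      (Q1 := (2 ^ (P.kW * j) : ℕ)) (H := H) (ci := D2.I.card)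
      (cs := (range 2 ×ˢ range (a + 1) ×ˢ range (H + 2)).card) hL hER (by exact_mod_cast hEH)
      (by positivity) (by exact_mod_cast h8) (A := 1 + (a : ℝ)) (by positivity) hA
      (by linarith) (by linarith) h10 (by positivity) (by exact_mod_cast haH) (by positivity)
      (by exact_mod_cast hQQ) (by positivity)
      (by rw [card_product, card_product, card_range, card_range, card_range]; push_cast; linarith)
      (by positivity) (by exact_mod_cast hI)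
    have e4 := mul_le_mul_of_nonneg_left hS3 (show 0 ≤ 1 + (a : ℝ) by positivity)
    have hWe : (2 : ℝ) ^ (P.kW - 1) = W := by rw [hW]; push_cast; rfl
    rw [hWe] at e0
    push_cast at e4 a1 a3
    have e5 : ∑ T ∈ DD.filter (fun T => ¬ ∃ s ∈ S, (pr T : ℤ) ∣ nf N s), wN P t0 T ≤
        1 / (4 * (L : ℝ) ^ 4) := by
      refine e3.trans (e4.trans ?_)
      rw [show 1 / (4 * (L : ℝ) ^ 4) = 1 / (8 * (L : ℝ) ^ 4) + 1 / (8 * (L : ℝ) ^ 4) by ring, mul_add]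
      refine add_le_add (le_of_eq_of_le ?_ a1) (le_of_eq_of_le ?_ a3) <;> ring
    refine le_trans ?_ e0
    have e6 : (∑ T ∈ NN P t0 z om, wN P t0 T) / 2 - 1 / (2 * (L : ℝ) ^ 4) ≤
        ∑ T ∈ (NN P t0 z om).filter (fun T => ∃ s ∈ S, (pr T : ℤ) ∣ nf N s), wN P t0 T -
        (∑ T ∈ NN P t0 z om, wN P t0 T) / 4 -
        10 * (L : ℝ) ^ 2 * (1 + (a : ℝ)) * (S.card : ℝ) ^ 2 / W := by
      rw [show 1 / (2 * (L : ℝ) ^ 4) = 1 / (4 * (L : ℝ) ^ 4) + 1 / (4 * (L : ℝ) ^ 4) by ring]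
      linarith
    have e7 := mul_le_mul_of_nonneg_left e6 hcS.le
    have e8 : cS * (1 / (2 * (L : ℝ) ^ 4)) ≤ 1 / (2 * (L : ℝ) ^ 4) :=
      mul_le_of_le_one_left (by positivity) hcS1
    linarith

end

end Pool.Agent.Jac
end

-- part Pool.Agent.P.MP_45ff98_nt.JRoot
section

/-! The root term and the cap on the number of primes. -/

namespace Pool.Agent.Jac
open Finset

noncomputable section

theorem root_card_Box {k0 k : ℕ} (hB : HB k0) (hk : k0 ≤ k) :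
    99 / 100 / (k : ℝ) * 2 ^ (k - 1) ≤ (Box k).card := by
  have h : ∀ q ∈ Box k, 1 / (q : ℝ) ≤ 1 / 2 ^ (k - 1) := fun q hq => by
    obtain ⟨h1, rfl⟩ := mem_Box.1 hq
    exact one_div_le_one_div_of_le (by positivity) (by exact_mod_cast two_pow_kk_le h1.ne_zero)
  have h2 := (hB k hk).1.trans (sum_le_card_nsmul _ _ _ h)
  rw [nsmul_eq_mul, mul_one_div, le_div_iff₀ (by positivity)] at h2
  exact h2

theorem root_pair {k0 k l t : ℕ} (hB : HB k0) (hk : k0 ≤ k) (hl : k0 ≤ l) (h1 : 1 ≤ k)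
    (h2 : 1 ≤ l) (ht : t = k + l) :
    (2 : ℝ) ^ t / (2 * (t : ℝ) ^ 2) ≤ ((Box k).card : ℝ) * (Box l).card := by
  have ha := root_card_Box hB hk
  have hb := root_card_Box hB hl
  have hk0 : (0 : ℝ) < k := by exact_mod_cast h1
  have hl0 : (0 : ℝ) < l := by exact_mod_cast h2
  refine le_trans ?_ (mul_le_mul ha hb (by positivity) (by positivity))
  have e1 : (2 : ℝ) ^ t = 4 * (2 ^ (k - 1) * 2 ^ (l - 1)) := by
    have : t = (k - 1) + (l - 1) + 2 := by omega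
    rw [this, pow_add, pow_add]; ring
  have e2 : (t : ℝ) = k + l := by rw [ht]; push_cast; ring
  have e3 : 99 / 100 / (k : ℝ) * 2 ^ (k - 1) * (99 / 100 / (l : ℝ) * 2 ^ (l - 1)) =
      (2 ^ (k - 1) * 2 ^ (l - 1)) * (9801 / 10000 / ((k : ℝ) * l)) := by
    field_simp
    norm_num
  rw [e1, e2, e3]
  have hp : (0 : ℝ) < 2 ^ (k - 1) * 2 ^ (l - 1) := by positivity
  generalize (2 : ℝ) ^ (k - 1) * 2 ^ (l - 1) = w at hp
  have e4 : 4 * w / (2 * ((k : ℝ) + l) ^ 2) = w * (2 / ((k : ℝ) + l) ^ 2) := by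
    field_simp
    norm_num
  rw [e4]
  refine mul_le_mul_of_nonneg_left ?_ hp.le
  rw [div_le_div_iff₀ (by positivity) (by positivity)]
  nlinarith [sq_nonneg ((k : ℝ) - l), mul_pos hk0 hl0]

theorem root_inj {z a t0 : ℕ} (ht : t0 = 2 * (kk z + a) + 1) :
    ∑ k ∈ Ioc (kk z) (kk z + a), (Box k).card * (Box (t0 - k)).card ≤ cntE (2 ^ t0) 1 z := by
  have hc : ((Ioc (kk z) (kk z + a)).sigma (fun k => Box k ×ˢ Box (t0 - k))).card =
      ∑ k ∈ Ioc (kk z) (kk z + a), (Box k).card * (Box (t0 - k)).card := by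
    rw [card_sigma]; simp only [card_product]
  rw [← hc, cntE]
  have hm : ∀ x ∈ (Ioc (kk z) (kk z + a)).sigma (fun k => Box k ×ˢ Box (t0 - k)),
      x.2.1.Prime ∧ x.2.2.Prime ∧ kk x.2.1 = x.1 ∧ kk x.2.2 = t0 - x.1 ∧ kk z < x.1 ∧
        x.1 ≤ kk z + a := fun x hx => by
    obtain ⟨h1, h2⟩ := mem_sigma.1 hx
    obtain ⟨h3, h4⟩ := mem_product.1 h2
    exact ⟨(mem_Box.1 h3).1, (mem_Box.1 h4).1, (mem_Box.1 h3).2, (mem_Box.1 h4).2,
      (mem_Ioc.1 h1).1, (mem_Ioc.1 h1).2⟩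
  refine card_le_card_of_injOn (fun x => x.2.1 * x.2.2) (fun x hx => ?_) (fun x hx y hy e => ?_)
  · obtain ⟨hp, hq, h1, h2, h3, h4⟩ := hm x (by exact_mod_cast hx)
    have h5 := lt_two_pow_kk x.2.1
    have h6 := lt_two_pow_kk x.2.2
    have h7 : x.2.1 * x.2.2 ≤ 2 ^ t0 := by
      have : t0 = kk x.2.1 + kk x.2.2 := by omega
      rw [this, pow_add]
      exact Nat.mul_le_mul h5.le h6.le
    have h8 : z < x.2.1 := lt_of_kk_lt (by omega)
    have h9 : z < x.2.2 := lt_of_kk_lt (by omega)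
    simp only [coe_filter, mem_Icc, Set.mem_ofPred_eq]
    refine ⟨⟨Nat.mul_pos hp.pos hq.pos, h7⟩, one_dvd _, ?_, fun r hr hr2 hd => ?_⟩
    · rw [ArithmeticFunction.liouville_apply (mul_ne_zero hp.ne_zero hq.ne_zero),
        ArithmeticFunction.cardFactors_mul hp.ne_zero hq.ne_zero,
        ArithmeticFunction.cardFactors_apply_prime hp,
        ArithmeticFunction.cardFactors_apply_prime hq]
      norm_num
    · rcases (Nat.Prime.dvd_mul hr2).1 hd with h | h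
      · have := (Nat.prime_dvd_prime_iff_eq hr2 hp).1 h
        omega
      · have := (Nat.prime_dvd_prime_iff_eq hr2 hq).1 h
        omega
  · obtain ⟨hp, hq, h1, h2, h3, h4⟩ := hm x (by exact_mod_cast hx)
    obtain ⟨hp', hq', h1', h2', h3', h4'⟩ := hm y (by exact_mod_cast hy)
    have e' : x.2.1 * x.2.2 = y.2.1 * y.2.2 := e
    have hd : x.2.1 ∣ y.2.1 * y.2.2 := e' ▸ dvd_mul_right _ _
    have hpp : x.2.1 = y.2.1 := by
      rcases (Nat.Prime.dvd_mul hp).1 hd with h | h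
      · exact (Nat.prime_dvd_prime_iff_eq hp hp').1 h
      · have h5 := (Nat.prime_dvd_prime_iff_eq hp hq').1 h
        have h6 : x.2.2 = y.2.1 := by
          rw [h5, mul_comm] at e'
          exact Nat.eq_of_mul_eq_mul_right hq'.pos e'
        rw [h5] at h1
        rw [h6] at h2
        omega
    have hqq : x.2.2 = y.2.2 := by
      rw [hpp] at e'
      exact Nat.eq_of_mul_eq_mul_left hp'.pos e'
    have hk : x.1 = y.1 := by rw [← h1, ← h1', hpp]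
    obtain ⟨k, p, q⟩ := x
    obtain ⟨k', p', q'⟩ := y
    simp only at hpp hqq hk
    subst hpp hqq hk
    rfl

theorem root {k0 z a t0 : ℕ} (hB : HB k0) (hk : k0 ≤ kk z) (ht : t0 = 2 * (kk z + a) + 1) :
    (a : ℝ) / (t0 : ℝ) ^ 2 ≤ 2 * (cntE (2 ^ t0) 1 z : ℝ) / 2 ^ t0 := by
  have h1 : ((∑ k ∈ Ioc (kk z) (kk z + a), (Box k).card * (Box (t0 - k)).card : ℕ) : ℝ) ≤
      (cntE (2 ^ t0) 1 z : ℝ) := by exact_mod_cast root_inj ht
  have h2 : ∀ k ∈ Ioc (kk z) (kk z + a), (2 : ℝ) ^ t0 / (2 * (t0 : ℝ) ^ 2) ≤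
      ((Box k).card : ℝ) * (Box (t0 - k)).card := fun k hk' => by
    obtain ⟨h3, h4⟩ := mem_Ioc.1 hk'
    exact root_pair hB (by omega) (by omega) (by omega) (by omega) (by omega)
  have h3 := card_nsmul_le_sum _ _ _ h2
  rw [Nat.card_Ioc, Nat.add_sub_cancel_left, nsmul_eq_mul] at h3
  push_cast at h1
  have h4 := h3.trans h1
  have ht0 : (0 : ℝ) < t0 := by rw [ht]; positivity
  rw [le_div_iff₀ (by positivity)]
  have e : (a : ℝ) / (t0 : ℝ) ^ 2 * 2 ^ t0 = 2 * (a * (2 ^ t0 / (2 * (t0 : ℝ) ^ 2))) := by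
    field_simp
  rw [e]
  linarith

theorem cap_le (z om : ℕ) (hz : 3 ≤ z) :
    Cap z om ≤ Real.exp 20 * Real.log z ^ 3 * Real.exp (-om) := by
  have hl : 1 ≤ Real.log z := by
    rw [Real.le_log_iff_exp_le (by positivity)]
    have h3 : (3 : ℝ) ≤ z := by exact_mod_cast hz
    have := Real.exp_one_lt_d9
    linarith
  have hll : 0 ≤ Real.log (Real.log z) := Real.log_nonneg hl
  have h1 : Cap z om ≤
      (∑ T ∈ (PP 0 z).powerset, ∏ p ∈ T, Real.exp 1 * (1 / (p : ℝ))) * Real.exp (-om) := by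
    rw [sum_mul, Cap]
    refine le_trans (sum_le_sum fun T hT => ?_)
      (sum_le_sum_of_subset_of_nonneg (filter_subset (fun T : Finset ℕ => om < T.card) _)
        fun _ _ _ => by positivity)
    have hc : (om : ℝ) ≤ T.card := by exact_mod_cast (mem_filter.1 hT).2.le
    rw [prod_mul_distrib, prod_const, ← Real.exp_nat_mul, mul_one, pr, Nat.cast_prod,
      prod_div_distrib, prod_const_one, mul_right_comm, ← Real.exp_add]
    refine le_mul_of_one_le_left (by positivity) (Real.one_le_exp (by linarith))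
  refine h1.trans (mul_le_mul_of_nonneg_right ?_ (Real.exp_pos _).le)
  rw [← prod_one_add]
  refine (Real.prod_one_add_le_exp_sum _ fun p => by positivity).trans ?_
  have h2 : ∑ p ∈ PP 0 z, 1 / (p : ℝ) ≤ Real.log (Real.log z) + 7 := by
    refine le_trans (sum_le_sum_of_subset_of_nonneg (fun p hp => ?_) fun _ _ _ => by positivity)
      (Pool.Agent.Lib.Sieve.sum_inv_primes_le (y := z) (by omega))
    exact Nat.mem_primesLE.2 ⟨(mem_PP.1 hp).1.le, (mem_PP.1 hp).2.1⟩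
  have h3 : Real.log z ^ 3 = Real.exp (3 * Real.log (Real.log z)) := by
    have := Real.exp_nat_mul (Real.log (Real.log z)) 3
    rw [Real.exp_log (by linarith)] at this
    rw [← this]; norm_num
  rw [h3, ← Real.exp_add, ← mul_sum]
  refine Real.exp_le_exp.2 ?_
  have h4 := Real.exp_one_lt_d9
  have h5 := mul_le_mul_of_nonneg_left h2 (Real.exp_pos 1).le
  nlinarith

end

end Pool.Agent.Jac
end

-- part Pool.Agent.P.MP_45ff98_nt.JClaim
section

/-! The gain is there. -/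

namespace Pool.Agent.Jac
open Finset Filter Topology

noncomputable section

theorem poly_ev (A m : ℕ) : ∀ᶠ l : ℕ in atTop, A * (l + 1) ^ m ≤ 2 ^ (l / 2 - 3) := by
  have h1 := (tendsto_pow_const_div_const_pow_of_one_lt m (r := 2) (by norm_num)).const_mul
    ((8 * A * 4 ^ m : ℕ) : ℝ)
  rw [mul_zero] at h1
  obtain ⟨n0, hn⟩ := eventually_atTop.1 (h1.eventually (gt_mem_nhds one_pos))
  filter_upwards [eventually_ge_atTop (2 * n0 + 6)] with l hl
  have h2 := hn (l / 2) (by omega)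
  rw [← mul_div_assoc, div_lt_one (by positivity)] at h2
  have h3 : 8 * A * 4 ^ m * (l / 2) ^ m < 2 ^ (l / 2) := by exact_mod_cast h2
  have h4 : (l + 1) ^ m ≤ 4 ^ m * (l / 2) ^ m := by
    rw [← mul_pow]; exact Nat.pow_le_pow_left (by omega) m
  have h5 : 2 ^ (l / 2) = 8 * 2 ^ (l / 2 - 3) := by
    rw [show 8 = 2 ^ 3 by norm_num, ← pow_add]; congr 1; omega
  have h6 := Nat.mul_le_mul_left A h4
  nlinarith

theorem cap_small : ∀ᶠ l : ℕ in atTop, ∀ z : ℕ, 3 ≤ z → kk z ≤ 2 ^ l →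
    Cap z (10 * l) ≤ 1 / (2 * ((2 : ℝ) ^ l) ^ 4) := by
  filter_upwards [eventually_ge_atTop 21] with l hl z hz hk
  refine (cap_le z _ hz).trans ?_
  have h1 : Real.log z ≤ 2 ^ l := by
    have h2 : (z : ℝ) ≤ 2 ^ kk z := by exact_mod_cast (lt_two_pow_kk z).le
    have h3 := Real.log_le_log (by positivity) h2
    rw [Real.log_pow] at h3
    have h4 : (kk z : ℝ) ≤ 2 ^ l := by exact_mod_cast hk
    have := Real.log_two_lt_d9
    nlinarith [Nat.cast_nonneg (α := ℝ) (kk z)]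
  have h2 : (2 : ℝ) ≤ Real.exp 1 := by linarith [Real.add_one_le_exp 1]
  have h3 : (2 : ℝ) ^ l ≤ Real.exp l := by
    rw [show (l : ℝ) = l * 1 by ring, Real.exp_nat_mul]; gcongr
  have hl' : (21 : ℝ) ≤ l := by exact_mod_cast hl
  rw [le_div_iff₀ (by positivity)]
  have h0 := Real.log_natCast_nonneg z
  calc _ ≤ Real.exp 20 * Real.exp l ^ 3 * Real.exp (-(10 * l : ℕ)) *
        (Real.exp 1 * Real.exp l ^ 4) := by gcongr; exact h1.trans h3
    _ = Real.exp (21 - 3 * l) := by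
        rw [← Real.exp_nat_mul, ← Real.exp_nat_mul]
        simp only [← Real.exp_add]
        congr 1; push_cast; ring
    _ ≤ 1 := Real.exp_le_one_iff.2 (by linarith)

theorem claimG : ∃ (cG : ℝ) (C2 : ℕ), 0 < cG ∧ 11 ≤ C2 ∧ ∀ aL a0 : ℕ, 2 ≤ a0 → ∃ aS : ℕ, ∀ aw : ℕ,
    aS ≤ aw → ∃ K' : ℕ, 1 ≤ K' ∧ ∀ CW : ℕ, ∃ l0 : ℕ, ∀ l : ℕ, l0 ≤ l →
    ∀ (P : Par) (N : ℤ) (y z t0 : ℕ), P.k0 = a0 * l → P.kw = aw * l → P.k1 = C2 * P.kw →
    P.kW = K' * P.k1 → P.CW = CW → HB P.k0 → 2 ^ 2 ^ (l - 1) ≤ y → y ≤ 2 ^ 2 ^ l → y ≤ 2 ^ t0 →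
    2 ^ t0 ≤ 2 ^ (aL * l) * y → St 0 t0 (kk z) → t0 ≤ 4 * kk z →
    cG * Gam P 0 t0 z - 1 / ((2 : ℝ) ^ l) ^ 4 ≤
      ∑ T ∈ fam P 0 t0 z, (cntA N y (pr T) (mn T) : ℝ) / y := by
  obtain ⟨cG, C, u, K0, hG, hG1, hC, hu, hcore⟩ := claim_core
  refine ⟨cG, 9 * (45 * u + 1), hG, by omega, fun aL a0 ha0 => ⟨14 + a0 + 10 * aL, fun aw haw => ?_⟩⟩
  obtain ⟨C2, hC2⟩ : ∃ C2, C2 = 9 * (45 * u + 1) := ⟨_, rfl⟩
  obtain ⟨j, hj⟩ : ∃ j, j = 2 * (C2 * aw) := ⟨_, rfl⟩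
  rw [← hC2]
  refine ⟨7 * 2 ^ j, by have := Nat.one_le_two_pow (n := j); omega, fun CW => ?_⟩
  obtain ⟨w, hw⟩ : ∃ w, w = 7 * 2 ^ j * (C2 * aw) := ⟨_, rfl⟩
  obtain ⟨hH, hhH⟩ : ∃ hH, hH = CW * w + 10 + 5 * u * aw := ⟨_, rfl⟩
  obtain ⟨κ0, hcore⟩ := hcore (2 * (hH + 3 * w))
  obtain ⟨l0, hl0⟩ := eventually_atTop.1 ((eventually_ge_atTop 10).and (cap_small.and
    ((poly_ev (κ0 + 6 + 15 * hH + 2 * w * j + 3 * w + aL + ⌈C⌉₊ * w) 1).and
    ((poly_ev (20 ^ K0) K0).and (poly_ev ((1 + hH + w) ^ (j + 3)) (j + 3))))))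
  refine ⟨l0, fun l hl P N y z t0 e0 ew e1 eW eC hB hy1 hy2 hy3 hy4 hst ht => ?_⟩
  obtain ⟨h10, hcap, p1, p2, p3⟩ := hl0 l hl
  obtain ⟨G, hGe⟩ : ∃ G, G = 2 ^ (l / 2 - 3) := ⟨_, rfl⟩
  obtain ⟨sg, hsg⟩ : ∃ sg, sg = 2 ^ ((l + 1) / 2) := ⟨_, rfl⟩
  obtain ⟨Q, hQ⟩ : ∃ Q, Q = 2 ^ (l - 3) := ⟨_, rfl⟩
  rw [← hGe] at p1 p2 p3
  have hQ1 : sg * G = Q := by rw [hsg, hGe, hQ, ← pow_add]; congr 1; omega
  have hQ2 : 2 ^ (l - 1) = 4 * Q := by
    rw [hQ, show 4 = 2 ^ 2 by norm_num, ← pow_add]; congr 1; omega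
  have hQ3 : 2 ^ l = 8 * Q := by rw [hQ, show 8 = 2 ^ 3 by norm_num, ← pow_add]; congr 1; omega
  have hs1 : 1 ≤ sg := hsg ▸ Nat.one_le_two_pow
  have hG0 : 1 ≤ G := hGe ▸ Nat.one_le_two_pow
  have hGs : G ≤ sg := hGe ▸ hsg ▸ Nat.pow_le_pow_right (by norm_num) (by omega)
  have hGQ : G ≤ Q := hQ1 ▸ Nat.le_mul_of_pos_left _ hs1
  have ek1 : P.k1 = C2 * aw * l := by rw [e1, ew]; ring
  have ekW : P.kW = w * l := by rw [eW, ek1, hw]; ring
  have ek9 : P.k1 / 9 = 45 * (u * P.kw) + P.kw := by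
    rw [e1, hC2, mul_assoc, Nat.mul_div_cancel_left _ (by norm_num)]; ring
  have hkw : 14 * l ≤ P.kw := ew ▸ Nat.mul_le_mul_right _ (by omega)
  have hk0 : P.k0 ≤ P.kw := e0 ▸ ew ▸ Nat.mul_le_mul_right _ (by omega)
  have hk1 : 11 * P.kw ≤ P.k1 := e1 ▸ Nat.mul_le_mul_right _ (by omega)
  have hkW : P.k1 ≤ P.kW := eW ▸ Nat.le_mul_of_pos_left _ (by positivity)
  have hukw : P.kw ≤ u * P.kw := Nat.le_mul_of_pos_left _ hu
  rw [pow_one] at p1
  have q0 : κ0 + 6 + 15 * (hH * l) + 2 * (w * l * j) + 3 * (w * l) + aL * l + ⌈C⌉₊ * (w * l) ≤ G := by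
    refine le_trans ?_ p1
    linarith only [Nat.zero_le (κ0 * l), Nat.zero_le hH, Nat.zero_le (w * j), Nat.zero_le w,
      Nat.zero_le aL, Nat.zero_le (⌈C⌉₊ * w), Nat.zero_le l]
  have ht0 : 4 * Q ≤ t0 :=
    hQ2 ▸ (Nat.pow_le_pow_iff_right (by norm_num)).1 (hy1.trans hy3)
  have ht1 : t0 ≤ aL * l + 8 * Q := by
    rw [← hQ3]
    refine (Nat.pow_le_pow_iff_right (a := 2) (by norm_num)).1 (hy4.trans ?_)
    rw [pow_add]; exact Nat.mul_le_mul_left _ hy2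
  have hst2 := hst.2 (by simp)
  have hQz : Q ≤ kk z := by omega
  have hz0 : z ≠ 0 := by
    rintro rfl
    have : kk 0 = 1 := by simp [kk]
    omega
  have hS : Setup P y z t0 (2 ^ l) :=
    { hB := hB
      k0 := e0 ▸ ha0.trans (Nat.le_mul_of_pos_right _ (by omega))
      kw := hk0
      k1 := by omega
      kW := hkW
      hz := (le_kk_iff hz0).1 (by omega)
      st := hst
      y1 := hy3
      y2 := by
        refine (Nat.pow_le_pow_left hy4 10).trans ?_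
        rw [mul_pow, ← pow_mul]
        refine Nat.mul_le_mul_right _ (Nat.pow_le_pow_right (by norm_num) ?_)
        rw [ew, mul_right_comm]
        exact Nat.mul_le_mul_right _ (by omega)
      yL := hy2
      L1 := Nat.one_le_two_pow }
  have eH : 2 ^ (P.CW * P.kW + 10 * l) * 2 ^ (5 * u * P.kw) = 2 ^ (hH * l) := by
    rw [← pow_add, eC, ekW, ew, hhH]; congr 1; ring
  have ea : P.CW * P.kW ≤ hH * l := by
    rw [eC, ekW, hhH, ← mul_assoc]; exact Nat.mul_le_mul_right _ (by omega)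
  have key := hcore P N y z t0 (2 ^ l) (10 * l) j sg (2 ^ Q) _ (2 ^ (hH * l)) _ hS rfl eH.symm rfl
    (by omega) (by omega) (by rw [eW]) hs1
    (hsg ▸ Nat.pow_le_pow_right (by norm_num) (by omega))
    (by
      rw [hsg, ← pow_mul]
      refine Nat.pow_le_pow_right (by norm_num) ?_
      rw [ek1, hj, ← mul_assoc, mul_comm _ l]
      exact Nat.mul_le_mul_right _ (by omega))
    (by
      refine le_trans ?_ hy1
      rw [show 64 = 2 ^ 6 by norm_num]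
      simp only [← pow_mul, ← pow_add]
      exact Nat.pow_le_pow_right (by norm_num) (by omega))
    (by
      simp only [← pow_mul, ← pow_add]
      refine Nat.pow_le_pow_right (by norm_num) ?_
      have h1 : hH * l * 15 + w * l * j * 2 ≤ G := by omega
      have h2 := Nat.mul_le_mul_left sg h1
      have h3 : hH * l * 15 ≤ sg * (hH * l * 15) := Nat.le_mul_of_pos_left _ hs1
      rw [ekW, ← hQ1]
      linarith only [h2, h3])
    (by
      have h1 : Real.log ((2 ^ (hH * l) : ℕ) : ℝ) ≤ (hH * l : ℕ) := by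
        push_cast
        rw [Real.log_pow]
        have := Real.log_two_lt_d9
        push_cast
        exact mul_le_of_le_one_right (by positivity) (by linarith only [this])
      have h2 : 1 + hH * l + w * l ≤ (1 + hH + w) * (l + 1) := by
        linarith only [Nat.zero_le hH, Nat.zero_le w, Nat.zero_le l]
      have h3 : (1 + hH * l) * (1 + P.CW * P.kW) * (1 + P.kW) ^ j * P.k1 ≤ 2 ^ l := by
        calc _ ≤ ((1 + hH + w) * (l + 1)) * ((1 + hH + w) * (l + 1)) *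
              ((1 + hH + w) * (l + 1)) ^ j * ((1 + hH + w) * (l + 1)) := by
              gcongr <;> omega
          _ = (1 + hH + w) ^ (j + 3) * (l + 1) ^ (j + 3) := by rw [← mul_pow]; ring
          _ ≤ _ := by omega
      calc _ ≤ (1 + ((hH * l : ℕ) : ℝ)) * (1 + (P.CW * P.kW : ℕ)) * (1 + P.kW) ^ j * P.k1 := by gcongr
        _ ≤ _ := by exact_mod_cast h3)
    (by
      have h1 : ⌈C⌉₊ * P.k1 ≤ 2 ^ l := by
        have := Nat.mul_le_mul_left ⌈C⌉₊ (hkW.trans ekW.le)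
        omega
      calc C * P.k1 ≤ (⌈C⌉₊ : ℝ) * P.k1 := by gcongr; exact Nat.le_ceil C
        _ ≤ _ := by exact_mod_cast h1)
    (by omega)
    (by
      rw [← pow_mul]
      refine Nat.pow_le_pow_right (by norm_num) ?_
      rw [mul_assoc]; omega)
    (by
      rw [← pow_mul]
      refine Nat.pow_le_pow_right (by norm_num) ?_
      rw [mul_assoc 5]; omega)
    (by omega) (by omega)
    (by
      refine le_trans ?_ (hQ1 ▸ hQz)
      refine Nat.mul_le_mul_left _ (le_trans ?_ p2)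
      rw [← mul_pow]
      exact Nat.pow_le_pow_left (by omega) _)
    (by
      have : 2 ^ l ≤ 2 ^ P.kw := Nat.pow_le_pow_right (by norm_num) (by omega)
      omega)
    (by
      rw [hsg]
      simp only [← pow_mul, ← pow_add]
      refine Nat.pow_le_pow_right (by norm_num) ?_
      have h1 := Nat.mul_le_mul_right (hH + 3 * w) (show l ≤ (l + 1) / 2 * 2 by omega)
      have h2 : (P.kW - 1) * 3 ≤ w * l * 3 := by omega
      linarith only [h1, h2])
  have h3 : 3 ≤ z := le_trans (by norm_num) ((le_kk_iff (k := 3) hz0).1 (by omega))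
  have c1 := hcap z h3 (by omega)
  have c2 := mul_le_mul_of_nonneg_left (split_gam hS (10 * l)) hG.le
  have c3 := split_gain hS N (10 * l)
  have c4 : cG * Cap z (10 * l) ≤ Cap z (10 * l) :=
    mul_le_of_le_one_left (sum_nonneg fun _ _ => by positivity) hG1
  push_cast at key
  rw [show 1 / ((2 : ℝ) ^ l) ^ 4 = 1 / (2 * ((2 : ℝ) ^ l) ^ 4) + 1 / (2 * ((2 : ℝ) ^ l) ^ 4) by ring]
  linarith

end

end Pool.Agent.Jac
end

-- part Pool.Agent.P.MP_45ff98_nt.JCnt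
section

/-! The tree identity for the two sifted counts. -/

namespace Pool.Agent.Jac
open Finset

noncomputable section

open Classical in
/-- Indicator of a proposition. -/
def jcntI (p : Prop) : ℝ := if p then 1 else 0

theorem jcnt_and (p q : Prop) : jcntI (p ∧ q) = jcntI p * jcntI q := by
  unfold jcntI
  by_cases hp : p <;> by_cases hq : q <;> simp [hp, hq]

theorem jcnt_not (p : Prop) : jcntI (¬ p) = 1 - jcntI p := by
  unfold jcntI
  by_cases hp : p <;> simp [hp]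

theorem jcnt_congr {p q : Prop} (h : p ↔ q) : jcntI p = jcntI q := by rw [propext h]

theorem jcnt_prod (S : Finset ℕ) (p : ℕ → Prop) :
    ∏ r ∈ S, jcntI (p r) = jcntI (∀ r ∈ S, p r) := by
  induction S using Finset.induction_on with
  | empty => simp [jcntI]
  | insert a S ha ih => rw [prod_insert ha, ih, ← jcnt_and, jcnt_congr (forall_mem_insert a S p)]

theorem jcnt_card {α : Type} (A : Finset α) (p : α → Prop) [DecidablePred p] :
    ((A.filter p).card : ℝ) = ∑ a ∈ A, jcntI (p a) := by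
  rw [card_filter, Nat.cast_sum]
  refine sum_congr rfl fun a _ => ?_
  unfold jcntI
  by_cases h : p a <;> simp [h]

theorem jcnt_sift (m : ℤ) {k0 p : ℕ} (h : 2 ^ (k0 - 1) ≤ p) :
    jcntI (∀ r : ℕ, r < 2 ^ (k0 - 1) → r.Prime → ¬ (r : ℤ) ∣ m) *
      ∏ r ∈ PP k0 p, (1 - jcntI ((r : ℤ) ∣ m)) = jcntI (∀ r < p, r.Prime → ¬ (r : ℤ) ∣ m) := by
  rw [prod_congr rfl fun r _ => (jcnt_not _).symm, jcnt_prod, ← jcnt_and]
  refine jcnt_congr ⟨fun h1 r hr hp => ?_, fun h1 => ⟨fun r hr hp => h1 r (hr.trans_le h) hp,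
    fun r hr => h1 r (mem_PP.1 hr).1 (mem_PP.1 hr).2.1⟩⟩
  rcases lt_or_ge r (2 ^ (k0 - 1)) with h2 | h2
  · exact h1.1 r h2 hp
  · exact h1.2 r (mem_PP.2 ⟨hr, hp, (le_kk_iff hp.ne_zero).2 h2⟩)

theorem jcnt_point (m : ℤ) (k0 t z : ℕ) (h : 2 ^ (k0 - 1) ≤ z) :
    jcntI (∀ r < z, r.Prime → ¬ (r : ℤ) ∣ m) =
      ∑ T ∈ vals k0 0 t z, (-1) ^ T.card *
        jcntI ((pr T : ℤ) ∣ m ∧ ∀ r : ℕ, r < 2 ^ (k0 - 1) → r.Prime → ¬ (r : ℤ) ∣ m) +
      ∑ T ∈ bds k0 0 t z, jcntI ((pr T : ℤ) ∣ m ∧ ∀ r < mn T, r.Prime → ¬ (r : ℤ) ∣ m) := by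
  classical
  have hT : ∀ T ∈ (PP k0 z).powerset, ∏ r ∈ T, jcntI ((r : ℤ) ∣ m) = jcntI ((pr T : ℤ) ∣ m) :=
    fun T hT => by
      rw [jcnt_prod]
      exact jcnt_congr (pr_dvd_iff (fun p hp => (mem_PP.1 (mem_powerset.1 hT hp)).2.1) m).symm
  rw [← jcnt_sift m h, tree (okR 0 t) (PP k0 z) fun r => jcntI ((r : ℤ) ∣ m), mul_add, mul_sum,
    mul_sum]
  congr 1
  · refine sum_congr rfl fun T hT' => ?_
    rw [hT T (mem_filter.1 hT').1, jcnt_and]
    ring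
  · refine sum_congr rfl fun T hT' => ?_
    obtain ⟨h1, h2, -, h3⟩ := mem_filter.1 hT'
    have h4 := mem_PP.1 (mem_powerset.1 h1 (mn_mem h2))
    have h5 : Even T.card := by
      by_contra h5
      exact h3 fun h6 => absurd (by simpa using h6) h5
    rw [hT T h1, jcnt_and, PP_filter_lt h4.1.le, h5.neg_one_pow,
      ← jcnt_sift m ((le_kk_iff h4.2.1.ne_zero).1 h4.2.2)]
    ring

theorem jcnt_gen {α : Type} (A : Finset α) (f : α → ℤ) (c : ℕ → ℕ → ℝ)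
    (hc : ∀ d p : ℕ, c d p =
      ∑ a ∈ A, jcntI ((d : ℤ) ∣ f a ∧ ∀ r < p, r.Prime → ¬ (r : ℤ) ∣ f a))
    (k0 t z : ℕ) (h : 2 ^ (k0 - 1) ≤ z) : c 1 z =
    ∑ T ∈ vals k0 0 t z, (-1) ^ T.card * c (pr T) (2 ^ (k0 - 1)) +
      ∑ T ∈ bds k0 0 t z, c (pr T) (mn T) := by
  simp only [hc, mul_sum]
  rw [sum_comm, sum_comm (s := bds k0 0 t z), ← sum_add_distrib]
  refine sum_congr rfl fun a _ => ?_
  rw [← jcnt_point (f a) k0 t z h]
  exact jcnt_congr (by simp)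

theorem cntA_tree (N : ℤ) (y k0 t z : ℕ) (h : 2 ^ (k0 - 1) ≤ z) : (cntA N y 1 z : ℝ) =
    ∑ T ∈ vals k0 0 t z, (-1) ^ T.card * (cntA N y (pr T) (2 ^ (k0 - 1)) : ℝ) +
      ∑ T ∈ bds k0 0 t z, (cntA N y (pr T) (mn T) : ℝ) :=
  jcnt_gen (Icc 1 y) (fun i : ℕ => N + i) (fun d p => (cntA N y d p : ℝ))
    (fun _ _ => jcnt_card _ _) k0 t z h

theorem cntE_tree (x k0 t z : ℕ) (h : 2 ^ (k0 - 1) ≤ z) : (cntE x 1 z : ℝ) =
    ∑ T ∈ vals k0 0 t z, (-1) ^ T.card * (cntE x (pr T) (2 ^ (k0 - 1)) : ℝ) +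
      ∑ T ∈ bds k0 0 t z, (cntE x (pr T) (mn T) : ℝ) := by
  refine jcnt_gen ((Icc 1 x).filter fun n : ℕ => ArithmeticFunction.liouville n = 1)
    (fun n : ℕ => (n : ℤ)) (fun d p => (cntE x d p : ℝ)) (fun d p => ?_) k0 t z h
  classical
  rw [← jcnt_card, filter_filter, cntE]
  congr 2
  ext n
  simp only [Int.natCast_dvd_natCast, mem_filter]
  tauto

end

end Pool.Agent.Jac
end

-- part Pool.Agent.P.MP_45ff98_nt.JNodeA
section

/-! Node error for the interval. -/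

namespace Pool.Agent.Jac
open Finset

noncomputable section

theorem JNodeA_count (N : ℤ) (y m : ℕ) (hm : 1 ≤ m) :
    |(((Icc 1 y).filter (fun i : ℕ => (m : ℤ) ∣ N + i)).card : ℝ) - (y : ℝ) / m| ≤ 1 := by
  have hm' : (0 : ℤ) < m := by exact_mod_cast hm
  have h1 : ((Icc 1 y).filter (fun i : ℕ => (m : ℤ) ∣ N + i)).card =
      ((Ioc N (N + y)).filter (fun x : ℤ => (m : ℤ) ∣ x)).card := by
    refine card_bij (fun i _ => N + (i : ℤ)) (fun i hi => ?_) (fun i _ j _ h => ?_)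
      (fun x hx => ?_)
    · obtain ⟨h1, h2⟩ := mem_filter.1 hi
      obtain ⟨h3, h4⟩ := mem_Icc.1 h1
      exact mem_filter.2 ⟨mem_Ioc.2 ⟨by omega, by omega⟩, h2⟩
    · omega
    · obtain ⟨h1, h2⟩ := mem_filter.1 hx
      obtain ⟨h3, h4⟩ := mem_Ioc.1 h1
      have e : N + ((x - N).toNat : ℤ) = x := by omega
      exact ⟨(x - N).toNat, mem_filter.2 ⟨mem_Icc.2 ⟨by omega, by omega⟩, by rw [e]; exact h2⟩, e⟩
  have h2 : (((Ioc N (N + y)).filter (fun x : ℤ => (m : ℤ) ∣ x)).card : ℤ) =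
      (N + y) / m - N / m := by
    rw [Int.Ioc_filter_dvd_card _ _ hm', Int.cast_natCast, Rat.floor_intCast_div_natCast,
      Rat.floor_intCast_div_natCast]
    exact max_eq_left (sub_nonneg.2 (Int.ediv_le_ediv hm' (by omega)))
  have h3 : (((Icc 1 y).filter (fun i : ℕ => (m : ℤ) ∣ N + i)).card : ℝ) =
      (((N + y) / m - N / m : ℤ) : ℝ) := by
    rw [h1, ← h2]; simp
  have hmr : (0 : ℝ) < m := by exact_mod_cast hm
  have a1 := Int.mul_ediv_add_emod (N + y) m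
  have a2 := Int.mul_ediv_add_emod N m
  have a3 := Int.emod_nonneg (N + y) hm'.ne'
  have a4 := Int.emod_lt_of_pos (N + y) hm'
  have a5 := Int.emod_nonneg N hm'.ne'
  have a6 := Int.emod_lt_of_pos N hm'
  have b1 : (m : ℤ) * ((N + y) / m - N / m) ≤ y + m := by rw [mul_sub]; omega
  have b2 : (y : ℤ) - m ≤ (m : ℤ) * ((N + y) / m - N / m) := by rw [mul_sub]; omega
  rw [h3]
  generalize (N + y) / m - N / m = q at b1 b2
  have c1 : (m : ℝ) * q ≤ y + m := by exact_mod_cast b1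
  have c2 : (y : ℝ) - m ≤ (m : ℝ) * q := by exact_mod_cast b2
  have e : (q : ℝ) - y / m = (m * q - y) / m := by field_simp
  rw [e, abs_div, abs_of_pos hmr, div_le_one hmr, abs_le]
  constructor <;> linarith

theorem JNodeA_dens (w : ℕ) : Dens (PP 0 w) (fun r => 1 / (r : ℝ)) := by
  intro r hr
  have h2 : (2 : ℝ) ≤ r := by exact_mod_cast (mem_PP.1 hr).2.1.two_le
  exact ⟨by positivity, one_div_le_one_div_of_le (by norm_num) h2,
    one_div_le_one_div_of_le (by linarith) (by linarith)⟩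

theorem JNodeA_rem (N : ℤ) (y d w : ℕ) (hd : 1 ≤ d) (hp : ∀ r : ℕ, r.Prime → r ∣ d → w ≤ r)
    (T : Finset ℕ) (hT : T ⊆ PP 0 w) :
    |∑ _x ∈ ((Icc 1 y).filter (fun i : ℕ => (d : ℤ) ∣ N + i)).filter
        (fun x : ℕ => ∀ r ∈ T, (r : ℤ) ∣ N + x), (1 : ℝ) -
      (y : ℝ) / d * ∏ r ∈ T, 1 / (r : ℝ)| ≤ 1 := by
  have hTp : ∀ p ∈ T, p.Prime := fun p h => (mem_PP.1 (hT h)).2.1
  have hco : Nat.Coprime d (pr T) := by
    refine Nat.Coprime.prod_right fun p h => ?_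
    refine ((Nat.Prime.coprime_iff_not_dvd (hTp p h)).2 fun h1 => ?_).symm
    have := hp p (hTp p h) h1
    have := (mem_PP.1 (hT h)).1
    omega
  have h1 : ((Icc 1 y).filter (fun i : ℕ => (d : ℤ) ∣ N + i)).filter
      (fun x : ℕ => ∀ r ∈ T, (r : ℤ) ∣ N + x) =
      (Icc 1 y).filter (fun i : ℕ => ((d * pr T : ℕ) : ℤ) ∣ N + i) := by
    rw [filter_filter]
    refine filter_congr fun i _ => ?_
    rw [← pr_dvd_iff hTp, Nat.cast_mul]
    exact ⟨fun h => (Nat.isCoprime_iff_coprime.2 hco).mul_dvd h.1 h.2,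
      fun h => ⟨dvd_of_mul_right_dvd h, dvd_of_mul_left_dvd h⟩⟩
  have h2 : (y : ℝ) / d * ∏ r ∈ T, 1 / (r : ℝ) = (y : ℝ) / ((d * pr T : ℕ) : ℝ) := by
    rw [prod_div_distrib, prod_const_one, Nat.cast_mul, pr, Nat.cast_prod, div_mul_div_comm,
      mul_one]
  rw [h1, h2, sum_const, nsmul_eq_mul, mul_one]
  exact JNodeA_count N y _ (Nat.mul_pos hd (pr_pos hTp))

theorem JNodeA_y {y t0 k0 t d : ℕ} (h1 : k0 ≤ t) (h2 : 2 ^ t * d ≤ 2 ^ t0)
    (h3 : (2 ^ t0) ^ 4 ≤ 2 ^ k0 * y ^ 4) {w : ℝ} (hw : w ^ 4 = 2 ^ t) :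
    w ^ 3 * d ≤ y := by
  have a1 : (2 ^ t * d) ^ 4 ≤ 2 ^ t * y ^ 4 :=
    ((Nat.pow_le_pow_left h2 4).trans h3).trans
      (Nat.mul_le_mul_right _ (Nat.pow_le_pow_right (by norm_num) h1))
  have a2 : (2 ^ t) ^ 3 * d ^ 4 ≤ y ^ 4 := by
    refine Nat.le_of_mul_le_mul_left (le_trans (le_of_eq ?_) a1) (Nat.two_pow_pos t)
    ring
  have a3 : ((2 : ℝ) ^ t) ^ 3 * (d : ℝ) ^ 4 ≤ (y : ℝ) ^ 4 := by exact_mod_cast a2
  refine le_of_pow_le_pow_left₀ (n := 4) (by norm_num) (by positivity) ?_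
  rw [← hw] at a3
  refine le_trans (le_of_eq ?_) a3
  ring

theorem node_A : ∃ C : ℝ, 0 < C ∧ ∀ (N : ℤ) (y t0 k0 t d : ℕ), 8 ≤ k0 → k0 ≤ t → 1 ≤ d → 1 ≤ y →
    2 ^ t * d ≤ 2 ^ t0 → (2 ^ t0) ^ 4 ≤ 2 ^ k0 * y ^ 4 →
    (∀ r : ℕ, r.Prime → r ∣ d → 2 ^ (k0 - 1) ≤ r) →
    |(cntA N y d (2 ^ (k0 - 1)) : ℝ) / y -
      (∏ r ∈ PP 0 (2 ^ (k0 - 1)), (1 - 1 / (r : ℝ))) / d| ≤ psi C k0 t / d := by
  obtain ⟨Cs, hCs, hS⟩ := sieve
  obtain ⟨c, Cm, -, hCm, hM⟩ := mertens_prod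
  have hl : 0 < Real.log 2 := Real.log_pos (by norm_num)
  obtain ⟨K, hK⟩ : ∃ K : ℝ, K = 5040 * (4 / Real.log 2) ^ 7 := ⟨_, rfl⟩
  have hK0 : 0 < K := by rw [hK]; positivity
  refine ⟨Cs * Cm + K, by positivity, fun N y t0 k0 t d hk hkt hd hy h2 h3 hp => ?_⟩
  obtain ⟨w, hw⟩ : ∃ w : ℝ, w = Real.exp (t * Real.log 2 / 4) := ⟨_, rfl⟩
  have hw0 : 0 < w := by rw [hw]; exact Real.exp_pos _
  have hw1 : 1 ≤ w := by rw [hw]; exact Real.one_le_exp (by positivity)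
  have hw4 : w ^ 4 = 2 ^ t := by
    rw [hw, ← Real.exp_nat_mul, ← Real.exp_log (show (0 : ℝ) < 2 by norm_num), ← Real.exp_nat_mul,
      Real.log_exp]
    congr 1
    push_cast
    ring
  have hlw : Real.log (w ^ 2) = t * Real.log 2 / 2 := by
    rw [Real.log_pow, hw, Real.log_exp]
    push_cast
    ring
  have hy0 : (0 : ℝ) < y := by exact_mod_cast hy
  have hd0 : (0 : ℝ) < d := by exact_mod_cast hd
  have hk0 : (8 : ℝ) ≤ k0 := by exact_mod_cast hk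
  have hkt' : (k0 : ℝ) ≤ t := by exact_mod_cast hkt
  have hz2 : 2 ≤ 2 ^ (k0 - 1) := by
    calc 2 = 2 ^ 1 := by norm_num
      _ ≤ 2 ^ (k0 - 1) := Nat.pow_le_pow_right (by norm_num) (by omega)
  have hD1 : 1 ≤ w ^ 2 := one_le_pow₀ hw1
  have hzD : ((2 ^ (k0 - 1) : ℕ) : ℝ) ≤ (w ^ 2) ^ 4 := by
    have e : (w ^ 2) ^ 4 = 2 ^ (2 * t) := by
      rw [← pow_mul, show 2 * 4 = 4 * 2 by norm_num, pow_mul, hw4, ← pow_mul, mul_comm]
    rw [e]
    exact_mod_cast Nat.pow_le_pow_right (by norm_num) (by omega)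
  have hprim : ∀ r ∈ PP 0 (2 ^ (k0 - 1)), r.Prime := fun r hr => (mem_PP.1 hr).2.1
  have h := hS ((Icc 1 y).filter (fun i : ℕ => (d : ℤ) ∣ N + i)) (fun _ => (1 : ℝ))
    (fun r i => (r : ℤ) ∣ N + i) (PP 0 (2 ^ (k0 - 1))) ((2 ^ (k0 - 1) : ℕ) : ℝ) (w ^ 2)
    ((y : ℝ) / d) (fun r => 1 / (r : ℝ)) (fun _ => 1) (by exact_mod_cast hz2) hzD hD1
    (fun r hr => ⟨hprim r hr, by exact_mod_cast (mem_PP.1 hr).1⟩) (JNodeA_dens _)
    (fun _ _ => zero_le_one) (by positivity)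
    (fun T hT _ => JNodeA_rem N y d _ hd hp T hT)
  have e1 : (((Icc 1 y).filter (fun i : ℕ => (d : ℤ) ∣ N + i)).filter
      (fun x : ℕ => ∀ r ∈ PP 0 (2 ^ (k0 - 1)), ¬ (r : ℤ) ∣ N + x)).card =
      cntA N y d (2 ^ (k0 - 1)) := by
    rw [filter_filter, cntA]
    congr 1
    refine filter_congr fun i _ => and_congr_right fun _ => ?_
    exact ⟨fun h r h1 h2 => h r (mem_PP.2 ⟨h1, h2, Nat.zero_le _⟩),
      fun h r hr => h r (mem_PP.1 hr).1 (mem_PP.1 hr).2.1⟩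
  rw [sum_const, sum_const, nsmul_eq_mul, nsmul_eq_mul, mul_one, mul_one, e1] at h
  have hc := (level_card _ hprim (w ^ 2) hD1).1
  have hm := (hM _ hz2).2
  rw [kk_two_pow (by omega)] at hm
  have hp0 : 0 ≤ ∏ r ∈ PP 0 (2 ^ (k0 - 1)), (1 - 1 / (r : ℝ)) :=
    prod_nonneg fun r hr => by have := (JNodeA_dens _ r hr).2.1; linarith
  have hlz : Real.log ((2 ^ (k0 - 1) : ℕ) : ℝ) = ((k0 : ℝ) - 1) * Real.log 2 := by
    rw [Nat.cast_pow, Real.log_pow, Nat.cast_sub (by omega)]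
    simp
  have hex : Real.exp (-4 * Real.log (w ^ 2) / Real.log ((2 ^ (k0 - 1) : ℕ) : ℝ)) ≤
      Real.exp (-2 * t / k0) := by
    rw [hlw, hlz]
    refine Real.exp_le_exp.2 ?_
    have hk1 : (0 : ℝ) < k0 - 1 := by linarith
    have e : -4 * (t * Real.log 2 / 2) / (((k0 : ℝ) - 1) * Real.log 2) = -2 * t / (k0 - 1) := by
      field_simp
      ring
    rw [e, div_le_div_iff₀ hk1 (by linarith)]
    nlinarith
  have hyw := JNodeA_y hkt h2 h3 hw4
  have ht0 : (0 : ℝ) < t := by linarith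
  have hwK : 1 / w ≤ K / (t : ℝ) ^ 7 := by
    have a := Real.pow_div_factorial_le_exp (t * Real.log 2 / 4) (by positivity) 7
    rw [← hw, show ((Nat.factorial 7 : ℕ) : ℝ) = 5040 by norm_num [Nat.factorial],
      div_le_iff₀ (by norm_num)] at a
    rw [div_le_div_iff₀ hw0 (by positivity), hK, one_mul]
    have e : (t : ℝ) ^ 7 = (t * Real.log 2 / 4) ^ 7 * (4 / Real.log 2) ^ 7 := by
      rw [← mul_pow]
      congr 1
      field_simp
    rw [e]
    have := mul_le_mul_of_nonneg_right a (show 0 ≤ (4 / Real.log 2) ^ 7 by positivity)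
    linarith
  unfold psi
  generalize (cntA N y d (2 ^ (k0 - 1)) : ℝ) = cn at h ⊢
  generalize ∏ r ∈ PP 0 (2 ^ (k0 - 1)), (1 - 1 / (r : ℝ)) = V at h hm hp0 ⊢
  have e2 : cn / y - V / d = (cn - y / d * V) / y := by field_simp
  rw [e2, abs_div, abs_of_pos hy0, div_le_iff₀ hy0]
  refine h.trans ?_
  have hE := Real.exp_pos (-2 * (t : ℝ) / k0)
  generalize Real.exp (-2 * (t : ℝ) / k0) = E at hex hE ⊢
  have b1 : Cs * Real.exp (-4 * Real.log (w ^ 2) / Real.log ((2 ^ (k0 - 1) : ℕ) : ℝ)) *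
      ((y : ℝ) / d * V) ≤ Cs * E * ((y : ℝ) / d * (Cm / k0)) := by
    gcongr
  have b2 : w ^ 2 ≤ K / (t : ℝ) ^ 7 * (y / d) := by
    have a1 : w ^ 3 ≤ (y : ℝ) / d := by rwa [le_div_iff₀ hd0]
    calc w ^ 2 = 1 / w * w ^ 3 := by field_simp
      _ ≤ K / (t : ℝ) ^ 7 * (y / d) := by gcongr
  have b3 : 0 ≤ K * (E / k0) * (y / d) := by positivity
  have b4 : 0 ≤ Cs * Cm * (1 / (t : ℝ) ^ 7) * (y / d) := by positivity
  have e3 : (Cs * Cm + K) * (E / k0 + 1 / (t : ℝ) ^ 7) / d * y =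
      Cs * E * ((y : ℝ) / d * (Cm / k0)) + K / (t : ℝ) ^ 7 * (y / d) + K * (E / k0) * (y / d) +
        Cs * Cm * (1 / (t : ℝ) ^ 7) * (y / d) := by ring
  rw [e3]
  linarith

end

end Pool.Agent.Jac
end

-- part Pool.Agent.P.MP_45ff98_nt.JA9a
section

/-! The Dirichlet series of the Liouville function. -/

namespace Pool.Agent.Jac
open Finset MeasureTheory Complex

noncomputable section

theorem ja9a_norm (n : ℕ) : ‖((ArithmeticFunction.liouville n : ℤ) : ℂ)‖ ≤ 1 := by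
  rcases eq_or_ne n 0 with rfl | h
  · simp
  · rw [ArithmeticFunction.liouville_apply h]
    push_cast
    simp

def ja9a_hom {s : ℂ} (hs : s ≠ 0) : ℕ →*₀ ℂ where
  toFun n := ((ArithmeticFunction.liouville n : ℤ) : ℂ) * riemannZetaSummandHom hs n
  map_zero' := by simp
  map_one' := by simp [ArithmeticFunction.liouville_apply_one]
  map_mul' m n := by
    rw [ArithmeticFunction.liouville_apply_mul, map_mul]
    push_cast
    ring

theorem ja9a_hom_apply {s : ℂ} (hs : s ≠ 0) (n : ℕ) :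
    ja9a_hom hs n = ((ArithmeticFunction.liouville n : ℤ) : ℂ) * (n : ℂ) ^ (-s) := rfl

theorem LSeries_liouville {s : ℂ} (hs : 1 < s.re) :
    LSeries (fun n => ((ArithmeticFunction.liouville n : ℤ) : ℂ)) s * riemannZeta s =
      riemannZeta (2 * s) := by
  have h0 : s ≠ 0 := Complex.ne_zero_of_one_lt_re hs
  have hsum : Summable (fun n => ‖ja9a_hom h0 n‖) := by
    refine Summable.of_nonneg_of_le (fun n => norm_nonneg _) (fun n => ?_)
      (summable_riemannZetaSummand hs)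
    show ‖((ArithmeticFunction.liouville n : ℤ) : ℂ) * riemannZetaSummandHom h0 n‖ ≤ _
    rw [norm_mul]
    exact mul_le_of_le_one_left (norm_nonneg _) (ja9a_norm n)
  have h1 := EulerProduct.eulerProduct_completely_multiplicative_hasProd hsum
  have h2 := riemannZeta_eulerProduct_hasProd hs
  have hs2 : 1 < (2 * s).re := by
    simp
    linarith
  have h3 := riemannZeta_eulerProduct_hasProd hs2
  have h4 := h1.mul h2
  have hL : ∑' n, ja9a_hom h0 n =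
      LSeries (fun n => ((ArithmeticFunction.liouville n : ℤ) : ℂ)) s := by
    unfold LSeries
    refine tsum_congr fun n => ?_
    rw [ja9a_hom_apply, LSeries.term_def]
    split_ifs with h
    · subst h; simp
    · rw [cpow_neg, div_eq_mul_inv]
  rw [hL] at h4
  refine HasProd.unique h4 ?_
  have : (fun p : Nat.Primes => (1 - ja9a_hom h0 p)⁻¹ * (1 - ((p : ℕ) : ℂ) ^ (-s))⁻¹) =
      fun p : Nat.Primes => (1 - ((p : ℕ) : ℂ) ^ (-(2 * s)))⁻¹ := by
    funext p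
    rw [ja9a_hom_apply, ArithmeticFunction.liouville_apply p.prop.ne_zero,
      ArithmeticFunction.cardFactors_apply_prime p.prop, ← mul_inv]
    have e : -(2 * s) = ((2 : ℕ) : ℂ) * (-s) := by push_cast; ring
    rw [e, cpow_nat_mul]
    push_cast
    congr 1
    ring
  rw [this]
  exact h3

theorem LSeries_liouville' {s : ℂ} (hs : 1 < s.re) :
    LSeries (fun n => ((ArithmeticFunction.liouville n : ℤ) : ℂ)) s =
      riemannZeta (2 * s) * ((s - 1) / s) * (zf s)⁻¹ := by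
  have h0 : s ≠ 0 := Complex.ne_zero_of_one_lt_re hs
  have h1 : s ≠ 1 := by
    rintro rfl
    simp at hs
  have hz := riemannZeta_ne_zero_of_one_lt_re hs
  have he := zeta_eq_zf h0 h1
  have hf : zf s ≠ 0 := by
    intro h
    apply hz
    rw [he, h]
    simp
  have h1' : s - 1 ≠ 0 := sub_ne_zero.2 h1
  rw [← LSeries_liouville hs, he]
  field_simp

end

end Pool.Agent.Jac
end

-- part Pool.Agent.P.MP_45ff98_nt.JA9
section

/-! The summatory Liouville function. -/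

namespace Pool.Agent.Jac
open Finset MeasureTheory Complex

noncomputable section

theorem ja9_coef (n : ℕ) : ‖((ArithmeticFunction.liouville n : ℤ) : ℂ)‖ ≤ 2 + Real.log n := by
  have h : 0 ≤ Real.log n := Real.log_natCast_nonneg n
  rcases eq_or_ne n 0 with rfl | hn
  · simp
  · rw [ArithmeticFunction.liouville_apply hn]
    push_cast
    rw [norm_pow, norm_neg, norm_one, one_pow]
    linarith

theorem ja9_diff : DifferentiableOn ℂ (fun s : ℂ => riemannZeta (2 * s) * ((s - 1) / s))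
    {s | 1 - 1 / 288 < s.re} := fun s hs => by
  have hs' : 1 - 1 / 288 < s.re := hs
  have h0 : s ≠ 0 := fun e => by
    rw [e, zero_re] at hs'
    norm_num at hs'
  have h1 : 2 * s ≠ 1 := fun e => by
    have := congrArg Complex.re e
    simp at this
    linarith
  have h2 : DifferentiableAt ℂ (fun s : ℂ => riemannZeta (2 * s)) s :=
    (differentiableAt_riemannZeta h1).comp s (differentiableAt_id.const_mul 2)
  exact (h2.mul ((differentiableAt_id.sub_const 1).div differentiableAt_id h0)).differentiableWithinAt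

theorem ja9_up (s : ℂ) (hs : 1 - 1 / 288 < s.re) :
    ‖riemannZeta (2 * s) * ((s - 1) / s)‖ ≤ 9 * (|s.im| + 2) ^ (1 / 144 : ℝ) := by
  have h1 : ‖riemannZeta (2 * s)‖ ≤ 3 := zeta_le (by simp; linarith)
  have h2 : 1 / 2 ≤ ‖s‖ := le_trans (by linarith) (re_le_norm s)
  have h3 : ‖(s - 1) / s‖ ≤ 3 := by
    rw [norm_div, div_le_iff₀ (by linarith)]
    have := norm_sub_le s 1
    rw [norm_one] at this
    linarith
  have h4 : 1 ≤ (|s.im| + 2) ^ (1 / 144 : ℝ) :=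
    Real.one_le_rpow (by linarith [abs_nonneg s.im]) (by norm_num)
  rw [norm_mul]
  calc ‖riemannZeta (2 * s)‖ * ‖(s - 1) / s‖ ≤ 3 * 3 :=
        mul_le_mul h1 h3 (norm_nonneg _) (by norm_num)
    _ ≤ _ := by linarith

theorem ja9_disc : ∃ V : ℝ, 1 ≤ V ∧
    Disc (fun s => riemannZeta (2 * s) * ((s - 1) / s) * (zf s)⁻¹) V (1 / 36) := by
  obtain ⟨A, hA, hup⟩ := zf_up (η := 1 / 144) (by norm_num) (by norm_num)
  obtain ⟨a, ha, hlo⟩ := zf_low (η := 1 / 144) (by norm_num) (by norm_num)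
  obtain ⟨g1, -, g2⟩ := disc_of_low (f := zf) (R := 1 / 288) (η := 1 / 144) (by norm_num)
    (by norm_num) hA ha (by norm_num) (by norm_num)
    (zf_diff.mono fun s hs => lt_trans (by norm_num) (show 1 - 1 / 288 < s.re from hs))
    (fun s h1 h2 => hup s (by linarith) h2) hlo
  have g3 := disc_of_up (R := 1 / 288) (A := 9) (η := 1 / 144) (by norm_num) (by norm_num)
    (by norm_num) (by norm_num) (by norm_num) ja9_diff fun s h1 _ => ja9_up s h1
  have hV : 1 ≤ max (16 * A / (1 / 288 * a)) (2 * 9 / (1 / 288)) := g1.trans (le_max_left _ _)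
  have g4 := (g3.mono (by norm_num) (le_max_right (16 * A / (1 / 288 * a)) _)
    (η' := 2 * (1 / 144)) (by norm_num)).mul
    (g2.mono (by linarith) (le_max_left _ _) le_rfl) hV (by norm_num)
  refine ⟨_, one_le_pow₀ hV (n := 2), ?_⟩
  rwa [show (2 * (2 * (1 / 144)) : ℝ) = 1 / 36 by norm_num] at g4

theorem liouville_bound : ∃ C : ℝ, 0 < C ∧ ∀ t : ℕ, 2 ≤ t →
    |(LL t : ℝ)| ≤ C * t / Real.log t ^ 8 := by
  obtain ⟨V, hV, hD⟩ := ja9_disc
  obtain ⟨C, hC, h⟩ := unsmooth 8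
  refine ⟨C * V ^ (2 * 8 + 2), by positivity, fun t ht => ?_⟩
  have h1 := h (fun n => ((ArithmeticFunction.liouville n : ℤ) : ℂ)) _ V (1 / 36) ja9_coef
    (fun s hs => LSeries_liouville' hs) hD hV (by norm_num) (by norm_num) t (by exact_mod_cast ht)
  rw [Nat.floor_natCast, ← Int.cast_sum, Complex.norm_intCast] at h1
  exact h1

end

end Pool.Agent.Jac
end

-- part Pool.Agent.P.MP_45ff98_nt.JNodeE
section

/-! Node error for the Liouville class. -/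

namespace Pool.Agent.Jac
open Finset

noncomputable section

theorem JNodeE_pm {n : ℕ} (hn : n ≠ 0) :
    ArithmeticFunction.liouville n = 1 ∨ ArithmeticFunction.liouville n = -1 := by
  rw [ArithmeticFunction.liouville_apply hn]
  exact neg_one_pow_eq_or ℤ _

theorem JNodeE_count (x e : ℕ) (he : 0 < e) :
    2 * (((Icc 1 x).filter (fun n => e ∣ n ∧ ArithmeticFunction.liouville n = 1)).card : ℤ) =
      (x / e : ℕ) + ArithmeticFunction.liouville e * LL (x / e) := by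
  have h1 : ((Icc 1 x).filter (fun n => e ∣ n ∧ ArithmeticFunction.liouville n = 1)).card =
      ((Icc 1 (x / e)).filter (fun m => ArithmeticFunction.liouville (e * m) = 1)).card := by
    symm
    refine card_bij (fun m _ => e * m) (fun m hm => ?_) (fun m _ m' _ h => ?_) fun n hn => ?_
    · simp only [mem_filter, mem_Icc] at hm ⊢
      refine ⟨⟨Nat.mul_pos he hm.1.1, ?_⟩, dvd_mul_right _ _, hm.2⟩
      rw [mul_comm]
      exact (Nat.le_div_iff_mul_le he).1 hm.1.2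
    · exact Nat.eq_of_mul_eq_mul_left he h
    · simp only [mem_filter, mem_Icc] at hn ⊢
      obtain ⟨⟨h1, h2⟩, ⟨m, rfl⟩, h3⟩ := hn
      refine ⟨m, ⟨⟨Nat.pos_of_mul_pos_left h1, ?_⟩, h3⟩, rfl⟩
      rw [Nat.le_div_iff_mul_le he, mul_comm]
      exact h2
  have h2 : ((x / e : ℕ) : ℤ) = ∑ _m ∈ Icc 1 (x / e), (1 : ℤ) := by simp
  rw [h1, card_filter, LL, h2, mul_sum, ← sum_add_distrib, Nat.cast_sum, mul_sum]
  refine sum_congr rfl fun m hm => ?_
  rw [← ArithmeticFunction.liouville_apply_mul]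
  rcases JNodeE_pm (Nat.mul_pos he (mem_Icc.1 hm).1).ne' with h | h <;> rw [h] <;> norm_num

theorem JNodeE_err {C : ℝ} (hC : 0 < C)
    (hL : ∀ t : ℕ, 2 ≤ t → |(LL t : ℝ)| ≤ C * t / Real.log t ^ 8) (x e : ℕ) (he : 0 < e) (t : ℝ)
    (ht : 8 ≤ t) (hx : Real.exp (Real.log 2 * t / 2) * e ≤ x) :
    |(((Icc 1 x).filter (fun n => e ∣ n ∧ ArithmeticFunction.liouville n = 1)).card : ℝ) -
      x / (2 * e)| ≤ 1 + C * 4 ^ 8 * x / (e * t ^ 8) := by
  have he' : (0 : ℝ) < e := by exact_mod_cast he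
  have h1 : ((x / e : ℕ) : ℝ) ≤ x / e := Nat.cast_div_le
  have h2 : (x : ℝ) / e < (x / e : ℕ) + 1 := by
    rw [← Nat.floor_div_eq_div (K := ℝ)]
    exact Nat.lt_floor_add_one _
  have h3 : Real.exp (Real.log 2 * t / 2) ≤ x / e := (le_div_iff₀ he').2 hx
  have hl := Real.log_two_gt_d9
  have h4 : Real.exp (Real.log 2 * t / 2) = 2 * Real.exp (Real.log 2 * (t / 2 - 1)) := by
    rw [show Real.log 2 * t / 2 = Real.log 2 + Real.log 2 * (t / 2 - 1) by ring, Real.exp_add,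
      Real.exp_log (by norm_num)]
  have h5 : t / 4 ≤ Real.log 2 * (t / 2 - 1) := by nlinarith
  have h6 : t / 4 + 1 ≤ Real.exp (Real.log 2 * (t / 2 - 1)) :=
    (Real.add_one_le_exp _).trans (Real.exp_le_exp.2 h5)
  have h7 : Real.exp (Real.log 2 * (t / 2 - 1)) ≤ (x / e : ℕ) := by linarith
  have h8 : 2 ≤ x / e := by
    have : (2 : ℝ) ≤ (x / e : ℕ) := by linarith
    exact_mod_cast this
  have h9 : t / 4 ≤ Real.log (x / e : ℕ) := h5.trans ((Real.le_log_iff_exp_le (by linarith)).2 h7)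
  have g1 : |(LL (x / e) : ℝ)| ≤ C * 4 ^ 8 * x / (e * t ^ 8) := by
    refine (hL _ h8).trans ?_
    calc C * (x / e : ℕ) / Real.log (x / e : ℕ) ^ 8 ≤ C * (x / e) / (t / 4) ^ 8 := by gcongr
      _ = _ := by field_simp
  have g2 : 2 * (((Icc 1 x).filter (fun n => e ∣ n ∧ ArithmeticFunction.liouville n = 1)).card : ℝ)
      = (x / e : ℕ) + (ArithmeticFunction.liouville e : ℤ) * (LL (x / e) : ℝ) := by
    have g0 := congrArg (Int.cast : ℤ → ℝ) (JNodeE_count x e he)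
    simpa only [Int.cast_mul, Int.cast_add, Int.cast_natCast, Int.cast_ofNat] using g0
  have g3 : (x : ℝ) / (2 * e) = x / e / 2 := by field_simp
  have g4 := abs_le.1 g1
  rw [g3, abs_le]
  rcases JNodeE_pm he.ne' with h | h <;> rw [h] at g2 <;> push_cast at g2 <;> constructor <;>
    linarith [g4.1, g4.2, abs_nonneg (LL (x / e) : ℝ)]

theorem node_E : ∃ C : ℝ, 0 < C ∧ ∀ (t0 k0 t d : ℕ), 8 ≤ k0 → k0 ≤ t → 1 ≤ d →
    2 ^ t * d ≤ 2 ^ t0 → (∀ r : ℕ, r.Prime → r ∣ d → 2 ^ (k0 - 1) ≤ r) →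
    |2 * (cntE (2 ^ t0) d (2 ^ (k0 - 1)) : ℝ) / 2 ^ t0 -
      (∏ r ∈ PP 0 (2 ^ (k0 - 1)), (1 - 1 / (r : ℝ))) / d| ≤ psi C k0 t / d := by
  obtain ⟨C0, hC0, hs⟩ := sieve
  obtain ⟨C1, hC1, hL⟩ := liouville_bound
  obtain ⟨c, C2, -, hC2, hM⟩ := mertens_prod
  refine ⟨C0 * C2 + (2 * (5040 * 3 ^ 7) + 2 * (C1 * 4 ^ 8)), by positivity,
    fun t0 k0 t d hk hkt hd hx hr => ?_⟩
  have hl := Real.log_two_gt_d9
  have hl' := Real.log_two_lt_d9
  have ht : (8 : ℝ) ≤ t := by exact_mod_cast hk.trans hkt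
  have hk' : (8 : ℝ) ≤ k0 := by exact_mod_cast hk
  have hkt' : (k0 : ℝ) ≤ t := by exact_mod_cast hkt
  have hd' : (0 : ℝ) < d := by exact_mod_cast hd
  obtain ⟨D, hD⟩ : ∃ D, D = Real.exp (Real.log 2 * t / 2) := ⟨_, rfl⟩
  have hD0 : 0 < D := hD ▸ Real.exp_pos _
  have hD1 : 1 ≤ D := hD ▸ Real.one_le_exp (by positivity)
  have hD2 : D * D = 2 ^ t := by
    rw [hD, ← Real.exp_add, add_halves, mul_comm, Real.exp_nat_mul, Real.exp_log (by norm_num)]
  have hlD : Real.log D = Real.log 2 * t / 2 := by rw [hD, Real.log_exp]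
  have hx' : D * D * d ≤ 2 ^ t0 := by rw [hD2]; exact_mod_cast hx
  have hw : 2 ≤ 2 ^ (k0 - 1) := by
    calc 2 = 2 ^ 1 := rfl
      _ ≤ _ := Nat.pow_le_pow_right (by norm_num) (by omega)
  have hS : ∀ r ∈ PP 0 (2 ^ (k0 - 1)), r.Prime := fun r h => (mem_PP.1 h).2.1
  have key := hs ((Icc 1 (2 ^ t0)).filter (fun n => d ∣ n ∧ ArithmeticFunction.liouville n = 1))
    (fun _ => 1) (fun r n => r ∣ n) (PP 0 (2 ^ (k0 - 1))) ((2 ^ (k0 - 1) : ℕ) : ℝ) D
    (2 ^ t0 / (2 * d)) (fun r => 1 / (r : ℝ))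
    (fun T => 1 + C1 * 4 ^ 8 * 2 ^ t0 / (d * t ^ 8) * (1 / pr T)) (by exact_mod_cast hw)
    (by
      rw [show D ^ 4 = D * D * (D * D) by ring, hD2, ← pow_add]
      exact_mod_cast Nat.pow_le_pow_right (by norm_num) (by omega)) hD1
    (fun r h => ⟨hS r h, by exact_mod_cast (mem_PP.1 h).1⟩) (fun r h => by
      have : (2 : ℝ) ≤ r := by exact_mod_cast (hS r h).two_le
      exact ⟨by positivity, one_div_le_one_div_of_le (by norm_num) this,
        one_div_le_one_div_of_le (by linarith) (by linarith)⟩)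
    (fun _ _ => zero_le_one) (by positivity) (fun T hT hTD => by
      have hT' : ∀ r ∈ T, r.Prime := fun r h => hS r (hT h)
      have hp := pr_pos hT'
      have hp' : (0 : ℝ) < pr T := by exact_mod_cast hp
      have hc : Nat.Coprime d (pr T) := Nat.coprime_of_dvd fun r h1 h2 h3 => by
        have := (mem_PP.1 (hT ((prime_dvd_pr hT' h1).1 h3))).1
        have := hr r h1 h2
        omega
      have h1 := JNodeE_err hC1 hL (2 ^ t0) (d * pr T) (Nat.mul_pos hd hp) t ht (by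
        rw [← hD]
        push_cast
        calc D * (d * pr T) ≤ D * (d * D) := by gcongr
          _ = D * D * d := by ring
          _ ≤ _ := hx')
      have h2 : ((Icc 1 (2 ^ t0)).filter
          (fun n => d ∣ n ∧ ArithmeticFunction.liouville n = 1)).filter (fun n => ∀ r ∈ T, r ∣ n) =
          (Icc 1 (2 ^ t0)).filter (fun n => d * pr T ∣ n ∧ ArithmeticFunction.liouville n = 1) := by
        rw [filter_filter]
        refine filter_congr fun n _ => ?_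
        rw [← pr_dvd_iff_nat hT']
        exact ⟨fun h => ⟨hc.mul_dvd_of_dvd_of_dvd h.1.1 h.2, h.1.2⟩,
          fun h => ⟨⟨(dvd_mul_right _ _).trans h.1, h.2⟩, (dvd_mul_left _ _).trans h.1⟩⟩
      have h3 : ∏ r ∈ T, 1 / (r : ℝ) = 1 / pr T := by
        rw [prod_div_distrib, prod_const_one, pr, Nat.cast_prod]
      rw [h2, h3, sum_const, nsmul_eq_mul, mul_one]
      push_cast at h1
      convert h1 using 2
      · field_simp
      · field_simp)
  have h1 : ∀ s : Finset ℕ, (∀ n, n ∈ s ↔ n ∈ (Icc 1 (2 ^ t0)).filter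
      (fun n => d ∣ n ∧ ArithmeticFunction.liouville n = 1) ∧
      ∀ r ∈ PP 0 (2 ^ (k0 - 1)), ¬ r ∣ n) → ∑ _x ∈ s, (1 : ℝ) = cntE (2 ^ t0) d (2 ^ (k0 - 1)) := by
    intro s h
    rw [sum_const, nsmul_eq_mul, mul_one, cntE]
    congr 2
    ext n
    simp only [h, mem_filter, mem_PP, and_assoc, Nat.zero_le, and_true, and_imp]
  obtain ⟨h2, h3⟩ := level_card _ hS D hD1
  have h4 := (hM _ hw).2
  rw [kk_two_pow (by omega)] at h4
  have h5 : Real.exp (-4 * Real.log D / Real.log ((2 ^ (k0 - 1) : ℕ) : ℝ)) ≤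
      Real.exp (-2 * t / k0) := by
    rw [hlD, Nat.cast_pow, Real.log_pow, Nat.cast_sub (by omega), Nat.cast_one, Nat.cast_ofNat]
    refine Real.exp_le_exp.2 ?_
    have h6 : (0 : ℝ) < k0 - 1 := by linarith
    rw [div_le_div_iff₀ (by positivity) (by positivity)]
    nlinarith [mul_pos (by linarith : (0 : ℝ) < t) (by linarith : 0 < Real.log 2)]
  have h6 : (t : ℝ) ^ 7 ≤ 5040 * 3 ^ 7 * D := by
    have h7 := Real.pow_div_factorial_le_exp ((t : ℝ) / 3) (by positivity) 7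
    have h8 : Real.exp ((t : ℝ) / 3) ≤ D := hD ▸ Real.exp_le_exp.2 (by nlinarith)
    norm_num [Nat.factorial, div_pow] at h7
    linarith
  have hP : 0 ≤ ∏ r ∈ PP 0 (2 ^ (k0 - 1)), (1 - 1 / (r : ℝ)) := prod_nonneg fun r h => by
    have : (1 : ℝ) ≤ r := by exact_mod_cast (hS r h).pos
    rw [sub_nonneg, div_le_one (by linarith)]
    exact this
  rw [h1 _ (fun n => mem_filter), sum_add_distrib, ← mul_sum, sum_const, nsmul_eq_mul, mul_one] at key
  generalize ∏ r ∈ PP 0 (2 ^ (k0 - 1)), (1 - 1 / (r : ℝ)) = P at *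
  generalize (cntE (2 ^ t0) d (2 ^ (k0 - 1)) : ℝ) = N at *
  have hX : (0 : ℝ) < 2 ^ t0 := by positivity
  generalize (2 : ℝ) ^ t0 = X at *
  have ht0 : (0 : ℝ) < t := by linarith
  have g1 : |N - X / (2 * d) * P| ≤ C0 * Real.exp (-2 * t / k0) * (X / (2 * d) * (C2 / k0)) +
      (D + C1 * 4 ^ 8 * X / (d * t ^ 8) * t) := by
    refine key.trans ?_
    have : 1 + Real.log D ≤ t := by rw [hlD]; nlinarith
    gcongr
    exact h3.trans this
  have g2 : 2 * N / X - P / d = 2 / X * (N - X / (2 * d) * P) := by field_simp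
  have g3 : 2 / X * D ≤ 2 * (5040 * 3 ^ 7) / (d * t ^ 7) := by
    rw [div_mul_eq_mul_div, div_le_div_iff₀ hX (by positivity)]
    calc 2 * D * (d * (t : ℝ) ^ 7) ≤ 2 * D * (d * (5040 * 3 ^ 7 * D)) := by gcongr
      _ = 2 * (5040 * 3 ^ 7) * (D * D * d) := by ring
      _ ≤ _ := by gcongr
  rw [g2, abs_mul, abs_of_pos (by positivity : 0 < 2 / X)]
  have hE := Real.exp_pos (-2 * t / k0)
  calc 2 / X * |N - X / (2 * d) * P| ≤ 2 / X * (C0 * Real.exp (-2 * t / k0) *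
        (X / (2 * d) * (C2 / k0)) + (D + C1 * 4 ^ 8 * X / (d * t ^ 8) * t)) := by gcongr
    _ = C0 * C2 * (Real.exp (-2 * t / k0) / k0) / d + 2 / X * D +
        2 * (C1 * 4 ^ 8) / (d * t ^ 7) := by field_simp; ring
    _ ≤ C0 * C2 * (Real.exp (-2 * t / k0) / k0) / d + 2 * (5040 * 3 ^ 7) / (d * t ^ 7) +
        2 * (C1 * 4 ^ 8) / (d * t ^ 7) := by gcongr
    _ = (C0 * C2 * (Real.exp (-2 * t / k0) / k0) +
        (2 * (5040 * 3 ^ 7) + 2 * (C1 * 4 ^ 8)) * (1 / (t : ℝ) ^ 7)) / d := by field_simp; ring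
    _ ≤ _ := by
      rw [psi]
      gcongr
      have a1 : 0 ≤ C0 * C2 * (1 / (t : ℝ) ^ 7) := by positivity
      have a2 : 0 ≤ (2 * (5040 * 3 ^ 7) + 2 * (C1 * 4 ^ 8)) * (Real.exp (-2 * t / k0) / k0) := by
        positivity
      linarith [add_mul (C0 * C2) (2 * (5040 * 3 ^ 7) + 2 * (C1 * 4 ^ 8))
        (Real.exp (-2 * t / k0) / k0 + 1 / (t : ℝ) ^ 7), mul_add (C0 * C2)
        (Real.exp (-2 * t / k0) / k0) (1 / (t : ℝ) ^ 7), mul_add
        (2 * (5040 * 3 ^ 7) + 2 * (C1 * 4 ^ 8)) (Real.exp (-2 * t / k0) / k0) (1 / (t : ℝ) ^ 7)]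

end

end Pool.Agent.Jac
end

-- part Pool.Agent.P.MP_45ff98_nt.JBd
section

/-! Boundary terms for the Liouville class. -/

namespace Pool.Agent.Jac
open Finset

noncomputable section

theorem jbd_cnt {k : ℕ} (hk : 2 ≤ k) (S : Finset ℕ) {Y : ℝ} (hY : 0 ≤ Y)
    (hS : ∀ q ∈ S, q.Prime ∧ 2 ^ (k - 1) ≤ q ∧ (q : ℝ) ≤ Y) :
    (S.card : ℝ) ≤ 2 * Y / ((k : ℝ) - 1) := by
  have hk1 : (0 : ℝ) < (k : ℝ) - 1 := by
    have : (2 : ℝ) ≤ k := by exact_mod_cast hk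
    linarith
  have hl : 0 < Real.log 2 := Real.log_pos (by norm_num)
  have h1 : ∑ q ∈ S, ((k : ℝ) - 1) * Real.log 2 ≤ ∑ q ∈ S, Real.log q := by
    refine sum_le_sum fun q hq => ?_
    have h2 : ((2 : ℝ)) ^ (k - 1) ≤ q := by exact_mod_cast (hS q hq).2.1
    have h3 := Real.log_le_log (by positivity) h2
    rw [Real.log_pow, Nat.cast_sub (by omega)] at h3
    simpa using h3
  have h2 : ∑ q ∈ S, Real.log q ≤ Chebyshev.theta Y := by
    unfold Chebyshev.theta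
    refine sum_le_sum_of_subset_of_nonneg (fun q hq => ?_) fun q _ _ => Real.log_natCast_nonneg q
    obtain ⟨a, -, c⟩ := hS q hq
    exact mem_filter.2 ⟨mem_Ioc.2 ⟨a.pos, Nat.le_floor c⟩, a⟩
  have h3 := Chebyshev.theta_le_log4_mul_x hY
  have h4 : Real.log 4 = 2 * Real.log 2 := by
    rw [show (4 : ℝ) = 2 ^ 2 by norm_num, Real.log_pow]; norm_num
  rw [sum_const, nsmul_eq_mul] at h1
  rw [le_div_iff₀ hk1]
  have h5 : (S.card * ((k : ℝ) - 1)) * Real.log 2 ≤ (2 * Y) * Real.log 2 := by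
    rw [h4] at h3; nlinarith
  exact le_of_mul_le_mul_right h5 hl

theorem jbd_sum {k : ℕ} (hk : 2 ≤ k) (om : ℕ) (S : Finset ℕ)
    (hS : ∀ q ∈ S, q.Prime ∧ k ≤ kk q ∧ kk q ≤ k + om) :
    ∑ q ∈ S, 1 / (q : ℝ) ≤ ((om : ℝ) + 1) * (4 / ((k : ℝ) - 1)) := by
  have hk1 : (0 : ℝ) < (k : ℝ) - 1 := by
    have : (2 : ℝ) ≤ k := by exact_mod_cast hk
    linarith
  rw [← sum_fiberwise_of_maps_to (g := kk) (t := Icc k (k + om))
    (fun q hq => mem_Icc.2 (hS q hq).2)]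
  have h : ∀ j ∈ Icc k (k + om), ∑ q ∈ S.filter (fun q => kk q = j), 1 / (q : ℝ) ≤
      4 / ((k : ℝ) - 1) := by
    intro j hj
    have hkj := (mem_Icc.1 hj).1
    have hj1 : ((k : ℝ) - 1) ≤ (j : ℝ) - 1 := by
      have : (k : ℝ) ≤ j := by exact_mod_cast hkj
      linarith
    have h1 : ∀ q ∈ S.filter (fun q => kk q = j), 1 / (q : ℝ) ≤ 1 / 2 ^ (j - 1) := by
      intro q hq
      obtain ⟨h1, rfl⟩ := mem_filter.1 hq
      exact one_div_le_one_div_of_le (by positivity)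
        (by exact_mod_cast two_pow_kk_le (hS q h1).1.ne_zero)
    refine (sum_le_card_nsmul _ _ _ h1).trans ?_
    have h2 := jbd_cnt (k := j) (by omega) (S.filter (fun q => kk q = j)) (Y := 2 ^ j)
      (by positivity) (fun q hq => by
        obtain ⟨g1, g2⟩ := mem_filter.1 hq
        rw [← g2]
        exact ⟨(hS q g1).1, two_pow_kk_le (hS q g1).1.ne_zero,
          by exact_mod_cast (lt_two_pow_kk q).le⟩)
    have h3 : (2 : ℝ) ^ j = 2 * 2 ^ (j - 1) := by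
      rw [← pow_succ']; congr 1; omega
    rw [nsmul_eq_mul]
    calc ((S.filter (fun q => kk q = j)).card : ℝ) * (1 / 2 ^ (j - 1))
        ≤ 2 * 2 ^ j / ((j : ℝ) - 1) * (1 / 2 ^ (j - 1)) :=
          mul_le_mul_of_nonneg_right h2 (by positivity)
      _ = 4 / ((j : ℝ) - 1) := by
          have : (j : ℝ) - 1 ≠ 0 := by linarith
          rw [h3]; field_simp; norm_num
      _ ≤ 4 / ((k : ℝ) - 1) := div_le_div_of_nonneg_left (by norm_num) hk1 hj1
  refine (sum_le_card_nsmul _ _ _ h).trans ?_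
  rw [nsmul_eq_mul, Nat.card_Icc, show k + om + 1 - k = om + 1 by omega]
  push_cast
  exact le_rfl

theorem jbd_lam_prime {q : ℕ} (hq : q.Prime) : ArithmeticFunction.liouville q = -1 := by
  rw [ArithmeticFunction.liouville_apply hq.ne_zero, ArithmeticFunction.cardFactors_apply_prime hq]
  simp

theorem jbd_shape {m B : ℕ} (hl : ArithmeticFunction.liouville m = 1)
    (hp : ∀ r, r.Prime → r ∣ m → B ≤ r) (hm : m < B ^ 3) (h0 : m ≠ 0) :
    m = 1 ∨ ∃ q r : ℕ, q.Prime ∧ r.Prime ∧ q ≤ r ∧ m = q * r := by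
  by_cases h1 : m = 1
  · exact Or.inl h1
  right
  have hq := Nat.minFac_prime h1
  obtain ⟨m1, e1⟩ := Nat.minFac_dvd m
  have l1 : ArithmeticFunction.liouville m1 = -1 := by
    rw [e1, ArithmeticFunction.liouville_apply_mul, jbd_lam_prime hq] at hl
    omega
  have h2 : m1 ≠ 1 := by
    rintro rfl
    rw [ArithmeticFunction.liouville_apply_one] at l1
    omega
  have hr := Nat.minFac_prime h2
  obtain ⟨m2, e2⟩ := Nat.minFac_dvd m1
  have d1 : m1 ∣ m := Dvd.intro_left _ e1.symm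
  have d2 : m2 ∣ m1 := Dvd.intro_left _ e2.symm
  refine ⟨m.minFac, m1.minFac, hq, hr,
    Nat.minFac_le_of_dvd hr.two_le ((Nat.minFac_dvd m1).trans d1), ?_⟩
  by_cases h3 : m2 = 1
  · rw [h3, mul_one] at e2
    rw [← e2]; exact e1
  exfalso
  have hs := Nat.minFac_prime h3
  have m20 : 0 < m2 := Nat.pos_of_ne_zero fun h => h0 (by rw [e1, e2, h]; simp)
  have a1 := hp _ hq (Nat.minFac_dvd m)
  have a2 := hp _ hr ((Nat.minFac_dvd m1).trans d1)
  have a3 := (hp _ hs ((Nat.minFac_dvd m2).trans (d2.trans d1))).trans (Nat.minFac_le m20)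
  have b1 : B * B ≤ m1 := by rw [e2]; exact Nat.mul_le_mul a2 a3
  have b2 : B * (B * B) ≤ m := by rw [e1]; exact Nat.mul_le_mul a1 b1
  have : B ^ 3 = B * (B * B) := by ring
  omega

theorem bd_err : ∃ C : ℝ, 0 < C ∧ ∀ (t0 t om d p : ℕ), p.Prime → om + 3 ≤ kk p → t < 2 * kk p →
    1 ≤ d → 2 ^ t * d ≤ 2 ^ t0 → 2 ^ t0 ≤ 2 ^ (t + om) * d → ArithmeticFunction.liouville d = 1 →
    2 * (cntE (2 ^ t0) d p : ℝ) / 2 ^ t0 ≤ bd C (om + 3) t (kk p) / d := by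
  classical
  refine ⟨36, by norm_num, fun t0 t om d p hp hk ht hd h1 h2 hl => ?_⟩
  set k := kk p with hkdef
  set x := 2 ^ t0 with hx
  have hpk : 2 ^ (k - 1) ≤ p := two_pow_kk_le hp.ne_zero
  set Q1 := (range (x + 1)).filter (fun q => q.Prime ∧ k ≤ kk q ∧ kk q ≤ k + om) with hQ1
  set Q2 : ℕ → Finset ℕ := fun q =>
    (range (x + 1)).filter (fun r => r.Prime ∧ 2 ^ (k - 1) ≤ r ∧ d * (q * r) ≤ x) with hQ2
  set A := (Icc 1 x).filter (fun n : ℕ => d ∣ n ∧ ArithmeticFunction.liouville n = 1 ∧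
    ∀ r < p, r.Prime → ¬ r ∣ n) with hA
  have hcnt : cntE x d p = A.card := by
    unfold cntE
    congr 1
  have key : ∀ n ∈ A, n = d ∨ (2 * k ≤ t + (om + 3) ∧
      ∃ q ∈ Q1, ∃ r ∈ Q2 q, d * (q * r) = n) := by
    intro n hn
    obtain ⟨hn1, ⟨m, rfl⟩, hn2, hn3⟩ := mem_filter.1 hn
    obtain ⟨hn0, hnx⟩ := mem_Icc.1 hn1
    have m0 : m ≠ 0 := by rintro rfl; simp at hn0
    have hm : m ≤ 2 ^ (t + om) := by
      have : d * m ≤ d * 2 ^ (t + om) := by rw [mul_comm d (2 ^ (t + om))]; exact hnx.trans h2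
      exact Nat.le_of_mul_le_mul_left this hd
    have lm : ArithmeticFunction.liouville m = 1 := by
      rw [ArithmeticFunction.liouville_apply_mul, hl, one_mul] at hn2; exact hn2
    have hpr : ∀ r, r.Prime → r ∣ m → p ≤ r := fun r hr hrm => by
      by_contra hc
      exact hn3 r (not_le.1 hc) hr (hrm.mul_left d)
    have hlt : m < (2 ^ (k - 1)) ^ 3 := by
      rw [← pow_mul]
      exact lt_of_le_of_lt hm (Nat.pow_lt_pow_right (by norm_num) (by omega))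
    rcases jbd_shape lm (fun r hr hrm => hpk.trans (hpr r hr hrm)) hlt m0 with rfl | ⟨q, r, hq, hr, hqr, rfl⟩
    · left; simp
    right
    have pq := hpr q hq (Dvd.intro _ rfl)
    have kq : k ≤ kk q := kk_mono pq
    have e1 : 2 ^ (kk q - 1) ≤ q := two_pow_kk_le hq.ne_zero
    have e2 : 2 ^ (kk q - 1 + (kk q - 1)) ≤ 2 ^ (t + om) := by
      rw [pow_add]
      exact (Nat.mul_le_mul e1 (e1.trans hqr)).trans hm
    have e3 := (Nat.pow_le_pow_iff_right (by norm_num)).1 e2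
    have e4 : q * r ≤ x := (Nat.le_mul_of_pos_left _ hd).trans hnx
    have e5 : r ≤ x := (Nat.le_mul_of_pos_left _ hq.pos).trans e4
    refine ⟨by omega, q, mem_filter.2 ⟨mem_range.2 (by omega), hq, kq, by omega⟩, r,
      mem_filter.2 ⟨mem_range.2 (by omega), hr, hpk.trans (pq.trans hqr), hnx⟩, rfl⟩
  have hd0 : (0 : ℝ) < d := by exact_mod_cast hd
  have hxr : ((2 : ℝ)) ^ t0 = (x : ℝ) := by rw [hx]; push_cast; rfl
  have hx0 : (0 : ℝ) < x := by rw [← hxr]; positivity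
  have h1r : (2 : ℝ) ^ t * d ≤ x := by exact_mod_cast h1
  have first : 2 * 1 / (x : ℝ) ≤ 36 * (1 / 2 ^ t) / d := by
    rw [div_le_div_iff₀ hx0 hd0]
    have ht0 : (0 : ℝ) < 2 ^ t := by positivity
    have : (d : ℝ) ≤ 1 / 2 ^ t * x := by
      rw [one_div, inv_mul_eq_div, le_div_iff₀ ht0]; linarith
    nlinarith
  rw [hcnt, hxr]
  unfold bd
  split_ifs with hc
  · have hsub : A ⊆ insert d (Q1.biUnion fun q => (Q2 q).image fun r => d * (q * r)) := by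
      intro n hn
      rcases key n hn with rfl | ⟨-, q, hq, r, hr, rfl⟩
      · exact mem_insert_self _ _
      · exact mem_insert_of_mem (mem_biUnion.2 ⟨q, hq, mem_image.2 ⟨r, hr, rfl⟩⟩)
    have c1 : A.card ≤ ∑ q ∈ Q1, (Q2 q).card + 1 :=
      (card_le_card hsub).trans ((card_insert_le _ _).trans (Nat.add_le_add_right
        (card_biUnion_le.trans (sum_le_sum fun q _ => card_image_le)) 1))
    have hk3 : (3 : ℝ) ≤ k := by exact_mod_cast (show 3 ≤ k by omega)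
    have hk1 : (0 : ℝ) < (k : ℝ) - 1 := by linarith
    have c2 : ∀ q ∈ Q1, ((Q2 q).card : ℝ) ≤ 2 * (x / d) / ((k : ℝ) - 1) * (1 / q) := by
      intro q hq
      have hq0 : (0 : ℝ) < q := by exact_mod_cast (mem_filter.1 hq).2.1.pos
      refine (jbd_cnt (k := k) (by omega) (Q2 q) (Y := x / d / q) (by positivity)
        fun r hr => ?_).trans (le_of_eq (by field_simp))
      obtain ⟨-, a, b, c⟩ := mem_filter.1 hr
      refine ⟨a, b, ?_⟩
      rw [le_div_iff₀ hq0, le_div_iff₀ hd0]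
      have : (d : ℝ) * (q * r) ≤ x := by exact_mod_cast c
      linarith
    have c3 := jbd_sum (k := k) (by omega) om Q1 fun q hq => (mem_filter.1 hq).2
    have c4 : (A.card : ℝ) ≤
        2 * (x / d) / ((k : ℝ) - 1) * (((om : ℝ) + 1) * (4 / ((k : ℝ) - 1))) + 1 := by
      have a : (A.card : ℝ) ≤ ∑ q ∈ Q1, ((Q2 q).card : ℝ) + 1 := by exact_mod_cast c1
      have b := sum_le_sum c2
      rw [← mul_sum] at b
      have c := mul_le_mul_of_nonneg_left c3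
        (show (0 : ℝ) ≤ 2 * (x / d) / ((k : ℝ) - 1) by positivity)
      linarith
    have second : 2 * (2 * (x / d) / ((k : ℝ) - 1) * (((om : ℝ) + 1) * (4 / ((k : ℝ) - 1)))) / x ≤
        36 * (((om + 3 : ℕ) : ℝ) / (k : ℝ) ^ 2) / d := by
      have e : 2 * (2 * (x / d) / ((k : ℝ) - 1) * (((om : ℝ) + 1) * (4 / ((k : ℝ) - 1)))) / x =
          16 * ((om : ℝ) + 1) / ((k : ℝ) - 1) ^ 2 / d := by
        field_simp; ring
      rw [e]
      refine div_le_div_of_nonneg_right ?_ hd0.le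
      rw [← mul_div_assoc, div_le_div_iff₀ (by positivity) (by positivity)]
      push_cast
      have o0 : (0 : ℝ) ≤ om := Nat.cast_nonneg om
      have q1 : 16 * (k : ℝ) ^ 2 ≤ 36 * ((k : ℝ) - 1) ^ 2 := by nlinarith
      have q2 := mul_le_mul_of_nonneg_left q1 (show (0 : ℝ) ≤ om + 1 by linarith)
      have q3 : (0 : ℝ) ≤ ((k : ℝ) - 1) ^ 2 := by positivity
      nlinarith
    calc 2 * (A.card : ℝ) / x
        ≤ 2 * (2 * (x / d) / ((k : ℝ) - 1) * (((om : ℝ) + 1) * (4 / ((k : ℝ) - 1))) + 1) / x :=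
          div_le_div_of_nonneg_right (by linarith) hx0.le
      _ = 2 * 1 / (x : ℝ) +
          2 * (2 * (x / d) / ((k : ℝ) - 1) * (((om : ℝ) + 1) * (4 / ((k : ℝ) - 1)))) / x := by
          ring
      _ ≤ 36 * (1 / 2 ^ t) / d + 36 * (((om + 3 : ℕ) : ℝ) / (k : ℝ) ^ 2) / d :=
          add_le_add first second
      _ = _ := by ring
  · have hsub : A ⊆ {d} := by
      intro n hn
      rcases key n hn with rfl | ⟨h, -⟩
      · exact mem_singleton_self _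
      · exact absurd h hc
    have c1 : (A.card : ℝ) ≤ 1 := by
      exact_mod_cast (card_le_card hsub).trans (card_singleton d).le
    rw [add_zero]
    exact (div_le_div_of_nonneg_right (by linarith) hx0.le).trans first

end

end Pool.Agent.Jac
end

-- part Pool.Agent.P.MP_45ff98_nt.JMS
section

/-! The main sieve inequality. -/

namespace Pool.Agent.Jac
open Finset

noncomputable section

theorem JMS_psi_add (C C' : ℝ) (k0 t : ℕ) : psi (C + C') k0 t = psi C k0 t + psi C' k0 t := by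
  unfold psi; ring

theorem JMS_psi_nonneg {C : ℝ} (h : 0 ≤ C) (k0 t : ℕ) : 0 ≤ psi C k0 t := by
  unfold psi; positivity

theorem JMS_bd_add (C C' : ℝ) (G t k : ℕ) : bd (C + C') G t k = bd C G t k + bd C' G t k := by
  unfold bd; ring

theorem JMS_bd_nonneg {C : ℝ} (h : 0 ≤ C) (G t k : ℕ) : 0 ≤ bd C G t k := by
  unfold bd
  refine mul_nonneg h (add_nonneg (by positivity) ?_)
  split_ifs <;> positivity

theorem JMS_liou (T : Finset ℕ) (h : ∀ p ∈ T, p.Prime) :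
    ArithmeticFunction.liouville (pr T) = (-1) ^ T.card := by
  induction T using Finset.induction_on with
  | empty => simp [pr, ArithmeticFunction.liouville_apply_one]
  | insert q T hq ih =>
    have hp : q.Prime := h q (mem_insert_self _ _)
    rw [pr_insert hq, ArithmeticFunction.liouville_apply_mul,
      ih fun p hp => h p (mem_insert_of_mem hp), card_insert_of_notMem hq,
      ArithmeticFunction.liouville_apply hp.ne_zero,
      ArithmeticFunction.cardFactors_apply_prime hp]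
    ring

theorem JMS_cntE_le (x d p : ℕ) : (cntE x d p : ℝ) ≤ x / d := by
  have h1 : cntE x d p ≤ ((Ioc 0 x).filter (fun n => d ∣ n)).card := by
    refine card_le_card fun n hn => ?_
    rw [mem_filter, mem_Icc] at hn
    rw [mem_filter, mem_Ioc]
    exact ⟨⟨hn.1.1, hn.1.2⟩, hn.2.1⟩
  rw [Nat.Ioc_filter_dvd_card_eq_div] at h1
  exact (Nat.cast_le.2 h1).trans Nat.cast_div_le

theorem JMS_level {T : Finset ℕ} {t0 : ℕ} (h : ks T ≤ t0) :
    2 ^ (t0 - ks T) * pr T ≤ 2 ^ t0 := by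
  calc 2 ^ (t0 - ks T) * pr T ≤ 2 ^ (t0 - ks T) * 2 ^ ks T :=
        Nat.mul_le_mul_left _ (pr_le_two_pow T)
    _ = 2 ^ t0 := by rw [← pow_add]; congr 1; omega

theorem JMS_level2 {T : Finset ℕ} {t0 om : ℕ} (h : ks T ≤ t0) (hT : ∀ p ∈ T, p.Prime)
    (hc : T.card ≤ om) : 2 ^ t0 ≤ 2 ^ (t0 - ks T + om) * pr T := by
  calc 2 ^ t0 = 2 ^ (t0 - ks T) * 2 ^ ks T := by rw [← pow_add]; congr 1; omega
    _ ≤ 2 ^ (t0 - ks T) * (2 ^ T.card * pr T) := Nat.mul_le_mul_left _ (two_pow_ks_le hT)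
    _ ≤ 2 ^ (t0 - ks T) * (2 ^ om * pr T) :=
        Nat.mul_le_mul_left _ (Nat.mul_le_mul_right _ (Nat.pow_le_pow_right (by norm_num) hc))
    _ = 2 ^ (t0 - ks T + om) * pr T := by rw [pow_add, mul_assoc]

theorem JMS_sign {u v w a b : ℝ} (n : ℕ) (h1 : |u - w| ≤ a) (h2 : |v - w| ≤ b) :
    (-1) ^ n * v ≤ (-1) ^ n * u + (a + b) := by
  rw [abs_le] at h1 h2
  rcases neg_one_pow_eq_or ℝ n with h | h <;> rw [h] <;> linarith [h1.1, h1.2, h2.1, h2.2]

theorem main_sieve : ∃ C : ℝ, 0 < C ∧ ∀ (P : Par) (N : ℤ) (y z a t0 om : ℕ), HB P.k0 → 8 ≤ P.k0 →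
    om + 3 ≤ P.k0 → 2 ^ (P.k0 - 1) ≤ z → t0 = 2 * (kk z + a) + 1 → 1 ≤ y →
    (2 ^ t0) ^ 4 ≤ 2 ^ P.k0 * y ^ 4 →
    (a : ℝ) / (t0 : ℝ) ^ 2 - UU C (om + 3) P.k0 0 t0 z - 2 * Cap z om +
      ∑ T ∈ fam P 0 t0 z, (cntA N y (pr T) (mn T) : ℝ) / y ≤ (cntA N y 1 z : ℝ) / y := by
  classical
  obtain ⟨CA, hCA, HA⟩ := node_A
  obtain ⟨CE, hCE, HE⟩ := node_E
  obtain ⟨CB, hCB, HBd⟩ := bd_err
  refine ⟨CA + CE + CB, by positivity, fun P N y z a t0 om hB h8 hom hz ht hy hY => ?_⟩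
  have hz0 : z ≠ 0 := by
    have : 0 < 2 ^ (P.k0 - 1) := by positivity
    omega
  have hk : P.k0 ≤ kk z := (le_kk_iff hz0).2 hz
  have hSt : St 0 t0 (kk z) := ⟨by omega, fun _ => by omega⟩
  have hmem : ∀ T ∈ (PP P.k0 z).powerset, (∀ p ∈ T, p.Prime) ∧ (∀ p ∈ T, kk p ≤ kk z) ∧
      ∀ p ∈ T, P.k0 ≤ kk p := fun T hT => by
    rw [mem_powerset] at hT
    exact ⟨fun p hp => (mem_PP.1 (hT hp)).2.1, fun p hp => kk_mono (mem_PP.1 (hT hp)).1.le,
      fun p hp => (mem_PP.1 (hT hp)).2.2⟩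
  have hroot := root hB hk ht
  have hA := cntA_tree N y P.k0 t0 z hz
  have hE := cntE_tree (2 ^ t0) P.k0 t0 z hz
  have hA' : (cntA N y 1 z : ℝ) / y =
      ∑ T ∈ vals P.k0 0 t0 z, (-1) ^ T.card * ((cntA N y (pr T) (2 ^ (P.k0 - 1)) : ℝ) / y) +
        ∑ T ∈ bds P.k0 0 t0 z, (cntA N y (pr T) (mn T) : ℝ) / y := by
    rw [hA, add_div, sum_div, sum_div]
    congr 1
    exact sum_congr rfl fun T _ => by ring
  have hE' : 2 * (cntE (2 ^ t0) 1 z : ℝ) / 2 ^ t0 =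
      ∑ T ∈ vals P.k0 0 t0 z,
        (-1) ^ T.card * (2 * (cntE (2 ^ t0) (pr T) (2 ^ (P.k0 - 1)) : ℝ) / 2 ^ t0) +
        ∑ T ∈ bds P.k0 0 t0 z, 2 * (cntE (2 ^ t0) (pr T) (mn T) : ℝ) / 2 ^ t0 := by
    rw [hE, mul_add, add_div, mul_sum, mul_sum, sum_div, sum_div]
    congr 1
    exact sum_congr rfl fun T _ => by ring
  have h1 : ∑ T ∈ vals P.k0 0 t0 z,
        (-1) ^ T.card * (2 * (cntE (2 ^ t0) (pr T) (2 ^ (P.k0 - 1)) : ℝ) / 2 ^ t0) ≤
      ∑ T ∈ vals P.k0 0 t0 z, (-1) ^ T.card * ((cntA N y (pr T) (2 ^ (P.k0 - 1)) : ℝ) / y) +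
        ∑ T ∈ vals P.k0 0 t0 z, psi (CA + CE + CB) P.k0 (t0 - ks T) / pr T := by
    rw [← sum_add_distrib]
    refine sum_le_sum fun T hT => ?_
    obtain ⟨hT1, hT2⟩ := mem_filter.1 hT
    obtain ⟨hp, hle, hge⟩ := hmem T hT1
    obtain ⟨hks, -, hs⟩ := valid_state hSt hle hT2
    have hs0 := (hs P.k0 hk hge).1
    have hd : 1 ≤ pr T := pr_pos hp
    have hr : ∀ r : ℕ, r.Prime → r ∣ pr T → 2 ^ (P.k0 - 1) ≤ r := fun r hr hrd =>
      (le_kk_iff hr.ne_zero).1 (hge r ((prime_dvd_pr hp hr).1 hrd))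
    have e1 := HA N y t0 P.k0 (t0 - ks T) (pr T) h8 hs0 hd hy (JMS_level hks) hY hr
    have e2 := HE t0 P.k0 (t0 - ks T) (pr T) h8 hs0 hd (JMS_level hks) hr
    refine (JMS_sign T.card e1 e2).trans ?_
    rw [JMS_psi_add, JMS_psi_add, add_div, add_div]
    have : 0 ≤ psi CB P.k0 (t0 - ks T) / pr T :=
      div_nonneg (JMS_psi_nonneg hCB.le _ _) (Nat.cast_nonneg _)
    linarith
  have h2 : ∑ T ∈ bds P.k0 0 t0 z, 2 * (cntE (2 ^ t0) (pr T) (mn T) : ℝ) / 2 ^ t0 ≤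
      ∑ T ∈ bds P.k0 0 t0 z, bd (CA + CE + CB) (om + 3) (t0 - ks T) (kk (mn T)) / pr T +
        2 * Cap z om := by
    have h3 : ∑ T ∈ bds P.k0 0 t0 z, (if om < T.card then 1 / (pr T : ℝ) else 0) ≤ Cap z om := by
      rw [← sum_filter]
      refine sum_le_sum_of_subset_of_nonneg (fun T hT => ?_) fun T _ _ => by positivity
      obtain ⟨hT1, hT2⟩ := mem_filter.1 hT
      refine mem_filter.2 ⟨mem_powerset.2 ?_, hT2⟩
      exact (mem_powerset.1 (mem_filter.1 hT1).1).trans (PP_mono (Nat.zero_le _) le_rfl)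
    refine le_trans ?_ (add_le_add le_rfl (mul_le_mul_of_nonneg_left h3 (by norm_num)))
    rw [mul_sum, ← sum_add_distrib]
    refine sum_le_sum fun T hT => ?_
    obtain ⟨hT1, hT2⟩ := mem_filter.1 hT
    obtain ⟨hp, hle, hge⟩ := hmem T hT1
    have hb0 : 0 ≤ bd (CA + CE + CB) (om + 3) (t0 - ks T) (kk (mn T)) / pr T :=
      div_nonneg (JMS_bd_nonneg (by positivity) _ _ _) (Nat.cast_nonneg _)
    split_ifs with hc
    · have h4 := JMS_cntE_le (2 ^ t0) (pr T) (mn T)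
      have h5 : (0 : ℝ) < 2 ^ t0 := by positivity
      have h6 : 2 * (cntE (2 ^ t0) (pr T) (mn T) : ℝ) / 2 ^ t0 ≤ 2 * (1 / (pr T : ℝ)) := by
        rw [div_le_iff₀ h5]
        push_cast at h4
        calc 2 * (cntE (2 ^ t0) (pr T) (mn T) : ℝ) ≤ 2 * (2 ^ t0 / pr T) := by linarith
          _ = _ := by ring
      linarith
    · obtain ⟨hks, hlt, hev⟩ := bd_state hSt hle hT2
      have hm := mn_mem hT2.1
      have hl : ArithmeticFunction.liouville (pr T) = 1 := by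
        rw [JMS_liou T hp]
        exact Even.neg_one_pow (by simpa using hev)
      have e1 := HBd t0 (t0 - ks T) om (pr T) (mn T) (hp _ hm) (hom.trans (hge _ hm)) hlt
        (pr_pos hp) (JMS_level hks) (JMS_level2 hks hp (not_lt.1 hc)) hl
      rw [JMS_bd_add, add_div]
      have : 0 ≤ bd (CA + CE) (om + 3) (t0 - ks T) (kk (mn T)) / pr T :=
        div_nonneg (JMS_bd_nonneg (by positivity) _ _ _) (Nat.cast_nonneg _)
      linarith
  have h3 : ∑ T ∈ fam P 0 t0 z, (cntA N y (pr T) (mn T) : ℝ) / y ≤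
      ∑ T ∈ bds P.k0 0 t0 z, (cntA N y (pr T) (mn T) : ℝ) / y := by
    refine sum_le_sum_of_subset_of_nonneg (fun T hT => ?_) fun T _ _ => by positivity
    obtain ⟨hT1, hT2⟩ := mem_filter.1 hT
    exact mem_filter.2 ⟨hT1, hT2.1⟩
  rw [hA', UU]
  rw [hE'] at hroot
  linarith

end

end Pool.Agent.Jac
end

-- part Pool.Agent.P.MP_45ff98_nt.JN1
section

/-! The explicit part of the loss, two pieces. -/

namespace Pool.Agent.Jac
open Finset

noncomputable section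

theorem JN1_sq_sum (k : ℕ) : ∑ j ∈ Icc 1 k, (j : ℝ) ^ 2 ≤ ((k : ℝ) + 1) ^ 3 / 3 := by
  induction k with
  | zero => simp
  | succ n ih =>
    rw [Finset.sum_Icc_succ_top (by omega)]
    push_cast
    have : (0 : ℝ) ≤ n := Nat.cast_nonneg n
    nlinarith

theorem JN1_four_sum (k : ℕ) (hk : 1 ≤ k) :
    ∑ j ∈ Icc 1 k, (4 : ℝ) ^ j / j ≤ 2 * 4 ^ k / k := by
  induction k, hk using Nat.le_induction with
  | base => norm_num
  | succ n hn ih =>
    rw [Finset.sum_Icc_succ_top (by omega)]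
    push_cast
    have h1 : (1 : ℝ) ≤ n := by exact_mod_cast hn
    have h4 : (0 : ℝ) < 4 ^ n := by positivity
    have h2 : 2 * (4 : ℝ) ^ n / n ≤ 4 ^ (n + 1) / (n + 1) := by
      rw [div_le_div_iff₀ (by positivity) (by positivity), pow_succ]
      nlinarith
    have h3 : 2 * (4 : ℝ) ^ (n + 1) / (n + 1) = 4 ^ (n + 1) / (n + 1) + 4 ^ (n + 1) / (n + 1) := by
      ring
    linarith

theorem JN1_term {t j : ℕ} {a : ℝ} (hj : 1 ≤ j) (hjt : j ≤ t) (ha : 0 < a) (ht : 0 < (t : ℝ))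
    (h : a * t ≤ (t : ℝ) - j) :
    101 / 100 / (j : ℝ) * (2 * (j : ℝ) ^ 3 / ((t - j : ℕ) : ℝ) ^ 7) ≤
      101 / 50 / (a ^ 7 * (t : ℝ) ^ 7) * (j : ℝ) ^ 2 := by
  have hj' : (0 : ℝ) < j := by exact_mod_cast hj
  rw [Nat.cast_sub hjt]
  have h1 : (a * t) ^ 7 ≤ ((t : ℝ) - j) ^ 7 := pow_le_pow_left₀ (by positivity) h 7
  have h2 : 2 * (j : ℝ) ^ 3 / ((t : ℝ) - j) ^ 7 ≤ 2 * (j : ℝ) ^ 3 / (a * t) ^ 7 :=
    div_le_div_of_nonneg_left (by positivity) (by positivity) h1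
  calc 101 / 100 / (j : ℝ) * (2 * (j : ℝ) ^ 3 / ((t : ℝ) - j) ^ 7)
      ≤ 101 / 100 / (j : ℝ) * (2 * (j : ℝ) ^ 3 / (a * t) ^ 7) :=
        mul_le_mul_of_nonneg_left h2 (by positivity)
    _ = 101 / 50 / (a ^ 7 * (t : ℝ) ^ 7) * (j : ℝ) ^ 2 := by
        field_simp
        ring

theorem JN1_sum {k0 e t k : ℕ} {a : ℝ} (h0 : 100 ≤ k0) (hk : k0 ≤ k) (hs : St e t k) (ha : 0 < a)
    (h : ∀ j : ℕ, j ≤ k → 2 * j ≤ t → a * t ≤ (t : ℝ) - j) :
    ∑ k' ∈ (Icc k0 k).filter (Cont e t),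
        101 / 100 / (k' : ℝ) * (2 * (k' : ℝ) ^ 3 / ((t - k' : ℕ) : ℝ) ^ 7) ≤
      101 / 50 / (a ^ 7 * (t : ℝ) ^ 7) * (3435 / 10000 * (k : ℝ) ^ 3) := by
  have hkt : k ≤ t := hs.1
  have ht : 0 < (t : ℝ) := by exact_mod_cast (by omega : 0 < t)
  have hk100 : (100 : ℝ) ≤ k := by exact_mod_cast (h0.trans hk)
  calc ∑ k' ∈ (Icc k0 k).filter (Cont e t),
        101 / 100 / (k' : ℝ) * (2 * (k' : ℝ) ^ 3 / ((t - k' : ℕ) : ℝ) ^ 7)
      ≤ ∑ k' ∈ (Icc k0 k).filter (Cont e t),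
          101 / 50 / (a ^ 7 * (t : ℝ) ^ 7) * (k' : ℝ) ^ 2 := by
        refine Finset.sum_le_sum fun j hj => ?_
        rw [mem_filter, mem_Icc] at hj
        have h2 := (hs.child hj.1.2 hj.2).2
        exact JN1_term (by omega) (by omega) ha ht (h j hj.1.2 h2)
    _ ≤ ∑ k' ∈ Icc 1 k, 101 / 50 / (a ^ 7 * (t : ℝ) ^ 7) * (k' : ℝ) ^ 2 := by
        refine Finset.sum_le_sum_of_subset_of_nonneg ?_ fun _ _ _ => by positivity
        intro j hj
        rw [mem_filter, mem_Icc] at hj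
        rw [mem_Icc]
        omega
    _ ≤ 101 / 50 / (a ^ 7 * (t : ℝ) ^ 7) * (3435 / 10000 * (k : ℝ) ^ 3) := by
        rw [← Finset.mul_sum]
        refine mul_le_mul_of_nonneg_left ((JN1_sq_sum k).trans ?_) (by positivity)
        have h1 : (k : ℝ) + 1 ≤ 101 / 100 * k := by linarith
        have h2 : ((k : ℝ) + 1) ^ 3 ≤ (101 / 100 * k) ^ 3 := pow_le_pow_left₀ (by positivity) h1 3
        have h3 : (0 : ℝ) ≤ (k : ℝ) ^ 3 := by positivity
        nlinarith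

theorem conv_seven : ∃ c : ℝ, 0 ≤ c ∧ ∀ k0 e t k : ℕ, 100 ≤ k0 → k0 ≤ k → St e t k →
    1 / (t : ℝ) ^ 7 + ∑ k' ∈ (Icc k0 k).filter (Cont e t),
        101 / 100 / (k' : ℝ) * (2 * (k' : ℝ) ^ 3 / ((t - k' : ℕ) : ℝ) ^ 7) ≤
      2 * (k : ℝ) ^ 3 / (t : ℝ) ^ 7 + c / (t : ℝ) ^ 3 * Real.exp (-(5 / 4) * t / k) := by
  refine ⟨300 * Real.exp 25, by positivity, fun k0 e t k h0 hk hs => ?_⟩
  have hkt : k ≤ t := hs.1
  have ht1 : (1 : ℝ) ≤ t := by exact_mod_cast (by omega : 1 ≤ t)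
  have ht : 0 < (t : ℝ) := by linarith
  have hk100 : (100 : ℝ) ≤ k := by exact_mod_cast (h0.trans hk)
  have hkt' : (k : ℝ) ≤ t := by exact_mod_cast hkt
  have hk3 : (1 : ℝ) ≤ (k : ℝ) ^ 3 := one_le_pow₀ (by linarith)
  have h7 : 0 < (t : ℝ) ^ 7 := by positivity
  have hone : 1 / (t : ℝ) ^ 7 ≤ (k : ℝ) ^ 3 / (t : ℝ) ^ 7 :=
    div_le_div_of_nonneg_right hk3 h7.le
  have hq : 0 ≤ (k : ℝ) ^ 3 / (t : ℝ) ^ 7 := by positivity
  have htwo : 2 * (k : ℝ) ^ 3 / (t : ℝ) ^ 7 = 2 * ((k : ℝ) ^ 3 / (t : ℝ) ^ 7) := by ring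
  by_cases hc : 20 * k ≤ t
  · have hc' : 20 * (k : ℝ) ≤ t := by exact_mod_cast hc
    have h1 := JN1_sum (a := 19 / 20) h0 hk hs (by norm_num) fun j hj _ => by
      have : (j : ℝ) ≤ k := by exact_mod_cast hj
      linarith
    have h2 : 101 / 50 / ((19 / 20 : ℝ) ^ 7 * (t : ℝ) ^ 7) * (3435 / 10000 * (k : ℝ) ^ 3) =
        (101 / 50 / (19 / 20 : ℝ) ^ 7 * (3435 / 10000)) * ((k : ℝ) ^ 3 / (t : ℝ) ^ 7) := by
      field_simp
    have h3 : (101 / 50 / (19 / 20 : ℝ) ^ 7 * (3435 / 10000)) ≤ 1 := by norm_num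
    have h4 := mul_le_mul_of_nonneg_right h3 hq
    have h5 : 0 ≤ 300 * Real.exp 25 / (t : ℝ) ^ 3 * Real.exp (-(5 / 4) * t / k) := by positivity
    linarith
  · have hc' : (t : ℝ) ≤ 20 * k := by exact_mod_cast (by omega : t ≤ 20 * k)
    have h1 := JN1_sum (a := 1 / 2) h0 hk hs (by norm_num) fun j _ hj => by
      have : 2 * (j : ℝ) ≤ t := by exact_mod_cast hj
      linarith
    have h2 : 101 / 50 / ((1 / 2 : ℝ) ^ 7 * (t : ℝ) ^ 7) * (3435 / 10000 * (k : ℝ) ^ 3) =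
        (101 / 50 / (1 / 2 : ℝ) ^ 7 * (3435 / 10000)) * ((k : ℝ) ^ 3 / (t : ℝ) ^ 7) := by
      field_simp
    have h3 : (101 / 50 / (1 / 2 : ℝ) ^ 7 * (3435 / 10000)) ≤ 300 := by norm_num
    have h4 := mul_le_mul_of_nonneg_right h3 hq
    have h5 : (k : ℝ) ^ 3 / (t : ℝ) ^ 7 ≤ 1 / (t : ℝ) ^ 3 := by
      rw [div_le_div_iff₀ h7 (by positivity)]
      have a1 : (k : ℝ) ^ 3 ≤ (t : ℝ) ^ 3 := pow_le_pow_left₀ (by positivity) hkt' 3
      have a2 : (t : ℝ) ^ 3 ≤ (t : ℝ) ^ 4 := pow_le_pow_right₀ ht1 (by norm_num)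
      calc (k : ℝ) ^ 3 * (t : ℝ) ^ 3 ≤ (t : ℝ) ^ 4 * (t : ℝ) ^ 3 :=
            mul_le_mul_of_nonneg_right (a1.trans a2) (by positivity)
        _ = 1 * (t : ℝ) ^ 7 := by ring
    have h6 : 1 ≤ Real.exp 25 * Real.exp (-(5 / 4) * t / k) := by
      rw [← Real.exp_add]
      refine Real.one_le_exp ?_
      have : (-25 : ℝ) ≤ -(5 / 4) * t / k := by
        rw [le_div_iff₀ (by linarith)]
        linarith
      linarith
    have h8 : 300 * (1 / (t : ℝ) ^ 3) ≤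
        300 * Real.exp 25 / (t : ℝ) ^ 3 * Real.exp (-(5 / 4) * t / k) := by
      have : 300 * Real.exp 25 / (t : ℝ) ^ 3 * Real.exp (-(5 / 4) * t / k) =
          300 * (1 / (t : ℝ) ^ 3) * (Real.exp 25 * Real.exp (-(5 / 4) * t / k)) := by ring
      rw [this]
      exact le_mul_of_one_le_right (by positivity) h6
    linarith

theorem conv_even {k0 t k : ℕ} (h0 : 1 ≤ k0) (hk : k0 ≤ k) (ht : 2 * k ≤ t) :
    ∑ k' ∈ Icc k0 k, 101 / 100 / (k' : ℝ) * (13 * 2 ^ k' / (2 ^ (t - k') * ((t - k' : ℕ) : ℝ))) ≤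
      54 * 4 ^ k / (2 ^ t * t * k) := by
  have ht0 : 0 < (t : ℝ) := by exact_mod_cast (by omega : 0 < t)
  have hk0 : 0 < (k : ℝ) := by exact_mod_cast (by omega : 0 < k)
  calc ∑ k' ∈ Icc k0 k,
        101 / 100 / (k' : ℝ) * (13 * 2 ^ k' / (2 ^ (t - k') * ((t - k' : ℕ) : ℝ)))
      ≤ ∑ k' ∈ Icc k0 k, 27 / (2 ^ t * (t : ℝ)) * ((4 : ℝ) ^ k' / k') := by
        refine Finset.sum_le_sum fun j hj => ?_
        rw [mem_Icc] at hj
        have hj0 : 0 < (j : ℝ) := by exact_mod_cast (by omega : 0 < j)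
        have hjt : j ≤ t := by omega
        have h2 : 2 * (j : ℝ) ≤ t := by exact_mod_cast (by omega : 2 * j ≤ t)
        have hp : (2 : ℝ) ^ t = 2 ^ (t - j) * 2 ^ j := by
          rw [← pow_add, Nat.sub_add_cancel hjt]
        have h4 : (4 : ℝ) ^ j = 2 ^ j * 2 ^ j := by
          rw [← mul_pow]; norm_num
        rw [Nat.cast_sub hjt, hp, h4]
        have hd : 0 < (t : ℝ) - j := by linarith
        have e1 : 101 / 100 / (j : ℝ) * (13 * 2 ^ j / (2 ^ (t - j) * ((t : ℝ) - j))) =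
            (2 ^ j / (2 ^ (t - j) * j)) * (1313 / 100 / ((t : ℝ) - j)) := by
          field_simp
          ring
        have e2 : 27 / (2 ^ (t - j) * 2 ^ j * (t : ℝ)) * (2 ^ j * 2 ^ j / j) =
            (2 ^ j / (2 ^ (t - j) * j)) * (27 / (t : ℝ)) := by
          field_simp
        rw [e1, e2]
        refine mul_le_mul_of_nonneg_left ?_ (by positivity)
        rw [div_le_div_iff₀ hd ht0]
        linarith
    _ ≤ ∑ k' ∈ Icc 1 k, 27 / (2 ^ t * (t : ℝ)) * ((4 : ℝ) ^ k' / k') :=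
        Finset.sum_le_sum_of_subset_of_nonneg (Finset.Icc_subset_Icc_left h0)
          fun _ _ _ => by positivity
    _ ≤ 27 / (2 ^ t * (t : ℝ)) * (2 * 4 ^ k / k) := by
        rw [← Finset.mul_sum]
        exact mul_le_mul_of_nonneg_left (JN1_four_sum k (h0.trans hk)) (by positivity)
    _ = 54 * 4 ^ k / (2 ^ t * t * k) := by
        field_simp
        ring

end

end Pool.Agent.Jac
end

-- part Pool.Agent.P.MP_45ff98_nt.JN1o
section

/-! The explicit part of the loss, odd nodes. -/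

namespace Pool.Agent.Jac
open Finset

noncomputable section

theorem jn1o_geom (k : ℕ) : ∑ i ∈ range (k + 1), (2 : ℝ) ^ i ≤ 2 * 2 ^ k := by
  induction k with
  | zero => simp
  | succ n ih => rw [sum_range_succ, pow_succ]; linarith

theorem jn1o_eight (m : ℕ) (hm : 1 ≤ m) :
    ∑ i ∈ Icc 1 m, (8 : ℝ) ^ i / (i : ℝ) ^ 2 ≤ 2 * (8 ^ m / (m : ℝ) ^ 2) := by
  induction m, hm using Nat.le_induction with
  | base => simp
  | succ n hn ih =>
    rw [sum_Icc_succ_top (by omega)]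
    have h0 : (1 : ℝ) ≤ n := by exact_mod_cast hn
    have h1 : 2 * ((8 : ℝ) ^ n / (n : ℝ) ^ 2) ≤ 8 ^ (n + 1) / ((n + 1 : ℕ) : ℝ) ^ 2 := by
      push_cast
      rw [← mul_div_assoc, div_le_div_iff₀ (by positivity) (by positivity), pow_succ 8 n]
      have h2 : (0 : ℝ) < 8 ^ n := by positivity
      have h3 : ((n : ℝ) + 1) ^ 2 ≤ 4 * (n : ℝ) ^ 2 := by nlinarith
      nlinarith
    linarith

theorem jn1o_key (m t k : ℕ) (hm : 100 ≤ m) (h3 : 3 * m ≤ t) (hk : m ≤ k) :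
    (8 : ℝ) ^ m / (m : ℝ) ^ 2 / 2 ^ t ≤
      Real.exp 150 / (t : ℝ) ^ 2 * Real.exp (-(5 / 4) * t / k) := by
  have hm0 : (100 : ℝ) ≤ m := by exact_mod_cast hm
  have hk0 : (m : ℝ) ≤ k := by exact_mod_cast hk
  have ht0 : 3 * (m : ℝ) ≤ t := by exact_mod_cast h3
  have hmp : (0 : ℝ) < m := by linarith
  have htp : (0 : ℝ) < t := by linarith
  set s : ℝ := t / m with hs
  have hs3 : 3 ≤ s := by rw [hs, le_div_iff₀ hmp]; linarith
  have hts : (t : ℝ) = s * m := by rw [hs]; field_simp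
  have hl : (1 / 2 : ℝ) ≤ Real.log 2 := by linarith [Real.log_two_gt_d9]
  have h1 : (8 : ℝ) ^ m / 2 ^ t = Real.exp (-(Real.log 2 * (t - 3 * m))) := by
    have e2 : (2 : ℝ) ^ t = Real.exp (Real.log 2 * t) := by
      rw [mul_comm, Real.exp_nat_mul, Real.exp_log (by norm_num)]
    have e8 : (8 : ℝ) ^ m = Real.exp (Real.log 2 * (3 * m)) := by
      have : (3 * (m : ℝ)) = ((3 * m : ℕ) : ℝ) := by push_cast; ring
      rw [this, mul_comm, Real.exp_nat_mul, Real.exp_log (by norm_num), pow_mul]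
      norm_num
    rw [e2, e8, ← Real.exp_sub]
    congr 1; ring
  have h2 : s ^ 2 ≤ Real.exp (2 * s) := by
    have h4 : s ≤ Real.exp s := by linarith [Real.add_one_le_exp s]
    have h5 : Real.exp (2 * s) = Real.exp s ^ 2 := by
      rw [← Real.exp_nat_mul]; norm_num
    rw [h5]
    exact pow_le_pow_left₀ (by linarith) h4 2
  have h4 : -(5 / 4) * s ≤ -(5 / 4) * t / k := by
    have h5 : (t : ℝ) / k ≤ s := div_le_div_of_nonneg_left htp.le hmp hk0
    rw [mul_div_assoc]; linarith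
  have h5 : -(Real.log 2 * (t - 3 * m)) + 2 * s ≤ 150 + -(5 / 4) * t / k := by
    have h6 : 100 * (s - 3) ≤ t - 3 * m := by rw [hts]; nlinarith
    have h7 : 1 / 2 * ((t : ℝ) - 3 * m) ≤ Real.log 2 * (t - 3 * m) :=
      mul_le_mul_of_nonneg_right hl (by linarith)
    linarith
  have h6 : (8 : ℝ) ^ m / (m : ℝ) ^ 2 / 2 ^ t = (8 : ℝ) ^ m / 2 ^ t * s ^ 2 / (t : ℝ) ^ 2 := by
    rw [hs]; field_simp
  rw [h6, h1, div_mul_eq_mul_div, ← Real.exp_add]
  refine div_le_div_of_nonneg_right ?_ (by positivity)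
  calc Real.exp (-(Real.log 2 * (t - 3 * m))) * s ^ 2
      ≤ Real.exp (-(Real.log 2 * (t - 3 * m))) * Real.exp (2 * s) :=
        mul_le_mul_of_nonneg_left h2 (Real.exp_pos _).le
    _ ≤ _ := by rw [← Real.exp_add]; exact Real.exp_le_exp.2 h5

theorem conv_bd : ∃ c : ℝ, 0 ≤ c ∧ ∀ G k0 t k : ℕ, 1 ≤ G → 1 ≤ k0 → k0 ≤ k → k ≤ t →
    ∑ k' ∈ (Icc k0 k).filter (fun k' => ¬ 3 * k' ≤ t), 101 / 100 / (k' : ℝ) * bd 1 G (t - k') k' ≤
      13 * 2 ^ k / (2 ^ t * t) + c * (G : ℝ) ^ 2 / (t : ℝ) ^ 3 * Real.exp (-(5 / 4) * t / k) := by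
  refine ⟨28 * Real.exp (15 / 4), by positivity, fun G k0 t k hG hk0 hk hkt => ?_⟩
  by_cases h : t < 3 * k
  swap
  · have he : (Icc k0 k).filter (fun k' => ¬ 3 * k' ≤ t) = ∅ :=
      filter_eq_empty_iff.2 fun x hx => by have := (mem_Icc.1 hx).2; omega
    rw [he, sum_empty]; positivity
  have htp : (0 : ℝ) < t := by exact_mod_cast (by omega : 0 < t)
  have hkp : (0 : ℝ) < k := by exact_mod_cast (by omega : 0 < k)
  set S := (Icc k0 k).filter (fun k' => ¬ 3 * k' ≤ t) with hS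
  have hterm : ∀ j ∈ S, 101 / 100 / (j : ℝ) * bd 1 G (t - j) j ≤
      4 / (2 ^ t * t) * 2 ^ j + if 3 * j ≤ t + G then 28 * (G : ℝ) / (t : ℝ) ^ 3 else 0 := by
    intro j hj
    obtain ⟨h1, h2⟩ := mem_filter.1 hj
    obtain ⟨h3, h4⟩ := mem_Icc.1 h1
    have hjp : (0 : ℝ) < j := by exact_mod_cast (by omega : 0 < j)
    have hj3 : (t : ℝ) ≤ 3 * j := by exact_mod_cast (by omega : t ≤ 3 * j)
    have hpow : (2 : ℝ) ^ t = 2 ^ (t - j) * 2 ^ j := by
      rw [← pow_add]; congr 1; omega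
    rw [bd, one_mul, mul_add]
    refine add_le_add ?_ ?_
    · have h5 : 101 / 100 / (j : ℝ) ≤ 4 / t := by
        rw [div_le_div_iff₀ hjp htp]; linarith
      have h6 : 4 / ((2 : ℝ) ^ t * t) * 2 ^ j = 4 / t * (1 / 2 ^ (t - j)) := by
        rw [hpow]; field_simp
      rw [h6]
      exact mul_le_mul_of_nonneg_right h5 (by positivity)
    · by_cases h5 : 3 * j ≤ t + G
      · rw [if_pos h5, if_pos (by omega)]
        have h6 : (t : ℝ) ^ 3 ≤ (3 * j) ^ 3 := pow_le_pow_left₀ htp.le hj3 3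
        have h7 : 101 / 100 / (j : ℝ) * (G / (j : ℝ) ^ 2) = 101 / 100 * G / (j : ℝ) ^ 3 := by
          field_simp
        rw [h7, div_le_div_iff₀ (by positivity) (by positivity)]
        have h8 : (0 : ℝ) ≤ G := by positivity
        have h9 : (0 : ℝ) ≤ (j : ℝ) ^ 3 := by positivity
        nlinarith [mul_le_mul_of_nonneg_left h6 h8, mul_nonneg h8 h9]
      · rw [if_neg h5, if_neg (by omega)]; simp
  refine (sum_le_sum hterm).trans ?_
  rw [sum_add_distrib, ← mul_sum]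
  refine add_le_add ?_ ?_
  · have h1 : ∑ j ∈ S, (2 : ℝ) ^ j ≤ 2 * 2 ^ k :=
      (sum_le_sum_of_subset_of_nonneg (fun x hx => by
        have := (mem_Icc.1 (mem_filter.1 hx).1).2
        exact mem_range.2 (by omega)) fun _ _ _ => by positivity).trans (jn1o_geom k)
    calc 4 / ((2 : ℝ) ^ t * t) * ∑ j ∈ S, (2 : ℝ) ^ j ≤ 4 / ((2 : ℝ) ^ t * t) * (2 * 2 ^ k) :=
          mul_le_mul_of_nonneg_left h1 (by positivity)
      _ = 8 * 2 ^ k / (2 ^ t * t) := by ring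
      _ ≤ _ := by gcongr; norm_num
  · rw [← sum_filter, sum_const, nsmul_eq_mul]
    have h1 : (S.filter (fun j => 3 * j ≤ t + G)).card ≤ G := by
      have h2 := card_le_card_of_injOn (s := S.filter (fun j => 3 * j ≤ t + G))
        (t := Ioc t (t + G)) (fun j => 3 * j)
        (fun j hj => by
          have h3 := mem_filter.1 (mem_coe.1 hj)
          have h4 := (mem_filter.1 h3.1).2
          exact mem_coe.2 (mem_Ioc.2 ⟨not_le.1 h4, h3.2⟩))
        (fun a _ b _ hab => by simp only at hab; omega)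
      simpa using h2
    have h2 : ((S.filter (fun j => 3 * j ≤ t + G)).card : ℝ) ≤ G := by exact_mod_cast h1
    have h3 : 1 ≤ Real.exp (15 / 4) * Real.exp (-(5 / 4) * t / k) := by
      rw [← Real.exp_add]
      apply Real.one_le_exp
      have h4 : (t : ℝ) / k ≤ 3 := by
        rw [div_le_iff₀ hkp]; exact_mod_cast h.le
      rw [mul_div_assoc]; linarith
    calc _ ≤ (G : ℝ) * (28 * (G : ℝ) / (t : ℝ) ^ 3) :=
          mul_le_mul_of_nonneg_right h2 (by positivity)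
      _ = 28 * (G : ℝ) ^ 2 / (t : ℝ) ^ 3 * 1 := by ring
      _ ≤ 28 * (G : ℝ) ^ 2 / (t : ℝ) ^ 3 *
          (Real.exp (15 / 4) * Real.exp (-(5 / 4) * t / k)) :=
          mul_le_mul_of_nonneg_left h3 (by positivity)
      _ = _ := by ring

theorem conv_odd : ∃ c : ℝ, 0 ≤ c ∧ ∀ k0 t k : ℕ, 100 ≤ k0 → k0 ≤ k → k ≤ t →
    ∑ k' ∈ (Icc k0 k).filter (fun k' => 3 * k' ≤ t),
        101 / 100 / (k' : ℝ) * (54 * 4 ^ k' / (2 ^ (t - k') * ((t - k' : ℕ) : ℝ) * k')) ≤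
      c / (t : ℝ) ^ 3 * Real.exp (-(5 / 4) * t / k) := by
  refine ⟨164 * Real.exp 150, by positivity, fun k0 t k hk0 hk hkt => ?_⟩
  set S := (Icc k0 k).filter (fun k' => 3 * k' ≤ t) with hS
  by_cases h : 3 * k0 ≤ t
  swap
  · have he : S = ∅ :=
      filter_eq_empty_iff.2 fun x hx => by have := (mem_Icc.1 hx).1; omega
    rw [he, sum_empty]; positivity
  have htp : (0 : ℝ) < t := by exact_mod_cast (by omega : 0 < t)
  set m := min k (t / 3) with hm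
  have hm1 : 100 ≤ m := by omega
  have hm2 : 3 * m ≤ t := by omega
  have hm3 : m ≤ k := by omega
  have hterm : ∀ j ∈ S,
      101 / 100 / (j : ℝ) * (54 * 4 ^ j / (2 ^ (t - j) * ((t - j : ℕ) : ℝ) * j)) ≤
      82 / (2 ^ t * t) * (8 ^ j / (j : ℝ) ^ 2) := by
    intro j hj
    obtain ⟨h1, h2⟩ := mem_filter.1 hj
    obtain ⟨h3, h4⟩ := mem_Icc.1 h1
    have hjp : (0 : ℝ) < j := by exact_mod_cast (by omega : 0 < j)
    have hj3 : 3 * (j : ℝ) ≤ t := by exact_mod_cast h2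
    have hpow : (2 : ℝ) ^ t = 2 ^ (t - j) * 2 ^ j := by
      rw [← pow_add]; congr 1; omega
    have h8 : (8 : ℝ) ^ j = 4 ^ j * 2 ^ j := by rw [← mul_pow]; norm_num
    have hc : ((t - j : ℕ) : ℝ) = t - j := Nat.cast_sub (by omega)
    have hd : (0 : ℝ) < t - j := by linarith
    have h5 : 101 / 100 * 54 / ((t : ℝ) - j) ≤ 82 / t := by
      rw [div_le_div_iff₀ hd htp]; linarith
    have h6 : 101 / 100 / (j : ℝ) * (54 * 4 ^ j / (2 ^ (t - j) * ((t : ℝ) - j) * j)) =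
        101 / 100 * 54 / ((t : ℝ) - j) * (4 ^ j / (2 ^ (t - j) * (j : ℝ) ^ 2)) := by
      field_simp
    have h7 : 82 / ((2 : ℝ) ^ t * t) * (8 ^ j / (j : ℝ) ^ 2) =
        82 / t * (4 ^ j / (2 ^ (t - j) * (j : ℝ) ^ 2)) := by
      rw [hpow, h8]; field_simp
    rw [hc, h6, h7]
    exact mul_le_mul_of_nonneg_right h5 (by positivity)
  refine (sum_le_sum hterm).trans ?_
  rw [← mul_sum]
  have h1 : ∑ j ∈ S, (8 : ℝ) ^ j / (j : ℝ) ^ 2 ≤ 2 * (8 ^ m / (m : ℝ) ^ 2) :=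
    (sum_le_sum_of_subset_of_nonneg (fun x hx => by
      have h2 := mem_Icc.1 (mem_filter.1 hx).1
      have h3 := (mem_filter.1 hx).2
      exact mem_Icc.2 ⟨by omega, by omega⟩) fun _ _ _ => by positivity).trans
      (jn1o_eight m (by omega))
  have h2 := jn1o_key m t k hm1 hm2 hm3
  calc _ ≤ 82 / ((2 : ℝ) ^ t * t) * (2 * (8 ^ m / (m : ℝ) ^ 2)) :=
        mul_le_mul_of_nonneg_left h1 (by positivity)
    _ = 164 / t * ((8 : ℝ) ^ m / (m : ℝ) ^ 2 / 2 ^ t) := by field_simp; norm_num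
    _ ≤ 164 / t * (Real.exp 150 / (t : ℝ) ^ 2 * Real.exp (-(5 / 4) * t / k)) :=
        mul_le_mul_of_nonneg_left h2 (by positivity)
    _ = _ := by field_simp

end

end Pool.Agent.Jac
end

-- part Pool.Agent.P.MP_45ff98_nt.JN2
section

/-! The explicit part of the loss, box form. -/

namespace Pool.Agent.Jac
open Finset

noncomputable section

theorem jn2_bd (C : ℝ) (G t k : ℕ) : bd C G t k = C * bd 1 G t k := by
  unfold bd
  rw [one_mul]

theorem jn2_cont_even {e : ℕ} (he : Even e) (t k : ℕ) : Cont e t k :=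
  fun h => absurd he (Nat.even_add_one.1 h)

theorem jn2_cont_odd {e : ℕ} (he : ¬ Even e) (t k : ℕ) : Cont e t k ↔ 3 * k ≤ t :=
  ⟨fun h => h (Nat.even_add_one.2 he), fun h _ => h⟩

theorem jn2_TB_even {e : ℕ} (he : Even e) (C : ℝ) (k0 k t : ℕ) : TB k0 k (Rr C) e t =
    C * ∑ k' ∈ (Icc k0 k).filter (Cont e t),
        101 / 100 / (k' : ℝ) * (2 * (k' : ℝ) ^ 3 / ((t - k' : ℕ) : ℝ) ^ 7) +
      C * ∑ k' ∈ Icc k0 k,
        101 / 100 / (k' : ℝ) * (13 * 2 ^ k' / (2 ^ (t - k') * ((t - k' : ℕ) : ℝ))) := by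
  have h1 : ¬ Even (e + 1) := fun h => Nat.even_add_one.1 h he
  rw [TB, filter_true_of_mem fun x _ => jn2_cont_even he t x, mul_sum, mul_sum, ← sum_add_distrib]
  refine sum_congr rfl fun x _ => ?_
  rw [Rr, if_neg h1]
  ring

theorem jn2_TB_odd {e : ℕ} (he : ¬ Even e) (C : ℝ) (k0 k t : ℕ) : TB k0 k (Rr C) e t =
    C * ∑ k' ∈ (Icc k0 k).filter (Cont e t),
        101 / 100 / (k' : ℝ) * (2 * (k' : ℝ) ^ 3 / ((t - k' : ℕ) : ℝ) ^ 7) +
      C * ∑ k' ∈ (Icc k0 k).filter (fun k' => 3 * k' ≤ t),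
        101 / 100 / (k' : ℝ) * (54 * 4 ^ k' / (2 ^ (t - k') * ((t - k' : ℕ) : ℝ) * k')) := by
  have h1 : Even (e + 1) := Nat.even_add_one.2 he
  rw [TB, filter_congr fun x _ => jn2_cont_odd he t x, mul_sum, mul_sum, ← sum_add_distrib]
  refine sum_congr rfl fun x _ => ?_
  rw [Rr, if_pos h1]
  ring

theorem conv_box : ∃ cR : ℝ, 1 ≤ cR ∧ ∀ (C : ℝ) (G k0 e t k : ℕ), 0 ≤ C → 1 ≤ G → 100 ≤ k0 →
    k0 ≤ k → St e t k →
    psi C k0 t + ∑ k' ∈ (Icc k0 k).filter (fun k' => ¬ Cont e t k'),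
        101 / 100 / (k' : ℝ) * bd C G (t - k') k' + TB k0 k (Rr C) e t ≤
      Rr C e t k + psiS (cR * C) G k0 t k := by
  obtain ⟨a, a0, ha⟩ := conv_seven
  obtain ⟨b, b0, hb⟩ := conv_bd
  obtain ⟨c, c0, hc⟩ := conv_odd
  refine ⟨1 + a + b + c, by linarith, fun C G k0 e t k hC hG h0 hk hs => ?_⟩
  have h7 := mul_le_mul_of_nonneg_left (ha k0 e t k h0 hk hs) hC
  obtain ⟨X, hX⟩ : ∃ X : ℝ, X = 1 / (t : ℝ) ^ 3 * Real.exp (-(5 / 4) * t / k) := ⟨_, rfl⟩
  obtain ⟨Y, hY⟩ : ∃ Y : ℝ, Y = Real.exp (-2 * t / k0) / k0 := ⟨_, rfl⟩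
  have X0 : 0 ≤ X := by rw [hX]; positivity
  have Y0 : 0 ≤ Y := by rw [hY]; positivity
  have eX : ∀ u : ℝ, u / (t : ℝ) ^ 3 * Real.exp (-(5 / 4) * t / k) = u * X := fun u => by
    rw [hX]; ring
  have G1 : (1 : ℝ) ≤ (G : ℝ) ^ 2 := one_le_pow₀ (by exact_mod_cast hG)
  have k1 : C * X ≤ C * ((G : ℝ) ^ 2 * X) :=
    mul_le_mul_of_nonneg_left (le_mul_of_one_le_left X0 G1) hC
  have k2 : 0 ≤ C * X := mul_nonneg hC X0
  have k3 : 0 ≤ C * Y := mul_nonneg hC Y0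
  have m1 := mul_le_mul_of_nonneg_left k1 a0
  have m2 := mul_le_mul_of_nonneg_left k1 c0
  have m3 := mul_nonneg b0 (k2.trans k1)
  have m4 := mul_nonneg c0 (k2.trans k1)
  have m5 := mul_nonneg (add_nonneg (add_nonneg a0 b0) c0) k3
  rw [eX] at h7
  rw [psi, psiS, eX, ← hY]
  by_cases he : Even e
  · have h1 := mul_le_mul_of_nonneg_left
      (conv_even (t := t) (le_trans (by norm_num) h0) hk (hs.2 he)) hC
    rw [jn2_TB_even he, filter_false_of_mem fun x _ => not_not.2 (jn2_cont_even he t x), sum_empty,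
      Rr, if_pos he]
    have e1 : 2 * C * (k : ℝ) ^ 3 / (t : ℝ) ^ 7 = C * (2 * (k : ℝ) ^ 3 / (t : ℝ) ^ 7) := by ring
    have e2 : 54 * C * 4 ^ k / (2 ^ t * t * k) = C * (54 * 4 ^ k / (2 ^ t * t * k)) := by ring
    rw [e1, e2]
    linarith [k2.trans k1]
  · have h1 := mul_le_mul_of_nonneg_left (hb G k0 t k hG (le_trans (by norm_num) h0) hk hs.1) hC
    have h2 := mul_le_mul_of_nonneg_left (hc k0 t k h0 hk hs.1) hC
    have e0 : ∑ k' ∈ (Icc k0 k).filter (fun k' => ¬ Cont e t k'),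
        101 / 100 / (k' : ℝ) * bd C G (t - k') k' =
        C * ∑ k' ∈ (Icc k0 k).filter (fun k' => ¬ 3 * k' ≤ t),
          101 / 100 / (k' : ℝ) * bd 1 G (t - k') k' := by
      rw [filter_congr fun x _ => not_congr (jn2_cont_odd he t x), mul_sum]
      refine sum_congr rfl fun x _ => ?_
      rw [jn2_bd]
      ring
    rw [eX] at h1 h2
    rw [jn2_TB_odd he, e0, Rr, if_neg he]
    have e1 : 2 * C * (k : ℝ) ^ 3 / (t : ℝ) ^ 7 = C * (2 * (k : ℝ) ^ 3 / (t : ℝ) ^ 7) := by ring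
    have e2 : 13 * C * 2 ^ k / (2 ^ t * t) = C * (13 * 2 ^ k / (2 ^ t * t)) := by ring
    rw [e1, e2]
    linarith [k2.trans k1]

end

end Pool.Agent.Jac
end

-- part Pool.Agent.P.MP_45ff98_nt.JN0
section

/-! A sum that behaves like an integral. -/

namespace Pool.Agent.Jac
open Finset

noncomputable section

private theorem exp_step (c x : ℝ) (hx : 0 < x) (h : 2 * (x + 1) ≤ c) :
    Real.exp (-c / x) / x ^ 2 ≤ Real.exp (-c / (x + 1)) / c - Real.exp (-c / x) / c := by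
  have hc : 0 < c := by linarith
  set u := c / (x * (x + 1)) with hu
  have hu0 : 0 ≤ u := by positivity
  have h1 : -c / (x + 1) = -c / x + u := by
    rw [hu]; field_simp; ring
  have h2 : 1 + u + u ^ 2 / 2 ≤ Real.exp u := Real.quadratic_le_exp_of_nonneg hu0
  have h3 : 1 / x ^ 2 ≤ (u + u ^ 2 / 2) / c := by
    have e1 : (u + u ^ 2 / 2) / c = 1 / (x * (x + 1)) + c / (2 * (x * (x + 1)) ^ 2) := by
      rw [hu]; field_simp
    have e2 : 1 / x ^ 2 = 1 / (x * (x + 1)) + 2 * (x + 1) / (2 * (x * (x + 1)) ^ 2) := by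
      field_simp
    rw [e1, e2]
    gcongr
  have h4 : (u + u ^ 2 / 2) / c ≤ (Real.exp u - 1) / c := by
    gcongr; linarith
  rw [h1, Real.exp_add]
  have h5 : 0 < Real.exp (-c / x) := Real.exp_pos _
  calc Real.exp (-c / x) / x ^ 2 = Real.exp (-c / x) * (1 / x ^ 2) := by ring
    _ ≤ Real.exp (-c / x) * ((Real.exp u - 1) / c) :=
        mul_le_mul_of_nonneg_left (h3.trans h4) h5.le
    _ = _ := by ring

private theorem exp_last (c m x : ℝ) (hx : 0 < x) (hxm : x ≤ m) (h : 2 * m ≤ c) :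
    Real.exp (-c / x) / x ^ 2 ≤ Real.exp (-c / m) / m ^ 2 := by
  have hm : 0 < m := by linarith
  set v := (m - x) / x with hv
  have hv0 : 0 ≤ v := div_nonneg (by linarith) hx.le
  have h1 : 2 * v ≤ c / x - c / m := by
    have e1 : c / x - c / m = c * ((m - x) / (x * m)) := by field_simp
    have e2 : 2 * v = 2 * m * ((m - x) / (x * m)) := by rw [hv]; field_simp
    rw [e1, e2]
    have : 0 ≤ (m - x) / (x * m) := div_nonneg (by linarith) (by positivity)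
    gcongr
  have h2 : (m / x) ^ 2 ≤ Real.exp (c / x - c / m) := by
    have e1 : m / x = v + 1 := by rw [hv]; field_simp; ring
    calc (m / x) ^ 2 = (v + 1) ^ 2 := by rw [e1]
      _ ≤ (Real.exp v) ^ 2 := by gcongr; exact Real.add_one_le_exp v
      _ = Real.exp (2 * v) := by rw [← Real.exp_nat_mul]; norm_num
      _ ≤ _ := Real.exp_le_exp.2 h1
  have h3 : Real.exp (-c / m) = Real.exp (-c / x) * Real.exp (c / x - c / m) := by
    rw [← Real.exp_add]; congr 1; ring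
  rw [h3]
  have h5 : 0 < Real.exp (-c / x) := Real.exp_pos _
  calc Real.exp (-c / x) / x ^ 2 = Real.exp (-c / x) * (m / x) ^ 2 / m ^ 2 := by field_simp
    _ ≤ _ := by gcongr

theorem exp_sum (c m : ℝ) (hm : 0 < m) (h : 2 * m ≤ c) (K : Finset ℕ)
    (hK : ∀ k ∈ K, 1 ≤ k ∧ (k : ℝ) ≤ m) :
    ∑ k ∈ K, Real.exp (-c / k) / (k : ℝ) ^ 2 ≤ Real.exp (-c / m) * (1 / m ^ 2 + 1 / c) := by
  have hc : 0 < c := by linarith
  set n := ⌊m⌋₊ with hn
  have hnm : (n : ℝ) ≤ m := Nat.floor_le hm.le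
  have hsub : K ⊆ Icc 1 n := fun k hk =>
    mem_Icc.2 ⟨(hK k hk).1, Nat.le_floor (hK k hk).2⟩
  refine (sum_le_sum_of_subset_of_nonneg hsub fun k _ _ => by positivity).trans ?_
  rcases Nat.eq_zero_or_pos n with h0 | h0
  · rw [h0]; simp only [zero_lt_one, Icc_eq_empty_of_lt, sum_empty]; positivity
  have key : ∀ j : ℕ, 1 ≤ j → j ≤ n →
      ∑ k ∈ Ico 1 j, Real.exp (-c / k) / (k : ℝ) ^ 2 ≤ Real.exp (-c / j) / c := by
    intro j hj
    induction j, hj using Nat.le_induction with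
    | base => intro _; simp only [Ico_self, sum_empty]; positivity
    | succ j hj ih =>
      intro hjn
      rw [sum_Ico_succ_top hj]
      have h1 := ih (by omega)
      have hj0 : (0 : ℝ) < j := by exact_mod_cast hj
      have hj1 : (j : ℝ) + 1 ≤ n := by exact_mod_cast hjn
      have h2 := exp_step c j hj0 (by linarith)
      push_cast
      linarith
  have hn0 : (0 : ℝ) < n := by exact_mod_cast h0
  rw [← Ico_add_one_right_eq_Icc, sum_Ico_succ_top h0]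
  have h1 := key n h0 le_rfl
  have h2 := exp_last c m n hn0 hnm h
  have h3 : Real.exp (-c / n) / c ≤ Real.exp (-c / m) / c := by
    have : c / m ≤ c / n := div_le_div_of_nonneg_left hc.le hn0 hnm
    refine div_le_div_of_nonneg_right (Real.exp_le_exp.2 ?_) hc.le
    rw [neg_div, neg_div]; linarith
  calc _ ≤ Real.exp (-c / m) / c + Real.exp (-c / m) / m ^ 2 := by linarith
    _ = _ := by ring

private theorem sum_drop (lo k : ℕ) (p : ℕ → Prop) [DecidablePred p] (f g : ℕ → ℝ)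
    (h0 : f 0 = 0) (hg : ∀ j, 0 ≤ g j) (hfg : ∀ j, 1 ≤ j → j ≤ k → p j → f j ≤ g j) :
    ∑ j ∈ (Icc lo k).filter p, f j ≤ ∑ j ∈ Icc 1 k, g j := by
  rw [← sum_filter_add_sum_filter_not _ (fun j => j = 0)]
  have h1 : ∑ j ∈ ((Icc lo k).filter p).filter (fun j => j = 0), f j = 0 :=
    sum_eq_zero fun j hj => by rw [(mem_filter.1 hj).2, h0]
  rw [h1, zero_add]
  have hs : ((Icc lo k).filter p).filter (fun j => ¬ j = 0) ⊆ Icc 1 k := fun j hj => by
    have h2 := mem_filter.1 hj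
    have h3 := mem_Icc.1 (mem_filter.1 h2.1).1
    exact mem_Icc.2 ⟨by omega, h3.2⟩
  refine (sum_le_sum fun j hj => ?_).trans (sum_le_sum_of_subset_of_nonneg hs fun j _ _ => hg j)
  have h2 := mem_Icc.1 (hs hj)
  exact hfg j h2.1 h2.2 (mem_filter.1 (mem_filter.1 hj).1).2

theorem J_far {lo e t k : ℕ} (hk : 1000 ≤ k) (ht : 6 * k ≤ t) :
    TB lo k (fun _ t k => JJ t k) e t ≤ 4 / 5 * JJ t k := by
  have hk' : (1000 : ℝ) ≤ k := by exact_mod_cast hk
  have ht' : 6 * (k : ℝ) ≤ t := by exact_mod_cast ht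
  have ht0 : (0 : ℝ) < t := by linarith
  have hk0 : (0 : ℝ) < k := by linarith
  set A : ℝ := 101 / 100 * Real.exp 1 * (6 / 5) ^ 3 / (t : ℝ) ^ 3 * k with hA
  have hA0 : 0 ≤ A := by positivity
  unfold TB
  refine (sum_drop lo k _ _ (fun j => A * (Real.exp (-(t : ℝ) / j) / (j : ℝ) ^ 2)) (by simp)
    (fun j => by positivity) fun j hj hjk _ => ?_).trans ?_
  · have hj0 : (0 : ℝ) < j := by exact_mod_cast hj
    have hjk' : (j : ℝ) ≤ k := by exact_mod_cast hjk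
    have hc : ((t - j : ℕ) : ℝ) = t - j := Nat.cast_sub (by omega)
    simp only [JJ, hc]
    have e1 : Real.exp (-((t : ℝ) - j) / j) = Real.exp 1 * Real.exp (-(t : ℝ) / j) := by
      rw [← Real.exp_add]; congr 1; field_simp; ring
    have h1 : 1 / ((t : ℝ) - j) ^ 3 ≤ (6 / 5) ^ 3 / (t : ℝ) ^ 3 := by
      have : (6 / 5 : ℝ) ^ 3 / (t : ℝ) ^ 3 = 1 / (5 / 6 * (t : ℝ)) ^ 3 := by field_simp
      rw [this]
      gcongr
      linarith
    have h2 : 1 / (j : ℝ) ≤ k / (j : ℝ) ^ 2 := by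
      rw [div_le_div_iff₀ hj0 (by positivity)]; nlinarith
    rw [e1]
    calc 101 / 100 / (j : ℝ) * (Real.exp 1 * Real.exp (-(t : ℝ) / j) / ((t : ℝ) - j) ^ 3)
        = 101 / 100 * Real.exp 1 * Real.exp (-(t : ℝ) / j) * (1 / (j : ℝ)) *
            (1 / ((t : ℝ) - j) ^ 3) := by ring
      _ ≤ 101 / 100 * Real.exp 1 * Real.exp (-(t : ℝ) / j) * (k / (j : ℝ) ^ 2) *
            ((6 / 5) ^ 3 / (t : ℝ) ^ 3) := by
          have : (0 : ℝ) < t - j := by linarith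
          gcongr
      _ = _ := by rw [hA]; ring
  · rw [← mul_sum]
    have h1 := exp_sum t k hk0 (by linarith) (Icc 1 k) fun j hj =>
      ⟨(mem_Icc.1 hj).1, by exact_mod_cast (mem_Icc.1 hj).2⟩
    have h2 : (k : ℝ) * (1 / (k : ℝ) ^ 2 + 1 / t) ≤ 1 / 1000 + 1 / 6 := by
      have e1 : (k : ℝ) * (1 / (k : ℝ) ^ 2 + 1 / t) = 1 / k + k / t := by field_simp
      rw [e1]
      have h3 : 1 / (k : ℝ) ≤ 1 / 1000 := one_div_le_one_div_of_le (by norm_num) hk'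
      have h4 : (k : ℝ) / t ≤ 1 / 6 := by rw [div_le_iff₀ ht0]; linarith
      linarith
    have h3 : Real.exp 1 ≤ 2.7182818286 := Real.exp_one_lt_d9.le
    have h4 : 0 < Real.exp (-(t : ℝ) / k) / (t : ℝ) ^ 3 := by positivity
    calc _ ≤ A * (Real.exp (-(t : ℝ) / k) * (1 / (k : ℝ) ^ 2 + 1 / t)) := by gcongr
      _ = 101 / 100 * Real.exp 1 * (6 / 5) ^ 3 * ((k : ℝ) * (1 / (k : ℝ) ^ 2 + 1 / t)) *
            (Real.exp (-(t : ℝ) / k) / (t : ℝ) ^ 3) := by rw [hA]; ring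
      _ ≤ 101 / 100 * 2.7182818286 * (6 / 5) ^ 3 * (1 / 1000 + 1 / 6) *
            (Real.exp (-(t : ℝ) / k) / (t : ℝ) ^ 3) := by gcongr
      _ ≤ 4 / 5 * (Real.exp (-(t : ℝ) / k) / (t : ℝ) ^ 3) := by gcongr; norm_num
      _ = _ := by rw [JJ]

theorem J_all {lo e t k : ℕ} (hk : 1 ≤ k) (hs : St e t k) :
    TB lo k (fun _ t k => JJ t k) e t ≤ 30 / (t : ℝ) ^ 3 := by
  have hkt : k ≤ t := hs.1
  have hkt' : (k : ℝ) ≤ t := by exact_mod_cast hkt
  have ht0 : (0 : ℝ) < t := by exact_mod_cast (by omega : 0 < t)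
  unfold TB
  refine (sum_drop lo k _ _ (fun _ => 30 / (t : ℝ) ^ 4) (by simp)
    (fun j => by positivity) fun j hj hjk hc => ?_).trans ?_
  · have h2 := (hs.child hjk hc).2
    have hj0 : (0 : ℝ) < j := by exact_mod_cast hj
    have h2' : 2 * (j : ℝ) ≤ t := by exact_mod_cast h2
    have hc : ((t - j : ℕ) : ℝ) = t - j := Nat.cast_sub (by omega)
    simp only [JJ, hc]
    have h3 : Real.exp (-((t : ℝ) - j) / j) ≤ j / t := by
      have h4 := Real.add_one_le_exp (((t : ℝ) - j) / j)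
      have e1 : ((t : ℝ) - j) / j + 1 = t / j := by field_simp; ring
      rw [e1] at h4
      rw [neg_div, Real.exp_neg, ← inv_div (t : ℝ) j]
      exact inv_anti₀ (by positivity) h4
    have h1 : 1 / ((t : ℝ) - j) ^ 3 ≤ 8 / (t : ℝ) ^ 3 := by
      have : (8 : ℝ) / (t : ℝ) ^ 3 = 1 / (1 / 2 * (t : ℝ)) ^ 3 := by field_simp; norm_num
      rw [this]
      gcongr
      linarith
    calc 101 / 100 / (j : ℝ) * (Real.exp (-((t : ℝ) - j) / j) / ((t : ℝ) - j) ^ 3)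
        = 101 / 100 / (j : ℝ) * Real.exp (-((t : ℝ) - j) / j) * (1 / ((t : ℝ) - j) ^ 3) := by
          ring
      _ ≤ 101 / 100 / (j : ℝ) * (j / t) * (8 / (t : ℝ) ^ 3) := by
          have : (0 : ℝ) < t - j := by linarith
          gcongr
      _ = 808 / 100 / (t : ℝ) ^ 4 := by field_simp; norm_num
      _ ≤ _ := by gcongr; norm_num
  · rw [sum_const, Nat.card_Icc, nsmul_eq_mul, Nat.add_sub_cancel]
    calc (k : ℝ) * (30 / (t : ℝ) ^ 4) ≤ t * (30 / (t : ℝ) ^ 4) := by gcongr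
      _ = _ := by field_simp

end

end Pool.Agent.Jac
end

-- part Pool.Agent.P.MP_45ff98_nt.JN4o
section

/-! The supersolution at odd nodes. -/

namespace Pool.Agent.Jac
open Finset

noncomputable section

theorem jn4o_exp : Real.exp (5 / 4) ≤ 7 / 2 := by
  have h4 : Real.exp (5 / 4) ^ 4 = Real.exp 1 ^ 5 := by
    rw [← Real.exp_nat_mul, ← Real.exp_nat_mul]; norm_num
  have h5 : Real.exp 1 ^ 5 ≤ (7 / 2) ^ 4 :=
    (pow_le_pow_left₀ (Real.exp_pos 1).le Real.exp_one_lt_d9.le 5).trans (by norm_num)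
  exact le_of_pow_le_pow_left₀ (n := 4) (by norm_num) (by norm_num) (h4 ▸ h5)

theorem jn4o_sum {e t k : ℕ} (he : ¬ Even e) :
    TB 1 k (fun e t k => hS e t k / k) e t = 101 / 100 * Real.exp (5 / 4) *
      ∑ j ∈ (Icc 1 k).filter (Cont e t), Real.exp (-(5 / 4 * (t : ℝ)) / j) / (j : ℝ) ^ 2 := by
  have he1 : Even (e + 1) := Nat.even_add_one.2 he
  rw [TB, mul_sum]
  refine sum_congr rfl fun j hj => ?_
  obtain ⟨h1, h2⟩ := mem_filter.1 hj
  have h3 : j ≤ t := by have := h2 he1; omega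
  have h4 : (j : ℝ) ≠ 0 := by
    have := (mem_Icc.1 h1).1
    exact_mod_cast (by omega : j ≠ 0)
  have h5 : -(5 / 4) * ((t : ℝ) - j) / j = 5 / 4 + -(5 / 4 * (t : ℝ)) / j := by
    field_simp; ring
  simp only [hS, if_pos he1]
  rw [Nat.cast_sub h3, h5, Real.exp_add]
  field_simp

theorem hS_odd {e t k : ℕ} (he : ¬ Even e) (hk : 1000 ≤ k) (ht : k ≤ t) :
    TB 1 k (fun e t k => hS e t k / k) e t ≤ 873 / 1000 * (hS e t k / k) := by
  have he1 : Even (e + 1) := Nat.even_add_one.2 he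
  have hk' : (1000 : ℝ) ≤ k := by exact_mod_cast hk
  have ht' : (k : ℝ) ≤ t := by exact_mod_cast ht
  have hk0 : (0 : ℝ) < k := by linarith
  have ht0 : (0 : ℝ) < t := by linarith
  have hc : 101 / 100 * Real.exp (5 / 4) ≤ 101 / 100 * (7 / 2) := by linarith [jn4o_exp]
  have hs0 : 0 ≤ ∑ j ∈ (Icc 1 k).filter (Cont e t),
      Real.exp (-(5 / 4 * (t : ℝ)) / j) / (j : ℝ) ^ 2 := sum_nonneg fun j _ => by positivity
  rw [jn4o_sum he]
  refine (mul_le_mul_of_nonneg_right hc hs0).trans ?_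
  simp only [hS, if_neg he]
  split_ifs with h3
  · have h3' : 3 * (k : ℝ) ≤ t := by exact_mod_cast h3
    have hb := exp_sum (5 / 4 * t) k hk0 (by linarith) ((Icc 1 k).filter (Cont e t))
      fun j hj => by
        have := mem_Icc.1 (mem_filter.1 hj).1
        exact ⟨this.1, by exact_mod_cast this.2⟩
    have e1 : -(5 / 4 * (t : ℝ)) / k = -(5 / 4) * t / k := by ring
    rw [e1] at hb
    have hE := Real.exp_pos (-(5 / 4) * (t : ℝ) / k)
    have h6 : 1 / (k : ℝ) ^ 2 ≤ 1 / 1000 * (1 / k) := by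
      rw [div_mul_div_comm, div_le_div_iff₀ (by positivity) (by positivity)]; nlinarith
    have h7 : 1 / (5 / 4 * (t : ℝ)) ≤ 4 / 15 * (1 / k) := by
      rw [div_mul_div_comm, div_le_div_iff₀ (by positivity) (by positivity)]; nlinarith
    have h8 := mul_le_mul_of_nonneg_left (add_le_add h6 h7) hE.le
    have h9 : 0 < Real.exp (-(5 / 4) * (t : ℝ) / k) * (1 / k) := by positivity
    have e2 : 11 / 10 * Real.exp (-(5 / 4) * (t : ℝ) / k) / k =
        11 / 10 * (Real.exp (-(5 / 4) * (t : ℝ) / k) * (1 / k)) := by ring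
    rw [e2]
    nlinarith
  · have hb := exp_sum (5 / 4 * t) (t / 3) (by positivity) (by linarith)
      ((Icc 1 k).filter (Cont e t)) fun j hj => by
        obtain ⟨h1, h2⟩ := mem_filter.1 hj
        have h4 : (3 * j : ℝ) ≤ t := by exact_mod_cast h2 he1
        exact ⟨(mem_Icc.1 h1).1, by linarith⟩
    have e1 : -(5 / 4 * (t : ℝ)) / (t / 3) = -(15 / 4) := by field_simp; ring
    rw [e1] at hb
    have hE := Real.exp_pos (-(15 / 4))
    have h6 : 1 / ((t : ℝ) / 3) ^ 2 ≤ 9 / 1000 * (1 / t) := by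
      rw [div_mul_div_comm, div_le_div_iff₀ (by positivity) (by positivity)]; nlinarith
    have h7 : 1 / (5 / 4 * (t : ℝ)) = 4 / 5 * (1 / t) := by field_simp
    have h8 := mul_le_mul_of_nonneg_left (add_le_add h6 h7.le) hE.le
    have h9 : 0 < Real.exp (-(15 / 4)) * (1 / t) := by positivity
    have e2 : 11 / 10 * Real.exp (-(15 / 4)) * (3 * (k : ℝ) / t) / k =
        33 / 10 * (Real.exp (-(15 / 4)) * (1 / t)) := by field_simp; ring
    rw [e2]
    nlinarith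

end

end Pool.Agent.Jac
end

-- part Pool.Agent.P.MP_45ff98_nt.JN4e
section

/-! The supersolution at even nodes. -/

namespace Pool.Agent.Jac
open Finset

noncomputable section

theorem jn4e_exp : Real.exp (5 / 4) ≤ 7 / 2 := by
  refine le_of_pow_le_pow_left₀ (n := 4) (by norm_num) (by norm_num) ?_
  have h1 : Real.exp (5 / 4) ^ 4 = Real.exp 1 ^ 5 := by
    rw [← Real.exp_nat_mul, ← Real.exp_nat_mul]
    norm_num
  rw [h1]
  exact (pow_le_pow_left₀ (Real.exp_pos 1).le Real.exp_one_lt_d9.le 5).trans (by norm_num)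

theorem jn4e_poly {u : ℝ} (h0 : 0 ≤ u) (h2 : u ≤ 2) :
    7 / 2 * (35552 / 1000000 + 8888 / 10000 * (4 - u) + 4444 / 1000 * u) ≤
      873 / 1000 * (4 - u) ^ 2 * Real.exp (5 / 4 * u) := by
  have h1 := Real.sum_le_exp_of_nonneg (x := 5 / 4 * u) (by positivity) 5
  simp only [sum_range_succ, range_zero, sum_empty, Nat.factorial] at h1
  refine le_trans ?_ (mul_le_mul_of_nonneg_left h1 (by positivity))
  have h3 : 0 ≤ 2 - u := by linarith
  have h4 : ∀ i j : ℕ, 0 ≤ u ^ i * (2 - u) ^ j := fun i j => by positivity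
  push_cast
  nlinarith [h4 0 6, h4 1 5, h4 2 4, h4 3 3, h4 4 2, h4 5 1, h4 6 0]

theorem jn4e_A {e t j : ℕ} (he : ¬ Even (e + 1)) (h1 : 1 ≤ j) (h : 4 * j ≤ t) :
    101 / 100 / (j : ℝ) * (hS (e + 1) (t - j) j / j) =
      1111 / 1000 * Real.exp (5 / 4) * (Real.exp (-(5 / 4 * (t : ℝ)) / j) / (j : ℝ) ^ 2) := by
  have hj : (0 : ℝ) < j := by exact_mod_cast h1
  rw [hS, if_neg he, if_pos (by omega), Nat.cast_sub (by omega),
    show -(5 / 4) * ((t : ℝ) - j) / j = 5 / 4 + -(5 / 4 * (t : ℝ)) / j by field_simp; ring,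
    Real.exp_add]
  field_simp
  ring

theorem jn4e_B {e t j : ℕ} (he : ¬ Even (e + 1)) (h1 : 2 * j ≤ t) (h : ¬ 4 * j ≤ t) :
    101 / 100 / (j : ℝ) * (hS (e + 1) (t - j) j / j) ≤
      1111 / 1000 * Real.exp (-(15 / 4)) * (16 / (t : ℝ) ^ 2) := by
  have hj : (0 : ℝ) < j := by exact_mod_cast (show 0 < j by omega)
  have h2 : 2 * (j : ℝ) ≤ t := by exact_mod_cast h1
  have h3 : (t : ℝ) ≤ 4 * j := by exact_mod_cast (not_le.1 h).le
  have h4 : 0 < (t : ℝ) - j := by linarith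
  rw [hS, if_neg he, if_neg (by omega), Nat.cast_sub (by omega),
    show 101 / 100 / (j : ℝ) * (11 / 10 * Real.exp (-(15 / 4)) * (3 * j / ((t : ℝ) - j)) / j)
      = 1111 / 1000 * Real.exp (-(15 / 4)) * (3 / (j * ((t : ℝ) - j))) by field_simp; ring]
  refine mul_le_mul_of_nonneg_left ?_ (by positivity)
  rw [div_le_div_iff₀ (by positivity) (by nlinarith)]
  nlinarith [mul_nonneg (sub_nonneg.2 h3) (show 0 ≤ 3 * (t : ℝ) - 4 * j by linarith)]

theorem hS_even {e t k : ℕ} (he : Even e) (hk : 1000 ≤ k) (ht : 2 * k ≤ t) :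
    TB 1 k (fun e t k => hS e t k / k) e t ≤ 873 / 1000 * (hS e t k / k) := by
  have he' : ¬ Even (e + 1) := fun h => (Nat.even_add_one.1 h) he
  have hK : (1000 : ℝ) ≤ k := by exact_mod_cast hk
  have hT : 2 * (k : ℝ) ≤ t := by exact_mod_cast ht
  have hK0 : (0 : ℝ) < k := by linarith
  have hT0 : (0 : ℝ) < t := by linarith
  have hE := jn4e_exp
  have hA : ∀ m : ℝ, 0 < m → 2 * m ≤ 5 / 4 * (t : ℝ) →
      (∀ j ∈ (Icc 1 k).filter (fun j => 4 * j ≤ t), (j : ℝ) ≤ m) →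
      ∑ j ∈ (Icc 1 k).filter (fun j => 4 * j ≤ t), 101 / 100 / (j : ℝ) * (hS (e + 1) (t - j) j / j)
        ≤ 1111 / 1000 * Real.exp (5 / 4) *
          (Real.exp (-(5 / 4 * (t : ℝ)) / m) * (1 / m ^ 2 + 1 / (5 / 4 * (t : ℝ)))) := by
    intro m h1 h2 h3
    rw [sum_congr rfl fun j hj => jn4e_A he' (mem_Icc.1 (mem_filter.1 hj).1).1 (mem_filter.1 hj).2,
      ← mul_sum]
    exact mul_le_mul_of_nonneg_left (exp_sum _ m h1 h2 _ fun j hj =>
      ⟨(mem_Icc.1 (mem_filter.1 hj).1).1, h3 j hj⟩) (by positivity)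
  have h0 : TB 1 k (fun e t k => hS e t k / k) e t =
      ∑ j ∈ Icc 1 k, 101 / 100 / (j : ℝ) * (hS (e + 1) (t - j) j / j) := by
    rw [TB, filter_true_of_mem fun j _ h => absurd h he']
  rw [h0, hS, if_pos he]
  by_cases h4 : 4 * k ≤ t
  · have h5 : 4 * (k : ℝ) ≤ t := by exact_mod_cast h4
    have h6 := hA k hK0 (by linarith) fun j hj => by exact_mod_cast (mem_Icc.1 (mem_filter.1 hj).1).2
    rw [filter_true_of_mem fun j hj => by have := (mem_Icc.1 hj).2; omega] at h6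
    refine h6.trans ?_
    rw [show -(5 / 4) * (t : ℝ) / k = -(5 / 4 * (t : ℝ)) / k by ring]
    have h7 : 1 / (k : ℝ) ^ 2 + 1 / (5 / 4 * (t : ℝ)) ≤ 201 / 1000 / k := by
      have h8 : 1 / (k : ℝ) ^ 2 ≤ 1 / 1000 / k := by
        rw [div_div]
        exact one_div_le_one_div_of_le (by positivity) (by nlinarith)
      have h9 : 1 / (5 / 4 * (t : ℝ)) ≤ 1 / 5 / k := by
        rw [div_div]
        exact one_div_le_one_div_of_le (by positivity) (by linarith)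
      refine (add_le_add h8 h9).trans_eq (by ring)
    calc _ ≤ 1111 / 1000 * (7 / 2) * (Real.exp (-(5 / 4 * (t : ℝ)) / k) * (201 / 1000 / k)) := by
          gcongr
      _ = 1111 / 1000 * (7 / 2) * (201 / 1000) * (Real.exp (-(5 / 4 * (t : ℝ)) / k) / k) := by ring
      _ ≤ _ := mul_le_mul_of_nonneg_right (by norm_num) (by positivity)
  · have h5 : (t : ℝ) ≤ 4 * k := by exact_mod_cast (not_le.1 h4).le
    have h6 := hA (t / 4) (by positivity) (by linarith) fun j hj => by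
      have : 4 * (j : ℝ) ≤ t := by exact_mod_cast (mem_filter.1 hj).2
      linarith
    have h7 := sum_le_card_nsmul ((Icc 1 k).filter fun j => ¬ 4 * j ≤ t) _ _ fun j hj =>
      jn4e_B (t := t) he' (by have := (mem_Icc.1 (mem_filter.1 hj).1).2; omega) (mem_filter.1 hj).2
    have h8 : (((Icc 1 k).filter fun j => ¬ 4 * j ≤ t).card : ℝ) ≤ k - t / 4 + 1 := by
      have h9 : ((Icc 1 k).filter fun j => ¬ 4 * j ≤ t).card ≤ (Ioc (t / 4) k).card :=
        card_le_card fun j hj => by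
          have h10 := mem_filter.1 hj
          have h11 := mem_Icc.1 h10.1
          exact mem_Ioc.2 ⟨by omega, h11.2⟩
      rw [Nat.card_Ioc] at h9
      have h10 : 4 * ((Icc 1 k).filter fun j => ¬ 4 * j ≤ t).card + t ≤ 4 * k + 4 := by omega
      have h11 : 4 * (((Icc 1 k).filter fun j => ¬ 4 * j ≤ t).card : ℝ) + t ≤ 4 * k + 4 := by
        exact_mod_cast h10
      linarith
    rw [nsmul_eq_mul] at h7
    rw [← sum_filter_add_sum_filter_not (Icc 1 k) fun j => 4 * j ≤ t]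
    refine (add_le_add h6 (h7.trans (mul_le_mul_of_nonneg_right h8 (by positivity)))).trans ?_
    obtain ⟨u, hu⟩ : ∃ u : ℝ, (t : ℝ) = (4 - u) * k := ⟨4 - t / k, by field_simp; ring⟩
    have u0 : 0 ≤ u := by nlinarith
    have u2 : u ≤ 2 := by nlinarith
    have u4 : 0 < 4 - u := by linarith
    have e1 : Real.exp (-(5 / 4 * (t : ℝ)) / (t / 4)) = Real.exp (-5) := by
      congr 1
      field_simp
    have e2 : Real.exp (-(15 / 4)) = Real.exp (5 / 4) * Real.exp (-5) := by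
      rw [← Real.exp_add]
      norm_num
    have e3 : Real.exp (-(5 / 4) * (t : ℝ) / k) = Real.exp (5 / 4 * u) * Real.exp (-5) := by
      rw [← Real.exp_add, hu]
      congr 1
      field_simp
      ring
    rw [e1, e2, e3, hu]
    have h9 : (35552 : ℝ) / 1000 / k ≤ 35552 / 1000000 := by
      rw [div_le_iff₀ hK0]
      linarith
    calc _ = Real.exp (5 / 4) * (35552 / 1000 / k + 8888 / 10000 * (4 - u) + 4444 / 1000 * u) *
          (Real.exp (-5) / ((4 - u) ^ 2 * k)) := by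
          field_simp
          ring
      _ ≤ 7 / 2 * (35552 / 1000000 + 8888 / 10000 * (4 - u) + 4444 / 1000 * u) *
          (Real.exp (-5) / ((4 - u) ^ 2 * k)) := by gcongr
      _ ≤ 873 / 1000 * (4 - u) ^ 2 * Real.exp (5 / 4 * u) * (Real.exp (-5) / ((4 - u) ^ 2 * k)) :=
          mul_le_mul_of_nonneg_right (jn4e_poly u0 u2) (by positivity)
      _ = _ := by field_simp

end

end Pool.Agent.Jac
end

-- part Pool.Agent.P.MP_45ff98_nt.JRec
section

/-! Recursions for the loss and for the gain. -/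

namespace Pool.Agent.Jac
open Finset

noncomputable section

theorem JRec_not_mem {T : Finset ℕ} {q : ℕ} (h : ∀ r ∈ T, r < q) : q ∉ T :=
  fun hq => lt_irrefl _ (h q hq)

theorem JRec_mn_single (q : ℕ) : mn {q} = q :=
  mn_eq (mem_singleton_self q) fun _ hr => (mem_singleton.1 hr).ge

theorem JRec_mn_insert {T : Finset ℕ} {q : ℕ} (h : ∀ r ∈ T, r < q) (hT : T.Nonempty) :
    mn (insert q T) = mn T := by
  refine mn_eq (mem_insert_of_mem (mn_mem hT)) fun r hr => ?_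
  rcases mem_insert.1 hr with rfl | hr
  · exact (h _ (mn_mem hT)).le
  · exact mn_le hr

theorem JRec_top_self {T : Finset ℕ} {q : ℕ} (h : ∀ r ∈ T, r < q) : top (insert q T) q = {q} := by
  ext r
  simp only [top, mem_filter, mem_insert, mem_singleton]
  constructor
  · rintro ⟨rfl | h1, h2⟩
    · rfl
    · exact absurd (h r h1) (not_lt.2 h2)
  · rintro rfl
    exact ⟨Or.inl rfl, le_rfl⟩

theorem JRec_top_insert {T : Finset ℕ} {q p : ℕ} (h : ∀ r ∈ T, r < q) (hp : p ∈ T) :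
    top (insert q T) p = insert q (top T p) := by
  rw [top, filter_insert, if_pos (h p hp).le, top]

theorem JRec_abv_self {T : Finset ℕ} {q : ℕ} (h : ∀ r ∈ T, r < q) : abv (insert q T) q = ∅ := by
  refine filter_eq_empty_iff.2 fun r hr => ?_
  rcases mem_insert.1 hr with rfl | hr
  · exact lt_irrefl _
  · exact not_lt.2 (h r hr).le

theorem JRec_abv_insert {T : Finset ℕ} {q p : ℕ} (h : ∀ r ∈ T, r < q) (hp : p ∈ T) :
    abv (insert q T) p = insert q (abv T p) := by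
  rw [abv, filter_insert, if_pos (h p hp), abv]

theorem JRec_ks_single (q : ℕ) : ks {q} = kk q := sum_singleton _ _

theorem JRec_pr_single (q : ℕ) : pr {q} = q := prod_singleton _ _

theorem JRec_ok_single (e t q : ℕ) : okR e t {q} ↔ Cont e t (kk q) := by
  rw [okR, Cont, card_singleton, JRec_ks_single, JRec_mn_single]
  exact imp_congr_right fun _ => by omega

theorem JRec_ok_insert (e t : ℕ) {T : Finset ℕ} {q : ℕ} (h : ∀ r ∈ T, r < q) (hT : T.Nonempty) :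
    okR e t (insert q T) ↔ okR (e + 1) (t - kk q) T := by
  rw [okR, okR, card_insert_of_notMem (JRec_not_mem h), ks_insert (JRec_not_mem h),
    JRec_mn_insert h hT, show e + (T.card + 1) = e + 1 + T.card by omega]
  have := kk_pos (mn T)
  exact imp_congr_right fun _ => by omega

theorem JRec_valid_insert (e t : ℕ) {T : Finset ℕ} {q : ℕ} (h : ∀ r ∈ T, r < q) :
    Valid e t (insert q T) ↔ Cont e t (kk q) ∧ Valid (e + 1) (t - kk q) T := by
  rw [Valid, Valid, GV, GV, forall_mem_insert, JRec_top_self h, JRec_ok_single]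
  refine and_congr_right fun _ => forall₂_congr fun p hp => ?_
  rw [JRec_top_insert h hp]
  exact JRec_ok_insert e t (fun r hr => h r (mem_filter.1 hr).1) ⟨p, mem_filter.2 ⟨hp, le_rfl⟩⟩

theorem JRec_valid_empty (e t : ℕ) : Valid e t ∅ := fun _ hp => absurd hp (notMem_empty _)

theorem JRec_bd_empty (e t : ℕ) : ¬ Bd e t ∅ := fun h => not_nonempty_empty h.1

theorem JRec_bd_single (e t q : ℕ) : Bd e t {q} ↔ ¬ Cont e t (kk q) := by
  rw [Bd, GB, JRec_mn_single, erase_singleton, JRec_ok_single]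
  exact ⟨fun h => h.2.2, fun h => ⟨singleton_nonempty q, JRec_valid_empty e t, h⟩⟩

theorem JRec_bd_insert (e t : ℕ) {T : Finset ℕ} {q : ℕ} (h : ∀ r ∈ T, r < q) (hT : T.Nonempty) :
    Bd e t (insert q T) ↔ Cont e t (kk q) ∧ Bd (e + 1) (t - kk q) T := by
  have h1 := JRec_valid_insert e t (T := T.erase (mn T)) (q := q)
    fun r hr => h r (mem_of_mem_erase hr)
  rw [Valid, Valid] at h1
  rw [Bd, Bd, GB, GB, JRec_mn_insert h hT, erase_insert_of_ne (h _ (mn_mem hT)).ne', h1,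
    JRec_ok_insert e t h hT]
  have := insert_nonempty q T
  tauto

theorem JRec_alw_insert (P : Par) (t : ℕ) {T : Finset ℕ} {q : ℕ} (h : ∀ r ∈ T, r < q) :
    Alw P t (insert q T) ↔ AlwS P t (kk q) ∧ Alw P (t - kk q) T := by
  rw [Alw, Alw, AlwS, forall_mem_insert, JRec_abv_self h, show ks ∅ = 0 from rfl]
  refine and_congr Iff.rfl (forall₂_congr fun p hp => ?_)
  rw [JRec_abv_insert h hp,
    ks_insert (T := abv T p) (JRec_not_mem fun r hr => h r (mem_filter.1 hr).1)]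
  generalize P.CW * P.kW = A
  omega

theorem JRec_term_single (P : Par) (t q : ℕ) : Term P t {q} ↔ TermS P t (kk q) := by
  rw [Term, TermS, JRec_mn_single, JRec_ks_single]
  omega

theorem JRec_term_insert (P : Par) (t : ℕ) {T : Finset ℕ} {q : ℕ} (h : ∀ r ∈ T, r < q)
    (hT : T.Nonempty) : Term P t (insert q T) ↔ Term P (t - kk q) T := by
  rw [Term, Term, JRec_mn_insert h hT, ks_insert (JRec_not_mem h)]
  have := kk_pos (mn T)
  omega

theorem JRec_below {k q : ℕ} {T : Finset ℕ} (hT : T ∈ (PP k q).powerset) : ∀ r ∈ T, r < q :=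
  fun _ hr => (mem_PP.1 (mem_powerset.1 hT hr)).1

theorem U_rec (C : ℝ) (G k0 e t p : ℕ) : UU C G k0 e t p = psi C k0 t +
    ∑ q ∈ PP k0 p, (if Cont e t (kk q) then UU C G k0 (e + 1) (t - kk q) q
      else bd C G (t - kk q) (kk q)) / q := by
  classical
  rw [UU, vals, bds, sum_filter, sum_filter, sum_PP_powerset, sum_PP_powerset,
    if_pos (JRec_valid_empty e t), if_neg (JRec_bd_empty e t), zero_add, add_assoc,
    ← sum_add_distrib]
  congr 1
  · simp [ks, pr]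
  refine sum_congr rfl fun q _ => ?_
  by_cases hc : Cont e t (kk q)
  · rw [if_pos hc, UU, vals, bds, sum_filter, sum_filter, add_div, sum_div, sum_div]
    congr 1
    · refine sum_congr rfl fun T hT => ?_
      have h := JRec_below hT
      by_cases hv : Valid (e + 1) (t - kk q) T
      · rw [if_pos hv, if_pos ((JRec_valid_insert e t h).2 ⟨hc, hv⟩),
          ks_insert (JRec_not_mem h), pr_insert (JRec_not_mem h), Nat.sub_add_eq, Nat.cast_mul,
          div_div, mul_comm]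
      · rw [if_neg hv, if_neg fun h1 => hv ((JRec_valid_insert e t h).1 h1).2, zero_div]
    · refine sum_congr rfl fun T hT => ?_
      have h := JRec_below hT
      by_cases hv : Bd (e + 1) (t - kk q) T
      · rw [if_pos hv, if_pos ((JRec_bd_insert e t h hv.1).2 ⟨hc, hv⟩),
          ks_insert (JRec_not_mem h), pr_insert (JRec_not_mem h), Nat.sub_add_eq, Nat.cast_mul,
          div_div, mul_comm, JRec_mn_insert h hv.1]
      · rw [if_neg hv, if_neg, zero_div]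
        rcases T.eq_empty_or_nonempty with rfl | hn
        · exact fun h1 => (JRec_bd_single e t q).1 h1 hc
        · exact fun h1 => hv ((JRec_bd_insert e t h hn).1 h1).2
  · rw [if_neg hc, sum_eq_zero, zero_add, sum_eq_single ∅]
    · rw [if_pos (show Bd e t (insert q ∅) from (JRec_bd_single e t q).2 hc)]
      rw [show insert q (∅ : Finset ℕ) = {q} from rfl, JRec_ks_single, JRec_mn_single,
        JRec_pr_single]
    · intro T hT hn
      exact if_neg fun h1 =>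
        hc ((JRec_bd_insert e t (JRec_below hT) (nonempty_iff_ne_empty.2 hn)).1 h1).1
    · exact fun h => absurd (empty_mem_powerset _) h
    · exact fun T hT => if_neg fun h1 => hc ((JRec_valid_insert e t (JRec_below hT)).1 h1).1

theorem JRec_gf_insert (P : Par) (e t : ℕ) {T : Finset ℕ} {q : ℕ} (h : ∀ r ∈ T, r < q)
    (hT : T.Nonempty) : GF P e t (insert q T) ↔
      AlwS P t (kk q) ∧ Cont e t (kk q) ∧ GF P (e + 1) (t - kk q) T := by
  rw [GF, GF, JRec_bd_insert e t h hT, JRec_alw_insert P t h, JRec_term_insert P t h hT]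
  tauto

theorem JRec_gf_single (P : Par) (e t q : ℕ) : GF P e t (insert q ∅) ↔
    AlwS P t (kk q) ∧ ¬ Cont e t (kk q) ∧ TermS P t (kk q) := by
  rw [GF, JRec_alw_insert P t (fun _ hr => absurd hr (notMem_empty _)),
    show insert q (∅ : Finset ℕ) = {q} from rfl, JRec_bd_single, JRec_term_single]
  have : Alw P (t - kk q) ∅ := fun _ hr => absurd hr (notMem_empty _)
  tauto

theorem Gam_rec (P : Par) (e t p : ℕ) : Gam P e t p =
    ∑ q ∈ PP P.k0 p, (if AlwS P t (kk q) then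
      (if Cont e t (kk q) then Gam P (e + 1) (t - kk q) q
        else if TermS P t (kk q) then 1 / (kk q : ℝ) else 0) else 0) / q := by
  classical
  rw [Gam, fam, sum_filter, sum_PP_powerset, if_neg (fun h => JRec_bd_empty e t h.1), zero_add]
  refine sum_congr rfl fun q _ => ?_
  by_cases ha : AlwS P t (kk q)
  swap
  · rw [if_neg ha, zero_div]
    exact sum_eq_zero fun T hT => if_neg fun h1 =>
      ha ((JRec_alw_insert P t (JRec_below hT)).1 h1.2.1).1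
  rw [if_pos ha]
  by_cases hc : Cont e t (kk q)
  · rw [if_pos hc, Gam, fam, sum_filter, sum_div]
    refine sum_congr rfl fun T hT => ?_
    have h := JRec_below hT
    by_cases hv : GF P (e + 1) (t - kk q) T
    · rw [if_pos hv, if_pos ((JRec_gf_insert P e t h hv.1.1).2 ⟨ha, hc, hv⟩),
        pr_insert (JRec_not_mem h), JRec_mn_insert h hv.1.1, Nat.cast_mul, div_div]
      congr 1
      ring
    · rw [if_neg hv, if_neg, zero_div]
      rcases T.eq_empty_or_nonempty with rfl | hn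
      · exact fun h1 => ((JRec_gf_single P e t q).1 h1).2.1 hc
      · exact fun h1 => hv ((JRec_gf_insert P e t h hn).1 h1).2.2
  · rw [if_neg hc, sum_eq_single ∅]
    · by_cases ht : TermS P t (kk q)
      · rw [if_pos ht, if_pos ((JRec_gf_single P e t q).2 ⟨ha, hc, ht⟩),
          show insert q (∅ : Finset ℕ) = {q} from rfl, JRec_mn_single, JRec_pr_single, div_div,
          mul_comm]
      · rw [if_neg ht, if_neg fun h1 => ht ((JRec_gf_single P e t q).1 h1).2.2, zero_div]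
    · intro T hT hn
      exact if_neg fun h1 =>
        hc ((JRec_gf_insert P e t (JRec_below hT) (nonempty_iff_ne_empty.2 hn)).1 h1).2.1
    · exact fun h => absurd (empty_mem_powerset _) h

theorem Gam_nonneg (P : Par) (e t p : ℕ) : 0 ≤ Gam P e t p :=
  sum_nonneg fun _ _ => by positivity

end

end Pool.Agent.Jac
end

-- part Pool.Agent.P.MP_45ff98_nt.JN5
section

/-! The bound for the loss. -/

namespace Pool.Agent.Jac
open Finset

noncomputable section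

theorem jn5_hS_nonneg (e t k : ℕ) : 0 ≤ hS e t k := by
  unfold hS
  split_ifs <;> positivity

theorem Sup_nonneg (k0 e t k : ℕ) : 0 ≤ Sup k0 e t k := by
  have := jn5_hS_nonneg e t k
  unfold Sup
  positivity

theorem jn5_log {k0 t k : ℕ} (h : 2 * k ≤ t) :
    Nat.log 2 (t / k0) ≤ Nat.log 2 ((t - k) / k0) + 1 := by
  have h1 : t / k0 / 2 ≤ (t - k) / k0 := by
    rw [Nat.div_div_eq_div_mul, mul_comm, ← Nat.div_div_eq_div_mul]
    exact Nat.div_le_div_right (by omega)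
  have h2 := Nat.log_mono_right (b := 2) h1
  rw [Nat.log_div_base] at h2
  omega

theorem sup_step {k0 e t k : ℕ} (h0 : 1000 ≤ k0) (hk : k0 ≤ k) (hs : St e t k) :
    TB k0 k (Sup k0) e t ≤ 97 / 100 * Sup k0 e t k := by
  have h1 : TB 1 k (fun e t k => hS e t k / k) e t ≤ 873 / 1000 * (hS e t k / k) := by
    by_cases he : Even e
    · exact hS_even he (h0.trans hk) (hs.2 he)
    · exact hS_odd he (h0.trans hk) hs.1
  set A : ℝ := (9 / 10) ^ Nat.log 2 (t / k0) with hA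
  have hA0 : 0 ≤ A := by positivity
  have h2 : TB k0 k (Sup k0) e t ≤ 10 / 9 * A * TB 1 k (fun e t k => hS e t k / k) e t := by
    unfold TB
    rw [mul_sum]
    refine (sum_le_sum fun k' hk' => ?_).trans (sum_le_sum_of_subset_of_nonneg
      (filter_subset_filter _ (Icc_subset_Icc_left (by omega : 1 ≤ k0))) fun k' _ _ => ?_)
    · obtain ⟨h3, h4⟩ := mem_filter.1 hk'
      have h5 := (hs.child (mem_Icc.1 h3).2 h4).2
      have h6 : (9 / 10 : ℝ) ^ (Nat.log 2 ((t - k') / k0) + 1) ≤ A :=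
        pow_le_pow_of_le_one (by norm_num) (by norm_num) (jn5_log h5)
      rw [pow_succ] at h6
      have h7 : 0 ≤ 101 / 100 / (k' : ℝ) * (hS (e + 1) (t - k') k' / k') := by
        have := jn5_hS_nonneg (e + 1) (t - k') k'
        positivity
      calc 101 / 100 / (k' : ℝ) * Sup k0 (e + 1) (t - k') k'
          = (9 / 10) ^ Nat.log 2 ((t - k') / k0) *
            (101 / 100 / (k' : ℝ) * (hS (e + 1) (t - k') k' / k')) := by
            unfold Sup
            ring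
        _ ≤ _ := mul_le_mul_of_nonneg_right (by linarith) h7
    · have := jn5_hS_nonneg (e + 1) (t - k') k'
      positivity
  refine h2.trans ((mul_le_mul_of_nonneg_left h1 (by positivity)).trans (le_of_eq ?_))
  unfold Sup
  rw [← hA]
  ring

theorem jn5_hS_ge {e t k : ℕ} (hk : 1 ≤ k) (ht : k ≤ t) :
    Real.exp (-(15 / 4)) * Real.exp (-(5 / 4) * t / k) ≤ hS e t k := by
  have hk0 : (0 : ℝ) < k := by exact_mod_cast hk
  have ht0 : (0 : ℝ) < t := by exact_mod_cast hk.trans ht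
  have h1 : Real.exp (-(15 / 4)) ≤ 1 := Real.exp_le_one_iff.2 (by norm_num)
  have h2 : Real.exp (-(5 / 4) * t / k) ≤ 1 :=
    Real.exp_le_one_iff.2 (div_nonpos_of_nonpos_of_nonneg (by linarith) hk0.le)
  have h3 := Real.exp_pos (-(15 / 4))
  have h4 := Real.exp_pos (-(5 / 4) * t / k)
  unfold hS
  split_ifs with he h
  · nlinarith
  · nlinarith
  · have h5 : (1 : ℝ) ≤ 3 * k / t := by
      rw [le_div_iff₀ ht0]
      have : t ≤ 3 * k := by omega
      exact_mod_cast (by simpa using this : 1 * t ≤ 3 * k)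
    nlinarith

theorem psiS_le : ∃ c : ℝ, 1 ≤ c ∧ ∀ (C : ℝ) (G k0 e t k : ℕ), 0 ≤ C → 1 ≤ k0 → G ≤ k0 → k0 ≤ k →
    St e t k → psiS C G k0 t k ≤ c * C * Sup k0 e t k := by
  refine ⟨5 * Real.exp (15 / 4), by linarith [Real.one_le_exp (by norm_num : (0 : ℝ) ≤ 15 / 4)],
    fun C G k0 e t k hC h0 hG hk hs => ?_⟩
  have hkt := hs.1
  have a0 : (0 : ℝ) < k0 := by exact_mod_cast h0
  have a1 : (k0 : ℝ) ≤ k := by exact_mod_cast hk
  have a2 : (k : ℝ) ≤ t := by exact_mod_cast hkt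
  have a3 : (G : ℝ) ≤ k0 := by exact_mod_cast hG
  have a4 : (0 : ℝ) < k := by linarith
  have a5 : (0 : ℝ) < t := by linarith
  set E := Real.exp (-(5 / 4) * t / k) with hE
  have hE0 : 0 < E := Real.exp_pos _
  have b1 : (k0 : ℝ) / t ≤ (9 / 10) ^ Nat.log 2 (t / k0) := by
    have h1 : 2 ^ Nat.log 2 (t / k0) ≤ t / k0 :=
      Nat.pow_log_le_self 2 (Nat.div_pos (hk.trans hkt) h0).ne'
    have h2 : ((2 : ℝ) ^ Nat.log 2 (t / k0)) ≤ t / k0 :=
      le_trans (by exact_mod_cast h1) Nat.cast_div_le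
    calc (k0 : ℝ) / t = 1 / (t / k0) := by field_simp
      _ ≤ 1 / 2 ^ Nat.log 2 (t / k0) := one_div_le_one_div_of_le (by positivity) h2
      _ = (1 / 2) ^ Nat.log 2 (t / k0) := by rw [one_div_pow]
      _ ≤ _ := pow_le_pow_left₀ (by norm_num) (by norm_num) _
  have b2 : (k0 : ℝ) / t * (Real.exp (-(15 / 4)) * E) / k ≤ Sup k0 e t k :=
    div_le_div_of_nonneg_right (mul_le_mul b1 (jn5_hS_ge (h0.trans hk) hkt) (by positivity)
      (by positivity)) a4.le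
  have b3 : (G : ℝ) ^ 2 / (t : ℝ) ^ 3 * E ≤ k0 / (t * k) * E := by
    refine mul_le_mul_of_nonneg_right ?_ hE0.le
    rw [div_le_div_iff₀ (by positivity) (by positivity)]
    have h1 : (G : ℝ) ^ 2 ≤ k0 * t :=
      (pow_le_pow_left₀ (by positivity) a3 2).trans (by nlinarith)
    calc (G : ℝ) ^ 2 * (t * k) ≤ k0 * t * (t * t) := by gcongr
      _ = k0 * (t : ℝ) ^ 3 := by ring
  have b4 : Real.exp (-2 * t / k0) / k0 ≤ 4 * (k0 / (t * k) * E) := by
    have h1 : Real.exp (-2 * t / k0) * Real.exp (3 / 4 * (t / k0)) ≤ E := by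
      rw [← Real.exp_add, hE]
      refine Real.exp_le_exp.2 ?_
      have : (t : ℝ) / k ≤ t / k0 := div_le_div_of_nonneg_left a5.le a0 a1
      have e1 : -2 * (t : ℝ) / k0 = -2 * (t / k0) := by ring
      have e2 : -(5 / 4) * (t : ℝ) / k = -(5 / 4) * (t / k) := by ring
      rw [e1, e2]
      linarith
    have h2 := Real.quadratic_le_exp_of_nonneg (by positivity : (0 : ℝ) ≤ 3 / 4 * (t / k0))
    have h3 : (0 : ℝ) ≤ t / k0 := by positivity
    have h4 : ((t : ℝ) / k0) ^ 2 ≤ 4 * Real.exp (3 / 4 * (t / k0)) := by nlinarith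
    have h5 : (t : ℝ) * k / (k0 : ℝ) ^ 2 ≤ (t / k0) ^ 2 := by
      rw [div_pow]
      exact div_le_div_of_nonneg_right (by nlinarith) (by positivity)
    have h6 := Real.exp_pos (-2 * t / k0)
    have h7 : Real.exp (-2 * t / k0) * ((t : ℝ) * k / (k0 : ℝ) ^ 2) ≤ 4 * E := by
      have := mul_le_mul_of_nonneg_left (h5.trans h4) h6.le
      linarith
    calc Real.exp (-2 * t / k0) / k0
        = Real.exp (-2 * t / k0) * ((t : ℝ) * k / (k0 : ℝ) ^ 2) * (k0 / (t * k)) := by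
          field_simp
      _ ≤ 4 * E * (k0 / (t * k)) := mul_le_mul_of_nonneg_right h7 (by positivity)
      _ = _ := by ring
  have b5 : Real.exp (15 / 4) * ((k0 : ℝ) / t * (Real.exp (-(15 / 4)) * E) / k) =
      k0 / (t * k) * E := by
    rw [Real.exp_neg]
    field_simp
  have b6 := mul_le_mul_of_nonneg_left b2 (Real.exp_pos (15 / 4)).le
  unfold psiS
  rw [← hE]
  calc _ ≤ C * (5 * (Real.exp (15 / 4) * Sup k0 e t k)) :=
        mul_le_mul_of_nonneg_left (by linarith) hC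
    _ = _ := by ring

theorem loss_bound : ∃ cR c1 : ℝ, 1 ≤ cR ∧ 1 ≤ c1 ∧ ∀ (C : ℝ) (G k0 : ℕ), 0 ≤ C → 1 ≤ G →
    G ≤ k0 → 1000 ≤ k0 → HB k0 → ∀ e t p : ℕ, St e t (kk p) → k0 ≤ kk p →
    XX C G k0 e t p ≤ psiS (cR * C) G k0 t (kk p) + TP k0 (XX C G k0) e t p ∧
      XX C G k0 e t p ≤ c1 * C * Sup k0 e t (kk p) := by
  obtain ⟨cR, hR, H1⟩ := conv_box
  obtain ⟨c, hc, H2⟩ := psiS_le
  have hcc : 1 ≤ c * cR := one_le_mul_of_one_le_of_one_le hc hR
  refine ⟨cR, 100 / 3 * (c * cR), hR, by linarith, fun C G k0 hC hG hGk h0 hB => ?_⟩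
  have first : ∀ e t p : ℕ, St e t (kk p) → k0 ≤ kk p →
      XX C G k0 e t p ≤ psiS (cR * C) G k0 t (kk p) + TP k0 (XX C G k0) e t p := by
    intro e t p hs hk
    have h1 := H1 C G k0 e t (kk p) hC hG (by omega) hk hs
    have h2 := TP_le_TB hB (Rr C) (fun e t k => by
      unfold Rr
      split_ifs <;> positivity) e t p
    have h3 := box_upper hB ((PP k0 p).filter fun q => ¬ Cont e t (kk q))
      ((Icc k0 (kk p)).filter fun k' => ¬ Cont e t k') (fun q hq => by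
        obtain ⟨h4, h5⟩ := mem_filter.1 hq
        obtain ⟨h6, h7, h8⟩ := mem_PP.1 h4
        exact ⟨h7, mem_filter.2 ⟨mem_Icc.2 ⟨h8, kk_mono h6.le⟩, h5⟩⟩)
      (fun k hk => (mem_Icc.1 (mem_filter.1 hk).1).1) (fun k' => bd C G (t - k') k')
      fun k' _ => by
        unfold bd
        split_ifs <;> positivity
    have h4 : UU C G k0 e t p = psi C k0 t + (TP k0 (XX C G k0) e t p +
        TP k0 (fun e t q => Rr C e t (kk q)) e t p +
        ∑ q ∈ (PP k0 p).filter fun q => ¬ Cont e t (kk q), bd C G (t - kk q) (kk q) / q) := by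
      rw [U_rec, TP, TP, ← sum_add_distrib, sum_filter, sum_filter, ← sum_add_distrib]
      congr 1
      refine sum_congr rfl fun q _ => ?_
      unfold XX
      split_ifs <;> ring
    unfold XX at h4 ⊢
    linarith
  refine fun e t p hs hk => ⟨first e t p hs hk, ?_⟩
  induction p using Nat.strong_induction_on generalizing e t with
  | _ p ih =>
    have h1 := first e t p hs hk
    have h2 := H2 (cR * C) G k0 e t (kk p) (by positivity) (by omega) hGk hk hs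
    have h3 := TP_le_TB hB (Sup k0) (Sup_nonneg k0) e t p
    have h4 := sup_step h0 hk hs
    have h5 : TP k0 (XX C G k0) e t p ≤
        100 / 3 * (c * cR) * C * TP k0 (fun e t q => Sup k0 e t (kk q)) e t p := by
      unfold TP
      rw [mul_sum]
      refine sum_le_sum fun q hq => ?_
      obtain ⟨h6, h7⟩ := mem_filter.1 hq
      obtain ⟨h8, -, h9⟩ := mem_PP.1 h6
      rw [← mul_div_assoc]
      exact div_le_div_of_nonneg_right
        (ih q h8 _ _ (hs.child (kk_mono h8.le) h7).1 h9) (by positivity)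
    have h6 := mul_le_mul_of_nonneg_left (h3.trans h4)
      (by positivity : 0 ≤ 100 / 3 * (c * cR) * C)
    linarith

end

end Pool.Agent.Jac
end

-- part Pool.Agent.P.MP_45ff98_nt.JN8a
section

/-! Landing, last six steps. -/

namespace Pool.Agent.Jac
open Finset

noncomputable section

theorem JN8a_drop {P : Par} (hB : HB P.k0) {e t p : ℕ} (K : Finset ℕ) (f : ℕ → ℝ)
    (hf : ∀ k ∈ K, 0 ≤ f k) (hK : ∀ k ∈ K, P.k0 ≤ k ∧ k < kk p)
    (h : ∀ q, kk q ∈ K → f (kk q) ≤ if AlwS P t (kk q) then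
      (if Cont e t (kk q) then Gam P (e + 1) (t - kk q) q
        else if TermS P t (kk q) then 1 / (kk q : ℝ) else 0) else 0) :
    ∑ k ∈ K, 99 / 100 / (k : ℝ) * f k ≤ Gam P e t p := by
  refine (box_lower hB p K hK f hf).trans ?_
  rw [Gam_rec, sum_filter]
  refine sum_le_sum fun q _ => ?_
  by_cases hq : kk q ∈ K
  · rw [if_pos hq]
    exact div_le_div_of_nonneg_right (h q hq) (Nat.cast_nonneg q)
  · rw [if_neg hq]
    have := Gam_nonneg P (e + 1) (t - kk q) q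
    refine div_nonneg ?_ (Nat.cast_nonneg q)
    split_ifs <;> positivity

/-- One step down the tree. -/
theorem Gam_step {P : Par} (hB : HB P.k0) {e t p : ℕ} (K : Finset ℕ) (c : ℝ) (hc : 0 ≤ c)
    (hK : ∀ k ∈ K, P.k0 ≤ k ∧ k < kk p ∧ AlwS P t k ∧ Cont e t k ∧
      ∀ q, kk q = k → c ≤ Gam P (e + 1) (t - k) q) :
    (∑ k ∈ K, 99 / 100 / (k : ℝ)) * c ≤ Gam P e t p := by
  rw [sum_mul]
  refine JN8a_drop hB K (fun _ => c) (fun _ _ => hc) (fun k hk => ⟨(hK k hk).1, (hK k hk).2.1⟩)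
    fun q hq => ?_
  obtain ⟨-, -, h1, h2, h3⟩ := hK _ hq
  rw [if_pos h1, if_pos h2]
  exact h3 q rfl

theorem JN8a_alw {P : Par} (h1 : 11 * P.kw ≤ P.k1) (h2 : P.k1 ≤ P.kW) (h3 : 7 ≤ P.CW) {t k : ℕ}
    (ht : t < 13 * P.kw) (hk : t ≤ 9 * k) : AlwS P t k := by
  have := Nat.mul_le_mul_right P.kW h3
  exact ⟨fun _ => by omega, fun _ => ⟨by omega, hk⟩⟩

theorem JN8a_mass (lo t : ℕ) (ht : 600 ≤ t) (g : ℕ → ℝ) (m : ℝ) (hm : 0 ≤ m)
    (h : ∀ k ∈ Ico lo (lo + t / 600), m ≤ g k) :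
    t / 1200 * m ≤ ∑ k ∈ Ico lo (lo + t / 600), g k := by
  refine le_trans ?_ (card_nsmul_le_sum _ _ _ h)
  rw [Nat.card_Ico, Nat.add_sub_cancel_left, nsmul_eq_mul]
  refine mul_le_mul_of_nonneg_right ?_ hm
  have : t ≤ 1200 * (t / 600) := by omega
  have : (t : ℝ) ≤ 1200 * (t / 600 : ℕ) := by exact_mod_cast this
  linarith

theorem JN8a_base {P : Par} (hB : HB P.k0) (h0 : 2 * P.k0 ≤ P.kw) (hw : 600 ≤ P.kw)
    (h1 : 11 * P.kw ≤ P.k1) (h2 : P.k1 ≤ P.kW) (h3 : 7 ≤ P.CW) (e t p : ℕ) (he : Odd (e + 0))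
    (ha : 310 * P.kw ≤ 100 * t) (hb : t < 13 * P.kw) (hp : 10 * t ≤ 28 * kk p) :
    1 / 15600 / (P.kw : ℝ) ≤ Gam P e t p := by
  have ht : 600 ≤ t := by omega
  have ht' : (0 : ℝ) < t := by exact_mod_cast (by omega : 0 < t)
  have hw' : (0 : ℝ) < P.kw := by exact_mod_cast (by omega : 0 < P.kw)
  refine le_trans ?_ (JN8a_drop hB (Ico (t / 3 + 1) (t / 3 + 1 + t / 600)) (fun k => 1 / (k : ℝ))
    (fun k _ => by positivity) (fun k hk => ?_) fun q hq => ?_)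
  · refine le_trans ?_ (JN8a_mass _ t ht _ (1 / (t : ℝ) ^ 2) (by positivity) fun k hk => ?_)
    · have : (t : ℝ) ≤ 13 * P.kw := by exact_mod_cast hb.le
      rw [div_div, div_le_iff₀ (by positivity)]
      have e1 : (t : ℝ) / 1200 * (1 / (t : ℝ) ^ 2) * (15600 * P.kw) = 13 * P.kw / t := by
        field_simp; ring
      rw [e1, le_div_iff₀ ht']
      linarith
    · rw [mem_Ico] at hk
      have hk0 : (0 : ℝ) < k := by exact_mod_cast (by omega : 0 < k)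
      have : (2 : ℝ) * k ≤ t := by exact_mod_cast (by omega : 2 * k ≤ t)
      rw [div_mul_div_comm, div_le_div_iff₀ (by positivity) (by positivity)]
      nlinarith
  · rw [mem_Ico] at hk
    omega
  · rw [mem_Ico] at hq
    have h4 : ¬ Cont e t (kk q) := fun h => by
      have := h (Odd.add_one he)
      omega
    have h5 : TermS P t (kk q) := ⟨by omega, by omega, by omega⟩
    rw [if_pos (JN8a_alw h1 h2 h3 hb (by omega)), if_neg h4, if_pos h5]

theorem JN8a_step {P : Par} (hB : HB P.k0) (h0 : 2 * P.k0 ≤ P.kw) (hw : 600 ≤ P.kw)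
    (h1 : 11 * P.kw ≤ P.k1) (h2 : P.k1 ≤ P.kW) (h3 : 7 ≤ P.CW) {A A' B B' r : ℕ} {c : ℝ}
    (hc : 0 ≤ c)
    (har : ∀ t k w : ℕ, B' * w ≤ 100 * t → 10 * t / (A + 10) + 1 ≤ k →
      k < 10 * t / (A + 10) + 1 + t / 600 → 10 * (t - k) ≤ A * k ∧ A' * k < 10 * t ∧
      B * w ≤ 100 * (t - k) ∧ w ≤ 2 * k ∧ 3 * k ≤ t ∧ t ≤ 9 * k)
    (hB' : 100 ≤ B')
    (H : ∀ e t p : ℕ, Odd (e + r) → B * P.kw ≤ 100 * t → t < 13 * P.kw → 10 * t ≤ A * kk p →
      c ≤ Gam P e t p) (e t p : ℕ) (he : Odd (e + (r + 1))) (ha : B' * P.kw ≤ 100 * t)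
    (hb : t < 13 * P.kw) (hp : 10 * t ≤ A' * kk p) : 1 / 1200 * c ≤ Gam P e t p := by
  have ht : 600 ≤ t := by
    have := Nat.mul_le_mul_right P.kw hB'
    omega
  have ht' : (0 : ℝ) < t := by exact_mod_cast (by omega : 0 < t)
  refine le_trans (mul_le_mul_of_nonneg_right ?_ hc)
    (Gam_step hB (Ico (10 * t / (A + 10) + 1) (10 * t / (A + 10) + 1 + t / 600)) c hc
      fun k hk => ?_)
  · refine le_trans (le_of_eq ?_) (JN8a_mass _ t ht _ (1 / (t : ℝ)) (by positivity) fun k hk => ?_)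
    · field_simp
    · rw [mem_Ico] at hk
      obtain ⟨-, -, -, -, h4, h5⟩ := har t k P.kw ha hk.1 hk.2
      have hk0 : (0 : ℝ) < k := by exact_mod_cast (by omega : 0 < k)
      have : (3 : ℝ) * k ≤ t := by exact_mod_cast h4
      rw [div_le_div_iff₀ ht' hk0]
      linarith
  · rw [mem_Ico] at hk
    obtain ⟨a1, a2, a3, a4, a5, a6⟩ := har t k P.kw ha hk.1 hk.2
    refine ⟨by omega, Nat.lt_of_mul_lt_mul_left (a2.trans_le hp), JN8a_alw h1 h2 h3 hb a6,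
      fun _ => a5, fun q hq => H _ _ _ ?_ a3 (by omega) (by rw [hq]; exact a1)⟩
    rwa [add_assoc, add_comm 1 r]

theorem landing_end : ∃ c : ℝ, 0 < c ∧ ∃ K : ℕ, ∀ P : Par, HB P.k0 → 2 * P.k0 ≤ P.kw → K ≤ P.kw →
    11 * P.kw ≤ P.k1 → P.k1 ≤ P.kW → 7 ≤ P.CW → ∀ e t p : ℕ, Even e → 47 * P.kw ≤ 5 * t →
    t < 13 * P.kw → t ≤ 7 * kk p → c / P.kw ≤ Gam P e t p := by
  refine ⟨(1 / 1200) ^ 5 * (1 / 15600), by positivity, 600,
    fun P hB h0 hw h1 h2 h3 e t p he ha hb hp => ?_⟩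
  have s0 := JN8a_base hB h0 hw h1 h2 h3
  have s1 := JN8a_step hB h0 hw h1 h2 h3 (A' := 37) (B' := 425) (by positivity)
    (fun t k w => by omega) (by norm_num) s0
  have s2 := JN8a_step hB h0 hw h1 h2 h3 (A' := 46) (B' := 544) (by positivity)
    (fun t k w => by omega) (by norm_num) s1
  have s3 := JN8a_step hB h0 hw h1 h2 h3 (A' := 55) (B' := 665) (by positivity)
    (fun t k w => by omega) (by norm_num) s2
  have s4 := JN8a_step hB h0 hw h1 h2 h3 (A' := 64) (B' := 789) (by positivity)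
    (fun t k w => by omega) (by norm_num) s3
  have s5 := JN8a_step hB h0 hw h1 h2 h3 (A' := 73) (B' := 915) (by positivity)
    (fun t k w => by omega) (by norm_num) s4
  refine le_trans (le_of_eq (by ring)) (s5 e t p (he.add_odd (by decide)) (by omega) hb (by omega))

end

end Pool.Agent.Jac
end
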