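import Pool.Agent.K.MP_45ff98_nt.C2
import Pool.Agent.K.MP_45ff98_nt.C1
import Pool.Agent.P.MP_78d079_nt.PNT

-- part Pool.Agent.P.MP_45ff98_nt.JN8
section

/-! Landing. -/

namespace Pool.Agent.Jac
open Finset

noncomputable section

theorem JN8_step {P : Par} (hB : HB P.k0) (h0 : 2 * P.k0 ≤ P.kw) (hw : 100 ≤ P.kw)
    (hW : P.k1 ≤ P.kW) (hC : 7 ≤ P.CW) {e t p : ℕ} (h1 : 11 * P.kw ≤ t) (h2 : t ≤ 7 * P.k1)
    (h3 : t ≤ 7 * kk p) {c : ℝ} (hc : 0 ≤ c)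
    (h : ∀ q, t ≤ 8 * kk q → 7 * kk q < t → c ≤ Gam P (e + 1) (t - kk q) q) :
    c / 10 ≤ Gam P e t p := by
  have hCW : 7 * P.kW ≤ P.CW * P.kW := Nat.mul_le_mul_right _ hC
  refine le_trans ?_ (Gam_step hB (Ico ((t + 7) / 8) ((t + 6) / 7)) c hc fun k hk => ?_)
  · have ht : (0 : ℝ) < t := by exact_mod_cast (by omega : 0 < t)
    have hs : ((Ico ((t + 7) / 8) ((t + 6) / 7)).card : ℝ) * (99 / 100 * 7 / t) ≤
        ∑ k ∈ Ico ((t + 7) / 8) ((t + 6) / 7), 99 / 100 / (k : ℝ) := by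
      rw [← nsmul_eq_mul]
      refine card_nsmul_le_sum _ _ _ fun k hk => ?_
      rw [mem_Ico] at hk
      have hk0 : (0 : ℝ) < k := by exact_mod_cast (by omega : 0 < k)
      have hk1 : (7 : ℝ) * k ≤ t := by exact_mod_cast (by omega : 7 * k ≤ t)
      rw [div_le_div_iff₀ ht hk0]
      linarith
    have hn : (t : ℝ) ≤ 60 * ((Ico ((t + 7) / 8) ((t + 6) / 7)).card : ℝ) := by
      rw [Nat.card_Ico]
      exact_mod_cast (by omega : t ≤ 60 * ((t + 6) / 7 - (t + 7) / 8))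
    have hm : (1 : ℝ) / 10 ≤
        ((Ico ((t + 7) / 8) ((t + 6) / 7)).card : ℝ) * (99 / 100 * 7 / t) := by
      rw [← mul_div_assoc, le_div_iff₀ ht]
      linarith
    calc c / 10 = 1 / 10 * c := by ring
      _ ≤ _ := mul_le_mul_of_nonneg_right (hm.trans hs) hc
  · rw [mem_Ico] at hk
    refine ⟨by omega, by omega, ⟨fun _ => by omega, fun _ => ⟨h2, by omega⟩⟩,
      fun _ => by omega, fun q hq => ?_⟩
    subst hq
    exact h q (by omega) (by omega)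

theorem landing (C2 : ℕ) (h : 11 ≤ C2) : ∃ c : ℝ, 0 < c ∧ ∃ K : ℕ, ∀ P : Par, HB P.k0 →
    2 * P.k0 ≤ P.kw → K ≤ P.kw → P.k1 = C2 * P.kw → P.k1 ≤ P.kW → 7 ≤ P.CW →
    ∀ e t p : ℕ, P.k1 ≤ kk p → P.k1 ≤ t → t ≤ 7 * P.k1 → c / P.kw ≤ Gam P e t p := by
  obtain ⟨c, hc, K, hK⟩ := landing_end
  obtain ⟨N, hN⟩ : ∃ N : ℕ, 7 * C2 * 7 ^ N < 13 * 8 ^ N := by
    obtain ⟨N, hN⟩ := pow_unbounded_of_one_lt (7 * C2 : ℝ) (by norm_num : (1 : ℝ) < 8 / 7)
    refine ⟨N, ?_⟩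
    rw [div_pow, lt_div_iff₀ (by positivity)] at hN
    have h8 : (0 : ℝ) < 8 ^ N := by positivity
    exact_mod_cast (by linarith : (7 * C2 : ℝ) * 7 ^ N < 13 * 8 ^ N)
  refine ⟨c / 10 ^ (N + 1), by positivity, max K 100, ?_⟩
  intro P hB h0 hw hk1 hW hC
  have hw1 : K ≤ P.kw := (le_max_left _ _).trans hw
  have hw2 : 100 ≤ P.kw := (le_max_right _ _).trans hw
  have h11 : 11 * P.kw ≤ P.k1 := hk1 ▸ Nat.mul_le_mul_right _ h
  have hc0 : 0 ≤ c / P.kw := by positivity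
  have hE := hK P hB h0 hw1 h11 hW hC
  have base : ∀ e t p : ℕ, 11 * P.kw ≤ t → t ≤ 7 * P.k1 → t ≤ 7 * kk p → t < 13 * P.kw →
      c / P.kw / 10 ≤ Gam P e t p := by
    intro e t p h1 h2 h3 h4
    rcases Nat.even_or_odd e with he | he
    · have := hE e t p he (by omega) h4 h3
      linarith
    · exact JN8_step hB h0 hw2 hW hC h1 h2 h3 hc0 fun q h5 h6 =>
        hE _ _ q he.add_one (by omega) (by omega) (by omega)
  have main : ∀ n e t p : ℕ, 11 * P.kw ≤ t → t ≤ 7 * P.k1 → t ≤ 7 * kk p →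
      t * 7 ^ n < 13 * P.kw * 8 ^ n → c / P.kw / 10 ^ (n + 1) ≤ Gam P e t p := by
    intro n
    induction n with
    | zero =>
      intro e t p h1 h2 h3 h4
      simpa using base e t p h1 h2 h3 (by simpa using h4)
    | succ n ih =>
      intro e t p h1 h2 h3 h4
      rcases lt_or_ge t (13 * P.kw) with h5 | h5
      · refine le_trans ?_ (base e t p h1 h2 h3 h5)
        refine div_le_div_of_nonneg_left hc0 (by norm_num) ?_
        exact le_self_pow₀ (by norm_num) (by omega)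
      · have := JN8_step (e := e) hB h0 hw2 hW hC h1 h2 h3
          (c := c / P.kw / 10 ^ (n + 1)) (by positivity) fun q h6 h7 => by
            refine ih _ _ q (by omega) (by omega) (by omega) ?_
            have h8 : 8 * (t - kk q) ≤ 7 * t := by omega
            have h9 := Nat.mul_le_mul_right (7 ^ n) h8
            rw [pow_succ, pow_succ] at h4
            nlinarith
        rwa [div_div, ← pow_succ] at this
  intro e t p h1 h2 h3
  have h4 : t * 7 ^ N < 13 * P.kw * 8 ^ N := by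
    have h5 : t * 7 ^ N ≤ 7 * (C2 * P.kw) * 7 ^ N := Nat.mul_le_mul_right _ (hk1 ▸ h3)
    have h6 := Nat.mul_lt_mul_of_pos_left hN (by omega : 0 < P.kw)
    nlinarith
  have := main N e t p (by omega) h3 (by omega) h4
  rwa [div_right_comm] at this

end

end Pool.Agent.Jac
end

-- part Pool.Agent.P.MP_45ff98_nt.JN9a
section

/-! Small losses. -/

namespace Pool.Agent.Jac
open Finset

noncomputable section

theorem JN9a_hS (e t k : ℕ) (hk : 1 ≤ k) (hkt : k ≤ t) :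
    hS e t k ≤ 4 * Real.exp (-(5 / 4) * t / k) := by
  have hk0 : (0 : ℝ) < k := by exact_mod_cast hk
  have hkt' : (k : ℝ) ≤ t := by exact_mod_cast hkt
  have ht0 : (0 : ℝ) < t := lt_of_lt_of_le hk0 hkt'
  have hE := Real.exp_pos (-(5 / 4) * (t : ℝ) / k)
  unfold hS
  split_ifs with h1 h2
  · linarith
  · linarith
  · have h3 : (t : ℝ) ≤ 3 * k := by
      have : t ≤ 3 * k := by omega
      exact_mod_cast this
    have h4 : Real.exp (-(15 / 4)) ≤ Real.exp (-(5 / 4) * (t : ℝ) / k) := by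
      apply Real.exp_le_exp.mpr
      rw [le_div_iff₀ hk0]
      linarith
    have h5 : 3 * (k : ℝ) / t ≤ 3 := by
      rw [div_le_iff₀ ht0]
      linarith
    have h6 : 0 ≤ 3 * (k : ℝ) / t := by positivity
    have h7 := Real.exp_pos (-(15 / 4) : ℝ)
    nlinarith [mul_le_mul h4 h5 h6 hE.le]

theorem JN9a_exp (x : ℝ) (hx : 0 < x) (n : ℕ) : Real.exp (-x) ≤ n.factorial / x ^ n := by
  have h := Real.pow_div_factorial_le_exp x hx.le n
  have hf : (0 : ℝ) < n.factorial := by exact_mod_cast n.factorial_pos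
  rw [Real.exp_neg, inv_eq_one_div, div_le_div_iff₀ (Real.exp_pos x) (pow_pos hx n)]
  rw [div_le_iff₀ hf] at h
  linarith

theorem JN9a_sup (k0 e t m k : ℕ) (δ : ℝ) (hδ : (9 / 10 : ℝ) ^ Nat.log 2 (t / k0) ≤ δ)
    (hm : 1 ≤ m) (hmk : m ≤ k) (hkt : k ≤ t) :
    Sup k0 e t m ≤ δ * 4 * (Real.exp (-(t : ℝ) / k) * Real.exp (-((t : ℝ) / m / 4))) / m := by
  have hm0 : (0 : ℝ) < m := by exact_mod_cast hm
  have hmk' : (m : ℝ) ≤ k := by exact_mod_cast hmk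
  have ht0 : (0 : ℝ) ≤ t := Nat.cast_nonneg t
  have h1 := JN9a_hS e t m hm (hmk.trans hkt)
  have h2 : Real.exp (-(5 / 4) * (t : ℝ) / m) ≤
      Real.exp (-(t : ℝ) / k) * Real.exp (-((t : ℝ) / m / 4)) := by
    rw [← Real.exp_add]
    apply Real.exp_le_exp.mpr
    have h3 : (t : ℝ) / k ≤ t / m := div_le_div_of_nonneg_left ht0 hm0 hmk'
    have h4 : -(5 / 4) * (t : ℝ) / m = -(5 / 4) * (t / m) := by ring
    have h5 : -(t : ℝ) / k = -(t / k) := by ring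
    rw [h4, h5]
    linarith
  have hp : (0 : ℝ) ≤ (9 / 10 : ℝ) ^ Nat.log 2 (t / k0) := by positivity
  unfold Sup
  apply div_le_div_of_nonneg_right _ hm0.le
  calc (9 / 10 : ℝ) ^ Nat.log 2 (t / k0) * hS e t m
      ≤ (9 / 10 : ℝ) ^ Nat.log 2 (t / k0) *
        (4 * (Real.exp (-(t : ℝ) / k) * Real.exp (-((t : ℝ) / m / 4)))) :=
        mul_le_mul_of_nonneg_left (by linarith) hp
    _ ≤ δ * (4 * (Real.exp (-(t : ℝ) / k) * Real.exp (-((t : ℝ) / m / 4)))) :=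
        mul_le_mul_of_nonneg_right hδ (by positivity)
    _ = _ := by ring

theorem JN9a_psi (A : ℝ) (hA : 0 ≤ A) (G k0 k1 t k ρ : ℕ) (h0 : 1 ≤ k0) (hG : G ≤ k0)
    (hρ : 1 ≤ ρ) (h1 : ρ * k0 ≤ k1) (h2 : k1 ≤ k) (h3 : k ≤ t) :
    psiS A G k0 t k ≤ 7 * A / ρ * (k1 : ℝ) ^ 2 * JJ t k := by
  have hk0 : (0 : ℝ) < k0 := by exact_mod_cast h0
  have hρ' : (1 : ℝ) ≤ ρ := by exact_mod_cast hρ
  have h1' : (ρ : ℝ) * k0 ≤ k1 := by exact_mod_cast h1
  have hG' : (G : ℝ) ≤ k0 := by exact_mod_cast hG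
  have hG0 : (0 : ℝ) ≤ G := Nat.cast_nonneg G
  have h2' : (k1 : ℝ) ≤ k := by exact_mod_cast h2
  have h3' : (k : ℝ) ≤ t := by exact_mod_cast h3
  have hk01 : (k0 : ℝ) ≤ k1 := by nlinarith
  have hk : (0 : ℝ) < k := by linarith
  have ht : (0 : ℝ) < t := by linarith
  have hsq : (k0 : ℝ) ^ 2 ≤ (k1 : ℝ) ^ 2 / ρ := by
    rw [le_div_iff₀ (by linarith)]
    nlinarith [mul_le_mul h1' hk01 hk0.le (by linarith : (0 : ℝ) ≤ k1)]
  have hE := Real.exp_pos (-(t : ℝ) / k)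
  have a1 : Real.exp (-2 * (t : ℝ) / k0) / k0 ≤ 6 * (k0 : ℝ) ^ 2 * JJ t k := by
    have b1 := JN9a_exp ((t : ℝ) / k0) (by positivity) 3
    have b2 : Real.exp (-((t : ℝ) / k0)) ≤ Real.exp (-(t : ℝ) / k) := by
      apply Real.exp_le_exp.mpr
      have h4 : (t : ℝ) / k ≤ t / k0 := div_le_div_of_nonneg_left ht.le hk0 (by linarith)
      have h5 : -(t : ℝ) / k = -(t / k) := by ring
      rw [h5]
      linarith
    have b3 : Real.exp (-2 * (t : ℝ) / k0) =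
        Real.exp (-((t : ℝ) / k0)) * Real.exp (-((t : ℝ) / k0)) := by
      rw [← Real.exp_add]
      congr 1
      ring
    have b4 : Real.exp (-2 * (t : ℝ) / k0) ≤
        ((Nat.factorial 3 : ℕ) : ℝ) / ((t : ℝ) / k0) ^ 3 * Real.exp (-(t : ℝ) / k) := by
      rw [b3]
      exact mul_le_mul b1 b2 (Real.exp_pos _).le (by positivity)
    calc Real.exp (-2 * (t : ℝ) / k0) / k0
        ≤ ((Nat.factorial 3 : ℕ) : ℝ) / ((t : ℝ) / k0) ^ 3 * Real.exp (-(t : ℝ) / k) / k0 :=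
          div_le_div_of_nonneg_right b4 hk0.le
      _ = 6 * (k0 : ℝ) ^ 2 * JJ t k := by
          unfold JJ
          norm_num [Nat.factorial]
          field_simp
  have a2 : (G : ℝ) ^ 2 / (t : ℝ) ^ 3 * Real.exp (-(5 / 4) * t / k) ≤ (k0 : ℝ) ^ 2 * JJ t k := by
    have b1 : Real.exp (-(5 / 4) * (t : ℝ) / k) ≤ Real.exp (-(t : ℝ) / k) := by
      apply Real.exp_le_exp.mpr
      apply div_le_div_of_nonneg_right _ hk.le
      linarith
    have b2 : (G : ℝ) ^ 2 ≤ (k0 : ℝ) ^ 2 := by nlinarith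
    calc (G : ℝ) ^ 2 / (t : ℝ) ^ 3 * Real.exp (-(5 / 4) * t / k)
        ≤ (k0 : ℝ) ^ 2 / (t : ℝ) ^ 3 * Real.exp (-(t : ℝ) / k) :=
          mul_le_mul (div_le_div_of_nonneg_right b2 (by positivity)) b1 (Real.exp_pos _).le
            (by positivity)
      _ = (k0 : ℝ) ^ 2 * JJ t k := by
          unfold JJ
          ring
  have hJ : 0 ≤ JJ t k := by
    unfold JJ
    positivity
  unfold psiS
  calc A * (Real.exp (-2 * (t : ℝ) / k0) / k0 +
        (G : ℝ) ^ 2 / (t : ℝ) ^ 3 * Real.exp (-(5 / 4) * t / k))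
      ≤ A * (7 * ((k1 : ℝ) ^ 2 / ρ) * JJ t k) := by
        apply mul_le_mul_of_nonneg_left _ hA
        nlinarith [mul_le_mul_of_nonneg_right hsq hJ]
    _ = _ := by ring

theorem small_loss (A ε : ℝ) (hA : 0 ≤ A) (hε : 0 < ε) : ∃ ρ : ℕ, 2 ≤ ρ ∧ ∀ K' : ℕ, 1 ≤ K' →
    ∃ CW0 : ℕ, 7 ≤ CW0 ∧ ∀ G k0 k1 e t k CW : ℕ, 1 ≤ k0 → G ≤ k0 → ρ * k0 ≤ k1 → k1 ≤ k → k ≤ t →
    CW0 ≤ CW →
    A * Sup k0 e t k ≤ ε / k1 ∧ psiS A G k0 t k ≤ ε * (k1 : ℝ) ^ 2 * JJ t k ∧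
      (7 * k1 < t → A * Sup k0 e t k1 ≤ ε * (k1 : ℝ) ^ 2 * JJ t k) ∧
      (CW * (K' * k1) < t → A * Sup k0 e t (min k (K' * k1)) ≤ ε * (k1 : ℝ) ^ 2 * JJ t k) := by
  obtain ⟨n, hn⟩ := exists_pow_lt_of_lt_one (x := ε / (1536 * (A + 1))) (y := (9 / 10 : ℝ))
    (by positivity) (by norm_num)
  obtain ⟨r, hr⟩ := exists_nat_ge (7 * A / ε)
  refine ⟨2 ^ n + r + 2, Nat.le_add_left _ _, fun K' hK => ?_⟩
  obtain ⟨c, hc⟩ := exists_nat_ge (24576 * A * (K' : ℝ) ^ 2 / ε)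
  refine ⟨c + 7, by omega, fun G k0 k1 e t k CW h0 hG h1 h2 h3 hCW => ?_⟩
  set δ : ℝ := (9 / 10 : ℝ) ^ n with hδdef
  have hδ0 : 0 ≤ δ := by positivity
  have hδ1 : 1536 * A * δ ≤ ε := by
    rw [lt_div_iff₀ (by positivity)] at hn
    nlinarith
  have hk1 : 1 ≤ k1 := by nlinarith [Nat.zero_le (2 ^ n), Nat.zero_le r]
  have hlog : n ≤ Nat.log 2 (t / k0) := by
    apply Nat.le_log_of_pow_le (by norm_num)
    rw [Nat.le_div_iff_mul_le h0]
    nlinarith [Nat.zero_le (r * k0)]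
  have hδ : (9 / 10 : ℝ) ^ Nat.log 2 (t / k0) ≤ δ :=
    pow_le_pow_of_le_one (by norm_num) (by norm_num) hlog
  have hk10 : (0 : ℝ) < k1 := by exact_mod_cast hk1
  have h2' : (k1 : ℝ) ≤ k := by exact_mod_cast h2
  have h3' : (k : ℝ) ≤ t := by exact_mod_cast h3
  have hk : (0 : ℝ) < k := by linarith
  have ht : (0 : ℝ) < t := by linarith
  have hE := Real.exp_pos (-(t : ℝ) / k)
  have hJ : 0 ≤ JJ t k := by
    unfold JJ
    positivity
  refine ⟨?_, ?_, fun _ => ?_, fun h4 => ?_⟩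
  · have b1 := JN9a_sup k0 e t k k δ hδ (hk1.trans h2) le_rfl h3
    have b2 : Real.exp (-(t : ℝ) / k) * Real.exp (-((t : ℝ) / k / 4)) ≤ 1 := by
      rw [← Real.exp_add]
      apply Real.exp_le_one_iff.mpr
      have h5 : -(t : ℝ) / k = -(t / k) := by ring
      have h6 : 0 ≤ (t : ℝ) / k := by positivity
      rw [h5]
      linarith
    calc A * Sup k0 e t k
        ≤ A * (δ * 4 * 1 / k1) := by
          apply mul_le_mul_of_nonneg_left (b1.trans _) hA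
          exact div_le_div₀ (by positivity) (mul_le_mul_of_nonneg_left b2 (by positivity)) hk10 h2'
      _ = 4 * A * δ / k1 := by ring
      _ ≤ ε / k1 := by
          apply div_le_div_of_nonneg_right _ hk10.le
          nlinarith [mul_nonneg hA hδ0]
  · have b1 := JN9a_psi A hA G k0 k1 t k (2 ^ n + r + 2) h0 hG (Nat.le_add_left 1 _) h1 h2 h3
    refine b1.trans ?_
    apply mul_le_mul_of_nonneg_right _ hJ
    apply mul_le_mul_of_nonneg_right _ (by positivity)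
    rw [div_le_iff₀ hε] at hr
    rw [div_le_iff₀ (by positivity)]
    push_cast
    have : (0 : ℝ) ≤ 2 ^ n := by positivity
    nlinarith
  · have b1 := JN9a_sup k0 e t k1 k δ hδ hk1 h2 h3
    have b2 := JN9a_exp ((t : ℝ) / k1 / 4) (by positivity) 3
    calc A * Sup k0 e t k1
        ≤ A * (δ * 4 * (Real.exp (-(t : ℝ) / k) *
            (((Nat.factorial 3 : ℕ) : ℝ) / ((t : ℝ) / k1 / 4) ^ 3)) / k1) := by
          apply mul_le_mul_of_nonneg_left (b1.trans _) hA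
          apply div_le_div_of_nonneg_right _ hk10.le
          exact mul_le_mul_of_nonneg_left (mul_le_mul_of_nonneg_left b2 hE.le) (by positivity)
      _ = 1536 * A * δ * (k1 : ℝ) ^ 2 * JJ t k := by
          unfold JJ
          norm_num [Nat.factorial]
          field_simp
          ring
      _ ≤ _ := mul_le_mul_of_nonneg_right (mul_le_mul_of_nonneg_right hδ1 (by positivity)) hJ
  · set m : ℕ := min k (K' * k1) with hm
    have hm1 : 1 ≤ m := le_min (hk1.trans h2) (by nlinarith)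
    have hmk : m ≤ k := min_le_left _ _
    have hmK : m ≤ K' * k1 := min_le_right _ _
    have hm0 : (0 : ℝ) < m := by exact_mod_cast hm1
    have hmK' : (m : ℝ) ≤ K' * k1 := by exact_mod_cast hmK
    have hcm : ((c : ℝ) + 7) * m ≤ t := by
      have : (c + 7) * m ≤ t := (Nat.mul_le_mul hCW hmK).trans h4.le
      exact_mod_cast this
    have hc0 : (0 : ℝ) ≤ c := Nat.cast_nonneg c
    have b1 := JN9a_sup k0 e t m k 1 (pow_le_one₀ (by norm_num) (by norm_num)) hm1 hmk h3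
    have b2 := JN9a_exp ((t : ℝ) / m / 4) (by positivity) 4
    have b3 : (m : ℝ) / t ≤ 1 / (c + 7) := by
      rw [div_le_div_iff₀ ht (by positivity)]
      linarith
    have b4 : (m : ℝ) ^ 2 ≤ (K' : ℝ) ^ 2 * (k1 : ℝ) ^ 2 := by
      rw [← mul_pow]
      exact pow_le_pow_left₀ hm0.le hmK' 2
    have b5 : 24576 * A * (K' : ℝ) ^ 2 * (1 / (c + 7)) ≤ ε := by
      rw [div_le_iff₀ hε] at hc
      rw [mul_one_div, div_le_iff₀ (by positivity)]
      nlinarith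
    calc A * Sup k0 e t m
        ≤ A * (1 * 4 * (Real.exp (-(t : ℝ) / k) *
            (((Nat.factorial 4 : ℕ) : ℝ) / ((t : ℝ) / m / 4) ^ 4)) / m) := by
          apply mul_le_mul_of_nonneg_left (b1.trans _) hA
          apply div_le_div_of_nonneg_right _ hm0.le
          exact mul_le_mul_of_nonneg_left (mul_le_mul_of_nonneg_left b2 hE.le) (by positivity)
      _ = 24576 * A * ((m : ℝ) ^ 2 * (m / t)) * JJ t k := by
          unfold JJ
          norm_num [Nat.factorial]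
          field_simp
          ring
      _ ≤ 24576 * A * ((K' : ℝ) ^ 2 * (k1 : ℝ) ^ 2 * (1 / (c + 7))) * JJ t k := by
          apply mul_le_mul_of_nonneg_right _ hJ
          apply mul_le_mul_of_nonneg_left _ (by positivity)
          exact mul_le_mul b4 b3 (by positivity) (by positivity)
      _ = 24576 * A * (K' : ℝ) ^ 2 * (1 / (c + 7)) * (k1 : ℝ) ^ 2 * JJ t k := by ring
      _ ≤ _ := mul_le_mul_of_nonneg_right (mul_le_mul_of_nonneg_right b5 (by positivity)) hJ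

end

end Pool.Agent.Jac
end

-- part Pool.Agent.P.MP_45ff98_nt.JN6a
section

/-! Counting lemma for the subsolution. -/

namespace Pool.Agent.Jac
open Finset

noncomputable section

theorem JN6a_amgm (k t : ℝ) : 256 / 27 * (k * (t - k) ^ 3) ≤ t ^ 4 := by
  have h1 : 0 ≤ (4 * k - t) ^ 2 * (16 * k ^ 2 - 40 * k * t + 27 * t ^ 2) := by
    apply mul_nonneg (sq_nonneg _)
    nlinarith [sq_nonneg (4 * k - 5 * t), sq_nonneg t]
  nlinarith [h1]

theorem JN6a_third (k t : ℝ) (ht : 0 ≤ t) (h1 : t ≤ 3 * k) (h2 : k ≤ t) :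
    81 / 8 * (k * (t - k) ^ 3) ≤ t ^ 4 := by
  have hv : 0 ≤ 3 * k - t := by linarith
  have h3 : 0 ≤ (3 * k - t) * (3 * k - t - 5 / 2 * t) ^ 2 := mul_nonneg hv (sq_nonneg _)
  have h4 : 0 ≤ t ^ 2 * (4 * t - (3 * k - t) / 4) := mul_nonneg (sq_nonneg _) (by linarith)
  have h5 : 0 ≤ (3 * k - t) * ((3 * k - t) * (3 * k - t - 5 / 2 * t) ^ 2 +
      t ^ 2 * (4 * t - (3 * k - t) / 4)) := mul_nonneg hv (add_nonneg h3 h4)
  nlinarith [h5]

theorem JN6a_card (α β : ℝ) (t : ℕ) (K : Finset ℕ) (hα : 0 < α)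
    (hK : ∀ k : ℕ, α * t ≤ k → (k : ℝ) < β * t → k ∈ K) :
    (β - α) * t - 1 ≤
      ((K.filter (fun k : ℕ => α * t ≤ k ∧ (k : ℝ) < β * t)).card : ℝ) := by
  have hsub : Ico ⌈α * t⌉₊ ⌈β * t⌉₊ ⊆ K.filter (fun k : ℕ => α * t ≤ k ∧ (k : ℝ) < β * t) := by
    intro k hk
    rw [mem_Ico, Nat.ceil_le, Nat.lt_ceil] at hk
    exact mem_filter.2 ⟨hK k hk.1 hk.2, hk.1, hk.2⟩
  have hc := card_le_card hsub
  rw [Nat.card_Ico] at hc
  have h0 : 0 ≤ α * t := mul_nonneg hα.le (Nat.cast_nonneg _)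
  have h1 : (⌈α * t⌉₊ : ℝ) < α * t + 1 := Nat.ceil_lt_add_one h0
  have h2 : β * t ≤ (⌈β * t⌉₊ : ℝ) := Nat.le_ceil _
  have h3 : ⌈β * t⌉₊ ≤ ⌈α * t⌉₊ +
      (K.filter (fun k : ℕ => α * t ≤ k ∧ (k : ℝ) < β * t)).card := by omega
  have h4 : (⌈β * t⌉₊ : ℝ) ≤ (⌈α * t⌉₊ : ℝ) +
      ((K.filter (fun k : ℕ => α * t ≤ k ∧ (k : ℝ) < β * t)).card : ℝ) := by exact_mod_cast h3
  linarith

/-- Lower bound for the kernel on a range of children. -/
theorem kernel_lower (α β κ : ℝ) (t : ℕ) (K : Finset ℕ) (ht : 1 ≤ t) (hα : 0 < α) (hβ : β < 1)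
    (hκ : κ = 256 / 27 ∨ (κ = 81 / 8 ∧ 1 / 3 ≤ α))
    (hK : ∀ k : ℕ, α * t ≤ k → (k : ℝ) < β * t → k ∈ K) (hK2 : ∀ k ∈ K, k < t) :
    κ * (β - α - 1 / t) / (t : ℝ) ^ 3 ≤
      ∑ k ∈ K.filter (fun k : ℕ => α * t ≤ k ∧ (k : ℝ) < β * t),
        1 / ((k : ℝ) * ((t - k : ℕ) : ℝ) ^ 3) := by
  have htp : (0 : ℝ) < t := by exact_mod_cast ht
  have hκ0 : 0 < κ := by
    rcases hκ with h | h
    · rw [h]; norm_num
    · rw [h.1]; norm_num
  have hterm : ∀ k ∈ K.filter (fun k : ℕ => α * t ≤ k ∧ (k : ℝ) < β * t),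
      κ / (t : ℝ) ^ 4 ≤ 1 / ((k : ℝ) * ((t - k : ℕ) : ℝ) ^ 3) := by
    intro k hk
    obtain ⟨hkK, hk1, _⟩ := mem_filter.1 hk
    have hkt := hK2 k hkK
    have hkt' : (k : ℝ) < t := by exact_mod_cast hkt
    have hk0 : (0 : ℝ) < k := lt_of_lt_of_le (mul_pos hα htp) hk1
    rw [Nat.cast_sub hkt.le]
    have hd : (0 : ℝ) < (k : ℝ) * ((t : ℝ) - k) ^ 3 :=
      mul_pos hk0 (pow_pos (by linarith) 3)
    rw [div_le_div_iff₀ (pow_pos htp 4) hd, one_mul]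
    rcases hκ with h | h
    · rw [h]; exact JN6a_amgm _ _
    · rw [h.1]
      apply JN6a_third _ _ htp.le _ hkt'.le
      have := mul_le_mul_of_nonneg_right h.2 htp.le
      linarith
  have hs := card_nsmul_le_sum _ _ _ hterm
  rw [nsmul_eq_mul] at hs
  refine le_trans ?_ hs
  have hc := JN6a_card α β t K hα hK
  have e1 : κ * (β - α - 1 / t) / (t : ℝ) ^ 3 = ((β - α) * t - 1) * (κ / (t : ℝ) ^ 4) := by
    field_simp
  rw [e1]
  exact mul_le_mul_of_nonneg_right hc (div_nonneg hκ0.le (pow_nonneg htp.le 4))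

theorem JN6a_ind_nonneg (a b : ℕ) : 0 ≤ ind a b := by
  unfold ind; split_ifs <;> norm_num

theorem JN6a_ind_le (a b : ℕ) : ind a b ≤ 1 := by
  unfold ind; split_ifs <;> norm_num

theorem JN6a_ind_zero {a b : ℕ} (h : b < a) : ind a b = 0 := by
  unfold ind; rw [if_neg (by omega)]

theorem Gs_nonneg (e t k : ℕ) : 0 ≤ Gs e t k := by
  have h1 := JN6a_ind_nonneg (2 * t) (5 * k)
  have h2 := JN6a_ind_nonneg t (3 * k)
  have h3 := JN6a_ind_nonneg (2 * t) (7 * k)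
  have h4 := JN6a_ind_nonneg t (4 * k)
  have h5 := JN6a_ind_nonneg (2 * t) (9 * k)
  have h6 := JN6a_ind_nonneg (4 * t) (21 * k)
  unfold Gs
  split_ifs <;> linarith

theorem Gs_le (e t k : ℕ) : Gs e t k ≤ 2 := by
  have h1 := JN6a_ind_le (2 * t) (5 * k)
  have h2 := JN6a_ind_le t (3 * k)
  have h3 := JN6a_ind_le (2 * t) (7 * k)
  have h4 := JN6a_ind_le t (4 * k)
  have h5 := JN6a_ind_le (2 * t) (9 * k)
  have h6 := JN6a_ind_le (4 * t) (21 * k)
  unfold Gs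
  split_ifs <;> linarith

theorem Gs_zero {e t k : ℕ} (h : 6 * k < t) : Gs e t k = 0 := by
  have h1 : ind (2 * t) (5 * k) = 0 := JN6a_ind_zero (by omega)
  have h2 : ind t (3 * k) = 0 := JN6a_ind_zero (by omega)
  have h3 : ind (2 * t) (7 * k) = 0 := JN6a_ind_zero (by omega)
  have h4 : ind t (4 * k) = 0 := JN6a_ind_zero (by omega)
  have h5 : ind (2 * t) (9 * k) = 0 := JN6a_ind_zero (by omega)
  have h6 : ind (4 * t) (21 * k) = 0 := JN6a_ind_zero (by omega)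
  unfold Gs
  rw [h1, h2, h3, h4, h5, h6]
  split_ifs <;> norm_num

end

end Pool.Agent.Jac
end

-- part Pool.Agent.P.MP_45ff98_nt.JN6o
section

/-! The subsolution at odd nodes. -/

namespace Pool.Agent.Jac
open Finset

noncomputable section

/-- Kernel sum over the children above the threshold `a / b`. -/
def so_S (F : Finset ℕ) (t a b : ℕ) : ℝ :=
  ∑ k ∈ F, ind (a * t) (b * k) * (1 / ((k : ℝ) * ((t - k : ℕ) : ℝ) ^ 3))

theorem so_ind_nonneg (a b : ℕ) : 0 ≤ ind a b := by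
  unfold ind; split_ifs <;> norm_num

theorem so_S_nonneg (F : Finset ℕ) (t a b : ℕ) : 0 ≤ so_S F t a b :=
  sum_nonneg fun k _ => mul_nonneg (so_ind_nonneg _ _) (by positivity)

theorem so_S_lower (F : Finset ℕ) (t a b : ℕ) (β : ℝ) (ht : 1 ≤ t) (ha : 0 < a) (hb : 0 < b)
    (hβ : β < 1) (hK : ∀ k : ℕ, a * t ≤ b * k → (k : ℝ) < β * t → k ∈ F)
    (hK2 : ∀ k ∈ F, k < t) :
    256 / 27 * (β - (a : ℝ) / b - 1 / t) / (t : ℝ) ^ 3 ≤ so_S F t a b := by
  have hb' : (0 : ℝ) < b := by exact_mod_cast hb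
  have ha' : (0 : ℝ) < a := by exact_mod_cast ha
  have key : ∀ k : ℕ, (a : ℝ) / b * t ≤ k ↔ a * t ≤ b * k := by
    intro k
    rw [div_mul_eq_mul_div, div_le_iff₀ hb', mul_comm (k : ℝ)]
    exact_mod_cast Iff.rfl
  refine (kernel_lower ((a : ℝ) / b) β (256 / 27) t F ht (by positivity) hβ (Or.inl rfl)
    (fun k h1 h2 => hK k ((key k).1 h1) h2) hK2).trans ?_
  rw [sum_filter]
  refine sum_le_sum fun k _ => ?_
  split_ifs with h
  · have : ind (a * t) (b * k) = 1 := by unfold ind; rw [if_pos ((key k).1 h.1)]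
    rw [this, one_mul]
  · exact mul_nonneg (so_ind_nonneg _ _) (by positivity)

theorem so_ind_congr {a b c d : ℕ} (h : a ≤ b ↔ c ≤ d) : ind a b = ind c d := by
  unfold ind; simp only [h]

theorem so_child {e t k : ℕ} (he : ¬ Even e) (h : k ≤ t) :
    Gs (e + 1) (t - k) k = 66 / 100 * ind (2 * t) (7 * k) + 45 / 100 * ind (1 * t) (4 * k) +
      33 / 100 * ind (2 * t) (9 * k) + 3 / 100 * ind (1 * t) (5 * k) +
      4 / 1000 * ind (2 * t) (11 * k) + 2 / 10000 * ind (4 * t) (25 * k) := by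
  have he1 : Even (e + 1) := Nat.even_add_one.2 he
  unfold Gs
  rw [if_pos he1,
    so_ind_congr (show 2 * (t - k) ≤ 5 * k ↔ 2 * t ≤ 7 * k by omega),
    so_ind_congr (show t - k ≤ 3 * k ↔ 1 * t ≤ 4 * k by omega),
    so_ind_congr (show 2 * (t - k) ≤ 7 * k ↔ 2 * t ≤ 9 * k by omega),
    so_ind_congr (show t - k ≤ 4 * k ↔ 1 * t ≤ 5 * k by omega),
    so_ind_congr (show 2 * (t - k) ≤ 9 * k ↔ 2 * t ≤ 11 * k by omega),
    so_ind_congr (show 4 * (t - k) ≤ 21 * k ↔ 4 * t ≤ 25 * k by omega)]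

theorem so_sum {e t : ℕ} (he : ¬ Even e) (F : Finset ℕ) (hF : ∀ k ∈ F, k ≤ t) :
    ∑ k' ∈ F, 99 / 100 / (k' : ℝ) * (Gs (e + 1) (t - k') k' / ((t - k' : ℕ) : ℝ) ^ 3) =
      99 / 100 * (66 / 100 * so_S F t 2 7 + 45 / 100 * so_S F t 1 4 + 33 / 100 * so_S F t 2 9 +
        3 / 100 * so_S F t 1 5 + 4 / 1000 * so_S F t 2 11 + 2 / 10000 * so_S F t 4 25) := by
  unfold so_S
  simp only [mul_sum, ← sum_add_distrib]
  refine sum_congr rfl fun k hk => ?_
  rw [so_child he (hF k hk), ← one_div_mul_one_div]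
  ring

theorem sub_odd : ∃ K : ℕ, ∀ e t k : ℕ, ¬ Even e → K ≤ k → k ≤ t → t ≤ 6 * k →
    (Gs e t k + 1 / 100000) / (t : ℝ) ^ 3 ≤
      ∑ k' ∈ (Ico 1 k).filter (fun k' => 4 * t ≤ 25 * k' ∧ Cont e t k'),
        99 / 100 / (k' : ℝ) * (Gs (e + 1) (t - k') k' / ((t - k' : ℕ) : ℝ) ^ 3) := by
  refine ⟨10000, fun e t k he hK hkt ht6 => ?_⟩
  set F := (Ico 1 k).filter (fun k' => 4 * t ≤ 25 * k' ∧ Cont e t k') with hF
  have hF2 : ∀ j ∈ F, j < t := fun j hj => by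
    have := (mem_Ico.1 (mem_filter.1 hj).1).2
    omega
  rw [so_sum he F fun j hj => (hF2 j hj).le]
  have ht1 : 1 ≤ t := by omega
  have htp : (0 : ℝ) < t := by exact_mod_cast ht1
  have hu : 1 / (t : ℝ) ≤ 1 / 10000 := by
    apply one_div_le_one_div_of_le (by norm_num)
    exact_mod_cast (hK.trans hkt)
  have hT : (0 : ℝ) < (t : ℝ) ^ 3 := by positivity
  -- the lower bound for a threshold `c / d ≤ 1 / 3` with `c t ≤ d k`
  have low : ∀ c d a b : ℕ, 0 < d → 3 * c ≤ d → c * t ≤ d * k → 0 < a → 0 < b → 4 * b ≤ 25 * a →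
      256 / 27 * ((c : ℝ) / d - (a : ℝ) / b - 1 / 10000) ≤ so_S F t a b * (t : ℝ) ^ 3 := by
    intro c d a b hd hcd hck ha hb hab
    have hd' : (0 : ℝ) < d := by exact_mod_cast hd
    have hβ : (c : ℝ) / d < 1 := by
      rw [div_lt_one hd']
      exact_mod_cast (by omega : c < d)
    have h := so_S_lower F t a b ((c : ℝ) / d) ht1 ha hb hβ (fun j h1 h2 => ?_) hF2
    · rw [div_le_iff₀ hT] at h
      linarith
    · rw [div_mul_eq_mul_div, lt_div_iff₀ hd'] at h2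
      have h3 : j * d < c * t := by exact_mod_cast h2
      have h4 : j < k := by
        by_contra h5
        have : d * k ≤ j * d := by rw [mul_comm j d]; exact Nat.mul_le_mul_left d (by omega)
        omega
      have h6 : 4 * t ≤ 25 * j := by
        have h7 : a * (4 * t) ≤ a * (25 * j) := by nlinarith
        exact Nat.le_of_mul_le_mul_left h7 ha
      have h8 : 3 * j ≤ t := by
        have h9 : d * (3 * j) ≤ d * t := by nlinarith
        exact Nat.le_of_mul_le_mul_left h9 hd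
      exact mem_filter.2 ⟨mem_Ico.2 ⟨by omega, h4⟩, h6, fun _ => h8⟩
  have n1 := mul_nonneg (so_S_nonneg F t 2 7) hT.le
  have n2 := mul_nonneg (so_S_nonneg F t 1 4) hT.le
  have n3 := mul_nonneg (so_S_nonneg F t 2 9) hT.le
  have n4 := mul_nonneg (so_S_nonneg F t 1 5) hT.le
  have n5 := mul_nonneg (so_S_nonneg F t 2 11) hT.le
  have n6 := mul_nonneg (so_S_nonneg F t 4 25) hT.le
  have all : ∀ c d : ℕ, 0 < d → 3 * c ≤ d → c * t ≤ d * k →
      (256 / 27 * ((c : ℝ) / d - 2 / 7 - 1 / 10000) ≤ so_S F t 2 7 * (t : ℝ) ^ 3 ∧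
      256 / 27 * ((c : ℝ) / d - 1 / 4 - 1 / 10000) ≤ so_S F t 1 4 * (t : ℝ) ^ 3 ∧
      256 / 27 * ((c : ℝ) / d - 2 / 9 - 1 / 10000) ≤ so_S F t 2 9 * (t : ℝ) ^ 3) ∧
      256 / 27 * ((c : ℝ) / d - 1 / 5 - 1 / 10000) ≤ so_S F t 1 5 * (t : ℝ) ^ 3 ∧
      256 / 27 * ((c : ℝ) / d - 2 / 11 - 1 / 10000) ≤ so_S F t 2 11 * (t : ℝ) ^ 3 ∧
      256 / 27 * ((c : ℝ) / d - 4 / 25 - 1 / 10000) ≤ so_S F t 4 25 * (t : ℝ) ^ 3 := by
    intro c d hd hcd hck
    have a1 := low c d 2 7 hd hcd hck (by norm_num) (by norm_num) (by norm_num)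
    have a2 := low c d 1 4 hd hcd hck (by norm_num) (by norm_num) (by norm_num)
    have a3 := low c d 2 9 hd hcd hck (by norm_num) (by norm_num) (by norm_num)
    have a4 := low c d 1 5 hd hcd hck (by norm_num) (by norm_num) (by norm_num)
    have a5 := low c d 2 11 hd hcd hck (by norm_num) (by norm_num) (by norm_num)
    have a6 := low c d 4 25 hd hcd hck (by norm_num) (by norm_num) (by norm_num)
    push_cast at a1 a2 a3 a4 a5 a6
    exact ⟨⟨a1, a2, a3⟩, a4, a5, a6⟩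
  rw [div_le_iff₀ hT]
  unfold Gs ind
  rw [if_neg he]
  by_cases c1 : t ≤ 3 * k
  · obtain ⟨⟨a1, a2, a3⟩, a4, a5, a6⟩ := all 1 3 (by norm_num) (by norm_num) (by omega)
    push_cast at a1 a2 a3 a4 a5 a6
    rw [if_pos c1, if_pos (by omega), if_pos (by omega), if_pos (by omega)]
    linarith
  by_cases c2 : t ≤ 4 * k
  · obtain ⟨⟨a1, a2, a3⟩, a4, a5, a6⟩ := all 1 4 (by norm_num) (by norm_num) (by omega)
    push_cast at a1 a2 a3 a4 a5 a6
    rw [if_neg c1, if_pos c2, if_pos (by omega), if_pos (by omega)]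
    linarith
  by_cases c3 : 2 * t ≤ 9 * k
  · obtain ⟨⟨a1, a2, a3⟩, a4, a5, a6⟩ := all 2 9 (by norm_num) (by norm_num) (by omega)
    push_cast at a1 a2 a3 a4 a5 a6
    rw [if_neg c1, if_neg c2, if_pos c3, if_pos (by omega)]
    linarith
  by_cases c4 : 4 * t ≤ 21 * k
  · obtain ⟨⟨a1, a2, a3⟩, a4, a5, a6⟩ := all 4 21 (by norm_num) (by norm_num) (by omega)
    push_cast at a1 a2 a3 a4 a5 a6
    rw [if_neg c1, if_neg c2, if_neg c3, if_pos c4]
    linarith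
  · obtain ⟨⟨a1, a2, a3⟩, a4, a5, a6⟩ := all 1 6 (by norm_num) (by norm_num) (by omega)
    push_cast at a1 a2 a3 a4 a5 a6
    rw [if_neg c1, if_neg c2, if_neg c3, if_neg c4]
    linarith

end

end Pool.Agent.Jac
end

-- part Pool.Agent.P.MP_45ff98_nt.JN6e
section

/-! The subsolution at even nodes. -/

namespace Pool.Agent.Jac
open Finset

noncomputable section

/-- kernel sum over the children above a threshold -/
def jn6eT (K : Finset ℕ) (t : ℕ) (α : ℝ) : ℝ :=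
  ∑ k ∈ K, if α * t ≤ k then 1 / ((k : ℝ) * ((t - k : ℕ) : ℝ) ^ 3) else 0

theorem jn6e_nonneg (K : Finset ℕ) (t : ℕ) (α : ℝ) : 0 ≤ jn6eT K t α := by
  refine sum_nonneg fun k _ => ?_
  split_ifs
  · positivity
  · exact le_rfl

theorem jn6e_lower (α β : ℝ) (t : ℕ) (K : Finset ℕ) (ht : 1 ≤ t) (hα : 0 < α) (hβ : β < 1)
    (hK : ∀ k : ℕ, α * t ≤ k → (k : ℝ) < β * t → k ∈ K) (hK2 : ∀ k ∈ K, k < t) :
    256 / 27 * (β - α - 1 / t) / (t : ℝ) ^ 3 ≤ jn6eT K t α := by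
  refine (kernel_lower α β _ t K ht hα hβ (Or.inl rfl) hK hK2).trans ?_
  rw [jn6eT, sum_filter]
  refine sum_le_sum fun k _ => ?_
  by_cases h1 : α * t ≤ k
  · rw [if_pos h1]
    split_ifs
    · exact le_rfl
    · positivity
  · rw [if_neg h1, if_neg fun h => h1 h.1]

theorem jn6e_split (t : ℕ) (K : Finset ℕ) (ht : 1 ≤ t)
    (hK : ∀ k : ℕ, (1 / 4 : ℝ) * t ≤ k → (k : ℝ) < 2 / 5 * t → k ∈ K) (hK2 : ∀ k ∈ K, k < t) :
    256 / 27 * (1 / 3 - 1 / 4 - 1 / t) / (t : ℝ) ^ 3 + 81 / 8 * (2 / 5 - 1 / 3 - 1 / t) / (t : ℝ) ^ 3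
      ≤ jn6eT K t (1 / 4) := by
  have ht0 : (0 : ℝ) ≤ t := Nat.cast_nonneg t
  have h1 := kernel_lower (1 / 4) (1 / 3) _ t K ht (by norm_num) (by norm_num) (Or.inl rfl)
    (fun k h1 h2 => hK k h1 (by linarith)) hK2
  have h2 := kernel_lower (1 / 3) (2 / 5) _ t K ht (by norm_num) (by norm_num)
    (Or.inr ⟨rfl, le_rfl⟩) (fun k h1 h2 => hK k (by linarith) h2) hK2
  refine (add_le_add h1 h2).trans ?_
  rw [jn6eT, sum_filter, sum_filter, ← sum_add_distrib]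
  refine sum_le_sum fun k _ => ?_
  have hp : (0 : ℝ) ≤ 1 / ((k : ℝ) * ((t - k : ℕ) : ℝ) ^ 3) := by positivity
  by_cases a1 : (1 / 4 : ℝ) * t ≤ k
  · rw [if_pos a1]
    by_cases a2 : (k : ℝ) < 1 / 3 * t
    · rw [if_pos ⟨a1, a2⟩, if_neg fun h => absurd h.1 (not_le.2 a2), add_zero]
    · rw [if_neg fun h => a2 h.2, zero_add]
      split_ifs
      · exact le_rfl
      · exact hp
  · rw [if_neg a1, if_neg fun h => a1 h.1, if_neg fun h => a1 (by linarith [h.1]), add_zero]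

theorem jn6e_ind {a b : ℕ} {p : Prop} [Decidable p] (h : a ≤ b ↔ p) (x : ℝ) :
    ind a b * x = if p then x else 0 := by
  unfold ind
  by_cases hp : p
  · rw [if_pos hp, if_pos (h.2 hp), one_mul]
  · rw [if_neg hp, if_neg fun h' => hp (h.1 h'), zero_mul]

theorem jn6e_iff (t k a b : ℕ) (hk : k ≤ t) (ha : 0 < a) :
    a * (t - k) ≤ b * k ↔ ((a : ℝ) / (a + b)) * t ≤ k := by
  obtain ⟨m, rfl⟩ := Nat.exists_eq_add_of_le hk
  have ha' : (0 : ℝ) < a := by exact_mod_cast ha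
  have hb' : (0 : ℝ) ≤ b := Nat.cast_nonneg b
  rw [Nat.add_sub_cancel_left, div_mul_eq_mul_div, div_le_iff₀ (by positivity),
    ← Nat.cast_le (α := ℝ)]
  push_cast
  constructor <;> intro h <;> nlinarith

theorem jn6e_eq (e t : ℕ) (he : Even e) (K : Finset ℕ) (hK : ∀ k ∈ K, k ≤ t) :
    ∑ k' ∈ K, 99 / 100 / (k' : ℝ) * (Gs (e + 1) (t - k') k' / ((t - k' : ℕ) : ℝ) ^ 3) =
      99 / 100 * (92 / 100 * jn6eT K t (1 / 4) + 8 / 100 * jn6eT K t (1 / 5)
        + 4 / 1000 * jn6eT K t (2 / 11) + 2 / 10000 * jn6eT K t (4 / 25)) := by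
  have he' : ¬ Even (e + 1) := fun h => Nat.even_add_one.1 h he
  simp only [jn6eT, mul_sum, ← sum_add_distrib]
  refine sum_congr rfl fun k hk => ?_
  have h1 : t - k ≤ 3 * k ↔ (1 / 4 : ℝ) * t ≤ k := by
    have := jn6e_iff t k 1 3 (hK k hk) one_pos
    rw [one_mul] at this
    rw [this]; norm_num
  have h2 : t - k ≤ 4 * k ↔ (1 / 5 : ℝ) * t ≤ k := by
    have := jn6e_iff t k 1 4 (hK k hk) one_pos
    rw [one_mul] at this
    rw [this]; norm_num
  have h3 : 2 * (t - k) ≤ 9 * k ↔ (2 / 11 : ℝ) * t ≤ k := by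
    rw [jn6e_iff t k 2 9 (hK k hk) two_pos]; norm_num
  have h4 : 4 * (t - k) ≤ 21 * k ↔ (4 / 25 : ℝ) * t ≤ k := by
    rw [jn6e_iff t k 4 21 (hK k hk) four_pos]; norm_num
  rw [← jn6e_ind h1, ← jn6e_ind h2, ← jn6e_ind h3, ← jn6e_ind h4, Gs, if_neg he']
  ring

theorem jn6e_fin {G T u c : ℝ} (hu : 0 < u) (h : c / u ≤ T) (hG : G ≤ c) : G / u ≤ T :=
  (div_le_div_of_nonneg_right hG hu.le).trans h

theorem sub_even : ∃ K : ℕ, ∀ e t k : ℕ, Even e → K ≤ k → 2 * k ≤ t → t ≤ 6 * k →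
    (Gs e t k + 1 / 100000) / (t : ℝ) ^ 3 ≤
      ∑ k' ∈ (Ico 1 k).filter (fun k' => 4 * t ≤ 25 * k' ∧ Cont e t k'),
        99 / 100 / (k' : ℝ) * (Gs (e + 1) (t - k') k' / ((t - k' : ℕ) : ℝ) ^ 3) := by
  refine ⟨10 ^ 7, fun e t k he hk h2 h6 => ?_⟩
  have he' : ¬ Even (e + 1) := fun h => Nat.even_add_one.1 h he
  set K := (Ico 1 k).filter (fun k' => 4 * t ≤ 25 * k' ∧ Cont e t k') with hKdef
  have hK2 : ∀ j ∈ K, j < t := fun j hj => by
    have := (mem_Ico.1 (mem_filter.1 hj).1).2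
    omega
  have ht : 1 ≤ t := by omega
  have htr : (10 : ℝ) ^ 7 ≤ t := by exact_mod_cast (by omega : 10 ^ 7 ≤ t)
  have ht0 : (0 : ℝ) < t := by linarith [show (0 : ℝ) < 10 ^ 7 by norm_num]
  have hu : (0 : ℝ) < (t : ℝ) ^ 3 := by positivity
  have hε : 1 / (t : ℝ) ≤ 1 / 10 ^ 7 := one_div_le_one_div_of_le (by norm_num) htr
  have hmem : ∀ α β : ℝ, 4 / 25 ≤ α → β * t ≤ k → ∀ j : ℕ, α * t ≤ j → (j : ℝ) < β * t → j ∈ K := by
    intro α β hα hβ j h1 h3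
    have a1 : (4 : ℝ) * t ≤ 25 * j := by nlinarith
    have a2 : 4 * t ≤ 25 * j := by exact_mod_cast a1
    have a3 : j < k := by exact_mod_cast h3.trans_le hβ
    exact mem_filter.2 ⟨mem_Ico.2 ⟨by omega, a3⟩, a2, fun h => absurd h he'⟩
  have hlow : ∀ α β : ℝ, 4 / 25 ≤ α → β < 1 → β * t ≤ k →
      256 / 27 * (β - α - 1 / 10 ^ 7) ≤ jn6eT K t α * (t : ℝ) ^ 3 := by
    intro α β hα hβ1 hβ
    have := jn6e_lower α β t K ht (by linarith) hβ1 (hmem α β hα hβ) hK2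
    rw [div_le_iff₀ hu] at this
    linarith
  have n1 := mul_nonneg (jn6e_nonneg K t (1 / 4)) hu.le
  have n2 := mul_nonneg (jn6e_nonneg K t (1 / 5)) hu.le
  have n3 := mul_nonneg (jn6e_nonneg K t (2 / 11)) hu.le
  have n4 := mul_nonneg (jn6e_nonneg K t (4 / 25)) hu.le
  rw [jn6e_eq e t he K fun j hj => (hK2 j hj).le, div_le_iff₀ hu, Gs, if_pos he]
  have hcast : ∀ a b : ℕ, 0 < b → a * t ≤ b * k → ((a : ℝ) / b) * t ≤ k := by
    intro a b hb h
    have hb' : (0 : ℝ) < b := by exact_mod_cast hb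
    rw [div_mul_eq_mul_div, div_le_iff₀ hb', mul_comm (k : ℝ)]
    exact_mod_cast h
  have i1 : ∀ a b : ℕ, ind a b ≤ 1 := fun a b => by
    unfold ind
    split_ifs <;> norm_num
  have i0 : ∀ a b : ℕ, ¬ a ≤ b → ind a b = 0 := fun a b h => by
    unfold ind
    rw [if_neg h]
  have j1 := i1 (2 * t) (5 * k)
  have j2 := i1 t (3 * k)
  have j3 := i1 (2 * t) (7 * k)
  have j4 := i1 t (4 * k)
  have j5 := i1 (2 * t) (9 * k)
  have j6 := i1 (4 * t) (21 * k)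
  by_cases c1 : 2 * t ≤ 5 * k
  · have b := hcast 2 5 (by norm_num) c1
    push_cast at b
    have l1 := jn6e_split t K ht (hmem (1 / 4) (2 / 5) (by norm_num) b) hK2
    rw [← add_div, div_le_iff₀ hu] at l1
    have l2 := hlow (1 / 5) (2 / 5) (by norm_num) (by norm_num) b
    linarith
  rw [i0 _ _ c1]
  by_cases c2 : t ≤ 3 * k
  · have b := hcast 1 3 (by norm_num) (by omega)
    push_cast at b
    have l1 := hlow (1 / 4) (1 / 3) (by norm_num) (by norm_num) b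
    have l2 := hlow (1 / 5) (1 / 3) (by norm_num) (by norm_num) b
    linarith
  rw [i0 _ _ c2]
  by_cases c3 : 2 * t ≤ 7 * k
  · have b := hcast 2 7 (by norm_num) c3
    push_cast at b
    have l1 := hlow (1 / 4) (2 / 7) (by norm_num) (by norm_num) b
    have l2 := hlow (1 / 5) (2 / 7) (by norm_num) (by norm_num) b
    linarith
  rw [i0 _ _ c3]
  by_cases c4 : t ≤ 4 * k
  · have b := hcast 1 4 (by norm_num) (by omega)
    push_cast at b
    have l2 := hlow (1 / 5) (1 / 4) (by norm_num) (by norm_num) b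
    linarith
  rw [i0 _ _ c4]
  by_cases c5 : 2 * t ≤ 9 * k
  · have b := hcast 2 9 (by norm_num) c5
    push_cast at b
    have l2 := hlow (1 / 5) (2 / 9) (by norm_num) (by norm_num) b
    linarith
  rw [i0 _ _ c5]
  by_cases c6 : 4 * t ≤ 21 * k
  · have b := hcast 4 21 (by norm_num) c6
    push_cast at b
    have l2 := hlow (2 / 11) (4 / 21) (by norm_num) (by norm_num) b
    linarith
  rw [i0 _ _ c6]
  have b := hcast 1 6 (by norm_num) (by omega)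
  push_cast at b
  have l2 := hlow (4 / 25) (1 / 6) le_rfl (by norm_num) b
  linarith

end

end Pool.Agent.Jac
end

-- part Pool.Agent.P.MP_45ff98_nt.JN9b
section

/-! One step for the potential. -/

namespace Pool.Agent.Jac
open Finset

noncomputable section

/-- The potential of section 2 (e), without the factor `cg k1^2`. -/
def Pot (e t k : ℕ) : ℝ := Gs e t k / (t : ℝ) ^ 3 - 1 / 10000000 * JJ t k

theorem JN9b_JJ_nonneg (t k : ℕ) : 0 ≤ JJ t k := by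
  unfold JJ; positivity

theorem JN9b_split (S : Finset ℕ) (e t : ℕ) :
    ∑ q ∈ S, Pot (e + 1) (t - kk q) (kk q) / q =
      ∑ q ∈ S, Gs (e + 1) (t - kk q) (kk q) / ((t - kk q : ℕ) : ℝ) ^ 3 / q -
        1 / 10000000 * ∑ q ∈ S, JJ (t - kk q) (kk q) / q := by
  rw [mul_sum, ← sum_sub_distrib]
  refine sum_congr rfl fun q _ => ?_
  unfold Pot
  ring

theorem JN9b_gain {κ e t p : ℕ} (hB : HB κ) (hκ : 25 * κ ≤ 4 * t) :
    ∑ k' ∈ (Ico 1 (kk p)).filter (fun k' => 4 * t ≤ 25 * k' ∧ Cont e t k'),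
        99 / 100 / (k' : ℝ) * (Gs (e + 1) (t - k') k' / ((t - k' : ℕ) : ℝ) ^ 3) ≤
      ∑ q ∈ (PP κ p).filter (fun q => Cont e t (kk q)),
        Gs (e + 1) (t - kk q) (kk q) / ((t - kk q : ℕ) : ℝ) ^ 3 / q := by
  have h0 : ∀ k' : ℕ, 0 ≤ Gs (e + 1) (t - k') k' / ((t - k' : ℕ) : ℝ) ^ 3 := fun k' =>
    div_nonneg (Gs_nonneg _ _ _) (by positivity)
  refine (box_lower hB p _ (fun k' hk' => ?_)
    (fun k' => Gs (e + 1) (t - k') k' / ((t - k' : ℕ) : ℝ) ^ 3) fun k' _ => h0 k').trans ?_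
  · obtain ⟨h1, h2, -⟩ := mem_filter.1 hk'
    exact ⟨by omega, (mem_Ico.1 h1).2⟩
  · refine sum_le_sum_of_subset_of_nonneg (fun q hq => ?_)
      fun q _ _ => div_nonneg (h0 _) (by positivity)
    obtain ⟨h1, h2⟩ := mem_filter.1 hq
    exact mem_filter.2 ⟨h1, (mem_filter.1 h2).2.2⟩

theorem pot_step : ∃ K : ℕ, ∀ k0 κ e t p : ℕ, HB k0 → K ≤ k0 → k0 ≤ κ → k0 ≤ kk p →
    St e t (kk p) → 25 * κ ≤ 4 * t →
    Pot e t (kk p) + 2 / 100000000 * JJ t (kk p) ≤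
      ∑ q ∈ (PP κ p).filter (fun q => Cont e t (kk q)), Pot (e + 1) (t - kk q) (kk q) / q := by
  obtain ⟨K1, h1⟩ := sub_odd
  obtain ⟨K2, h2⟩ := sub_even
  refine ⟨K1 + K2 + 1000, fun k0 κ e t p hB hK hκ hk hs ht => ?_⟩
  have hB' : HB κ := hB.mono hκ
  have hL : ∑ q ∈ (PP κ p).filter (fun q => Cont e t (kk q)), JJ (t - kk q) (kk q) / q ≤
      TB κ (kk p) (fun _ t k => JJ t k) e t :=
    TP_le_TB hB' (fun _ t k => JJ t k) (fun _ _ _ => JN9b_JJ_nonneg _ _) e t p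
  have hJ := JN9b_JJ_nonneg t (kk p)
  rw [JN9b_split]
  unfold Pot
  rcases Nat.lt_or_ge (6 * kk p) t with hf | hf
  · have h3 := J_far (lo := κ) (e := e) (t := t) (k := kk p) (by omega) hf.le
    have h4 : 0 ≤ ∑ q ∈ (PP κ p).filter (fun q => Cont e t (kk q)),
        Gs (e + 1) (t - kk q) (kk q) / ((t - kk q : ℕ) : ℝ) ^ 3 / q :=
      sum_nonneg fun q _ =>
        div_nonneg (div_nonneg (Gs_nonneg _ _ _) (by positivity)) (by positivity)
    rw [Gs_zero hf, zero_div]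
    linarith
  · have h3 := J_all (lo := κ) (e := e) (t := t) (k := kk p) (kk_pos p) hs
    have h4 := JN9b_gain (e := e) (p := p) hB' ht
    have h5 : (Gs e t (kk p) + 1 / 100000) / (t : ℝ) ^ 3 ≤
        ∑ k' ∈ (Ico 1 (kk p)).filter (fun k' => 4 * t ≤ 25 * k' ∧ Cont e t k'),
          99 / 100 / (k' : ℝ) * (Gs (e + 1) (t - k') k' / ((t - k' : ℕ) : ℝ) ^ 3) := by
      by_cases he : Even e
      · exact h2 e t (kk p) he (by omega) (hs.2 he) hf
      · exact h1 e t (kk p) he (by omega) hs.1 hf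
    have h6 : (Gs e t (kk p) + 1 / 100000) / (t : ℝ) ^ 3 =
        Gs e t (kk p) / (t : ℝ) ^ 3 + 1 / 100000 * (1 / (t : ℝ) ^ 3) := by ring
    have h7 : 30 / (t : ℝ) ^ 3 = 30 * (1 / (t : ℝ) ^ 3) := by ring
    have h8 : 0 ≤ 1 / (t : ℝ) ^ 3 := by positivity
    linarith

end

end Pool.Agent.Jac
end

-- part Pool.Agent.P.MP_45ff98_nt.JN9
section

/-! The gain beats the loss. -/

namespace Pool.Agent.Jac
open Finset

noncomputable section

theorem n9_JJ_nonneg (t k : ℕ) : 0 ≤ JJ t k := by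
  unfold JJ; positivity

theorem n9_JJ_le (t k : ℕ) : JJ t k ≤ 1 / (t : ℝ) ^ 3 := by
  unfold JJ
  refine div_le_div_of_nonneg_right ?_ (by positivity)
  rw [Real.exp_le_one_iff, neg_div]
  exact neg_nonpos.2 (by positivity)

theorem n9_psiS_mono {A B : ℝ} (h : A ≤ B) (G k0 t k : ℕ) : psiS A G k0 t k ≤ psiS B G k0 t k := by
  unfold psiS
  exact mul_le_mul_of_nonneg_right h (by positivity)

theorem n9_Pot_le (e t k : ℕ) : Pot e t k ≤ 2 / (t : ℝ) ^ 3 := by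
  have h1 := n9_JJ_nonneg t k
  have h2 : Gs e t k / (t : ℝ) ^ 3 ≤ 2 / (t : ℝ) ^ 3 :=
    div_le_div_of_nonneg_right (Gs_le e t k) (by positivity)
  unfold Pot
  linarith

theorem n9_neg_Pot_le (e t k : ℕ) : -Pot e t k ≤ 1 / (t : ℝ) ^ 3 := by
  have h1 := n9_JJ_nonneg t k
  have h2 : 0 ≤ Gs e t k / (t : ℝ) ^ 3 := div_nonneg (Gs_nonneg e t k) (by positivity)
  have h3 := n9_JJ_le t k
  unfold Pot
  linarith

/-- The gain dominates the sum over the children in boxes of index at least `κ`. -/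
theorem n9_gam (P : Par) (e t p κ : ℕ) (h0 : P.k0 ≤ κ) (hA : ∀ k, κ ≤ k → AlwS P t k) :
    ∑ q ∈ (PP κ p).filter (fun q => Cont e t (kk q)), Gam P (e + 1) (t - kk q) q / q ≤
      Gam P e t p := by
  rw [Gam_rec P e t p]
  have hs : (PP κ p).filter (fun q => Cont e t (kk q)) ⊆ PP P.k0 p :=
    (filter_subset _ _).trans (PP_mono h0 le_rfl)
  refine le_trans (le_of_eq (sum_congr rfl fun q hq => ?_))
    (sum_le_sum_of_subset_of_nonneg hs fun q _ _ => ?_)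
  · obtain ⟨h1, h2⟩ := mem_filter.1 hq
    rw [if_pos (hA _ (mem_PP.1 h1).2.2), if_pos h2]
  · refine div_nonneg ?_ (Nat.cast_nonneg _)
    have := Gam_nonneg P (e + 1) (t - kk q) q
    split_ifs
    · exact this
    · positivity
    · exact le_rfl
    · exact le_rfl

/-- Splitting the tree operator at the box `κ`. -/
theorem n9_split (k0 κ : ℕ) (h0 : k0 ≤ κ) (X : ℕ → ℕ → ℕ → ℝ) (e t p : ℕ) :
    TP k0 X e t p =
      ∑ q ∈ (PP κ p).filter (fun q => Cont e t (kk q)), X (e + 1) (t - kk q) q / q +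
      ∑ q ∈ ((PP k0 p).filter (fun q => Cont e t (kk q))).filter (fun q => ¬ κ ≤ kk q),
        X (e + 1) (t - kk q) q / q := by
  have h : (PP κ p).filter (fun q => Cont e t (kk q)) =
      ((PP k0 p).filter (fun q => Cont e t (kk q))).filter (fun q => κ ≤ kk q) := by
    ext q
    simp only [mem_filter, mem_PP]
    constructor
    · rintro ⟨⟨h1, h2, h3⟩, h4⟩
      exact ⟨⟨⟨h1, h2, h0.trans h3⟩, h4⟩, h3⟩
    · rintro ⟨⟨⟨h1, h2, -⟩, h4⟩, h3⟩
      exact ⟨⟨h1, h2, h3⟩, h4⟩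
  rw [h, sum_filter_add_sum_filter_not, TP]

/-- The children in low boxes cost little. -/
theorem n9_low {k0 κ e t p : ℕ} (hB : HB k0) (h1000 : 1000 ≤ k0) (h0 : k0 ≤ κ) (hp : k0 ≤ kk p)
    (hs : St e t (kk p)) (X : ℕ → ℕ → ℕ → ℝ) (A : ℝ) (hA : 0 ≤ A)
    (hX : ∀ e t p : ℕ, St e t (kk p) → k0 ≤ kk p → X e t p ≤ A * Sup k0 e t (kk p)) :
    ∑ q ∈ ((PP k0 p).filter (fun q => Cont e t (kk q))).filter (fun q => ¬ κ ≤ kk q),
        X (e + 1) (t - kk q) q / q ≤ A * Sup k0 e t (min (kk p) κ) := by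
  have h1 : ∑ q ∈ ((PP k0 p).filter (fun q => Cont e t (kk q))).filter (fun q => ¬ κ ≤ kk q),
        X (e + 1) (t - kk q) q / q ≤
      A * ∑ q ∈ ((PP k0 p).filter (fun q => Cont e t (kk q))).filter (fun q => ¬ κ ≤ kk q),
        Sup k0 (e + 1) (t - kk q) (kk q) / q := by
    rw [mul_sum]
    refine sum_le_sum fun q hq => ?_
    obtain ⟨h1, -⟩ := mem_filter.1 hq
    obtain ⟨h2, h3⟩ := mem_filter.1 h1
    obtain ⟨h4, -, h5⟩ := mem_PP.1 h2
    rw [← mul_div_assoc]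
    exact div_le_div_of_nonneg_right (hX _ _ _ (hs.child (kk_mono h4.le) h3).1 h5)
      (Nat.cast_nonneg _)
  have h2 : ∑ q ∈ ((PP k0 p).filter (fun q => Cont e t (kk q))).filter (fun q => ¬ κ ≤ kk q),
        Sup k0 (e + 1) (t - kk q) (kk q) / q ≤ TB k0 (min (kk p) κ) (Sup k0) e t := by
    refine box_upper hB _ _ (fun q hq => ?_) (fun k hk => (mem_Icc.1 (mem_filter.1 hk).1).1)
      (fun k => Sup k0 (e + 1) (t - k) k) fun k _ => Sup_nonneg _ _ _ _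
    obtain ⟨h1, h6⟩ := mem_filter.1 hq
    obtain ⟨h2, h3⟩ := mem_filter.1 h1
    obtain ⟨h4, h7, h5⟩ := mem_PP.1 h2
    exact ⟨h7, mem_filter.2 ⟨mem_Icc.2 ⟨h5, le_min (kk_mono h4.le) (by omega)⟩, h3⟩⟩
  have h3 := sup_step (e := e) (t := t) h1000 (le_min hp h0) (hs.mono (min_le_left _ _))
  have h4 := Sup_nonneg k0 e t (min (kk p) κ)
  refine h1.trans (mul_le_mul_of_nonneg_left ?_ hA)
  linarith

theorem num (cG C : ℝ) (hG : 0 < cG) (hC : 0 < C) (C2 : ℕ) (h2 : 11 ≤ C2) :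
    ∃ (ρ Ks : ℕ) (CN : ℝ), ∀ K' : ℕ, 1 ≤ K' → ∃ CW0 : ℕ, ∀ (P : Par) (G : ℕ), HB P.k0 →
      Ks ≤ P.k0 → 1 ≤ G → G ≤ P.k0 → ρ * P.k0 ≤ P.kw → P.k1 = C2 * P.kw → P.kW = K' * P.k1 →
      CW0 ≤ P.CW → ∀ e t p : ℕ, St e t (kk p) → P.k1 ≤ kk p →
      UU C G P.k0 e t p - cG * Gam P e t p ≤
        CN * (P.k1 : ℝ) ^ 2 / (t : ℝ) ^ 3 + Rr C e t (kk p) := by
  obtain ⟨c3, hc3, K3, hland⟩ := landing C2 h2
  obtain ⟨cR, c1, hcR, hc1, hloss⟩ := loss_bound
  obtain ⟨K4, hpot⟩ := pot_step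
  obtain ⟨cg, hcg⟩ : ∃ cg : ℝ, cg = cG * c3 / 4 := ⟨_, rfl⟩
  have hcg0 : 0 < cg := by rw [hcg]; positivity
  have hA0 : 0 ≤ (cR + c1) * C := by positivity
  obtain ⟨ρ, hρ, hsm⟩ := small_loss ((cR + c1) * C) (1 / 100000000 * cg) hA0 (by positivity)
  refine ⟨ρ, max 1000 (max K3 K4), cg, fun K' hK' => ?_⟩
  obtain ⟨CW0, hCW0, hsm⟩ := hsm K' hK'
  refine ⟨CW0, fun P G hB hKs hG1 hGk hρk hk1 hkW hCW => ?_⟩
  have h1000 : 1000 ≤ P.k0 := (le_max_left _ _).trans hKs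
  have hK3 : K3 ≤ P.k0 := ((le_max_left _ _).trans (le_max_right _ _)).trans hKs
  have hK4 : K4 ≤ P.k0 := ((le_max_right _ _).trans (le_max_right _ _)).trans hKs
  have hkw2 : 2 * P.k0 ≤ P.kw := (Nat.mul_le_mul_right _ hρ).trans hρk
  have hw1 : P.kw ≤ P.k1 := by rw [hk1]; nlinarith
  have h1W : P.k1 ≤ P.kW := by rw [hkW]; nlinarith
  have h01 : P.k0 ≤ P.k1 := by omega
  have hCW7 : 7 ≤ P.CW := hCW0.trans hCW
  have hX := hloss C G P.k0 hC.le hG1 hGk h1000 hB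
  have hX2 : ∀ e t p : ℕ, St e t (kk p) → P.k0 ≤ kk p →
      XX C G P.k0 e t p ≤ (cR + c1) * C * Sup P.k0 e t (kk p) := fun e t p h1 h2 => by
    refine (hX e t p h1 h2).2.trans (mul_le_mul_of_nonneg_right ?_ (Sup_nonneg _ _ _ _))
    nlinarith
  have key : ∀ p e t : ℕ, St e t (kk p) → P.k1 ≤ kk p →
      cg * (P.k1 : ℝ) ^ 2 * Pot e t (kk p) ≤ cG * Gam P e t p - XX C G P.k0 e t p := by
    intro p
    induction p using Nat.strong_induction_on with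
    | _ p ih =>
    intro e t hs hp
    have hp0 : P.k0 ≤ kk p := h01.trans hp
    obtain ⟨s1, s2, s3, s4⟩ := hsm G P.k0 P.k1 e t (kk p) P.CW (by omega) hGk (hρk.trans hw1) hp
      hs.1 hCW
    have hkt : P.k1 ≤ t := hp.trans hs.1
    have hk1pos : (0 : ℝ) < P.k1 := by exact_mod_cast (by omega : 0 < P.k1)
    rcases le_or_gt t (7 * P.k1) with ht | ht
    · have g1 := hland P hB hkw2 (by omega) hk1 h1W hCW7 e t p hp hkt ht
      have g2 := hX2 e t p hs hp0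
      have g3 := n9_Pot_le e t (kk p)
      have hkwpos : (0 : ℝ) < P.kw := by exact_mod_cast (by omega : 0 < P.kw)
      have g4 : c3 / P.k1 ≤ c3 / P.kw :=
        div_le_div_of_nonneg_left hc3.le hkwpos (by exact_mod_cast hw1)
      have g5 : (2 : ℝ) / (t : ℝ) ^ 3 ≤ 2 / (P.k1 : ℝ) ^ 3 :=
        div_le_div_of_nonneg_left (by norm_num) (by positivity)
          (pow_le_pow_left₀ hk1pos.le (by exact_mod_cast hkt) 3)
      have g6 : cg * (P.k1 : ℝ) ^ 2 * Pot e t (kk p) ≤ cg * (P.k1 : ℝ) ^ 2 * (2 / (P.k1 : ℝ) ^ 3) :=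
        mul_le_mul_of_nonneg_left (g3.trans g5) (by positivity)
      have g7 : cg * (P.k1 : ℝ) ^ 2 * (2 / (P.k1 : ℝ) ^ 3) = 2 * (cg / P.k1) := by
        field_simp
      have g8 : cG * (c3 / P.k1) ≤ cG * Gam P e t p :=
        mul_le_mul_of_nonneg_left (g4.trans g1) hG.le
      have g9 : cG * (c3 / P.k1) = 4 * (cg / P.k1) := by rw [hcg]; ring
      have g10 : 1 / 100000000 * cg / P.k1 = 1 / 100000000 * (cg / P.k1) := by ring
      have g11 : 0 ≤ cg / P.k1 := by positivity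
      linarith
    · obtain ⟨κ, hκ1, hκt, hκA, hκS⟩ : ∃ κ : ℕ, P.k1 ≤ κ ∧ 25 * κ ≤ 4 * t ∧
          (∀ k, κ ≤ k → AlwS P t k) ∧ (cR + c1) * C * Sup P.k0 e t (min (kk p) κ) ≤
            1 / 100000000 * cg * (P.k1 : ℝ) ^ 2 * JJ t (kk p) := by
        rcases le_or_gt t (P.CW * P.kW) with hw | hw
        · refine ⟨P.k1, le_rfl, by omega, fun k hk => ⟨fun _ => hw, fun h => by omega⟩, ?_⟩
          rw [min_eq_right hp]
          exact s3 ht
        · refine ⟨P.kW, h1W, ?_, fun k hk => ⟨fun h => by omega, fun h => by omega⟩, ?_⟩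
          · have := Nat.mul_le_mul_right P.kW hCW7
            omega
          · rw [hkW] at hw ⊢
            exact s4 hw
      have h0κ : P.k0 ≤ κ := h01.trans hκ1
      have g1 := n9_gam P e t p κ h0κ hκA
      have g2 := (hX e t p hs hp0).1
      rw [n9_split P.k0 κ h0κ] at g2
      have g3 := n9_low (κ := κ) hB h1000 h0κ hp0 hs (XX C G P.k0) _ hA0 hX2
      have g4 : psiS (cR * C) G P.k0 t (kk p) ≤ psiS ((cR + c1) * C) G P.k0 t (kk p) :=
        n9_psiS_mono (by nlinarith) _ _ _ _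
      have g5 := hpot P.k0 κ e t p hB hK4 h0κ hp0 hs hκt
      have g6 : cg * (P.k1 : ℝ) ^ 2 * ∑ q ∈ (PP κ p).filter (fun q => Cont e t (kk q)),
            Pot (e + 1) (t - kk q) (kk q) / q ≤
          cG * ∑ q ∈ (PP κ p).filter (fun q => Cont e t (kk q)), Gam P (e + 1) (t - kk q) q / q -
          ∑ q ∈ (PP κ p).filter (fun q => Cont e t (kk q)),
            XX C G P.k0 (e + 1) (t - kk q) q / q := by
        rw [mul_sum, mul_sum, ← sum_sub_distrib]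
        refine sum_le_sum fun q hq => ?_
        obtain ⟨h1, h3⟩ := mem_filter.1 hq
        obtain ⟨h4, -, h5⟩ := mem_PP.1 h1
        have := ih q h4 (e + 1) (t - kk q) (hs.child (kk_mono h4.le) h3).1 (hκ1.trans h5)
        rw [← mul_div_assoc, ← mul_div_assoc, ← sub_div]
        exact div_le_div_of_nonneg_right this (Nat.cast_nonneg _)
      have g7 := mul_le_mul_of_nonneg_left g1 hG.le
      have g8 := mul_le_mul_of_nonneg_left g5 (show 0 ≤ cg * (P.k1 : ℝ) ^ 2 by positivity)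
      have g9 : cg * (P.k1 : ℝ) ^ 2 * (Pot e t (kk p) + 2 / 100000000 * JJ t (kk p)) =
          cg * (P.k1 : ℝ) ^ 2 * Pot e t (kk p) +
            2 * (1 / 100000000 * cg * (P.k1 : ℝ) ^ 2 * JJ t (kk p)) := by ring
      linarith
  intro e t p hs hp
  have g1 := key p e t hs hp
  have g2 := mul_le_mul_of_nonneg_left (n9_neg_Pot_le e t (kk p))
    (show 0 ≤ cg * (P.k1 : ℝ) ^ 2 by positivity)
  have g3 : cg * (P.k1 : ℝ) ^ 2 * (1 / (t : ℝ) ^ 3) = cg * (P.k1 : ℝ) ^ 2 / (t : ℝ) ^ 3 := by ring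
  unfold XX at g1
  linarith

end

end Pool.Agent.Jac
end

-- part Pool.Agent.P.MP_45ff98_nt.JA10
section

/-! The mass of the dyadic boxes. -/

namespace Pool.Agent.Jac
open Finset MeasureTheory Complex

noncomputable section

/-- the prime part of the Mertens sum -/
def ja10_P (N : ℕ) : ℝ := ∑ n ∈ range N, (if n.Prime then Real.log n else 0) / (n : ℝ)

theorem ja10_lim : ∃ c : ℝ, Filter.Tendsto (fun N : ℕ => ja10_P (N + 1) - Real.log N)
    Filter.atTop (nhds c) := by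
  obtain ⟨c, hc⟩ := Pool.Agent.P.MP_78d079_nt.mertens_one
  have h := ArithmeticFunction.vonMangoldt.summable_residueClass_non_primes_div (q := 1) 0
  have h1 : ∀ n, ArithmeticFunction.vonMangoldt.residueClass (q := 1) 0 n =
      ArithmeticFunction.vonMangoldt n :=
    fun n => Set.indicator_of_mem (s := {n : ℕ | (n : ZMod 1) = 0})
      (Subsingleton.elim (α := ZMod 1) _ _) _
  simp only [h1] at h
  have h2 := (Filter.tendsto_add_atTop_iff_nat 1).2 h.hasSum.tendsto_sum_nat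
  refine ⟨_, (hc.sub h2).congr fun N => ?_⟩
  have h3 : ja10_P (N + 1) = ∑ k ∈ range (N + 1), ArithmeticFunction.vonMangoldt k / (k : ℝ) -
      ∑ k ∈ range (N + 1), (if k.Prime then 0 else ArithmeticFunction.vonMangoldt k) / (k : ℝ) := by
    rw [ja10_P, ← sum_sub_distrib]
    refine sum_congr rfl fun k _ => ?_
    split_ifs with hk
    · rw [ArithmeticFunction.vonMangoldt_apply_prime hk]; simp
    · simp
  rw [h3]
  ring

theorem ja10_lim2 : ∃ c : ℝ, Filter.Tendsto (fun k : ℕ => ja10_P (2 ^ k) - k * Real.log 2)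
    Filter.atTop (nhds c) := by
  obtain ⟨c, hc⟩ := ja10_lim
  refine ⟨c, (hc.comp (tendsto_pow_atTop_atTop_of_one_lt (r := (2 : ℕ)) one_lt_two)).congr' ?_⟩
  filter_upwards [Filter.eventually_ge_atTop 2] with k hk
  have h1 : ¬(2 ^ k).Prime := Nat.Prime.not_prime_pow hk
  show ja10_P (2 ^ k + 1) - Real.log ((2 ^ k : ℕ) : ℝ) = _
  rw [ja10_P, sum_range_succ, if_neg h1, zero_div, add_zero, ← ja10_P]
  push_cast
  rw [Real.log_pow]

theorem ja10_mem {k q : ℕ} (h : q ∈ Box (k + 1)) : q.Prime ∧ 2 ^ k ≤ q ∧ q < 2 ^ (k + 1) := by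
  obtain ⟨h1, h2⟩ := mem_Box.1 h
  exact ⟨h1, by simpa using (le_kk_iff h1.ne_zero).1 h2.ge, (kk_le_iff h1.ne_zero).1 h2.le⟩

theorem ja10_box (k : ℕ) : ∑ q ∈ Box (k + 1), Real.log q / q =
    ja10_P (2 ^ (k + 1)) - ja10_P (2 ^ k) := by
  have e : Box (k + 1) = (Ico (2 ^ k) (2 ^ (k + 1))).filter Nat.Prime := by
    ext q
    rw [mem_filter, mem_Ico]
    refine ⟨fun h => ⟨(ja10_mem h).2, (ja10_mem h).1⟩, fun ⟨⟨h1, h2⟩, h3⟩ => mem_Box.2 ⟨h3, ?_⟩⟩
    exact le_antisymm ((kk_le_iff h3.ne_zero).2 h2) ((le_kk_iff h3.ne_zero).2 (by simpa using h1))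
  rw [e, ja10_P, ja10_P, ← sum_Ico_eq_sub _ (Nat.pow_le_pow_right two_pos (Nat.le_succ k)),
    sum_filter]
  refine sum_congr rfl fun q _ => ?_
  split_ifs <;> simp

theorem box_log : Filter.Tendsto (fun k : ℕ => ∑ q ∈ Box k, Real.log q / q) Filter.atTop
    (nhds (Real.log 2)) := by
  obtain ⟨c, hc⟩ := ja10_lim2
  refine (Filter.tendsto_add_atTop_iff_nat 1).1 ?_
  have h := (((Filter.tendsto_add_atTop_iff_nat 1).2 hc).sub hc).add_const (Real.log 2)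
  rw [sub_self, zero_add] at h
  refine h.congr fun k => ?_
  rw [ja10_box]
  push_cast
  ring

theorem ja10_num {l j m S : ℝ} (hl : 0 < l) (hj : 1000 ≤ j) (m0 : 0 ≤ m)
    (a1 : 995 / 1000 * l < S) (a2 : S < 1005 / 1000 * l) (s1 : j * l * m ≤ S)
    (s2 : S ≤ (j + 1) * l * m) : 99 / 100 ≤ m * (j + 1) ∧ m * (j + 1) ≤ 101 / 100 := by
  have t1 : 995 / 1000 ≤ (j + 1) * m := le_of_mul_le_mul_right (by linarith) hl
  have t2 : j * m ≤ 1005 / 1000 := le_of_mul_le_mul_right (by linarith) hl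
  have t3 : 1000 * m ≤ j * m := mul_le_mul_of_nonneg_right hj m0
  constructor <;> linarith

theorem exists_HB : ∃ k : ℕ, HB k := by
  have hl : 0 < Real.log 2 := Real.log_pos one_lt_two
  have h1 := box_log.eventually (lt_mem_nhds (show 995 / 1000 * Real.log 2 < Real.log 2 by linarith))
  have h2 := box_log.eventually (gt_mem_nhds (show Real.log 2 < 1005 / 1000 * Real.log 2 by linarith))
  obtain ⟨k0, hk0⟩ := Filter.eventually_atTop.1 (h1.and (h2.and (Filter.eventually_ge_atTop 1001)))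
  refine ⟨k0, fun k hk => ?_⟩
  obtain ⟨a1, a2, a3⟩ := hk0 k hk
  obtain ⟨j, rfl⟩ : ∃ j, k = j + 1 := ⟨k - 1, by omega⟩
  have hj : (1000 : ℝ) ≤ j := by exact_mod_cast (by omega : 1000 ≤ j)
  have hb : ∀ q ∈ Box (j + 1), j * Real.log 2 * (1 / (q : ℝ)) ≤ Real.log q / q ∧
      Real.log q / q ≤ (j + 1) * Real.log 2 * (1 / (q : ℝ)) := fun q hq => by
    obtain ⟨b1, b2, b3⟩ := ja10_mem hq
    have q0 : (0 : ℝ) < q := by exact_mod_cast b1.pos
    have c1 : j * Real.log 2 ≤ Real.log q := by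
      rw [← Real.log_pow]
      exact Real.log_le_log (by positivity) (by exact_mod_cast b2)
    have c2 : Real.log q ≤ (j + 1) * Real.log 2 := by
      have : Real.log q ≤ Real.log ((2 : ℝ) ^ (j + 1)) :=
        Real.log_le_log q0 (by exact_mod_cast b3.le)
      rw [Real.log_pow] at this
      exact_mod_cast this
    rw [mul_one_div, mul_one_div]
    exact ⟨div_le_div_of_nonneg_right c1 q0.le, div_le_div_of_nonneg_right c2 q0.le⟩
  have s1 : j * Real.log 2 * mb (j + 1) ≤ ∑ q ∈ Box (j + 1), Real.log q / q := by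
    rw [mb, mul_sum]
    exact sum_le_sum fun q hq => (hb q hq).1
  have s2 : ∑ q ∈ Box (j + 1), Real.log q / q ≤ (j + 1) * Real.log 2 * mb (j + 1) := by
    rw [mb, mul_sum]
    exact sum_le_sum fun q hq => (hb q hq).2
  have m0 : 0 ≤ mb (j + 1) := sum_nonneg fun q _ => by positivity
  push_cast
  rw [div_le_iff₀ (by positivity), le_div_iff₀ (by positivity)]
  exact ja10_num hl hj m0 a1 a2 s1 s2

end

end Pool.Agent.Jac
end

-- part Pool.Agent.P.MP_45ff98_nt.JMain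
section

/-! The theorem for integer intervals. -/

namespace Pool.Agent.Jac
open Finset

noncomputable section

theorem jmain_big (B : ℕ) : ∃ l1 : ℕ, ∀ l, l1 ≤ l → (B * l) ^ 2 ≤ 2 ^ (l - 1) := by
  have h := (tendsto_pow_const_div_const_pow_of_one_lt 2 (one_lt_two (α := ℝ))).eventually
    (gt_mem_nhds (show (0 : ℝ) < 1 / (2 * (B : ℝ) ^ 2 + 1) by positivity))
  obtain ⟨l1, h1⟩ := Filter.eventually_atTop.1 h
  refine ⟨l1 + 1, fun l hl => ?_⟩
  have h2 := h1 l (by omega)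
  obtain ⟨m, rfl⟩ : ∃ m, l = m + 1 := ⟨l - 1, by omega⟩
  rw [div_lt_div_iff₀ (by positivity) (by positivity), one_mul, pow_succ 2 m] at h2
  have h3 : ((B : ℝ) * (m + 1 : ℕ)) ^ 2 ≤ 2 ^ m := by nlinarith [sq_nonneg ((m + 1 : ℕ) : ℝ)]
  rw [Nat.add_sub_cancel]
  exact_mod_cast h3

theorem jmain_rr {C : ℝ} (hC : 0 < C) {t k : ℕ} (hk : 1 ≤ k) (h1 : 2 * k ≤ t) (h2 : t ≤ 4 * k) :
    Rr C 0 t k ≤ 218 * C / (t : ℝ) ^ 2 := by
  have k1 : (1 : ℝ) ≤ k := by exact_mod_cast hk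
  have k2 : (k : ℝ) ≤ t := by exact_mod_cast (show k ≤ t by omega)
  have k3 : (t : ℝ) ≤ 4 * k := by exact_mod_cast h2
  have t1 : (1 : ℝ) ≤ t := k1.trans k2
  have k4 : (4 : ℝ) ^ k ≤ 2 ^ t := by
    rw [show (4 : ℝ) = 2 ^ 2 by norm_num, ← pow_mul]
    exact pow_le_pow_right₀ one_le_two h1
  have a1 : 2 * C * (k : ℝ) ^ 3 / (t : ℝ) ^ 7 ≤ 2 * C / (t : ℝ) ^ 2 := by
    rw [div_le_div_iff₀ (by positivity) (by positivity)]
    have : (k : ℝ) ^ 3 ≤ (t : ℝ) ^ 5 :=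
      (pow_le_pow_left₀ (by positivity) k2 3).trans (pow_le_pow_right₀ t1 (by norm_num))
    calc 2 * C * (k : ℝ) ^ 3 * (t : ℝ) ^ 2 ≤ 2 * C * (t : ℝ) ^ 5 * (t : ℝ) ^ 2 := by gcongr
      _ = _ := by ring
  have a2 : 54 * C * 4 ^ k / (2 ^ t * (t : ℝ) * k) ≤ 216 * C / (t : ℝ) ^ 2 := by
    rw [div_le_div_iff₀ (by positivity) (by positivity), sq]
    calc 54 * C * 4 ^ k * ((t : ℝ) * t) ≤ 54 * C * 2 ^ t * ((t : ℝ) * (4 * k)) := by gcongr
      _ = _ := by ring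
  rw [Rr, if_pos Even.zero, show 218 * C = 2 * C + 216 * C by ring, add_div]
  exact add_le_add a1 a2

theorem jmain_cap {m t l : ℕ} (hm : 2 ≤ m) (h1 : m ≤ t) (h2 : t ≤ 2 * 2 ^ l) :
    Cap (2 ^ m) (10 * l) ≤ 32 * Real.exp 20 / (t : ℝ) ^ 2 := by
  have hz : 3 ≤ 2 ^ m := le_trans (by norm_num) (Nat.pow_le_pow_right two_pos hm)
  have t0 : (0 : ℝ) < t := by exact_mod_cast (show 0 < t by omega)
  have k1 : (m : ℝ) ≤ t := by exact_mod_cast h1
  have k2 : (t : ℝ) ≤ 2 * 2 ^ l := by exact_mod_cast h2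
  have l2 : Real.log 2 ≤ 1 := by linarith [Real.log_two_lt_d9]
  have l0 : 0 ≤ Real.log 2 := Real.log_nonneg one_le_two
  have k3 : Real.log ((2 ^ m : ℕ) : ℝ) ≤ t := by
    rw [Nat.cast_pow, Real.log_pow, Nat.cast_ofNat]
    exact (mul_le_of_le_one_right (Nat.cast_nonneg m) l2).trans k1
  have k4 : ((2 : ℝ) ^ l) ^ 5 ≤ Real.exp ((10 * l : ℕ) : ℝ) := by
    rw [← pow_mul, ← Real.exp_one_pow]
    exact (pow_le_pow_right₀ one_le_two (by omega)).trans
      (pow_le_pow_left₀ zero_le_two (by linarith [Real.add_one_le_exp 1]) _)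
  refine (cap_le _ _ hz).trans ?_
  rw [Real.exp_neg, ← div_eq_mul_inv, div_le_div_iff₀ (by positivity) (by positivity)]
  have k5 : 0 ≤ Real.log ((2 ^ m : ℕ) : ℝ) := Real.log_natCast_nonneg _
  calc Real.exp 20 * Real.log ((2 ^ m : ℕ) : ℝ) ^ 3 * (t : ℝ) ^ 2
      ≤ Real.exp 20 * (2 * 2 ^ l) ^ 3 * (2 * 2 ^ l) ^ 2 := by gcongr; exact k3.trans k2
    _ = 32 * Real.exp 20 * (2 ^ l) ^ 5 := by ring
    _ ≤ _ := by gcongr

/-- Dyadic form: `L = 2^l` is the size of `log y`. -/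
theorem main_dyadic (A : ℕ) : ∃ l0 : ℕ, ∀ l : ℕ, l0 ≤ l → ∀ (N : ℤ) (y Y : ℕ), 2 ^ Y ≤ y →
    y ≤ 2 ^ (Y + 1) → 2 ^ (l - 1) ≤ Y → Y < 2 ^ l →
    (A : ℝ) * l / (Y : ℝ) ^ 2 ≤ (cntA N y 1 (2 ^ (Y / 2 + A * l + 2)) : ℝ) / y := by
  obtain ⟨C, hC, hM⟩ := main_sieve
  obtain ⟨cG, C2, hG, h2, hcl⟩ := claimG
  obtain ⟨ρ, Ks, CN, hnum⟩ := num cG C hG hC C2 h2
  obtain ⟨aS, hcl⟩ := hcl (10 * A + 9) (40 * A + 49) (by omega)
  obtain ⟨K', hK', hcl⟩ := hcl (aS + ρ * (40 * A + 49)) (Nat.le_add_right _ _)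
  obtain ⟨CW, hnum⟩ := hnum K' hK'
  obtain ⟨l0, hcl⟩ := hcl CW
  obtain ⟨kH, hH⟩ := exists_HB
  obtain ⟨l1, hl1⟩ := jmain_big (40 * A + 49 + C2 * (aS + ρ * (40 * A + 49)))
  obtain ⟨l2, hl2⟩ := exists_nat_ge (|CN| + 218 * C + 64 * Real.exp 20 + 4)
  refine ⟨l0 + l1 + l2 + kH + Ks + 1, fun l hl N y Y y1 y2 y3 y4 => ?_⟩
  obtain ⟨k1, hk1⟩ : ∃ k1, k1 = C2 * ((aS + ρ * (40 * A + 49)) * l) := ⟨_, rfl⟩
  obtain ⟨u, hu⟩ : ∃ u, u = A * l := ⟨_, rfl⟩
  have e0 : (40 * A + 49) * l = 40 * u + 49 * l := by rw [hu]; ring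
  have e1 : (10 * A + 9) * l = 10 * u + 9 * l := by rw [hu]; ring
  have b1 : (40 * u + 49 * l + k1) ^ 2 ≤ Y := by
    refine le_trans (le_of_eq ?_) ((hl1 l (by omega)).trans y3)
    rw [hu, hk1]
    ring
  have b2 : 2 * (40 * u + 49 * l + k1) ≤ Y := by
    refine le_trans ?_ b1
    rw [sq]
    exact Nat.mul_le_mul_right _ (by omega)
  have b3 : k1 ^ 2 ≤ Y := (Nat.pow_le_pow_left (by omega) 2).trans b1
  rw [← hu]
  have hz : kk (2 ^ (Y / 2 + u + 2)) = Y / 2 + u + 3 := kk_two_pow (k := Y / 2 + u + 3) (by omega)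
  obtain ⟨t, ht⟩ : ∃ t, t = 2 * (Y / 2 + u + 3 + (4 * u + l)) + 1 := ⟨_, rfl⟩
  let P : Par := ⟨(40 * A + 49) * l, (aS + ρ * (40 * A + 49)) * l, k1, K' * k1, CW⟩
  have p0 : P.k0 = 40 * u + 49 * l := e0
  have hB : HB P.k0 := fun k hk => hH k (by omega)
  have y0 : 1 ≤ y := Nat.one_le_two_pow.trans y1
  have c1 : 2 ^ t ≤ 2 ^ ((10 * A + 9) * l) * y := by
    refine le_trans ?_ (Nat.mul_le_mul_left _ y1)
    rw [← pow_add]
    exact Nat.pow_le_pow_right two_pos (by omega)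
  have st : St 0 t (kk (2 ^ (Y / 2 + u + 2))) := by
    rw [hz]
    exact ⟨by omega, fun _ => by omega⟩
  have m1 := hM P N y (2 ^ (Y / 2 + u + 2)) (4 * u + l) t (10 * l) hB (by omega) (by omega)
    (Nat.pow_le_pow_right two_pos (by omega)) (by rw [hz, ht]) y0 (by
      refine (Nat.pow_le_pow_left c1 4).trans ?_
      rw [mul_pow, ← pow_mul]
      exact Nat.mul_le_mul_right _ (Nat.pow_le_pow_right two_pos (by omega)))
  have m2 := hcl l (by omega) P N y (2 ^ (Y / 2 + u + 2)) t rfl rfl hk1 rfl rfl hB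
    ((Nat.pow_le_pow_right two_pos y3).trans y1) (y2.trans (Nat.pow_le_pow_right two_pos y4))
    (y2.trans (Nat.pow_le_pow_right two_pos (by omega))) c1 st (by omega)
  have m3 := hnum P (10 * l + 3) hB (by omega) (by omega) (by omega)
    (by
      show ρ * ((40 * A + 49) * l) ≤ (aS + ρ * (40 * A + 49)) * l
      rw [← mul_assoc]
      exact Nat.mul_le_mul_right _ (Nat.le_add_left _ _))
    hk1 rfl le_rfl 0 t _ st (by show k1 ≤ _; omega)
  have m4 := jmain_rr hC (kk_pos (2 ^ (Y / 2 + u + 2))) (st.2 Even.zero) (by omega)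
  have m5 := jmain_cap (m := Y / 2 + u + 2) (t := t) (l := l) (by omega) (by omega) (by omega)
  have t0 : (0 : ℝ) < t := by exact_mod_cast (show 0 < t by omega)
  have Y0 : (0 : ℝ) < Y := by exact_mod_cast (show 0 < Y by omega)
  have t1 : (t : ℝ) ≤ 2 * Y := by exact_mod_cast (show t ≤ 2 * Y by omega)
  have t2 : (t : ℝ) ≤ 2 * 2 ^ l := by exact_mod_cast (show t ≤ 2 * 2 ^ l by omega)
  have t3 : (k1 : ℝ) ^ 2 ≤ t := by exact_mod_cast (show k1 ^ 2 ≤ t by omega)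
  have m6 : CN * (P.k1 : ℝ) ^ 2 / (t : ℝ) ^ 3 ≤ |CN| / (t : ℝ) ^ 2 := by
    rw [div_le_div_iff₀ (by positivity) (by positivity)]
    calc CN * (k1 : ℝ) ^ 2 * (t : ℝ) ^ 2 ≤ |CN| * t * (t : ℝ) ^ 2 := by
          gcongr
          exact le_abs_self _
      _ = _ := by ring
  have m7 : 1 / ((2 : ℝ) ^ l) ^ 4 ≤ 4 / (t : ℝ) ^ 2 := by
    rw [div_le_div_iff₀ (by positivity) (by positivity), one_mul]
    calc (t : ℝ) ^ 2 ≤ (2 * 2 ^ l) ^ 2 := by gcongr
      _ = 4 * (2 ^ l) ^ 2 := by ring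
      _ ≤ _ := mul_le_mul_of_nonneg_left
          (pow_le_pow_right₀ (one_le_pow₀ one_le_two) (by norm_num)) (by norm_num)
  have m8 : (A : ℝ) * l / (Y : ℝ) ^ 2 ≤ 4 * u / (t : ℝ) ^ 2 := by
    rw [div_le_div_iff₀ (by positivity) (by positivity), ← Nat.cast_mul, ← hu]
    calc (u : ℝ) * (t : ℝ) ^ 2 ≤ u * (2 * Y) ^ 2 := by gcongr
      _ = _ := by ring
  have m9 : (|CN| + 218 * C + 64 * Real.exp 20 + 4) / (t : ℝ) ^ 2 ≤ l / (t : ℝ) ^ 2 :=
    div_le_div_of_nonneg_right (hl2.trans (by exact_mod_cast (show l2 ≤ l by omega)))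
      (by positivity)
  rw [Nat.cast_add, Nat.cast_mul, Nat.cast_ofNat, add_div] at m1
  rw [add_div, add_div, add_div, show 64 * Real.exp 20 = 2 * (32 * Real.exp 20) by ring,
    mul_div_assoc 2] at m9
  linarith

theorem jmain_anti (N : ℤ) (y d : ℕ) {p p' : ℕ} (h : p ≤ p') : cntA N y d p' ≤ cntA N y d p :=
  card_le_card fun i hi => by
    rw [mem_filter] at hi ⊢
    exact ⟨hi.1, hi.2.1, fun r hr => hi.2.2 r (hr.trans_le h)⟩

theorem main_int (A : ℕ) : ∃ y0 : ℕ, ∀ y : ℕ, y0 ≤ y → ∀ (N : ℤ) (z : ℕ),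
    (z : ℝ) ≤ √y * Real.log y ^ A →
    A * y * Real.log (Real.log y) / Real.log y ^ 2 ≤ cntA N y 1 z := by
  obtain ⟨l0, h⟩ := main_dyadic (2 * A)
  refine ⟨2 ^ 2 ^ l0, fun y hy N z hz => ?_⟩
  have y0 : y ≠ 0 := Nat.one_le_iff_ne_zero.1 (Nat.one_le_two_pow.trans hy)
  obtain ⟨Y, hY⟩ : ∃ Y, Y = Nat.log 2 y := ⟨_, rfl⟩
  have a1 : 2 ^ l0 ≤ Y := hY ▸ Nat.le_log_of_pow_le one_lt_two hy
  have Y0 : Y ≠ 0 := Nat.one_le_iff_ne_zero.1 (Nat.one_le_two_pow.trans a1)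
  have a2 : 2 ^ Y ≤ y := hY ▸ Nat.pow_log_le_self 2 y0
  have a3 : y < 2 ^ (Y + 1) := hY ▸ Nat.lt_pow_succ_log_self one_lt_two y
  obtain ⟨l, hl⟩ : ∃ l, l = Nat.log 2 Y + 1 := ⟨_, rfl⟩
  have a4 : Y < 2 ^ l := hl ▸ Nat.lt_pow_succ_log_self one_lt_two Y
  have h1 := h l (hl ▸ (Nat.le_log_of_pow_le one_lt_two a1).trans (Nat.le_succ _)) N y Y a2 a3.le
    (hl ▸ Nat.pow_log_le_self 2 Y0) a4
  have yp : (0 : ℝ) < y := by positivity
  have Yp : (0 : ℝ) < Y := by positivity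
  have l2 := Real.log_two_lt_d9
  have l2' := Real.log_two_gt_d9
  have b1 : Y * Real.log 2 ≤ Real.log y := by
    rw [← Real.log_pow]
    exact Real.log_le_log (by positivity) (by exact_mod_cast a2)
  have b0 : 0 < Real.log y := lt_of_lt_of_le (by positivity) b1
  have b2 : Real.log y ≤ 2 ^ l := by
    have h2 : Real.log y ≤ ((Y + 1 : ℕ) : ℝ) * Real.log 2 := by
      rw [← Real.log_pow]
      exact Real.log_le_log yp (by exact_mod_cast a3.le)
    exact h2.trans ((mul_le_of_le_one_right (Nat.cast_nonneg _) (by linarith)).trans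
      (by exact_mod_cast a4))
  have b3 : Real.log (Real.log y) ≤ l * Real.log 2 := by
    rw [← Real.log_pow]
    exact Real.log_le_log b0 b2
  have b4 : √(y : ℝ) ≤ 2 ^ (Y / 2 + 1) := by
    rw [Real.sqrt_le_left (by positivity), ← pow_mul]
    exact_mod_cast a3.le.trans (Nat.pow_le_pow_right two_pos (by omega))
  have b5 : z ≤ 2 ^ (Y / 2 + 2 * A * l + 2) := by
    have h2 : (z : ℝ) ≤ 2 ^ (Y / 2 + 1) * (2 ^ l) ^ A := hz.trans (by gcongr)
    rw [← pow_mul, ← pow_add] at h2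
    have h3 : z ≤ 2 ^ (Y / 2 + 1 + l * A) := by exact_mod_cast h2
    refine h3.trans (Nat.pow_le_pow_right two_pos ?_)
    rw [mul_assoc, mul_comm l A]
    omega
  rw [le_div_iff₀ yp] at h1
  refine le_trans ?_ (h1.trans (Nat.cast_le.2 (jmain_anti N y 1 b5)))
  calc A * y * Real.log (Real.log y) / Real.log y ^ 2
      ≤ A * y * (l * Real.log 2) / (Y * Real.log 2) ^ 2 := by gcongr
    _ = A * l / (Y : ℝ) ^ 2 * y * (1 / Real.log 2) := by field_simp
    _ ≤ A * l / (Y : ℝ) ^ 2 * y * 2 := by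
        gcongr
        rw [div_le_iff₀ (by positivity)]
        linarith
    _ = _ := by push_cast; ring

end

end Pool.Agent.Jac
end

-- part Pool.Agent.P.MP_45ff98_nt.JEnd
section

/-! Real intervals and the function of Jacobsthal. -/

namespace Pool.Agent.Jac
open Finset

noncomputable section

theorem jend_half {u : ℝ} (hu : 1 ≤ u) : u / 2 ≤ ⌊u⌋₊ := by
  have h1 := Nat.lt_floor_add_one u
  have h2 : (1 : ℝ) ≤ ⌊u⌋₊ := by exact_mod_cast Nat.le_floor (by simpa using hu)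
  linarith

theorem jend_loglog {y : ℝ} (h : 3 ≤ Real.log y) : 1 ≤ Real.log (Real.log y) := by
  rw [Real.le_log_iff_exp_le (by linarith)]
  exact Real.exp_one_lt_three.le.trans h

theorem main_real (A : ℝ) : ∃ y0 : ℝ, ∀ y : ℝ, y0 ≤ y → ∀ x : ℝ,
    A * y * Real.log (Real.log y) / Real.log y ^ 2 ≤
      (Set.ncard {n : ℤ | x < n ∧ n < x + y ∧
        ∀ p : ℕ, p.Prime → (p : ℝ) ≤ √y * Real.log y ^ A → ¬ (p : ℤ) ∣ n} : ℝ) := by
  classical
  obtain ⟨B, hB⟩ : ∃ B : ℕ, A ≤ B := ⟨⌈A⌉₊, Nat.le_ceil A⟩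
  obtain ⟨y0, h0⟩ := main_int (4 * B + 1)
  refine ⟨y0 + Real.exp 3 + 2, fun y hy x => ?_⟩
  have he : 4 ≤ Real.exp 3 := by linarith [Real.add_one_le_exp (3 : ℝ)]
  have hy0 : (0 : ℝ) ≤ y0 := Nat.cast_nonneg _
  obtain ⟨w, hw1, hw2⟩ : ∃ w : ℕ, (w : ℝ) + 1 ≤ y ∧ y < w + 2 := by
    have h1 : 1 ≤ ⌊y⌋₊ := Nat.le_floor (by simp only [Nat.cast_one]; linarith)
    refine ⟨⌊y⌋₊ - 1, ?_, ?_⟩
    · rw [Nat.cast_sub h1]
      linarith [Nat.floor_le (show 0 ≤ y by linarith), Nat.cast_one (R := ℝ)]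
    · rw [Nat.cast_sub h1]
      linarith [Nat.lt_floor_add_one y, Nat.cast_one (R := ℝ)]
  have hwpos : (0 : ℝ) < w := by linarith
  have hypos : 0 < y := by linarith
  have hL3 : 3 ≤ Real.log w := by
    rw [Real.le_log_iff_exp_le hwpos]
    linarith
  have hLL : Real.log w ≤ Real.log y := Real.log_le_log hwpos (by linarith)
  have hy2 : y ≤ 2 * w := by linarith
  have hL2 : Real.log y ≤ Real.log w ^ 2 := by
    have h1 : Real.log y ≤ Real.log 2 + Real.log w := by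
      rw [← Real.log_mul (by norm_num) hwpos.ne']
      exact Real.log_le_log hypos hy2
    have h2 : Real.log 2 ≤ 1 := by linarith [Real.log_two_lt_d9]
    nlinarith
  have hll : Real.log (Real.log y) ≤ 2 * Real.log (Real.log w) := by
    have := Real.log_le_log (by linarith) hL2
    rwa [Real.log_pow, Nat.cast_ofNat] at this
  have hl1 := jend_loglog hL3
  have hl2 := jend_loglog (hL3.trans hLL)
  have hsw : 1 ≤ √(w : ℝ) := Real.one_le_sqrt.2 (by linarith)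
  have hz : ((⌊√y * Real.log y ^ A⌋₊ + 1 : ℕ) : ℝ) ≤ √(w : ℝ) * Real.log w ^ (4 * B + 1) := by
    have h1 : √y ≤ 2 * √(w : ℝ) := by
      rw [Real.sqrt_le_left (by positivity), mul_pow, Real.sq_sqrt hwpos.le]
      linarith
    have h2 : Real.log y ^ A ≤ Real.log w ^ (4 * B) := by
      calc Real.log y ^ A ≤ Real.log y ^ (B : ℝ) :=
            Real.rpow_le_rpow_of_exponent_le (by linarith) hB
        _ = Real.log y ^ B := Real.rpow_natCast _ _
        _ ≤ (Real.log w ^ 2) ^ B := pow_le_pow_left₀ (by linarith) hL2 B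
        _ = Real.log w ^ (2 * B) := (pow_mul _ _ _).symm
        _ ≤ Real.log w ^ (4 * B) := pow_le_pow_right₀ (by linarith) (by omega)
    have h3 : 0 ≤ Real.log y ^ A := Real.rpow_nonneg (by linarith) _
    have h4 := Nat.floor_le (mul_nonneg (Real.sqrt_nonneg y) h3)
    have h5 : √y * Real.log y ^ A ≤ 2 * √(w : ℝ) * Real.log w ^ (4 * B) :=
      mul_le_mul h1 h2 h3 (by positivity)
    have h6 : 1 ≤ √(w : ℝ) * Real.log w ^ (4 * B) :=
      one_le_mul_of_one_le_of_one_le hsw (one_le_pow₀ (by linarith))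
    rw [pow_succ, ← mul_assoc]
    push_cast
    nlinarith
  have h1 := h0 w (by
    have : (y0 : ℝ) ≤ w := by linarith
    exact_mod_cast this) ⌊x⌋ _ hz
  refine le_trans ?_ (h1.trans ?_)
  · have hB0 : (0 : ℝ) ≤ B := Nat.cast_nonneg _
    calc A * y * Real.log (Real.log y) / Real.log y ^ 2
        ≤ B * y * Real.log (Real.log y) / Real.log y ^ 2 := by gcongr
      _ ≤ B * (2 * w) * (2 * Real.log (Real.log w)) / Real.log w ^ 2 := by
        gcongr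
      _ ≤ _ := by
        refine div_le_div_of_nonneg_right ?_ (by positivity)
        push_cast
        nlinarith [mul_nonneg hwpos.le (zero_le_one.trans hl1)]
  · rw [Nat.cast_le, cntA, ← card_image_of_injective (f := fun i : ℕ => ⌊x⌋ + (i : ℤ)) _
      (fun i j e => by simpa using e), ← Set.ncard_coe_finset]
    refine Set.ncard_le_ncard ?_ ((Set.finite_Icc ⌊x⌋ ⌈x + y⌉).subset ?_)
    · intro n hn
      obtain ⟨i, hi, rfl⟩ := mem_image.1 (mem_coe.1 hn)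
      obtain ⟨hi1, -, hi2⟩ := mem_filter.1 hi
      obtain ⟨hi3, hi4⟩ := mem_Icc.1 hi1
      have h2 : (1 : ℝ) ≤ i := by exact_mod_cast hi3
      have h3 : (i : ℝ) ≤ w := by exact_mod_cast hi4
      refine ⟨?_, ?_, fun p hp hp' => hi2 p (Nat.lt_succ_of_le (Nat.le_floor hp')) hp⟩
      · push_cast
        linarith [Int.lt_floor_add_one x]
      · push_cast
        linarith [Int.floor_le x]
    · rintro n ⟨h2, h3, -⟩
      exact ⟨(Int.floor_lt.2 h2).le, (Int.lt_ceil.2 h3).le⟩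

theorem schinzel_rough (A : ℝ) : ∃ x0 : ℝ, ∀ x : ℝ, x0 ≤ x → ∃ n : ℕ, x < n ∧
    n < x + Real.log x ^ 2 ∧
    ∀ p : ℕ, p.Prime → p ∣ n → Real.log x * Real.log (Real.log x) ^ A < p := by
  obtain ⟨y0, h0⟩ := main_real (max A 1)
  refine ⟨Real.exp (max y0 3), fun x hx => ?_⟩
  have hx0 : 0 < x := (Real.exp_pos _).trans_le hx
  have hL : max y0 3 ≤ Real.log x := (Real.le_log_iff_exp_le hx0).2 hx
  have hL3 : 3 ≤ Real.log x := (le_max_right _ _).trans hL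
  have hl := jend_loglog hL3
  have hy : y0 ≤ Real.log x ^ 2 := by nlinarith [le_max_left y0 3]
  have h1 := h0 _ hy x
  have e1 : Real.log (Real.log x ^ 2) = 2 * Real.log (Real.log x) := by
    rw [Real.log_pow, Nat.cast_ofNat]
  rw [e1, Real.sqrt_sq (by linarith)] at h1
  have h2 : 0 < max A 1 * Real.log x ^ 2 * Real.log (2 * Real.log (Real.log x)) /
      (2 * Real.log (Real.log x)) ^ 2 := by
    have h3 : 0 < Real.log (2 * Real.log (Real.log x)) := Real.log_pos (by linarith)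
    have h4 : 0 < max A 1 := zero_lt_one.trans_le (le_max_right _ _)
    have h5 : 0 < Real.log x := by linarith
    have h6 : 0 < Real.log (Real.log x) := by linarith
    positivity
  obtain ⟨n, h3, h4, h5⟩ := Set.nonempty_of_ncard_ne_zero
    (Nat.cast_pos.1 (h2.trans_le h1)).ne'
  have hn : 0 ≤ n := by
    have : (0 : ℝ) ≤ n := by linarith
    exact_mod_cast this
  lift n to ℕ using hn
  refine ⟨n, by exact_mod_cast h3, by exact_mod_cast h4, fun p hp hd => ?_⟩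
  by_contra hc
  refine h5 p hp ((not_lt.1 hc).trans ?_) (Int.natCast_dvd_natCast.2 hd)
  refine mul_le_mul_of_nonneg_left ?_ (by linarith)
  exact (Real.rpow_le_rpow_of_exponent_le hl (le_max_left A 1)).trans
    (Real.rpow_le_rpow (by linarith) (by linarith) (zero_le_one.trans (le_max_right _ _)))

theorem jend_cnt (N : ℤ) (y p : ℕ) :
    ((Icc 1 y).filter (fun i : ℕ => (p : ℤ) ∣ N + i)).card ≤ y / p + 1 := by
  rw [← card_range (y / p + 1)]
  refine card_le_card_of_injOn (fun i => i / p) (fun i hi => ?_) (fun i hi j hj e => ?_)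
  · have h := (mem_Icc.1 (mem_filter.1 (mem_coe.1 hi)).1).2
    exact mem_coe.2 (mem_range.2 (Nat.lt_succ_of_le (Nat.div_le_div_right h)))
  · have h1 := (mem_filter.1 (mem_coe.1 hi)).2
    have h2 := (mem_filter.1 (mem_coe.1 hj)).2
    have h3 : i ≡ j [MOD p] := by
      rw [Nat.modEq_iff_dvd]
      have := dvd_sub h2 h1
      rwa [add_sub_add_left_eq_sub] at this
    have h4 : i / p = j / p := e
    rw [← Nat.div_add_mod i p, ← Nat.div_add_mod j p, h4, show i % p = j % p from h3]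

theorem jend_large (B : ℕ) : ∃ k0 : ℕ, ∀ k : ℕ, k0 ≤ k →
    3 ≤ Real.log k ∧ 16 * Real.log k ^ (B + 3) ≤ k := by
  have h1 := (Real.isLittleO_pow_log_id_atTop (n := B + 3)).bound (c := 1 / 16) (by norm_num)
  have h2 := Real.tendsto_log_atTop.eventually_ge_atTop 3
  obtain ⟨k0, h⟩ := Filter.eventually_atTop.1
    (tendsto_natCast_atTop_atTop (R := ℝ).eventually (h1.and h2))
  refine ⟨k0, fun k hk => ⟨(h k hk).2, ?_⟩⟩
  have h3 := (h k hk).1
  rw [id, Real.norm_of_nonneg (pow_nonneg (by linarith [(h k hk).2]) _),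
    Real.norm_of_nonneg (Nat.cast_nonneg k)] at h3
  linarith

theorem jacobsthal (A : ℝ) : ∃ k0 : ℕ, ∀ k : ℕ, k0 ≤ k → ∀ S : Finset ℕ, (∀ p ∈ S, p.Prime) →
    S.card ≤ k → ∀ N : ℤ, ∃ i : ℕ, 1 ≤ i ∧ (i : ℝ) ≤ (k : ℝ) ^ 2 / Real.log k ^ A ∧
      ∀ p ∈ S, ¬ (p : ℤ) ∣ N + i := by
  classical
  obtain ⟨B, hB⟩ : ∃ B : ℕ, A ≤ B := ⟨⌈A⌉₊, Nat.le_ceil A⟩
  obtain ⟨y0, h0⟩ := main_int (B + 3)
  obtain ⟨k0, hk0⟩ := jend_large B
  refine ⟨max y0 k0, fun k hk S hS hc N => ?_⟩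
  obtain ⟨hl, hbig⟩ := hk0 k ((le_max_right _ _).trans hk)
  have hlB : 1 ≤ Real.log k ^ B := one_le_pow₀ (by linarith)
  have hl3 : 1 ≤ Real.log k ^ 3 := one_le_pow₀ (by linarith)
  have hk1 : (1 : ℝ) ≤ k := by
    have : 1 ≤ Real.log k ^ (B + 3) := one_le_pow₀ (by linarith)
    linarith
  have hu : 16 * Real.log k ^ 3 * k ≤ (k : ℝ) ^ 2 / Real.log k ^ B := by
    rw [le_div_iff₀ (by linarith)]
    rw [pow_add] at hbig
    nlinarith
  have hu1 : 1 ≤ (k : ℝ) ^ 2 / Real.log k ^ B := by nlinarith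
  obtain ⟨y, hy1, hy2⟩ : ∃ y : ℕ, (y : ℝ) ≤ (k : ℝ) ^ 2 / Real.log k ^ B ∧
      (k : ℝ) ^ 2 / Real.log k ^ B / 2 ≤ y := ⟨_, Nat.floor_le (by linarith), jend_half hu1⟩
  have hyk : (k : ℝ) ≤ y := by nlinarith
  have hypos : (0 : ℝ) < y := by linarith
  have hLl : Real.log k ≤ Real.log y := Real.log_le_log (by linarith) hyk
  have hL2 : Real.log y ≤ 2 * Real.log k := by
    have h1 : (y : ℝ) ≤ (k : ℝ) ^ 2 := hy1.trans (div_le_self (by positivity) hlB)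
    have h2 := Real.log_le_log hypos h1
    rwa [Real.log_pow, Nat.cast_ofNat] at h2
  have hL0 : 0 < Real.log y := by linarith
  have hs0 : 1 ≤ √(y : ℝ) := Real.one_le_sqrt.2 (by linarith)
  have hv : 1 ≤ √(y : ℝ) * Real.log y ^ (B + 3) :=
    one_le_mul_of_one_le_of_one_le hs0 (one_le_pow₀ (by linarith))
  obtain ⟨z, hz1, hz2⟩ : ∃ z : ℕ, (z : ℝ) ≤ √(y : ℝ) * Real.log y ^ (B + 3) ∧
      √(y : ℝ) * Real.log y ^ (B + 3) / 2 ≤ z := ⟨_, Nat.floor_le (by linarith), jend_half hv⟩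
  have hz0 : (0 : ℝ) < z := by linarith
  have h1 := h0 y (by
    have h2 : (y0 : ℝ) ≤ k := by exact_mod_cast (le_max_left _ _).trans hk
    exact_mod_cast h2.trans hyk) N z hz1
  by_contra hcon
  have hsub : (Icc 1 y).filter (fun i : ℕ => ((1 : ℕ) : ℤ) ∣ N + i ∧
      ∀ r < z, r.Prime → ¬ (r : ℤ) ∣ N + i) ⊆ (S.filter (z ≤ ·)).biUnion fun p =>
        (Icc 1 y).filter (fun i : ℕ => (p : ℤ) ∣ N + i) := by
    intro i hi
    obtain ⟨hi1, -, hi2⟩ := mem_filter.1 hi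
    by_contra hn
    refine hcon ⟨i, (mem_Icc.1 hi1).1, ?_, fun p hp hd => hn (mem_biUnion.2 ⟨p, mem_filter.2
      ⟨hp, not_lt.1 fun hlt => hi2 p hlt (hS p hp) hd⟩, mem_filter.2 ⟨hi1, hd⟩⟩)⟩
    have h2 : (i : ℝ) ≤ y := by exact_mod_cast (mem_Icc.1 hi1).2
    refine h2.trans (hy1.trans (div_le_div_of_nonneg_left (by positivity)
      (Real.rpow_pos_of_pos (by linarith) _) ?_))
    rw [← Real.rpow_natCast]
    exact Real.rpow_le_rpow_of_exponent_le (by linarith) hB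
  have h2 : (cntA N y 1 z : ℝ) ≤ k * (y / z + 1) := by
    have h3 : cntA N y 1 z ≤ k * (y / z + 1) := by
      refine (card_le_card hsub).trans (card_biUnion_le.trans ?_)
      refine (sum_le_card_nsmul _ _ (y / z + 1) fun p hp => (jend_cnt N y p).trans ?_).trans ?_
      · exact Nat.succ_le_succ (Nat.div_le_div_left (mem_filter.1 hp).2 (by exact_mod_cast hz0))
      · exact Nat.mul_le_mul_right _ ((card_filter_le _ _).trans hc)
    have h4 : ((y / z : ℕ) : ℝ) ≤ y / z := Nat.cast_div_le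
    have h5 : (cntA N y 1 z : ℝ) ≤ k * ((y / z : ℕ) + 1) := by exact_mod_cast h3
    exact h5.trans (by gcongr)
  have hL3 : 0 < Real.log y ^ 3 := by positivity
  have h3 : (k : ℝ) ≤ y / Real.log y ^ 3 := by
    rw [le_div_iff₀ hL3]
    have h4 : Real.log y ^ 3 ≤ (2 * Real.log k) ^ 3 := pow_le_pow_left₀ hL0.le hL2 3
    rw [mul_pow] at h4
    nlinarith
  have h4 : (k : ℝ) ≤ 2 * √(y : ℝ) * Real.log y ^ B := by
    have h5 : Real.log k ^ B ≤ Real.log y ^ B := pow_le_pow_left₀ (by linarith) hLl B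
    have h6 : (k : ℝ) ^ 2 ≤ 2 * y * Real.log k ^ B := by
      rw [div_div, div_le_iff₀ (by positivity)] at hy2
      linarith
    refine (sq_le_sq₀ (by positivity) (by positivity)).1 ?_
    rw [mul_pow, mul_pow, Real.sq_sqrt hypos.le]
    nlinarith [mul_le_mul h5 (hlB.trans h5) zero_le_one (by positivity : 0 ≤ Real.log y ^ B)]
  have h5 : (k : ℝ) * (y / z) ≤ 4 * (y / Real.log y ^ 3) := by
    have h6 : (k : ℝ) / z ≤ 4 / Real.log y ^ 3 := by
      rw [div_le_div_iff₀ hz0 hL3]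
      rw [pow_add] at hz2
      nlinarith
    calc (k : ℝ) * (y / z) = y * (k / z) := by ring
      _ ≤ y * (4 / Real.log y ^ 3) := by gcongr
      _ = _ := by ring
  have h6 : 5 * (y / Real.log y ^ 3) < 3 * (y / Real.log y ^ 2) := by
    have h7 : (y : ℝ) / Real.log y ^ 2 = Real.log y * (y / Real.log y ^ 3) := by
      field_simp
    have h8 : 0 < (y : ℝ) / Real.log y ^ 3 := by positivity
    rw [h7]
    nlinarith
  have h7 : 3 * (y / Real.log y ^ 2) ≤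
      ((B + 3 : ℕ) : ℝ) * y * Real.log (Real.log y) / Real.log y ^ 2 := by
    rw [← mul_div_assoc]
    refine div_le_div_of_nonneg_right ?_ (by positivity)
    have h8 := jend_loglog (hl.trans hLl)
    have h9 : (3 : ℝ) ≤ ((B + 3 : ℕ) : ℝ) := by
      push_cast
      linarith [Nat.cast_nonneg (α := ℝ) B]
    nlinarith [mul_le_mul h9 h8 zero_le_one (by linarith)]
  rw [mul_add, mul_one] at h2
  linarith

end

end Pool.Agent.Jac
end
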