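import Mathlib
import Pool.Agent.Lib.Sieve.Mertens

-- part Pool.Agent.P.MP_45ff98_nt.RM1
section

/-! Random sieve: the average over residue classes and its bounds. -/

namespace Pool.Agent.RSv
open Finset MeasureTheory

/-- Probability that uniformly random classes modulo the members of the list cover `S`. -/
noncomputable def av : List ℕ → Finset ℕ → ℝ
  | [], S => if S = ∅ then 1 else 0
  | p :: L, S => (∑ t ∈ range p, av L (S.filter fun n => n % p ≠ t)) / p

theorem av_nonneg : ∀ (L : List ℕ) (S : Finset ℕ), 0 ≤ av L S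
  | [], S => by unfold av; split_ifs <;> norm_num
  | p :: L, S => by
    unfold av
    exact div_nonneg (sum_nonneg fun t _ => av_nonneg L _) (Nat.cast_nonneg p)

theorem meas_le {Ω : Type} [MeasurableSpace Ω] (μ : Measure Ω) [IsProbabilityMeasure μ]
    (a : ℕ → Ω → ℕ)
    (hc : ∀ (U : Finset ℕ) (r : ℕ → ℕ), (∀ q ∈ U, q.Prime ∧ r q < q) →
      μ.real {ω | ∀ q ∈ U, a q ω = r q} = ∏ q ∈ U, 1 / (q : ℝ))
    (hn : ∀ p : ℕ, p.Prime → μ.real {ω | p ≤ a p ω} = 0) :
    ∀ (L : List ℕ), L.Nodup → (∀ p ∈ L, p.Prime) → ∀ (U : Finset ℕ) (r : ℕ → ℕ) (S : Finset ℕ),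
      (∀ q ∈ U, q.Prime ∧ r q < q) → (∀ p ∈ L, p ∉ U) →
      μ.real ({ω | ∀ q ∈ U, a q ω = r q} ∩ {ω | ∀ n ∈ S, ∃ p ∈ L, n % p = a p ω}) ≤
        (∏ q ∈ U, 1 / (q : ℝ)) * av L S := by
  intro L
  induction L with
  | nil =>
    intro _ _ U r S hU _
    unfold av
    split_ifs with h
    · rw [mul_one, ← hc U r hU]
      exact measureReal_mono Set.inter_subset_left
    · have : ({ω | ∀ q ∈ U, a q ω = r q} ∩ {ω | ∀ n ∈ S, ∃ p ∈ ([] : List ℕ), n % p = a p ω})
          = ∅ := by
        obtain ⟨n, hn⟩ := nonempty_iff_ne_empty.2 h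
        ext ω
        simp only [Set.mem_inter_iff, Set.mem_ofPred_eq, Set.mem_empty_iff_false, iff_false,
          not_and]
        intro _ h2
        obtain ⟨p, hp, _⟩ := h2 n hn
        simp at hp
      rw [this]; simp
  | cons p L ih =>
    intro hnd hpr U r S hU hd
    have hp : p.Prime := hpr p (by simp)
    have hpU : p ∉ U := hd p (by simp)
    have hpL : p ∉ L := (List.nodup_cons.1 hnd).1
    have hsub : ({ω | ∀ q ∈ U, a q ω = r q} ∩ {ω | ∀ n ∈ S, ∃ q ∈ p :: L, n % q = a q ω}) ⊆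
        {ω | p ≤ a p ω} ∪ ⋃ t ∈ range p,
          ({ω | ∀ q ∈ insert p U, a q ω = Function.update r p t q} ∩
            {ω | ∀ n ∈ S.filter (fun n => n % p ≠ t), ∃ q ∈ L, n % q = a q ω}) := by
      rintro ω ⟨h1, h2⟩
      by_cases h : p ≤ a p ω
      · exact Or.inl h
      · right
        simp only [Set.mem_iUnion]
        refine ⟨a p ω, mem_range.2 (not_le.1 h), ?_, ?_⟩
        · intro q hq
          rcases mem_insert.1 hq with rfl | hq
          · simp
          · rw [Function.update_of_ne (fun e : q = p => hpU (e ▸ hq))]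
            exact h1 q hq
        · intro n hn
          obtain ⟨hn1, hn2⟩ := mem_filter.1 hn
          obtain ⟨q, hq, e⟩ := h2 n hn1
          rcases List.mem_cons.1 hq with rfl | hq
          · exact absurd e hn2
          · exact ⟨q, hq, e⟩
    refine (measureReal_mono hsub).trans ((measureReal_union_le _ _).trans ?_)
    rw [hn p hp, zero_add]
    refine (measureReal_biUnion_finset_le _ _).trans ?_
    unfold av
    rw [← mul_div_assoc, mul_sum, sum_div]
    refine sum_le_sum fun t ht => ?_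
    refine (ih (List.nodup_cons.1 hnd).2 (fun q hq => hpr q (by simp [hq])) (insert p U)
      (Function.update r p t) _ ?_ ?_).trans (le_of_eq ?_)
    · intro q hq
      rcases mem_insert.1 hq with rfl | hq
      · exact ⟨hp, by simpa using mem_range.1 ht⟩
      · rw [Function.update_of_ne (fun e : q = p => hpU (e ▸ hq))]
        exact hU q hq
    · intro q hq hq2
      rcases mem_insert.1 hq2 with rfl | hq2
      · exact hpL hq
      · exact hd q (by simp [hq]) hq2
    · rw [prod_insert hpU]; ring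

theorem step {p : ℕ} (hp : 0 < p) (L : List ℕ) (S : Finset ℕ) {l k : ℝ} (hl : 0 ≤ l) (hk : 0 ≤ k)
    (h1 : ∀ T ⊆ S, av L T ≤ l ^ T.card) (b : ℕ)
    (hb : ∀ t, (S.filter fun n => n % p = t).card ≤ b)
    (h2 : ∀ X : ℕ, X ≤ b → X ≤ S.card →
      l ^ (S.card - X) ≤ l ^ S.card + X * (k * l ^ (S.card - 1))) :
    av (p :: L) S ≤ (l + k / p) ^ S.card := by
  have hp' : (0 : ℝ) < p := by exact_mod_cast hp
  have hsum : ∑ t ∈ range p, ((S.filter fun n => n % p = t).card : ℝ) = S.card := by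
    have := card_eq_sum_card_fiberwise (f := fun n => n % p) (s := S) (t := range p)
      (fun n _ => mem_coe.2 (mem_range.2 (Nat.mod_lt n hp)))
    rw [this]; push_cast; rfl
  have h3 : ∑ t ∈ range p, av L (S.filter fun n => n % p ≠ t) ≤
      ∑ t ∈ range p, (l ^ S.card +
        ((S.filter fun n => n % p = t).card : ℝ) * (k * l ^ (S.card - 1))) := by
    refine sum_le_sum fun t _ => (h1 _ (filter_subset _ _)).trans ?_
    have e := card_filter_add_card_filter_not (s := S) (fun n => n % p = t)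
    have e2 : (S.filter fun n => n % p ≠ t).card =
        S.card - (S.filter fun n => n % p = t).card := by
      have : (S.filter fun n => n % p ≠ t).card = (S.filter fun n => ¬ n % p = t).card := rfl
      omega
    rw [e2]
    exact h2 _ (hb t) (card_filter_le _ _)
  rw [sum_add_distrib, ← sum_mul, hsum, sum_const, card_range, nsmul_eq_mul] at h3
  have h4 := pow_add_mul_le_add_pow hl (b := k / p) (by positivity) S.card
  refine le_trans ?_ h4
  unfold av
  rw [div_le_iff₀ hp']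
  refine h3.trans (le_of_eq ?_)
  field_simp

theorem prod_mem (f : ℕ → ℝ) : ∀ L : List ℕ, (∀ p ∈ L, 0 ≤ f p ∧ f p ≤ 1) →
    0 ≤ (L.map f).prod ∧ (L.map f).prod ≤ 1
  | [], _ => by simp
  | p :: L, h => by
    obtain ⟨h0, h1⟩ := prod_mem f L fun q hq => h q (by simp [hq])
    obtain ⟨h2, h3⟩ := h p (by simp)
    simp only [List.map_cons, List.prod_cons]
    exact ⟨by positivity, by nlinarith⟩

theorem av_big (S0 : Finset ℕ) : ∀ L : List ℕ,
    (∀ p ∈ L, 0 < p ∧ ∀ t, (S0.filter fun n => n % p = t).card ≤ 1) →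
    ∀ S ⊆ S0, av L S ≤ (1 - (L.map fun p : ℕ => 1 - 1 / (p : ℝ)).prod) ^ S.card
  | [], _, S, _ => by
    unfold av
    split_ifs with h
    · simp [h]
    · have := (nonempty_iff_ne_empty.2 h).card_pos
      simp [this.ne']
  | p :: L, h, S, hS => by
    have hL : ∀ q ∈ L, 0 < q ∧ ∀ t, (S0.filter fun n => n % q = t).card ≤ 1 :=
      fun q hq => h q (by simp [hq])
    obtain ⟨h0, h1⟩ := prod_mem (fun p : ℕ => 1 - 1 / (p : ℝ)) L fun q hq => by
      have : (1 : ℝ) ≤ q := by exact_mod_cast (hL q hq).1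
      have h2 : 1 / (q : ℝ) ≤ 1 := by rw [div_le_one (by linarith)]; exact this
      have h3 : 0 ≤ 1 / (q : ℝ) := by positivity
      constructor <;> linarith
    obtain ⟨hp, hb⟩ := h p (by simp)
    set v := (L.map fun p : ℕ => 1 - 1 / (p : ℝ)).prod with hv
    have := step hp L S (l := 1 - v) (k := v) (by linarith) h0
      (fun T hT => av_big S0 L hL T (hT.trans hS)) 1
      (fun t => (card_le_card (filter_subset_filter _ hS)).trans (hb t)) (by
        intro X hX hX2
        interval_cases X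
        · simp
        · obtain ⟨m, hm⟩ : ∃ m, S.card = m + 1 := ⟨S.card - 1, by omega⟩
          rw [hm, Nat.add_sub_cancel, pow_succ]
          apply le_of_eq; push_cast; ring)
    refine this.trans (le_of_eq ?_)
    simp only [List.map_cons, List.prod_cons, ← hv]
    congr 1; ring

theorem av_mid (S0 : Finset ℕ) (L2 : List ℕ) {v : ℝ} (hv0 : 0 ≤ v) (hv1 : v ≤ 1) (b : ℕ)
    (hvb : v * b ≤ 1 / 2) (h2 : ∀ S ⊆ S0, av L2 S ≤ (1 - v) ^ S.card) : ∀ L : List ℕ,
    (∀ p ∈ L, 2 ≤ p ∧ ∀ t, (S0.filter fun n => n % p = t).card ≤ b) →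
    ∀ S ⊆ S0, av (L ++ L2) S ≤ (1 - v * (L.map fun p : ℕ => 1 - 2 / (p : ℝ)).prod) ^ S.card
  | [], _, S, hS => by simpa using h2 S hS
  | p :: L, h, S, hS => by
    have hL : ∀ q ∈ L, 2 ≤ q ∧ ∀ t, (S0.filter fun n => n % q = t).card ≤ b :=
      fun q hq => h q (by simp [hq])
    obtain ⟨h0, h1⟩ := prod_mem (fun p : ℕ => 1 - 2 / (p : ℝ)) L fun q hq => by
      have : (2 : ℝ) ≤ q := by exact_mod_cast (hL q hq).1
      have h2 : 2 / (q : ℝ) ≤ 1 := by rw [div_le_one (by linarith)]; exact this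
      have h3 : 0 ≤ 2 / (q : ℝ) := by positivity
      constructor <;> linarith
    obtain ⟨hp, hb⟩ := h p (by simp)
    set c := (L.map fun p : ℕ => 1 - 2 / (p : ℝ)).prod with hc
    have hu0 : 0 ≤ v * c := by positivity
    have hu1 : v * c ≤ v := by nlinarith
    have hl : 0 ≤ 1 - v * c := by linarith
    have := step (by omega : 0 < p) (L ++ L2) S (l := 1 - v * c) (k := 2 * (v * c)) hl
      (by positivity) (fun T hT => av_mid S0 L2 hv0 hv1 b hvb h2 L hL T (hT.trans hS)) b
      (fun t => (card_le_card (filter_subset_filter _ hS)).trans (hb t)) (by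
        intro X hX hX2
        set u := v * c with hu
        have hX' : (X : ℝ) ≤ b := by exact_mod_cast hX
        have hX0 : (0 : ℝ) ≤ X := Nat.cast_nonneg X
        have hb0 : (0 : ℝ) ≤ b := Nat.cast_nonneg b
        have hux : u * X ≤ 1 / 2 := by nlinarith
        have hB := one_add_mul_le_pow (a := -u) (by linarith) X
        have e : (1 - u) ^ S.card = (1 - u) ^ (S.card - X) * (1 - u) ^ X := by
          rw [← pow_add]; congr 1; omega
        have hp0 : 0 ≤ (1 - u) ^ (S.card - X) := pow_nonneg hl _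
        have h5 : (1 - u) ^ S.card ≤ (1 - u) ^ (S.card - 1) :=
          pow_le_pow_of_le_one hl (by linarith) (by omega)
        have h6 : 1 ≤ (1 - u) ^ X * (1 + 2 * u * X) := by
          have h7 : 1 - u * X ≤ (1 - u) ^ X := by
            have : (1 + -u) = 1 - u := by ring
            rw [this] at hB; linarith
          have h8 : 0 ≤ u * X := by positivity
          nlinarith
        have h9 : (1 - u) ^ (S.card - X) ≤ (1 - u) ^ S.card * (1 + 2 * u * X) := by
          rw [e, mul_assoc]; nlinarith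
        have h10 : 0 ≤ 2 * u * X := by positivity
        nlinarith)
    refine this.trans (le_of_eq ?_)
    simp only [List.map_cons, List.prod_cons, ← hc]
    congr 1; ring

theorem av_small (L : List ℕ) (c : ℝ) : ∀ L0 : List ℕ, L0.Nodup → (∀ q ∈ L0, 0 < q) →
    ∀ S : Finset ℕ, (∀ r : ℕ → ℕ, av L (S.filter fun n => ∀ q ∈ L0, n % q ≠ r q) ≤ c) →
    av (L0 ++ L) S ≤ c
  | [], _, _, S, h => by simpa using h fun _ => 0
  | p :: L0, hnd, hq, S, h => by
    have hp : (0 : ℝ) < p := by exact_mod_cast hq p (by simp)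
    have hpL : p ∉ L0 := (List.nodup_cons.1 hnd).1
    rw [List.cons_append]
    unfold av
    rw [div_le_iff₀ hp]
    refine (sum_le_card_nsmul _ _ c fun t _ => ?_).trans (by simp [mul_comm])
    refine av_small L c L0 (List.nodup_cons.1 hnd).2 (fun q h => hq q (by simp [h])) _ fun r => ?_
    have e : ((S.filter fun n => n % p ≠ t).filter fun n => ∀ q ∈ L0, n % q ≠ r q) =
        S.filter fun n => ∀ q ∈ p :: L0, n % q ≠ Function.update r p t q := by
      ext n
      simp only [mem_filter, List.forall_mem_cons, Function.update_self, and_assoc]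
      refine and_congr_right fun _ => and_congr_right fun _ => forall₂_congr fun q hq => ?_
      rw [Function.update_of_ne (fun e : q = p => hpL (e ▸ hq))]
    rw [e]
    exact h _

end Pool.Agent.RSv
end

-- part Pool.Agent.P.MP_45ff98_nt.RM2
section

/-! Random sieve: the probability that one interval is covered. -/

namespace Pool.Agent.RSv
open Finset MeasureTheory Real

/-- The Mertens product. -/
noncomputable def Th (N : ℕ) : ℝ := ∏ q ∈ Nat.primesLE N, (1 - 1 / (q : ℝ))

theorem fac_mem {q : ℕ} (hq : q.Prime) : 0 < 1 - 1 / (q : ℝ) ∧ 1 - 1 / (q : ℝ) ≤ 1 := by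
  have h : (2 : ℝ) ≤ q := by exact_mod_cast hq.two_le
  have h2 : 1 / (q : ℝ) ≤ 1 / 2 := one_div_le_one_div_of_le (by norm_num) h
  have h3 : 0 ≤ 1 / (q : ℝ) := by positivity
  constructor <;> linarith

theorem th_pos (N : ℕ) : 0 < Th N :=
  prod_pos fun _ hq => (fac_mem (Nat.prime_of_mem_primesLE hq)).1

theorem th_log (N : ℕ) : Th N * log ((N : ℝ) + 1) ≤ 1 := by
  have h := Pool.Agent.Lib.Sieve.sum_le_prod_inv (fun n : ℕ => 1 / (n : ℝ))
    (fun n => by positivity) (by simp) (fun a b => by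
      push_cast; rw [one_div_mul_one_div]) (Nat.primesLE N)
    (fun q hq => by linarith [(fac_mem (Nat.prime_of_mem_primesLE hq)).1]) (Icc 1 N)
    (fun v hv => Pool.Agent.Lib.Sieve.mem_closure_of_primes (by have := (mem_Icc.1 hv).1; omega)
      fun p hp hd => mem_coe.2 (Nat.mem_primesLE.2
        ⟨(Nat.le_of_dvd (mem_Icc.1 hv).1 hd).trans (mem_Icc.1 hv).2, hp⟩))
  have h2 := log_add_one_le_harmonic N
  rw [harmonic_eq_sum_Icc] at h2
  push_cast at h2
  rw [prod_inv_distrib] at h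
  have h3 : log ((N : ℝ) + 1) ≤ (Th N)⁻¹ := by
    refine h2.trans (le_trans (le_of_eq ?_) h)
    simp
  have h4 := th_pos N
  calc Th N * log ((N : ℝ) + 1) ≤ Th N * (Th N)⁻¹ := by gcongr
    _ = 1 := mul_inv_cancel₀ h4.ne'

theorem class_card (S0 : Finset ℕ) {m Y p : ℕ}
    (hS : ∀ n ∈ S0, m < n ∧ n ≤ m + Y) (t : ℕ) :
    (S0.filter fun n => n % p = t).card ≤ Y / p + 1 := by
  rw [← card_range (Y / p + 1)]
  refine card_le_card_of_injOn (fun n => (n - m) / p) (fun n hn => ?_) fun n hn n' hn' e => ?_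
  · have := hS n (mem_filter.1 (mem_coe.1 hn)).1
    exact mem_coe.2 (mem_range.2 (Nat.lt_succ_of_le (Nat.div_le_div_right (by omega))))
  · obtain ⟨h1, h2⟩ := mem_filter.1 (mem_coe.1 hn)
    obtain ⟨h3, h4⟩ := mem_filter.1 (mem_coe.1 hn')
    have h5 := hS n h1
    have h6 := hS n' h3
    have h7 : m + (n - m) ≡ m + (n' - m) [MOD p] := by
      rw [Nat.add_sub_cancel' h5.1.le, Nat.add_sub_cancel' h6.1.le]
      exact h2.trans h4.symm
    have h8 : (n - m) % p = (n' - m) % p := Nat.ModEq.add_left_cancel' m h7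
    have h9 := Nat.div_add_mod (n - m) p
    have h10 := Nat.div_add_mod (n' - m) p
    simp only at e
    rw [e, h8] at h9
    omega

theorem mid_prod {Y Z : ℕ} (h3 : 3 ≤ Z) (hZY : Z ≤ Y) (hlog : log Y ≤ 2 * log ((Z : ℝ) + 1)) :
    exp (-12) ≤ ∏ p ∈ Nat.primesLE Y \ Nat.primesLE Z, (1 - 2 / (p : ℝ)) := by
  have hZ : (4 : ℝ) ≤ (Z : ℝ) + 1 := by
    have : (3 : ℝ) ≤ Z := by exact_mod_cast h3
    linarith
  have hl4 : log 4 ≤ log ((Z : ℝ) + 1) := log_le_log (by norm_num) hZ
  have hl0 : 0 < log ((Z : ℝ) + 1) := log_pos (by linarith)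
  have hm : ∀ p ∈ Nat.primesLE Y \ Nat.primesLE Z, (Z : ℝ) + 1 ≤ p := by
    intro p hp
    obtain ⟨h1, h2⟩ := mem_sdiff.1 hp
    have : Z + 1 ≤ p := by
      by_contra h
      exact h2 (Nat.mem_primesLE.2 ⟨by omega, Nat.prime_of_mem_primesLE h1⟩)
    exact_mod_cast this
  have h1 : (∑ p ∈ Nat.primesLE Y \ Nat.primesLE Z, 1 / (p : ℝ)) * log ((Z : ℝ) + 1) ≤
      3 * log ((Z : ℝ) + 1) := by
    have h := Pool.Agent.Lib.Sieve.sum_log_div_le (N := Y) (by omega)
    have h2 : ∑ p ∈ Nat.primesLE Y \ Nat.primesLE Z, log p / (p : ℝ) ≤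
        ∑ p ∈ Nat.primesLE Y, log p / (p : ℝ) :=
      sum_le_sum_of_subset_of_nonneg sdiff_subset fun p _ _ =>
        div_nonneg (log_natCast_nonneg p) (Nat.cast_nonneg p)
    have h4 : (∑ p ∈ Nat.primesLE Y \ Nat.primesLE Z, 1 / (p : ℝ)) * log ((Z : ℝ) + 1) ≤
        ∑ p ∈ Nat.primesLE Y \ Nat.primesLE Z, log p / (p : ℝ) := by
      rw [sum_mul]
      refine sum_le_sum fun p hp => ?_
      have h5 := log_le_log (by linarith) (hm p hp)
      rw [one_div_mul_eq_div]
      exact div_le_div_of_nonneg_right h5 (Nat.cast_nonneg p)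
    linarith
  have h2 := le_of_mul_le_mul_right h1 hl0
  calc exp (-12) ≤ exp (∑ p ∈ Nat.primesLE Y \ Nat.primesLE Z, -(4 * (1 / (p : ℝ)))) := by
        rw [sum_neg_distrib, ← mul_sum]
        exact exp_le_exp.2 (by linarith)
    _ ≤ _ := by
        rw [exp_sum]
        refine prod_le_prod (fun p _ => (exp_pos _).le) fun p hp => ?_
        have h4 : (4 : ℝ) ≤ p := hZ.trans (hm p hp)
        have h5 : 1 / (p : ℝ) ≤ 1 / 4 := one_div_le_one_div_of_le (by norm_num) h4
        have h6 : 0 ≤ 1 / (p : ℝ) := by positivity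
        have h7 : 2 / (p : ℝ) = 2 * (1 / (p : ℝ)) := by ring
        have h8 := add_one_le_exp (4 * (1 / (p : ℝ)))
        rw [h7, exp_neg, inv_le_iff_one_le_mul₀ (exp_pos _)]
        nlinarith

theorem big_prod {Y K : ℕ} (hY : Y + 1 ≤ K) (hK : 2 ≤ K) :
    log ((Y : ℝ) + 1) / log K ≤
      ∏ p ∈ (Nat.primesLE K).filter (fun p => Y < p ∧ 1 / log K ≤ Th p), (1 - 1 / (p : ℝ)) := by
  have hK' : (1 : ℝ) < K := by exact_mod_cast hK
  have hl : 0 < log K := log_pos hK'
  have hY0 : (0 : ℝ) < (Y : ℝ) + 1 := by positivity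
  have hlY : 0 ≤ log ((Y : ℝ) + 1) := log_nonneg (by linarith [Nat.cast_nonneg (α := ℝ) Y])
  set F := (Nat.primesLE K).filter (fun p => Y < p ∧ 1 / log K ≤ Th p) with hF
  rcases F.eq_empty_or_nonempty with h | h
  · rw [h, prod_empty, div_le_one hl]
    exact log_le_log hY0 (by exact_mod_cast hY)
  · have hm := mem_filter.1 (F.max'_mem h)
    have hd : Disjoint (Nat.primesLE Y) F := disjoint_left.2 fun p h1 h2 => by
      have := (mem_filter.1 h2).2.1
      have := Nat.le_of_mem_primesLE h1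
      omega
    have hsub : Nat.primesLE Y ∪ F ⊆ Nat.primesLE (F.max' h) := by
      intro p hp
      rcases mem_union.1 hp with h1 | h1
      · have := Nat.le_of_mem_primesLE h1
        exact Nat.mem_primesLE.2 ⟨by omega, Nat.prime_of_mem_primesLE h1⟩
      · exact Nat.mem_primesLE.2 ⟨F.le_max' p h1, Nat.prime_of_mem_primesLE (mem_filter.1 h1).1⟩
    have h1 : Th (F.max' h) ≤ Th Y * ∏ p ∈ F, (1 - 1 / (p : ℝ)) := by
      unfold Th
      rw [← prod_union hd]
      exact prod_le_prod_of_subset_of_le_one hsub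
        (fun p hp => (fac_mem (Nat.prime_of_mem_primesLE hp)).1.le)
        fun p hp _ => (fac_mem (Nat.prime_of_mem_primesLE hp)).2
    have h2 : 0 ≤ ∏ p ∈ F, (1 - 1 / (p : ℝ)) :=
      prod_nonneg fun p hp => (fac_mem (Nat.prime_of_mem_primesLE (mem_filter.1 hp).1)).1.le
    have h3 := th_log Y
    calc log ((Y : ℝ) + 1) / log K = 1 / log K * log ((Y : ℝ) + 1) := by ring
      _ ≤ (Th Y * ∏ p ∈ F, (1 - 1 / (p : ℝ))) * log ((Y : ℝ) + 1) :=
          mul_le_mul_of_nonneg_right (hm.2.2.trans h1) hlY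
      _ = (Th Y * log ((Y : ℝ) + 1)) * ∏ p ∈ F, (1 - 1 / (p : ℝ)) := by ring
      _ ≤ _ := by nlinarith

theorem fixed {Ω : Type} [MeasurableSpace Ω] (μ : Measure Ω) [IsProbabilityMeasure μ]
    (a : ℕ → Ω → ℕ)
    (hc : ∀ (U : Finset ℕ) (r : ℕ → ℕ), (∀ q ∈ U, q.Prime ∧ r q < q) →
      μ.real {ω | ∀ q ∈ U, a q ω = r q} = ∏ q ∈ U, 1 / (q : ℝ))
    (hn : ∀ p : ℕ, p.Prime → μ.real {ω | p ≤ a p ω} = 0)
    {m Y Z : ℕ} (S0 : Finset ℕ) (hS : ∀ n ∈ S0, m < n ∧ n ≤ m + Y) {W : ℝ}
    (hW : ∀ r : ℕ → ℕ, W ≤ (S0.filter fun n => ∀ q ∈ Nat.primesLE Z, n % q ≠ r q).card)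
    (h3 : 3 ≤ Z) (hZY : Z ≤ Y) (hlog : log Y ≤ 2 * log ((Z : ℝ) + 1)) (hYm : Y < m)
    (hvb : log ((Y : ℝ) + 1) / log (2 * m : ℕ) * (Y / (Z + 1) + 1 : ℕ) ≤ 1 / 2) :
    μ.real {ω | ∀ n ∈ S0, ∃ p : ℕ, p.Prime ∧ 1 / log n ≤ Th p ∧ n % p = a p ω} ≤
      exp (-(log ((Y : ℝ) + 1) / log (2 * m : ℕ) * exp (-12) * W)) := by
  classical
  set K := 2 * m with hK
  set v := log ((Y : ℝ) + 1) / log K with hv
  set F0 := Nat.primesLE Z with hF0
  set F1 := Nat.primesLE Y \ Nat.primesLE Z with hF1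
  set F2 := (Nat.primesLE K).filter (fun p => Y < p ∧ 1 / log K ≤ Th p) with hF2
  have hK1 : (1 : ℝ) < K := by exact_mod_cast (by omega : 1 < K)
  have hlK : 0 < log K := log_pos hK1
  have hv0 : 0 ≤ v :=
    div_nonneg (log_nonneg (by linarith [Nat.cast_nonneg (α := ℝ) Y])) hlK.le
  have hv1 : v ≤ 1 := by
    rw [hv, div_le_one hlK]
    exact log_le_log (by positivity) (by exact_mod_cast (by omega : Y + 1 ≤ K))
  have m0 : ∀ p ∈ F0, p.Prime ∧ p ≤ Z := fun p hp =>
    ⟨Nat.prime_of_mem_primesLE hp, Nat.le_of_mem_primesLE hp⟩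
  have m1 : ∀ p ∈ F1, p.Prime ∧ Z < p ∧ p ≤ Y := fun p hp => by
    obtain ⟨h1, h2⟩ := mem_sdiff.1 hp
    refine ⟨Nat.prime_of_mem_primesLE h1, ?_, Nat.le_of_mem_primesLE h1⟩
    by_contra h
    exact h2 (Nat.mem_primesLE.2 ⟨by omega, Nat.prime_of_mem_primesLE h1⟩)
  have m2 : ∀ p ∈ F2, p.Prime ∧ Y < p := fun p hp =>
    ⟨Nat.prime_of_mem_primesLE (mem_filter.1 hp).1, (mem_filter.1 hp).2.1⟩
  have hnd : (F0.toList ++ (F1.toList ++ F2.toList)).Nodup := by
    refine List.Nodup.append F0.nodup_toList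
      (List.Nodup.append F1.nodup_toList F2.nodup_toList fun p h1 h2 => ?_) fun p h1 h2 => ?_
    · have := m1 p (mem_toList.1 h1)
      have := m2 p (mem_toList.1 h2)
      omega
    · have := m0 p (mem_toList.1 h1)
      rcases List.mem_append.1 h2 with h | h
      · have := m1 p (mem_toList.1 h); omega
      · have := m2 p (mem_toList.1 h); omega
  have hpr : ∀ p ∈ F0.toList ++ (F1.toList ++ F2.toList), p.Prime := by
    intro p hp
    simp only [List.mem_append, mem_toList] at hp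
    rcases hp with h | h | h
    exacts [(m0 p h).1, (m1 p h).1, (m2 p h).1]
  have hmeas := meas_le μ a hc hn _ hnd hpr ∅ (fun _ => 0) S0 (by simp) (by simp)
  rw [prod_empty, one_mul] at hmeas
  refine le_trans (le_trans (measureReal_mono ?_) hmeas) ?_
  · intro ω hω
    refine ⟨by simp, fun n hn => ?_⟩
    obtain ⟨p, hp, h1, h2⟩ := hω n hn
    refine ⟨p, ?_, h2⟩
    simp only [List.mem_append, mem_toList]
    by_cases c0 : p ≤ Z
    · exact Or.inl (Nat.mem_primesLE.2 ⟨c0, hp⟩)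
    by_cases c1 : p ≤ Y
    · exact Or.inr (Or.inl (mem_sdiff.2 ⟨Nat.mem_primesLE.2 ⟨c1, hp⟩,
        fun h => c0 (Nat.le_of_mem_primesLE h)⟩))
    have hn1 := hS n hn
    have hn2 : (1 : ℝ) < n := by exact_mod_cast (by omega : 1 < n)
    have hln : 0 < log n := log_pos hn2
    have hnK : log n ≤ log K := log_le_log (by linarith) (by exact_mod_cast (by omega : n ≤ K))
    have h4 : log ((p : ℝ) + 1) ≤ log n := by
      have h5 := th_log p
      have h6 : 0 ≤ log ((p : ℝ) + 1) := log_nonneg (by linarith [Nat.cast_nonneg (α := ℝ) p])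
      have h7 : 1 / log n * log ((p : ℝ) + 1) ≤ 1 := (mul_le_mul_of_nonneg_right h1 h6).trans h5
      rwa [one_div_mul_eq_div, div_le_one hln] at h7
    have h8 : p + 1 ≤ n := by
      exact_mod_cast (log_le_log_iff (by positivity) (by linarith)).1 h4
    exact Or.inr (Or.inr (mem_filter.2 ⟨Nat.mem_primesLE.2 ⟨by omega, hp⟩, by omega,
      (one_div_le_one_div_of_le hln hnK).trans h1⟩))
  · refine av_small _ _ _ F0.nodup_toList (fun q hq => (m0 q (mem_toList.1 hq)).1.pos) S0
      fun r => ?_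
    have hbig : ∀ S ⊆ S0, av F2.toList S ≤ (1 - v) ^ S.card := by
      intro S hS'
      have h1 := av_big S0 F2.toList (fun p hp => by
        have h := m2 p (mem_toList.1 hp)
        refine ⟨h.1.pos, fun t => (class_card S0 hS t).trans ?_⟩
        rw [Nat.div_eq_of_lt h.2]) S hS'
      rw [prod_map_toList] at h1
      have h2 := big_prod (Y := Y) (K := K) (by omega) (by omega)
      have h4 : ∏ p ∈ F2, (1 - 1 / (p : ℝ)) ≤ 1 :=
        prod_le_one (fun p hp => (fac_mem (m2 p hp).1).1.le) fun p hp => (fac_mem (m2 p hp).1).2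
      exact h1.trans (pow_le_pow_left₀ (by linarith) (by linarith) _)
    have h1 := av_mid S0 F2.toList hv0 hv1 (Y / (Z + 1) + 1) hvb hbig F1.toList (fun p hp => by
      have h := m1 p (mem_toList.1 hp)
      refine ⟨h.1.two_le, fun t => (class_card S0 hS t).trans ?_⟩
      exact Nat.succ_le_succ (Nat.div_le_div_left h.2.1 (by omega)))
      (S0.filter fun n => ∀ q ∈ F0.toList, n % q ≠ r q) (filter_subset _ _)
    rw [prod_map_toList] at h1
    have h2 := mid_prod h3 hZY hlog
    have h4 : ∏ p ∈ F1, (1 - 2 / (p : ℝ)) ≤ 1 := by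
      refine prod_le_one (fun p hp => ?_) fun p hp => ?_
      · have : (2 : ℝ) ≤ p := by exact_mod_cast (m1 p hp).1.two_le
        have : 2 / (p : ℝ) ≤ 1 := by rw [div_le_one (by linarith)]; exact this
        linarith
      · have : 0 ≤ 2 / (p : ℝ) := by positivity
        linarith
    have h5 := hW r
    have e : (S0.filter fun n => ∀ q ∈ F0, n % q ≠ r q) =
        S0.filter fun n => ∀ q ∈ F0.toList, n % q ≠ r q := by simp
    rw [e] at h5
    set c := ∏ p ∈ F1, (1 - 2 / (p : ℝ)) with hc'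
    set N := (S0.filter fun n => ∀ q ∈ F0.toList, n % q ≠ r q).card with hN
    have he := exp_pos (-12)
    have h6 : 1 - v * c ≤ exp (-(v * c)) := by linarith [add_one_le_exp (-(v * c))]
    have h7 : v * c ≤ 1 := by nlinarith
    refine h1.trans ((pow_le_pow_left₀ (by linarith) h6 N).trans ?_)
    rw [← exp_nat_mul]
    refine exp_le_exp.2 ?_
    have h8 : v * exp (-12) * W ≤ v * exp (-12) * N := by gcongr
    have h9 : v * exp (-12) * N ≤ v * c * N := by gcongr
    linarith

end Pool.Agent.RSv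
end
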